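import Pool.Agent.Helper94.AB.BaseC

/-!
# AC-30 BASECC: compactness of orbits on the base

The same proof as `base_compact` in `Pool/Agent/Helper94/AB/BaseC.lean` (the lemmas there are private:
copy them). Let `B = {S.base g | ‖S.base g‖ ≤ C, ‖S.base g⁻¹‖ ≤ C}` and
`K = {act T x₁ | T ∈ closure B}`, compact. Every `T ∈ closure B` preserves the height, maps `X` to
`closure X` and is invertible: if `S.base (g n) → T` then a subsequence of `S.base (g n)⁻¹` converges to
an inverse. In `bc_lim` the hypothesis `‖T - 1‖ ≤ 1 / 2` is used only for the injectivity of the linear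
part of `T` on `E × 0`.
-/

open Set Filter Topology

set_option linter.unusedSectionVars false

namespace Pool.AF

open Pool.SV

section

variable {E : Type*} [NormedAddCommGroup E] [NormedSpace ℝ E] [FiniteDimensional ℝ E]
  {D : Geo E}

private theorem bcc_hat_pt (g : D.Γ) (x : E) : hatHom D.Γ g (x, 1) = (g.1 x, 1) := by
  have h : hatHom D.Γ g (x, 1) = (g.1.linear x + (1 : ℝ) • g.1 0, (1 : ℝ)) := rfl
  have h2 : g.1 x = g.1.linear x + g.1 0 := by
    have := g.1.map_vadd 0 x
    simpa using this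
  rw [h, one_smul, ← h2]

private theorem bcc_idem (S : InvSub D) (v : E × ℝ) : S.e (S.e v) = S.e v :=
  congrArg (fun T : Alg E => T v) S.idem

private theorem bcc_e_snd (S : InvSub D) (v : E × ℝ) : (S.e v).2 = 0 :=
  ((S.range (S.e v)).1 (bcc_idem S v)).1

private theorem bcc_e_fst (S : InvSub D) (v : E × ℝ) : (S.e v).1 ∈ S.U :=
  ((S.range (S.e v)).1 (bcc_idem S v)).2

private theorem bcc_base (S : InvSub D) (g : D.Γ) (v : E × ℝ) :
    S.base g v = S.e v + (hatHom D.Γ g (v - S.e v) - S.e (hatHom D.Γ g (v - S.e v))) := rfl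

private theorem bcc_add (S : InvSub D) {x u : E} (hx : x ∈ D.X) (hu : u ∈ S.U) :
    x + u ∈ D.X := by
  have := S.le hu x hx 1
  rwa [one_smul] at this

private theorem bcc_sub (S : InvSub D) {x u : E} (hx : x ∈ D.X) (hu : u ∈ S.U) :
    x - u ∈ D.X := by
  rw [sub_eq_add_neg]
  exact bcc_add S hx (S.U.neg_mem hu)

/-- the key computation -/
private theorem bcc_act (S : InvSub D) (g : D.Γ) (x : E) : ∃ u ∈ S.U, ∃ u' ∈ S.U,
    act (S.base g) x = u + (g.1 (x - u) - u') := by
  refine ⟨(S.e (x, 1)).1, bcc_e_fst S _, (S.e (hatHom D.Γ g ((x, 1) - S.e (x, 1)))).1,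
    bcc_e_fst S _, ?_⟩
  unfold act
  rw [bcc_base]
  have h1 : ((x, (1 : ℝ)) - S.e (x, 1) : E × ℝ) = (x - (S.e (x, 1)).1, 1) := by
    refine Prod.ext rfl ?_
    change 1 - (S.e (x, 1)).2 = 1
    rw [bcc_e_snd, sub_zero]
  rw [h1, bcc_hat_pt]
  rfl

private theorem bcc_act_mem (S : InvSub D) (g : D.Γ) (x : E) (hx : x ∈ D.X) :
    act (S.base g) x ∈ D.X := by
  obtain ⟨u, hu, u', hu', h⟩ := bcc_act S g x
  rw [h, add_comm]
  exact bcc_add S (bcc_sub S (D.inv _ g.2 _ (bcc_sub S hx hu)) hu') hu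

private theorem bcc_base_snd (S : InvSub D) (g : D.Γ) (v : E × ℝ) : (S.base g v).2 = v.2 := by
  rw [bcc_base]
  change (S.e v).2 + ((v - S.e v).2 - (S.e (hatHom D.Γ g (v - S.e v))).2) = v.2
  rw [bcc_e_snd, bcc_e_snd, zero_add, sub_zero]
  change v.2 - (S.e v).2 = v.2
  rw [bcc_e_snd, sub_zero]

private theorem bcc_lim (T T' : Alg E) (h1 : ∀ x ∈ D.X, act T x ∈ closure D.X)
    (h2 : ∀ v : E × ℝ, (T v).2 = v.2) (h3 : T' * T = 1) : ∀ x ∈ D.X, act T x ∈ D.X := by
  let L : E →ₗ[ℝ] E := (LinearMap.fst ℝ E ℝ) ∘ₗ (T : (E × ℝ) →ₗ[ℝ] (E × ℝ)) ∘ₗ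
    (LinearMap.inl ℝ E ℝ)
  have hL : ∀ x : E, L x = (T (x, 0)).1 := fun x => rfl
  have hinj : Function.Injective L := by
    rw [injective_iff_map_eq_zero]
    intro x hx
    have h4 : T (x, 0) = 0 := Prod.ext hx (h2 (x, 0))
    have h5 : T' (T (x, 0)) = (x, (0 : ℝ)) := congrArg (fun R : Alg E => R (x, 0)) h3
    rw [h4, map_zero] at h5
    exact (congrArg Prod.fst h5).symm
  have hsurj : Function.Surjective L := LinearMap.surjective_of_injective hinj
  have hopen : IsOpenMap L := L.isOpenMap_of_finiteDimensional hsurj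
  have hact : ∀ x : E, act T x = L x + (T (0, 1)).1 := by
    intro x
    rw [hL]
    unfold act
    rw [← Prod.fst_add, ← map_add]
    congr 2
    ext
    · simp
    · simp
  have hopen' : IsOpen ((fun x => act T x) '' D.X) := by
    have h4 : (fun x => act T x) '' D.X = (fun y => y + (T (0, 1)).1) '' (L '' D.X) := by
      rw [Set.image_image]
      exact Set.image_congr fun x _ => hact x
    rw [h4]
    exact (Homeomorph.addRight (T (0, 1)).1).isOpenMap _ (hopen _ D.isOpen)
  have hsub : (fun x => act T x) '' D.X ⊆ interior (closure D.X) := by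
    rw [hopen'.subset_interior_iff]
    rintro _ ⟨x, hx, rfl⟩
    exact h1 x hx
  rw [D.convex.interior_closure_eq_interior_of_nonempty_interior
    (by rw [D.isOpen.interior_eq]; exact D.nonempty), D.isOpen.interior_eq] at hsub
  intro x hx
  exact hsub ⟨x, hx, rfl⟩

end

theorem base_compactC {E : Type*} [NormedAddCommGroup E] [NormedSpace ℝ E]
    [FiniteDimensional ℝ E] {D : Geo E} (S : InvSub D) (x₁ : E) (hx : x₁ ∈ D.X)
    (h0 : S.e (x₁, 1) = 0) (C : ℝ) :
    ∃ K ⊆ D.X, IsCompact K ∧ ∀ g : D.Γ, ‖S.base g‖ ≤ C → ‖S.base g⁻¹‖ ≤ C →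
      act (S.base g) x₁ ∈ K := by
  have : FiniteDimensional ℝ (Alg E) := inferInstance
  have : ProperSpace (Alg E) := FiniteDimensional.proper ℝ (Alg E)
  set B : Set (Alg E × Alg E) :=
    {T | ∃ g : D.Γ, S.base g = T.1 ∧ S.base g⁻¹ = T.2 ∧ ‖T.1‖ ≤ C ∧ ‖T.2‖ ≤ C} with hB
  have hcont : ∀ x : E, Continuous fun T : Alg E × Alg E => act T.1 x := by
    intro x
    unfold act
    fun_prop
  have hcl1 : IsClosed {T : Alg E × Alg E | ‖T.1‖ ≤ C} :=
    isClosed_le (by fun_prop) continuous_const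
  have hcl2 : IsClosed {T : Alg E × Alg E | ‖T.2‖ ≤ C} :=
    isClosed_le (by fun_prop) continuous_const
  have hclosed : IsClosed {T : Alg E × Alg E | ‖T.1‖ ≤ C ∧ ‖T.2‖ ≤ C} := hcl1.inter hcl2
  have hball : B ⊆ {T : Alg E × Alg E | ‖T.1‖ ≤ C ∧ ‖T.2‖ ≤ C} := by
    rintro T ⟨g, -, -, h⟩
    exact h
  have hBball : closure B ⊆ {T : Alg E × Alg E | ‖T.1‖ ≤ C ∧ ‖T.2‖ ≤ C} :=
    closure_minimal hball hclosed
  have hcomp : IsCompact (closure B) := by
    refine Metric.isCompact_of_isClosed_isBounded isClosed_closure ?_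
    refine (Metric.isBounded_closedBall (x := (0 : Alg E × Alg E)) (r := C)).subset ?_
    intro T hT
    rw [Metric.mem_closedBall, dist_zero_right]
    exact max_le (hBball hT).1 (hBball hT).2
  refine ⟨(fun T : Alg E × Alg E => act T.1 x₁) '' closure B, ?_, hcomp.image (hcont x₁), ?_⟩
  · rintro _ ⟨T, hT, rfl⟩
    refine bcc_lim (D := D) T.1 T.2 ?_ ?_ ?_ x₁ hx
    · intro x hx'
      have h1 : Set.MapsTo (fun T : Alg E × Alg E => act T.1 x) B D.X := by
        rintro T ⟨g, hg, -, -⟩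
        change act T.1 x ∈ D.X
        rw [← hg]
        exact bcc_act_mem S g x hx'
      exact h1.closure (hcont x) hT
    · intro v
      have h2 : closure B ⊆ {T : Alg E × Alg E | (T.1 v).2 = v.2} := by
        refine closure_minimal ?_ (isClosed_eq (by fun_prop) continuous_const)
        rintro T ⟨g, hg, -, -⟩
        change (T.1 v).2 = v.2
        rw [← hg]
        exact bcc_base_snd S g v
      exact h2 hT
    · have h2 : closure B ⊆ {T : Alg E × Alg E | T.2 * T.1 = 1} := by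
        refine closure_minimal ?_ (isClosed_eq (by fun_prop) continuous_const)
        rintro T ⟨g, hg, hg', -⟩
        change T.2 * T.1 = 1
        rw [← hg, ← hg', ← map_mul, inv_mul_cancel, map_one]
      exact h2 hT
  · intro g hg hg'
    exact ⟨(S.base g, S.base g⁻¹), subset_closure ⟨g, rfl, rfl, hg, hg'⟩, rfl⟩

end Pool.AF
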