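import Pool.Agent.Helper94.AC.Defs
import Pool.Agent.Helper94.AM.Star1

/-!
# AC-3 CLIFF: a normal subgroup in dimension four

`G` acts on `V`, `dim V = 4`, every subgroup of finite index irreducibly; `N` is a normal subgroup
acting with determinant one. Then either `N` is bounded, or `V` has a complex structure `J` commuting
with `N` such that no complex line is invariant under `N`, or the linear span of `N` is
`End V`.

Proof. Let `W` be a nonzero `N`-invariant subspace of minimal dimension.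

(1) `dim W = 1`. The sum of the lines `ρ g W` is `G`-invariant, so it is `V`: there is a basis of
common eigenvectors of `N`. For a common eigenvector `v` the subspace
`same v = {u | ∀ δ ∈ N, ∀ c, ρ δ v = c • v → ρ δ u = c • u}` is mapped by `ρ g` to `same (ρ g v)`; there
are at most four such subspaces, permuted by `G`, so a subgroup of finite index preserves `same v`,
and `same v = V` (this is done in `Pool/Agent/Helper94/AL/Cliff.lean`, `scalar_case`, private there:
copy). So `N` acts by scalars `c` with `c ^ 4 = 1`: bounded.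

(2) `dim W = 2`. There is `g` with `ρ g W ≠ W`, and then `V = W ⊕ ρ g W` (`W ⊓ ρ g W` is `N`-invariant of
smaller dimension). If `ρ g W` is not isomorphic to `W` as a representation of `N` then the only
`N`-invariant subspaces of dimension 2 are `W` and `ρ g W` (another one would be a graph of an
isomorphism), `G` permutes them, and a subgroup of index `≤ 2` preserves `W`: contradiction. So
there is an isomorphism `θ : W → ρ g W` commuting with `N`, and
`J (w + θ w') = - w' + θ w` is a complex structure commuting with `N`. If there is `P`, not `⊥, ⊤`,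
invariant under `J` and `N`, then `dim P = 2` (`P` has even dimension), `P` is irreducible for `N`
(minimality) and, as above (graphs), isomorphic to `W` and to `V / P ≅ W`. `N` commutes with
`J` on `P`: the elements of `N` act on `P` as `a + b J`, of determinant `a ^ 2 + b ^ 2` on `P`, and on
`V`, isomorphic to `P ⊕ P`, with determinant `(a ^ 2 + b ^ 2) ^ 2 = 1`; so `N` is bounded on `P` and on
`V`.

(3) `dim W = 3` is impossible: by complete reducibility (`star_ss` in
`Pool/Agent/Helper94/AM/Star1.lean`) `W` has an `N`-invariant complement, of dimension one.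

(4) `dim W = 4`: `N` acts irreducibly on `V`. If some `T` commuting with `N` is not scalar: `T` has no
real eigenvalue (an eigenspace would be invariant), so its minimal polynomial, which is
irreducible as `ker (p T)` is invariant for each factor `p`, is of degree two without real root:
`T ^ 2 + a T + b = 0`, `a ^ 2 < 4 b`, and `J = (T + a / 2) / sqrt (b - a ^ 2 / 4)` satisfies
`J ^ 2 = -1`. There is no invariant `P`. If only the scalars commute with `N` the linear span
(an algebra) is `End V`, by the density theorem (for instance Burnside's theorem over the complex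
numbers, or `jacobson_density` in Mathlib, or the argument of `span_eq_top` in
`Pool/Agent/Helper94/AL/Burn.lean`).
-/

open Set

set_option linter.unusedSectionVars false

namespace Pool.AF

namespace Cliff4

section

variable {G V : Type*} [Group G] [AddCommGroup V] [Module ℝ V]

private theorem inv_app (ρ : G →* (V →ₗ[ℝ] V)) (g : G) (v : V) : ρ g⁻¹ (ρ g v) = v := by
  have h : ρ g⁻¹ * ρ g = 1 := by rw [← map_mul, inv_mul_cancel, map_one]
  exact LinearMap.congr_fun h v

private theorem app_inv (ρ : G →* (V →ₗ[ℝ] V)) (g : G) (v : V) : ρ g (ρ g⁻¹ v) = v := by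
  have h : ρ g * ρ g⁻¹ = 1 := by rw [← map_mul, mul_inv_cancel, map_one]
  exact LinearMap.congr_fun h v

private theorem conj_app (ρ : G →* (V →ₗ[ℝ] V)) (g δ : G) (v : V) :
    ρ δ (ρ g v) = ρ g (ρ (g⁻¹ * δ * g) v) := by
  have h : ρ δ * ρ g = ρ g * ρ (g⁻¹ * δ * g) := by
    rw [← map_mul, ← map_mul]; congr 1; group
  exact LinearMap.congr_fun h v

/-- The vectors with the same character as `v`. -/
private def same (ρ : G →* (V →ₗ[ℝ] V)) (Δ : Subgroup G) (v : V) : Submodule ℝ V where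
  carrier := {w | ∀ δ ∈ Δ, ∀ c : ℝ, ρ δ v = c • v → ρ δ w = c • w}
  add_mem' := by
    intro a b ha hb δ hδ c hc
    rw [map_add, ha δ hδ c hc, hb δ hδ c hc, smul_add]
  zero_mem' := by
    intro δ _ c _
    rw [map_zero, smul_zero]
  smul_mem' := by
    intro r w hw δ hδ c hc
    rw [map_smul, hw δ hδ c hc, smul_comm]

private theorem self_mem (ρ : G →* (V →ₗ[ℝ] V)) (Δ : Subgroup G) (v : V) :
    v ∈ same ρ Δ v := fun _ _ _ hc => hc

private theorem same_app (ρ : G →* (V →ₗ[ℝ] V)) (Δ : Subgroup G) [hN : Δ.Normal] (g : G)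
    (v w : V) (hw : w ∈ same ρ Δ v) : ρ g w ∈ same ρ Δ (ρ g v) := by
  intro δ hδ c hc
  have hδ' : g⁻¹ * δ * g ∈ Δ := by
    have := hN.conj_mem δ hδ g⁻¹
    rwa [inv_inv] at this
  rw [conj_app] at hc ⊢
  have h1 : ρ (g⁻¹ * δ * g) v = c • v := by
    have h2 := congrArg (ρ g⁻¹) hc
    rw [inv_app, map_smul, inv_app] at h2
    exact h2
  rw [hw _ hδ' c h1, map_smul]

private theorem map_same (ρ : G →* (V →ₗ[ℝ] V)) (Δ : Subgroup G) [Δ.Normal] (g : G) (v : V) :
    (same ρ Δ v).map (ρ g) = same ρ Δ (ρ g v) := by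
  apply le_antisymm
  · rintro _ ⟨w, hw, rfl⟩
    exact same_app ρ Δ g v w hw
  · intro w hw
    refine ⟨ρ g⁻¹ w, ?_, app_inv ρ g w⟩
    have := same_app ρ Δ g⁻¹ _ w hw
    rwa [inv_app] at this

/-- Common eigenvectors. -/
private def ceig (ρ : G →* (V →ₗ[ℝ] V)) (Δ : Subgroup G) : Set V :=
  {v | ∀ δ ∈ Δ, ∃ c : ℝ, ρ δ v = c • v}

private theorem ceig_app (ρ : G →* (V →ₗ[ℝ] V)) (Δ : Subgroup G) [hN : Δ.Normal] (g : G)
    (v : V) (hv : v ∈ ceig ρ Δ) : ρ g v ∈ ceig ρ Δ := by
  intro δ hδ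
  have hδ' : g⁻¹ * δ * g ∈ Δ := by
    have := hN.conj_mem δ hδ g⁻¹
    rwa [inv_inv] at this
  obtain ⟨c, hc⟩ := hv _ hδ'
  exact ⟨c, by rw [conj_app, hc, map_smul]⟩

private theorem same_eq_basis {ι : Type*} (ρ : G →* (V →ₗ[ℝ] V)) (Δ : Subgroup G)
    (b : Module.Basis ι ℝ V) (hb : ∀ i, b i ∈ ceig ρ Δ) (v : V) (hv : v ∈ ceig ρ Δ)
    (hv0 : v ≠ 0) : ∃ i, same ρ Δ v = same ρ Δ (b i) := by
  have h1 : ∃ i, b.repr v i ≠ 0 := by
    by_contra hcon
    push Not at hcon
    apply hv0
    apply b.repr.injective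
    rw [map_zero]
    exact Finsupp.ext hcon
  obtain ⟨i, hi⟩ := h1
  refine ⟨i, ?_⟩
  -- the characters agree
  have key : ∀ δ ∈ Δ, ∀ c c' : ℝ, ρ δ v = c • v → ρ δ (b i) = c' • b i → c = c' := by
    intro δ hδ c c' hc hc'
    have h2 : ∀ w : V, b.repr (ρ δ w) i = c' * b.repr w i := by
      have h3 : (b.coord i).comp (ρ δ) = c' • b.coord i := by
        apply b.ext
        intro j
        obtain ⟨d, hd⟩ := hb j δ hδ
        rw [LinearMap.comp_apply, hd, map_smul, LinearMap.smul_apply]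
        by_cases hij : j = i
        · subst hij
          have h4 : d • b j = c' • b j := hd.symm.trans hc'
          rw [← map_smul, h4, map_smul]
        · rw [Module.Basis.coord_apply, Module.Basis.repr_self,
            Finsupp.single_eq_of_ne (Ne.symm hij), smul_zero, smul_zero]
      intro w
      exact LinearMap.congr_fun h3 w
    have h5 := h2 v
    rw [hc, map_smul, Finsupp.smul_apply, smul_eq_mul] at h5
    exact mul_right_cancel₀ hi h5
  ext w
  constructor
  · intro hw δ hδ c' hc'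
    obtain ⟨c, hc⟩ := hv δ hδ
    rw [hw δ hδ c hc, key δ hδ c c' hc hc']
  · intro hw δ hδ c hc
    obtain ⟨c', hc'⟩ := hb i δ hδ
    rw [hw δ hδ c' hc', key δ hδ c c' hc hc']

/-- A subspace with finitely many translates is trivial. -/
private theorem finite_orbit (ρ : G →* (V →ₗ[ℝ] V))
    (hirr : ∀ H : Subgroup G, H.FiniteIndex → ∀ U : Submodule ℝ V,
      (∀ h ∈ H, ∀ u ∈ U, ρ h u ∈ U) → U = ⊥ ∨ U = ⊤)
    (W : Submodule ℝ V) (hfin : (Set.range fun g : G => W.map (ρ g)).Finite) :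
    W = ⊥ ∨ W = ⊤ := by
  classical
  let act : MulAction G (Submodule ℝ V) :=
    { smul := fun g U => U.map (ρ g)
      one_smul := by
        intro U
        show U.map (ρ 1) = U
        rw [map_one]
        exact Submodule.map_id U
      mul_smul := by
        intro g h U
        show U.map (ρ (g * h)) = (U.map (ρ h)).map (ρ g)
        rw [map_mul]
        exact Submodule.map_comp _ _ _ }
  have hact : ∀ (g : G) (U : Submodule ℝ V), g • U = U.map (ρ g) := fun _ _ => rfl
  have horb : (MulAction.orbit G W).Finite := hfin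
  have hfi : (MulAction.stabilizer G W).FiniteIndex := by
    constructor
    rw [MulAction.index_stabilizer]
    have hne : (MulAction.orbit G W).Nonempty := MulAction.nonempty_orbit _
    exact (Set.ncard_pos horb).2 hne |>.ne'
  refine hirr _ hfi W ?_
  intro h hh u hu
  have h1 : W.map (ρ h) = W := hh
  have h2 : ρ h u ∈ W.map (ρ h) := ⟨u, hu, rfl⟩
  rwa [h1] at h2

private theorem scalar_case [FiniteDimensional ℝ V] (ρ : G →* (V →ₗ[ℝ] V))
    (hirr : ∀ H : Subgroup G, H.FiniteIndex → ∀ U : Submodule ℝ V,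
      (∀ h ∈ H, ∀ u ∈ U, ρ h u ∈ U) → U = ⊥ ∨ U = ⊤)
    (Δ : Subgroup G) [Δ.Normal] (v : V) (hv0 : v ≠ 0) (hv : v ∈ ceig ρ Δ) :
    same ρ Δ v = ⊤ := by
  classical
  have hS : Submodule.span ℝ (ceig ρ Δ) = ⊤ := by
    rcases hirr ⊤ inferInstance (Submodule.span ℝ (ceig ρ Δ)) (by
      intro g _ u hu
      have h1 : (Submodule.span ℝ (ceig ρ Δ)).map (ρ g) ≤ Submodule.span ℝ (ceig ρ Δ) := by
        rw [Submodule.map_span, Submodule.span_le]
        rintro _ ⟨w, hw, rfl⟩
        exact Submodule.subset_span (ceig_app ρ Δ g w hw)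
      exact h1 ⟨u, hu, rfl⟩) with h | h
    · exfalso
      apply hv0
      have h2 : v ∈ Submodule.span ℝ (ceig ρ Δ) := Submodule.subset_span hv
      rw [h] at h2
      exact h2
    · exact h
  set b := Module.Basis.ofSpan (K := ℝ) hS.ge with hb
  have hbc : ∀ i, b i ∈ ceig ρ Δ := fun i => Module.Basis.ofSpan_subset hS.ge ⟨i, rfl⟩
  have hfinι := Module.Finite.finite_basis b
  rcases finite_orbit ρ hirr (same ρ Δ v) (by
    apply (Set.finite_range (fun i => same ρ Δ (b i))).subset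
    rintro _ ⟨g, rfl⟩
    show (same ρ Δ v).map (ρ g) ∈ _
    rw [map_same]
    have hne : ρ g v ≠ 0 := by
      intro h0
      apply hv0
      rw [← inv_app ρ g v, h0, map_zero]
    obtain ⟨i, hi⟩ := same_eq_basis ρ Δ b hbc (ρ g v) (ceig_app ρ Δ g v hv) hne
    exact ⟨i, hi.symm⟩) with h | h
  · exfalso
    apply hv0
    have := self_mem ρ Δ v
    rw [h] at this
    exact this
  · exact h

/-- The projection along an invariant complement commutes with the group. -/
private theorem comm_proj (ρ : G →* (V →ₗ[ℝ] V)) (Δ : Subgroup G) {P Q : Submodule ℝ V}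
    (hPQ : IsCompl P Q) (hP : ∀ δ ∈ Δ, ∀ u ∈ P, ρ δ u ∈ P) (hQ : ∀ δ ∈ Δ, ∀ u ∈ Q, ρ δ u ∈ Q) :
    ∃ E : V →ₗ[ℝ] V, (∀ v ∈ P, E v = v) ∧ (∀ v ∈ Q, E v = 0) ∧ (∀ v, E v ∈ P) ∧
      (∀ v, v - E v ∈ Q) ∧ ∀ δ ∈ Δ, ∀ v, E (ρ δ v) = ρ δ (E v) := by
  have hE1 : ∀ v ∈ P, (P.subtype ∘ₗ Submodule.projectionOnto P Q hPQ) v = v := by
    intro v hv
    have h := Submodule.projectionOnto_apply_left hPQ ⟨v, hv⟩
    rw [LinearMap.comp_apply]
    have h' : Submodule.projectionOnto P Q hPQ v = ⟨v, hv⟩ := h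
    rw [h']
    rfl
  have hE2 : ∀ v ∈ Q, (P.subtype ∘ₗ Submodule.projectionOnto P Q hPQ) v = 0 := by
    intro v hv
    rw [LinearMap.comp_apply, (Submodule.projectionOnto_apply_eq_zero_iff hPQ).2 hv, map_zero]
  have hE3 : ∀ v, (P.subtype ∘ₗ Submodule.projectionOnto P Q hPQ) v ∈ P := by
    intro v
    exact (Submodule.projectionOnto P Q hPQ v).2
  have hdec : ∀ v, ∃ p ∈ P, ∃ q ∈ Q, v = p + q := by
    intro v
    have hv : v ∈ P ⊔ Q := by rw [hPQ.sup_eq_top]; trivial
    obtain ⟨p, hp, q, hq, h⟩ := Submodule.mem_sup.1 hv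
    exact ⟨p, hp, q, hq, h.symm⟩
  refine ⟨_, hE1, hE2, hE3, ?_, ?_⟩
  · intro v
    obtain ⟨p, hp, q, hq, rfl⟩ := hdec v
    rw [map_add, hE1 p hp, hE2 q hq, add_zero, add_sub_cancel_left]
    exact hq
  · intro δ hδ v
    obtain ⟨p, hp, q, hq, rfl⟩ := hdec v
    rw [map_add (ρ δ), map_add, map_add, hE1 p hp, hE2 q hq, hE1 _ (hP δ hδ p hp),
      hE2 _ (hQ δ hδ q hq), add_zero, add_zero]

/-- Burnside: only scalars commute. -/
private theorem span_top [FiniteDimensional ℝ V] [Nontrivial V] (ρ : G →* (V →ₗ[ℝ] V))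
    (Δ : Subgroup G)
    (hirr : ∀ U : Submodule ℝ V, (∀ δ ∈ Δ, ∀ u ∈ U, ρ δ u ∈ U) → U = ⊥ ∨ U = ⊤)
    (hsc : ∀ T : V →ₗ[ℝ] V, (∀ δ ∈ Δ, ∀ v, T (ρ δ v) = ρ δ (T v)) → ∃ c : ℝ, ∀ v, T v = c • v) :
    Submodule.span ℝ ((fun δ => ρ δ) '' (Δ : Set G)) = ⊤ := by
  classical
  set A : Subalgebra ℝ (Module.End ℝ V) := Algebra.adjoin ℝ ((fun δ => ρ δ) '' (Δ : Set G))
    with hA
  have hAspan : Subalgebra.toSubmodule A = Submodule.span ℝ ((fun δ => ρ δ) '' (Δ : Set G)) := by
    rw [hA, Algebra.adjoin_eq_span]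
    congr 1
    have h1 : ((fun δ => ρ δ) '' (Δ : Set G)) = ((Δ.toSubmonoid.map ρ : Submonoid _) : Set _) := by
      rfl
    rw [h1, Submonoid.closure_eq]
  have hmem : ∀ δ ∈ Δ, ρ δ ∈ A := fun δ hδ => Algebra.subset_adjoin ⟨δ, hδ, rfl⟩
  have hbt : ∀ U : Submodule A V, U = ⊥ ∨ U = ⊤ := by
    intro U
    rcases hirr (U.restrictScalars ℝ) (by
      intro δ hδ u hu
      have h2 := U.smul_mem ⟨ρ δ, hmem δ hδ⟩ hu
      exact h2) with h | h
    · left
      rw [eq_bot_iff]
      intro u hu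
      have h3 : u ∈ U.restrictScalars ℝ := hu
      rw [h] at h3
      exact h3
    · right
      rw [eq_top_iff]
      intro u _
      have h3 : u ∈ U.restrictScalars ℝ := by rw [h]; trivial
      exact h3
  have hsimple : IsSimpleModule A V := by
    rw [isSimpleModule_iff]
    have : Nontrivial (Submodule A V) := (Submodule.nontrivial_iff A).2 inferInstance
    exact ⟨hbt⟩
  rw [← hAspan, eq_top_iff]
  intro T _
  have hcomm : ∀ φ : Module.End A V, ∃ c : ℝ, ∀ v, φ v = c • v := by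
    intro φ
    have := hsc (φ.restrictScalars ℝ) (by
      intro δ hδ v
      have h2 := φ.map_smul (⟨ρ δ, hmem δ hδ⟩ : A) v
      exact h2)
    exact this
  let f : Module.End (Module.End A V) V :=
    { toFun := fun v => T v
      map_add' := fun v w => T.map_add v w
      map_smul' := by
        intro φ v
        obtain ⟨c, hc⟩ := hcomm φ
        show T (φ v) = φ (T v)
        rw [hc, hc, T.map_smul] }
  let b := Module.finBasis ℝ V
  obtain ⟨r, hr⟩ := jacobson_density f (Finset.univ.image b)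
  have h5 : T = (r : Module.End ℝ V) := by
    apply b.ext
    intro i
    exact hr (b i) (Finset.mem_image_of_mem _ (Finset.mem_univ i))
  rw [h5]
  exact r.2

/-- A nonscalar operator commuting with an irreducible group gives a complex structure. -/
private theorem exists_J [FiniteDimensional ℝ V] [Nontrivial V] (ρ : G →* (V →ₗ[ℝ] V))
    (Δ : Subgroup G)
    (hirr : ∀ U : Submodule ℝ V, (∀ δ ∈ Δ, ∀ u ∈ U, ρ δ u ∈ U) → U = ⊥ ∨ U = ⊤)
    (T : V →ₗ[ℝ] V) (hT : ∀ δ ∈ Δ, ∀ v, T (ρ δ v) = ρ δ (T v))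
    (hns : ¬ ∃ c : ℝ, ∀ v, T v = c • v) :
    ∃ J : V →ₗ[ℝ] V, (∀ v, J (J v) = -v) ∧ ∀ δ ∈ Δ, ∀ v, J (ρ δ v) = ρ δ (J v) := by
  classical
  -- an operator commuting with the group is zero or injective
  have hker : ∀ S : V →ₗ[ℝ] V, (∀ δ ∈ Δ, ∀ v, S (ρ δ v) = ρ δ (S v)) →
      LinearMap.ker S = ⊥ ∨ S = 0 := by
    intro S hS
    rcases hirr (LinearMap.ker S) (by
      intro δ hδ u hu
      rw [LinearMap.mem_ker] at hu ⊢
      rw [hS δ hδ, hu, map_zero]) with h | h
    · exact Or.inl h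
    · exact Or.inr (LinearMap.ker_eq_top.1 h)
  have hcp : ∀ q : Polynomial ℝ, ∀ δ ∈ Δ, ∀ v,
      (Polynomial.aeval T q) (ρ δ v) = ρ δ ((Polynomial.aeval T q) v) := by
    intro q δ hδ v
    have h1 : Commute T (ρ δ) := by
      change T * ρ δ = ρ δ * T
      ext w
      exact hT δ hδ w
    have h2 : Commute (Polynomial.aeval T q) (ρ δ) := by
      induction q using Polynomial.induction_on' with
      | add p q hp hq => rw [map_add]; exact hp.add_left hq
      | monomial n a =>
        rw [Polynomial.aeval_monomial]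
        exact (Algebra.commute_algebraMap_left a (ρ δ)).mul_left (h1.pow_left n)
    exact LinearMap.congr_fun h2 v
  have hint : IsIntegral ℝ T := Algebra.IsIntegral.isIntegral T
  have hmp : 0 < (minpoly ℝ T).natDegree := minpoly.natDegree_pos hint
  obtain ⟨q, hq, hqd⟩ := Polynomial.exists_irreducible_of_natDegree_pos hmp
  obtain ⟨r, hr⟩ := hqd
  have hm0 : minpoly ℝ T ≠ 0 := minpoly.ne_zero hint
  have hr0 : r ≠ 0 := by
    rintro rfl
    rw [mul_zero] at hr
    exact hm0 hr
  have hqT : Polynomial.aeval T q = 0 := by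
    rcases hker (Polynomial.aeval T q) (hcp q) with h | h
    · exfalso
      have h1 : Polynomial.aeval T (q * r) = 0 := by rw [← hr, minpoly.aeval]
      rw [map_mul] at h1
      have h2 : Polynomial.aeval T r = 0 := by
        ext v
        have h3 := LinearMap.congr_fun h1 v
        have h4 : (Polynomial.aeval T r) v ∈ LinearMap.ker (Polynomial.aeval T q) := by
          rw [LinearMap.mem_ker]
          exact h3
        rw [h] at h4
        exact h4
      have h5 := minpoly.degree_le_of_ne_zero ℝ T hr0 h2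
      have h6 : 0 < q.natDegree := hq.natDegree_pos
      have h7 : (minpoly ℝ T).natDegree = q.natDegree + r.natDegree := by
        rw [hr, Polynomial.natDegree_mul hq.ne_zero hr0]
      have h8 := Polynomial.natDegree_le_natDegree h5
      omega
    · exact h
  have hqdeg : q.natDegree ≤ 2 := Polynomial.natDegree_le_of_degree_le hq.degree_le_two
  -- the quadratic relation
  have hquad : ∀ v, q.coeff 2 • T (T v) + q.coeff 1 • T v + q.coeff 0 • v = 0 := by
    intro v
    have h1 := Polynomial.as_sum_range' q 3 (by omega)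
    have h2 : Polynomial.aeval T q = q.coeff 0 • (1 : V →ₗ[ℝ] V) + q.coeff 1 • T
        + q.coeff 2 • (T * T) := by
      conv_lhs => rw [h1]
      rw [map_sum, Finset.sum_range_succ, Finset.sum_range_succ, Finset.sum_range_succ,
        Finset.sum_range_zero, zero_add]
      rw [Polynomial.aeval_monomial, Polynomial.aeval_monomial, Polynomial.aeval_monomial]
      rw [pow_zero, pow_one, pow_two, ← Algebra.smul_def, ← Algebra.smul_def, ← Algebra.smul_def]
    rw [hqT] at h2
    have h3 := LinearMap.congr_fun h2 v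
    rw [LinearMap.add_apply, LinearMap.add_apply, LinearMap.smul_apply, LinearMap.smul_apply,
      LinearMap.smul_apply] at h3
    have h4 : (0 : V) = q.coeff 0 • v + q.coeff 1 • T v + q.coeff 2 • T (T v) := h3
    rw [h4]
    abel
  have hinj : ∀ c : ℝ, LinearMap.ker (T - c • LinearMap.id) = ⊥ := by
    intro c
    rcases hker (T - c • LinearMap.id) (by
      intro δ hδ v
      rw [LinearMap.sub_apply, LinearMap.sub_apply, LinearMap.smul_apply, LinearMap.smul_apply,
        LinearMap.id_apply, LinearMap.id_apply, hT δ hδ, map_sub, map_smul]) with h | h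
    · exact h
    · exfalso
      apply hns
      refine ⟨c, fun v => ?_⟩
      have h1 := LinearMap.congr_fun h v
      rw [LinearMap.sub_apply, LinearMap.smul_apply, LinearMap.id_apply, LinearMap.zero_apply,
        sub_eq_zero] at h1
      exact h1
  have hinj' : ∀ (c : ℝ) (v : V), T v = c • v → v = 0 := by
    intro c v hv
    have h1 : v ∈ LinearMap.ker (T - c • LinearMap.id) := by
      rw [LinearMap.mem_ker, LinearMap.sub_apply, LinearMap.smul_apply, LinearMap.id_apply, hv,
        sub_self]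
    rw [hinj c] at h1
    exact h1
  have hq2 : q.coeff 2 ≠ 0 := by
    intro h2
    obtain ⟨v, hv⟩ := exists_ne (0 : V)
    have h3 := hquad v
    rw [h2, zero_smul, zero_add] at h3
    by_cases h1 : q.coeff 1 = 0
    · rw [h1, zero_smul, zero_add] at h3
      rcases smul_eq_zero.1 h3 with h4 | h4
      · apply hq.ne_zero
        rw [Polynomial.as_sum_range' q 3 (by omega)]
        rw [Finset.sum_range_succ, Finset.sum_range_succ, Finset.sum_range_succ,
          Finset.sum_range_zero, h2, h1, h4]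
        simp
      · exact hv h4
    · apply hv
      apply hinj' (-(q.coeff 1)⁻¹ * q.coeff 0)
      have h4 : q.coeff 1 • T v = -(q.coeff 0 • v) := eq_neg_of_add_eq_zero_left h3
      have h5 : T v = (q.coeff 1)⁻¹ • (q.coeff 1 • T v) := by
        rw [smul_smul, inv_mul_cancel₀ h1, one_smul]
      rw [h5, h4, smul_neg, smul_smul, neg_mul, neg_smul]
  set a : ℝ := q.coeff 1 / q.coeff 2 with ha
  set b : ℝ := q.coeff 0 / q.coeff 2 with hb
  have hTT : ∀ v, T (T v) = -(a • T v) - b • v := by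
    intro v
    have h1 := hquad v
    have h2 : T (T v) = (q.coeff 2)⁻¹ • (q.coeff 2 • T (T v)) := by
      rw [smul_smul, inv_mul_cancel₀ hq2, one_smul]
    have h3 : q.coeff 2 • T (T v) = -(q.coeff 1 • T v) - q.coeff 0 • v := by
      have h4 : q.coeff 2 • T (T v) + (q.coeff 1 • T v + q.coeff 0 • v) = 0 := by
        rw [← add_assoc]; exact h1
      rw [eq_neg_of_add_eq_zero_left h4]
      abel
    rw [h2, h3, smul_sub, smul_neg, smul_smul, smul_smul, ha, hb, div_eq_inv_mul, div_eq_inv_mul]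
  have hD : 0 < b - a ^ 2 / 4 := by
    by_contra hcon
    push Not at hcon
    set e := Real.sqrt (a ^ 2 / 4 - b) with he
    have hee : e * e = a ^ 2 / 4 - b := Real.mul_self_sqrt (by linarith)
    obtain ⟨v, hv⟩ := exists_ne (0 : V)
    -- (T + a/2 - e) (T + a/2 + e) = 0
    set w := T v + (a / 2 + e) • v with hw
    have h1 : T w = (e - a / 2) • w := by
      rw [hw, map_add, map_smul, hTT, smul_add, smul_smul]
      have h2 : (e - a / 2) * (a / 2 + e) = -b := by nlinarith
      rw [h2]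
      have h3 : (-(a • T v) - b • v + (a / 2 + e) • T v) =
          (-a + (a / 2 + e)) • T v + (-b) • v := by
        module
      rw [h3]
      congr 2
      ring
    have h4 := hinj' _ _ h1
    apply hv
    apply hinj' (-(a / 2 + e))
    rw [hw] at h4
    rw [neg_smul]
    exact eq_neg_of_add_eq_zero_left h4
  set s := Real.sqrt (b - a ^ 2 / 4) with hs
  have hss : s * s = b - a ^ 2 / 4 := Real.mul_self_sqrt hD.le
  have hs0 : s ≠ 0 := by
    intro h
    rw [h, mul_zero] at hss
    linarith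
  refine ⟨s⁻¹ • (T + (a / 2) • LinearMap.id), ?_, ?_⟩
  · intro v
    have h1 : ∀ u, (s⁻¹ • (T + (a / 2) • LinearMap.id) : V →ₗ[ℝ] V) u = s⁻¹ • (T u + (a / 2) • u) := by
      intro u
      rfl
    rw [h1, h1, map_smul, map_add, map_smul, hTT, ← smul_comm s⁻¹ (a / 2), ← smul_add, smul_smul]
    have h2 : -(a • T v) - b • v + (a / 2) • T v + (a / 2) • (T v + (a / 2) • v) =
        -((s * s) • v) := by
      rw [hss, smul_add, smul_smul]
      have h3 : a • T v = (a / 2) • T v + (a / 2) • T v := by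
        rw [← add_smul]; congr 1; ring
      have h4 : (b - a ^ 2 / 4) • v = b • v - (a / 2 * (a / 2)) • v := by
        rw [← sub_smul]; congr 1; ring
      rw [h3, h4]
      abel
    rw [h2, smul_neg, smul_smul]
    congr 1
    have h5 : s⁻¹ * s⁻¹ * (s * s) = 1 := by field_simp
    rw [h5, one_smul]
  · intro δ hδ v
    have h1 : ∀ u, (s⁻¹ • (T + (a / 2) • LinearMap.id) : V →ₗ[ℝ] V) u = s⁻¹ • (T u + (a / 2) • u) := by
      intro u
      rfl
    rw [h1, h1, hT δ hδ, map_smul, map_add, map_smul]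

end

end Cliff4

open Cliff4 in
theorem cliff_four {G V : Type*} [Group G] [AddCommGroup V] [Module ℝ V] [FiniteDimensional ℝ V]
    (hV : Module.finrank ℝ V = 4) (ρ : G →* (V →ₗ[ℝ] V))
    (hirr : ∀ H : Subgroup G, H.FiniteIndex → ∀ U : Submodule ℝ V,
      (∀ h ∈ H, ∀ u ∈ U, ρ h u ∈ U) → U = ⊥ ∨ U = ⊤)
    (N : Subgroup G) [N.Normal] (hdet : ∀ δ ∈ N, LinearMap.det (ρ δ) = 1) :
    (∀ (y : V →ₗ[ℝ] ℝ) (x : V), ∃ C : ℝ, ∀ δ ∈ N, |y (ρ δ x)| ≤ C) ∨
    (∃ J : V →ₗ[ℝ] V, (∀ v, J (J v) = -v) ∧ (∀ δ ∈ N, ∀ v, J (ρ δ v) = ρ δ (J v)) ∧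
      ∀ P : Submodule ℝ V, (∀ v ∈ P, J v ∈ P) → (∀ δ ∈ N, ∀ v ∈ P, ρ δ v ∈ P) →
        P = ⊥ ∨ P = ⊤) ∨
    Submodule.span ℝ ((fun δ => ρ δ) '' (N : Set G)) = ⊤ := by
  classical
  have hirr1 : ∀ U : Submodule ℝ V, (∀ g, ∀ u ∈ U, ρ g u ∈ U) → U = ⊥ ∨ U = ⊤ :=
    fun U hU => hirr ⊤ inferInstance U (fun h _ u hu => hU h u hu)
  have hnt : Nontrivial V := by
    apply Module.nontrivial_of_finrank_pos (R := ℝ)
    rw [hV]
    norm_num
  by_cases hline : ∃ v : V, v ≠ 0 ∧ v ∈ ceig ρ N
  · -- scalars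
    left
    obtain ⟨v, hv0, hv⟩ := hline
    have htop := scalar_case ρ hirr N v hv0 hv
    intro y x
    refine ⟨|y x|, ?_⟩
    intro δ hδ
    obtain ⟨c, hc⟩ := hv δ hδ
    have h1 : ρ δ = c • (1 : V →ₗ[ℝ] V) := by
      ext w
      have hw : w ∈ same ρ N v := by rw [htop]; trivial
      rw [hw δ hδ c hc]
      rfl
    have h2 := hdet δ hδ
    rw [h1, LinearMap.det_smul, hV] at h2
    have h3 : c ^ 4 = 1 := by
      have : LinearMap.det (1 : V →ₗ[ℝ] V) = 1 := LinearMap.det_id
      rw [this, mul_one] at h2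
      exact h2
    have h4 : |c| = 1 := by
      have h5 : |c| ^ 4 = 1 := by rw [← abs_pow, h3, abs_one]
      exact (pow_eq_one_iff_of_nonneg (abs_nonneg c) (by norm_num)).1 h5
    have h6 : ρ δ x = c • x := by rw [h1]; rfl
    rw [h6, map_smul, smul_eq_mul, abs_mul, h4, one_mul]
  push Not at hline
  have hno1 : ∀ W : Submodule ℝ V, (∀ δ ∈ N, ∀ u ∈ W, ρ δ u ∈ W) →
      Module.finrank ℝ W ≠ 1 := by
    intro W hW h1
    rw [finrank_eq_one_iff'] at h1
    obtain ⟨w, hw0, hw⟩ := h1
    apply hline (w : V) (fun h => hw0 (Subtype.ext h))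
    intro δ hδ
    obtain ⟨c, hc⟩ := hw ⟨ρ δ w, hW δ hδ w w.2⟩
    refine ⟨c, ?_⟩
    have := congrArg Subtype.val hc
    exact this.symm
  have hdim : ∀ W : Submodule ℝ V, (∀ δ ∈ N, ∀ u ∈ W, ρ δ u ∈ W) → W ≠ ⊥ → W ≠ ⊤ →
      Module.finrank ℝ W = 2 := by
    intro W hW hb ht
    have hpos : 0 < Module.finrank ℝ W := by
      rw [Module.finrank_pos_iff]
      exact (Submodule.nontrivial_iff_ne_bot).2 hb
    have hlt : Module.finrank ℝ W < 4 := by
      rw [← hV]
      exact Submodule.finrank_lt ht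
    have h1 := hno1 W hW
    obtain ⟨W', hW', hc⟩ := star_ss ρ hirr1 N W hW
    have h2 := hno1 W' hW'
    have h3 := Submodule.finrank_add_eq_of_isCompl hc
    rw [hV] at h3
    omega
  by_cases hN : ∀ U : Submodule ℝ V, (∀ δ ∈ N, ∀ u ∈ U, ρ δ u ∈ U) → U = ⊥ ∨ U = ⊤
  · -- irreducible
    right
    by_cases hsc : ∀ T : V →ₗ[ℝ] V, (∀ δ ∈ N, ∀ v, T (ρ δ v) = ρ δ (T v)) →
        ∃ c : ℝ, ∀ v, T v = c • v
    · right
      exact span_top ρ N hN hsc
    · left
      push Not at hsc
      obtain ⟨T, hT, hns⟩ := hsc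
      obtain ⟨J, hJ1, hJ2⟩ := exists_J ρ N hN T hT (by
        rintro ⟨c, hc⟩
        obtain ⟨v, hv⟩ := hns c
        exact hv (hc v))
      exact ⟨J, hJ1, hJ2, fun P _ hP => hN P hP⟩
  push Not at hN
  obtain ⟨W, hW, hWb, hWt⟩ := hN
  have hW2 := hdim W hW hWb hWt
  have hinj : ∀ g : G, Function.Injective (ρ g) := by
    intro g a b hab
    have := congrArg (ρ g⁻¹) hab
    rwa [inv_app, inv_app] at this
  have hmapInv : ∀ (U : Submodule ℝ V), (∀ δ ∈ N, ∀ u ∈ U, ρ δ u ∈ U) → ∀ g : G,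
      ∀ δ ∈ N, ∀ u ∈ U.map (ρ g), ρ δ u ∈ U.map (ρ g) := by
    rintro U hU g δ hδ _ ⟨w, hw, rfl⟩
    rw [conj_app]
    refine ⟨_, hU _ ?_ w hw, rfl⟩
    have := (inferInstance : N.Normal).conj_mem δ hδ g⁻¹
    rwa [inv_inv] at this
  have hmapdim : ∀ (U : Submodule ℝ V) (g : G),
      Module.finrank ℝ (U.map (ρ g)) = Module.finrank ℝ U := by
    intro U g
    exact (LinearEquiv.finrank_eq (Submodule.equivMapOfInjective (ρ g) (hinj g) U)).symm
  -- two different invariant planes are complementary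
  have hcompl : ∀ A B : Submodule ℝ V, (∀ δ ∈ N, ∀ u ∈ A, ρ δ u ∈ A) →
      (∀ δ ∈ N, ∀ u ∈ B, ρ δ u ∈ B) → Module.finrank ℝ A = 2 → Module.finrank ℝ B = 2 →
      A ≠ B → IsCompl A B := by
    intro A B hA hB hA2 hB2 hAB
    have h1 : A ⊓ B = ⊥ := by
      by_contra hne
      have h2 : A ⊓ B ≠ ⊤ := by
        intro h
        have h3 : A = ⊤ := by
          rw [eq_top_iff, ← h]
          exact inf_le_left
        rw [h3, finrank_top, hV] at hA2
        omega
      have h4 := hdim (A ⊓ B) (fun δ hδ u hu => ⟨hA δ hδ u hu.1, hB δ hδ u hu.2⟩) hne h2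
      have h9 : A ⊓ B = A := Submodule.eq_of_le_of_finrank_eq inf_le_left (by rw [h4, hA2])
      have h10 : A ⊓ B = B := Submodule.eq_of_le_of_finrank_eq inf_le_right (by rw [h4, hB2])
      exact hAB (h9.symm.trans h10)
    refine IsCompl.of_eq h1 ?_
    apply Submodule.eq_top_of_finrank_eq
    have h5 := Submodule.finrank_sup_add_finrank_inf_eq A B
    rw [h1, finrank_bot, hA2, hB2] at h5
    rw [hV]
    omega
  -- a second plane
  obtain ⟨g0, hg0⟩ : ∃ g : G, W.map (ρ g) ≠ W := by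
    by_contra hcon
    push Not at hcon
    rcases hirr1 W (by
      intro g u hu
      have : ρ g u ∈ W.map (ρ g) := ⟨u, hu, rfl⟩
      rwa [hcon g] at this) with h | h
    · exact hWb h
    · exact hWt h
  set W' := W.map (ρ g0) with hW'
  have hW'i : ∀ δ ∈ N, ∀ u ∈ W', ρ δ u ∈ W' := hmapInv W hW g0
  have hW'2 : Module.finrank ℝ W' = 2 := by rw [hW', hmapdim, hW2]
  have hWW' : IsCompl W W' := hcompl W W' hW hW'i hW2 hW'2 (Ne.symm hg0)
  -- a third plane
  obtain ⟨U, hU, hU2, hUW, hUW'⟩ : ∃ U : Submodule ℝ V, (∀ δ ∈ N, ∀ u ∈ U, ρ δ u ∈ U) ∧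
      Module.finrank ℝ U = 2 ∧ U ≠ W ∧ U ≠ W' := by
    by_contra hcon
    push Not at hcon
    rcases finite_orbit ρ hirr W (by
      apply (Set.toFinite ({W, W'} : Set (Submodule ℝ V))).subset
      rintro _ ⟨g, rfl⟩
      show W.map (ρ g) ∈ _
      by_cases h : W.map (ρ g) = W
      · exact Or.inl h
      · exact Or.inr (hcon _ (hmapInv W hW g) (by rw [hmapdim, hW2]) h)) with h | h
    · exact hWb h
    · exact hWt h
  have hcUW : IsCompl U W := hcompl U W hU hW hU2 hW2 hUW
  have hcUW' : IsCompl U W' := hcompl U W' hU hW'i hU2 hW'2 hUW'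
  obtain ⟨E, hE1, hE2, hE3, hE4, hE5⟩ := comm_proj ρ N hWW' hW hW'i
  obtain ⟨F, hF1, hF2, hF3, hF4, hF5⟩ := comm_proj ρ N hcUW' hU hW'i
  obtain ⟨F', hF1', hF2', hF3', hF4', hF5'⟩ := comm_proj ρ N hcUW hU hW
  set J : V →ₗ[ℝ] V := (F - LinearMap.id) ∘ₗ E - (F' - LinearMap.id) ∘ₗ (LinearMap.id - E) with hJ
  have hJv : ∀ v, J v = (F (E v) - E v) - (F' (v - E v) - (v - E v)) := by
    intro v
    rfl
  have hJW : ∀ w ∈ W, J w = F w - w := by
    intro w hw
    rw [hJv, hE1 w hw, sub_self, map_zero, sub_self, sub_zero]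
  have hJW' : ∀ w ∈ W', J w = w - F' w := by
    intro w hw
    rw [hJv, hE2 w hw, map_zero, sub_zero, zero_sub, neg_sub, sub_zero]
  have hJWm : ∀ w ∈ W, J w ∈ W' := by
    intro w hw
    rw [hJW w hw, ← neg_sub]
    exact W'.neg_mem (hF4 w)
  have hJWm' : ∀ w ∈ W', J w ∈ W := by
    intro w hw
    rw [hJW' w hw]
    exact hF4' w
  have hJJ : ∀ v, J (J v) = -v := by
    have h1 : ∀ w ∈ W, J (J w) = -w := by
      intro w hw
      rw [hJW' _ (hJWm w hw), hJW w hw, map_sub, hF1' _ (hF3 w), hF2' w hw]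
      abel
    have h2 : ∀ w ∈ W', J (J w) = -w := by
      intro w hw
      rw [hJW _ (hJWm' w hw), hJW' w hw, map_sub, hF1 _ (hF3' w), hF2 w hw]
      abel
    intro v
    have h3 : v = E v + (v - E v) := by abel
    have h4 := h1 _ (hE3 v)
    have h5 := h2 _ (hE4 v)
    calc J (J v) = J (J (E v + (v - E v))) := by rw [← h3]
      _ = J (J (E v)) + J (J (v - E v)) := by rw [map_add, map_add]
      _ = -(E v) + -(v - E v) := by rw [h4, h5]
      _ = -v := by abel
  have hJc : ∀ δ ∈ N, ∀ v, J (ρ δ v) = ρ δ (J v) := by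
    intro δ hδ v
    rw [hJv, hJv, hE5 δ hδ, hF5 δ hδ, ← map_sub, ← map_sub, hF5' δ hδ, ← map_sub, ← map_sub]
  by_cases hP : ∃ P : Submodule ℝ V, (∀ v ∈ P, J v ∈ P) ∧ (∀ δ ∈ N, ∀ v ∈ P, ρ δ v ∈ P) ∧
      P ≠ ⊥ ∧ P ≠ ⊤
  swap
  · right
    left
    push Not at hP
    refine ⟨J, hJJ, hJc, fun P h1 h2 => ?_⟩
    by_cases h3 : P = ⊥
    · exact Or.inl h3
    · exact Or.inr (hP P h1 h2 h3)
  left
  obtain ⟨P, hPJ, hPN, hPb, hPt⟩ := hP
  have hP2 := hdim P hPN hPb hPt
  have hPW' : P ≠ W' := by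
    intro h
    obtain ⟨p, hp, hp0⟩ := Submodule.exists_mem_ne_zero_of_ne_bot hPb
    have h1 : p ∈ W' := by rw [← h]; exact hp
    have h2 : J p ∈ W' := by rw [← h]; exact hPJ p hp
    have h3 : J p ∈ W ⊓ W' := ⟨hJWm' p h1, h2⟩
    rw [hWW'.inf_eq_bot, Submodule.mem_bot] at h3
    apply hp0
    have h4 := hJJ p
    rw [h3, map_zero] at h4
    exact (neg_eq_zero.1 h4.symm)
  have hPW : P ≠ W := by
    intro h
    obtain ⟨p, hp, hp0⟩ := Submodule.exists_mem_ne_zero_of_ne_bot hPb
    have h1 : p ∈ W := by rw [← h]; exact hp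
    have h2 : J p ∈ W := by rw [← h]; exact hPJ p hp
    have h3 : J p ∈ W ⊓ W' := ⟨h2, hJWm p h1⟩
    rw [hWW'.inf_eq_bot, Submodule.mem_bot] at h3
    apply hp0
    have h4 := hJJ p
    rw [h3, map_zero] at h4
    exact (neg_eq_zero.1 h4.symm)
  have hcPW : IsCompl P W := hcompl P W hPN hW hP2 hW2 hPW
  have hcPW' : IsCompl P W' := hcompl P W' hPN hW'i hP2 hW'2 hPW'
  -- `E` maps `P` onto `W`
  have hEP : P.map E = W := by
    apply Submodule.eq_of_le_of_finrank_eq
    · rintro _ ⟨p, -, rfl⟩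
      exact hE3 p
    · rw [hW2, ← hP2]
      have h1 : Function.Injective (E.domRestrict P) := by
        rw [← LinearMap.ker_eq_bot, eq_bot_iff]
        rintro ⟨p, hp⟩ hpk
        rw [LinearMap.mem_ker] at hpk
        have h2 : E p = 0 := hpk
        have h3 : p ∈ W' := by
          have := hE4 p
          rwa [h2, sub_zero] at this
        have h4 : p ∈ P ⊓ W' := ⟨hp, h3⟩
        rw [hcPW'.inf_eq_bot, Submodule.mem_bot] at h4
        rw [Submodule.mem_bot]
        exact Subtype.ext h4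
      have h2 : P.map E = LinearMap.range (E.domRestrict P) := by
        rw [LinearMap.range_domRestrict]
      rw [h2, LinearMap.finrank_range_of_inj h1]
  -- a basis of `P`
  obtain ⟨p0, hp0, hp00⟩ := Submodule.exists_mem_ne_zero_of_ne_bot hPb
  have hPspan : ∀ p ∈ P, ∃ x y : ℝ, p = x • p0 + y • J p0 := by
    have hli : LinearIndependent ℝ ![p0, J p0] := by
      rw [LinearIndependent.pair_iff]
      intro s t hst
      by_cases ht : t = 0
      · subst ht
        rw [zero_smul, add_zero] at hst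
        rcases smul_eq_zero.1 hst with h | h
        · exact ⟨h, rfl⟩
        · exact absurd h hp00
      · exfalso
        have h1 : J p0 = (-(t⁻¹ * s)) • p0 := by
          have h2 : t • J p0 = -(s • p0) := by
            rw [add_comm] at hst
            exact eq_neg_of_add_eq_zero_left hst
          have h3 : J p0 = t⁻¹ • (t • J p0) := by
            rw [smul_smul, inv_mul_cancel₀ ht, one_smul]
          rw [h3, h2, smul_neg, smul_smul, neg_smul]
        have h4 := hJJ p0
        rw [h1, map_smul, h1, smul_smul] at h4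
        have h5 : (-(t⁻¹ * s) * -(t⁻¹ * s) + 1) • p0 = 0 := by
          rw [add_smul, h4, one_smul, neg_add_cancel]
        rcases smul_eq_zero.1 h5 with h6 | h6
        · nlinarith [mul_self_nonneg (-(t⁻¹ * s))]
        · exact hp00 h6
    have h1 : Submodule.span ℝ (Set.range ![p0, J p0]) = P := by
      apply Submodule.eq_of_le_of_finrank_eq
      · rw [Submodule.span_le]
        rintro _ ⟨i, rfl⟩
        fin_cases i
        · exact hp0
        · exact hPJ p0 hp0
      · rw [finrank_span_eq_card hli, hP2]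
        rfl
    intro p hp
    rw [← h1] at hp
    rw [Matrix.range_cons, Matrix.range_cons, Matrix.range_empty, Set.union_empty,
      Set.singleton_union, Submodule.mem_span_pair] at hp
    obtain ⟨x, y, h⟩ := hp
    exact ⟨x, y, h.symm⟩
  have hsp : ⊤ ≤ Submodule.span ℝ (Set.range ![p0, J p0, E p0, E (J p0)]) := by
    intro v _
    have hv : v ∈ P ⊔ W := by rw [hcPW.sup_eq_top]; trivial
    obtain ⟨p, hp, w, hw, rfl⟩ := Submodule.mem_sup.1 hv
    obtain ⟨x, y, rfl⟩ := hPspan p hp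
    have hw' : w ∈ P.map E := by rw [hEP]; exact hw
    obtain ⟨p', hp', rfl⟩ := hw'
    obtain ⟨x', y', rfl⟩ := hPspan p' hp'
    rw [map_add, map_smul, map_smul]
    have h : ∀ i : Fin 4, ![p0, J p0, E p0, E (J p0)] i ∈
        Submodule.span ℝ (Set.range ![p0, J p0, E p0, E (J p0)]) :=
      fun i => Submodule.subset_span ⟨i, rfl⟩
    exact Submodule.add_mem _ (Submodule.add_mem _ (Submodule.smul_mem _ _ (h 0))
      (Submodule.smul_mem _ _ (h 1))) (Submodule.add_mem _ (Submodule.smul_mem _ _ (h 2))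
      (Submodule.smul_mem _ _ (h 3)))
  let B := basisOfTopLeSpanOfCardEqFinrank ![p0, J p0, E p0, E (J p0)] hsp
    (by rw [hV]; rfl)
  have hB : ∀ i, B i = ![p0, J p0, E p0, E (J p0)] i := fun i => by
    simp [B]
  -- the action on `P`
  have hact : ∀ δ ∈ N, ∃ a b : ℝ, |a| ≤ 1 ∧ |b| ≤ 1 ∧ ∀ p ∈ P, ρ δ p = a • p + b • J p := by
    intro δ hδ
    obtain ⟨a, b, hab⟩ := hPspan _ (hPN δ hδ p0 hp0)
    have h1 : ρ δ (J p0) = a • J p0 - b • p0 := by
      rw [← hJc δ hδ, hab, map_add, map_smul, map_smul, hJJ, smul_neg, sub_eq_add_neg]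
    have h2 : ρ δ (E p0) = a • E p0 + b • E (J p0) := by
      rw [← hE5 δ hδ, hab, map_add, map_smul, map_smul]
    have h3 : ρ δ (E (J p0)) = a • E (J p0) - b • E p0 := by
      rw [← hE5 δ hδ, h1, map_sub, map_smul, map_smul]
    have h4 : ρ δ = Matrix.toLin B B !![a, -b, 0, 0; b, a, 0, 0; 0, 0, a, -b; 0, 0, b, a] := by
      apply B.ext
      intro i
      rw [Matrix.toLin_self]
      fin_cases i
      · simp [Fin.sum_univ_four, hB, hab]
      · simp [Fin.sum_univ_four, hB, h1]
        abel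
      · simp [Fin.sum_univ_four, hB, h2]
      · simp [Fin.sum_univ_four, hB, h3]
        abel
    have h5 := hdet δ hδ
    rw [h4, LinearMap.det_toLin] at h5
    have h6 : (a ^ 2 + b ^ 2) ^ 2 = 1 := by
      rw [← h5]
      simp [Matrix.det_succ_row_zero, Fin.sum_univ_succ, Fin.succAbove]
      ring
    have h7 : a ^ 2 + b ^ 2 = 1 := by
      have h8 : 0 ≤ a ^ 2 + b ^ 2 := by positivity
      nlinarith
    refine ⟨a, b, ?_, ?_, ?_⟩
    · rw [abs_le]
      constructor <;> nlinarith [sq_nonneg b]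
    · rw [abs_le]
      constructor <;> nlinarith [sq_nonneg a]
    · intro p hp
      obtain ⟨x, y, rfl⟩ := hPspan p hp
      rw [map_add, map_smul, map_smul, hab, h1, map_add, map_smul, map_smul, hJJ]
      simp only [smul_add, smul_sub, smul_neg, smul_smul]
      rw [mul_comm x a, mul_comm x b, mul_comm y a, mul_comm y b]
      abel
  intro y x
  have hx : x ∈ P ⊔ W := by rw [hcPW.sup_eq_top]; trivial
  obtain ⟨p, hp, w, hw, rfl⟩ := Submodule.mem_sup.1 hx
  have hw' : w ∈ P.map E := by rw [hEP]; exact hw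
  obtain ⟨p', hp', rfl⟩ := hw'
  refine ⟨|y p| + |y (J p)| + |y (E p')| + |y (E (J p'))|, ?_⟩
  intro δ hδ
  obtain ⟨a, b, ha, hb, hab⟩ := hact δ hδ
  have h1 : ρ δ (p + E p') = a • p + b • J p + a • E p' + b • E (J p') := by
    rw [map_add, hab p hp, ← hE5 δ hδ, hab p' hp', map_add, map_smul, map_smul]
    abel
  rw [h1, map_add, map_add, map_add, map_smul, map_smul, map_smul, map_smul, smul_eq_mul,
    smul_eq_mul, smul_eq_mul, smul_eq_mul]
  have h2 : ∀ s t : ℝ, |s| ≤ 1 → |s * t| ≤ |t| := by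
    intro s t hs
    rw [abs_mul]
    nlinarith [abs_nonneg t]
  calc |a * y p + b * y (J p) + a * y (E p') + b * y (E (J p'))|
      ≤ |a * y p| + |b * y (J p)| + |a * y (E p')| + |b * y (E (J p'))| := by
        refine (abs_add_le _ _).trans ?_
        refine add_le_add ?_ le_rfl
        refine (abs_add_le _ _).trans ?_
        exact add_le_add (abs_add_le _ _) le_rfl
    _ ≤ _ := add_le_add (add_le_add (add_le_add (h2 _ _ ha) (h2 _ _ hb)) (h2 _ _ ha)) (h2 _ _ hb)

end Pool.AF
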