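import Pool.Agent.Helper94.AC.Four
import Pool.Agent.Helper94.AB.Seqs

/-!
# AC-22 COSET: a bounded almost multiplicative map

For `g ∈ G` let `Kl g` be the set of the matrices `A` such that for every `δ > 0` there is `h ∈ Q` with
`‖τ h - τ g‖ < δ` and `nm (L h - A) < δ`.

(1) `Kl g` is not empty: by `hQ` there are `h n ∈ Q` with `τ (h n) → τ g`; then `‖τ (h n)‖` and
`‖τ (h n)⁻¹‖` are bounded (`τ (g⁻¹ * h n) → 1`, `tendsto_base_inv`), so `L (h n)` is bounded (`hbd`) and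
has a convergent subsequence. (2) `Kl g` is closed and bounded (same bounds; for `A ∈ Kl g` take
`δ n → 0`), and its elements satisfy `det ^ 2 = 1`. (3) `Kl g * Kl h ⊆ Kl (g * h)` by `hmul` (take `f`, `f'`
in `Q` close to `g`, `h` and `A`, `B`). (4) `L f ∈ Kl f` for `f ∈ Q`.
(5) `Kl 1` is closed under products, compact, and its elements are invertible. It is closed under
inverses: let `A ∈ Kl 1`; a subsequence `A ^ (m k)` of the powers converges to `B ∈ Kl 1`, `B` is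
invertible, and we may assume `m (k + 1) ≥ m k + 2`; then `A ^ (m (k+1) - m k) → 1` and
`A ^ (m (k+1) - m k - 1) → A⁻¹`, which is in the closed set `Kl 1`.
(6) `(L f)⁻¹ ∈ Kl f⁻¹` for `f ∈ Q`: take `a ∈ Kl f⁻¹`; `a * L f ∈ Kl 1`, so `(a * L f)⁻¹ ∈ Kl 1`, and
`(L f)⁻¹ = (a * L f)⁻¹ * a ∈ Kl 1 * Kl f⁻¹ ⊆ Kl f⁻¹`.
(7) `(L f₁)⁻¹ * L (f₁ * g) ∈ Kl f₁⁻¹ * Kl (f₁ * g) ⊆ Kl g` and
`(L (f₀ * g))⁻¹ * L f₀ ∈ Kl (f₀ * g)⁻¹ * Kl f₀ ⊆ Kl g⁻¹`. Their product `T` is in `Kl 1`, so are all its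
powers, and `Kl 1` is bounded.
-/

open Set Filter Topology Matrix

set_option linter.unusedSectionVars false

namespace Pool.AF

private theorem nmN_nonneg (A : Matrix (Fin 2) (Fin 2) ℝ) : 0 ≤ nm A :=
  Finset.sum_nonneg fun _ _ => Finset.sum_nonneg fun _ _ => abs_nonneg _

private theorem nmN_add (A B : Matrix (Fin 2) (Fin 2) ℝ) : nm (A + B) ≤ nm A + nm B := by
  unfold nm
  rw [← Finset.sum_add_distrib]
  refine Finset.sum_le_sum fun i _ => ?_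
  rw [← Finset.sum_add_distrib]
  exact Finset.sum_le_sum fun j _ => abs_add_le _ _

private theorem nmN_neg (A : Matrix (Fin 2) (Fin 2) ℝ) : nm (-A) = nm A := by
  simp [nm]

private theorem nmN_cont : Continuous (fun A : Matrix (Fin 2) (Fin 2) ℝ => nm A) := by
  unfold nm
  refine continuous_finsetSum _ fun i _ => continuous_finsetSum _ fun j _ => ?_
  exact (continuous_apply_apply i j).abs

private theorem nmN_entry (A : Matrix (Fin 2) (Fin 2) ℝ) (i j : Fin 2) : |A i j| ≤ nm A := by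
  unfold nm
  calc |A i j| ≤ ∑ j, |A i j| :=
        Finset.single_le_sum (f := fun j => |A i j|) (fun _ _ => abs_nonneg _) (Finset.mem_univ j)
    _ ≤ ∑ i, ∑ j, |A i j| :=
        Finset.single_le_sum (f := fun i => ∑ j, |A i j|)
          (fun _ _ => Finset.sum_nonneg fun _ _ => abs_nonneg _) (Finset.mem_univ i)

private theorem nmN_tendsto {A : ℕ → Matrix (Fin 2) (Fin 2) ℝ} {B : Matrix (Fin 2) (Fin 2) ℝ}
    (h : Tendsto (fun n => nm (A n - B)) atTop (𝓝 0)) : Tendsto A atTop (𝓝 B) := by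
  refine tendsto_pi_nhds.2 fun i => tendsto_pi_nhds.2 fun j => ?_
  rw [tendsto_iff_norm_sub_tendsto_zero]
  refine squeeze_zero (fun _ => norm_nonneg _) (fun n => ?_) h
  have := nmN_entry (A n - B) i j
  rwa [Matrix.sub_apply] at this

private theorem nmN_tendsto' {A : ℕ → Matrix (Fin 2) (Fin 2) ℝ} {B : Matrix (Fin 2) (Fin 2) ℝ}
    (h : Tendsto A atTop (𝓝 B)) : Tendsto (fun n => nm (A n - B)) atTop (𝓝 0) := by
  have h1 : Tendsto (fun n => A n - B) atTop (𝓝 (B - B)) := h.sub_const B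
  have h2 := (nmN_cont.tendsto _).comp h1
  rw [sub_self] at h2
  have h3 : nm (0 : Matrix (Fin 2) (Fin 2) ℝ) = 0 := by simp [nm]
  rw [h3] at h2
  exact h2

private theorem nmN_bw (A : ℕ → Matrix (Fin 2) (Fin 2) ℝ) (K : ℝ) (h : ∀ n, nm (A n) ≤ K) :
    ∃ B : Matrix (Fin 2) (Fin 2) ℝ, ∃ φ : ℕ → ℕ, StrictMono φ ∧
      Tendsto (fun n => A (φ n)) atTop (𝓝 B) := by
  have hc : IsCompact (Set.univ.pi (fun _ : Fin 2 => Set.univ.pi (fun _ : Fin 2 =>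
      Icc (-K) K)) : Set (Fin 2 → Fin 2 → ℝ)) :=
    isCompact_univ_pi fun _ => isCompact_univ_pi fun _ => isCompact_Icc
  have hm : ∀ n, (A n : Fin 2 → Fin 2 → ℝ) ∈ (Set.univ.pi (fun _ : Fin 2 =>
      Set.univ.pi (fun _ : Fin 2 => Icc (-K) K)) : Set (Fin 2 → Fin 2 → ℝ)) := by
    intro n i _ j _
    exact abs_le.1 ((nmN_entry (A n) i j).trans (h n))
  have hsub := @IsCompact.tendsto_subseq (Fin 2 → Fin 2 → ℝ) _ _ _
    (fun n => (A n : Fin 2 → Fin 2 → ℝ)) hc hm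
  obtain ⟨B, _, φ, hφ, hB⟩ := hsub
  exact ⟨B, φ, hφ, hB⟩

section

variable {G R : Type*} [Group G] [NormedRing R]

/-- the cluster set of `L` over `τ g` -/
private def Kls (τ : G →* R) (Q : Set G) (L : G → Matrix (Fin 2) (Fin 2) ℝ) (g : G) :
    Set (Matrix (Fin 2) (Fin 2) ℝ) :=
  {A | ∃ u : ℕ → G, (∀ n, u n ∈ Q) ∧ Tendsto (fun n => τ (u n)) atTop (𝓝 (τ g)) ∧
    Tendsto (fun n => L (u n)) atTop (𝓝 A)}

private theorem kls_of_eps {τ : G →* R} {Q : Set G} {L : G → Matrix (Fin 2) (Fin 2) ℝ} {g : G}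
    {A : Matrix (Fin 2) (Fin 2) ℝ}
    (h : ∀ δ : ℝ, 0 < δ → ∃ f ∈ Q, ‖τ f - τ g‖ < δ ∧ nm (L f - A) < δ) : A ∈ Kls τ Q L g := by
  choose u hu1 hu2 using fun n : ℕ => h (1 / ((n : ℝ) + 1)) (by positivity)
  have hlim : Tendsto (fun n : ℕ => 1 / ((n : ℝ) + 1)) atTop (𝓝 0) :=
    tendsto_one_div_add_atTop_nhds_zero_nat
  refine ⟨u, hu1, ?_, ?_⟩
  · rw [tendsto_iff_norm_sub_tendsto_zero]
    exact squeeze_zero (fun _ => norm_nonneg _) (fun n => (hu2 n).1.le) hlim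
  · exact nmN_tendsto (squeeze_zero (fun _ => nmN_nonneg _) (fun n => (hu2 n).2.le) hlim)

private theorem kls_eps {τ : G →* R} {Q : Set G} {L : G → Matrix (Fin 2) (Fin 2) ℝ} {g : G}
    {A : Matrix (Fin 2) (Fin 2) ℝ} (h : A ∈ Kls τ Q L g) (δ : ℝ) (hδ : 0 < δ) :
    ∃ f ∈ Q, ‖τ f - τ g‖ < δ ∧ nm (L f - A) < δ := by
  obtain ⟨u, hu, h1, h2⟩ := h
  rw [tendsto_iff_norm_sub_tendsto_zero] at h1
  have h3 := (h1.eventually_lt_const hδ).and ((nmN_tendsto' h2).eventually_lt_const hδ)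
  obtain ⟨n, hn⟩ := h3.exists
  exact ⟨u n, hu n, hn.1, hn.2⟩

private theorem kls_closed {τ : G →* R} {Q : Set G} {L : G → Matrix (Fin 2) (Fin 2) ℝ} {g : G}
    {A : ℕ → Matrix (Fin 2) (Fin 2) ℝ} {B : Matrix (Fin 2) (Fin 2) ℝ}
    (h : ∀ n, A n ∈ Kls τ Q L g) (hA : Tendsto A atTop (𝓝 B)) : B ∈ Kls τ Q L g := by
  apply kls_of_eps
  intro δ hδ
  obtain ⟨n, hn⟩ := ((nmN_tendsto' hA).eventually_lt_const (half_pos hδ)).exists
  obtain ⟨f, hf, h1, h2⟩ := kls_eps (h n) (δ / 2) (half_pos hδ)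
  refine ⟨f, hf, h1.trans (half_lt_self hδ), ?_⟩
  have h3 : L f - B = (L f - A n) + (A n - B) := by abel
  rw [h3]
  linarith [nmN_add (L f - A n) (A n - B)]

private theorem kls_near {τ : G →* R} {Q : Set G} {L : G → Matrix (Fin 2) (Fin 2) ℝ}
    (hbd : ∀ C : ℝ, ∃ K : ℝ, ∀ f ∈ Q, ‖τ f‖ ≤ C → ‖τ f⁻¹‖ ≤ C → nm (L f) ≤ K) (g : G) :
    ∃ δ : ℝ, 0 < δ ∧ ∃ K : ℝ, ∀ f ∈ Q, ‖τ f - τ g‖ < δ → nm (L f) ≤ K := by
  obtain ⟨K, hK⟩ := hbd (max (‖τ g‖ + 1) (2 * ‖(1 : R)‖ * ‖τ g⁻¹‖))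
  have hpos : 0 < 2 * (‖τ g⁻¹‖ + 1) := by positivity
  refine ⟨min 1 (1 / (2 * (‖τ g⁻¹‖ + 1))), lt_min one_pos (by positivity), K, ?_⟩
  intro f hf hfg
  have h1 : ‖τ f - τ g‖ < 1 := hfg.trans_le (min_le_left _ _)
  have h2 : ‖τ f - τ g‖ < 1 / (2 * (‖τ g⁻¹‖ + 1)) := hfg.trans_le (min_le_right _ _)
  apply hK f hf
  · refine le_trans ?_ (le_max_left _ _)
    have h3 : τ f = τ g + (τ f - τ g) := by abel
    rw [h3]
    exact (norm_add_le _ _).trans (by linarith)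
  · refine le_trans ?_ (le_max_right _ _)
    have hx : τ (g⁻¹ * f) - 1 = τ g⁻¹ * (τ f - τ g) := by
      rw [mul_sub, ← map_mul, ← map_mul, inv_mul_cancel, map_one]
    have hx2 : ‖1 - τ (g⁻¹ * f)‖ ≤ 1 / 2 := by
      rw [norm_sub_rev, hx]
      refine (norm_mul_le _ _).trans ?_
      have h4 : ‖τ g⁻¹‖ * ‖τ f - τ g‖ ≤ ‖τ g⁻¹‖ * (1 / (2 * (‖τ g⁻¹‖ + 1))) :=
        mul_le_mul_of_nonneg_left h2.le (norm_nonneg _)
      refine h4.trans ?_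
      rw [mul_one_div, div_le_iff₀ hpos]
      linarith [norm_nonneg (τ g⁻¹)]
    have hy : τ (f⁻¹ * g) = 1 + (1 - τ (g⁻¹ * f)) * τ (f⁻¹ * g) := by
      rw [sub_mul, one_mul, ← map_mul]
      have : g⁻¹ * f * (f⁻¹ * g) = 1 := by group
      rw [this, map_one]
      abel
    have hy2 : ‖τ (f⁻¹ * g)‖ ≤ 2 * ‖(1 : R)‖ := by
      have h5 : ‖τ (f⁻¹ * g)‖ ≤ ‖(1 : R)‖ + 1 / 2 * ‖τ (f⁻¹ * g)‖ := by
        calc ‖τ (f⁻¹ * g)‖ = ‖1 + (1 - τ (g⁻¹ * f)) * τ (f⁻¹ * g)‖ := by rw [← hy]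
          _ ≤ ‖(1 : R)‖ + ‖(1 - τ (g⁻¹ * f)) * τ (f⁻¹ * g)‖ := norm_add_le _ _
          _ ≤ ‖(1 : R)‖ + 1 / 2 * ‖τ (f⁻¹ * g)‖ := by
              have h6 := norm_mul_le (1 - τ (g⁻¹ * f)) (τ (f⁻¹ * g))
              have h7 : ‖1 - τ (g⁻¹ * f)‖ * ‖τ (f⁻¹ * g)‖ ≤ 1 / 2 * ‖τ (f⁻¹ * g)‖ :=
                mul_le_mul_of_nonneg_right hx2 (norm_nonneg _)
              linarith
      linarith
    have h8 : τ f⁻¹ = τ (f⁻¹ * g) * τ g⁻¹ := by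
      rw [← map_mul, mul_assoc, mul_inv_cancel, mul_one]
    rw [h8]
    exact (norm_mul_le _ _).trans (mul_le_mul_of_nonneg_right hy2 (norm_nonneg _))

private theorem kls_bdd {τ : G →* R} {Q : Set G} {L : G → Matrix (Fin 2) (Fin 2) ℝ}
    (hbd : ∀ C : ℝ, ∃ K : ℝ, ∀ f ∈ Q, ‖τ f‖ ≤ C → ‖τ f⁻¹‖ ≤ C → nm (L f) ≤ K) (g : G) :
    ∃ K : ℝ, ∀ A ∈ Kls τ Q L g, nm A ≤ K := by
  obtain ⟨δ, hδ, K, hK⟩ := kls_near hbd g
  refine ⟨K + δ, fun A hA => ?_⟩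
  obtain ⟨f, hf, h1, h2⟩ := kls_eps hA δ hδ
  have h3 : A = L f + (-(L f - A)) := by abel
  rw [h3]
  have h4 := nmN_add (L f) (-(L f - A))
  rw [nmN_neg] at h4
  linarith [hK f hf h1]

private theorem kls_nonempty {τ : G →* R} {Q : Set G} {L : G → Matrix (Fin 2) (Fin 2) ℝ}
    (hQ : ∀ g : G, ∀ δ : ℝ, 0 < δ → ∃ f ∈ Q, ‖τ f - τ g‖ < δ)
    (hbd : ∀ C : ℝ, ∃ K : ℝ, ∀ f ∈ Q, ‖τ f‖ ≤ C → ‖τ f⁻¹‖ ≤ C → nm (L f) ≤ K) (g : G) :
    (Kls τ Q L g).Nonempty := by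
  obtain ⟨δ, hδ, K, hK⟩ := kls_near hbd g
  choose u hu1 hu2 using fun n : ℕ => hQ g (min δ (1 / ((n : ℝ) + 1)))
    (lt_min hδ (by positivity))
  obtain ⟨B, φ, hφ, hB⟩ := nmN_bw (fun n => L (u n)) K
    (fun n => hK (u n) (hu1 n) ((hu2 n).trans_le (min_le_left _ _)))
  have hlim : Tendsto (fun n => τ (u n)) atTop (𝓝 (τ g)) := by
    rw [tendsto_iff_norm_sub_tendsto_zero]
    exact squeeze_zero (fun _ => norm_nonneg _) (fun n => ((hu2 n).le.trans (min_le_right _ _)))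
      tendsto_one_div_add_atTop_nhds_zero_nat
  exact ⟨B, fun n => u (φ n), fun n => hu1 _, hlim.comp hφ.tendsto_atTop, hB⟩

private theorem kls_det {τ : G →* R} {Q : Set G} {L : G → Matrix (Fin 2) (Fin 2) ℝ}
    (hdet : ∀ f ∈ Q, (L f).det ^ 2 = 1) {g : G} {A : Matrix (Fin 2) (Fin 2) ℝ}
    (h : A ∈ Kls τ Q L g) : A.det ≠ 0 := by
  obtain ⟨u, hu, _, h2⟩ := h
  have hc : Continuous (fun M : Matrix (Fin 2) (Fin 2) ℝ => M.det ^ 2) :=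
    (continuous_id.matrix_det).pow 2
  have h3 := (hc.tendsto A).comp h2
  have h4 : ((fun M : Matrix (Fin 2) (Fin 2) ℝ => M.det ^ 2) ∘ fun n => L (u n)) =
      fun _ => (1 : ℝ) := by
    funext n
    exact hdet _ (hu n)
  rw [h4] at h3
  have h5 : A.det ^ 2 = 1 := tendsto_nhds_unique h3 tendsto_const_nhds
  intro h6
  rw [h6] at h5
  norm_num at h5

private theorem kls_mul {τ : G →* R} {Q : Set G} {L : G → Matrix (Fin 2) (Fin 2) ℝ}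
    (hmul : ∀ f ∈ Q, ∀ g ∈ Q, ∀ δ : ℝ, 0 < δ → ∃ h ∈ Q, ‖τ h - τ (f * g)‖ < δ ∧
      nm (L h - L f * L g) < δ) {g h : G} {A B : Matrix (Fin 2) (Fin 2) ℝ}
    (hA : A ∈ Kls τ Q L g) (hB : B ∈ Kls τ Q L h) : A * B ∈ Kls τ Q L (g * h) := by
  obtain ⟨u, hu, u1, u2⟩ := hA
  obtain ⟨v, hv, v1, v2⟩ := hB
  choose w hw1 hw2 using fun n : ℕ => hmul (u n) (hu n) (v n) (hv n) (1 / ((n : ℝ) + 1))
    (by positivity)
  have hlim : Tendsto (fun n : ℕ => 1 / ((n : ℝ) + 1)) atTop (𝓝 0) :=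
    tendsto_one_div_add_atTop_nhds_zero_nat
  refine ⟨w, hw1, ?_, ?_⟩
  · have e1 : Tendsto (fun n => τ (w n) - τ (u n * v n)) atTop (𝓝 0) := by
      rw [tendsto_zero_iff_norm_tendsto_zero]
      exact squeeze_zero (fun _ => norm_nonneg _) (fun n => (hw2 n).1.le) hlim
    have e2 : Tendsto (fun n => τ (u n * v n)) atTop (𝓝 (τ (g * h))) := by
      rw [map_mul]
      refine (u1.mul v1).congr (fun n => ?_)
      rw [map_mul]
    have e3 := e1.add e2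
    rw [zero_add] at e3
    exact e3.congr (fun n => by abel)
  · have e1 : Tendsto (fun n => L (w n) - L (u n) * L (v n)) atTop (𝓝 0) := by
      apply nmN_tendsto
      refine squeeze_zero (fun _ => nmN_nonneg _) (fun n => ?_) hlim
      rw [sub_zero]
      exact (hw2 n).2.le
    have e2 : Tendsto (fun n => L (u n) * L (v n)) atTop (𝓝 (A * B)) := u2.mul v2
    have e3 := e1.add e2
    rw [zero_add] at e3
    exact e3.congr (fun n => by abel)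

private theorem kls_pow {τ : G →* R} {Q : Set G} {L : G → Matrix (Fin 2) (Fin 2) ℝ}
    (hmul : ∀ f ∈ Q, ∀ g ∈ Q, ∀ δ : ℝ, 0 < δ → ∃ h ∈ Q, ‖τ h - τ (f * g)‖ < δ ∧
      nm (L h - L f * L g) < δ) {A : Matrix (Fin 2) (Fin 2) ℝ}
    (hA : A ∈ Kls τ Q L 1) (n : ℕ) : A ^ (n + 1) ∈ Kls τ Q L 1 := by
  induction n with
  | zero => rwa [zero_add, pow_one]
  | succ n ih =>
    have h1 := kls_mul hmul ih hA
    rw [mul_one] at h1
    rwa [pow_succ]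

private theorem kls_inv {τ : G →* R} {Q : Set G} {L : G → Matrix (Fin 2) (Fin 2) ℝ}
    (hdet : ∀ f ∈ Q, (L f).det ^ 2 = 1)
    (hbd : ∀ C : ℝ, ∃ K : ℝ, ∀ f ∈ Q, ‖τ f‖ ≤ C → ‖τ f⁻¹‖ ≤ C → nm (L f) ≤ K)
    (hmul : ∀ f ∈ Q, ∀ g ∈ Q, ∀ δ : ℝ, 0 < δ → ∃ h ∈ Q, ‖τ h - τ (f * g)‖ < δ ∧
      nm (L h - L f * L g) < δ) {A : Matrix (Fin 2) (Fin 2) ℝ}
    (hA : A ∈ Kls τ Q L 1) : A⁻¹ ∈ Kls τ Q L 1 := by
  obtain ⟨K, hK⟩ := kls_bdd (τ := τ) (Q := Q) (L := L) hbd 1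
  obtain ⟨B, φ, hφ, hB⟩ := nmN_bw (fun n => A ^ (n + 1)) K
    (fun n => hK _ (kls_pow hmul hA n))
  have hBm : B ∈ Kls τ Q L 1 := kls_closed (fun n => kls_pow hmul hA (φ n)) hB
  have hBd := kls_det hdet hBm
  -- exponents
  have hgap : ∀ k, φ k + 2 ≤ φ (k + 2) := by
    intro k
    have h1 := hφ (Nat.lt_succ_self k)
    have h2 := hφ (Nat.lt_succ_self (k + 1))
    have h3 : k.succ = k + 1 := rfl
    have h4 : (k + 1).succ = k + 2 := rfl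
    rw [h3] at h1
    rw [h4] at h2
    omega
  obtain ⟨S, ψ, hψ, hS⟩ := nmN_bw (fun k => A ^ ((φ (k + 2) - φ k - 2) + 1)) K
    (fun k => hK _ (kls_pow hmul hA _))
  have hSm : S ∈ Kls τ Q L 1 := kls_closed (fun n => kls_pow hmul hA _) hS
  have e1 : Tendsto (fun k => A ^ (φ (ψ k) + 1)) atTop (𝓝 B) := hB.comp hψ.tendsto_atTop
  have e2 : Tendsto (fun k => A ^ (φ (ψ k + 2) + 1)) atTop (𝓝 B) := by
    have h1 : Tendsto (fun k => ψ k + 2) atTop atTop :=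
      (tendsto_add_atTop_nat 2).comp hψ.tendsto_atTop
    exact hB.comp h1
  have e3 : Tendsto (fun k => A ^ (φ (ψ k) + 1) * A * A ^ ((φ (ψ k + 2) - φ (ψ k) - 2) + 1))
      atTop (𝓝 (B * A * S)) := (e1.mul_const A).mul hS
  have e4 : ∀ k, A ^ (φ (ψ k) + 1) * A * A ^ ((φ (ψ k + 2) - φ (ψ k) - 2) + 1) =
      A ^ (φ (ψ k + 2) + 1) := by
    intro k
    rw [← pow_succ, ← pow_add]
    congr 1
    have := hgap (ψ k)
    omega
  have e5 : B * A * S = B := by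
    refine tendsto_nhds_unique (e3.congr e4) e2
  have e6 : A * S = 1 := by
    have h1 : B * (A * S) = B * 1 := by rw [← mul_assoc, e5, mul_one]
    have h2 : B⁻¹ * (B * (A * S)) = B⁻¹ * (B * 1) := by rw [h1]
    rwa [Matrix.nonsing_inv_mul_cancel_left _ _ (isUnit_iff_ne_zero.2 hBd),
      Matrix.nonsing_inv_mul_cancel_left _ _ (isUnit_iff_ne_zero.2 hBd)] at h2
  rw [Matrix.inv_eq_right_inv e6]
  exact hSm

end

theorem coset_bdd {G R : Type*} [Group G] [NormedRing R] [NormedAlgebra ℝ R] [CompleteSpace R]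
    (τ : G →* R) (Q : Set G) (L : G → Matrix (Fin 2) (Fin 2) ℝ)
    (hQ : ∀ g : G, ∀ δ : ℝ, 0 < δ → ∃ f ∈ Q, ‖τ f - τ g‖ < δ)
    (hdet : ∀ f ∈ Q, (L f).det ^ 2 = 1)
    (hbd : ∀ C : ℝ, ∃ K : ℝ, ∀ f ∈ Q, ‖τ f‖ ≤ C → ‖τ f⁻¹‖ ≤ C → nm (L f) ≤ K)
    (hmul : ∀ f ∈ Q, ∀ g ∈ Q, ∀ δ : ℝ, 0 < δ → ∃ h ∈ Q, ‖τ h - τ (f * g)‖ < δ ∧
      nm (L h - L f * L g) < δ)
    (f₁ f₀ g : G) (h1 : f₁ ∈ Q) (h2 : f₁ * g ∈ Q) (h3 : f₀ ∈ Q) (h4 : f₀ * g ∈ Q) :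
    ∃ K : ℝ, ∀ n : ℕ, nm (((L f₁)⁻¹ * L (f₁ * g) * ((L (f₀ * g))⁻¹ * L f₀)) ^ n) ≤ K := by
  have hself : ∀ f ∈ Q, L f ∈ Kls τ Q L f := fun f hf =>
    ⟨fun _ => f, fun _ => hf, tendsto_const_nhds, tendsto_const_nhds⟩
  have hinv : ∀ f ∈ Q, (L f)⁻¹ ∈ Kls τ Q L f⁻¹ := by
    intro f hf
    obtain ⟨a, ha⟩ := kls_nonempty hQ hbd f⁻¹
    have h5 := kls_mul hmul ha (hself f hf)
    rw [inv_mul_cancel] at h5
    have h6 := kls_inv hdet hbd hmul h5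
    have h7 := kls_mul hmul h6 ha
    rw [one_mul] at h7
    have h8 : (a * L f)⁻¹ * a = (L f)⁻¹ := by
      rw [Matrix.mul_inv_rev, mul_assoc,
        Matrix.nonsing_inv_mul _ (isUnit_iff_ne_zero.2 (kls_det hdet ha)), mul_one]
    rwa [h8] at h7
  have hP : (L f₁)⁻¹ * L (f₁ * g) ∈ Kls τ Q L g := by
    have h5 := kls_mul hmul (hinv f₁ h1) (hself _ h2)
    rwa [inv_mul_cancel_left] at h5
  have hR : (L (f₀ * g))⁻¹ * L f₀ ∈ Kls τ Q L g⁻¹ := by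
    have h5 := kls_mul hmul (hinv _ h4) (hself f₀ h3)
    have h6 : (f₀ * g)⁻¹ * f₀ = g⁻¹ := by group
    rwa [h6] at h5
  have hT := kls_mul hmul hP hR
  rw [mul_inv_cancel] at hT
  obtain ⟨K, hK⟩ := kls_bdd (τ := τ) (Q := Q) (L := L) hbd 1
  refine ⟨max K (nm (1 : Matrix (Fin 2) (Fin 2) ℝ)), fun n => ?_⟩
  rcases n with _ | n
  · rw [pow_zero]
    exact le_max_right _ _
  · exact (hK _ (kls_pow hmul hT n)).trans (le_max_left _ _)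

end Pool.AF
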