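import Pool.Agent.Helper94.AC.Defs

/-!
# AC-4 CPLX: the complex case

`V` is a real normed space of dimension four with a complex structure `J`; a sequence of maps `A n` of
determinant one commuting with `J`, with `‖A n‖ → ∞`, is approximated by `X n ∘ a n ∘ Y n`,
`a n ∈ ℂ`.

Proof. Choose `v`, `w` such that `v, J v, w, J w` is a basis of `V` (take `v ≠ 0` and `w` outside
the span of `v, J v`), that is a real linear isomorphism `Φ : V → ℂ × ℂ` (or `Fin 2 → ℂ`) with
`Φ (J u) = i Φ u`. The maps commuting with `J` become complex `2 × 2` matrices `B n`, with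
`|det (B n)| ^ 2 = det (A n) = 1` (real determinant). Let `a n` be an entry of `B n` of largest
modulus, at the position `(i, j)`; the norm of `B n` is comparable to `|a n|`. Let `x n` be the
`j`-th column divided by `a n` and `y n` the `i`-th row divided by `a n`, with entries of modulus
`≤ 1`, `(x n) i = 1`, `(y n) j = 1`. Then `B n - a n • (x n) (y n)ᵀ` has all entries zero except one
which is `± det (B n) / a n`, and tends to zero. Pass to a subsequence such that `(i, j)` is constant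
and `x n`, `y n` converge. Put `X n z = Φ⁻¹ (z • x n)`, `Y n v = (y n)ᵀ Φ v`, and `X₀`, `Y₀` for the
limits.
-/

open Set Filter Topology

set_option linter.unusedSectionVars false

namespace Pool.AF

/-- The complex vector space given by `J`. -/
private noncomputable abbrev cmod {V : Type*} [AddCommGroup V] [Module ℝ V] (J : V →ₗ[ℝ] V)
    (hJ : ∀ v, J (J v) = -v) : Module ℂ V where
  smul z v := z.re • v + z.im • J v
  one_smul v := by
    change (1 : ℂ).re • v + (1 : ℂ).im • J v = v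
    simp
  mul_smul z w v := by
    change (z * w).re • v + (z * w).im • J v =
      z.re • (w.re • v + w.im • J v) + z.im • J (w.re • v + w.im • J v)
    rw [map_add, map_smul, map_smul, hJ, Complex.mul_re, Complex.mul_im]
    module
  smul_zero z := by
    change z.re • (0 : V) + z.im • J 0 = 0
    simp
  smul_add z v w := by
    change z.re • (v + w) + z.im • J (v + w) = (z.re • v + z.im • J v) + (z.re • w + z.im • J w)
    rw [map_add]
    module
  add_smul z w v := by
    change (z + w).re • v + (z + w).im • J v = (z.re • v + z.im • J v) + (w.re • v + w.im • J v)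
    rw [Complex.add_re, Complex.add_im]
    module
  zero_smul v := by
    change (0 : ℂ).re • v + (0 : ℂ).im • J v = 0
    simp

private theorem exists_phi {V : Type*} [AddCommGroup V] [Module ℝ V] [FiniteDimensional ℝ V]
    (hV : Module.finrank ℝ V = 4) (J : V →ₗ[ℝ] V) (hJ : ∀ v, J (J v) = -v) :
    ∃ Φ : V ≃ₗ[ℝ] (Fin 2 → ℂ), (∀ v, Φ (J v) = Complex.I • Φ v) ∧
      ∀ A : V →ₗ[ℝ] V, (∀ v, J (A v) = A (J v)) → ∃ B : Matrix (Fin 2) (Fin 2) ℂ,
        (∀ v, Φ (A v) = B.mulVec (Φ v)) ∧ LinearMap.det A = ‖B.det‖ ^ 2 := by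
  let _ : Module ℂ V := cmod J hJ
  have hs : ∀ (z : ℂ) (v : V), z • v = z.re • v + z.im • J v := fun _ _ => rfl
  have hst : IsScalarTower ℝ ℂ V := ⟨fun r z v => by
    rw [hs, hs, Complex.smul_re, Complex.smul_im, smul_add, smul_smul, smul_smul, smul_eq_mul,
      smul_eq_mul]⟩
  have hmf : Module.Finite ℂ V := Module.Finite.of_restrictScalars_finite ℝ ℂ V
  have h2 : Module.finrank ℂ V = 2 := by
    have h := Module.finrank_mul_finrank ℝ ℂ V
    rw [hV, Complex.finrank_real_complex] at h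
    omega
  let b : Module.Basis (Fin 2) ℂ V := Module.finBasisOfFinrankEq ℂ V h2
  refine ⟨b.equivFun.restrictScalars ℝ, ?_, ?_⟩
  · intro v
    have h3 : J v = Complex.I • v := by
      rw [hs, Complex.I_re, Complex.I_im, zero_smul, one_smul, zero_add]
    rw [h3]
    exact b.equivFun.map_smul Complex.I v
  · intro A hA
    let A' : V →ₗ[ℂ] V :=
      { toFun := A
        map_add' := A.map_add
        map_smul' := fun z v => by
          rw [RingHom.id_apply, hs, hs, map_add, map_smul, map_smul, hA] }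
    refine ⟨LinearMap.toMatrix b b A', fun v => ?_, ?_⟩
    · exact (LinearMap.toMatrix_mulVec_repr b b A' v).symm
    · have h3 : A = A'.restrictScalars ℝ := rfl
      rw [h3, LinearMap.det_restrictScalars, Algebra.norm_complex_apply, Complex.normSq_eq_norm_sq,
        LinearMap.det_toMatrix]

section

variable {V : Type*} [NormedAddCommGroup V] [NormedSpace ℝ V] [FiniteDimensional ℝ V]

/-- The map `z ↦ Φ⁻¹ (z x)` as a function of `x`. -/
private noncomputable def xl (Φ : V ≃ₗ[ℝ] (Fin 2 → ℂ)) : (Fin 2 → ℂ) →ₗ[ℝ] (ℂ →L[ℝ] V) where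
  toFun x := LinearMap.toContinuousLinearMap
    { toFun := fun z => Φ.symm (z • x)
      map_add' := fun z w => by rw [add_smul, map_add]
      map_smul' := fun r z => by rw [smul_assoc, map_smul, RingHom.id_apply] }
  map_add' x y := by
    ext1 z
    change Φ.symm (z • (x + y)) = Φ.symm (z • x) + Φ.symm (z • y)
    rw [smul_add, map_add]
  map_smul' r x := by
    ext1 z
    change Φ.symm (z • (r • x)) = r • Φ.symm (z • x)
    rw [smul_comm, map_smul]

private theorem xl_apply (Φ : V ≃ₗ[ℝ] (Fin 2 → ℂ)) (x : Fin 2 → ℂ) (z : ℂ) :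
    xl Φ x z = Φ.symm (z • x) := rfl

/-- The map `v ↦ y · Φ v` as a function of `y`. -/
private noncomputable def yl (Φ : V ≃ₗ[ℝ] (Fin 2 → ℂ)) : (Fin 2 → ℂ) →ₗ[ℝ] (V →L[ℝ] ℂ) where
  toFun y := LinearMap.toContinuousLinearMap
    { toFun := fun v => dotProduct y (Φ v)
      map_add' := fun v w => by rw [map_add, dotProduct_add]
      map_smul' := fun r v => by rw [map_smul, dotProduct_smul, RingHom.id_apply] }
  map_add' x y := by
    ext1 v
    change dotProduct (x + y) (Φ v) = dotProduct x (Φ v) + dotProduct y (Φ v)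
    rw [add_dotProduct]
  map_smul' r x := by
    ext1 v
    change dotProduct (r • x) (Φ v) = r • dotProduct x (Φ v)
    rw [smul_dotProduct]

private theorem yl_apply (Φ : V ≃ₗ[ℝ] (Fin 2 → ℂ)) (y : Fin 2 → ℂ) (v : V) :
    yl Φ y v = dotProduct y (Φ v) := rfl

/-- The map with a given complex matrix. -/
private noncomputable def rl (Φ : V ≃ₗ[ℝ] (Fin 2 → ℂ)) :
    (Fin 2 → Fin 2 → ℂ) →ₗ[ℝ] (V →L[ℝ] V) where
  toFun M := LinearMap.toContinuousLinearMap
    { toFun := fun v => Φ.symm ((Matrix.of M).mulVec (Φ v))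
      map_add' := fun v w => by rw [map_add, Matrix.mulVec_add, map_add]
      map_smul' := fun r v => by
        rw [map_smul, Matrix.mulVec_smul, map_smul, RingHom.id_apply] }
  map_add' x y := by
    ext1 v
    change Φ.symm ((Matrix.of (x + y)).mulVec (Φ v)) =
      Φ.symm ((Matrix.of x).mulVec (Φ v)) + Φ.symm ((Matrix.of y).mulVec (Φ v))
    rw [← map_add, ← Matrix.add_mulVec]
    rfl
  map_smul' r x := by
    ext1 v
    change Φ.symm ((Matrix.of (r • x)).mulVec (Φ v)) = r • Φ.symm ((Matrix.of x).mulVec (Φ v))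
    rw [← map_smul, ← Matrix.smul_mulVec]
    rfl

private theorem rl_apply (Φ : V ≃ₗ[ℝ] (Fin 2 → ℂ)) (M : Fin 2 → Fin 2 → ℂ) (v : V) :
    rl Φ M v = Φ.symm ((Matrix.of M).mulVec (Φ v)) := rfl

end

private theorem dec_one (B : Matrix (Fin 2) (Fin 2) ℂ) (hB : ‖B.det‖ = 1) :
    ∃ (a : ℂ) (x y : Fin 2 → ℂ), a ≠ 0 ∧ ‖x‖ = 1 ∧ ‖y‖ = 1 ∧ (∀ k l, ‖B k l‖ ≤ ‖a‖) ∧
      ∀ k l, ‖B k l - a * (x k * y l)‖ ≤ ‖a‖⁻¹ := by
  obtain ⟨p, hp⟩ := Finite.exists_max (fun p : Fin 2 × Fin 2 => ‖B p.1 p.2‖)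
  have hmax : ∀ k l, ‖B k l‖ ≤ ‖B p.1 p.2‖ := fun k l => hp (k, l)
  have ha : B p.1 p.2 ≠ 0 := by
    intro h
    have h1 : ∀ k l, B k l = 0 := by
      intro k l
      have h2 := hmax k l
      rw [h, norm_zero] at h2
      exact norm_le_zero_iff.mp h2
    have h2 : B.det = 0 := by
      simp only [Matrix.det_fin_two, h1, mul_zero, sub_zero]
    rw [h2, norm_zero] at hB
    exact zero_ne_one hB
  have ha' : 0 < ‖B p.1 p.2‖ := norm_pos_iff.mpr ha
  refine ⟨B p.1 p.2, fun k => B k p.2 / B p.1 p.2, fun l => B p.1 l / B p.1 p.2, ha, ?_, ?_, hmax,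
    ?_⟩
  · apply le_antisymm
    · rw [pi_norm_le_iff_of_nonneg zero_le_one]
      intro k
      rw [norm_div]
      exact (div_le_one ha').mpr (hmax _ _)
    · have h1 := norm_le_pi_norm (fun k => B k p.2 / B p.1 p.2) p.1
      rw [div_self ha, norm_one] at h1
      exact h1
  · apply le_antisymm
    · rw [pi_norm_le_iff_of_nonneg zero_le_one]
      intro k
      rw [norm_div]
      exact (div_le_one ha').mpr (hmax _ _)
    · have h1 := norm_le_pi_norm (fun l => B p.1 l / B p.1 p.2) p.2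
      rw [div_self ha, norm_one] at h1
      exact h1
  · intro k l
    have h1 : B k l - B p.1 p.2 * (B k p.2 / B p.1 p.2 * (B p.1 l / B p.1 p.2)) =
        (B k l * B p.1 p.2 - B k p.2 * B p.1 l) / B p.1 p.2 := by
      field_simp
    rw [h1, norm_div, ← one_div, div_le_div_iff_of_pos_right ha']
    obtain ⟨i, j⟩ := p
    have h2 : B k l * B i j - B k j * B i l = 0 ∨ B k l * B i j - B k j * B i l = B.det ∨
        B k l * B i j - B k j * B i l = - B.det := by
      rw [Matrix.det_fin_two]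
      fin_cases i <;> fin_cases j <;> fin_cases k <;> fin_cases l <;> simp <;>
        first
          | (left; ring1)
          | (right; left; ring1)
          | (right; right; ring1)
    rcases h2 with h2 | h2 | h2
    · change ‖B k l * B i j - B k j * B i l‖ ≤ 1
      rw [h2, norm_zero]
      exact zero_le_one
    · change ‖B k l * B i j - B k j * B i l‖ ≤ 1
      rw [h2, hB]
    · change ‖B k l * B i j - B k j * B i l‖ ≤ 1
      rw [h2, norm_neg, hB]

theorem cplx_dec {V : Type*} [NormedAddCommGroup V] [NormedSpace ℝ V] [FiniteDimensional ℝ V]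
    (hV : Module.finrank ℝ V = 4) (J : V →ₗ[ℝ] V) (hJ : ∀ v, J (J v) = -v)
    (A : ℕ → V →L[ℝ] V) (hdet : ∀ n, LinearMap.det ((A n : V →L[ℝ] V) : V →ₗ[ℝ] V) = 1)
    (hcomm : ∀ n v, J (A n v) = A n (J v)) (hinf : Tendsto (fun n => ‖A n‖) atTop atTop) :
    ∃ (φ : ℕ → ℕ) (a : ℕ → ℂ) (X : ℕ → ℂ →L[ℝ] V) (Y : ℕ → V →L[ℝ] ℂ) (X₀ : ℂ →L[ℝ] V)
      (Y₀ : V →L[ℝ] ℂ), StrictMono φ ∧ (∀ n, a n ≠ 0) ∧
      Tendsto (fun n => ‖(a n)⁻¹‖) atTop (𝓝 0) ∧ Tendsto X atTop (𝓝 X₀) ∧
      Tendsto Y atTop (𝓝 Y₀) ∧ (∃ z, X₀ z ≠ 0) ∧ (∃ v, Y₀ v ≠ 0) ∧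
      (∀ z, X₀ (Complex.I * z) = J (X₀ z)) ∧ (∀ v, Y₀ (J v) = Complex.I * Y₀ v) ∧
      ∃ R : ℕ → V →L[ℝ] V, Tendsto (fun n => ‖R n‖) atTop (𝓝 0) ∧
        ∀ n v, A (φ n) v = X n (a n * Y n v) + R n v := by
  obtain ⟨Φ, hΦ, hB⟩ := exists_phi hV J hJ
  choose B hBA hBd using fun n => hB ((A n : V →L[ℝ] V) : V →ₗ[ℝ] V) (hcomm n)
  have hdB : ∀ n, ‖(B n).det‖ = 1 := by
    intro n
    have h1 := hBd n
    rw [hdet n] at h1
    exact (pow_eq_one_iff_of_nonneg (norm_nonneg _) two_ne_zero).mp h1.symm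
  choose a x y ha hx hy hmax hrem using fun n => dec_one (B n) (hdB n)
  -- the norms
  have hrlc : Continuous (rl Φ) := (rl Φ).continuous_of_finiteDimensional
  have hxlc : Continuous (xl Φ) := (xl Φ).continuous_of_finiteDimensional
  have hylc : Continuous (yl Φ) := (yl Φ).continuous_of_finiteDimensional
  have hArl : ∀ n, A n = rl Φ (fun k l => B n k l) := by
    intro n
    ext1 v
    rw [rl_apply, Φ.eq_symm_apply]
    exact hBA n v
  obtain ⟨K, hK0, hK⟩ := (LinearMap.toContinuousLinearMap (rl Φ)).isBoundedLinearMap.bound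
  have hAa : ∀ n, ‖A n‖ ≤ K * ‖a n‖ := by
    intro n
    rw [hArl n]
    refine (hK _).trans (mul_le_mul_of_nonneg_left ?_ hK0.le)
    rw [pi_norm_le_iff_of_nonneg (norm_nonneg _)]
    intro k
    rw [pi_norm_le_iff_of_nonneg (norm_nonneg _)]
    intro l
    exact hmax n k l
  have hainf : Tendsto (fun n => ‖a n‖) atTop atTop := by
    have h1 : Tendsto (fun n => K⁻¹ * ‖A n‖) atTop atTop :=
      Tendsto.const_mul_atTop (inv_pos.mpr hK0) hinf
    refine tendsto_atTop_mono (fun n => ?_) h1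
    rw [inv_mul_le_iff₀ hK0]
    exact hAa n
  have hai : Tendsto (fun n => ‖(a n)⁻¹‖) atTop (𝓝 0) := by
    simp only [norm_inv]
    exact tendsto_inv_atTop_zero.comp hainf
  -- the subsequence
  obtain ⟨q, hq, φ, hφ, hlim⟩ :=
    ((isCompact_sphere (0 : Fin 2 → ℂ) 1).prod (isCompact_sphere (0 : Fin 2 → ℂ) 1)).tendsto_subseq
      (x := fun n => (x n, y n)) (fun n => ⟨by simpa using hx n, by simpa using hy n⟩)
  have hqx : ‖q.1‖ = 1 := by simpa using hq.1
  have hqy : ‖q.2‖ = 1 := by simpa using hq.2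
  have hlx : Tendsto (fun n => x (φ n)) atTop (𝓝 q.1) := (continuous_fst.tendsto q).comp hlim
  have hly : Tendsto (fun n => y (φ n)) atTop (𝓝 q.2) := (continuous_snd.tendsto q).comp hlim
  refine ⟨φ, fun n => a (φ n), fun n => xl Φ (x (φ n)), fun n => yl Φ (y (φ n)), xl Φ q.1,
    yl Φ q.2, hφ, fun n => ha _, hai.comp hφ.tendsto_atTop, (hxlc.tendsto _).comp hlx,
    (hylc.tendsto _).comp hly, ⟨1, ?_⟩, ?_, ?_, ?_,
    fun n => rl Φ (fun k l => B (φ n) k l - a (φ n) * (x (φ n) k * y (φ n) l)), ?_, ?_⟩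
  · rw [xl_apply, one_smul]
    intro h
    rw [LinearEquiv.map_eq_zero_iff] at h
    rw [h, norm_zero] at hqx
    exact zero_ne_one hqx
  · obtain ⟨j, hj⟩ : ∃ j, q.2 j ≠ 0 := by
      by_contra hcon
      push Not at hcon
      have h1 : q.2 = 0 := funext hcon
      rw [h1, norm_zero] at hqy
      exact zero_ne_one hqy
    refine ⟨Φ.symm (Pi.single j 1), ?_⟩
    rw [yl_apply, LinearEquiv.apply_symm_apply, dotProduct_single_one]
    exact hj
  · intro z
    rw [xl_apply, xl_apply, Φ.symm_apply_eq, hΦ, LinearEquiv.apply_symm_apply, mul_smul]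
  · intro v
    rw [yl_apply, yl_apply, hΦ, dotProduct_smul, smul_eq_mul]
  · have h1 : Tendsto (fun n => (fun k l => B (φ n) k l - a (φ n) * (x (φ n) k * y (φ n) l) :
        Fin 2 → Fin 2 → ℂ)) atTop (𝓝 0) := by
      rw [tendsto_pi_nhds]
      intro k
      rw [tendsto_pi_nhds]
      intro l
      change Tendsto (fun n => B (φ n) k l - a (φ n) * (x (φ n) k * y (φ n) l)) atTop (𝓝 (0 : ℂ))
      rw [tendsto_zero_iff_norm_tendsto_zero]
      refine squeeze_zero (fun n => norm_nonneg _) (fun n => ?_) (hai.comp hφ.tendsto_atTop)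
      rw [Function.comp_apply, norm_inv]
      exact hrem (φ n) k l
    have h2 := (hrlc.tendsto 0).comp h1
    rw [map_zero] at h2
    have h3 := h2.norm
    rw [norm_zero] at h3
    exact h3
  · intro n v
    rw [xl_apply, yl_apply, rl_apply, ← map_add, Φ.eq_symm_apply]
    have h1 := hBA (φ n) v
    refine h1.trans ?_
    funext k
    simp only [Matrix.mulVec, dotProduct, Fin.sum_univ_two, Pi.add_apply, Pi.smul_apply,
      smul_eq_mul, Matrix.of_apply]
    ring

end Pool.AF
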