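import Pool.Agent.Helper94.AC.Defs

/-!
# The hypotheses in the irreducible case in dimension four
-/

open Set Filter Topology Matrix

set_option linter.unusedSectionVars false

namespace Pool.AF

open Pool.SV

section

variable {E : Type*} [NormedAddCommGroup E] [NormedSpace ℝ E] [FiniteDimensional ℝ E]
  {D : Geo E}

/-- `G₀` is a locally dense subgroup of the commutator subgroup, its matrices span the algebra of all
matrices, and it contains elements near the identity on the base with large matrices. -/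
structure InvSub.Full (S : InvSub D) (b : Module.Basis (Fin 4) ℝ S.U) (G₀ : Subgroup D.Γ) :
    Prop where
  le : G₀ ≤ commutator D.Γ
  loc : Loc S.base (S.mat b) G₀
  span : ∀ ℓ : Matrix (Fin 4) (Fin 4) ℝ →ₗ[ℝ] ℝ, (∀ g ∈ G₀, ℓ (S.mat b g) = 0) → ℓ = 0
  near : ∀ C ε : ℝ, 0 < ε → ∃ c ∈ G₀, ‖S.base c - 1‖ < ε ∧ C < nm (S.mat b c)

variable {S : InvSub D} {G₀ : Subgroup D.Γ}

theorem mat_det {d : ℕ} (S : InvSub D) (b : Module.Basis (Fin d) ℝ S.U) (g : D.Γ)
    (hg : g ∈ commutator D.Γ) : (S.mat b g).det = 1 := by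
  rw [S.mat_apply, LinearMap.det_toMatrix]
  exact det_commutator S.lrep g hg

theorem InvSub.Full.det {b : Module.Basis (Fin 4) ℝ S.U} (hF : S.Full b G₀) (g : D.Γ)
    (hg : g ∈ G₀) : (S.mat b g).det = 1 := mat_det S b g (hF.le hg)

theorem exists_dual_zero {W : Type*} [AddCommGroup W] [Module ℝ W] (I : Submodule ℝ W)
    (hI : I ≠ ⊤) : ∃ φ : W →ₗ[ℝ] ℝ, φ ≠ 0 ∧ ∀ v ∈ I, φ v = 0 := by
  obtain ⟨φ, hφ, hI'⟩ := Submodule.exists_le_ker_of_lt_top I (lt_top_iff_ne_top.mpr hI)
  exact ⟨φ, hφ, fun v hv => hI' hv⟩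

/-- A group of matrices with full linear span has no invariant subspaces. -/
theorem InvSub.Full.irr {b : Module.Basis (Fin 4) ℝ S.U} (hF : S.Full b G₀)
    (I : Submodule ℝ (Fin 4 → ℝ)) (hI : ∀ g ∈ G₀, ∀ v ∈ I, S.mat b g *ᵥ v ∈ I) :
    I = ⊥ ∨ I = ⊤ := by
  by_contra hcon
  push Not at hcon
  obtain ⟨h0, h1⟩ := hcon
  obtain ⟨v, hv, hv0⟩ := Submodule.exists_mem_ne_zero_of_ne_bot h0
  obtain ⟨φ, hφ, hI'⟩ := exists_dual_zero I h1
  apply hφ
  -- the functional
  let ℓ : Matrix (Fin 4) (Fin 4) ℝ →ₗ[ℝ] ℝ :=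
    { toFun := fun A => φ (A *ᵥ v)
      map_add' := fun A B => by rw [Matrix.add_mulVec, map_add]
      map_smul' := fun c A => by rw [Matrix.smul_mulVec, map_smul, RingHom.id_apply] }
  have h2 : ℓ = 0 := hF.span ℓ (fun g hg => hI' _ (hI g hg v hv))
  -- every vector is a value
  obtain ⟨i, hi⟩ : ∃ i, v i ≠ 0 := by
    by_contra h
    push Not at h
    exact hv0 (funext h)
  refine LinearMap.ext (fun x => ?_)
  have h3 : (Matrix.of (fun k l => if l = i then x k / v i else 0) : Matrix (Fin 4) (Fin 4) ℝ) *ᵥ v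
      = x := by
    funext k
    rw [Matrix.mulVec, dotProduct, Finset.sum_eq_single i]
    · simp only [Matrix.of_apply, if_true]
      field_simp
    · intro l _ hl
      simp [hl]
    · intro h
      exact absurd (Finset.mem_univ i) h
  have h4 := LinearMap.congr_fun h2
    (Matrix.of (fun k l => if l = i then x k / v i else 0) : Matrix (Fin 4) (Fin 4) ℝ)
  change φ (_ *ᵥ v) = 0 at h4
  rw [h3] at h4
  rw [h4]
  rfl

end

end Pool.AF
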