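import Pool.Agent.Helper94.AC.Cplx
import Pool.Agent.Helper94.AC.Full
import Pool.Agent.Helper94.AB.Steer

/-!
# AC-25 CPLXK: the complex case is impossible (uses the stub AC-4 `cplx_dec`, and `steer`)

Proof. By `hnear` there are `γ n ∈ G₀` with `‖S.base (γ n) - 1‖ < 1 / (n + 1)` (so `S.base (γ n)` and its
inverse are bounded, `tendsto_base_inv` in `AB/Seqs.lean`) and `‖S.rep (γ n)‖ > n`. Their determinant is
one (`det_commutator`). Apply `cplx_dec` to `A n = S.rep (γ n)`: get `φ, a, X, Y, X₀, Y₀, R`. Apply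
`steer` (`Pool/Agent/Helper94/AB/Steer.lean`) with `T = ℂ` to `γ (φ n)`, `Xn = X`, `Yn = Y`, `Rn = R`,
`An n` the multiplication by `a n`, `An' n` the multiplication by `(a n)⁻¹`, of norm `‖(a n)⁻¹‖ → 0`.

`hdense`: for `f ∈ G₀` the map `z ↦ Y₀ (S.rep f (X₀ z))` commutes with the multiplication by `I` (by the
properties of `X₀`, `Y₀` and `hcomm`) and is real linear, so it is the multiplication by
`κ f = Y₀ (S.rep f (X₀ 1))`; it is injective if `κ f ≠ 0`. The real and imaginary parts of `κ f`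
are linear functionals of `S.mat b f`, so `F f = (re κ f) ^ 2 + (im κ f) ^ 2` is polynomial
(`IsPoly.lin`, `IsPoly.mul`, `IsPoly.add`), and by `hloc.dens` it is enough to see that `κ f ≠ 0` for some
`f ∈ G₀`. The span `P` of all `S.rep f (X₀ z)`, `f ∈ G₀`, `z ∈ ℂ`, is invariant under `J` (as
`J (S.rep f (X₀ z)) = S.rep f (X₀ (I z))`) and `G₀`, and not `⊥`, so `P = ⊤` by `hirr`. If `κ f = 0` for all
`f ∈ G₀` then `Y₀ (S.rep f (X₀ z)) = z κ f = 0`, so `Y₀ = 0` on `P = ⊤`: contradiction.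
-/

open Set Filter Topology Matrix

set_option linter.unusedSectionVars false

namespace Pool.AF

open Pool.SV

section

variable {E : Type*} [NormedAddCommGroup E] [NormedSpace ℝ E] [FiniteDimensional ℝ E]
  {D : Geo E}

theorem cplx_kill (S : InvSub D) (h4 : Module.finrank ℝ S.U = 4) (G₀ : Subgroup D.Γ)
    (hle : G₀ ≤ commutator D.Γ) (b : Module.Basis (Fin 4) ℝ S.U)
    (hloc : Loc S.base (S.mat b) G₀)
    (hnear : ∀ C ε : ℝ, 0 < ε → ∃ c ∈ G₀, ‖S.base c - 1‖ < ε ∧ C < ‖S.rep c‖)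
    (J : S.U →ₗ[ℝ] S.U) (hJ : ∀ v, J (J v) = -v)
    (hcomm : ∀ δ ∈ G₀, ∀ v, J (S.lrep δ v) = S.lrep δ (J v))
    (hirr : ∀ P : Submodule ℝ S.U, (∀ v ∈ P, J v ∈ P) → (∀ δ ∈ G₀, ∀ v ∈ P, S.lrep δ v ∈ P) →
      P = ⊥ ∨ P = ⊤) : False := by
  classical
  choose γ hγ hγ1 hγ2 using fun n : ℕ => hnear (n : ℝ) (1 / ((n : ℝ) + 1)) (by positivity)
  have hbase : Tendsto (fun n => S.base (γ n)) atTop (𝓝 1) := by
    rw [tendsto_iff_norm_sub_tendsto_zero]
    exact squeeze_zero (fun n => norm_nonneg _) (fun n => (hγ1 n).le)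
      tendsto_one_div_add_atTop_nhds_zero_nat
  have hbase' := tendsto_base_inv S.base γ hbase
  obtain ⟨C₁, hC₁⟩ := hbase.norm.bddAbove_range
  obtain ⟨C₂, hC₂⟩ := hbase'.norm.bddAbove_range
  have hinf : Tendsto (fun n => ‖S.rep (γ n)‖) atTop atTop :=
    tendsto_atTop_mono (fun n => (hγ2 n).le) tendsto_natCast_atTop_atTop
  obtain ⟨φ, a, X, Y, X₀, Y₀, hφ, ha, ha0, hX, hY, hX0, hY0, hXI, hYJ, R, hR, hdec⟩ :=
    cplx_dec h4 J hJ (fun n => S.rep (γ n)) (fun n => det_commutator S.lrep (γ n) (hle (hγ n)))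
      (fun n v => hcomm _ (hγ n) v) hinf
  have hcommf : ∀ f ∈ G₀, ∀ v, S.rep f (J v) = J (S.rep f v) :=
    fun f hf v => (hcomm f hf v).symm
  have hκ : ∀ f ∈ G₀, ∀ z : ℂ, Y₀ (S.rep f (X₀ z)) = z * Y₀ (S.rep f (X₀ 1)) := by
    intro f hf z
    have h1 : X₀ Complex.I = J (X₀ 1) := by rw [← hXI, mul_one]
    have h2 : z = (z.re : ℝ) • (1 : ℂ) + (z.im : ℝ) • Complex.I := by
      rw [Complex.real_smul, Complex.real_smul, mul_one]
      exact (Complex.re_add_im z).symm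
    have h3 : X₀ z = (z.re : ℝ) • X₀ 1 + (z.im : ℝ) • J (X₀ 1) := by
      rw [← h1, ← map_smul, ← map_smul, ← map_add, ← h2]
    rw [h3, map_add, map_smul, map_smul, hcommf f hf, map_add, map_smul, map_smul, hYJ]
    conv_rhs => rw [h2]
    rw [Complex.real_smul, Complex.real_smul, Complex.real_smul, Complex.real_smul]
    ring
  -- the polynomial function
  let κ : D.Γ → ℂ := fun f => Y₀ (S.rep f (X₀ 1))
  have hlin : ∀ r : ℂ →ₗ[ℝ] ℝ, IsPoly (fun g => S.mat b g) (fun f => r (κ f)) := by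
    intro r
    let ℓ : Matrix (Fin 4) (Fin 4) ℝ →ₗ[ℝ] ℝ :=
      r ∘ₗ (Y₀ : S.U →ₗ[ℝ] ℂ) ∘ₗ (LinearMap.applyₗ (X₀ 1)) ∘ₗ
        (Matrix.toLin b b : Matrix (Fin 4) (Fin 4) ℝ ≃ₗ[ℝ] (S.U →ₗ[ℝ] S.U)).toLinearMap
    have h1 : (fun f => r (κ f)) = fun f => ℓ (S.mat b f) := by
      funext f
      have h2 : Matrix.toLin b b (S.mat b f) = S.lrep f := by
        rw [S.mat_apply, Matrix.toLin_toMatrix]
      change r (Y₀ (S.lrep f (X₀ 1))) = r (Y₀ ((Matrix.toLin b b (S.mat b f)) (X₀ 1)))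
      rw [h2]
    rw [h1]
    exact IsPoly.lin ℓ
  let F : D.Γ → ℝ := fun f => (κ f).re * (κ f).re + (κ f).im * (κ f).im
  have hF : IsPoly (fun g => S.mat b g) F :=
    ((hlin Complex.reLm).mul (hlin Complex.reLm)).add ((hlin Complex.imLm).mul (hlin Complex.imLm))
  have hF0 : ∀ f, F f ≠ 0 ↔ κ f ≠ 0 := by
    intro f
    have h1 : F f = Complex.normSq (κ f) := rfl
    rw [h1, Ne, Ne, Complex.normSq_eq_zero]
  have hex : ∃ f ∈ G₀, F f ≠ 0 := by
    by_contra hcon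
    push Not at hcon
    have h0 : ∀ f ∈ G₀, κ f = 0 := by
      intro f hf
      by_contra hne
      exact (hF0 f).2 hne (hcon f hf)
    let Q : Submodule ℝ S.U :=
      { carrier := {v | ∀ f ∈ G₀, Y₀ (S.rep f v) = 0}
        add_mem' := by
          intro v w hv hw f hf
          rw [map_add, map_add, hv f hf, hw f hf, add_zero]
        zero_mem' := by
          intro f _
          rw [map_zero, map_zero]
        smul_mem' := by
          intro c v hv f hf
          rw [map_smul, map_smul, hv f hf, smul_zero] }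
    have hQ : ∀ v, v ∈ Q ↔ ∀ f ∈ G₀, Y₀ (S.rep f v) = 0 := fun v => Iff.rfl
    rcases hirr Q (by
      intro v hv f hf
      rw [hcommf f hf, hYJ, (hQ v).1 hv f hf, mul_zero]) (by
      intro δ hδ v hv f hf
      have h1 := (hQ v).1 hv (f * δ) (G₀.mul_mem hf hδ)
      rw [map_mul] at h1
      exact h1) with h1 | h1
    · obtain ⟨z, hz⟩ := hX0
      apply hz
      have h2 : X₀ z ∈ Q := by
        rw [hQ]
        intro f hf
        rw [hκ f hf z]
        have := h0 f hf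
        rw [show Y₀ (S.rep f (X₀ 1)) = 0 from this, mul_zero]
      rw [h1, Submodule.mem_bot] at h2
      exact h2
    · obtain ⟨v, hv⟩ := hY0
      apply hv
      have h2 : v ∈ Q := by
        rw [h1]
        exact Submodule.mem_top
      have h3 := (hQ v).1 h2 1 G₀.one_mem
      rw [map_one] at h3
      exact h3
  refine steer D S G₀ (T := ℂ) (fun n => γ (φ n)) (fun n => hγ _) (max C₁ C₂) ?_ ?_ X
    (fun n => ContinuousLinearMap.mul ℝ ℂ (a n)) (fun n => ContinuousLinearMap.mul ℝ ℂ (a n)⁻¹)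
    Y R X₀ Y₀ ?_ ?_ ?_ hR hX hY ?_
  · intro n
    exact (hC₁ ⟨φ n, rfl⟩).trans (le_max_left _ _)
  · intro n
    exact (hC₂ ⟨φ n, rfl⟩).trans (le_max_right _ _)
  · intro n u
    rw [ContinuousLinearMap.mul_apply']
    exact hdec n u
  · intro n t
    rw [ContinuousLinearMap.mul_apply', ContinuousLinearMap.mul_apply', ← mul_assoc,
      inv_mul_cancel₀ (ha n), one_mul]
  · exact squeeze_zero (fun n => norm_nonneg _)
      (fun n => ContinuousLinearMap.opNorm_mul_apply_le ℝ ℂ _) ha0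
  · intro g hg ε hε
    obtain ⟨f, hf, h1, h2⟩ := hloc.dens F hF hex g hg ε hε
    refine ⟨f, hf, h1, ?_⟩
    intro t ht
    rw [hκ f hf t] at ht
    rcases mul_eq_zero.1 ht with h3 | h3
    · exact h3
    · exact absurd h3 ((hF0 f).1 h2)

end

end Pool.AF
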