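import Pool.Agent.Helper94.AB.Main

/-!
# Project AC: convex affine manifolds with lineality space of dimension at most four

Definitions common to the modules.
-/

open Set Filter Topology Matrix

set_option linter.unusedSectionVars false

namespace Pool.AF

open Pool.SV

/-! ### Polynomial functions -/

section Poly

variable {G ι : Type*} [Fintype ι] [DecidableEq ι]

/-- A polynomial function of the entries of `M g`. -/
def IsPoly (M : G → Matrix ι ι ℝ) (F : G → ℝ) : Prop :=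
  ∃ p : MvPolynomial (ι × ι) ℝ, ∀ g, F g = MvPolynomial.eval (fun ij : ι × ι => M g ij.1 ij.2) p

variable {M : G → Matrix ι ι ℝ}

theorem IsPoly.const (c : ℝ) : IsPoly M (fun _ => c) := ⟨MvPolynomial.C c, fun g => by simp⟩

theorem IsPoly.entry (i j : ι) : IsPoly M (fun g => M g i j) :=
  ⟨MvPolynomial.X (i, j), fun g => by simp⟩

theorem IsPoly.add {F H : G → ℝ} (hF : IsPoly M F) (hH : IsPoly M H) :
    IsPoly M (fun g => F g + H g) := by
  obtain ⟨p, hp⟩ := hF
  obtain ⟨q, hq⟩ := hH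
  exact ⟨p + q, fun g => by rw [map_add, ← hp, ← hq]⟩

theorem IsPoly.mul {F H : G → ℝ} (hF : IsPoly M F) (hH : IsPoly M H) :
    IsPoly M (fun g => F g * H g) := by
  obtain ⟨p, hp⟩ := hF
  obtain ⟨q, hq⟩ := hH
  exact ⟨p * q, fun g => by rw [map_mul, ← hp, ← hq]⟩

theorem IsPoly.neg {F : G → ℝ} (hF : IsPoly M F) : IsPoly M (fun g => - F g) := by
  obtain ⟨p, hp⟩ := hF
  exact ⟨-p, fun g => by rw [map_neg, ← hp]⟩

theorem IsPoly.sub {F H : G → ℝ} (hF : IsPoly M F) (hH : IsPoly M H) :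
    IsPoly M (fun g => F g - H g) := by
  simp only [sub_eq_add_neg]
  exact hF.add hH.neg

theorem IsPoly.sum {κ : Type*} (s : Finset κ) {F : κ → G → ℝ} (hF : ∀ k ∈ s, IsPoly M (F k)) :
    IsPoly M (fun g => ∑ k ∈ s, F k g) := by
  classical
  induction s using Finset.induction_on with
  | empty => simpa using IsPoly.const 0
  | insert a s ha ih =>
    simp only [Finset.sum_insert ha]
    exact (hF a (Finset.mem_insert_self a s)).add
      (ih (fun k hk => hF k (Finset.mem_insert_of_mem hk)))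

theorem IsPoly.prod {κ : Type*} (s : Finset κ) {F : κ → G → ℝ} (hF : ∀ k ∈ s, IsPoly M (F k)) :
    IsPoly M (fun g => ∏ k ∈ s, F k g) := by
  classical
  induction s using Finset.induction_on with
  | empty => simpa using IsPoly.const 1
  | insert a s ha ih =>
    simp only [Finset.prod_insert ha]
    exact (hF a (Finset.mem_insert_self a s)).mul
      (ih (fun k hk => hF k (Finset.mem_insert_of_mem hk)))

/-- The entries are polynomial functions. -/
def IsPolyM {κ μ : Type*} (M : G → Matrix ι ι ℝ) (A : G → Matrix κ μ ℝ) : Prop :=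
  ∀ i j, IsPoly M (fun g => A g i j)

theorem IsPolyM.self : IsPolyM M M := fun i j => IsPoly.entry i j

theorem IsPolyM.const {κ μ : Type*} (A : Matrix κ μ ℝ) : IsPolyM M (fun _ => A) :=
  fun i j => IsPoly.const (A i j)

theorem IsPolyM.mul {κ μ ν : Type*} [Fintype μ] {A : G → Matrix κ μ ℝ} {B : G → Matrix μ ν ℝ}
    (hA : IsPolyM M A) (hB : IsPolyM M B) : IsPolyM M (fun g => A g * B g) := by
  intro i j
  simp only [Matrix.mul_apply]
  exact IsPoly.sum _ (fun k _ => (hA i k).mul (hB k j))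

theorem IsPolyM.det {κ : Type*} [Fintype κ] [DecidableEq κ] {A : G → Matrix κ κ ℝ}
    (hA : IsPolyM M A) : IsPoly M (fun g => (A g).det) := by
  simp only [Matrix.det_apply']
  exact IsPoly.sum _ (fun σ _ => (IsPoly.const _).mul (IsPoly.prod _ (fun k _ => hA _ _)))

theorem IsPolyM.submatrix {κ μ κ' μ' : Type*} {A : G → Matrix κ μ ℝ} (hA : IsPolyM M A)
    (r : κ' → κ) (s : μ' → μ) : IsPolyM M (fun g => (A g).submatrix r s) :=
  fun i j => hA (r i) (s j)

theorem IsPolyM.adjugate {κ : Type*} [Fintype κ] [DecidableEq κ] {A : G → Matrix κ κ ℝ}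
    (hA : IsPolyM M A) : IsPolyM M (fun g => (A g).adjugate) := by
  intro i j
  simp only [Matrix.adjugate_apply]
  refine IsPolyM.det (fun a b => ?_)
  by_cases h : a = j
  · subst h
    simp only [Matrix.updateRow_self]
    exact IsPoly.const _
  · simp only [Matrix.updateRow_ne h]
    exact hA a b

theorem IsPoly.lin (ℓ : Matrix ι ι ℝ →ₗ[ℝ] ℝ) : IsPoly M (fun g => ℓ (M g)) := by
  have h1 : ∀ A : Matrix ι ι ℝ, ℓ A = ∑ i, ∑ j, A i j * ℓ (Matrix.single i j 1) := by
    intro A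
    conv_lhs => rw [Matrix.matrix_eq_sum_single A]
    rw [map_sum]
    refine Finset.sum_congr rfl (fun i _ => ?_)
    rw [map_sum]
    refine Finset.sum_congr rfl (fun j _ => ?_)
    rw [← smul_eq_mul, ← map_smul, Matrix.smul_single, smul_eq_mul, mul_one]
  have h2 : (fun g => ℓ (M g)) = fun g => ∑ i, ∑ j, M g i j * ℓ (Matrix.single i j 1) :=
    funext (fun g => h1 (M g))
  rw [h2]
  exact IsPoly.sum _ (fun i _ => IsPoly.sum _ (fun j _ => (IsPoly.entry i j).mul (IsPoly.const _)))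

/-- A change of the matrices. -/
theorem IsPoly.change {M' : G → Matrix ι ι ℝ} (hM : IsPolyM M M') {F : G → ℝ}
    (hF : IsPoly M' F) : IsPoly M F := by
  obtain ⟨p, hp⟩ := hF
  choose q hq using fun ij : ι × ι => hM ij.1 ij.2
  refine ⟨MvPolynomial.bind₁ q p, fun g => ?_⟩
  rw [hp, MvPolynomial.eval, MvPolynomial.eval, MvPolynomial.eval₂Hom_bind₁]
  congr 2
  funext ij
  exact hq ij g

theorem IsPoly.comp_mul [Group G] {M : G →* Matrix ι ι ℝ} {F : G → ℝ}
    (hF : IsPoly (fun g => M g) F) (a b : G) : IsPoly (fun g => M g) (fun g => F (a * g * b)) := by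
  obtain ⟨p, hp⟩ := hF
  have h1 : IsPolyM (fun g => M g) (fun g => M (a * g * b)) := by
    have : (fun g => M (a * g * b)) = fun g => M a * M g * M b := by
      funext g
      rw [map_mul, map_mul]
    rw [this]
    exact ((IsPolyM.const _).mul IsPolyM.self).mul (IsPolyM.const _)
  exact IsPoly.change h1 ⟨p, fun g => hp _⟩

end Poly

/-! ### Locally dense subgroups -/

/-- `G₀` is a subgroup whose elements near any of its points (in the topology given by `τ`) are
Zariski dense in `G₀`, and `G₀` is irreducible in the Zariski topology given by `M`. -/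
structure Loc {G R ι : Type*} [Group G] [NormedRing R] [Fintype ι] [DecidableEq ι] (τ : G →* R)
    (M : G →* Matrix ι ι ℝ) (G₀ : Subgroup G) : Prop where
  dens : ∀ F : G → ℝ, IsPoly (fun g => M g) F → (∃ f ∈ G₀, F f ≠ 0) → ∀ g ∈ G₀, ∀ ε : ℝ, 0 < ε →
    ∃ f ∈ G₀, ‖τ f - τ g‖ < ε ∧ F f ≠ 0
  prod : ∀ F H : G → ℝ, IsPoly (fun g => M g) F → IsPoly (fun g => M g) H →
    (∃ f ∈ G₀, F f ≠ 0) → (∃ f ∈ G₀, H f ≠ 0) → ∃ f ∈ G₀, F f ≠ 0 ∧ H f ≠ 0
  fin : ∀ H : Subgroup G, H ≤ G₀ → H.relIndex G₀ ≠ 0 → ∀ F : G → ℝ, IsPoly (fun g => M g) F →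
    (∀ f ∈ H, F f = 0) → ∀ f ∈ G₀, F f = 0

/-- The leading minor of size `k`. -/
def lead {d k : ℕ} (hk : k ≤ d) (A : Matrix (Fin d) (Fin d) ℝ) : ℝ :=
  (A.submatrix (Fin.castLE hk) (Fin.castLE hk)).det

/-- A sequence of matrices written as `P n * diagonal (t n) * Q n` with `P n`, `Q n` converging to
invertible matrices. -/
structure Cartan {d : ℕ} (A P Q : ℕ → Matrix (Fin d) (Fin d) ℝ) (t : ℕ → Fin d → ℝ)
    (P₀ Q₀ : Matrix (Fin d) (Fin d) ℝ) : Prop where
  dec : ∀ n, A n = P n * Matrix.diagonal (t n) * Q n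
  pos : ∀ n i, 0 < t n i
  anti : ∀ n, Antitone (t n)
  limP : Tendsto P atTop (𝓝 P₀)
  limQ : Tendsto Q atTop (𝓝 Q₀)
  detP : P₀.det ≠ 0
  detQ : Q₀.det ≠ 0

/-- The alternating matrix of the plane spanned by `x` and `y`. -/
def wedge (x y : Fin 4 → ℝ) : Matrix (Fin 4) (Fin 4) ℝ :=
  Matrix.vecMulVec x y - Matrix.vecMulVec y x

/-- The polarisation of (twice) the Pfaffian: `pf (wedge x y) (wedge z w) = det (x, y, z, w)`. -/
def pf (A B : Matrix (Fin 4) (Fin 4) ℝ) : ℝ :=
  A 0 1 * B 2 3 + A 2 3 * B 0 1 - A 0 2 * B 1 3 - A 1 3 * B 0 2 + A 0 3 * B 1 2 + A 1 2 * B 0 3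

section Geo

variable {E : Type*} [NormedAddCommGroup E] [NormedSpace ℝ E] [FiniteDimensional ℝ E]
  {D : Geo E}

/-- The matrix of the linear action on `U` in a basis. -/
noncomputable def InvSub.mat (S : InvSub D) {d : ℕ} (b : Module.Basis (Fin d) ℝ S.U) :
    D.Γ →* Matrix (Fin d) (Fin d) ℝ where
  toFun g := LinearMap.toMatrix b b (S.lrep g)
  map_one' := by
    rw [map_one]
    exact LinearMap.toMatrix_one b
  map_mul' g h := by
    rw [map_mul]
    exact LinearMap.toMatrix_mul b _ _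

theorem InvSub.mat_apply (S : InvSub D) {d : ℕ} (b : Module.Basis (Fin d) ℝ S.U) (g : D.Γ) :
    S.mat b g = LinearMap.toMatrix b b (S.lrep g) := rfl

end Geo

end Pool.AF
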