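import Pool.Agent.Helper94.AC.Defs
import Pool.Agent.Helper94.AB.Steer

/-!
# AC-6 STEERM: the matrix form of `steer`

Proof. Apply `steer` (`Pool/Agent/Helper94/AB/Steer.lean`) with `T = Fin k → ℝ` (or
`EuclideanSpace ℝ (Fin k)`; nontrivial as `0 < k`). Let `Ψ : S.U → (Fin d → ℝ)` be the coordinates in
the basis `b`. Let `inc : (Fin k → ℝ) → (Fin d → ℝ)` be the extension by zero and
`res : (Fin d → ℝ) → (Fin k → ℝ)` the restriction to the first `k` coordinates. Put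
`Xn n = Ψ⁻¹ ∘ (P n) ∘ inc`, `Yn n = res ∘ (Q n) ∘ Ψ`, `An n = diagonal (t n i)_{i < k}`,
`An' n` its inverse (norm `→ 0`), `Rn n = Ψ⁻¹ ∘ P n ∘ diagonal (0 for i < k, t n i for k ≤ i) ∘ Q n ∘ Ψ`
(norm `→ 0`). The map `Y ∘ rep f ∘ X : (Fin k → ℝ) → (Fin k → ℝ)` has the matrix
`(Q₀ * S.mat b f * P₀).submatrix (Fin.castLE hk) (Fin.castLE hk)`, so it is injective if its
determinant `lead hk (Q₀ * S.mat b f * P₀)` is not zero.
-/

open Set Filter Topology Matrix

set_option linter.unusedSectionVars false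

namespace Pool.AF

open Pool.SV

section

variable {m n : Type*} [Fintype m] [Fintype n] [DecidableEq n]

/-- The continuous linear map of a matrix. -/
private noncomputable def smvc : Matrix m n ℝ →ₗ[ℝ] ((n → ℝ) →L[ℝ] (m → ℝ)) :=
  (LinearMap.toContinuousLinearMap : ((n → ℝ) →ₗ[ℝ] (m → ℝ)) ≃ₗ[ℝ] _).toLinearMap ∘ₗ
    (Matrix.toLin' : Matrix m n ℝ ≃ₗ[ℝ] _).toLinearMap

private theorem smvc_apply (A : Matrix m n ℝ) (v : n → ℝ) : smvc A v = A *ᵥ v := rfl

private theorem smvc_tendsto {A : ℕ → Matrix m n ℝ} {A0 : Matrix m n ℝ}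
    (h : Tendsto A atTop (𝓝 A0)) : Tendsto (fun k => smvc (A k)) atTop (𝓝 (smvc A0)) := by
  have h1 : Continuous (smvc : Matrix m n ℝ →ₗ[ℝ] ((n → ℝ) →L[ℝ] (m → ℝ))) :=
    LinearMap.continuous_of_finiteDimensional _
  exact (h1.tendsto A0).comp h

private theorem steerm_tendsto_comp {A B C : Type*} [NormedAddCommGroup A] [NormedSpace ℝ A]
    [NormedAddCommGroup B] [NormedSpace ℝ B] [NormedAddCommGroup C] [NormedSpace ℝ C]
    {f : ℕ → B →L[ℝ] C} {g : ℕ → A →L[ℝ] B} {f0 : B →L[ℝ] C} {g0 : A →L[ℝ] B}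
    (hf : Tendsto f atTop (𝓝 f0)) (hg : Tendsto g atTop (𝓝 g0)) :
    Tendsto (fun n => (f n).comp (g n)) atTop (𝓝 (f0.comp g0)) :=
  ((continuous_fst.clm_comp continuous_snd).tendsto (f0, g0)).comp (hf.prodMk_nhds hg)

end

private theorem steerm_split {k m : ℕ} (P Q : Matrix (Fin (k + m)) (Fin (k + m)) ℝ)
    (t : Fin (k + m) → ℝ) :
    P * Matrix.diagonal t * Q =
      P.submatrix id (Fin.castAdd m) * Matrix.diagonal (fun i => t (Fin.castAdd m i)) *
        Q.submatrix (Fin.castAdd m) id +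
      P * Matrix.diagonal (fun i : Fin (k + m) => if (i : ℕ) < k then 0 else t i) * Q := by
  ext a c
  rw [Matrix.add_apply, Matrix.mul_apply, Matrix.mul_apply, Matrix.mul_apply]
  simp only [Matrix.mul_diagonal, Matrix.submatrix_apply, id]
  rw [Fin.sum_univ_add, Fin.sum_univ_add (f := fun i => P a i *
    (if (i : ℕ) < k then 0 else t i) * Q i c)]
  simp

theorem steer_mat {E : Type*} [NormedAddCommGroup E] [NormedSpace ℝ E] [FiniteDimensional ℝ E]
    (D : Geo E) (S : InvSub D) (G₀ : Subgroup D.Γ) {d k : ℕ} (hk : k ≤ d) (hk0 : 0 < k)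
    (b : Module.Basis (Fin d) ℝ S.U) (γ : ℕ → D.Γ) (hγ : ∀ n, γ n ∈ G₀) (C : ℝ)
    (hb : ∀ n, ‖S.base (γ n)‖ ≤ C) (hb' : ∀ n, ‖S.base (γ n)⁻¹‖ ≤ C)
    (P Q : ℕ → Matrix (Fin d) (Fin d) ℝ) (t : ℕ → Fin d → ℝ) (P₀ Q₀ : Matrix (Fin d) (Fin d) ℝ)
    (hC : Cartan (fun n => S.mat b (γ n)) P Q t P₀ Q₀)
    (hinf : ∀ i : Fin d, (i : ℕ) < k → Tendsto (fun n => t n i) atTop atTop)
    (h0 : ∀ i : Fin d, k ≤ (i : ℕ) → Tendsto (fun n => t n i) atTop (𝓝 0))
    (hdense : ∀ g ∈ G₀, ∀ ε : ℝ, 0 < ε → ∃ f ∈ G₀, ‖S.base f - S.base g‖ < ε ∧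
      lead hk (Q₀ * S.mat b f * P₀) ≠ 0) : False := by
  classical
  obtain ⟨m, rfl⟩ := Nat.exists_eq_add_of_le hk
  have hcast : ∀ i : Fin k, Fin.castLE hk i = Fin.castAdd m i := fun i => rfl
  have : Nonempty (Fin k) := ⟨⟨0, hk0⟩⟩
  have : Nontrivial (Fin k → ℝ) := inferInstance
  set ψ : S.U ≃L[ℝ] (Fin (k + m) → ℝ) := b.equivFunL with hψ
  set c : Fin k → Fin (k + m) := Fin.castAdd m with hc
  have hmat : ∀ (g : D.Γ) (u : S.U), ψ (S.rep g u) = S.mat b g *ᵥ ψ u := by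
    intro g u
    have h1 := LinearMap.toMatrix_mulVec_repr b b (S.lrep g) u
    exact h1.symm
  set Xn : ℕ → (Fin k → ℝ) →L[ℝ] S.U := fun n =>
    (ψ.symm : (Fin (k + m) → ℝ) →L[ℝ] S.U).comp (smvc ((P n).submatrix id c)) with hXn
  set Yn : ℕ → S.U →L[ℝ] (Fin k → ℝ) := fun n =>
    (smvc ((Q n).submatrix c id)).comp (ψ : S.U →L[ℝ] (Fin (k + m) → ℝ)) with hYn
  set An : ℕ → (Fin k → ℝ) →L[ℝ] (Fin k → ℝ) := fun n =>
    smvc (Matrix.diagonal (fun i => t n (c i))) with hAn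
  set An' : ℕ → (Fin k → ℝ) →L[ℝ] (Fin k → ℝ) := fun n =>
    smvc (Matrix.diagonal (fun i => (t n (c i))⁻¹)) with hAn'
  set R2 : ℕ → Matrix (Fin (k + m)) (Fin (k + m)) ℝ := fun n =>
    P n * Matrix.diagonal (fun i : Fin (k + m) => if (i : ℕ) < k then 0 else t n i) * Q n with hR2
  set Rn : ℕ → S.U →L[ℝ] S.U := fun n =>
    ((ψ.symm : (Fin (k + m) → ℝ) →L[ℝ] S.U).comp (smvc (R2 n))).comp
      (ψ : S.U →L[ℝ] (Fin (k + m) → ℝ)) with hRn
  set X : (Fin k → ℝ) →L[ℝ] S.U :=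
    (ψ.symm : (Fin (k + m) → ℝ) →L[ℝ] S.U).comp (smvc (P₀.submatrix id c)) with hX
  set Y : S.U →L[ℝ] (Fin k → ℝ) :=
    (smvc (Q₀.submatrix c id)).comp (ψ : S.U →L[ℝ] (Fin (k + m) → ℝ)) with hY
  have hsubP : Tendsto (fun n => (P n).submatrix id c) atTop (𝓝 (P₀.submatrix id c)) := by
    have h1 : Continuous (fun A : Matrix (Fin (k + m)) (Fin (k + m)) ℝ =>
        A.submatrix (id : Fin (k + m) → Fin (k + m)) c) := continuous_id.matrix_submatrix _ _
    exact (h1.tendsto P₀).comp hC.limP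
  have hsubQ : Tendsto (fun n => (Q n).submatrix c id) atTop (𝓝 (Q₀.submatrix c id)) := by
    have h1 : Continuous (fun A : Matrix (Fin (k + m)) (Fin (k + m)) ℝ =>
        A.submatrix c (id : Fin (k + m) → Fin (k + m))) := continuous_id.matrix_submatrix _ _
    exact (h1.tendsto Q₀).comp hC.limQ
  refine steer D S G₀ (T := Fin k → ℝ) γ hγ C hb hb' Xn An An' Yn Rn X Y ?_ ?_ ?_ ?_ ?_ ?_ ?_
  · intro n u
    apply ψ.injective
    rw [hmat, map_add]
    have e1 : ψ (Xn n (An n (Yn n u))) = ((P n).submatrix id c *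
        Matrix.diagonal (fun i => t n (c i)) * (Q n).submatrix c id) *ᵥ ψ u := by
      rw [← Matrix.mulVec_mulVec, ← Matrix.mulVec_mulVec]
      change ψ (ψ.symm _) = _
      rw [ψ.apply_symm_apply]
      rfl
    have e2 : ψ (Rn n u) = R2 n *ᵥ ψ u := by
      change ψ (ψ.symm _) = _
      rw [ψ.apply_symm_apply]
      rfl
    have e3 : S.mat b (γ n) = P n * Matrix.diagonal (t n) * Q n := hC.dec n
    rw [e1, e2, e3, steerm_split (P n) (Q n) (t n), Matrix.add_mulVec]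
  · intro n x
    change Matrix.diagonal (fun i => (t n (c i))⁻¹) *ᵥ
      (Matrix.diagonal (fun i => t n (c i)) *ᵥ x) = x
    rw [Matrix.mulVec_mulVec, Matrix.diagonal_mul_diagonal]
    have h1 : (fun i => (t n (c i))⁻¹ * t n (c i)) = fun _ : Fin k => (1 : ℝ) := by
      funext i
      exact inv_mul_cancel₀ (hC.pos n (c i)).ne'
    rw [h1, Matrix.diagonal_one, Matrix.one_mulVec]
  · have h1 : Tendsto (fun n => Matrix.diagonal (fun i : Fin k => (t n (c i))⁻¹)) atTop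
        (𝓝 (Matrix.diagonal (fun _ : Fin k => (0 : ℝ)))) := by
      have h2 : Tendsto (fun n => fun i : Fin k => (t n (c i))⁻¹) atTop
          (𝓝 (fun _ : Fin k => (0 : ℝ))) := by
        rw [tendsto_pi_nhds]
        intro i
        exact tendsto_inv_atTop_zero.comp (hinf (c i) (by simp [hc]))
      have h3 : Continuous (fun v : Fin k → ℝ => Matrix.diagonal v) :=
        continuous_id.matrix_diagonal
      exact (h3.tendsto _).comp h2
    have h4 := (smvc_tendsto h1).norm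
    have h5 : (smvc (Matrix.diagonal (fun _ : Fin k => (0 : ℝ))) :
        (Fin k → ℝ) →L[ℝ] (Fin k → ℝ)) = 0 := by
      rw [show (Matrix.diagonal (fun _ : Fin k => (0 : ℝ))) = 0 from Matrix.diagonal_zero, map_zero]
    rw [h5, norm_zero] at h4
    exact h4
  · have h1 : Tendsto R2 atTop (𝓝 (P₀ * Matrix.diagonal (fun _ : Fin (k + m) => (0 : ℝ)) * Q₀)) := by
      have h2 : Tendsto (fun n => fun i : Fin (k + m) => if (i : ℕ) < k then (0 : ℝ) else t n i)
          atTop (𝓝 (fun _ : Fin (k + m) => (0 : ℝ))) := by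
        rw [tendsto_pi_nhds]
        intro i
        by_cases hi : (i : ℕ) < k
        · simp only [hi, if_true]
          exact tendsto_const_nhds
        · simp only [hi, if_false]
          exact h0 i (not_lt.1 hi)
      have h3 : Continuous (fun v : Fin (k + m) → ℝ => Matrix.diagonal v) :=
        continuous_id.matrix_diagonal
      exact (hC.limP.mul ((h3.tendsto _).comp h2)).mul hC.limQ
    have h5 : P₀ * Matrix.diagonal (fun _ : Fin (k + m) => (0 : ℝ)) * Q₀ = 0 := by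
      rw [show (Matrix.diagonal (fun _ : Fin (k + m) => (0 : ℝ))) = 0 from Matrix.diagonal_zero,
        mul_zero, zero_mul]
    rw [h5] at h1
    have h6 := smvc_tendsto h1
    rw [map_zero] at h6
    have h7 : Tendsto Rn atTop (𝓝 0) := by
      have h8 := steerm_tendsto_comp (steerm_tendsto_comp
        (tendsto_const_nhds (x := (ψ.symm : (Fin (k + m) → ℝ) →L[ℝ] S.U)) (f := atTop (α := ℕ)))
        h6) (tendsto_const_nhds (x := (ψ : S.U →L[ℝ] (Fin (k + m) → ℝ))))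
      rw [ContinuousLinearMap.comp_zero, ContinuousLinearMap.zero_comp] at h8
      exact h8
    exact (tendsto_zero_iff_norm_tendsto_zero (f := Rn) (a := atTop)).1 h7
  · exact steerm_tendsto_comp tendsto_const_nhds (smvc_tendsto hsubP)
  · exact steerm_tendsto_comp (smvc_tendsto hsubQ) tendsto_const_nhds
  · intro g hg ε hε
    obtain ⟨f, hf, h1, h2⟩ := hdense g hg ε hε
    refine ⟨f, hf, h1, fun x hx => ?_⟩
    have h3 : Y (S.rep f (X x)) = ((Q₀ * S.mat b f * P₀).submatrix c c) *ᵥ x := by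
      change Q₀.submatrix c id *ᵥ ψ (S.rep f (X x)) = _
      rw [hmat]
      change Q₀.submatrix c id *ᵥ (S.mat b f *ᵥ ψ (ψ.symm (P₀.submatrix id c *ᵥ x))) = _
      rw [ψ.apply_symm_apply, Matrix.mulVec_mulVec, Matrix.mulVec_mulVec]
      congr 1
    rw [h3] at hx
    exact Matrix.eq_zero_of_mulVec_eq_zero h2 hx

end Pool.AF
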