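import Pool.Agent.Helper94.AC.Iso

/-!
# AC-10 TRANST: transversality for sequences with a gap in the middle (uses AC-8)

Proof. `G` acts on the six-dimensional space `Λ` of alternating matrices (`Aᵀ = - A`) by
`g • A = M g * A * (M g)ᵀ`, preserving `pf` for `g ∈ G₀` (`pf_conj`), which is nondegenerate on `Λ`.
Let `α A = (Q₀ * A * Q₀ᵀ) 0 1` and `ω = wedge (P₀ *ᵥ e₀) (P₀ *ᵥ e₁)` (`e i = Pi.single i 1`),
`ω ≠ 0`. One has `lead 2 (Q₀ * M f * P₀) = α (f • ω)`. Suppose that it is zero for all `f ∈ G₀`. Let `R`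
be the span of the `f • ω`, `f ∈ G₀`: it is invariant and `α = 0` on `R`. Let
`R' = {A ∈ Λ | ∀ B ∈ R, pf A B = 0}`, also invariant.

`R ⊓ R' = ⊥`: otherwise apply `iso_core` to `R ⊓ R'`. In the first case the span `I` of the vectors
`A *ᵥ v`, `A ∈ R ⊓ R'`, is invariant, not `⊤` and not `⊥`. In the second case the set `I` of the vectors
that are in the ranges of all nonzero `A ∈ R ⊓ R'` is an invariant subspace, not `⊥`, and not `⊤`
since it is contained in the range of a nonzero `A` with `pf A A = 0`, `A = wedge x y` (`decomp`),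
contained in `span {x, y}`. Both contradict `hirr`. (Invariance as in AC-9.)

So `Λ = R ⊕ R'` (dimensions: `pf` is nondegenerate on `Λ`).

For `A ∈ Λ`, `(t n 0 * t n 1)⁻¹ • (γ n • A) → α A • ω`: `γ n • A = P n * (D * A' * D) * (P n)ᵀ` with
`D = diagonal (t n)`, `A' = Q n * A * (Q n)ᵀ → Q₀ * A * Q₀ᵀ`, alternating; the entries of `D * A' * D`
are `t n i * t n j * A' i j`, and for `i ≠ j`, `{i, j} ≠ {0, 1}`, `t n i * t n j / (t n 0 * t n 1)
≤ t n 2 / t n 1 → 0` (`t n` is antitone).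

As `R'` is closed and invariant, `α A • ω ∈ R'` for `A ∈ R'`; it is also in `R`, so it is zero, and
`α = 0` on `R'`. So `α = 0` on `Λ`. But `α (Q₀⁻¹ * wedge e₀ e₁ * (Q₀⁻¹)ᵀ) = 1`.
-/

open Set Filter Topology Matrix

set_option linter.unusedSectionVars false

namespace Pool.AF

private theorem pf_add_left (A B C : Matrix (Fin 4) (Fin 4) ℝ) : pf (A + B) C = pf A C + pf B C := by
  simp only [pf, Matrix.add_apply]; ring

private theorem pf_smul_left (c : ℝ) (A C : Matrix (Fin 4) (Fin 4) ℝ) : pf (c • A) C = c * pf A C := by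
  simp only [pf, Matrix.smul_apply, smul_eq_mul]; ring

private theorem pf_add_right (A B C : Matrix (Fin 4) (Fin 4) ℝ) : pf C (A + B) = pf C A + pf C B := by
  simp only [pf, Matrix.add_apply]; ring

private theorem pf_smul_right (c : ℝ) (A C : Matrix (Fin 4) (Fin 4) ℝ) : pf C (c • A) = c * pf C A := by
  simp only [pf, Matrix.smul_apply, smul_eq_mul]; ring

private theorem pf_symm (A B : Matrix (Fin 4) (Fin 4) ℝ) : pf A B = pf B A := by
  simp only [pf]; ring

private noncomputable def pfB : LinearMap.BilinForm ℝ (Matrix (Fin 4) (Fin 4) ℝ) :=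
  LinearMap.mk₂ ℝ pf pf_add_left (fun c A B => by rw [pf_smul_left]; rfl)
    (fun A B C => pf_add_right B C A) (fun c A B => by rw [pf_smul_right]; rfl)

private theorem pfB_apply (A B : Matrix (Fin 4) (Fin 4) ℝ) : pfB A B = pf A B := rfl

private theorem splitR (R : Submodule ℝ (Matrix (Fin 4) (Fin 4) ℝ))
    (h : ∀ A ∈ R, (∀ B ∈ R, pf A B = 0) → A = 0) (A : Matrix (Fin 4) (Fin 4) ℝ) :
    ∃ B ∈ R, ∀ C ∈ R, pf (A - B) C = 0 := by
  have hrefl : pfB.IsRefl := by
    intro A B hAB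
    rw [pfB_apply] at hAB ⊢
    rw [pf_symm]; exact hAB
  have hnd : (pfB.restrict R).Nondegenerate := by
    have hl : (pfB.restrict R).SeparatingLeft := by
      intro x hx
      have : (x : Matrix (Fin 4) (Fin 4) ℝ) = 0 := by
        apply h x x.2
        intro B hB
        exact hx ⟨B, hB⟩
      exact Subtype.ext this
    have hr : (pfB.restrict R).SeparatingRight := by
      intro x hx
      have : (x : Matrix (Fin 4) (Fin 4) ℝ) = 0 := by
        apply h x x.2
        intro B hB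
        rw [pf_symm]
        exact hx ⟨B, hB⟩
      exact Subtype.ext this
    exact ⟨hl, hr⟩
  have hc := LinearMap.BilinForm.isCompl_orthogonal_of_restrict_nondegenerate hrefl hnd
  have htop : A ∈ R ⊔ pfB.orthogonal R := by
    rw [hc.sup_eq_top]; exact Submodule.mem_top
  obtain ⟨B, hB, C, hC, hBC⟩ := Submodule.mem_sup.1 htop
  refine ⟨B, hB, fun D hD => ?_⟩
  have h1 : A - B = C := by rw [← hBC]; abel
  rw [h1, pf_symm]
  exact hC D hD

theorem trans_two {G : Type*} [Group G] (M : G →* Matrix (Fin 4) (Fin 4) ℝ) (G₀ : Subgroup G)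
    (hdet : ∀ g ∈ G₀, (M g).det = 1)
    (hirr : ∀ I : Submodule ℝ (Fin 4 → ℝ), (∀ g ∈ G₀, ∀ v ∈ I, M g *ᵥ v ∈ I) → I = ⊥ ∨ I = ⊤)
    (γ : ℕ → G) (hγ : ∀ n, γ n ∈ G₀) (P Q : ℕ → Matrix (Fin 4) (Fin 4) ℝ) (t : ℕ → Fin 4 → ℝ)
    (P₀ Q₀ : Matrix (Fin 4) (Fin 4) ℝ) (hC : Cartan (fun n => M (γ n)) P Q t P₀ Q₀)
    (h1 : Tendsto (fun n => t n 1) atTop atTop) (h2 : Tendsto (fun n => t n 2) atTop (𝓝 0)) :
    ∃ f ∈ G₀, lead (by norm_num : 2 ≤ 4) (Q₀ * M f * P₀) ≠ 0 := by
  by_contra hcon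
  push Not at hcon
  set E : Matrix (Fin 4) (Fin 4) ℝ := wedge (Pi.single 0 1) (Pi.single 1 1) with hE
  have hE01 : E 0 1 = 1 := by simp [hE, wedge, Matrix.vecMulVec_apply]
  have hET : Eᵀ = -E := by
    ext i j
    simp only [hE, wedge, Matrix.transpose_apply, Matrix.neg_apply, Matrix.sub_apply,
      Matrix.vecMulVec_apply]
    ring
  set ω : Matrix (Fin 4) (Fin 4) ℝ := P₀ * E * P₀ᵀ with hω
  have halt : ∀ N A : Matrix (Fin 4) (Fin 4) ℝ, Aᵀ = -A → (N * A * Nᵀ)ᵀ = -(N * A * Nᵀ) := by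
    intro N A hA
    rw [Matrix.transpose_mul, Matrix.transpose_mul, Matrix.transpose_transpose, hA]
    simp [Matrix.mul_assoc]
  have hωT : ωᵀ = -ω := halt _ _ hET
  have hlead : ∀ f : G, lead (by norm_num : 2 ≤ 4) (Q₀ * M f * P₀)
      = (Q₀ * (M f * ω * (M f)ᵀ) * Q₀ᵀ) 0 1 := by
    intro f
    have : Q₀ * (M f * ω * (M f)ᵀ) * Q₀ᵀ = (Q₀ * M f * P₀) * E * (Q₀ * M f * P₀)ᵀ := by
      rw [hω, Matrix.transpose_mul, Matrix.transpose_mul]
      simp only [Matrix.mul_assoc]
    rw [this, hE, wedge_conj]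
    simp only [lead, Matrix.det_fin_two, wedge, Matrix.sub_apply, Matrix.vecMulVec_apply,
      Matrix.submatrix_apply, Matrix.mulVec_single_one, Matrix.col_apply]
    have e0 : Fin.castLE (by norm_num : 2 ≤ 4) (0 : Fin 2) = (0 : Fin 4) := rfl
    have e1 : Fin.castLE (by norm_num : 2 ≤ 4) (1 : Fin 2) = (1 : Fin 4) := rfl
    rw [e0, e1]
  set R : Submodule ℝ (Matrix (Fin 4) (Fin 4) ℝ) :=
    Submodule.span ℝ {A | ∃ f ∈ G₀, A = M f * ω * (M f)ᵀ} with hR
  have hRT : ∀ A ∈ R, Aᵀ = -A := by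
    intro A hA
    induction hA using Submodule.span_induction with
    | mem x hx =>
      obtain ⟨f, hf, rfl⟩ := hx
      exact halt _ _ hωT
    | zero => simp
    | add x y _ _ hx hy => rw [Matrix.transpose_add, hx, hy]; abel
    | smul c x _ hx => rw [Matrix.transpose_smul, hx]; simp
  have hRinv : ∀ g ∈ G₀, ∀ A ∈ R, M g * A * (M g)ᵀ ∈ R := by
    intro g hg A hA
    induction hA using Submodule.span_induction with
    | mem x hx =>
      obtain ⟨f, hf, rfl⟩ := hx
      apply Submodule.subset_span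
      refine ⟨g * f, G₀.mul_mem hg hf, ?_⟩
      rw [map_mul, Matrix.transpose_mul]
      simp only [Matrix.mul_assoc]
    | zero => simp
    | add x y _ _ hx hy =>
      rw [Matrix.mul_add, Matrix.add_mul]; exact R.add_mem hx hy
    | smul c x _ hx =>
      rw [Matrix.mul_smul, Matrix.smul_mul]; exact R.smul_mem c hx
  have hRα : ∀ A ∈ R, (Q₀ * A * Q₀ᵀ) 0 1 = 0 := by
    intro A hA
    induction hA using Submodule.span_induction with
    | mem x hx =>
      obtain ⟨f, hf, rfl⟩ := hx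
      rw [← hlead f]; exact hcon f hf
    | zero => simp
    | add x y _ _ hx hy =>
      rw [Matrix.mul_add, Matrix.add_mul, Matrix.add_apply, hx, hy, add_zero]
    | smul c x _ hx =>
      rw [Matrix.mul_smul, Matrix.smul_mul, Matrix.smul_apply, hx, smul_zero]
  let R' : Submodule ℝ (Matrix (Fin 4) (Fin 4) ℝ) :=
    { carrier := {A | Aᵀ = -A ∧ ∀ B ∈ R, pf A B = 0}
      add_mem' := by
        rintro A B ⟨hA1, hA2⟩ ⟨hB1, hB2⟩
        refine ⟨by rw [Matrix.transpose_add, hA1, hB1]; abel, fun C hC => ?_⟩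
        rw [pf_add_left, hA2 C hC, hB2 C hC, add_zero]
      zero_mem' := ⟨by simp, fun B _ => by simp [pf]⟩
      smul_mem' := by
        rintro c A ⟨hA1, hA2⟩
        refine ⟨by rw [Matrix.transpose_smul, hA1]; simp, fun C hC => ?_⟩
        rw [pf_smul_left, hA2 C hC, mul_zero] }
  have hmemR' : ∀ A, A ∈ R' ↔ Aᵀ = -A ∧ ∀ B ∈ R, pf A B = 0 := fun A => Iff.rfl
  have hMinv : ∀ g : G, M g * M g⁻¹ = 1 := fun g => by rw [← map_mul, mul_inv_cancel, map_one]
  have hMinv' : ∀ g : G, M g⁻¹ * M g = 1 := fun g => by rw [← map_mul, inv_mul_cancel, map_one]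
  have hR'inv : ∀ g ∈ G₀, ∀ A ∈ R', M g * A * (M g)ᵀ ∈ R' := by
    intro g hg A hA
    rw [hmemR'] at hA ⊢
    refine ⟨halt _ _ hA.1, fun B hB => ?_⟩
    have hB' := hRinv g⁻¹ (G₀.inv_mem hg) B hB
    have hBe : B = M g * (M g⁻¹ * B * (M g⁻¹)ᵀ) * (M g)ᵀ := by
      have : M g * (M g⁻¹ * B * (M g⁻¹)ᵀ) * (M g)ᵀ = (M g * M g⁻¹) * B * (M g * M g⁻¹)ᵀ := by
        rw [Matrix.transpose_mul]; simp only [Matrix.mul_assoc]
      rw [this, hMinv]; simp
    rw [hBe, pf_conj _ _ _ hA.1 (hRT _ hB'), hA.2 _ hB', mul_zero]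
  -- the two spaces are independent
  have hdisj : R ⊓ R' = ⊥ := by
    by_contra hne
    have hKinv : ∀ g ∈ G₀, ∀ A ∈ R ⊓ R', M g * A * (M g)ᵀ ∈ R ⊓ R' := fun g hg A hA =>
      ⟨hRinv g hg A hA.1, hR'inv g hg A hA.2⟩
    obtain ⟨A₁, hA₁, hA₁0⟩ := (Submodule.ne_bot_iff _).1 hne
    rcases iso_core (R ⊓ R') (fun A hA => hRT A hA.1) hne
        (fun A hA B hB => hA.2.2 B hB.1) with ⟨I, hI, hIA⟩ | ⟨x, hx0, hx⟩
    · -- first case
      let J : Submodule ℝ (Fin 4 → ℝ) := Submodule.span ℝ {w | ∃ A ∈ R ⊓ R', ∃ v, w = A *ᵥ v}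
      have hJI : J ≤ I := by
        rw [Submodule.span_le]
        rintro w ⟨A, hA, v, rfl⟩
        exact hIA A hA v
      have hJinv : ∀ g ∈ G₀, ∀ v ∈ J, M g *ᵥ v ∈ J := by
        intro g hg v hv
        induction hv using Submodule.span_induction with
        | mem w hw =>
          obtain ⟨A, hA, v, rfl⟩ := hw
          apply Submodule.subset_span
          refine ⟨M g * A * (M g)ᵀ, hKinv g hg A hA, (M g⁻¹)ᵀ *ᵥ v, ?_⟩
          rw [Matrix.mulVec_mulVec, Matrix.mulVec_mulVec]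
          have : M g * A * (M g)ᵀ * (M g⁻¹)ᵀ = M g * A * (M g⁻¹ * M g)ᵀ := by
            rw [Matrix.transpose_mul]; simp only [Matrix.mul_assoc]
          rw [this, hMinv']; simp
        | zero => simp
        | add x y _ _ hx hy => rw [Matrix.mulVec_add]; exact J.add_mem hx hy
        | smul c x _ hx => rw [Matrix.mulVec_smul]; exact J.smul_mem c hx
      rcases hirr J hJinv with h | h
      · apply hA₁0
        ext i j
        have : A₁ *ᵥ (Pi.single j 1) ∈ J := Submodule.subset_span ⟨A₁, hA₁, _, rfl⟩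
        rw [h, Submodule.mem_bot] at this
        have h3 := congrFun this i
        simpa using h3
      · exact hI (top_le_iff.1 (h ▸ hJI))
    · -- second case
      let J : Submodule ℝ (Fin 4 → ℝ) :=
        { carrier := {y | ∀ A ∈ R ⊓ R', A ≠ 0 → ∃ v, A *ᵥ v = y}
          add_mem' := by
            intro y z hy hz A hA hA0
            obtain ⟨v, hv⟩ := hy A hA hA0
            obtain ⟨w, hw⟩ := hz A hA hA0
            exact ⟨v + w, by rw [Matrix.mulVec_add, hv, hw]⟩
          zero_mem' := fun A _ _ => ⟨0, by simp⟩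
          smul_mem' := by
            intro c y hy A hA hA0
            obtain ⟨v, hv⟩ := hy A hA hA0
            exact ⟨c • v, by rw [Matrix.mulVec_smul, hv]⟩ }
      have hJinv : ∀ g ∈ G₀, ∀ v ∈ J, M g *ᵥ v ∈ J := by
        intro g hg y hy A hA hA0
        have hA' := hKinv g⁻¹ (G₀.inv_mem hg) A hA
        have hback : M g * (M g⁻¹ * A * (M g⁻¹)ᵀ) * (M g)ᵀ = A := by
          have : M g * (M g⁻¹ * A * (M g⁻¹)ᵀ) * (M g)ᵀ = (M g * M g⁻¹) * A * (M g * M g⁻¹)ᵀ := by
            rw [Matrix.transpose_mul]; simp only [Matrix.mul_assoc]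
          rw [this, hMinv]; simp
        have hA'0 : M g⁻¹ * A * (M g⁻¹)ᵀ ≠ 0 := by
          intro h0
          apply hA0
          rw [← hback, h0]; simp
        obtain ⟨v, hv⟩ := hy _ hA' hA'0
        refine ⟨(M g⁻¹)ᵀ *ᵥ v, ?_⟩
        rw [← hv, Matrix.mulVec_mulVec, Matrix.mulVec_mulVec]
        congr 1
        simp only [← Matrix.mul_assoc]
        rw [hMinv]; simp
      rcases hirr J hJinv with h | h
      · have : x ∈ J := hx
        rw [h, Submodule.mem_bot] at this
        exact hx0 this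
      · obtain ⟨a, b, hab⟩ := decomp A₁ (hRT _ hA₁.1) (hA₁.2.2 A₁ hA₁.1)
        have hspan : Submodule.span ℝ ({a, b} : Set (Fin 4 → ℝ)) = ⊤ := by
          rw [eq_top_iff]
          intro y _
          have hyJ : y ∈ J := by rw [h]; exact Submodule.mem_top
          obtain ⟨v, hv⟩ := hyJ A₁ hA₁ hA₁0
          rw [← hv, hab]
          have : wedge a b *ᵥ v = (b ⬝ᵥ v) • a - (a ⬝ᵥ v) • b := by
            rw [wedge, Matrix.sub_mulVec]
            ext i
            simp only [Matrix.mulVec, dotProduct, Matrix.vecMulVec_apply, Pi.sub_apply,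
              Pi.smul_apply, smul_eq_mul, Finset.sum_mul]
            congr 1 <;> (apply Finset.sum_congr rfl; intro j _; ring)
          rw [this]
          apply Submodule.sub_mem
          · exact Submodule.smul_mem _ _ (Submodule.subset_span (by simp))
          · exact Submodule.smul_mem _ _ (Submodule.subset_span (by simp))
        have hfr : Module.finrank ℝ (Submodule.span ℝ ({a, b} : Set (Fin 4 → ℝ))) ≤ 2 := by
          have := finrank_span_finset_le_card (R := ℝ) ({a, b} : Finset (Fin 4 → ℝ))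
          rw [Finset.coe_pair] at this
          exact this.trans Finset.card_le_two
        rw [hspan, finrank_top, Module.finrank_fin_fun] at hfr
        omega
  -- the form vanishes
  have hωne : ω ≠ 0 := by
    intro h0
    have hu : IsUnit P₀.det := isUnit_iff_ne_zero.2 hC.detP
    have hEe : E = P₀⁻¹ * ω * (P₀⁻¹)ᵀ := by
      rw [hω]
      have : P₀⁻¹ * (P₀ * E * P₀ᵀ) * (P₀⁻¹)ᵀ = (P₀⁻¹ * P₀) * E * (P₀⁻¹ * P₀)ᵀ := by
        rw [Matrix.transpose_mul]; simp only [Matrix.mul_assoc]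
      rw [this, Matrix.nonsing_inv_mul _ hu]; simp
    rw [h0] at hEe
    rw [hEe] at hE01
    simp at hE01
  have hlim : ∀ A : Matrix (Fin 4) (Fin 4) ℝ, Aᵀ = -A →
      Tendsto (fun n => (t n 0 * t n 1)⁻¹ • (M (γ n) * A * (M (γ n))ᵀ)) atTop
        (𝓝 ((Q₀ * A * Q₀ᵀ) 0 1 • ω)) := by
    intro A hA
    have hT : ∀ (Z : ℕ → Matrix (Fin 4) (Fin 4) ℝ) (Z₀ : Matrix (Fin 4) (Fin 4) ℝ),
        Tendsto Z atTop (𝓝 Z₀) → Tendsto (fun n => (Z n)ᵀ) atTop (𝓝 Z₀ᵀ) := fun Z Z₀ h =>
      ((continuous_id.matrix_transpose).tendsto Z₀).comp h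
    have hmul : ∀ (Y Z : ℕ → Matrix (Fin 4) (Fin 4) ℝ) (Y₀ Z₀ : Matrix (Fin 4) (Fin 4) ℝ),
        Tendsto Y atTop (𝓝 Y₀) → Tendsto Z atTop (𝓝 Z₀) →
        Tendsto (fun n => Y n * Z n * (Y n)ᵀ) atTop (𝓝 (Y₀ * Z₀ * Y₀ᵀ)) :=
      fun Y Z Y₀ Z₀ hY hZ => (hY.mul hZ).mul (hT Y Y₀ hY)
    have hA' : Tendsto (fun n => Q n * A * (Q n)ᵀ) atTop (𝓝 (Q₀ * A * Q₀ᵀ)) :=
      hmul Q (fun _ => A) Q₀ A hC.limQ tendsto_const_nhds
    have hA'T : ∀ n, (Q n * A * (Q n)ᵀ)ᵀ = -(Q n * A * (Q n)ᵀ) := fun n => halt _ _ hA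
    set A' : ℕ → Matrix (Fin 4) (Fin 4) ℝ := fun n => Q n * A * (Q n)ᵀ with hA'def
    set A₀ : Matrix (Fin 4) (Fin 4) ℝ := Q₀ * A * Q₀ᵀ with hA₀
    have hent : ∀ i j, Tendsto (fun n => A' n i j) atTop (𝓝 (A₀ i j)) := fun i j =>
      ((continuous_apply_apply i j).tendsto A₀).comp hA'
    have hpos := hC.pos
    have hr : Tendsto (fun n => t n 2 * (t n 1)⁻¹) atTop (𝓝 0) := by
      have := h2.mul (tendsto_inv_atTop_zero.comp h1)
      simpa using this
    -- coefficient ratios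
    have hle : ∀ n, t n 3 ≤ t n 2 ∧ t n 2 ≤ t n 1 ∧ t n 1 ≤ t n 0 := fun n =>
      ⟨hC.anti n (by decide), hC.anti n (by decide), hC.anti n (by decide)⟩
    have hratio : ∀ i j : Fin 4, i ≠ j → ¬ (i = 0 ∧ j = 1) → ¬ (i = 1 ∧ j = 0) →
        Tendsto (fun n => (t n 0 * t n 1)⁻¹ * (t n i * t n j)) atTop (𝓝 0) := by
      intro i j hij h01 h10
      apply squeeze_zero (g := fun n => t n 2 * (t n 1)⁻¹) (fun n => ?_) (fun n => ?_) hr
      · have a0 := hpos n 0
        have a1 := hpos n 1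
        have ai := hpos n i
        have aj := hpos n j
        positivity
      · have a0 := hpos n 0
        have a1 := hpos n 1
        have a2 := hpos n 2
        have a3 := hpos n 3
        have key : t n i * t n j ≤ t n 0 * t n 2 := by
          have hi0 : t n i ≤ t n 0 := hC.anti n (Fin.zero_le i)
          have hj0 : t n j ≤ t n 0 := hC.anti n (Fin.zero_le j)
          by_cases hj2 : (2 : Fin 4) ≤ j
          · exact mul_le_mul hi0 (hC.anti n hj2) (hpos n j).le a0.le
          · have hi2 : (2 : Fin 4) ≤ i := by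
              clear hi0 hj0
              revert hij h01 h10 hj2
              revert i j
              decide
            rw [mul_comm (t n i)]
            exact mul_le_mul hj0 (hC.anti n hi2) (hpos n i).le a0.le
        calc (t n 0 * t n 1)⁻¹ * (t n i * t n j) ≤ (t n 0 * t n 1)⁻¹ * (t n 0 * t n 2) :=
              mul_le_mul_of_nonneg_left key (by positivity)
          _ = t n 2 * (t n 1)⁻¹ := by field_simp
    have hmid : Tendsto (fun n => (t n 0 * t n 1)⁻¹ •
        (Matrix.diagonal (t n) * A' n * Matrix.diagonal (t n))) atTop (𝓝 (A₀ 0 1 • E)) := by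
      refine tendsto_pi_nhds.2 (fun i => tendsto_pi_nhds.2 (fun j => ?_))
      have hexp : ∀ n, ((t n 0 * t n 1)⁻¹ •
          (Matrix.diagonal (t n) * A' n * Matrix.diagonal (t n))) i j
          = ((t n 0 * t n 1)⁻¹ * (t n i * t n j)) * A' n i j := by
        intro n
        rw [Matrix.smul_apply, Matrix.mul_diagonal, Matrix.diagonal_mul, smul_eq_mul]
        ring
      simp only [hexp]
      by_cases hij : i = j
      · subst hij
        have hz : ∀ n, A' n i i = 0 := fun n => by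
          have := congrFun (congrFun (hA'T n) i) i
          simp only [Matrix.transpose_apply, Matrix.neg_apply] at this
          linarith
        have hEz : E i i = 0 := by
          have := congrFun (congrFun hET i) i
          simp only [Matrix.transpose_apply, Matrix.neg_apply] at this
          linarith
        simp only [hz, mul_zero, Matrix.smul_apply, hEz, smul_zero]
        exact tendsto_const_nhds
      · by_cases h01 : i = 0 ∧ j = 1
        · obtain ⟨rfl, rfl⟩ := h01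
          have : ∀ n, (t n 0 * t n 1)⁻¹ * (t n 0 * t n 1) * A' n 0 1 = A' n 0 1 := fun n => by
            have a0 := hpos n 0
            have a1 := hpos n 1
            field_simp
          simp only [this, Matrix.smul_apply, hE01, smul_eq_mul, mul_one]
          exact hent 0 1
        · by_cases h10 : i = 1 ∧ j = 0
          · obtain ⟨rfl, rfl⟩ := h10
            have : ∀ n, (t n 0 * t n 1)⁻¹ * (t n 1 * t n 0) * A' n 1 0 = - A' n 0 1 := fun n => by
              have a0 := hpos n 0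
              have a1 := hpos n 1
              have h3 := congrFun (congrFun (hA'T n) 0) 1
              simp only [Matrix.transpose_apply, Matrix.neg_apply] at h3
              change A' n 1 0 = - A' n 0 1 at h3
              rw [h3]
              field_simp
            have hE10 : E 1 0 = -1 := by
              have := congrFun (congrFun hET 0) 1
              simp only [Matrix.transpose_apply, Matrix.neg_apply] at this
              rw [this, hE01]
            simp only [this, Matrix.smul_apply, hE10, smul_eq_mul, mul_neg, mul_one]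
            exact (hent 0 1).neg
          · have hE0 : E i j = 0 := by
              rw [hE]
              fin_cases i <;> fin_cases j <;>
                simp [wedge, Matrix.vecMulVec_apply] at hij h01 h10 ⊢
            rw [Matrix.smul_apply, hE0, smul_zero]
            have := (hratio i j hij h01 h10).mul (hent i j)
            simpa using this
    have hfin : Tendsto (fun n => P n * ((t n 0 * t n 1)⁻¹ •
        (Matrix.diagonal (t n) * A' n * Matrix.diagonal (t n))) * (P n)ᵀ) atTop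
        (𝓝 (P₀ * (A₀ 0 1 • E) * P₀ᵀ)) :=
      hmul P _ P₀ _ hC.limP hmid
    have hgoal : P₀ * (A₀ 0 1 • E) * P₀ᵀ = A₀ 0 1 • ω := by
      rw [hω, Matrix.mul_smul, Matrix.smul_mul]
    rw [hgoal] at hfin
    refine hfin.congr (fun n => ?_)
    have hd : M (γ n) = P n * Matrix.diagonal (t n) * Q n := hC.dec n
    rw [Matrix.mul_smul, Matrix.smul_mul, hd, hA'def]
    congr 1
    rw [Matrix.transpose_mul, Matrix.transpose_mul, Matrix.diagonal_transpose]
    simp only [Matrix.mul_assoc]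
  have hR'cl : IsClosed (R' : Set (Matrix (Fin 4) (Fin 4) ℝ)) := R'.closed_of_finiteDimensional
  have hωR : ω ∈ R := by
    apply Submodule.subset_span
    exact ⟨1, G₀.one_mem, by rw [map_one]; simp⟩
  have hR'α : ∀ A ∈ R', (Q₀ * A * Q₀ᵀ) 0 1 = 0 := by
    intro A hA
    have hmem : (Q₀ * A * Q₀ᵀ) 0 1 • ω ∈ R' := by
      apply hR'cl.mem_of_tendsto (hlim A hA.1)
      exact Filter.Eventually.of_forall (fun n => R'.smul_mem _ (hR'inv _ (hγ n) A hA))
    have hmem2 : (Q₀ * A * Q₀ᵀ) 0 1 • ω ∈ R ⊓ R' := ⟨R.smul_mem _ hωR, hmem⟩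
    rw [hdisj, Submodule.mem_bot] at hmem2
    exact (smul_eq_zero.1 hmem2).resolve_right hωne
  have hα : ∀ A : Matrix (Fin 4) (Fin 4) ℝ, Aᵀ = -A → (Q₀ * A * Q₀ᵀ) 0 1 = 0 := by
    intro A hA
    obtain ⟨B, hB, hB2⟩ := splitR R (fun B hB hB2 => by
      have : B ∈ R ⊓ R' := ⟨hB, hRT B hB, hB2⟩
      rwa [hdisj, Submodule.mem_bot] at this) A
    have hAB : A - B ∈ R' := ⟨by rw [Matrix.transpose_sub, hA, hRT B hB]; abel, hB2⟩
    have e : A = B + (A - B) := by abel
    rw [e, Matrix.mul_add, Matrix.add_mul, Matrix.add_apply, hRα B hB, hR'α _ hAB, add_zero]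
  have hu : IsUnit Q₀.det := isUnit_iff_ne_zero.2 hC.detQ
  have hlast := hα (Q₀⁻¹ * E * (Q₀⁻¹)ᵀ) (halt _ _ hET)
  have : Q₀ * (Q₀⁻¹ * E * (Q₀⁻¹)ᵀ) * Q₀ᵀ = (Q₀ * Q₀⁻¹) * E * (Q₀ * Q₀⁻¹)ᵀ := by
    rw [Matrix.transpose_mul]; simp only [Matrix.mul_assoc]
  rw [this, Matrix.mul_nonsing_inv _ hu] at hlast
  simp at hlast
  rw [hE01] at hlast
  exact one_ne_zero hlast

end Pool.AF
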