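import Pool.Agent.Helper94.AC.Full
import Pool.Agent.Helper94.AC.SteerM
import Pool.Agent.Helper94.AC.TransT

/-!
# AC-11 EXCL: sequences with a gap and no bounded part are impossible
# (uses AC-6 `steer_mat` and AC-10 `trans_two`)

Proof. Apply `steer_mat`. For its hypothesis `hdense` use `hF.loc.dens` with
`F f = lead hk (Q₀ * S.mat b f * P₀)`, a polynomial function (`IsPolyM.mul`, `IsPolyM.const`,
`IsPolyM.self`, `IsPolyM.submatrix`, `IsPolyM.det`); one needs one `f ∈ G₀` with `F f ≠ 0`.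
* `k = 1`: `F f` is the `(0, 0)` entry of `Q₀ * M f * P₀`, a linear functional of `M f`, not zero
  (its value at `Q₀⁻¹ * single 0 0 1 * P₀⁻¹` is `1`), so it is not zero at some `f ∈ G₀` by `hF.span`.
* `k = 3`: with `A = Q₀ * M f * P₀`, `lead 3 A = A.adjugate 3 3 = det A * (A⁻¹) 3 3`, and
  `A⁻¹ = P₀⁻¹ * M f⁻¹ * Q₀⁻¹`; its `(3, 3)` entry is a nonzero linear functional of `M f⁻¹`, so it is
  not zero for some `f⁻¹ ∈ G₀`. `det A = det Q₀ * det P₀ ≠ 0`.
* `k = 2`: `trans_two`, with `hF.irr`.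
-/

open Set Filter Topology Matrix

set_option linter.unusedSectionVars false

namespace Pool.AF

open Pool.SV

section

variable {E : Type*} [NormedAddCommGroup E] [NormedSpace ℝ E] [FiniteDimensional ℝ E]
  {D : Geo E}

/-- an entry of `A * M f * B` does not vanish on `G₀` -/
private theorem entry_ne {S : InvSub D} {G₀ : Subgroup D.Γ} {b : Module.Basis (Fin 4) ℝ S.U}
    (hF : S.Full b G₀) (A B : Matrix (Fin 4) (Fin 4) ℝ) (hA : A.det ≠ 0) (hB : B.det ≠ 0)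
    (i j : Fin 4) : ∃ f ∈ G₀, (A * S.mat b f * B) i j ≠ 0 := by
  by_contra hcon
  push Not at hcon
  let ℓ : Matrix (Fin 4) (Fin 4) ℝ →ₗ[ℝ] ℝ :=
    { toFun := fun X => (A * X * B : Matrix (Fin 4) (Fin 4) ℝ) i j
      map_add' := fun X Y => by rw [mul_add, add_mul, Matrix.add_apply]
      map_smul' := fun c X => by
        rw [Matrix.mul_smul, Matrix.smul_mul, Matrix.smul_apply, RingHom.id_apply] }
  have h2 : ℓ = 0 := hF.span ℓ (fun g hg => hcon g hg)
  have h3 := LinearMap.congr_fun h2 (A⁻¹ * Matrix.single i j 1 * B⁻¹)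
  have hA' : IsUnit A.det := isUnit_iff_ne_zero.mpr hA
  have hB' : IsUnit B.det := isUnit_iff_ne_zero.mpr hB
  change (A * (A⁻¹ * Matrix.single i j 1 * B⁻¹) * B : Matrix (Fin 4) (Fin 4) ℝ) i j = 0 at h3
  have h4 : A * (A⁻¹ * Matrix.single i j 1 * B⁻¹) * B = Matrix.single i j (1 : ℝ) := by
    rw [Matrix.mul_assoc, Matrix.mul_assoc, Matrix.mul_assoc, Matrix.nonsing_inv_mul _ hB',
      Matrix.mul_one, ← Matrix.mul_assoc, Matrix.mul_nonsing_inv _ hA', Matrix.one_mul]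
  rw [h4, Matrix.single_apply_same] at h3
  exact one_ne_zero h3

/-- the leading minor of size 3 is an entry of the adjugate -/
private theorem lead_three (A : Matrix (Fin 4) (Fin 4) ℝ) (h : 3 ≤ 4) :
    lead h A = A.adjugate 3 3 := by
  rw [lead, Matrix.adjugate_fin_succ_eq_det_submatrix]
  have h1 : ((-1 : ℝ)) ^ (((3 : Fin 4) : ℕ) + ((3 : Fin 4) : ℕ)) = 1 := by
    norm_num
  rw [h1, one_mul]
  congr 1
  ext i j
  simp only [Matrix.submatrix_apply]
  congr 1 <;> fin_cases i <;> fin_cases j <;> rfl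

theorem excl (S : InvSub D) (G₀ : Subgroup D.Γ) (b : Module.Basis (Fin 4) ℝ S.U)
    (hF : S.Full b G₀) (γ : ℕ → D.Γ) (hγ : ∀ n, γ n ∈ G₀) (C : ℝ)
    (hb : ∀ n, ‖S.base (γ n)‖ ≤ C) (hb' : ∀ n, ‖S.base (γ n)⁻¹‖ ≤ C)
    (P Q : ℕ → Matrix (Fin 4) (Fin 4) ℝ) (t : ℕ → Fin 4 → ℝ) (P₀ Q₀ : Matrix (Fin 4) (Fin 4) ℝ)
    (hC : Cartan (fun n => S.mat b (γ n)) P Q t P₀ Q₀) (k : ℕ) (hk0 : 0 < k) (hk : k < 4)
    (hinf : ∀ i : Fin 4, (i : ℕ) < k → Tendsto (fun n => t n i) atTop atTop)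
    (h0 : ∀ i : Fin 4, k ≤ (i : ℕ) → Tendsto (fun n => t n i) atTop (𝓝 0)) : False := by
  have hpoly : IsPoly (fun g => S.mat b g) (fun f => lead hk.le (Q₀ * S.mat b f * P₀)) := by
    unfold lead
    exact IsPolyM.det ((((IsPolyM.const _).mul IsPolyM.self).mul (IsPolyM.const _)).submatrix _ _)
  refine steer_mat D S G₀ hk.le hk0 b γ hγ C hb hb' P Q t P₀ Q₀ hC hinf h0 ?_
  refine fun g hg ε hε => hF.loc.dens _ hpoly ?_ g hg ε hε
  have hQ : IsUnit Q₀.det := isUnit_iff_ne_zero.mpr hC.detQ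
  have hP : IsUnit P₀.det := isUnit_iff_ne_zero.mpr hC.detP
  have hk' : k = 1 ∨ k = 2 ∨ k = 3 := by omega
  rcases hk' with rfl | rfl | rfl
  · obtain ⟨f, hf, h1⟩ := entry_ne hF Q₀ P₀ hC.detQ hC.detP 0 0
    refine ⟨f, hf, ?_⟩
    rw [lead, Matrix.det_fin_one]
    exact h1
  · exact trans_two (S.mat b) G₀ (fun g hg => hF.det g hg) hF.irr γ hγ P Q t P₀ Q₀ hC
      (hinf 1 (by decide)) (h0 2 (by decide))
  · obtain ⟨f, hf, h1⟩ := entry_ne hF P₀⁻¹ Q₀⁻¹
      (by rw [Matrix.det_nonsing_inv]; exact hP.ringInverse.ne_zero)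
      (by rw [Matrix.det_nonsing_inv]; exact hQ.ringInverse.ne_zero) 3 3
    refine ⟨f⁻¹, inv_mem hf, ?_⟩
    rw [lead_three]
    have hM : (S.mat b f) * (S.mat b f⁻¹) = 1 := by rw [← map_mul, mul_inv_cancel, map_one]
    have hM' : (S.mat b f⁻¹) * (S.mat b f) = 1 := by rw [← map_mul, inv_mul_cancel, map_one]
    set A := Q₀ * S.mat b f⁻¹ * P₀ with hA
    set B := P₀⁻¹ * S.mat b f * Q₀⁻¹ with hB
    have hAB : A * B = 1 := by
      rw [hA, hB]
      calc Q₀ * S.mat b f⁻¹ * P₀ * (P₀⁻¹ * S.mat b f * Q₀⁻¹)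
          = Q₀ * (S.mat b f⁻¹ * ((P₀ * P₀⁻¹) * S.mat b f)) * Q₀⁻¹ := by
            simp only [Matrix.mul_assoc]
        _ = 1 := by
            rw [Matrix.mul_nonsing_inv _ hP, Matrix.one_mul, hM', Matrix.mul_one,
              Matrix.mul_nonsing_inv _ hQ]
    have hdA : A.det ≠ 0 := by
      intro h
      have := congrArg Matrix.det hAB
      rw [Matrix.det_mul, h, zero_mul, Matrix.det_one] at this
      exact zero_ne_one this
    have hadj : A.adjugate = A.det • B := by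
      calc A.adjugate = A.adjugate * (A * B) := by rw [hAB, Matrix.mul_one]
        _ = A.det • B := by rw [← Matrix.mul_assoc, Matrix.adjugate_mul, Matrix.smul_mul,
            Matrix.one_mul]
    rw [hadj, Matrix.smul_apply, smul_eq_mul]
    exact mul_ne_zero hdA h1

end

end Pool.AF
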