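import Pool.Agent.Helper94.AC.LimF
import Pool.Agent.Helper94.AB.Three

/-!
# AC-16 FORMF: an invariant bilinear form (uses AC-15)

Proof. Take `L` from `exists_limM` and `χ` from `LimM.char`; write `x, y, x', y'` for `L.x` etc.

Step 1: there are a subgroup `G₁` of finite index and `s ≠ 0` with
`y' ⬝ᵥ M g⁻¹ *ᵥ x' = s * χ g * (y ⬝ᵥ M g *ᵥ x)` for `g ∈ G₁`. This is `two_reps` of
`Pool/Agent/Helper94/AB/Three.lean` (private there: copy it; it uses `conn_alg`, which is public)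
for matrices instead of linear maps, `s = 1` or `s = -1`.

Step 2: if a linear functional of `M g` vanishes for all `g ∈ G₁` then it is zero (`Four.fin` and
`IsPoly.lin` give that it vanishes on `G`, then `Four.span`). In particular the `M g *ᵥ v`, `g ∈ G₁`, span
`Fin 4 → ℝ` for every `v ≠ 0`, and `{v | ∀ g ∈ G₁, w ⬝ᵥ M g *ᵥ v = 0} = 0` for every `w ≠ 0`.

Step 3 (as in `Pool/Agent/Helper94/AB/FormId.lean`, `fi_exists_form`): for a finitely supported
`c : G₁ → ℝ` let `α c = ∑ c g • M g *ᵥ x` and `β c = ∑ (c g / χ g) • (y' ᵥ* M g⁻¹)`. For `h ∈ G₁`,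
`β c ⬝ᵥ M h⁻¹ *ᵥ x' = ∑ c g / χ g * (y' ⬝ᵥ M (h * g)⁻¹ *ᵥ x') = s * χ h * (y ⬝ᵥ M h *ᵥ α c)`. So `α c = 0`
iff `β c = 0`, and as `α` is surjective there is an injective linear `L` with `L (α c) = β c`, that is
an invertible matrix `B` with `v ᵥ* B = L v` (`B v w = v ⬝ᵥ B *ᵥ w`), and
`(M g)ᵀ * B * M g = (χ g)⁻¹ • B` for `g ∈ G₁` (check on `v = M h *ᵥ x`:
`(M g v) ᵥ* B = L (M (g h) x) = (χ (g h))⁻¹ • y' ᵥ* M (g h)⁻¹ = (χ g)⁻¹ • (v ᵥ* B) ᵥ* M g⁻¹`). The
determinant gives `(χ g) ^ 4 = 1`, so `χ g = 1` on `G₁`.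

Step 4: the entries of `(M g)ᵀ * B * M g - B` are polynomial functions of `g` vanishing on `G₁`, so
they vanish on `G` (`Four.fin`).

Step 5: `Bᵀ` is also invariant, so `B⁻¹ * Bᵀ` commutes with all `M g`
(`(M g)⁻¹ = B⁻¹ * (M g)ᵀ * B`, and the same with `Bᵀ`), hence with all matrices (`Four.span`: the
commutation with a matrix is a family of linear equations), so it is scalar: `Bᵀ = ε • B`, and
transposing twice `ε ^ 2 = 1`.
-/

open Set Filter Topology Matrix

set_option linter.unusedSectionVars false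

namespace Pool.AF

private theorem ff_span_orbit {G V : Type*} [Group G] [AddCommGroup V] [Module ℝ V]
    (ρ : G →* (V →ₗ[ℝ] V))
    (hirr : ∀ U : Submodule ℝ V, (∀ g, ∀ u ∈ U, ρ g u ∈ U) → U = ⊥ ∨ U = ⊤) (x : V)
    (hx : x ≠ 0) : Submodule.span ℝ (Set.range fun g => ρ g x) = ⊤ := by
  rcases hirr (Submodule.span ℝ (Set.range fun g => ρ g x)) (by
    intro g u hu
    induction hu using Submodule.span_induction with
    | mem u hu =>
      obtain ⟨h, rfl⟩ := hu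
      refine Submodule.subset_span ⟨g * h, ?_⟩
      simp only [map_mul, Module.End.mul_apply]
    | zero => rw [map_zero]; exact Submodule.zero_mem _
    | add u v _ _ hu hv => rw [map_add]; exact Submodule.add_mem _ hu hv
    | smul c u _ hu => rw [map_smul]; exact Submodule.smul_mem _ c hu) with h | h
  · exfalso
    have h1 : x ∈ Submodule.span ℝ (Set.range fun g => ρ g x) :=
      Submodule.subset_span ⟨1, by simp⟩
    rw [h] at h1
    exact hx ((Submodule.mem_bot ℝ).1 h1)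
  · exact h

private theorem ff_annih_orbit {G V : Type*} [Group G] [AddCommGroup V] [Module ℝ V]
    (ρ : G →* (V →ₗ[ℝ] V))
    (hirr : ∀ U : Submodule ℝ V, (∀ g, ∀ u ∈ U, ρ g u ∈ U) → U = ⊥ ∨ U = ⊤) (y : V →ₗ[ℝ] ℝ)
    (hy : y ≠ 0) (v : V) (hv : ∀ g, y (ρ g v) = 0) : v = 0 := by
  let U : Submodule ℝ V :=
    { carrier := {v | ∀ g, y (ρ g v) = 0}
      add_mem' := fun {a b} ha hb g => by
        change y (ρ g (a + b)) = 0
        rw [map_add, map_add, ha g, hb g, add_zero]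
      zero_mem' := fun g => by rw [map_zero, map_zero]
      smul_mem' := fun c a ha g => by
        change y (ρ g (c • a)) = 0
        rw [map_smul, map_smul, ha g, smul_zero] }
  have hmem : ∀ v, v ∈ U ↔ ∀ g, y (ρ g v) = 0 := fun _ => Iff.rfl
  rcases hirr U (by
    intro g u hu
    rw [hmem] at hu ⊢
    intro h
    have := hu (h * g)
    rwa [map_mul, Module.End.mul_apply] at this) with h | h
  · have : v ∈ U := hv
    rw [h] at this
    exact (Submodule.mem_bot ℝ).1 this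
  · exfalso
    apply hy
    ext w
    have h1 : w ∈ U := by rw [h]; trivial
    have := (hmem w).1 h1 1
    simpa using this

/-- A nonzero form with `B (ρ g v) (ρ g w) = (χ g)⁻¹ * B v w`. -/
private theorem ff_exists_form {G V : Type*} [Group G] [AddCommGroup V] [Module ℝ V]
    (ρ : G →* (V →ₗ[ℝ] V))
    (hirr : ∀ U : Submodule ℝ V, (∀ g, ∀ u ∈ U, ρ g u ∈ U) → U = ⊥ ∨ U = ⊤)
    (χ : G → ℝ) (hχ0 : ∀ g, 0 < χ g)
    (hχ : ∀ g h, χ (g * h) = χ g * χ h) (x x' : V) (y y' : V →ₗ[ℝ] ℝ) (hx : x ≠ 0) (hy : y ≠ 0)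
    (s : ℝ) (hs : s ≠ 0) (hid : ∀ g, y' (ρ g⁻¹ x') = s * χ g * y (ρ g x)) :
    ∃ L : V →ₗ[ℝ] V →ₗ[ℝ] ℝ, (∀ v, L v = 0 → v = 0) ∧
      ∀ g v w, L (ρ g v) (ρ g w) = (χ g)⁻¹ * L v w := by
  classical
  have hx' : x' ≠ 0 := by
    intro h
    apply hx
    refine ff_annih_orbit ρ hirr y hy x fun g => ?_
    have h1 := hid g
    rw [h, map_zero, map_zero] at h1
    have h2 : s * χ g ≠ 0 := mul_ne_zero hs (hχ0 g).ne'
    exact (mul_eq_zero.1 h1.symm).resolve_left h2
  have hspan := ff_span_orbit ρ hirr x hx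
  have hspan' := ff_span_orbit ρ hirr x' hx'
  set α : (G →₀ ℝ) →ₗ[ℝ] V := Finsupp.linearCombination ℝ (fun g => ρ g x) with hα
  set β : (G →₀ ℝ) →ₗ[ℝ] (V →ₗ[ℝ] ℝ) :=
    Finsupp.linearCombination ℝ (fun g => (χ g)⁻¹ • (y' ∘ₗ ρ g⁻¹)) with hβ
  have hαs : ∀ g : G, ∀ c : ℝ, α (Finsupp.single g c) = c • ρ g x := fun g c => by
    rw [hα, Finsupp.linearCombination_single]
  have hβs : ∀ g : G, ∀ c : ℝ, β (Finsupp.single g c) = c • ((χ g)⁻¹ • (y' ∘ₗ ρ g⁻¹)) :=
    fun g c => by rw [hβ, Finsupp.linearCombination_single]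
  have hsurj : Function.Surjective α := by
    rw [← LinearMap.range_eq_top, hα, Finsupp.range_linearCombination]
    exact hspan
  have key : ∀ h : G, ∀ c : G →₀ ℝ, (β c) (ρ h⁻¹ x') = s * χ h * y (ρ h (α c)) := by
    intro h c
    induction c using Finsupp.induction_linear with
    | zero => simp
    | add a b ha hb =>
      rw [map_add, map_add, LinearMap.add_apply, ha, hb, map_add, map_add, mul_add]
    | single g c =>
      rw [hαs, hβs]
      simp only [LinearMap.smul_apply, LinearMap.comp_apply, smul_eq_mul, map_smul]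
      have e1 : ρ g⁻¹ (ρ h⁻¹ x') = ρ (h * g)⁻¹ x' := by
        rw [_root_.mul_inv_rev, map_mul, Module.End.mul_apply]
      have e2 : ρ h (ρ g x) = ρ (h * g) x := by rw [map_mul, Module.End.mul_apply]
      rw [e1, e2, hid (h * g), hχ]
      have h3 := (hχ0 g).ne'
      field_simp
  have hkey1 : ∀ c, α c = 0 → β c = 0 := by
    intro c hc
    have h1 : ∀ w ∈ Submodule.span ℝ (Set.range fun g => ρ g x'), (β c) w = 0 := by
      intro w hw
      induction hw using Submodule.span_induction with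
      | mem w hw =>
        obtain ⟨g, rfl⟩ := hw
        have := key g⁻¹ c
        rw [hc, map_zero, map_zero, mul_zero, inv_inv] at this
        exact this
      | zero => rw [map_zero]
      | add u v _ _ hu hv => rw [map_add, hu, hv, add_zero]
      | smul a u _ hu => rw [map_smul, hu, smul_zero]
    ext w
    exact h1 w (by rw [hspan']; trivial)
  have hkey2 : ∀ c, β c = 0 → α c = 0 := by
    intro c hc
    refine ff_annih_orbit ρ hirr y hy _ fun g => ?_
    have := key g c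
    rw [hc, LinearMap.zero_apply] at this
    exact (mul_eq_zero.1 this.symm).resolve_left (mul_ne_zero hs (hχ0 g).ne')
  obtain ⟨r, hr⟩ := LinearMap.exists_rightInverse_of_surjective α
    (LinearMap.range_eq_top.2 hsurj)
  have hr' : ∀ v, α (r v) = v := fun v => by
    have := LinearMap.congr_fun hr v
    simpa using this
  have hLα : ∀ c, (β ∘ₗ r) (α c) = β c := by
    intro c
    have h1 : α (r (α c) - c) = 0 := by rw [map_sub, hr', sub_self]
    have h2 := hkey1 _ h1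
    rw [map_sub, sub_eq_zero] at h2
    exact h2
  refine ⟨β ∘ₗ r, fun v hv => ?_, fun g v w => ?_⟩
  · have h1 : β (r v) = 0 := hv
    have h2 := hkey2 _ h1
    rwa [hr'] at h2
  · have hv : v ∈ Submodule.span ℝ (Set.range fun g => ρ g x) := by rw [hspan]; trivial
    induction hv using Submodule.span_induction with
    | mem v hv =>
      obtain ⟨h, rfl⟩ := hv
      have e0 : ∀ k : G, (β ∘ₗ r) (ρ k x) = (χ k)⁻¹ • (y' ∘ₗ ρ k⁻¹) := by
        intro k
        have h1 : ρ k x = α (Finsupp.single k 1) := by rw [hαs, one_smul]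
        rw [h1, hLα, hβs, one_smul]
      have e1 : ρ g (ρ h x) = ρ (g * h) x := by rw [map_mul, Module.End.mul_apply]
      have e2 : ρ (g * h)⁻¹ (ρ g w) = ρ h⁻¹ w := by
        rw [← Module.End.mul_apply, ← map_mul]
        congr 2
        group
      simp only [e1, e0, LinearMap.smul_apply, LinearMap.comp_apply, smul_eq_mul, e2, hχ]
      rw [mul_inv]
      ring
    | zero => simp
    | add u v _ _ hu hv =>
      rw [map_add, map_add, map_add, LinearMap.add_apply, LinearMap.add_apply, hu, hv, mul_add]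
    | smul a u _ hu =>
      rw [map_smul, map_smul, map_smul, LinearMap.smul_apply, LinearMap.smul_apply, hu,
        smul_eq_mul, smul_eq_mul]
      ring

section Generic

variable {G W : Type*} [Group G] [AddCommGroup W] [Module ℝ W] [FiniteDimensional ℝ W]

/-- Linear maps of `W` and of its dual. -/
private theorem ff_two_reps (ρ : G →* (W →ₗ[ℝ] W)) (χ : G → ℝ) (hχ0 : ∀ g, 0 < χ g)
    (hχ : ∀ g h, χ (g * h) = χ g * χ h) (x x' : W) (y y' : W →ₗ[ℝ] ℝ)
    (hab : ∀ f, |y' (ρ f⁻¹ x')| = χ f * |y (ρ f x)|) :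
    ∃ G₁ : Subgroup G, G₁.FiniteIndex ∧ ∃ s : ℝ, s ≠ 0 ∧
      ∀ g ∈ G₁, y' (ρ g⁻¹ x') = s * χ g * y (ρ g x) := by
  have hχ1 : χ 1 = 1 := by
    have h1 := hχ 1 1
    rw [mul_one] at h1
    have h2 := (hχ0 1).ne'
    field_simp at h1
    exact h1.symm
  let M : G →* (W →ₗ[ℝ] W) × (W →ₗ[ℝ] W)ᵐᵒᵖ :=
    { toFun := fun g => (ρ g, (χ g)⁻¹ • MulOpposite.op (ρ g⁻¹))
      map_one' := by
        rw [hχ1, inv_one, one_smul, inv_one, map_one]
        rfl
      map_mul' := by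
        intro g h
        rw [map_mul, _root_.mul_inv_rev, map_mul, hχ, Prod.mk_mul_mk, smul_mul_smul_comm,
          ← MulOpposite.op_mul, mul_inv] }
  obtain ⟨G₁, hG, h⟩ := conn_alg M
  refine ⟨G₁, hG, ?_⟩
  -- the functionals
  let ℓ₁ : (W →ₗ[ℝ] W) × (W →ₗ[ℝ] W)ᵐᵒᵖ →ₗ[ℝ] ℝ :=
    (y ∘ₗ (LinearMap.applyₗ x)) ∘ₗ LinearMap.fst ℝ _ _
  let ℓ₂ : (W →ₗ[ℝ] W) × (W →ₗ[ℝ] W)ᵐᵒᵖ →ₗ[ℝ] ℝ :=
    (y' ∘ₗ (LinearMap.applyₗ x')) ∘ₗ (MulOpposite.opLinearEquiv ℝ).symm.toLinearMap ∘ₗ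
      LinearMap.snd ℝ _ _
  have e1 : ∀ g, ℓ₁ (M g) = y (ρ g x) := fun g => rfl
  have e2 : ∀ g, ℓ₂ (M g) = (χ g)⁻¹ * y' (ρ g⁻¹ x') := by
    intro g
    change y' (((χ g)⁻¹ • ρ g⁻¹) x') = _
    rw [LinearMap.smul_apply, map_smul, smul_eq_mul]
  have h2 := h (ℓ₂ - ℓ₁) (ℓ₂ + ℓ₁) (by
    intro g _
    rw [LinearMap.sub_apply, LinearMap.add_apply, e1, e2]
    have h3 := congrArg (fun t => t ^ 2) (hab g)
    simp only [sq_abs, mul_pow] at h3
    have h4 := (hχ0 g).ne'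
    have h5 : ((χ g)⁻¹ * y' (ρ g⁻¹ x')) ^ 2 = (y (ρ g x)) ^ 2 := by
      rw [mul_pow, h3]
      field_simp
    linear_combination h5)
  rcases h2 with h2 | h2
  · refine ⟨1, one_ne_zero, fun g hg => ?_⟩
    have h3 := h2 g hg
    rw [LinearMap.sub_apply, e1, e2, sub_eq_zero] at h3
    rw [← h3]
    have h4 := (hχ0 g).ne'
    field_simp
  · refine ⟨-1, by norm_num, fun g hg => ?_⟩
    have h3 := h2 g hg
    rw [LinearMap.add_apply, e1, e2, add_eq_zero_iff_eq_neg] at h3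
    have h4 := (hχ0 g).ne'
    have h5 : y (ρ g x) = -((χ g)⁻¹ * y' (ρ g⁻¹ x')) := by rw [h3, neg_neg]
    rw [h5]
    field_simp

end Generic

/-- A subgroup of finite index is irreducible. -/
private theorem ff_irr {G R : Type*} [Group G] [NormedRing R]
    {τ : G →* R} {M : G →* Matrix (Fin 4) (Fin 4) ℝ} (hF : Four τ M) (G₁ : Subgroup G)
    (hG : G₁.FiniteIndex) (U : Submodule ℝ (Fin 4 → ℝ))
    (hU : ∀ g ∈ G₁, ∀ u ∈ U, M g *ᵥ u ∈ U) : U = ⊥ ∨ U = ⊤ := by
  by_contra hcon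
  push Not at hcon
  obtain ⟨h1, h2⟩ := hcon
  obtain ⟨u, hu, hu0⟩ := (Submodule.ne_bot_iff U).1 h1
  obtain ⟨w, hw0, hw⟩ := Submodule.exists_le_ker_of_lt_top U (lt_top_iff_ne_top.2 h2)
  let ℓ : Matrix (Fin 4) (Fin 4) ℝ →ₗ[ℝ] ℝ :=
    { toFun := fun A => w (A *ᵥ u)
      map_add' := fun A B => by rw [Matrix.add_mulVec, map_add]
      map_smul' := fun c A => by rw [Matrix.smul_mulVec, map_smul]; rfl }
  have hℓ : ∀ A, ℓ A = w (A *ᵥ u) := fun _ => rfl
  have h3 : ∀ g, ℓ (M g) = 0 := by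
    refine hF.fin G₁ hG _ (IsPoly.lin ℓ) ?_
    intro g hg
    exact LinearMap.mem_ker.1 (hw (hU g hg u hu))
  have h4 := hF.span ℓ h3
  apply hw0
  obtain ⟨j, hj⟩ := Function.ne_iff.1 hu0
  simp only [Pi.zero_apply] at hj
  refine LinearMap.ext fun v => ?_
  have h5 : ℓ (Matrix.vecMulVec v (Pi.single j (u j)⁻¹)) = 0 := by rw [h4]; rfl
  rw [hℓ, Matrix.vecMulVec_mulVec] at h5
  rw [LinearMap.zero_apply, ← h5]
  congr 1
  rw [single_dotProduct, inv_mul_cancel₀ hj]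
  simp

theorem form_four {G R : Type*} [Group G] [NormedRing R] [NormedAlgebra ℝ R] [CompleteSpace R]
    {τ : G →* R} {M : G →* Matrix (Fin 4) (Fin 4) ℝ} (hF : Four τ M) :
    ∃ (B : Matrix (Fin 4) (Fin 4) ℝ) (ε : ℝ), (ε = 1 ∨ ε = -1) ∧ B.det ≠ 0 ∧ Bᵀ = ε • B ∧
      ∀ g, (M g)ᵀ * B * M g = B := by
  classical
  obtain ⟨L⟩ := exists_limM hF
  obtain ⟨χ, hχ0, hχ, hab⟩ := L.char hF
  let V := Fin 4 → ℝ
  let ρ : G →* (V →ₗ[ℝ] V) :=
    ((Matrix.toLinAlgEquiv' : Matrix (Fin 4) (Fin 4) ℝ ≃ₐ[ℝ] (V →ₗ[ℝ] V)) :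
      Matrix (Fin 4) (Fin 4) ℝ →* (V →ₗ[ℝ] V)).comp M
  have hρ : ∀ g v, ρ g v = M g *ᵥ v := fun g v => rfl
  let dp : V → (V →ₗ[ℝ] ℝ) := fun w => dotProductBilin ℝ ℝ w
  have hdp : ∀ w v, dp w v = w ⬝ᵥ v := fun w v => rfl
  obtain ⟨G₁, hG, s, hs, hid⟩ := ff_two_reps ρ χ hχ0 hχ L.x L.x' (dp L.y) (dp L.y') hab
  obtain ⟨K, hKinj, hK⟩ := ff_exists_form (G := G₁) (ρ.comp G₁.subtype) (by
      intro U hU
      exact ff_irr hF G₁ hG U (fun g hg u hu => hU ⟨g, hg⟩ u hu)) (fun g => χ g.1)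
      (fun g => hχ0 g.1) (fun g h => hχ g.1 h.1) L.x L.x' (dp L.y) (dp L.y') L.hx (by
      intro h
      apply L.hy
      have h1 := LinearMap.congr_fun h L.y
      rw [hdp, LinearMap.zero_apply] at h1
      exact dotProduct_self_eq_zero.1 h1) s hs (fun g => hid g.1 g.2)
  set B : Matrix (Fin 4) (Fin 4) ℝ := LinearMap.toMatrix₂' ℝ K with hB
  have hKB : ∀ v w, K v w = v ⬝ᵥ B *ᵥ w := by
    intro v w
    rw [← Matrix.toLinearMap₂'_apply', hB, Matrix.toLinearMap₂'_toMatrix']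
  have hsep : K.SeparatingLeft := by
    intro v hv
    apply hKinj
    exact LinearMap.ext fun w => hv w
  have hdetB : B.det ≠ 0 := by
    refine LinearMap.separatingLeft_toLinearMap₂'_iff_det_ne_zero.1 ?_
    rw [hB, Matrix.toLinearMap₂'_toMatrix']
    exact hsep
  have hinv0 : ∀ g ∈ G₁, (M g)ᵀ * B * M g = (χ g)⁻¹ • B := by
    intro g hg
    ext i j
    have h1 := hK ⟨g, hg⟩ (Pi.single i 1) (Pi.single j 1)
    have h2 : (ρ.comp G₁.subtype) ⟨g, hg⟩ = ρ g := rfl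
    rw [h2, hρ, hρ, hKB, hKB] at h1
    have h3 : ((M g)ᵀ * B * M g) i j = (M g *ᵥ Pi.single i 1) ⬝ᵥ B *ᵥ M g *ᵥ Pi.single j 1 := by
      rw [← Matrix.vecMul_transpose, ← Matrix.dotProduct_mulVec, Matrix.mulVec_mulVec,
        Matrix.mulVec_mulVec, single_one_dotProduct, Matrix.mulVec_single_one]
      rfl
    have h4 : B i j = Pi.single i 1 ⬝ᵥ B *ᵥ Pi.single j 1 := by
      rw [single_one_dotProduct, Matrix.mulVec_single_one]
      rfl
    rw [h3, h1, Matrix.smul_apply, smul_eq_mul, h4]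
  have hχ1 : ∀ g ∈ G₁, χ g = 1 := by
    intro g hg
    have h1 := congrArg Matrix.det (hinv0 g hg)
    rw [Matrix.det_mul, Matrix.det_mul, Matrix.det_transpose, Matrix.det_smul, hF.det] at h1
    simp only [one_mul, mul_one, Fintype.card_fin] at h1
    have h3 : ((χ g)⁻¹) ^ 4 = 1 := by
      have h4 : (((χ g)⁻¹) ^ 4 - 1) * B.det = 0 := by
        linear_combination -h1
      have := (mul_eq_zero.1 h4).resolve_right hdetB
      linarith
    have h5 : (χ g)⁻¹ = 1 :=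
      (pow_eq_one_iff_of_nonneg (inv_nonneg.2 (hχ0 g).le) (by norm_num)).1 h3
    exact inv_eq_one.1 h5
  have hinv : ∀ g, (M g)ᵀ * B * M g = B := by
    intro g
    ext i j
    have hT : IsPolyM (fun g => M g) (fun g => (M g)ᵀ) := fun i j => IsPoly.entry j i
    have hP : IsPolyM (fun g => M g) (fun g => (M g)ᵀ * B * M g) :=
      (hT.mul (IsPolyM.const B)).mul IsPolyM.self
    have h1 := hF.fin G₁ hG _ ((hP i j).sub (IsPoly.const (B i j))) (by
      intro f hf
      simp only []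
      rw [hinv0 f hf, hχ1 f hf, inv_one, one_smul, sub_self]) g
    exact sub_eq_zero.1 h1
  have hinvT : ∀ g, (M g)ᵀ * Bᵀ * M g = Bᵀ := by
    intro g
    have h1 := congrArg Matrix.transpose (hinv g)
    rw [Matrix.transpose_mul, Matrix.transpose_mul, Matrix.transpose_transpose] at h1
    rw [Matrix.mul_assoc]
    exact h1
  have hBu : IsUnit B.det := isUnit_iff_ne_zero.2 hdetB
  set T : Matrix (Fin 4) (Fin 4) ℝ := B⁻¹ * Bᵀ with hT
  have hBT : B * T = Bᵀ := by rw [hT, Matrix.mul_nonsing_inv_cancel_left _ _ hBu]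
  have hcomm : ∀ g, T * M g = M g * T := by
    intro g
    have h1 : (M g)ᵀ * B * (T * M g) = (M g)ᵀ * B * (M g * T) := by
      calc (M g)ᵀ * B * (T * M g) = (M g)ᵀ * (B * T) * M g := by simp only [Matrix.mul_assoc]
        _ = Bᵀ := by rw [hBT, hinvT]
        _ = (M g)ᵀ * B * M g * T := by rw [hinv, hBT]
        _ = (M g)ᵀ * B * (M g * T) := by simp only [Matrix.mul_assoc]
    have h2 : IsUnit ((M g)ᵀ * B).det := by
      rw [Matrix.det_mul, Matrix.det_transpose, hF.det, one_mul]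
      exact hBu
    have h3 := congrArg (fun X => ((M g)ᵀ * B)⁻¹ * X) h1
    simp only [Matrix.nonsing_inv_mul_cancel_left _ _ h2] at h3
    exact h3
  have hcommA : ∀ A : Matrix (Fin 4) (Fin 4) ℝ, T * A = A * T := by
    intro A
    ext i j
    let ℓ : Matrix (Fin 4) (Fin 4) ℝ →ₗ[ℝ] ℝ :=
      { toFun := fun A => (T * A - A * T) i j
        map_add' := fun A A' => by
          rw [Matrix.mul_add, Matrix.add_mul]
          simp only [Matrix.sub_apply, Matrix.add_apply]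
          ring
        map_smul' := fun c A => by
          rw [Matrix.mul_smul, Matrix.smul_mul, ← smul_sub]
          rfl }
    have h1 := hF.span ℓ (by
      intro g
      change (T * M g - M g * T) i j = 0
      rw [hcomm g, sub_self]
      rfl)
    have h2 : (T * A - A * T) i j = 0 := by
      change ℓ A = 0
      rw [h1]
      rfl
    rw [Matrix.sub_apply] at h2
    exact sub_eq_zero.1 h2
  obtain ⟨ε, hε⟩ : ∃ ε : ℝ, T = ε • (1 : Matrix (Fin 4) (Fin 4) ℝ) := by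
    obtain ⟨ε, hε⟩ := Matrix.mem_range_scalar_of_commute_single (M := T)
      (fun i j _ => (hcommA (Matrix.single i j 1)).symm)
    exact ⟨ε, by rw [← hε, Matrix.scalar_apply, Matrix.smul_one_eq_diagonal]⟩
  have hBε : Bᵀ = ε • B := by
    rw [← hBT, hε, Matrix.mul_smul, Matrix.mul_one]
  have hε2 : ε = 1 ∨ ε = -1 := by
    have h1 : B = (ε * ε) • B := by
      have h2 := congrArg Matrix.transpose hBε
      rw [Matrix.transpose_transpose, Matrix.transpose_smul, hBε, smul_smul] at h2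
      exact h2
    have h3 : (ε * ε - 1) • B = 0 := by
      rw [sub_smul, one_smul, ← h1, sub_self]
    have h4 : B ≠ 0 := by
      intro h
      apply hdetB
      rw [h]
      simp
    have h5 := (smul_eq_zero.1 h3).resolve_right h4
    exact mul_self_eq_one_iff.1 (sub_eq_zero.1 h5)
  exact ⟨B, ε, hε2, hdetB, hBε, hinv⟩

end Pool.AF
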