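import Pool.Agent.Helper94.AC.RatioW
import Pool.Agent.Helper94.AB.Three

/-!
# AC-39 FORMW: the form on the quotient by the line (uses the stub AC-34 `ratio_w`)

Notation: `m g = blk (S.mat b g)`, `W = Fin 3 → ℝ`, `ρ g : W →L[ℝ] W` the continuous linear map with the
matrix `m g` (a homomorphism, see `InvSub.wmat`; `Matrix.toLin'`, `LinearMap.toContinuousLinearMap`).

(1) `Rec3 S.base ρ G₀` (`Pool/Agent/Helper94/AB/Seqs.lean`): `h3`: `finrank W = 3`; `det`: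
`det_commutator`; `rat`: `ratio_w`, and `‖ρ g‖` is comparable to `nm (m g)` (norms on the
finite-dimensional space `W →L[ℝ] W`); `large`: `LineGood.near`; `dense`: `F f = y (ρ f x)` is a
polynomial function, not zero at some `f ∈ G₀` by `LineGood.span` (the functional `A ↦ y (A *ᵥ x)` is not
zero), so `Loc.dens` applies.

(2) As in `form_of_good` (`Pool/Agent/Helper94/AB/Three.lean`), with `G₀` instead of `commutator D.Γ`:
`exists_limData`, `LimData.char`, `two_reps` (private there: copy it) give a subgroup `G₁` of finite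
index of `G₀` and the identity needed in `form_of_ident`. Every subgroup `K ≤ G₀` with
`K.relIndex G₀ ≠ 0` acts irreducibly on `W`: let `I ≠ ⊥, ⊤` be invariant under `K`, take `x ∈ I`, `x ≠ 0`,
and a functional `y ≠ 0` vanishing on `I`; then the linear functional `A ↦ y (A *ᵥ x)` vanishes on
`m g`, `g ∈ K`, hence on `m g`, `g ∈ G₀` (`Loc.fin`), contradiction with `LineGood.span`. So
`form_of_ident` gives a symmetric nondegenerate form on `W` invariant under `G₁`, and `form_up`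
(`Pool/Agent/Helper94/AB/FormUp.lean`) with `N = G₀` (normal) shows that `D.Γ` preserves it up to
positive scalars. Let `B` be its matrix.
-/

open Set Filter Topology Matrix

set_option linter.unusedSectionVars false

namespace Pool.AF

open Pool.SV

section Generic

variable {G W : Type*} [Group G] [AddCommGroup W] [Module ℝ W] [FiniteDimensional ℝ W]

/-- Linear maps of `W` and of its dual. -/
private theorem two_reps_w (ρ : G →* (W →ₗ[ℝ] W)) (χ : G → ℝ) (hχ0 : ∀ g, 0 < χ g)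
    (hχ : ∀ g h, χ (g * h) = χ g * χ h) (x x' : W) (y y' : W →ₗ[ℝ] ℝ)
    (hab : ∀ f, |y' (ρ f⁻¹ x')| = χ f * |y (ρ f x)|) :
    ∃ G₁ : Subgroup G, G₁.FiniteIndex ∧ ∃ s : ℝ, s ≠ 0 ∧
      ∀ g ∈ G₁, y' (ρ g⁻¹ x') = s * χ g * y (ρ g x) := by
  have hχ1 : χ 1 = 1 := by
    have h1 := hχ 1 1
    rw [mul_one] at h1
    have h2 := (hχ0 1).ne'
    field_simp at h1
    exact h1.symm
  let M : G →* (W →ₗ[ℝ] W) × (W →ₗ[ℝ] W)ᵐᵒᵖ :=
    { toFun := fun g => (ρ g, (χ g)⁻¹ • MulOpposite.op (ρ g⁻¹))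
      map_one' := by
        rw [hχ1, inv_one, one_smul, inv_one, map_one]
        rfl
      map_mul' := by
        intro g h
        rw [map_mul, _root_.mul_inv_rev, map_mul, hχ, Prod.mk_mul_mk, smul_mul_smul_comm,
          ← MulOpposite.op_mul, mul_inv] }
  obtain ⟨G₁, hG, h⟩ := conn_alg M
  refine ⟨G₁, hG, ?_⟩
  -- the functionals
  let ℓ₁ : (W →ₗ[ℝ] W) × (W →ₗ[ℝ] W)ᵐᵒᵖ →ₗ[ℝ] ℝ :=
    (y ∘ₗ (LinearMap.applyₗ x)) ∘ₗ LinearMap.fst ℝ _ _
  let ℓ₂ : (W →ₗ[ℝ] W) × (W →ₗ[ℝ] W)ᵐᵒᵖ →ₗ[ℝ] ℝ :=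
    (y' ∘ₗ (LinearMap.applyₗ x')) ∘ₗ (MulOpposite.opLinearEquiv ℝ).symm.toLinearMap ∘ₗ
      LinearMap.snd ℝ _ _
  have e1 : ∀ g, ℓ₁ (M g) = y (ρ g x) := fun g => rfl
  have e2 : ∀ g, ℓ₂ (M g) = (χ g)⁻¹ * y' (ρ g⁻¹ x') := by
    intro g
    change y' (((χ g)⁻¹ • ρ g⁻¹) x') = _
    rw [LinearMap.smul_apply, map_smul, smul_eq_mul]
  have h2 := h (ℓ₂ - ℓ₁) (ℓ₂ + ℓ₁) (by
    intro g _
    rw [LinearMap.sub_apply, LinearMap.add_apply, e1, e2]
    have h3 := congrArg (fun t => t ^ 2) (hab g)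
    simp only [sq_abs, mul_pow] at h3
    have h4 := (hχ0 g).ne'
    have h5 : ((χ g)⁻¹ * y' (ρ g⁻¹ x')) ^ 2 = (y (ρ g x)) ^ 2 := by
      rw [mul_pow, h3]
      field_simp
    linear_combination h5)
  rcases h2 with h2 | h2
  · refine ⟨1, one_ne_zero, fun g hg => ?_⟩
    have h3 := h2 g hg
    rw [LinearMap.sub_apply, e1, e2, sub_eq_zero] at h3
    rw [← h3]
    have h4 := (hχ0 g).ne'
    field_simp
  · refine ⟨-1, by norm_num, fun g hg => ?_⟩
    have h3 := h2 g hg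
    rw [LinearMap.add_apply, e1, e2, add_eq_zero_iff_eq_neg] at h3
    have h4 := (hχ0 g).ne'
    have h5 : y (ρ g x) = -((χ g)⁻¹ * y' (ρ g⁻¹ x')) := by rw [h3, neg_neg]
    rw [h5]
    field_simp

end Generic

/-- The linear functional `A ↦ y (A *ᵥ x)`. -/
private noncomputable def fnl (x : Fin 3 → ℝ) (y : (Fin 3 → ℝ) →ₗ[ℝ] ℝ) :
    Matrix (Fin 3) (Fin 3) ℝ →ₗ[ℝ] ℝ where
  toFun A := y (A *ᵥ x)
  map_add' A B := by rw [Matrix.add_mulVec, map_add]
  map_smul' c A := by rw [Matrix.smul_mulVec, map_smul]; rfl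

private theorem fnl_eq_zero {x : Fin 3 → ℝ} {y : (Fin 3 → ℝ) →ₗ[ℝ] ℝ} (hx : x ≠ 0)
    (h : fnl x y = 0) : y = 0 := by
  obtain ⟨i, hi⟩ := Function.ne_iff.1 hx
  rw [Pi.zero_apply] at hi
  apply LinearMap.ext
  intro v
  have h1 : fnl x y (Matrix.vecMulVec v (Pi.single i (x i)⁻¹)) = 0 := by rw [h]; rfl
  have h2 : (Matrix.vecMulVec v (Pi.single i (x i)⁻¹)) *ᵥ x = v := by
    ext j
    simp only [Matrix.mulVec, dotProduct, Matrix.vecMulVec_apply]
    rw [Finset.sum_eq_single i]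
    · rw [Pi.single_eq_same, mul_assoc, inv_mul_cancel₀ hi, mul_one]
    · intro k _ hk
      rw [Pi.single_eq_of_ne hk, mul_zero, zero_mul]
    · intro hn
      exact absurd (Finset.mem_univ i) hn
  change y ((Matrix.vecMulVec v (Pi.single i (x i)⁻¹)) *ᵥ x) = 0 at h1
  rw [h2] at h1
  exact h1

/-- The lower right block as a linear map. -/
private def blkLin : Matrix (Fin 4) (Fin 4) ℝ →ₗ[ℝ] Matrix (Fin 3) (Fin 3) ℝ where
  toFun := blk
  map_add' _ _ := rfl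
  map_smul' _ _ := rfl

section

variable {E : Type*} [NormedAddCommGroup E] [NormedSpace ℝ E] [FiniteDimensional ℝ E]
  {D : Geo E}

/-- the linear action on the quotient -/
private noncomputable def wl (S : InvSub D) (b : Module.Basis (Fin 4) ℝ S.U)
    (hline : ∀ g : D.Γ, ∀ i : Fin 3, S.mat b g i.succ 0 = 0) :
    D.Γ →* ((Fin 3 → ℝ) →ₗ[ℝ] (Fin 3 → ℝ)) where
  toFun g := Matrix.toLin' (S.wmat b hline g)
  map_one' := by rw [map_one, Matrix.toLin'_one]; rfl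
  map_mul' g h := by rw [map_mul, Matrix.toLin'_mul]; rfl

/-- the continuous linear action on the quotient -/
private noncomputable def wc (S : InvSub D) (b : Module.Basis (Fin 4) ℝ S.U)
    (hline : ∀ g : D.Γ, ∀ i : Fin 3, S.mat b g i.succ 0 = 0) :
    D.Γ →* ((Fin 3 → ℝ) →L[ℝ] (Fin 3 → ℝ)) where
  toFun g := LinearMap.toContinuousLinearMap (Matrix.toLin' (S.wmat b hline g))
  map_one' := by
    rw [map_one, Matrix.toLin'_one]
    apply ContinuousLinearMap.ext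
    intro v
    rfl
  map_mul' g h := by
    rw [map_mul, Matrix.toLin'_mul]
    apply ContinuousLinearMap.ext
    intro v
    rfl

private theorem wc_apply (S : InvSub D) (b : Module.Basis (Fin 4) ℝ S.U)
    (hline : ∀ g : D.Γ, ∀ i : Fin 3, S.mat b g i.succ 0 = 0) (g : D.Γ) (x : Fin 3 → ℝ) :
    wc S b hline g x = blk (S.mat b g) *ᵥ x := rfl

private theorem wl_apply (S : InvSub D) (b : Module.Basis (Fin 4) ℝ S.U)
    (hline : ∀ g : D.Γ, ∀ i : Fin 3, S.mat b g i.succ 0 = 0) (g : D.Γ) (x : Fin 3 → ℝ) :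
    wl S b hline g x = blk (S.mat b g) *ᵥ x := rfl

private theorem norm_wc_le (S : InvSub D) (b : Module.Basis (Fin 4) ℝ S.U)
    (hline : ∀ g : D.Γ, ∀ i : Fin 3, S.mat b g i.succ 0 = 0) (g : D.Γ) :
    ‖wc S b hline g‖ ≤ nm (blk (S.mat b g)) := by
  have h0 : 0 ≤ nm (blk (S.mat b g)) :=
    Finset.sum_nonneg (fun i _ => Finset.sum_nonneg (fun j _ => abs_nonneg _))
  refine ContinuousLinearMap.opNorm_le_bound _ h0 (fun x => ?_)
  rw [wc_apply, pi_norm_le_iff_of_nonneg (by positivity)]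
  intro i
  rw [Real.norm_eq_abs]
  simp only [Matrix.mulVec, dotProduct]
  calc |∑ j, blk (S.mat b g) i j * x j| ≤ ∑ j, |blk (S.mat b g) i j * x j| :=
        Finset.abs_sum_le_sum_abs _ _
    _ ≤ ∑ j, |blk (S.mat b g) i j| * ‖x‖ := by
        refine Finset.sum_le_sum (fun j _ => ?_)
        rw [abs_mul]
        exact mul_le_mul_of_nonneg_left (norm_le_pi_norm x j) (abs_nonneg _)
    _ = (∑ j, |blk (S.mat b g) i j|) * ‖x‖ := by rw [Finset.sum_mul]
    _ ≤ nm (blk (S.mat b g)) * ‖x‖ := by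
        refine mul_le_mul_of_nonneg_right ?_ (norm_nonneg _)
        exact Finset.single_le_sum (f := fun i => ∑ j, |blk (S.mat b g) i j|)
          (fun i _ => Finset.sum_nonneg (fun j _ => abs_nonneg _)) (Finset.mem_univ i)

private theorem nm_le_norm_wc (S : InvSub D) (b : Module.Basis (Fin 4) ℝ S.U)
    (hline : ∀ g : D.Γ, ∀ i : Fin 3, S.mat b g i.succ 0 = 0) (g : D.Γ) :
    nm (blk (S.mat b g)) ≤ 9 * ‖wc S b hline g‖ := by
  have h1 : ∀ i j, |blk (S.mat b g) i j| ≤ ‖wc S b hline g‖ := by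
    intro i j
    have h2 := (wc S b hline g).le_opNorm (Pi.single j 1)
    have h3 : ‖(Pi.single j 1 : Fin 3 → ℝ)‖ = 1 := by
      rw [Pi.norm_single, norm_one]
    rw [h3, mul_one, wc_apply, Matrix.mulVec_single_one] at h2
    have h4 := norm_le_pi_norm ((blk (S.mat b g)).col j) i
    rw [Real.norm_eq_abs] at h4
    exact h4.trans h2
  calc nm (blk (S.mat b g)) ≤ ∑ i : Fin 3, ∑ j : Fin 3, ‖wc S b hline g‖ :=
        Finset.sum_le_sum (fun i _ => Finset.sum_le_sum (fun j _ => h1 i j))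
    _ = 9 * ‖wc S b hline g‖ := by
        simp only [Finset.sum_const, Finset.card_univ, Fintype.card_fin, nsmul_eq_mul]
        push_cast
        ring

private theorem fnl_poly (S : InvSub D) (b : Module.Basis (Fin 4) ℝ S.U)
    (x : Fin 3 → ℝ) (y : (Fin 3 → ℝ) →ₗ[ℝ] ℝ) :
    IsPoly (fun g => S.mat b g) (fun g => y (blk (S.mat b g) *ᵥ x)) :=
  IsPoly.lin ((fnl x y) ∘ₗ blkLin)

private theorem rec_w (S : InvSub D) (b : Module.Basis (Fin 4) ℝ S.U) (G₀ : Subgroup D.Γ)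
    (hG : S.LineGood b G₀) : Rec3 S.base (wc S b hG.line) G₀ where
  h3 := by simp
  det := fun g hg => det_commutator (wl S b hG.line) g (hG.le hg)
  rat := by
    intro C
    obtain ⟨κ, hκ, h⟩ := ratio_w S b G₀ hG C
    refine ⟨κ / 9, by positivity, fun f hf h1 h2 => ?_⟩
    have h3 := h f hf h1 h2
    have h4 := norm_wc_le S b hG.line f
    have h5 := nm_le_norm_wc S b hG.line f⁻¹
    have h6 : κ * ‖wc S b hG.line f‖ ≤ κ * nm (blk (S.mat b f)) :=
      mul_le_mul_of_nonneg_left h4 hκ.le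
    linarith
  large := by
    intro C ε hε
    obtain ⟨c, hc, h1, h2⟩ := hG.near (9 * C) ε hε
    refine ⟨c, hc, h1, Or.inl ?_⟩
    have h3 := nm_le_norm_wc S b hG.line c
    linarith
  dense := by
    intro x hx y hy g hg ε hε
    have h1 : ∃ f ∈ G₀, (y : (Fin 3 → ℝ) →ₗ[ℝ] ℝ) (blk (S.mat b f) *ᵥ x) ≠ 0 := by
      by_contra hcon
      push Not at hcon
      have h2 := hG.span (fnl x (y : (Fin 3 → ℝ) →ₗ[ℝ] ℝ)) hcon
      apply hy
      have h3 := fnl_eq_zero hx h2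
      apply ContinuousLinearMap.ext
      intro v
      exact LinearMap.congr_fun h3 v
    exact hG.loc.dens _ (fnl_poly S b x (y : (Fin 3 → ℝ) →ₗ[ℝ] ℝ)) h1 g hg ε hε

private theorem irr_w (S : InvSub D) (b : Module.Basis (Fin 4) ℝ S.U) (G₀ : Subgroup D.Γ)
    (hG : S.LineGood b G₀) (K : Subgroup D.Γ) (hK : K ≤ G₀) (hK' : K.relIndex G₀ ≠ 0)
    (I : Submodule ℝ (Fin 3 → ℝ)) (hI : ∀ h ∈ K, ∀ u ∈ I, wl S b hG.line h u ∈ I) :
    I = ⊥ ∨ I = ⊤ := by
  by_contra hcon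
  push Not at hcon
  obtain ⟨hb, ht⟩ := hcon
  obtain ⟨x, hxI, hx⟩ := Submodule.exists_mem_ne_zero_of_ne_bot hb
  obtain ⟨y, hy, hyI⟩ := Submodule.exists_le_ker_of_lt_top I (lt_top_iff_ne_top.2 ht)
  have h1 : ∀ f ∈ K, y (blk (S.mat b f) *ᵥ x) = 0 := fun f hf => hyI (hI f hf x hxI)
  have h2 := hG.loc.fin K hK hK' _ (fnl_poly S b x y) h1
  exact hy (fnl_eq_zero hx (hG.span (fnl x y) h2))

theorem form_w (S : InvSub D) (b : Module.Basis (Fin 4) ℝ S.U) (G₀ : Subgroup D.Γ)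
    (hG : S.LineGood b G₀) :
    ∃ B : Matrix (Fin 3) (Fin 3) ℝ, Bᵀ = B ∧ B.det ≠ 0 ∧
      ∀ g : D.Γ, ∃ k : ℝ, 0 < k ∧ (blk (S.mat b g))ᵀ * B * blk (S.mat b g) = k • B := by
  have : CompleteSpace (Alg E) := FiniteDimensional.complete ℝ (Alg E)
  have hR := rec_w S b G₀ hG
  have hGn := hG.normal
  obtain ⟨L⟩ := exists_limData hR
  obtain ⟨χ, hχ0, hχ, hab⟩ := L.char hR
  set ρ : G₀ →* ((Fin 3 → ℝ) →ₗ[ℝ] (Fin 3 → ℝ)) := (wl S b hG.line).comp G₀.subtype with hρ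
  obtain ⟨G₁, hG₁, s, hs, hid⟩ := two_reps_w ρ χ hχ0 hχ L.x L.x'
    (L.y : (Fin 3 → ℝ) →ₗ[ℝ] ℝ) (L.y' : (Fin 3 → ℝ) →ₗ[ℝ] ℝ) hab
  set H : Subgroup D.Γ := G₁.map G₀.subtype with hH
  have hHN : H ≤ G₀ := Subgroup.map_subtype_le _
  have hHfi : H.relIndex G₀ ≠ 0 := by
    have h1 : H.relIndex G₀ = G₁.index := by
      rw [Subgroup.relIndex, hH, Subgroup.subgroupOf, Subgroup.comap_map_eq_self_of_injective]
      exact Subtype.val_injective
    rw [h1]
    exact hG₁.index_ne_zero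
  have hirrN : ∀ K : Subgroup D.Γ, K ≤ G₀ → K.relIndex G₀ ≠ 0 →
      ∀ U : Submodule ℝ (Fin 3 → ℝ),
      (∀ h ∈ K, ∀ u ∈ U, wl S b hG.line h u ∈ U) → U = ⊥ ∨ U = ⊤ := fun K hK hK' U hU =>
    irr_w S b G₀ hG K hK hK' U hU
  have h3 : Module.finrank ℝ (Fin 3 → ℝ) = 3 := by simp
  obtain ⟨B, hB1, hB2, hB3⟩ := form_of_ident (G := G₁) h3 (ρ.comp G₁.subtype) (by
      intro U hU
      refine hirrN H hHN hHfi U ?_
      rintro _ ⟨g, hg, rfl⟩ u hu
      exact hU ⟨g, hg⟩ u hu) (by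
      intro g
      exact det_commutator (wl S b hG.line) _ (hG.le g.1.2)) (fun g => χ g.1) (fun g => hχ0 g.1)
    (fun g h => hχ g.1 h.1) L.x L.x' (L.y : (Fin 3 → ℝ) →ₗ[ℝ] ℝ)
    (L.y' : (Fin 3 → ℝ) →ₗ[ℝ] ℝ) L.hx (by
      intro h
      apply L.hy
      apply ContinuousLinearMap.ext
      intro v
      exact LinearMap.congr_fun h v) s hs (fun g => hid g.1 g.2)
  have hup := form_up h3 (wl S b hG.line) G₀ hirrN H hHN hHfi B hB1 hB2 (by
    rintro _ ⟨g, hg, rfl⟩ x y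
    exact hB3 ⟨g, hg⟩ x y)
  have hsep : B.SeparatingLeft := by
    intro v hv
    by_contra hv0
    obtain ⟨w, hw⟩ := hB2 v hv0
    exact hw (hv w)
  set bf := Pi.basisFun ℝ (Fin 3) with hbf
  refine ⟨LinearMap.toMatrix₂ bf bf B, ?_, (LinearMap.separatingLeft_iff_det_ne_zero bf).1 hsep,
    ?_⟩
  · ext i j
    rw [Matrix.transpose_apply, LinearMap.toMatrix₂_apply, LinearMap.toMatrix₂_apply]
    exact hB1 _ _
  · intro g
    obtain ⟨k, hk, h4⟩ := hup g
    refine ⟨k, hk, ?_⟩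
    have h5 : B.compl₁₂ (wl S b hG.line g) (wl S b hG.line g) = k • B := by
      ext v w
      simp only [LinearMap.compl₁₂_apply, LinearMap.smul_apply, smul_eq_mul,
        LinearMap.coe_comp, Function.comp_apply]
      exact h4 _ _
    have h6 := congrArg (LinearMap.toMatrix₂ bf bf) h5
    rw [LinearMap.toMatrix₂_compl₁₂ bf bf bf bf, map_smul] at h6
    have h7 : LinearMap.toMatrix bf bf (wl S b hG.line g) = blk (S.mat b g) := by
      rw [hbf, LinearMap.toMatrix_eq_toMatrix']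
      exact LinearMap.toMatrix'_toLin' _
    rw [h7] at h6
    exact h6

end

end Pool.AF
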