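import Pool.Agent.Helper94.AC.Defs

/-!
# The abstract setting in dimension four

A group with a homomorphism `τ` to a normed ring (the action on the base) and a homomorphism `M` to
the `4 × 4` matrices.
-/

open Set Filter Topology Matrix

set_option linter.unusedSectionVars false

namespace Pool.AF

section

variable {G R : Type*} [Group G] [NormedRing R]

/-- The hypotheses obtained from the exclusion of all the non-Lorentzian sequences. -/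
structure Four (τ : G →* R) (M : G →* Matrix (Fin 4) (Fin 4) ℝ) : Prop where
  det : ∀ g, (M g).det = 1
  dens : ∀ F : G → ℝ, IsPoly (fun g => M g) F → (∃ f, F f ≠ 0) → ∀ g, ∀ ε : ℝ, 0 < ε →
    ∃ f, ‖τ f - τ g‖ < ε ∧ F f ≠ 0
  prod : ∀ F H : G → ℝ, IsPoly (fun g => M g) F → IsPoly (fun g => M g) H →
    (∃ f, F f ≠ 0) → (∃ f, H f ≠ 0) → ∃ f, F f ≠ 0 ∧ H f ≠ 0
  fin : ∀ H : Subgroup G, H.FiniteIndex → ∀ F : G → ℝ, IsPoly (fun g => M g) F →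
    (∀ f ∈ H, F f = 0) → ∀ f, F f = 0
  span : ∀ ℓ : Matrix (Fin 4) (Fin 4) ℝ →ₗ[ℝ] ℝ, (∀ g, ℓ (M g) = 0) → ℓ = 0
  near : ∀ C ε : ℝ, 0 < ε → ∃ c, ‖τ c - 1‖ < ε ∧ C < nm (M c)
  min : ∀ C : ℝ, ∃ K : ℝ, ∀ f, ‖τ f‖ ≤ C → ‖τ f⁻¹‖ ≤ C →
    (∀ i j k l, |M f i j * M f k l - M f i l * M f k j| ≤ K * nm (M f)) ∧
      nm (M f) ≤ K * nm (M f⁻¹)

/-- Conjugation of the matrices. -/
def conjM (X : (Matrix (Fin 4) (Fin 4) ℝ)ˣ) (M : G →* Matrix (Fin 4) (Fin 4) ℝ) :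
    G →* Matrix (Fin 4) (Fin 4) ℝ where
  toFun g := (X⁻¹ : (Matrix (Fin 4) (Fin 4) ℝ)ˣ) * M g * X
  map_one' := by rw [map_one, mul_one, Units.inv_mul]
  map_mul' g h := by
    rw [map_mul]
    simp only [mul_assoc]
    rw [Units.mul_inv_cancel_left]

theorem conjM_apply (X : (Matrix (Fin 4) (Fin 4) ℝ)ˣ) (M : G →* Matrix (Fin 4) (Fin 4) ℝ) (g : G) :
    conjM X M g = (X⁻¹ : (Matrix (Fin 4) (Fin 4) ℝ)ˣ) * M g * X := rfl

/-- Limit data: a sequence tending to the identity on the base, whose matrices, divided by positive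
numbers tending to infinity, converge to matrices of rank one, and the same for the inverses. -/
structure LimM (τ : G →* R) (M : G →* Matrix (Fin 4) (Fin 4) ℝ) where
  γ : ℕ → G
  a : ℕ → ℝ
  x : Fin 4 → ℝ
  y : Fin 4 → ℝ
  x' : Fin 4 → ℝ
  y' : Fin 4 → ℝ
  pos : ∀ n, 0 < a n
  inf : Tendsto a atTop atTop
  base : Tendsto (fun n => τ (γ n)) atTop (𝓝 1)
  base' : Tendsto (fun n => τ (γ n)⁻¹) atTop (𝓝 1)
  hx : x ≠ 0
  hy : y ≠ 0
  hx' : x' ≠ 0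
  hy' : y' ≠ 0
  lim : Tendsto (fun n => (a n)⁻¹ • M (γ n)) atTop (𝓝 (Matrix.vecMulVec x y))
  lim' : Tendsto (fun n => (a n)⁻¹ • M (γ n)⁻¹) atTop (𝓝 (Matrix.vecMulVec x' y'))

/-- The Gram matrix of a hyperbolic basis. -/
def gram4 (ε : ℝ) (H : Matrix (Fin 2) (Fin 2) ℝ) : Matrix (Fin 4) (Fin 4) ℝ :=
  !![0, 0, 0, 1; 0, H 0 0, H 0 1, 0; 0, H 1 0, H 1 1, 0; ε, 0, 0, 0]

/-- The two middle indices. -/
def md : Fin 2 → Fin 4 := ![1, 2]

/-- The lower left entry. -/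
def c30 (f : Matrix (Fin 4) (Fin 4) ℝ) : ℝ := f 3 0

/-- The middle part of the first column. -/
def col0 (f : Matrix (Fin 4) (Fin 4) ℝ) : Fin 2 → ℝ := fun i => f (md i) 0

/-- The middle part of the last row. -/
def row3 (f : Matrix (Fin 4) (Fin 4) ℝ) : Fin 2 → ℝ := fun j => f 3 (md j)

/-- The Schur complement of the lower left entry, restricted to the middle indices. -/
noncomputable def schur (f : Matrix (Fin 4) (Fin 4) ℝ) : Matrix (Fin 2) (Fin 2) ℝ :=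
  Matrix.of fun i j => f (md i) (md j) - f (md i) 0 * f 3 (md j) / f 3 0

/-- The Schur complement of the upper right entry, restricted to the middle indices. -/
noncomputable def schur' (f : Matrix (Fin 4) (Fin 4) ℝ) : Matrix (Fin 2) (Fin 2) ℝ :=
  Matrix.of fun i j => f (md i) (md j) - f (md i) 3 * f 0 (md j) / f 0 3

/-- The hypotheses in a hyperbolic basis. -/
structure Hyp4 (τ : G →* R) (M : G →* Matrix (Fin 4) (Fin 4) ℝ) (ε : ℝ)
    (H σ : Matrix (Fin 2) (Fin 2) ℝ) : Prop where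
  four : Four τ M
  eps : ε = 1 ∨ ε = -1
  symm : Hᵀ = ε • H
  detH : H.det ≠ 0
  inv : ∀ g, (M g)ᵀ * gram4 ε H * M g = gram4 ε H
  sig : σᵀ * H * σ = H
  bdd : ∀ C : ℝ, ∃ K : ℝ, ∀ f, ‖τ f‖ ≤ C → ‖τ f⁻¹‖ ≤ C → c30 (M f) ≠ 0 → nm (schur (M f)) ≤ K
  mul : ∀ f g, c30 (M f) ≠ 0 → c30 (M g) ≠ 0 → ∀ δ : ℝ, 0 < δ → ∃ h, c30 (M h) ≠ 0 ∧
    ‖τ h - τ (f * g)‖ < δ ∧ nm (schur (M h) - schur (M f) * σ * schur (M g)) < δ

end

end Pool.AF
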