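import Pool.Agent.Helper94.AC.Four

/-!
# AC-14 FOURC: conjugation

The entries of `X⁻¹ * M g * X` are linear combinations of the entries of `M g` and conversely
(`IsPoly.change`, `IsPolyM.mul`, `IsPolyM.const`, `IsPolyM.self`), so `dens`, `prod`, `fin`, `span` are
inherited (for `span`: compose `ℓ` with the bijective linear map `A ↦ X⁻¹ * A * X`). The norms `nm` of
`X⁻¹ * A * X` and `A` are equivalent with constants depending only on `X`. Each `2 × 2` minor of
`X⁻¹ * A * X` is a linear combination of the `2 × 2` minors `A i j * A k l - A i l * A k j` of `A`: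
`∑_{p,q,r,s} (X⁻¹ i p * X⁻¹ k r * X q j * X s l) * (A p q * A r s - A p s * A r q)`.
-/

open Set Filter Topology Matrix

set_option linter.unusedSectionVars false

namespace Pool.AF

private theorem nm_nonneg25 (A : Matrix (Fin 4) (Fin 4) ℝ) : 0 ≤ nm A :=
  Finset.sum_nonneg fun _ _ => Finset.sum_nonneg fun _ _ => abs_nonneg _

private theorem row_le25 (A : Matrix (Fin 4) (Fin 4) ℝ) (i : Fin 4) : ∑ j, |A i j| ≤ nm A :=
  Finset.single_le_sum (f := fun i => ∑ j, |A i j|)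
    (fun _ _ => Finset.sum_nonneg fun _ _ => abs_nonneg _) (Finset.mem_univ i)

private theorem col_le25 (A : Matrix (Fin 4) (Fin 4) ℝ) (j : Fin 4) : ∑ i, |A i j| ≤ nm A :=
  Finset.sum_le_sum fun i _ => Finset.single_le_sum (f := fun j => |A i j|)
    (fun _ _ => abs_nonneg _) (Finset.mem_univ j)

private theorem nm_mul25 (A B : Matrix (Fin 4) (Fin 4) ℝ) : nm (A * B) ≤ nm A * nm B := by
  calc nm (A * B) ≤ ∑ i, ∑ j, ∑ k, |A i k| * |B k j| := by
        refine Finset.sum_le_sum fun i _ => Finset.sum_le_sum fun j _ => ?_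
        rw [Matrix.mul_apply]
        refine (Finset.abs_sum_le_sum_abs _ _).trans (le_of_eq ?_)
        exact Finset.sum_congr rfl fun k _ => abs_mul _ _
    _ = ∑ i, ∑ k, |A i k| * ∑ j, |B k j| := by
        refine Finset.sum_congr rfl fun i _ => ?_
        rw [Finset.sum_comm]
        exact Finset.sum_congr rfl fun k _ => (Finset.mul_sum _ _ _).symm
    _ ≤ ∑ i, ∑ k, |A i k| * nm B := by
        refine Finset.sum_le_sum fun i _ => Finset.sum_le_sum fun k _ => ?_
        exact mul_le_mul_of_nonneg_left (row_le25 B k) (abs_nonneg _)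
    _ = (∑ i, ∑ k, |A i k|) * nm B := by
        rw [Finset.sum_mul]
        exact Finset.sum_congr rfl fun i _ => (Finset.sum_mul _ _ _).symm

private theorem conj_nm25 (P Q A : Matrix (Fin 4) (Fin 4) ℝ) :
    nm (P * A * Q) ≤ nm P * nm Q * nm A := by
  refine (nm_mul25 _ _).trans ?_
  refine (mul_le_mul_of_nonneg_right (nm_mul25 P A) (nm_nonneg25 Q)).trans (le_of_eq ?_)
  ring

private theorem minor_eq25 (P Q A : Matrix (Fin 4) (Fin 4) ℝ) (i j k l : Fin 4) :
    (P * A * Q) i j * (P * A * Q) k l - (P * A * Q) i l * (P * A * Q) k j =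
      ∑ p, ∑ r, ∑ q, ∑ s, (P i p * P k r * Q q j * Q s l) *
        (A p q * A r s - A p s * A r q) := by
  have h1 : ∀ i j, (P * A * Q) i j = ∑ p, ∑ q, P i p * A p q * Q q j := by
    intro i j
    rw [Matrix.mul_apply, Finset.sum_comm]
    refine Finset.sum_congr rfl fun q _ => ?_
    rw [Matrix.mul_apply, Finset.sum_mul]
  have h2 : ∀ j l, (P * A * Q) i j * (P * A * Q) k l =
      ∑ p, ∑ r, ∑ q, ∑ s, (P i p * P k r * Q q j * Q s l) * (A p q * A r s) := by
    intro j l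
    rw [h1, h1, Finset.sum_mul_sum]
    refine Finset.sum_congr rfl fun p _ => Finset.sum_congr rfl fun r _ => ?_
    rw [Finset.sum_mul_sum]
    exact Finset.sum_congr rfl fun q _ => Finset.sum_congr rfl fun s _ => by ring
  rw [h2 j l, h2 l j, ← Finset.sum_sub_distrib]
  refine Finset.sum_congr rfl fun p _ => ?_
  rw [← Finset.sum_sub_distrib]
  refine Finset.sum_congr rfl fun r _ => ?_
  have h3 : ∑ q, ∑ s, (P i p * P k r * Q q l * Q s j) * (A p q * A r s) =
      ∑ q, ∑ s, (P i p * P k r * Q q j * Q s l) * (A p s * A r q) := by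
    rw [Finset.sum_comm]
    exact Finset.sum_congr rfl fun q _ => Finset.sum_congr rfl fun s _ => by ring
  rw [h3, ← Finset.sum_sub_distrib]
  refine Finset.sum_congr rfl fun q _ => ?_
  rw [← Finset.sum_sub_distrib]
  exact Finset.sum_congr rfl fun s _ => by ring

private theorem minor_le25 (P Q A : Matrix (Fin 4) (Fin 4) ℝ) (B : ℝ)
    (hB : ∀ i j k l, |A i j * A k l - A i l * A k j| ≤ B) (i j k l : Fin 4) :
    |(P * A * Q) i j * (P * A * Q) k l - (P * A * Q) i l * (P * A * Q) k j| ≤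
      (nm P * nm Q) ^ 2 * B := by
  have hB0 : 0 ≤ B := (abs_nonneg _).trans (hB 0 0 0 0)
  rw [minor_eq25]
  calc |∑ p, ∑ r, ∑ q, ∑ s, (P i p * P k r * Q q j * Q s l) * (A p q * A r s - A p s * A r q)|
      ≤ ∑ p, ∑ r, ∑ q, ∑ s, (|P i p| * |P k r| * |Q q j| * |Q s l|) * B := by
        refine (Finset.abs_sum_le_sum_abs _ _).trans (Finset.sum_le_sum fun p _ => ?_)
        refine (Finset.abs_sum_le_sum_abs _ _).trans (Finset.sum_le_sum fun r _ => ?_)
        refine (Finset.abs_sum_le_sum_abs _ _).trans (Finset.sum_le_sum fun q _ => ?_)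
        refine (Finset.abs_sum_le_sum_abs _ _).trans (Finset.sum_le_sum fun s _ => ?_)
        rw [abs_mul, abs_mul, abs_mul, abs_mul]
        exact mul_le_mul_of_nonneg_left (hB p q r s) (by positivity)
    _ = ((∑ p, |P i p|) * (∑ r, |P k r|)) * ((∑ q, |Q q j|) * (∑ s, |Q s l|)) * B := by
        rw [Finset.sum_mul_sum, Finset.sum_mul_sum]
        simp only [Finset.sum_mul]
        refine Finset.sum_congr rfl fun p _ => Finset.sum_congr rfl fun r _ => ?_
        simp only [Finset.mul_sum, Finset.sum_mul]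
        exact Finset.sum_congr rfl fun q _ => Finset.sum_congr rfl fun s _ => by ring
    _ ≤ ((nm P) * (nm P)) * ((nm Q) * (nm Q)) * B := by
        have h1 := row_le25 P i
        have h2 := row_le25 P k
        have h3 := col_le25 Q j
        have h4 := col_le25 Q l
        have e1 : 0 ≤ ∑ p, |P i p| := Finset.sum_nonneg fun _ _ => abs_nonneg _
        have e2 : 0 ≤ ∑ r, |P k r| := Finset.sum_nonneg fun _ _ => abs_nonneg _
        have e3 : 0 ≤ ∑ q, |Q q j| := Finset.sum_nonneg fun _ _ => abs_nonneg _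
        have e4 : 0 ≤ ∑ s, |Q s l| := Finset.sum_nonneg fun _ _ => abs_nonneg _
        have n1 := nm_nonneg25 P
        have n2 := nm_nonneg25 Q
        gcongr
    _ = (nm P * nm Q) ^ 2 * B := by ring

theorem Four.conj {G R : Type*} [Group G] [NormedRing R] {τ : G →* R}
    {M : G →* Matrix (Fin 4) (Fin 4) ℝ} (hF : Four τ M) (X : (Matrix (Fin 4) (Fin 4) ℝ)ˣ) :
    Four τ (conjM X M) := by
  have hpoly : IsPolyM (fun g => M g) (fun g => conjM X M g) := by
    have : (fun g => conjM X M g) =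
        fun g => ((X⁻¹ : (Matrix (Fin 4) (Fin 4) ℝ)ˣ) : Matrix (Fin 4) (Fin 4) ℝ) * M g *
          (X : Matrix (Fin 4) (Fin 4) ℝ) := rfl
    rw [this]
    exact ((IsPolyM.const _).mul IsPolyM.self).mul (IsPolyM.const _)
  have hch : ∀ {F : G → ℝ}, IsPoly (fun g => conjM X M g) F → IsPoly (fun g => M g) F :=
    fun h => IsPoly.change hpoly h
  have hback : ∀ A : Matrix (Fin 4) (Fin 4) ℝ,
      (X : Matrix (Fin 4) (Fin 4) ℝ) *
        (((X⁻¹ : (Matrix (Fin 4) (Fin 4) ℝ)ˣ) : Matrix (Fin 4) (Fin 4) ℝ) * A * X) *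
          ((X⁻¹ : (Matrix (Fin 4) (Fin 4) ℝ)ˣ) : Matrix (Fin 4) (Fin 4) ℝ) = A := by
    intro A
    simp only [mul_assoc]
    rw [Units.mul_inv, mul_one, Units.mul_inv_cancel_left]
  set a := nm (((X⁻¹ : (Matrix (Fin 4) (Fin 4) ℝ)ˣ) : Matrix (Fin 4) (Fin 4) ℝ)) with ha
  set b := nm (X : Matrix (Fin 4) (Fin 4) ℝ) with hb
  have ha0 : 0 ≤ a := nm_nonneg25 _
  have hb0 : 0 ≤ b := nm_nonneg25 _
  have hup : ∀ g, nm (conjM X M g) ≤ a * b * nm (M g) := fun g => conj_nm25 _ _ _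
  have hdown : ∀ g, nm (M g) ≤ a * b * nm (conjM X M g) := by
    intro g
    have h1 := conj_nm25 (X : Matrix (Fin 4) (Fin 4) ℝ)
      ((X⁻¹ : (Matrix (Fin 4) (Fin 4) ℝ)ˣ) : Matrix (Fin 4) (Fin 4) ℝ) (conjM X M g)
    rw [conjM_apply, hback, ← ha, ← hb] at h1
    rw [conjM_apply, mul_comm a b]
    exact h1
  refine ⟨fun g => ?_, fun F hP hne g ε hε => hF.dens F (hch hP) hne g ε hε,
    fun F H hP hQ hf hg => hF.prod F H (hch hP) (hch hQ) hf hg,
    fun H hH F hP h => hF.fin H hH F (hch hP) h, fun ℓ hℓ => ?_, fun C ε hε => ?_, fun C => ?_⟩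
  · rw [conjM_apply, Matrix.det_mul, Matrix.det_mul, hF.det g, mul_one, ← Matrix.det_mul,
      Units.inv_mul, Matrix.det_one]
  · let c : Matrix (Fin 4) (Fin 4) ℝ →ₗ[ℝ] Matrix (Fin 4) (Fin 4) ℝ :=
      { toFun := fun A => ((X⁻¹ : (Matrix (Fin 4) (Fin 4) ℝ)ˣ) : Matrix (Fin 4) (Fin 4) ℝ) * A * X
        map_add' := fun A B => by rw [mul_add, add_mul]
        map_smul' := fun t A => by
          rw [Matrix.mul_smul, Matrix.smul_mul, RingHom.id_apply] }
    have h1 : ℓ.comp c = 0 := hF.span _ (fun g => hℓ g)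
    apply LinearMap.ext
    intro B
    have h2 := LinearMap.congr_fun h1 ((X : Matrix (Fin 4) (Fin 4) ℝ) * B *
      ((X⁻¹ : (Matrix (Fin 4) (Fin 4) ℝ)ˣ) : Matrix (Fin 4) (Fin 4) ℝ))
    have h3 : c ((X : Matrix (Fin 4) (Fin 4) ℝ) * B *
        ((X⁻¹ : (Matrix (Fin 4) (Fin 4) ℝ)ˣ) : Matrix (Fin 4) (Fin 4) ℝ)) = B := by
      change ((X⁻¹ : (Matrix (Fin 4) (Fin 4) ℝ)ˣ) : Matrix (Fin 4) (Fin 4) ℝ) *
        ((X : Matrix (Fin 4) (Fin 4) ℝ) * B *
          ((X⁻¹ : (Matrix (Fin 4) (Fin 4) ℝ)ˣ) : Matrix (Fin 4) (Fin 4) ℝ)) * X = B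
      simp only [mul_assoc]
      rw [Units.inv_mul, mul_one, Units.inv_mul_cancel_left]
    rw [LinearMap.comp_apply, h3] at h2
    exact h2
  · obtain ⟨g, h1, h2⟩ := hF.near (a * b * |C|) ε hε
    refine ⟨g, h1, ?_⟩
    have h3 : a * b * |C| < a * b * nm (conjM X M g) := h2.trans_le (hdown g)
    exact (le_abs_self C).trans_lt (lt_of_mul_lt_mul_left h3 (mul_nonneg ha0 hb0))
  · obtain ⟨K, hK⟩ := hF.min C
    refine ⟨(a * b) ^ 3 * |K| + (a * b) ^ 2 * |K|, fun f h1 h2 => ?_⟩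
    obtain ⟨h3, h4⟩ := hK f h1 h2
    have e0 : 0 ≤ nm (conjM X M f) := nm_nonneg25 _
    have e1 : 0 ≤ nm (conjM X M f⁻¹) := nm_nonneg25 _
    have e2 : 0 ≤ nm (M f) := nm_nonneg25 _
    have e3 : 0 ≤ nm (M f⁻¹) := nm_nonneg25 _
    have hab : 0 ≤ a * b := mul_nonneg ha0 hb0
    have hK0 : 0 ≤ |K| := abs_nonneg K
    constructor
    · intro i j k l
      have h5 := minor_le25 (((X⁻¹ : (Matrix (Fin 4) (Fin 4) ℝ)ˣ) : Matrix (Fin 4) (Fin 4) ℝ))
        (X : Matrix (Fin 4) (Fin 4) ℝ) (M f) (K * nm (M f)) h3 i j k l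
      rw [← ha, ← hb] at h5
      refine h5.trans ?_
      calc (a * b) ^ 2 * (K * nm (M f)) ≤ (a * b) ^ 2 * (|K| * nm (M f)) := by
            gcongr
            exact le_abs_self K
        _ ≤ (a * b) ^ 2 * (|K| * (a * b * nm (conjM X M f))) := by
            gcongr
            exact hdown f
        _ = (a * b) ^ 3 * |K| * nm (conjM X M f) := by ring
        _ ≤ ((a * b) ^ 3 * |K| + (a * b) ^ 2 * |K|) * nm (conjM X M f) := by
            have : 0 ≤ (a * b) ^ 2 * |K| * nm (conjM X M f) := by positivity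
            linarith [add_mul ((a * b) ^ 3 * |K|) ((a * b) ^ 2 * |K|) (nm (conjM X M f))]
    · calc nm (conjM X M f) ≤ a * b * nm (M f) := hup f
        _ ≤ a * b * (K * nm (M f⁻¹)) := by gcongr
        _ ≤ a * b * (|K| * nm (M f⁻¹)) := by
            gcongr
            exact le_abs_self K
        _ ≤ a * b * (|K| * (a * b * nm (conjM X M f⁻¹))) := by
            gcongr
            exact hdown f⁻¹
        _ = (a * b) ^ 2 * |K| * nm (conjM X M f⁻¹) := by ring
        _ ≤ ((a * b) ^ 3 * |K| + (a * b) ^ 2 * |K|) * nm (conjM X M f⁻¹) := by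
            have : 0 ≤ (a * b) ^ 3 * |K| * nm (conjM X M f⁻¹) := by positivity
            linarith [add_mul ((a * b) ^ 3 * |K|) ((a * b) ^ 2 * |K|) (nm (conjM X M f⁻¹))]

end Pool.AF
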