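import Pool.Agent.Helper94.AC.Zar

/-!
# AC-2 LOC: existence of a locally dense normal subgroup (uses AC-1 `zar_core`)

Proof. Give `G` the Zariski topology induced by `g ↦ ker (evaluation at the entries of M g)` in
`PrimeSpectrum (MvPolynomial (ι × ι) ℝ)`: the closed sets are the common zero sets of polynomial
functions (`IsPoly`), the space is Noetherian and translations are continuous: all this is in
`Pool/Agent/Helper94/AB/Conn.lean` (private there: copy what is needed). Apply `zar_core` with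
`U n = {c ∈ N | ‖τ c - 1‖ < 1 / (n + 1)}`. (`hmul`, `hconj`: estimates in a normed ring,
`τ (a * b) - 1 = (τ a - 1) * τ b + (τ b - 1)`, `τ (g * a * g⁻¹) - 1 = τ g * (τ a - 1) * τ g⁻¹`.)
It gives `G₀`, `Z`, `n₀`.

* `dens`: let `F` be polynomial, `F ≠ 0` somewhere on `G₀`, `g ∈ G₀`, `ε > 0`. Take `n ≥ n₀` such that
  `‖τ c - 1‖ < 1 / (n + 1)` implies `‖τ (g * c) - τ g‖ < ε`. If `F` vanished at all `g * c` with
  `c ∈ U n ∩ G₀`, then the closed set `{h | F (g * h) = 0}` (`IsPoly.comp_mul`) would contain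
  `U n ∩ G₀`, hence `G₀`, and `F = 0` on `g G₀ = G₀`.
* `prod`: `G₀` is irreducible, and `{F = 0}`, `{H = 0}` are closed.
* `fin`: let `H ≤ G₀` be of finite index and `F = 0` on `H`. `G₀` is a finite union of cosets
  `g i H ⊆ closure (g i H)`, so by irreducibility `G₀ ⊆ closure (g i H)` for some `i`; then (translate
  by `(g i)⁻¹`) `G₀ ⊆ closure H` and `F = 0` on `G₀`.
* elements near the identity: given `ε`, take `n ≥ n₀` large; by `hnear` and `hτ` there are infinitely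
  many different elements in `U m` for every `m ≥ n`: choose a sequence `c k ∈ N`, `c k ≠ 1`,
  `τ (c k) → 1`, all in `Z`; two of them, `c i` and `c j` with `i < j` and `c i ≠ c j`, are in the same
  coset of `G₀` in `Z` (finitely many cosets; as `τ (c i) ≠ 1 = lim τ (c j)`, every value is taken
  only finitely often, so the sequence has infinitely many different values); then
  `(c i)⁻¹ * c j ∈ G₀` is `≠ 1` and near `1` if `i` is large.
-/

open Set

set_option linter.unusedSectionVars false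

namespace Pool.AF

section loc

variable {G ι : Type*} [Group G] [Fintype ι] [DecidableEq ι] (M : G →* Matrix ι ι ℝ)

/-- Evaluation of polynomials in the entries at `M g`. -/
private noncomputable def locEv (g : G) : MvPolynomial (ι × ι) ℝ →ₐ[ℝ] ℝ :=
  MvPolynomial.aeval (fun ij : ι × ι => M g ij.1 ij.2)

private noncomputable def locPhi (g : G) : PrimeSpectrum (MvPolynomial (ι × ι) ℝ) :=
  ⟨RingHom.ker (locEv M g), RingHom.ker_isPrime _⟩

private noncomputable def locL (h : G) : MvPolynomial (ι × ι) ℝ →ₐ[ℝ] MvPolynomial (ι × ι) ℝ :=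
  MvPolynomial.aeval (fun ij : ι × ι =>
    ∑ l, MvPolynomial.C (M h ij.1 l) * MvPolynomial.X (l, ij.2))

private noncomputable def locR (h : G) : MvPolynomial (ι × ι) ℝ →ₐ[ℝ] MvPolynomial (ι × ι) ℝ :=
  MvPolynomial.aeval (fun ij : ι × ι =>
    ∑ l, MvPolynomial.X (ij.1, l) * MvPolynomial.C (M h l ij.2))

private theorem locEv_L (h g : G) : (locEv M g).comp (locL M h) = locEv M (h * g) := by
  apply MvPolynomial.algHom_ext
  intro ij
  simp only [AlgHom.comp_apply, locL, locEv, MvPolynomial.aeval_X, map_sum, map_mul,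
    MvPolynomial.aeval_C, Matrix.mul_apply]
  rfl

private theorem locEv_R (h g : G) : (locEv M g).comp (locR M h) = locEv M (g * h) := by
  apply MvPolynomial.algHom_ext
  intro ij
  simp only [AlgHom.comp_apply, locR, locEv, MvPolynomial.aeval_X, map_sum, map_mul,
    MvPolynomial.aeval_C, Matrix.mul_apply]
  rfl

private theorem locPhi_L (h g : G) : locPhi M (h * g) =
    PrimeSpectrum.comap (locL M h).toRingHom (locPhi M g) := by
  apply PrimeSpectrum.ext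
  ext p
  change locEv M (h * g) p = 0 ↔ locEv M g (locL M h p) = 0
  rw [← locEv_L]
  rfl

private theorem locPhi_R (h g : G) : locPhi M (g * h) =
    PrimeSpectrum.comap (locR M h).toRingHom (locPhi M g) := by
  apply PrimeSpectrum.ext
  ext p
  change locEv M (g * h) p = 0 ↔ locEv M g (locR M h p) = 0
  rw [← locEv_R]
  rfl

private theorem locEv_eval (g : G) (p : MvPolynomial (ι × ι) ℝ) :
    locEv M g p = MvPolynomial.eval (fun ij : ι × ι => M g ij.1 ij.2) p := by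
  rw [locEv, MvPolynomial.aeval_def, MvPolynomial.eval₂_eq_eval_map]
  congr 1
  exact MvPolynomial.map_id p

end loc

section near

variable {G R : Type*} [Group G] [NormedRing R] (τ : G →* R)

private theorem near_mul (ε : ℝ) (hε : 0 < ε) :
    ∃ δ : ℝ, 0 < δ ∧ ∀ a b : G, ‖τ a - 1‖ < δ → ‖τ b - 1‖ < δ → ‖τ (a * b) - 1‖ < ε := by
  have h1 : 0 ≤ ‖(1 : R)‖ := norm_nonneg _
  refine ⟨min 1 (ε / (‖(1 : R)‖ + 2)), lt_min one_pos (by positivity), fun a b ha hb => ?_⟩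
  have hb1 : ‖τ b‖ ≤ ‖(1 : R)‖ + 1 := by
    have : τ b = 1 + (τ b - 1) := by abel
    rw [this]
    exact (norm_add_le _ _).trans (by linarith [hb.le.trans (min_le_left _ _)])
  have e : τ (a * b) - 1 = (τ a - 1) * τ b + (τ b - 1) := by
    rw [map_mul]
    noncomm_ring
  rw [e]
  have ha' := ha.le.trans (min_le_right _ _)
  have hb' := hb.trans_le (min_le_right _ _)
  calc ‖(τ a - 1) * τ b + (τ b - 1)‖ ≤ ‖τ a - 1‖ * ‖τ b‖ + ‖τ b - 1‖ :=
        (norm_add_le _ _).trans (add_le_add (norm_mul_le _ _) le_rfl)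
    _ ≤ ε / (‖(1 : R)‖ + 2) * (‖(1 : R)‖ + 1) + ‖τ b - 1‖ :=
        add_le_add (mul_le_mul ha' hb1 (norm_nonneg _) (by positivity)) le_rfl
    _ < ε / (‖(1 : R)‖ + 2) * (‖(1 : R)‖ + 1) + ε / (‖(1 : R)‖ + 2) := by linarith
    _ = ε := by field_simp; ring

private theorem near_left (g : G) (ε : ℝ) (hε : 0 < ε) :
    ∃ δ : ℝ, 0 < δ ∧ ∀ c : G, ‖τ c - 1‖ < δ → ‖τ (g * c) - τ g‖ < ε := by
  have h1 : 0 ≤ ‖τ g‖ := norm_nonneg _
  refine ⟨ε / (‖τ g‖ + 1), by positivity, fun c hc => ?_⟩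
  have e : τ (g * c) - τ g = τ g * (τ c - 1) := by
    rw [map_mul]
    noncomm_ring
  rw [e]
  calc ‖τ g * (τ c - 1)‖ ≤ ‖τ g‖ * ‖τ c - 1‖ := norm_mul_le _ _
    _ ≤ ‖τ g‖ * (ε / (‖τ g‖ + 1)) := mul_le_mul_of_nonneg_left hc.le h1
    _ < (‖τ g‖ + 1) * (ε / (‖τ g‖ + 1)) := by
        have : 0 < ε / (‖τ g‖ + 1) := by positivity
        nlinarith
    _ = ε := by field_simp

private theorem near_conj (g : G) (ε : ℝ) (hε : 0 < ε) :
    ∃ δ : ℝ, 0 < δ ∧ ∀ a : G, ‖τ a - 1‖ < δ → ‖τ (g * a * g⁻¹) - 1‖ < ε := by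
  have h1 : 0 ≤ ‖τ g‖ := norm_nonneg _
  have h2 : 0 ≤ ‖τ g⁻¹‖ := norm_nonneg _
  refine ⟨ε / (‖τ g‖ * ‖τ g⁻¹‖ + 1), by positivity, fun a ha => ?_⟩
  have e : τ (g * a * g⁻¹) - 1 = τ g * (τ a - 1) * τ g⁻¹ := by
    have h3 : τ g * τ g⁻¹ = 1 := by rw [← map_mul, mul_inv_cancel, map_one]
    rw [map_mul, map_mul, mul_sub, sub_mul, mul_one, h3]
  rw [e]
  calc ‖τ g * (τ a - 1) * τ g⁻¹‖ ≤ ‖τ g‖ * ‖τ a - 1‖ * ‖τ g⁻¹‖ :=
        (norm_mul_le _ _).trans (mul_le_mul_of_nonneg_right (norm_mul_le _ _) h2)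
    _ = ‖τ g‖ * ‖τ g⁻¹‖ * ‖τ a - 1‖ := by ring
    _ ≤ ‖τ g‖ * ‖τ g⁻¹‖ * (ε / (‖τ g‖ * ‖τ g⁻¹‖ + 1)) :=
        mul_le_mul_of_nonneg_left ha.le (by positivity)
    _ < (‖τ g‖ * ‖τ g⁻¹‖ + 1) * (ε / (‖τ g‖ * ‖τ g⁻¹‖ + 1)) := by
        have : 0 < ε / (‖τ g‖ * ‖τ g⁻¹‖ + 1) := by positivity
        nlinarith
    _ = ε := by field_simp

private theorem near_inv (ε : ℝ) (hε : 0 < ε) :
    ∃ δ : ℝ, 0 < δ ∧ ∀ a b : G, ‖τ a - 1‖ < δ → ‖τ b - 1‖ < δ → ‖τ (a⁻¹ * b) - 1‖ < ε := by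
  have h1 : 0 ≤ ‖(1 : R)‖ := norm_nonneg _
  refine ⟨min (1 / 2) (ε / (4 * (‖(1 : R)‖ + 1))), lt_min (by norm_num) (by positivity),
    fun a b ha hb => ?_⟩
  have h3 : τ a * τ a⁻¹ = 1 := by rw [← map_mul, mul_inv_cancel, map_one]
  have h4 : τ a⁻¹ * τ a = 1 := by rw [← map_mul, inv_mul_cancel, map_one]
  have ha1 := ha.le.trans (min_le_left _ _)
  have ha2 := ha.trans_le (min_le_right _ _)
  have hb2 := hb.trans_le (min_le_right _ _)
  have hi : ‖τ a⁻¹‖ ≤ 2 * ‖(1 : R)‖ := by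
    have e : τ a⁻¹ = 1 - (τ a - 1) * τ a⁻¹ := by
      rw [sub_mul, one_mul, h3]
      abel
    have h5 : ‖τ a⁻¹‖ ≤ ‖(1 : R)‖ + 1 / 2 * ‖τ a⁻¹‖ := by
      conv_lhs => rw [e]
      refine (norm_sub_le _ _).trans (add_le_add le_rfl ((norm_mul_le _ _).trans ?_))
      exact mul_le_mul_of_nonneg_right ha1 (norm_nonneg _)
    linarith
  have e : τ (a⁻¹ * b) - 1 = τ a⁻¹ * ((τ b - 1) - (τ a - 1)) := by
    rw [map_mul, sub_sub_sub_cancel_right, mul_sub, h4]
  rw [e]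
  calc ‖τ a⁻¹ * ((τ b - 1) - (τ a - 1))‖ ≤ ‖τ a⁻¹‖ * (‖τ b - 1‖ + ‖τ a - 1‖) :=
        (norm_mul_le _ _).trans (mul_le_mul_of_nonneg_left (norm_sub_le _ _) (norm_nonneg _))
    _ ≤ 2 * ‖(1 : R)‖ * (ε / (4 * (‖(1 : R)‖ + 1)) + ε / (4 * (‖(1 : R)‖ + 1))) :=
        mul_le_mul hi (by linarith) (by positivity) (by positivity)
    _ = ε * (‖(1 : R)‖ / (‖(1 : R)‖ + 1)) := by field_simp; ring
    _ < ε * 1 := by
        refine mul_lt_mul_of_pos_left ?_ hε
        rw [div_lt_one (by positivity)]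
        linarith
    _ = ε := mul_one ε

end near

theorem exists_loc {G R ι : Type*} [Group G] [NormedRing R] [Fintype ι] [DecidableEq ι]
    (τ : G →* R) (hτ : Function.Injective τ) (M : G →* Matrix ι ι ℝ) (N : Subgroup G) [N.Normal]
    (hnear : ∀ ε : ℝ, 0 < ε → ∃ c ∈ N, c ≠ 1 ∧ ‖τ c - 1‖ < ε) :
    ∃ G₀ : Subgroup G, G₀ ≤ N ∧ G₀.Normal ∧ Loc τ M G₀ ∧
      ∀ ε : ℝ, 0 < ε → ∃ c ∈ G₀, c ≠ 1 ∧ ‖τ c - 1‖ < ε := by
  letI : TopologicalSpace G := TopologicalSpace.induced (locPhi M) inferInstance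
  have hind : Topology.IsInducing (locPhi M) := ⟨rfl⟩
  have : TopologicalSpace.NoetherianSpace G := hind.noetherianSpace
  have hL : ∀ h : G, Continuous fun g : G => h * g := by
    intro h
    rw [hind.continuous_iff]
    have : locPhi M ∘ (fun g : G => h * g) =
        (PrimeSpectrum.comap (locL M h).toRingHom) ∘ locPhi M := by
      funext g
      exact locPhi_L M h g
    rw [this]
    exact (PrimeSpectrum.continuous_comap _).comp hind.continuous
  have hR : ∀ h : G, Continuous fun g : G => g * h := by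
    intro h
    rw [hind.continuous_iff]
    have : locPhi M ∘ (fun g : G => g * h) =
        (PrimeSpectrum.comap (locR M h).toRingHom) ∘ locPhi M := by
      funext g
      exact locPhi_R M h g
    rw [this]
    exact (PrimeSpectrum.continuous_comap _).comp hind.continuous
  have hcl : ∀ F : G → ℝ, IsPoly (fun g => M g) F → IsClosed {g : G | F g = 0} := by
    rintro F ⟨p, hp⟩
    have : {g : G | F g = 0} = locPhi M ⁻¹' (PrimeSpectrum.zeroLocus {p}) := by
      ext g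
      rw [Set.mem_preimage, PrimeSpectrum.mem_zeroLocus, Set.singleton_subset_iff]
      change F g = 0 ↔ locEv M g p = 0
      rw [locEv_eval, hp]
    rw [this]
    exact (PrimeSpectrum.isClosed_zeroLocus _).preimage hind.continuous
  let U : ℕ → Set G := fun n => {c | c ∈ N ∧ ‖τ c - 1‖ < 1 / ((n : ℝ) + 1)}
  have hUm : ∀ m n : ℕ, m ≤ n → U n ⊆ U m := by
    intro m n hmn c hc
    refine ⟨hc.1, hc.2.trans_le ?_⟩
    exact one_div_le_one_div_of_le (by positivity) (by exact_mod_cast Nat.succ_le_succ hmn)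
  have hU1 : ∀ n, (1 : G) ∈ U n := by
    intro n
    refine ⟨N.one_mem, ?_⟩
    rw [map_one, sub_self, norm_zero]
    positivity
  have hUδ : ∀ δ : ℝ, 0 < δ → ∃ m : ℕ, ∀ c ∈ U m, ‖τ c - 1‖ < δ := by
    intro δ hδ
    obtain ⟨m, hm⟩ := exists_nat_one_div_lt hδ
    exact ⟨m, fun c hc => hc.2.trans hm⟩
  obtain ⟨G₀, Z, n₀, hGZ, hZN, hGn, hfin, hUZ, hirr, hdense⟩ := zar_core hL hR N U
    (fun n c hc => hc.1) hU1 (fun n => hUm n (n + 1) (Nat.le_succ n))
    (fun n => by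
      obtain ⟨δ, hδ, h⟩ := near_mul τ (1 / ((n : ℝ) + 1)) (by positivity)
      obtain ⟨m, hm⟩ := hUδ δ hδ
      exact ⟨m, fun a ha b hb => ⟨N.mul_mem ha.1 hb.1, h a b (hm a ha) (hm b hb)⟩⟩)
    (fun g n => by
      obtain ⟨δ, hδ, h⟩ := near_conj τ g (1 / ((n : ℝ) + 1)) (by positivity)
      obtain ⟨m, hm⟩ := hUδ δ hδ
      exact ⟨m, fun a ha => ⟨Subgroup.Normal.conj_mem inferInstance a ha.1 g, h a (hm a ha)⟩⟩)
  refine ⟨G₀, hGZ.trans hZN, hGn, ⟨?_, ?_, ?_⟩, ?_⟩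
  · -- dens
    rintro F hF ⟨f, hf, hFf⟩ g hg ε hε
    obtain ⟨δ, hδ, h⟩ := near_left τ g ε hε
    obtain ⟨m, hm⟩ := hUδ δ hδ
    by_contra hcon
    push Not at hcon
    have h1 : U (max n₀ m) ∩ (G₀ : Set G) ⊆ {x | F (g * x * 1) = 0} := by
      rintro c ⟨hc, hcG⟩
      change F (g * c * 1) = 0
      rw [mul_one]
      exact hcon (g * c) (G₀.mul_mem hg hcG) (h c (hm c (hUm _ _ (le_max_right _ _) hc)))
    have h2 := closure_minimal h1 (hcl _ (hF.comp_mul g 1))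
    have h3 := h2 (hdense _ (le_max_left n₀ m) (G₀.mul_mem (G₀.inv_mem hg) hf))
    change F (g * (g⁻¹ * f) * 1) = 0 at h3
    rw [mul_one, mul_inv_cancel_left] at h3
    exact hFf h3
  · -- prod
    rintro F H hF hH ⟨f, hf, hFf⟩ ⟨h, hh, hHh⟩
    by_contra hcon
    push Not at hcon
    rcases (isPreirreducible_iff_isClosed_union_isClosed.1 hirr.2) _ _ (hcl F hF) (hcl H hH)
      (fun x hx => by
        by_cases h0 : F x = 0
        · exact Or.inl h0
        · exact Or.inr (hcon x hx h0)) with h1 | h1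
    · exact hFf (h1 hf)
    · exact hHh (h1 hh)
  · -- fin
    intro H hHG hidx F hF hF0 f hf
    classical
    have hfi : Finite (↥G₀ ⧸ H.subgroupOf G₀) := by
      rw [Subgroup.relIndex] at hidx
      have : (H.subgroupOf G₀).FiniteIndex := ⟨hidx⟩
      exact Subgroup.finite_quotient_of_finiteIndex
    cases nonempty_fintype (↥G₀ ⧸ H.subgroupOf G₀)
    have hsU := (isIrreducible_iff_sUnion_isClosed.1 hirr)
      (Finset.univ.image fun q : ↥G₀ ⧸ H.subgroupOf G₀ =>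
        closure ((fun h : G => ((Quotient.out q : ↥G₀) : G) * h) '' (H : Set G)))
      (by
        intro z hz
        obtain ⟨q, -, rfl⟩ := Finset.mem_image.1 hz
        exact isClosed_closure)
      (by
        intro x hx
        let q : ↥G₀ ⧸ H.subgroupOf G₀ := ((⟨x, hx⟩ : ↥G₀) : ↥G₀ ⧸ H.subgroupOf G₀)
        refine Set.mem_sUnion.2 ⟨closure ((fun h : G => ((Quotient.out q : ↥G₀) : G) * h) ''
          (H : Set G)), Finset.mem_coe.2 (Finset.mem_image.2 ⟨q, Finset.mem_univ _, rfl⟩), ?_⟩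
        apply subset_closure
        have h1 : ((Quotient.out q : ↥G₀) : ↥G₀ ⧸ H.subgroupOf G₀) =
            ((⟨x, hx⟩ : ↥G₀) : ↥G₀ ⧸ H.subgroupOf G₀) := Quotient.out_eq' q
        have h2 := QuotientGroup.eq.1 h1
        rw [Subgroup.mem_subgroupOf] at h2
        exact ⟨_, h2, by simp⟩)
    obtain ⟨z, hz, hGz⟩ := hsU
    obtain ⟨q, -, rfl⟩ := Finset.mem_image.1 hz
    have h1 : (fun h : G => ((Quotient.out q : ↥G₀) : G) * h) '' (H : Set G) ⊆
        {x | F (((Quotient.out q : ↥G₀) : G)⁻¹ * x * 1) = 0} := by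
      rintro _ ⟨h, hh, rfl⟩
      change F (((Quotient.out q : ↥G₀) : G)⁻¹ * (((Quotient.out q : ↥G₀) : G) * h) * 1) = 0
      rw [mul_one, inv_mul_cancel_left]
      exact hF0 h hh
    have h2 := closure_minimal h1 (hcl _ (hF.comp_mul _ 1))
    have h3 := h2 (hGz (G₀.mul_mem (SetLike.coe_mem (Quotient.out q : ↥G₀)) hf))
    change F (((Quotient.out q : ↥G₀) : G)⁻¹ * (((Quotient.out q : ↥G₀) : G) * f) * 1) = 0 at h3
    rwa [mul_one, inv_mul_cancel_left] at h3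
  · -- elements near the identity
    intro ε hε
    obtain ⟨δ, hδ, h⟩ := near_inv τ ε hε
    obtain ⟨m, hm⟩ := hUδ δ hδ
    have hinf : (U (max n₀ m)).Infinite := by
      intro hfinite
      have hpos : ∃ r : ℝ, 0 < r ∧ r ≤ 1 / (((max n₀ m : ℕ) : ℝ) + 1) ∧
          ∀ c ∈ U (max n₀ m), c ≠ 1 → r ≤ ‖τ c - 1‖ := by
        classical
        have hne : ∀ c : G, c ≠ 1 → 0 < ‖τ c - 1‖ := by
          intro c hc
          rw [norm_pos_iff, sub_ne_zero]
          intro h0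
          exact hc (hτ (by rw [h0, map_one]))
        let s := hfinite.toFinset.filter (fun c => c ≠ 1)
        by_cases hs : s.Nonempty
        · obtain ⟨c₀, hc₀, hmin⟩ := s.exists_min_image (fun c => ‖τ c - 1‖) hs
          refine ⟨min ‖τ c₀ - 1‖ (1 / (((max n₀ m : ℕ) : ℝ) + 1)),
            lt_min (hne c₀ (Finset.mem_filter.1 hc₀).2) (by positivity), min_le_right _ _,
            fun c hc hc1 => (min_le_left _ _).trans (hmin c (Finset.mem_filter.2
              ⟨hfinite.mem_toFinset.2 hc, hc1⟩))⟩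
        · refine ⟨1 / (((max n₀ m : ℕ) : ℝ) + 1), by positivity, le_rfl, fun c hc hc1 => ?_⟩
          exact absurd ⟨c, Finset.mem_filter.2 ⟨hfinite.mem_toFinset.2 hc, hc1⟩⟩ hs
      obtain ⟨r, hr, hr1, hr2⟩ := hpos
      obtain ⟨c, hc, hc1, hcr⟩ := hnear r hr
      exact absurd hcr (not_lt.2 (hr2 c ⟨hc, hcr.trans_le hr1⟩ hc1))
    have hfi : Finite (↥Z ⧸ G₀.subgroupOf Z) := by
      rw [Subgroup.relIndex] at hfin
      have : (G₀.subgroupOf Z).FiniteIndex := ⟨hfin⟩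
      exact Subgroup.finite_quotient_of_finiteIndex
    have hUZ' : ∀ c ∈ U (max n₀ m), c ∈ Z := fun c hc => hUZ (hUm _ _ (le_max_left _ _) hc)
    have : Infinite ↥(U (max n₀ m)) := hinf.to_subtype
    obtain ⟨a, b, hab, hq⟩ := Finite.exists_ne_map_eq_of_infinite
      (fun c : ↥(U (max n₀ m)) => ((⟨c, hUZ' c c.2⟩ : ↥Z) : ↥Z ⧸ G₀.subgroupOf Z))
    have h2 := QuotientGroup.eq.1 hq
    rw [Subgroup.mem_subgroupOf] at h2
    refine ⟨(a : G)⁻¹ * b, h2, ?_, h _ _ (hm _ (hUm _ _ (le_max_right _ _) a.2))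
      (hm _ (hUm _ _ (le_max_right _ _) b.2))⟩
    intro h0
    exact hab (Subtype.ext (inv_mul_eq_one.1 h0))

end Pool.AF
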