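import Pool.Agent.Helper94.AC.CplxK
import Pool.Agent.Helper94.AC.Cliff4
import Pool.Agent.Helper94.AC.LocEx

/-!
# AC-26 FULLEX: existence of the group `G₀` (uses the stubs AC-2, AC-3, AC-25)

`nm_mat`: norms on the finite-dimensional space `S.U →L[ℝ] S.U` are equivalent.

`exists_full`. `exists_loc` (AC-2) with `τ = S.base` (injective: `base_inj`), `M = S.mat b`,
`N = commutator D.Γ` (normal), `hnear` from `near_comm`, gives `G₀ ≤ commutator D.Γ`, normal, with `Loc` and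
elements `≠ 1` arbitrarily near the identity. By `near_big` (`Pool/Agent/Helper94/AB/Near.lean`), for all
`C` and `ε > 0` there is `c ∈ G₀` with `‖S.base c - 1‖ < ε` and `C < ‖S.rep c‖`: take `c ≠ 1` in `G₀` so near
that `‖S.base c - 1‖ < ε`, `‖S.base c⁻¹ - 1‖ < ε` (if `‖S.base c - 1‖ ≤ 1/2` then
`‖S.base c⁻¹‖ ≤ 2 ‖1‖`, and `S.base c⁻¹ - 1 = S.base c⁻¹ * (1 - S.base c)`) and
`C < ‖S.rep c‖ ∨ C < ‖S.rep c⁻¹‖`; in the second case replace `c` by `c⁻¹`. With `nm_mat` this gives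
`InvSub.Full.near`. Apply `cliff_four` (AC-3) to `ρ = S.lrep` (`hirr : S.Irr`) and `N = G₀`
(`det_commutator` for the determinants):
* bounded: then `‖S.rep δ‖` is bounded on `G₀` (all the matrix coefficients are), contradiction;
* complex: contradiction with `cplx_kill` (AC-25);
* span `⊤`: for a linear functional `ℓ` of matrices vanishing on all `S.mat b g`, `g ∈ G₀`, the functional
  `ℓ ∘ (LinearMap.toMatrix b b)` vanishes on the span of the `S.lrep g`, which is `⊤`; so `ℓ = 0`.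
-/

open Set Filter Topology Matrix

set_option linter.unusedSectionVars false

namespace Pool.AF

open Pool.SV

section

variable {E : Type*} [NormedAddCommGroup E] [NormedSpace ℝ E] [FiniteDimensional ℝ E]
  {D : Geo E}

private theorem mat_entry (S : InvSub D) {d : ℕ} (b : Module.Basis (Fin d) ℝ S.U) (g : D.Γ)
    (i j : Fin d) : S.mat b g i j = b.repr (S.lrep g (b j)) i := by
  rw [S.mat_apply, LinearMap.toMatrix_apply]

theorem nm_mat (S : InvSub D) {d : ℕ} (b : Module.Basis (Fin d) ℝ S.U) :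
    ∃ K : ℝ, 0 < K ∧ ∀ g : D.Γ, ‖S.rep g‖ ≤ K * nm (S.mat b g) ∧ nm (S.mat b g) ≤ K * ‖S.rep g‖ := by
  let c : Fin d → (S.U →L[ℝ] ℝ) := fun i => LinearMap.toContinuousLinearMap (b.coord i)
  have hc : ∀ i (u : S.U), |b.repr u i| ≤ ‖c i‖ * ‖u‖ := by
    intro i u
    have h := (c i).le_opNorm u
    rwa [Real.norm_eq_abs] at h
  set K : ℝ := ∑ i, ∑ j, ‖c i‖ * ‖b j‖ with hK
  have hK0 : 0 ≤ K := Finset.sum_nonneg (fun i _ => Finset.sum_nonneg (fun j _ => by positivity))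
  have hKij : ∀ i j, ‖c i‖ * ‖b j‖ ≤ K := by
    intro i j
    calc ‖c i‖ * ‖b j‖ ≤ ∑ j, ‖c i‖ * ‖b j‖ :=
          Finset.single_le_sum (f := fun j => ‖c i‖ * ‖b j‖) (fun j _ => by positivity)
            (Finset.mem_univ j)
      _ ≤ K := Finset.single_le_sum (f := fun i => ∑ j, ‖c i‖ * ‖b j‖)
            (fun i _ => Finset.sum_nonneg (fun j _ => by positivity)) (Finset.mem_univ i)
  refine ⟨K + 1, by linarith, fun g => ⟨?_, ?_⟩⟩
  · have hnm : 0 ≤ nm (S.mat b g) :=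
      Finset.sum_nonneg (fun i _ => Finset.sum_nonneg (fun j _ => abs_nonneg _))
    refine ContinuousLinearMap.opNorm_le_bound _ (by positivity) (fun u => ?_)
    have h1 : S.rep g u = ∑ j, ∑ i, (b.repr u j * S.mat b g i j) • b i := by
      change S.lrep g u = _
      conv_lhs => rw [← b.sum_repr u]
      rw [map_sum]
      refine Finset.sum_congr rfl (fun j _ => ?_)
      rw [map_smul]
      conv_lhs => rw [← b.sum_repr (S.lrep g (b j))]
      rw [Finset.smul_sum]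
      refine Finset.sum_congr rfl (fun i _ => ?_)
      rw [smul_smul, mat_entry]
    rw [h1]
    have h2 : ∀ j i, ‖(b.repr u j * S.mat b g i j) • b i‖ ≤ K * |S.mat b g i j| * ‖u‖ := by
      intro j i
      rw [norm_smul, Real.norm_eq_abs, abs_mul]
      calc |b.repr u j| * |S.mat b g i j| * ‖b i‖
          ≤ (‖c j‖ * ‖u‖) * |S.mat b g i j| * ‖b i‖ := by
            have := hc j u
            gcongr
        _ = (‖c j‖ * ‖b i‖) * |S.mat b g i j| * ‖u‖ := by ring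
        _ ≤ K * |S.mat b g i j| * ‖u‖ := by
            have := hKij j i
            gcongr
    calc ‖∑ j, ∑ i, (b.repr u j * S.mat b g i j) • b i‖
        ≤ ∑ j, ∑ i, K * |S.mat b g i j| * ‖u‖ :=
          (norm_sum_le _ _).trans (Finset.sum_le_sum (fun j _ =>
            (norm_sum_le _ _).trans (Finset.sum_le_sum (fun i _ => h2 j i))))
      _ = K * nm (S.mat b g) * ‖u‖ := by
          rw [Finset.sum_comm]
          unfold nm
          simp only [Finset.mul_sum, Finset.sum_mul]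
      _ ≤ (K + 1) * nm (S.mat b g) * ‖u‖ := by
          gcongr
          linarith
  · have h2 : ∀ i j, |S.mat b g i j| ≤ ‖c i‖ * ‖b j‖ * ‖S.rep g‖ := by
      intro i j
      rw [mat_entry]
      refine (hc i _).trans ?_
      have h3 : ‖S.lrep g (b j)‖ ≤ ‖S.rep g‖ * ‖b j‖ := (S.rep g).le_opNorm (b j)
      calc ‖c i‖ * ‖S.lrep g (b j)‖ ≤ ‖c i‖ * (‖S.rep g‖ * ‖b j‖) := by gcongr
        _ = _ := by ring
    calc nm (S.mat b g) ≤ ∑ i, ∑ j, ‖c i‖ * ‖b j‖ * ‖S.rep g‖ :=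
          Finset.sum_le_sum (fun i _ => Finset.sum_le_sum (fun j _ => h2 i j))
      _ = K * ‖S.rep g‖ := by
          rw [hK]
          simp only [Finset.sum_mul]
      _ ≤ (K + 1) * ‖S.rep g‖ := by
          gcongr
          linarith

private theorem base_inv_near {Γ R : Type*} [Group Γ] [NormedRing R] (τ : Γ →* R) (ε : ℝ)
    (hε : 0 < ε) : ∃ δ : ℝ, 0 < δ ∧ ∀ g : Γ, ‖τ g - 1‖ < δ → ‖τ g - 1‖ < ε ∧ ‖τ g⁻¹ - 1‖ < ε := by
  have hM : 0 ≤ ‖(1 : R)‖ := norm_nonneg _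
  refine ⟨min (1 / 2) (min ε (ε / (2 * ‖(1 : R)‖ + 1))), by positivity, fun g hg => ?_⟩
  have h1 := hg.trans_le (min_le_left _ _)
  have h2 := (hg.trans_le (min_le_right _ _)).trans_le (min_le_left _ _)
  have h3 := (hg.trans_le (min_le_right _ _)).trans_le (min_le_right _ _)
  have e1 : τ g⁻¹ * τ g = 1 := by rw [← map_mul, inv_mul_cancel, map_one]
  have e2 : τ g⁻¹ = 1 - τ g⁻¹ * (τ g - 1) := by
    rw [mul_sub, e1, mul_one]
    abel
  have e3 : ‖τ g⁻¹‖ ≤ 2 * ‖(1 : R)‖ := by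
    have h5 : ‖τ g⁻¹‖ ≤ ‖(1 : R)‖ + ‖τ g⁻¹‖ * (1 / 2) := by
      conv_lhs => rw [e2]
      refine (norm_sub_le _ _).trans (add_le_add le_rfl ((norm_mul_le _ _).trans ?_))
      exact mul_le_mul_of_nonneg_left h1.le (norm_nonneg _)
    linarith
  refine ⟨h2, ?_⟩
  have e4 : τ g⁻¹ - 1 = - (τ g⁻¹ * (τ g - 1)) := by
    rw [mul_sub, e1, mul_one]
    abel
  rw [e4, norm_neg]
  calc ‖τ g⁻¹ * (τ g - 1)‖ ≤ ‖τ g⁻¹‖ * ‖τ g - 1‖ := norm_mul_le _ _
    _ ≤ 2 * ‖(1 : R)‖ * (ε / (2 * ‖(1 : R)‖ + 1)) :=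
        mul_le_mul e3 h3.le (norm_nonneg _) (by positivity)
    _ < (2 * ‖(1 : R)‖ + 1) * (ε / (2 * ‖(1 : R)‖ + 1)) := by
        have : 0 < ε / (2 * ‖(1 : R)‖ + 1) := by positivity
        nlinarith
    _ = ε := by field_simp

theorem exists_full (S : InvSub D) (h4 : Module.finrank ℝ S.U = 4) (hirr : S.Irr)
    (hnd : ¬ DiscMod (hatHom D.Γ) S.e) (hM : modSub D S.U = ⊥) (hab : ¬ HasAbNormal D.Γ)
    (b : Module.Basis (Fin 4) ℝ S.U) : ∃ G₀ : Subgroup D.Γ, G₀.Normal ∧ S.Full b G₀ := by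
  obtain ⟨G₀, hle, hnorm, hloc, hnear1⟩ := exists_loc S.base (base_inj S hM) (S.mat b)
    (commutator D.Γ) (near_comm S hnd hM hab)
  have hnear : ∀ C ε : ℝ, 0 < ε → ∃ c ∈ G₀, ‖S.base c - 1‖ < ε ∧ C < ‖S.rep c‖ := by
    intro C ε hε
    obtain ⟨ε₁, hε₁, hbig⟩ := near_big S hM hab C
    obtain ⟨δ, hδ, h1⟩ := base_inv_near S.base (min ε ε₁) (lt_min hε hε₁)
    obtain ⟨c, hc, hc1, hcδ⟩ := hnear1 δ hδ
    obtain ⟨h2, h3⟩ := h1 c hcδ
    rcases hbig c hc1 (h2.trans_le (min_le_right _ _)) with h4 | h4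
    · exact ⟨c, hc, h2.trans_le (min_le_left _ _), h4⟩
    · exact ⟨c⁻¹, G₀.inv_mem hc, h3.trans_le (min_le_left _ _), h4⟩
  obtain ⟨K, hK, hKn⟩ := nm_mat S b
  have hnear' : ∀ C ε : ℝ, 0 < ε → ∃ c ∈ G₀, ‖S.base c - 1‖ < ε ∧ C < nm (S.mat b c) := by
    intro C ε hε
    obtain ⟨c, hc, h1, h2⟩ := hnear (K * C) ε hε
    refine ⟨c, hc, h1, ?_⟩
    have h3 := h2.trans_le (hKn c).1
    exact lt_of_mul_lt_mul_left h3 hK.le
  refine ⟨G₀, hnorm, hle, hloc, ?_, hnear'⟩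
  rcases cliff_four h4 S.lrep hirr G₀ (fun δ hδ => det_commutator S.lrep δ (hle hδ)) with
    hb | ⟨J, hJ, hcomm, hP⟩ | hsp
  · exfalso
    choose C hC using fun ij : Fin 4 × Fin 4 => hb (b.coord ij.1) (b ij.2)
    obtain ⟨c, hc, -, h2⟩ := hnear' (∑ i, ∑ j, C (i, j)) 1 one_pos
    refine absurd h2 (not_lt.2 (Finset.sum_le_sum (fun i _ => Finset.sum_le_sum (fun j _ => ?_))))
    rw [mat_entry]
    exact hC (i, j) c hc
  · exact absurd (cplx_kill S h4 G₀ hle b hloc hnear J hJ hcomm hP) not_false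
  · intro ℓ hℓ
    have h1 : (⊤ : Submodule ℝ (S.U →ₗ[ℝ] S.U)) ≤
        LinearMap.ker (ℓ ∘ₗ (LinearMap.toMatrix b b).toLinearMap) := by
      rw [← hsp, Submodule.span_le]
      rintro _ ⟨g, hg, rfl⟩
      exact hℓ g hg
    refine LinearMap.ext (fun A => ?_)
    have h2 : (LinearMap.toMatrix b b).symm A ∈
        LinearMap.ker (ℓ ∘ₗ (LinearMap.toMatrix b b).toLinearMap) := h1 Submodule.mem_top
    rw [LinearMap.mem_ker, LinearMap.comp_apply, LinearEquiv.coe_coe,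
      LinearEquiv.apply_symm_apply] at h2
    rw [h2]
    rfl

end

end Pool.AF
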