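import Pool.Agent.Helper94.AC.Schur
import Pool.Agent.Helper94.AC.Coset

/-!
# AC-23 GEN: the form is Lorentzian (uses AC-19 `schur_iso`, `schur_mul`, `schur_refl`, AC-22)

`pow_unbdd`: the characteristic polynomial `t ^ 2 - (trace) t + 1` has two real roots `μ`, `μ⁻¹` with
`|μ| > 1`, so `T` has an eigenvector `v` with `T v = μ v` and `T ^ n v = μ ^ n v` is unbounded.

`gen_bdd`: apply `coset_bdd` to `Q = {f | c30 (M f) ≠ 0}` and `L f = σ * schur (M f)`. `hQ`: `Four.dens`, the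
function `f ↦ c30 (M f)` is polynomial and not identically zero (`Four.span`). `hdet`:
`schur_iso` and `Hyp4.sig` (`det H ≠ 0`). `hbd`: `Hyp4.bdd`. `hmul`: `Hyp4.mul` (multiply by `σ`).
`σ` is invertible, so `(L f₁)⁻¹ * L (f₁ * g) = (schur f₁)⁻¹ * schur (f₁ * g) = T f₁ g * schur g` by
`schur_mul`, where `T f g = 1 + (ε * λ) • v (v ᵥ* H)` with `v = tv H (M f) (M g)`,
`λ = c30 (M f) * c30 (M g) / c30 (M (f * g))`, and the product is `T f₁ g * (T f₀ g)⁻¹`.

`gen_pick`: fix `g` with `c30 (M g) ≠ 0` (`Four.span`). For `f ∈ G` let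
`w f = c30 (M f) • col0 (M g) - c30 (M g) • H⁻¹ *ᵥ row3 (M f)`; if `c30 (M f) ≠ 0` then
`w f = (c30 (M f) * c30 (M g)) • tv H (M f) (M g)`. The components of `w f` are linear functionals of
`M f`. For `u ≠ 0` the functional `f ↦ w f ⬝ᵥ u` is not zero on all matrices (take the
matrix `A` with `c30 A = 0` and `row3 A` such that `(H⁻¹ *ᵥ row3 A) ⬝ᵥ u ≠ 0`), so by `Four.span` it is not
zero at some `f ∈ G`. The functions `f ↦ c30 (M f)` and `f ↦ c30 (M (f * g))` are polynomial and not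
identically zero. By `Four.prod` finitely many of these conditions can be satisfied by one `f`.

`hyp4_lor`. Case `ε = -1`: `H` is alternating, `vᵀ H v = 0`. Choose `f 0` with `c30 (M (f 0)) ≠ 0`,
`c30 (M (f 0 * g)) ≠ 0`, `w (f 0) ≠ 0`; then `f 1` with the same conditions and
`w (f 1) ⬝ᵥ H *ᵥ w (f 0) ≠ 0`; then `f 2` with `w (f 2) ⬝ᵥ H *ᵥ w (f i) ≠ 0` for `i = 0, 1`. Two of
the three numbers `λ i = c30 (M (f i)) * c30 (M g) / c30 (M (f i * g)) ≠ 0` have the same sign, say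
those of `i ≠ j`. The matrix `T (f i) g * (T (f j) g)⁻¹` has determinant one and, as
`(T (f j) g)⁻¹ = 1 + λ j v vᵀ H`, trace `2 + λ i * λ j * (v i ⬝ᵥ H *ᵥ v j) ^ 2 > 2`: this
contradicts `gen_bdd` and `pow_unbdd`.

Case `ε = 1`, `H` symmetric with `det H < 0`. `T f g` is the reflection
`1 - (2 / q) v vᵀ H`, `q = vᵀ H v` (`schur_refl`), its own inverse. Choose `f 0` as before and `f 1` with
`w (f 1) ⬝ᵥ H *ᵥ w (f 0) ≠ 0` and `w (f 1)`, `w (f 0)` independent (`w (f 1) ⬝ᵥ u ≠ 0` with `u ≠ 0`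
orthogonal to `w (f 0)`). With `b = v 1 ⬝ᵥ H *ᵥ v 0 ≠ 0` the matrix `T (f 1) g * (T (f 0) g)⁻¹` has
determinant one and trace `-2 + 4 b ^ 2 / (q 0 * q 1)`; and `q 0 q 1 - b ^ 2 = det H * (det [v 0, v 1]) ^ 2
< 0`. If `q 0 q 1 > 0` the trace is `> 2`, if `q 0 q 1 < 0` it is `< -2` (`q i ≠ 0` by `schur_refl`):
contradiction. So `det H > 0` (`det H ≠ 0`), and a symmetric `2 × 2` matrix of positive determinant is
positive or negative definite.
-/

open Set Filter Topology Matrix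

set_option linter.unusedSectionVars false

namespace Pool.AF

private theorem nm_nonneg' {m n : Type*} [Fintype m] [Fintype n] (A : Matrix m n ℝ) : 0 ≤ nm A :=
  Finset.sum_nonneg fun _ _ => Finset.sum_nonneg fun _ _ => abs_nonneg _

private theorem nm_mul' {m n k : Type*} [Fintype m] [Fintype n] [Fintype k]
    (A : Matrix m n ℝ) (B : Matrix n k ℝ) : nm (A * B) ≤ nm A * nm B := by
  classical
  have h1 : ∀ i j, |(A * B) i j| ≤ ∑ l, |A i l| * |B l j| := by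
    intro i j
    rw [Matrix.mul_apply]
    refine (Finset.abs_sum_le_sum_abs _ _).trans ?_
    exact Finset.sum_le_sum fun l _ => (abs_mul _ _).le
  have h2 : nm (A * B) ≤ ∑ i, ∑ j, ∑ l, |A i l| * |B l j| :=
    Finset.sum_le_sum fun i _ => Finset.sum_le_sum fun j _ => h1 i j
  refine h2.trans ?_
  have h3 : ∀ i, ∑ j, ∑ l, |A i l| * |B l j| ≤ (∑ l, |A i l|) * nm B := by
    intro i
    rw [Finset.sum_comm, Finset.sum_mul]
    refine Finset.sum_le_sum fun l _ => ?_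
    rw [← Finset.mul_sum]
    refine mul_le_mul_of_nonneg_left ?_ (abs_nonneg _)
    unfold nm
    exact Finset.single_le_sum (f := fun l => ∑ j, |B l j|)
      (fun l _ => Finset.sum_nonneg fun _ _ => abs_nonneg _) (Finset.mem_univ l)
  calc ∑ i, ∑ j, ∑ l, |A i l| * |B l j| ≤ ∑ i, (∑ l, |A i l|) * nm B :=
        Finset.sum_le_sum fun i _ => h3 i
    _ = nm A * nm B := by rw [← Finset.sum_mul]; rfl

private theorem nm_mulVec (A : Matrix (Fin 2) (Fin 2) ℝ) (v : Fin 2 → ℝ) :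
    ∑ i, |(A *ᵥ v) i| ≤ nm A * ∑ j, |v j| := by
  have h1 : ∀ i, |(A *ᵥ v) i| ≤ (∑ j, |A i j|) * ∑ j, |v j| := by
    intro i
    rw [Matrix.mulVec, dotProduct]
    refine (Finset.abs_sum_le_sum_abs _ _).trans ?_
    rw [Finset.sum_mul]
    refine Finset.sum_le_sum fun j _ => ?_
    rw [abs_mul]
    refine mul_le_mul_of_nonneg_left ?_ (abs_nonneg _)
    exact Finset.single_le_sum (f := fun j => |v j|) (fun _ _ => abs_nonneg _) (Finset.mem_univ j)
  unfold nm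
  rw [Finset.sum_mul]
  exact Finset.sum_le_sum fun i _ => h1 i

theorem pow_unbdd (T : Matrix (Fin 2) (Fin 2) ℝ) (hd : T.det = 1) (ht : 2 < |T.trace|) (K : ℝ) :
    ∃ n : ℕ, K < nm (T ^ n) := by
  obtain ⟨μ, hμ1, hμ2⟩ : ∃ μ : ℝ, 1 < |μ| ∧ μ ^ 2 - T.trace * μ + 1 = 0 := by
    have h4 : 0 ≤ T.trace ^ 2 - 4 := by
      have := sq_abs T.trace
      nlinarith
    have hs := Real.sq_sqrt h4
    have hs0 := Real.sqrt_nonneg (T.trace ^ 2 - 4)
    rcases le_total 0 T.trace with h | h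
    · rw [abs_of_nonneg h] at ht
      refine ⟨(T.trace + Real.sqrt (T.trace ^ 2 - 4)) / 2, ?_, ?_⟩
      · rw [abs_of_pos (by linarith)]
        linarith
      · nlinarith
    · rw [abs_of_nonpos h] at ht
      refine ⟨(T.trace - Real.sqrt (T.trace ^ 2 - 4)) / 2, ?_, ?_⟩
      · rw [abs_of_neg (by linarith)]
        linarith
      · nlinarith
  have hdet : (T - Matrix.scalar (Fin 2) μ).det = 0 := by
    rw [Matrix.det_fin_two] at hd ⊢
    rw [Matrix.trace_fin_two] at hμ2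
    simp only [Matrix.sub_apply, Matrix.scalar_apply, Matrix.diagonal_apply_eq,
      Matrix.diagonal_apply]
    norm_num
    nlinarith
  obtain ⟨v, hv, hTv⟩ := Matrix.exists_mulVec_eq_zero_iff.2 hdet
  have hTv' : T *ᵥ v = μ • v := by
    rw [Matrix.sub_mulVec] at hTv
    have : Matrix.scalar (Fin 2) μ *ᵥ v = μ • v := by
      ext i
      simp [Matrix.scalar_apply, Matrix.mulVec_diagonal]
    rw [this] at hTv
    exact sub_eq_zero.1 hTv
  have hpow : ∀ n : ℕ, (T ^ n) *ᵥ v = μ ^ n • v := by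
    intro n
    induction n with
    | zero => simp
    | succ n ih => rw [pow_succ, ← Matrix.mulVec_mulVec, hTv', Matrix.mulVec_smul, ih, smul_smul,
        pow_succ, mul_comm]
  have hS : 0 < ∑ j, |v j| := by
    obtain ⟨i, hi⟩ := Function.ne_iff.1 hv
    refine Finset.sum_pos' (fun _ _ => abs_nonneg _) ⟨i, Finset.mem_univ i, ?_⟩
    exact abs_pos.2 (by simpa using hi)
  obtain ⟨n, hn⟩ := pow_unbounded_of_one_lt K hμ1
  refine ⟨n, hn.trans_le ?_⟩
  have h5 := nm_mulVec (T ^ n) v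
  rw [hpow n] at h5
  simp only [Pi.smul_apply, smul_eq_mul, abs_mul, abs_pow] at h5
  rw [← Finset.mul_sum] at h5
  exact le_of_mul_le_mul_right h5 hS

/-- The transition matrix. -/
noncomputable def tm (ε : ℝ) (H : Matrix (Fin 2) (Fin 2) ℝ) (f g : Matrix (Fin 4) (Fin 4) ℝ) :
    Matrix (Fin 2) (Fin 2) ℝ :=
  1 + (ε * (c30 f * c30 g / c30 (f * g))) • Matrix.vecMulVec (tv H f g) (tv H f g ᵥ* H)

section

variable {G R : Type*} [Group G] [NormedRing R] [NormedAlgebra ℝ R] [CompleteSpace R]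
    {τ : G →* R} {M : G →* Matrix (Fin 4) (Fin 4) ℝ} {ε : ℝ} {H σ : Matrix (Fin 2) (Fin 2) ℝ}

private theorem det_sq (H S : Matrix (Fin 2) (Fin 2) ℝ) (hH : H.det ≠ 0) (h : Sᵀ * H * S = H) :
    S.det ^ 2 = 1 := by
  have h1 := congrArg Matrix.det h
  rw [Matrix.det_mul, Matrix.det_mul, Matrix.det_transpose] at h1
  have h2 : (S.det ^ 2 - 1) * H.det = 0 := by linear_combination h1
  rcases mul_eq_zero.1 h2 with h3 | h3
  · linarith
  · exact absurd h3 hH

theorem gen_bdd (h : Hyp4 τ M ε H σ) (f₁ f₀ g : G) (h1 : c30 (M f₁) ≠ 0) (h2 : c30 (M f₁ * M g) ≠ 0)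
    (h3 : c30 (M f₀) ≠ 0) (h4 : c30 (M f₀ * M g) ≠ 0) (h5 : c30 (M g) ≠ 0) :
    ∃ K : ℝ, ∀ n : ℕ, nm ((tm ε H (M f₁) (M g) * (tm ε H (M f₀) (M g))⁻¹) ^ n) ≤ K := by
  have hdσ : σ.det ^ 2 = 1 := det_sq H σ h.detH h.sig
  have hds : ∀ f, c30 (M f) ≠ 0 → (schur (M f)).det ^ 2 = 1 := fun f hf =>
    det_sq H _ h.detH (schur_iso ε H h.eps h.symm (M f) (h.inv f) hf)
  have key := coset_bdd τ {f | c30 (M f) ≠ 0} (fun f => σ * schur (M f)) ?_ ?_ ?_ ?_ f₁ f₀ g h1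
    (by show c30 (M (f₁ * g)) ≠ 0; rw [map_mul]; exact h2) h3
    (by show c30 (M (f₀ * g)) ≠ 0; rw [map_mul]; exact h4)
  · have hu : ∀ A : Matrix (Fin 2) (Fin 2) ℝ, A.det ^ 2 = 1 → IsUnit A.det := by
      intro A hA
      rw [isUnit_iff_ne_zero]
      rintro h0
      rw [h0] at hA
      norm_num at hA
    have e1 : ∀ f, c30 (M f) ≠ 0 → c30 (M f * M g) ≠ 0 →
        (σ * schur (M f))⁻¹ * (σ * schur (M (f * g))) = tm ε H (M f) (M g) * schur (M g) := by
      intro f hf hfg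
      have e2 : schur (M (f * g)) = schur (M f) * tm ε H (M f) (M g) * schur (M g) := by
        rw [map_mul]
        exact schur_mul ε H h.eps h.symm h.detH (M f) (M g) (h.inv f) (h.inv g) hf h5 hfg
      rw [e2, Matrix.mul_inv_rev]
      have e3 : (schur (M f))⁻¹ * σ⁻¹ * (σ * (schur (M f) * tm ε H (M f) (M g) * schur (M g))) =
          (schur (M f))⁻¹ * (σ⁻¹ * σ) * schur (M f) * tm ε H (M f) (M g) * schur (M g) := by
        simp only [Matrix.mul_assoc]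
      rw [e3, Matrix.nonsing_inv_mul σ (hu σ hdσ), Matrix.mul_one,
        Matrix.nonsing_inv_mul _ (hu _ (hds f hf)), Matrix.one_mul]
    have e4 : ∀ f, c30 (M f) ≠ 0 → c30 (M f * M g) ≠ 0 →
        (σ * schur (M (f * g)))⁻¹ * (σ * schur (M f)) =
          (schur (M g))⁻¹ * (tm ε H (M f) (M g))⁻¹ := by
      intro f hf hfg
      have e5 : (σ * schur (M (f * g)))⁻¹ * (σ * schur (M f)) =
          ((σ * schur (M f))⁻¹ * (σ * schur (M (f * g))))⁻¹ := by
        rw [Matrix.mul_inv_rev (σ * schur (M f))⁻¹ (σ * schur (M (f * g))),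
          Matrix.nonsing_inv_nonsing_inv (σ * schur (M f))
            (by rw [Matrix.det_mul]; exact (hu σ hdσ).mul (hu _ (hds f hf)))]
      rw [e5, e1 f hf hfg, Matrix.mul_inv_rev]
    have e6 : (σ * schur (M f₁))⁻¹ * (σ * schur (M (f₁ * g))) *
        ((σ * schur (M (f₀ * g)))⁻¹ * (σ * schur (M f₀))) =
        tm ε H (M f₁) (M g) * (tm ε H (M f₀) (M g))⁻¹ := by
      rw [e1 f₁ h1 h2, e4 f₀ h3 h4]
      have e7 : tm ε H (M f₁) (M g) * schur (M g) * ((schur (M g))⁻¹ * (tm ε H (M f₀) (M g))⁻¹) =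
          tm ε H (M f₁) (M g) * (schur (M g) * (schur (M g))⁻¹) * (tm ε H (M f₀) (M g))⁻¹ := by
        simp only [Matrix.mul_assoc]
      rw [e7, Matrix.mul_nonsing_inv _ (hu _ (hds g h5)), Matrix.mul_one]
    obtain ⟨K, hK⟩ := key
    refine ⟨K, fun n => ?_⟩
    have := hK n
    rwa [e6] at this
  · intro g' δ hδ
    obtain ⟨f, hf1, hf2⟩ := h.four.dens (fun f => c30 (M f)) (IsPoly.entry 3 0) ⟨f₁, h1⟩ g' δ hδ
    exact ⟨f, hf2, hf1⟩
  · intro f hf
    rw [Matrix.det_mul, mul_pow, hdσ, hds f hf, one_mul]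
  · intro C
    obtain ⟨K, hK⟩ := h.bdd C
    refine ⟨nm σ * K, fun f hf hf1 hf2 => ?_⟩
    exact (nm_mul' _ _).trans (mul_le_mul_of_nonneg_left (hK f hf1 hf2 hf) (nm_nonneg' σ))
  · intro f hf g' hg' δ hδ
    have hpos : 0 < nm σ + 1 := by linarith [nm_nonneg' σ]
    obtain ⟨k, hk1, hk2, hk3⟩ := h.mul f g' hf hg' (δ / (nm σ + 1)) (div_pos hδ hpos)
    obtain ⟨k', hk1', hk2', hk3'⟩ := h.mul f g' hf hg' (min δ (δ / (nm σ + 1)))
      (lt_min hδ (div_pos hδ hpos))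
    refine ⟨k', hk1', hk2'.trans_le (min_le_left _ _), ?_⟩
    have e8 : σ * schur (M k') - σ * schur (M f) * (σ * schur (M g')) =
        σ * (schur (M k') - schur (M f) * σ * schur (M g')) := by
      rw [Matrix.mul_sub]
      simp only [Matrix.mul_assoc]
    show nm (σ * schur (M k') - σ * schur (M f) * (σ * schur (M g'))) < δ
    rw [e8]
    have h6 := hk3'.trans_le (min_le_right _ _)
    calc nm (σ * (schur (M k') - schur (M f) * σ * schur (M g')))
        ≤ nm σ * nm (schur (M k') - schur (M f) * σ * schur (M g')) := nm_mul' _ _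
      _ ≤ nm σ * (δ / (nm σ + 1)) := mul_le_mul_of_nonneg_left h6.le (nm_nonneg' σ)
      _ < δ := by
        rw [mul_div_assoc', div_lt_iff₀ hpos]
        nlinarith [nm_nonneg' σ]

/-- The vector `w f`. -/
private noncomputable def wv (H : Matrix (Fin 2) (Fin 2) ℝ) (g f : Matrix (Fin 4) (Fin 4) ℝ) :
    Fin 2 → ℝ := c30 f • col0 g - c30 g • (H⁻¹ *ᵥ row3 f)

private theorem wv_eq (H : Matrix (Fin 2) (Fin 2) ℝ) (g f : Matrix (Fin 4) (Fin 4) ℝ)
    (hg : c30 g ≠ 0) (hf : c30 f ≠ 0) : wv H g f = (c30 f * c30 g) • tv H f g := by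
  unfold wv tv
  rw [smul_sub, smul_smul, smul_smul]
  congr 2
  · field_simp
  · field_simp

/-- The functional `A ↦ wv H g A ⬝ᵥ u`. -/
private noncomputable def wl (H : Matrix (Fin 2) (Fin 2) ℝ) (g : Matrix (Fin 4) (Fin 4) ℝ)
    (u : Fin 2 → ℝ) : Matrix (Fin 4) (Fin 4) ℝ →ₗ[ℝ] ℝ where
  toFun A := wv H g A ⬝ᵥ u
  map_add' A B := by
    have : wv H g (A + B) = wv H g A + wv H g B := by
      unfold wv
      have h1 : row3 (A + B) = row3 A + row3 B := rfl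
      have h2 : c30 (A + B) = c30 A + c30 B := rfl
      rw [h1, h2, Matrix.mulVec_add, smul_add, add_smul]
      abel
    rw [this, add_dotProduct]
  map_smul' c A := by
    have : wv H g (c • A) = c • wv H g A := by
      unfold wv
      have h1 : row3 (c • A) = c • row3 A := rfl
      have h2 : c30 (c • A) = c * c30 A := rfl
      rw [h1, h2, Matrix.mulVec_smul, smul_sub, smul_smul, smul_smul, smul_smul, mul_comm c (c30 g)]
    rw [this, smul_dotProduct]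
    rfl

private theorem wl_apply (H : Matrix (Fin 2) (Fin 2) ℝ) (g : Matrix (Fin 4) (Fin 4) ℝ)
    (u : Fin 2 → ℝ) (A : Matrix (Fin 4) (Fin 4) ℝ) : wl H g u A = wv H g A ⬝ᵥ u := rfl

private theorem wl_ne (H : Matrix (Fin 2) (Fin 2) ℝ) (hH : H.det ≠ 0)
    (g : Matrix (Fin 4) (Fin 4) ℝ) (hg : c30 g ≠ 0) (u : Fin 2 → ℝ) (hu : u ≠ 0) :
    wl H g u ≠ 0 := by
  intro h0
  have h1 : wl H g u !![0, 0, 0, 0; 0, 0, 0, 0; 0, 0, 0, 0; 0, (H *ᵥ u) 0, (H *ᵥ u) 1, 0] = 0 := by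
    rw [h0]; rfl
  rw [wl_apply] at h1
  have h2 : row3 !![0, 0, 0, 0; 0, 0, 0, 0; 0, 0, 0, 0; 0, (H *ᵥ u) 0, (H *ᵥ u) 1, 0] = H *ᵥ u := by
    ext j
    fin_cases j <;> simp [row3, md]
  have h3 : c30 !![0, 0, 0, 0; 0, 0, 0, 0; 0, 0, 0, 0; 0, (H *ᵥ u) 0, (H *ᵥ u) 1, 0] = (0 : ℝ) := by
    simp [c30]
  unfold wv at h1
  rw [h2, h3, Matrix.mulVec_mulVec, Matrix.nonsing_inv_mul _ (isUnit_iff_ne_zero.2 hH),
    Matrix.one_mulVec, zero_smul, zero_sub, neg_dotProduct, smul_dotProduct, neg_eq_zero,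
    smul_eq_mul] at h1
  rcases mul_eq_zero.1 h1 with h4 | h4
  · exact hg h4
  · exact hu (dotProduct_self_eq_zero.1 h4)

private theorem pick (h : Hyp4 τ M ε H σ) (g : G) (hg : c30 (M g) ≠ 0) (F : G → ℝ)
    (hF : IsPoly (fun g => M g) F) (hF0 : ∃ f, F f ≠ 0) :
    ∃ f, c30 (M f) ≠ 0 ∧ c30 (M f * M g) ≠ 0 ∧ F f ≠ 0 := by
  obtain ⟨f₁, hf₁, hf₁'⟩ := h.four.prod (fun f => c30 (M f)) F (IsPoly.entry 3 0) hF ⟨g, hg⟩ hF0
  have h1 : IsPoly (fun g => M g) (fun f => c30 (M f * M g)) := by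
    have := IsPoly.comp_mul (M := M) (F := fun f => c30 (M f)) (IsPoly.entry 3 0) 1 g
    simpa [map_mul] using this
  obtain ⟨f, hf, hf'⟩ := h.four.prod (fun f => c30 (M f) * F f) (fun f => c30 (M f * M g))
    ((IsPoly.entry 3 0).mul hF) h1 ⟨f₁, mul_ne_zero hf₁ hf₁'⟩
    ⟨1, by rw [map_one, one_mul]; exact hg⟩
  exact ⟨f, left_ne_zero_of_mul hf, hf', right_ne_zero_of_mul hf⟩

private theorem pick_u (h : Hyp4 τ M ε H σ) (g : G) (hg : c30 (M g) ≠ 0) (u : Fin 2 → ℝ)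
    (hu : u ≠ 0) : ∃ f, wl H (M g) u (M f) ≠ 0 := by
  by_contra hcon
  push Not at hcon
  exact wl_ne H h.detH (M g) hg u hu (h.four.span _ hcon)

private theorem trace_mul' (H : Matrix (Fin 2) (Fin 2) ℝ) (v w : Fin 2 → ℝ) (a b : ℝ) :
    ((1 + a • Matrix.vecMulVec v (v ᵥ* H)) * (1 + b • Matrix.vecMulVec w (w ᵥ* H))).trace =
      2 + a * (v ⬝ᵥ H *ᵥ v) + b * (w ⬝ᵥ H *ᵥ w) +
        a * b * (v ⬝ᵥ H *ᵥ w) * (w ⬝ᵥ H *ᵥ v) := by
  simp [Matrix.trace_fin_two, Matrix.mul_apply, Fin.sum_univ_two, Matrix.vecMulVec_apply,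
    Matrix.vecMul, Matrix.mulVec, dotProduct, Matrix.add_apply, Matrix.smul_apply]
  ring

private theorem det_one' (H : Matrix (Fin 2) (Fin 2) ℝ) (v : Fin 2 → ℝ) (a : ℝ) :
    (1 + a • Matrix.vecMulVec v (v ᵥ* H)).det = 1 + a * (v ⬝ᵥ H *ᵥ v) := by
  simp [Matrix.det_fin_two, Fin.sum_univ_two, Matrix.vecMulVec_apply,
    Matrix.vecMul, Matrix.mulVec, dotProduct, Matrix.add_apply, Matrix.smul_apply]
  ring

private theorem mul_one' (H : Matrix (Fin 2) (Fin 2) ℝ) (v : Fin 2 → ℝ) (a b : ℝ)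
    (hab : a + b + a * b * (v ⬝ᵥ H *ᵥ v) = 0) :
    (1 + a • Matrix.vecMulVec v (v ᵥ* H)) * (1 + b • Matrix.vecMulVec v (v ᵥ* H)) = 1 := by
  have h1 : Matrix.vecMulVec v (v ᵥ* H) * Matrix.vecMulVec v (v ᵥ* H) =
      (v ⬝ᵥ H *ᵥ v) • Matrix.vecMulVec v (v ᵥ* H) := by
    rw [Matrix.vecMulVec_mul_vecMulVec, ← Matrix.dotProduct_mulVec]
    ext i j
    simp [Matrix.vecMulVec_apply]
    try ring
  have h2 : (1 + a • Matrix.vecMulVec v (v ᵥ* H)) * (1 + b • Matrix.vecMulVec v (v ᵥ* H)) =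
      1 + (a + b + a * b * (v ⬝ᵥ H *ᵥ v)) • Matrix.vecMulVec v (v ᵥ* H) := by
    rw [add_mul, mul_add, mul_add, one_mul, one_mul, mul_one, Matrix.smul_mul, Matrix.mul_smul, h1,
      smul_smul, smul_smul, add_smul, add_smul]
    simp only [mul_assoc]
    abel
  rw [h2, hab, zero_smul, add_zero]

private theorem tv_ne (g f : Matrix (Fin 4) (Fin 4) ℝ) (hg : c30 g ≠ 0) (hf : c30 f ≠ 0)
    (u : Fin 2 → ℝ) : wl H g u f = c30 f * c30 g * (tv H f g ⬝ᵥ u) := by
  rw [wl_apply, wv_eq H g f hg hf, smul_dotProduct, smul_eq_mul]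

private theorem no_pair (h : Hyp4 τ M ε H σ) (g f₁ f₀ : G) (hg : c30 (M g) ≠ 0)
    (h1 : c30 (M f₁) ≠ 0) (h1' : c30 (M f₁ * M g) ≠ 0)
    (h0 : c30 (M f₀) ≠ 0) (h0' : c30 (M f₀ * M g) ≠ 0)
    (T' : Matrix (Fin 2) (Fin 2) ℝ) (hT' : tm ε H (M f₀) (M g) * T' = 1)
    (hd : (tm ε H (M f₁) (M g) * T').det = 1) (ht : 2 < |(tm ε H (M f₁) (M g) * T').trace|) :
    False := by
  obtain ⟨K, hK⟩ := gen_bdd h f₁ f₀ g h1 h1' h0 h0' hg
  rw [Matrix.inv_eq_right_inv hT'] at hK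
  obtain ⟨n, hn⟩ := pow_unbdd _ hd ht K
  exact absurd (hK n) (not_le.2 hn)

private theorem mulVec_ne (hH : H.det ≠ 0) (v : Fin 2 → ℝ) (hv : v ≠ 0) : H *ᵥ v ≠ 0 := by
  intro h0
  exact hH (Matrix.exists_mulVec_eq_zero_iff.1 ⟨v, hv, h0⟩)

theorem hyp4_lor (h : Hyp4 τ M ε H σ) : ε = 1 ∧ ∃ s : ℝ, (s = 1 ∨ s = -1) ∧
    ∀ v : Fin 2 → ℝ, v ≠ 0 → 0 < s * (v ⬝ᵥ H *ᵥ v) := by
  obtain ⟨g, hg⟩ : ∃ g, c30 (M g) ≠ 0 := by
    by_contra hcon
    push Not at hcon
    have h1 := h.four.span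
      { toFun := fun A => A 3 0
        map_add' := fun _ _ => rfl
        map_smul' := fun _ _ => rfl } hcon
    have h2 : (1 : ℝ) = 0 :=
      congrArg (fun ℓ : Matrix (Fin 4) (Fin 4) ℝ →ₗ[ℝ] ℝ => ℓ (fun _ _ => 1)) h1
    exact one_ne_zero h2
  have hsymm := h.symm
  have e10 : H 1 0 = ε * H 0 1 := by
    have := congrFun (congrFun hsymm 0) 1
    simpa using this
  have e00 : H 0 0 = ε * H 0 0 := by
    have := congrFun (congrFun hsymm 0) 0
    simpa using this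
  have e11 : H 1 1 = ε * H 1 1 := by
    have := congrFun (congrFun hsymm 1) 1
    simpa using this
  have hdet := h.detH
  -- the first choice
  have hu0 : (Pi.single 0 1 : Fin 2 → ℝ) ≠ 0 := by
    intro h0
    have := congrFun h0 0
    simp at this
  obtain ⟨f₀, a0, b0, c0⟩ := pick h g hg _ (IsPoly.lin (M := fun g => M g) (wl H (M g) (Pi.single 0 1)))
    (pick_u h g hg _ hu0)
  have v0ne : tv H (M f₀) (M g) ≠ 0 := by
    intro h0
    rw [tv_ne (M g) (M f₀) hg a0, h0, zero_dotProduct, mul_zero] at c0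
    exact c0 rfl
  have Hv0 := mulVec_ne h.detH _ v0ne
  rcases h.eps with hε | hε
  · -- symmetric case
    refine ⟨hε, ?_⟩
    subst hε
    rw [one_mul] at e10
    have hsymm' : Hᵀ = H := by rw [hsymm, one_smul]
    -- the second choice
    set v0 := tv H (M f₀) (M g) with hv0
    have hu' : (![- v0 1, v0 0] : Fin 2 → ℝ) ≠ 0 := by
      intro h0
      have h1 := congrFun h0 0
      have h2 := congrFun h0 1
      simp at h1 h2
      apply v0ne
      ext i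
      fin_cases i
      · exact h2
      · exact h1
    obtain ⟨f', hf'⟩ := pick_u h g hg _ hu'
    obtain ⟨f'', hf''⟩ := pick_u h g hg _ Hv0
    obtain ⟨f₂, hf₂, hf₂'⟩ := h.four.prod _ _ (IsPoly.lin (M := fun g => M g) (wl H (M g) ![- v0 1, v0 0]))
      (IsPoly.lin (M := fun g => M g) (wl H (M g) (H *ᵥ v0))) ⟨f', hf'⟩ ⟨f'', hf''⟩
    obtain ⟨f₁, a1, b1, c1⟩ := pick h g hg _
      ((IsPoly.lin (M := fun g => M g) (wl H (M g) ![- v0 1, v0 0])).mul
        (IsPoly.lin (M := fun g => M g) (wl H (M g) (H *ᵥ v0)))) ⟨f₂, mul_ne_zero hf₂ hf₂'⟩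
    have c1' := left_ne_zero_of_mul c1
    have c1'' := right_ne_zero_of_mul c1
    rw [tv_ne (M g) (M f₁) hg a1] at c1' c1''
    have d1 := right_ne_zero_of_mul c1'
    have d2 := right_ne_zero_of_mul c1''
    have v1ne : tv H (M f₁) (M g) ≠ 0 := by
      intro h0
      rw [h0, zero_dotProduct] at d1
      exact d1 rfl
    have r0 := schur_refl H hsymm' h.detH (M f₀) (M g) (h.inv f₀) (h.inv g) a0 hg b0 v0ne
    have r1 := schur_refl H hsymm' h.detH (M f₁) (M g) (h.inv f₁) (h.inv g) a1 hg b1 v1ne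
    set v1 := tv H (M f₁) (M g) with hv1
    set l0 := c30 (M f₀) * c30 (M g) / c30 (M f₀ * M g) with hl0
    set l1 := c30 (M f₁) * c30 (M g) / c30 (M f₁ * M g) with hl1
    have t0 : tm 1 H (M f₀) (M g) = 1 + l0 • Matrix.vecMulVec v0 (v0 ᵥ* H) := by
      unfold tm
      rw [one_mul]
    have t1 : tm 1 H (M f₁) (M g) = 1 + l1 • Matrix.vecMulVec v1 (v1 ᵥ* H) := by
      unfold tm
      rw [one_mul]
    have hbil : v0 ⬝ᵥ H *ᵥ v1 = v1 ⬝ᵥ H *ᵥ v0 := by
      simp only [Matrix.mulVec, dotProduct, Fin.sum_univ_two]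
      rw [e10]
      ring
    have hpos : 0 < H.det := by
      by_contra hneg
      have hneg' : H.det < 0 := lt_of_le_of_ne (not_lt.1 hneg) h.detH
      have hid : (v0 ⬝ᵥ H *ᵥ v0) * (v1 ⬝ᵥ H *ᵥ v1) - (v1 ⬝ᵥ H *ᵥ v0) ^ 2 =
          H.det * (v1 ⬝ᵥ ![- v0 1, v0 0]) ^ 2 := by
        simp only [Matrix.mulVec, dotProduct, Fin.sum_univ_two, Matrix.det_fin_two]
        rw [e10]
        simp
        ring
      have hlt : (v0 ⬝ᵥ H *ᵥ v0) * (v1 ⬝ᵥ H *ᵥ v1) < (v1 ⬝ᵥ H *ᵥ v0) ^ 2 := by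
        have := mul_neg_of_neg_of_pos hneg' (pow_pos (abs_pos.2 d1) 2)
        rw [sq_abs] at this
        linarith
      have htr : (tm 1 H (M f₁) (M g) * tm 1 H (M f₀) (M g)).trace =
          -2 + l1 * l0 * (v1 ⬝ᵥ H *ᵥ v0) ^ 2 := by
        rw [t0, t1, trace_mul', hbil, r0, r1]
        ring
      refine no_pair h g f₁ f₀ hg a1 b1 a0 b0 (tm 1 H (M f₀) (M g)) ?_ ?_ ?_
      · rw [t0]
        apply mul_one'
        linear_combination l0 * r0
      · rw [Matrix.det_mul, t0, t1, det_one', det_one', r0, r1]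
        norm_num
      · rw [htr]
        set q0 := v0 ⬝ᵥ H *ᵥ v0 with hq0
        set q1 := v1 ⬝ᵥ H *ᵥ v1 with hq1
        set b := v1 ⬝ᵥ H *ᵥ v0 with hb
        have hb2 : 0 < b ^ 2 := by
          have := pow_pos (abs_pos.2 d2) 2
          rwa [sq_abs] at this
        have hll : l1 * l0 * (q0 * q1) = 4 := by linear_combination (-2 : ℝ) * r0 + l0 * q0 * r1
        rcases lt_or_ge 0 (l1 * l0) with hl | hl
        · have h3 : 4 < l1 * l0 * b ^ 2 := by
            rw [← hll]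
            exact mul_lt_mul_of_pos_left hlt hl
          rw [lt_abs]
          left
          linarith
        · have hl' : l1 * l0 < 0 := by
            refine lt_of_le_of_ne hl ?_
            intro h0
            rw [h0, zero_mul] at hll
            norm_num at hll
          have h3 : l1 * l0 * b ^ 2 < 0 := mul_neg_of_neg_of_pos hl' hb2
          rw [lt_abs]
          right
          linarith
    -- definiteness
    have hdet2 : H.det = H 0 0 * H 1 1 - H 0 1 * H 0 1 := by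
      rw [Matrix.det_fin_two, e10]
    have h00 : H 0 0 ≠ 0 := by
      intro h0
      rw [hdet2, h0, zero_mul] at hpos
      nlinarith [mul_self_nonneg (H 0 1)]
    have hmain : ∀ v : Fin 2 → ℝ, v ≠ 0 → 0 < H 0 0 * (v ⬝ᵥ H *ᵥ v) := by
      intro v hv
      have hid : H 0 0 * (v ⬝ᵥ H *ᵥ v) =
          (H 0 0 * v 0 + H 0 1 * v 1) ^ 2 + H.det * v 1 ^ 2 := by
        rw [hdet2]
        simp only [Matrix.mulVec, dotProduct, Fin.sum_univ_two]
        rw [e10]
        ring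
      rw [hid]
      by_cases h1 : v 1 = 0
      · have h0 : v 0 ≠ 0 := by
          intro h0
          apply hv
          ext i
          fin_cases i
          · exact h0
          · exact h1
        rw [h1]
        have : 0 < (H 0 0 * v 0) ^ 2 := by
          have := pow_pos (abs_pos.2 (mul_ne_zero h00 h0)) 2
          rwa [sq_abs] at this
        nlinarith
      · have : 0 < v 1 ^ 2 := by
          have := pow_pos (abs_pos.2 h1) 2
          rwa [sq_abs] at this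
        have := mul_pos hpos this
        nlinarith [sq_nonneg (H 0 0 * v 0 + H 0 1 * v 1)]
    rcases lt_or_gt_of_ne h00 with hn | hp
    · refine ⟨-1, Or.inr rfl, fun v hv => ?_⟩
      have := hmain v hv
      by_contra hcon
      have h1 : 0 ≤ v ⬝ᵥ H *ᵥ v := by linarith
      have := mul_nonpos_of_nonpos_of_nonneg hn.le h1
      linarith
    · refine ⟨1, Or.inl rfl, fun v hv => ?_⟩
      rw [one_mul]
      exact pos_of_mul_pos_right (hmain v hv) hp.le
  · -- alternating case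
    exfalso
    subst hε
    have z0 : H 0 0 = 0 := by linarith
    have z1 : H 1 1 = 0 := by linarith
    have halt : ∀ v : Fin 2 → ℝ, v ⬝ᵥ H *ᵥ v = 0 := by
      intro v
      simp only [Matrix.mulVec, dotProduct, Fin.sum_univ_two]
      rw [e10, z0, z1]
      ring
    have hskew : ∀ v w : Fin 2 → ℝ, w ⬝ᵥ H *ᵥ v = - (v ⬝ᵥ H *ᵥ w) := by
      intro v w
      simp only [Matrix.mulVec, dotProduct, Fin.sum_univ_two]
      rw [e10, z0, z1]
      ring
    have noij : ∀ i j : G, c30 (M i) ≠ 0 → c30 (M i * M g) ≠ 0 → c30 (M j) ≠ 0 →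
        c30 (M j * M g) ≠ 0 → tv H (M i) (M g) ⬝ᵥ H *ᵥ tv H (M j) (M g) ≠ 0 →
        ¬ 0 < (c30 (M i) * c30 (M g) / c30 (M i * M g)) *
          (c30 (M j) * c30 (M g) / c30 (M j * M g)) := by
      intro i j ai bi aj bj hb hll
      set vi := tv H (M i) (M g) with hvi
      set vj := tv H (M j) (M g) with hvj
      set li := c30 (M i) * c30 (M g) / c30 (M i * M g) with hli
      set lj := c30 (M j) * c30 (M g) / c30 (M j * M g) with hlj
      have ti : tm (-1) H (M i) (M g) = 1 + (-1 * li) • Matrix.vecMulVec vi (vi ᵥ* H) := rfl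
      have tj : tm (-1) H (M j) (M g) = 1 + (-1 * lj) • Matrix.vecMulVec vj (vj ᵥ* H) := rfl
      refine no_pair h g i j hg ai bi aj bj (1 + lj • Matrix.vecMulVec vj (vj ᵥ* H)) ?_ ?_ ?_
      · rw [tj]
        apply mul_one'
        rw [halt]
        ring
      · rw [Matrix.det_mul, ti, det_one', det_one', halt, halt]
        norm_num
      · rw [ti, trace_mul', halt, halt, hskew vi vj]
        have hb2 : 0 < (vi ⬝ᵥ H *ᵥ vj) ^ 2 := by
          have := pow_pos (abs_pos.2 hb) 2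
          rwa [sq_abs] at this
        have h3 := mul_pos hll hb2
        rw [lt_abs]
        left
        nlinarith
    obtain ⟨f₁, a1, b1, c1⟩ := pick h g hg _
      (IsPoly.lin (M := fun g => M g) (wl H (M g) (H *ᵥ tv H (M f₀) (M g)))) (pick_u h g hg _ Hv0)
    rw [tv_ne (M g) (M f₁) hg a1] at c1
    have d1 := right_ne_zero_of_mul c1
    have v1ne : tv H (M f₁) (M g) ≠ 0 := by
      intro h0
      rw [h0, zero_dotProduct] at d1
      exact d1 rfl
    have Hv1 := mulVec_ne h.detH _ v1ne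
    obtain ⟨f', hf'⟩ := pick_u h g hg _ Hv0
    obtain ⟨f'', hf''⟩ := pick_u h g hg _ Hv1
    obtain ⟨f₃, hf₃, hf₃'⟩ := h.four.prod _ _
      (IsPoly.lin (M := fun g => M g) (wl H (M g) (H *ᵥ tv H (M f₀) (M g))))
      (IsPoly.lin (M := fun g => M g) (wl H (M g) (H *ᵥ tv H (M f₁) (M g)))) ⟨f', hf'⟩ ⟨f'', hf''⟩
    obtain ⟨f₂, a2, b2, c2⟩ := pick h g hg _
      ((IsPoly.lin (M := fun g => M g) (wl H (M g) (H *ᵥ tv H (M f₀) (M g)))).mul
        (IsPoly.lin (M := fun g => M g) (wl H (M g) (H *ᵥ tv H (M f₁) (M g)))))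
      ⟨f₃, mul_ne_zero hf₃ hf₃'⟩
    have c2' := left_ne_zero_of_mul c2
    have c2'' := right_ne_zero_of_mul c2
    rw [tv_ne (M g) (M f₂) hg a2] at c2' c2''
    have d2 := right_ne_zero_of_mul c2'
    have d3 := right_ne_zero_of_mul c2''
    have n1 := noij f₁ f₀ a1 b1 a0 b0 d1
    have n2 := noij f₂ f₀ a2 b2 a0 b0 d2
    have n3 := noij f₂ f₁ a2 b2 a1 b1 d3
    have l0 : c30 (M f₀) * c30 (M g) / c30 (M f₀ * M g) ≠ 0 := div_ne_zero (mul_ne_zero a0 hg) b0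
    have l1 : c30 (M f₁) * c30 (M g) / c30 (M f₁ * M g) ≠ 0 := div_ne_zero (mul_ne_zero a1 hg) b1
    have l2 : c30 (M f₂) * c30 (M g) / c30 (M f₂ * M g) ≠ 0 := div_ne_zero (mul_ne_zero a2 hg) b2
    revert n1 n2 n3 l0 l1 l2
    generalize c30 (M f₀) * c30 (M g) / c30 (M f₀ * M g) = x
    generalize c30 (M f₁) * c30 (M g) / c30 (M f₁ * M g) = y
    generalize c30 (M f₂) * c30 (M g) / c30 (M f₂ * M g) = z
    intro n1 n2 n3 l0 l1 l2
    rcases lt_or_gt_of_ne l0 with p0 | p0 <;> rcases lt_or_gt_of_ne l1 with p1 | p1 <;>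
      rcases lt_or_gt_of_ne l2 with p2 | p2
    · exact n1 (mul_pos_of_neg_of_neg p1 p0)
    · exact n1 (mul_pos_of_neg_of_neg p1 p0)
    · exact n2 (mul_pos_of_neg_of_neg p2 p0)
    · exact n3 (mul_pos p2 p1)
    · exact n3 (mul_pos_of_neg_of_neg p2 p1)
    · exact n2 (mul_pos p2 p0)
    · exact n1 (mul_pos p1 p0)
    · exact n1 (mul_pos p1 p0)

end

end Pool.AF
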