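import Pool.Agent.Helper94.AC.Four

/-!
# AC-18 HYPB: a hyperbolic basis

Write `⟨u, v⟩ = u ⬝ᵥ B *ᵥ v`, so `⟨v, u⟩ = ε * ⟨u, v⟩`. As `B` is invertible and `x ≠ 0` there is `z` with
`⟨x, z⟩ = 1`. If `ε = 1` replace `z` by `z - (⟨z, z⟩ / 2) • x`; if `ε = -1`, `⟨z, z⟩ = 0` anyway. So
`⟨x, x⟩ = ⟨z, z⟩ = 0`, `⟨x, z⟩ = 1`, `⟨z, x⟩ = ε`. The space `{v | ⟨x, v⟩ = 0, ⟨z, v⟩ = 0}` has dimension
two (two linear equations, independent since `⟨x, ·⟩`, `⟨z, ·⟩` are) with a basis `v₁, v₂`, and it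
meets `span {x, z}` in `0`. Let `X` be the matrix with the columns `x, v₁, v₂, z`: it is invertible
and `Xᵀ * B * X = gram4 ε H` with `H i j = ⟨v i, v j⟩`; `⟨v i, x⟩ = ε ⟨x, v i⟩ = 0`. The determinant of
`gram4 ε H` is `± ε * det H`, so `det H ≠ 0`.
-/

open Set Filter Topology Matrix

set_option linter.unusedSectionVars false

namespace Pool.AF

theorem hyp_basis (B : Matrix (Fin 4) (Fin 4) ℝ) (ε : ℝ) (hε : ε = 1 ∨ ε = -1) (hB : B.det ≠ 0)
    (hBt : Bᵀ = ε • B) (x : Fin 4 → ℝ) (hx : x ≠ 0) (hx0 : x ⬝ᵥ B *ᵥ x = 0) :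
    ∃ (X : (Matrix (Fin 4) (Fin 4) ℝ)ˣ) (H : Matrix (Fin 2) (Fin 2) ℝ),
      (X : Matrix (Fin 4) (Fin 4) ℝ) *ᵥ (Pi.single 0 1) = x ∧
      (X : Matrix (Fin 4) (Fin 4) ℝ)ᵀ * B * X = gram4 ε H ∧ Hᵀ = ε • H ∧ H.det ≠ 0 := by
  classical
  have hεε : ε * ε = 1 := by rcases hε with h | h <;> rw [h] <;> norm_num
  have hε0 : ε ≠ 0 := by rcases hε with h | h <;> rw [h] <;> norm_num
  -- the form
  have hsym : ∀ u v : Fin 4 → ℝ, v ⬝ᵥ B *ᵥ u = ε * (u ⬝ᵥ B *ᵥ v) := by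
    intro u v
    rw [Matrix.dotProduct_mulVec, ← Matrix.mulVec_transpose, hBt, dotProduct_comm,
      Matrix.smul_mulVec, dotProduct_smul, smul_eq_mul]
  -- `z₀`
  have hxB : x ᵥ* B ≠ 0 := fun h => hB (Matrix.exists_vecMul_eq_zero_iff.1 ⟨x, hx, h⟩)
  obtain ⟨j₀, hj₀⟩ : ∃ j, (x ᵥ* B) j ≠ 0 := by
    by_contra h
    push Not at h
    exact hxB (funext h)
  obtain ⟨z₀, hz₀⟩ : ∃ z₀ : Fin 4 → ℝ, x ⬝ᵥ B *ᵥ z₀ = 1 := by
    refine ⟨Pi.single j₀ (((x ᵥ* B) j₀)⁻¹), ?_⟩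
    rw [Matrix.dotProduct_mulVec, dotProduct_single, mul_inv_cancel₀ hj₀]
  obtain ⟨z, hxz, hzz⟩ : ∃ z : Fin 4 → ℝ, x ⬝ᵥ B *ᵥ z = 1 ∧ z ⬝ᵥ B *ᵥ z = 0 := by
    refine ⟨z₀ - ((z₀ ⬝ᵥ B *ᵥ z₀) / 2) • x, ?_, ?_⟩
    · rw [Matrix.mulVec_sub, dotProduct_sub, Matrix.mulVec_smul, dotProduct_smul, hz₀, hx0,
        smul_zero, sub_zero]
    · have h1 : z₀ ⬝ᵥ B *ᵥ x = ε := by rw [hsym x z₀, hz₀, mul_one]
      rw [Matrix.mulVec_sub, dotProduct_sub, sub_dotProduct, sub_dotProduct, Matrix.mulVec_smul,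
        dotProduct_smul, dotProduct_smul, smul_dotProduct, smul_dotProduct, hz₀, hx0, h1]
      simp only [smul_eq_mul]
      rcases hε with h | h
      · rw [h]; ring
      · have h2 := hsym z₀ z₀
        rw [h] at h2
        have h3 : z₀ ⬝ᵥ B *ᵥ z₀ = 0 := by linarith
        rw [h3]
        ring
  have hzx : z ⬝ᵥ B *ᵥ x = ε := by rw [hsym x z, hxz, mul_one]
  -- the orthogonal complement
  let φ : (Fin 4 → ℝ) →ₗ[ℝ] (Fin 2 → ℝ) :=
    { toFun := fun v => ![x ⬝ᵥ B *ᵥ v, z ⬝ᵥ B *ᵥ v]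
      map_add' := fun u v => by
        ext i
        fin_cases i <;> simp [Matrix.mulVec_add, dotProduct_add]
      map_smul' := fun c v => by
        ext i
        fin_cases i <;> simp [Matrix.mulVec_smul, dotProduct_smul] }
  have hφ : ∀ v, φ v = ![x ⬝ᵥ B *ᵥ v, z ⬝ᵥ B *ᵥ v] := fun v => rfl
  have hsurj : Function.Surjective φ := by
    intro w
    refine ⟨w 0 • z + (ε * w 1) • x, ?_⟩
    rw [map_add, map_smul, map_smul, hφ, hφ, hxz, hzz, hx0, hzx]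
    ext i
    fin_cases i
    · simp
    · simp only [Pi.add_apply, Pi.smul_apply, smul_eq_mul]
      have : ε * w 1 * ε = w 1 := by
        calc ε * w 1 * ε = (ε * ε) * w 1 := by ring
          _ = w 1 := by rw [hεε, one_mul]
      simpa using this
  have hrank : Module.finrank ℝ (LinearMap.ker φ) = 2 := by
    have h1 := LinearMap.finrank_range_add_finrank_ker φ
    rw [LinearMap.range_eq_top.2 hsurj, finrank_top] at h1
    simp only [Module.finrank_fintype_fun_eq_card, Fintype.card_fin] at h1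
    omega
  let b : Module.Basis (Fin 2) ℝ (LinearMap.ker φ) := Module.finBasisOfFinrankEq ℝ _ hrank
  let v : Fin 2 → (Fin 4 → ℝ) := fun i => (b i : Fin 4 → ℝ)
  have hv : ∀ i, x ⬝ᵥ B *ᵥ v i = 0 ∧ z ⬝ᵥ B *ᵥ v i = 0 := by
    intro i
    have h1 : φ (v i) = 0 := LinearMap.mem_ker.1 (b i).2
    rw [hφ] at h1
    exact ⟨by simpa using congrFun h1 0, by simpa using congrFun h1 1⟩
  have hvx : ∀ i, v i ⬝ᵥ B *ᵥ x = 0 := fun i => by rw [hsym x (v i), (hv i).1, mul_zero]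
  have hvz : ∀ i, v i ⬝ᵥ B *ᵥ z = 0 := fun i => by rw [hsym z (v i), (hv i).2, mul_zero]
  have hli : ∀ w : Fin 2 → ℝ, w 0 • v 0 + w 1 • v 1 = 0 → w = 0 := by
    intro w hw
    have h1 : LinearIndependent ℝ b := b.linearIndependent
    have h2 : ∑ i, w i • b i = 0 := by
      rw [Fin.sum_univ_two]
      apply Subtype.ext
      simpa using hw
    have h3 := Fintype.linearIndependent_iff.1 h1 w h2
    funext i
    exact h3 i
  -- the matrix
  let cl : Fin 4 → (Fin 4 → ℝ) := ![x, v 0, v 1, z]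
  let X : Matrix (Fin 4) (Fin 4) ℝ := Matrix.of fun i j => cl j i
  have hXmul : ∀ w : Fin 4 → ℝ, X *ᵥ w = w 0 • x + w 1 • v 0 + w 2 • v 1 + w 3 • z := by
    intro w
    funext i
    simp [X, cl, Matrix.mulVec, dotProduct, Fin.sum_univ_four, mul_comm]
  have hdet : X.det ≠ 0 := by
    intro h
    obtain ⟨w, hw0, hw⟩ := Matrix.exists_mulVec_eq_zero_iff.2 h
    rw [hXmul] at hw
    apply hw0
    have e3 : w 3 = 0 := by
      have h1 : x ⬝ᵥ B *ᵥ (w 0 • x + w 1 • v 0 + w 2 • v 1 + w 3 • z) = 0 := by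
        rw [hw, Matrix.mulVec_zero, dotProduct_zero]
      simp only [Matrix.mulVec_add, Matrix.mulVec_smul, dotProduct_add, dotProduct_smul, hx0,
        (hv 0).1, (hv 1).1, hxz, smul_eq_mul] at h1
      linarith
    have e0 : w 0 = 0 := by
      have h1 : z ⬝ᵥ B *ᵥ (w 0 • x + w 1 • v 0 + w 2 • v 1 + w 3 • z) = 0 := by
        rw [hw, Matrix.mulVec_zero, dotProduct_zero]
      simp only [Matrix.mulVec_add, Matrix.mulVec_smul, dotProduct_add, dotProduct_smul, hzx,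
        (hv 0).2, (hv 1).2, hzz, smul_eq_mul] at h1
      have h2 : w 0 * ε = 0 := by linarith
      exact (mul_eq_zero.1 h2).resolve_right hε0
    rw [e0, e3, zero_smul, zero_smul, zero_add, add_zero] at hw
    have h4 := hli ![w 1, w 2] (by simpa using hw)
    have e1 : w 1 = 0 := by simpa using congrFun h4 0
    have e2 : w 2 = 0 := by simpa using congrFun h4 1
    funext i
    fin_cases i
    · exact e0
    · exact e1
    · exact e2
    · exact e3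
  have hent : ∀ i j, (Xᵀ * B * X) i j = cl i ⬝ᵥ B *ᵥ cl j := by
    intro i j
    rw [Matrix.mul_assoc, Matrix.mul_apply]
    simp only [dotProduct, Matrix.mulVec, Matrix.mul_apply, Matrix.transpose_apply, X,
      Matrix.of_apply]
  let H : Matrix (Fin 2) (Fin 2) ℝ := Matrix.of fun i j => v i ⬝ᵥ B *ᵥ v j
  have hgram : Xᵀ * B * X = gram4 ε H := by
    ext i j
    rw [hent]
    fin_cases i <;> fin_cases j <;>
      simp [cl, gram4, H, hx0, hxz, hzz, hzx, hvx, hvz, (hv 0).1, (hv 0).2, (hv 1).1, (hv 1).2]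
  have hHdet : (gram4 ε H).det = - ε * H.det := by
    rw [Matrix.det_fin_two]
    simp [gram4, Matrix.det_succ_row_zero, Fin.sum_univ_succ, Fin.succAbove]
    ring
  refine ⟨Matrix.nonsingInvUnit X (isUnit_iff_ne_zero.2 hdet), H, ?_, ?_, ?_, ?_⟩
  · change X *ᵥ (Pi.single 0 1) = x
    rw [hXmul]
    simp
  · exact hgram
  · ext i j
    rw [Matrix.transpose_apply, Matrix.smul_apply]
    exact hsym (v i) (v j)
  · intro h
    rw [h, mul_zero] at hHdet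
    rw [← hgram, Matrix.det_mul, Matrix.det_mul, Matrix.det_transpose] at hHdet
    exact mul_ne_zero (mul_ne_zero hdet hB) hdet hHdet

end Pool.AF
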