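import Pool.Agent.Helper94.AC.Defs

/-!
# AC-8 ISO: totally isotropic spaces of alternating 4 x 4 matrices

`pf_wedge`, `pf_conj`, `wedge_conj`: direct computations (`Matrix.det_succ_row_zero`,
`Fin.sum_univ_succ`, `ring`; for `pf_conj` use that an alternating matrix is determined by its six
entries above the diagonal: `A j i = - A i j`, `A i i = 0`).

`decomp`: an alternating matrix with `pf A A = 0` is `wedge x y`. Say `A 0 1 ≠ 0` (otherwise another
entry `A i j ≠ 0`, the same proof with `i`, `j` in the place of `0`, `1`): take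
`x = (A 0 1)⁻¹ • (row 0 of A)`, `y = row 1 of A`: `wedge x y` has the `k, l` entry
`(A 0 k * A 1 l - A 0 l * A 1 k) / A 0 1 = A k l` by the Pluecker relation `pf A A = 0`
(`A 0 1 * A 2 3 - A 0 2 * A 1 3 + A 0 3 * A 1 2 = 0`) for `{k, l} = {2, 3}` and trivially otherwise.

`iso_core`. The elements of `R` are decomposable (`decomp`). For `A = wedge x y ≠ 0` the vectors
`x`, `y` are independent and the range of `A` is the plane `span {x, y}`; for two such matrices with
`pf A B = 0` the four vectors are dependent (`pf_wedge`), so the planes meet in a nonzero vector.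
If all the elements of `R` are multiples of one `A = wedge x y ≠ 0` then the second alternative
holds with `x`. Otherwise there are `A, B ∈ R` independent; their planes are different and meet: they
are `span {x, y}` and `span {x, z}` with `x, y, z` independent; let `H` be the span of the three. If
`x` is in the range of all `A ∈ R`, `A ≠ 0`, the second alternative holds. Otherwise let `C ∈ R`,
`C ≠ 0`, whose plane `P` does not contain `x`: `P` meets `span {x, y}` and `span {x, z}` in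
nonzero vectors, which are not multiples of `x`, so they are independent (the two planes meet
in the line of `x`), so `P ⊆ H`. Every `D ∈ R`, `D ≠ 0` has its plane in `H`: this was just shown if its
plane does not contain `x`; if it contains `x` it also meets `P ⊆ H` in a nonzero vector, not a
multiple of `x`, so it is contained in `H`. So `I = H` has dimension 3 and contains all the
ranges.
-/

open Set Filter Topology Matrix

set_option linter.unusedSectionVars false

namespace Pool.AF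

theorem wedge_conj (M : Matrix (Fin 4) (Fin 4) ℝ) (x y : Fin 4 → ℝ) :
    M * wedge x y * Mᵀ = wedge (M *ᵥ x) (M *ᵥ y) := by
  unfold wedge
  rw [Matrix.mul_sub, Matrix.sub_mul, Matrix.mul_vecMulVec, Matrix.mul_vecMulVec,
    Matrix.vecMulVec_mul, Matrix.vecMulVec_mul, Matrix.vecMul_transpose, Matrix.vecMul_transpose]

theorem pf_wedge (x y z w : Fin 4 → ℝ) :
    pf (wedge x y) (wedge z w) = (Matrix.of ![x, y, z, w]).det := by
  simp [pf, wedge, Matrix.vecMulVec_apply, Matrix.det_succ_row_zero, Fin.sum_univ_succ,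
    Fin.succAbove]
  ring

private theorem alt_entries {A : Matrix (Fin 4) (Fin 4) ℝ} (hA : Aᵀ = -A) :
    ∀ i j, A j i = - A i j := by
  intro i j
  have := congrFun (congrFun hA i) j
  simpa using this

private theorem alt_mat {A : Matrix (Fin 4) (Fin 4) ℝ} (hA : Aᵀ = -A) :
    A = !![0, A 0 1, A 0 2, A 0 3; -A 0 1, 0, A 1 2, A 1 3; -A 0 2, -A 1 2, 0, A 2 3;
      -A 0 3, -A 1 3, -A 2 3, 0] := by
  have h := alt_entries hA
  have h0 : ∀ i, A i i = 0 := fun i => by have := h i i; linarith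
  ext i j
  fin_cases i <;> fin_cases j <;> simp [h0] <;> exact h _ _

private theorem conj_apply (M A : Matrix (Fin 4) (Fin 4) ℝ) (hA : Aᵀ = -A) (i j : Fin 4) :
    (M * A * Mᵀ) i j =
      A 0 1 * (M i 0 * M j 1 - M i 1 * M j 0) + A 0 2 * (M i 0 * M j 2 - M i 2 * M j 0) +
      A 0 3 * (M i 0 * M j 3 - M i 3 * M j 0) + A 1 2 * (M i 1 * M j 2 - M i 2 * M j 1) +
      A 1 3 * (M i 1 * M j 3 - M i 3 * M j 1) + A 2 3 * (M i 2 * M j 3 - M i 3 * M j 2) := by
  have h := alt_entries hA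
  have h0 : ∀ i, A i i = 0 := fun i => by have := h i i; linarith
  simp only [Matrix.mul_apply, Matrix.transpose_apply, Fin.sum_univ_four, h0, h 0 1, h 0 2, h 0 3,
    h 1 2, h 1 3, h 2 3]
  ring

theorem pf_conj (M A B : Matrix (Fin 4) (Fin 4) ℝ) (hA : Aᵀ = -A) (hB : Bᵀ = -B) :
    pf (M * A * Mᵀ) (M * B * Mᵀ) = M.det * pf A B := by
  have hdet : M.det = pf (wedge (M 0) (M 1)) (wedge (M 2) (M 3)) := by
    rw [pf_wedge]
    congr 1
    ext i j
    fin_cases i <;> rfl
  rw [hdet]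
  simp only [pf, conj_apply M A hA, conj_apply M B hB, wedge, Matrix.vecMulVec_apply,
    Matrix.sub_apply]
  ring

private theorem pluecker {A : Matrix (Fin 4) (Fin 4) ℝ} (hA : Aᵀ = -A) (h : pf A A = 0) :
    ∀ i j k l, A i j * A k l - A i k * A j l + A i l * A j k = 0 := by
  have h1 := alt_entries hA
  have h0 : ∀ i, A i i = 0 := fun i => by have := h1 i i; linarith
  have hp : A 0 1 * A 2 3 - A 0 2 * A 1 3 + A 0 3 * A 1 2 = 0 := by
    unfold pf at h
    linarith
  intro i j k l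
  fin_cases i <;> fin_cases j <;> fin_cases k <;> fin_cases l <;>
    simp only [Fin.zero_eta, Fin.mk_one, Fin.reduceFinMk, Fin.isValue, h0, h1 0 1, h1 0 2, h1 0 3,
      h1 1 2, h1 1 3, h1 2 3] <;>
    first
    | ring1
    | linear_combination hp
    | linear_combination -hp

theorem decomp (A : Matrix (Fin 4) (Fin 4) ℝ) (hA : Aᵀ = -A) (h : pf A A = 0) :
    ∃ x y : Fin 4 → ℝ, A = wedge x y := by
  by_cases h0 : A = 0
  · refine ⟨0, 0, ?_⟩
    rw [h0]
    simp [wedge]
  obtain ⟨i, j, hij⟩ : ∃ i j, A i j ≠ 0 := by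
    by_contra hc
    push Not at hc
    exact h0 (Matrix.ext hc)
  refine ⟨fun k => (A i j)⁻¹ * A i k, fun k => A j k, ?_⟩
  ext k l
  have hp := pluecker hA h i j k l
  simp only [wedge, Matrix.sub_apply, Matrix.vecMulVec_apply]
  field_simp
  linarith

/-- The vector `x` is in the range of `wedge x y ≠ 0`. -/
private theorem wedge_range (x y : Fin 4 → ℝ) (h : wedge x y ≠ 0) :
    ∃ v, wedge x y *ᵥ v = x := by
  have hD : 0 < (x ⬝ᵥ x) * (y ⬝ᵥ y) - (x ⬝ᵥ y) ^ 2 := by
    obtain ⟨i, j, hij⟩ : ∃ i j, wedge x y i j ≠ 0 := by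
      by_contra hc
      push Not at hc
      exact h (Matrix.ext hc)
    have h1 : (x ⬝ᵥ x) * (y ⬝ᵥ y) - (x ⬝ᵥ y) ^ 2 =
        (x 0 * y 1 - y 0 * x 1) ^ 2 + (x 0 * y 2 - y 0 * x 2) ^ 2 + (x 0 * y 3 - y 0 * x 3) ^ 2 +
        (x 1 * y 2 - y 1 * x 2) ^ 2 + (x 1 * y 3 - y 1 * x 3) ^ 2 + (x 2 * y 3 - y 2 * x 3) ^ 2 := by
      simp only [dotProduct, Fin.sum_univ_four]
      ring
    rw [h1]
    have h2 : (x i * y j - y i * x j) ^ 2 ≤
        (x 0 * y 1 - y 0 * x 1) ^ 2 + (x 0 * y 2 - y 0 * x 2) ^ 2 + (x 0 * y 3 - y 0 * x 3) ^ 2 +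
        (x 1 * y 2 - y 1 * x 2) ^ 2 + (x 1 * y 3 - y 1 * x 3) ^ 2 + (x 2 * y 3 - y 2 * x 3) ^ 2 := by
      have e1 := sq_nonneg (x 0 * y 1 - y 0 * x 1)
      have e2 := sq_nonneg (x 0 * y 2 - y 0 * x 2)
      have e3 := sq_nonneg (x 0 * y 3 - y 0 * x 3)
      have e4 := sq_nonneg (x 1 * y 2 - y 1 * x 2)
      have e5 := sq_nonneg (x 1 * y 3 - y 1 * x 3)
      have e6 := sq_nonneg (x 2 * y 3 - y 2 * x 3)
      fin_cases i <;> fin_cases j <;>
        simp only [Fin.zero_eta, Fin.mk_one, Fin.reduceFinMk, Fin.isValue] <;> nlinarith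
    have h3 : 0 < (x i * y j - y i * x j) ^ 2 := by
      have : wedge x y i j = x i * y j - y i * x j := by
        simp [wedge, Matrix.vecMulVec_apply]
      rw [this] at hij
      positivity
    linarith
  set D := (x ⬝ᵥ x) * (y ⬝ᵥ y) - (x ⬝ᵥ y) ^ 2 with hDdef
  refine ⟨D⁻¹ • ((x ⬝ᵥ x) • y - (x ⬝ᵥ y) • x), ?_⟩
  have h5 : wedge x y *ᵥ ((x ⬝ᵥ x) • y - (x ⬝ᵥ y) • x) = D • x := by
    ext i
    simp only [wedge, Matrix.mulVec, dotProduct, Fin.sum_univ_four, Matrix.sub_apply,
      Matrix.vecMulVec_apply, Pi.sub_apply, Pi.smul_apply, smul_eq_mul, hDdef]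
    ring
  rw [Matrix.mulVec_smul, h5, smul_smul, inv_mul_cancel₀ hD.ne', one_smul]

private theorem wedge_indep {x y : Fin 4 → ℝ} (h : wedge x y ≠ 0) {a b : ℝ}
    (hab : a • x + b • y = 0) : a = 0 ∧ b = 0 := by
  have h1 : a • wedge x y = 0 := by
    have : a • wedge x y = wedge (a • x + b • y) y := by
      ext i j
      simp only [wedge, Matrix.smul_apply, Matrix.sub_apply, Matrix.vecMulVec_apply, Pi.add_apply,
        Pi.smul_apply, smul_eq_mul]
      ring
    rw [this, hab]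
    simp [wedge]
  have h2 : b • wedge x y = 0 := by
    have : b • wedge x y = wedge x (a • x + b • y) := by
      ext i j
      simp only [wedge, Matrix.smul_apply, Matrix.sub_apply, Matrix.vecMulVec_apply, Pi.add_apply,
        Pi.smul_apply, smul_eq_mul]
      ring
    rw [this, hab]
    simp [wedge]
  exact ⟨(smul_eq_zero.mp h1).resolve_right h, (smul_eq_zero.mp h2).resolve_right h⟩

/-- Change of the first vector. -/
private theorem wedge_change (x y u : Fin 4 → ℝ) (a b : ℝ) (hu : u = a • x + b • y)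
    (hu0 : u ≠ 0) : ∃ y', wedge x y = wedge u y' := by
  by_cases ha : a = 0
  · have hb : b ≠ 0 := by
      rintro rfl
      exact hu0 (by rw [hu, ha]; simp)
    refine ⟨(-b⁻¹) • x, ?_⟩
    ext i j
    simp only [hu, wedge, Matrix.sub_apply, Matrix.vecMulVec_apply, Pi.add_apply,
        Pi.smul_apply, smul_eq_mul]
    field_simp
    ring
  · refine ⟨a⁻¹ • y, ?_⟩
    ext i j
    simp only [hu, wedge, Matrix.sub_apply, Matrix.vecMulVec_apply, Pi.add_apply,
        Pi.smul_apply, smul_eq_mul]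
    field_simp
    ring

/-- Two planes that meet. -/
private theorem common {x y z w : Fin 4 → ℝ} (h1 : wedge x y ≠ 0) (h2 : wedge z w ≠ 0)
    (h : pf (wedge x y) (wedge z w) = 0) :
    ∃ u y' z', wedge x y = wedge u y' ∧ wedge z w = wedge u z' := by
  rw [pf_wedge] at h
  obtain ⟨c, hc0, hc⟩ := Matrix.exists_vecMul_eq_zero_iff.mpr h
  have hs : c 0 • x + c 1 • y = -(c 2 • z + c 3 • w) := by
    ext j
    have := congrFun hc j
    simp [Matrix.vecMul, dotProduct, Fin.sum_univ_four] at this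
    simp only [Pi.add_apply, Pi.smul_apply, smul_eq_mul, Pi.neg_apply]
    linarith
  have hu0 : c 0 • x + c 1 • y ≠ 0 := by
    intro h0
    obtain ⟨ha, hb⟩ := wedge_indep h1 h0
    have h3 : c 2 • z + c 3 • w = 0 := by
      rw [h0] at hs
      exact (neg_eq_zero.mp hs.symm)
    obtain ⟨hc', hd⟩ := wedge_indep h2 h3
    apply hc0
    ext i
    fin_cases i <;> simp [ha, hb, hc', hd]
  obtain ⟨y', hy'⟩ := wedge_change x y _ _ _ rfl hu0
  obtain ⟨z', hz'⟩ := wedge_change z w (c 0 • x + c 1 • y) (-c 2) (-c 3)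
    (by rw [hs, neg_add, neg_smul, neg_smul]) hu0
  exact ⟨_, y', z', hy', hz'⟩

private theorem indep3 {u y z : Fin 4 → ℝ} (h : LinearIndependent ℝ ![wedge u y, wedge u z]) :
    LinearIndependent ℝ ![u, y, z] := by
  rw [Fintype.linearIndependent_iff] at h ⊢
  intro g hg
  have h1 : g 0 • u + g 1 • y + g 2 • z = 0 := by
    simpa [Fin.sum_univ_three] using hg
  have h2 : g 1 • wedge u y + g 2 • wedge u z = 0 := by
    have : g 1 • wedge u y + g 2 • wedge u z = wedge u (g 0 • u + g 1 • y + g 2 • z) := by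
      ext i j
      simp only [wedge, Matrix.smul_apply, Matrix.sub_apply, Matrix.vecMulVec_apply, Pi.add_apply,
        Pi.smul_apply, smul_eq_mul, Matrix.add_apply]
      ring
    rw [this, h1]
    simp [wedge]
  have h3 := h ![g 1, g 2] (by simpa [Fin.sum_univ_two] using h2)
  have h4 : g 1 = 0 := by simpa using h3 0
  have h5 : g 2 = 0 := by simpa using h3 1
  have hu : u ≠ 0 := by
    rintro rfl
    have := h ![1, 0] (by simp [Fin.sum_univ_two, wedge]) 0
    simp at this
  have h6 : g 0 = 0 := by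
    rw [h4, h5] at h1
    simp only [zero_smul, add_zero] at h1
    exact (smul_eq_zero.mp h1).resolve_right hu
  intro i
  fin_cases i
  · exact h6
  · exact h4
  · exact h5

private theorem mulVec_range {A : Matrix (Fin 4) (Fin 4) ℝ} {c : ℝ} (hc : c ≠ 0)
    {x : Fin 4 → ℝ} (h : ∃ v, A *ᵥ v = x) : ∃ v, (c • A) *ᵥ v = x := by
  obtain ⟨v, hv⟩ := h
  refine ⟨c⁻¹ • v, ?_⟩
  rw [Matrix.mulVec_smul, Matrix.smul_mulVec, smul_smul, inv_mul_cancel₀ hc, one_smul, hv]

theorem iso_core (R : Submodule ℝ (Matrix (Fin 4) (Fin 4) ℝ)) (halt : ∀ A ∈ R, Aᵀ = -A)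
    (hR : R ≠ ⊥) (hiso : ∀ A ∈ R, ∀ B ∈ R, pf A B = 0) :
    (∃ I : Submodule ℝ (Fin 4 → ℝ), I ≠ ⊤ ∧ ∀ A ∈ R, ∀ v, A *ᵥ v ∈ I) ∨
      ∃ x : Fin 4 → ℝ, x ≠ 0 ∧ ∀ A ∈ R, A ≠ 0 → ∃ v, A *ᵥ v = x := by
  obtain ⟨A, hA, hA0⟩ := (Submodule.ne_bot_iff R).mp hR
  obtain ⟨x, y, hxy⟩ := decomp A (halt A hA) (hiso A hA A hA)
  by_cases hall : ∀ B ∈ R, ∃ c : ℝ, B = c • A
  · right
    refine ⟨x, ?_, ?_⟩
    · rintro rfl
      exact hA0 (by rw [hxy]; simp [wedge])
    · intro B hB hB0
      obtain ⟨c, rfl⟩ := hall B hB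
      have hc : c ≠ 0 := by
        rintro rfl
        exact hB0 (zero_smul _ _)
      apply mulVec_range hc
      rw [hxy]
      exact wedge_range x y (hxy ▸ hA0)
  push Not at hall
  obtain ⟨B, hB, hBA⟩ := hall
  have hB0 : B ≠ 0 := fun h => hBA 0 (by rw [h, zero_smul])
  obtain ⟨z, w, hzw⟩ := decomp B (halt B hB) (hiso B hB B hB)
  obtain ⟨u, y', z', hy', hz'⟩ := common (hxy ▸ hA0) (hzw ▸ hB0)
    (by rw [← hxy, ← hzw]; exact hiso A hA B hB)
  have hAu : A = wedge u y' := hxy.trans hy'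
  have hBu : B = wedge u z' := hzw.trans hz'
  have hind : LinearIndependent ℝ ![A, B] := by
    rw [LinearIndependent.pair_iff' hA0]
    intro a h
    exact hBA a h.symm
  have hind3 : LinearIndependent ℝ ![u, y', z'] := indep3 (by rw [← hAu, ← hBu]; exact hind)
  obtain ⟨t, ht⟩ := exists_linearIndependent_snoc_of_lt_finrank hind3 (by simp)
  have ht' : LinearIndependent ℝ (Matrix.of ![u, y', z', t]).row := by
    have e : (Matrix.of ![u, y', z', t]).row = Fin.snoc ![u, y', z'] t := by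
      ext i j
      fin_cases i <;> rfl
    rw [e]
    exact ht
  have hunit : IsUnit (Matrix.of ![u, y', z', t]) :=
    Matrix.linearIndependent_rows_iff_isUnit.mp ht'
  set P : Matrix (Fin 4) (Fin 4) ℝ := (Matrix.of ![u, y', z', t])ᵀ with hP
  have hPdet : P.det ≠ 0 := by
    rw [hP, Matrix.det_transpose]
    exact ((Matrix.isUnit_iff_isUnit_det _).mp hunit).ne_zero
  have hPu : IsUnit P.det := isUnit_iff_ne_zero.mpr hPdet
  have hP0 : P *ᵥ (Pi.single 0 1) = u := by
    rw [Matrix.mulVec_single_one]; ext i; rfl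
  have hP1 : P *ᵥ (Pi.single 1 1) = y' := by
    rw [Matrix.mulVec_single_one]; ext i; rfl
  have hP2 : P *ᵥ (Pi.single 2 1) = z' := by
    rw [Matrix.mulVec_single_one]; ext i; rfl
  have hP3 : P *ᵥ (Pi.single 3 1) = t := by
    rw [Matrix.mulVec_single_one]; ext i; rfl
  set Q := P⁻¹ with hQ
  have hPQ : P * Q = 1 := Matrix.mul_nonsing_inv P hPu
  have hQP : Q * P = 1 := Matrix.nonsing_inv_mul P hPu
  have hQP' : Pᵀ * Qᵀ = 1 := by rw [← Matrix.transpose_mul, hQP, Matrix.transpose_one]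
  have hPQ' : Qᵀ * Pᵀ = 1 := by rw [← Matrix.transpose_mul, hPQ, Matrix.transpose_one]
  have hback : ∀ D : Matrix (Fin 4) (Fin 4) ℝ, P * (Q * D * Qᵀ) * Pᵀ = D := by
    intro D
    calc P * (Q * D * Qᵀ) * Pᵀ = (P * Q) * D * (Qᵀ * Pᵀ) := by simp only [Matrix.mul_assoc]
      _ = D := by rw [hPQ, hPQ', Matrix.one_mul, Matrix.mul_one]
  have halt' : ∀ D ∈ R, (Q * D * Qᵀ)ᵀ = -(Q * D * Qᵀ) := by
    intro D hD
    rw [Matrix.transpose_mul, Matrix.transpose_mul, Matrix.transpose_transpose, halt D hD]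
    simp [Matrix.mul_assoc]
  have hiso' : ∀ D ∈ R, ∀ E ∈ R, pf (Q * D * Qᵀ) (Q * E * Qᵀ) = 0 := by
    intro D hD E hE
    rw [pf_conj Q D E (halt D hD) (halt E hE), hiso D hD E hE, mul_zero]
  have hA' : Q * A * Qᵀ = wedge (Pi.single 0 1) (Pi.single 1 1) := by
    rw [hAu, wedge_conj, ← hP0, ← hP1, Matrix.mulVec_mulVec, Matrix.mulVec_mulVec, hQP,
      Matrix.one_mulVec, Matrix.one_mulVec]
  have hB' : Q * B * Qᵀ = wedge (Pi.single 0 1) (Pi.single 2 1) := by
    rw [hBu, wedge_conj, ← hP0, ← hP2, Matrix.mulVec_mulVec, Matrix.mulVec_mulVec, hQP,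
      Matrix.one_mulVec, Matrix.one_mulVec]
  have h23 : ∀ D ∈ R, (Q * D * Qᵀ) 2 3 = 0 := by
    intro D hD
    have := hiso' A hA D hD
    rw [hA'] at this
    simpa [pf, wedge, Matrix.vecMulVec_apply] using this
  have h13 : ∀ D ∈ R, (Q * D * Qᵀ) 1 3 = 0 := by
    intro D hD
    have := hiso' B hB D hD
    rw [hB'] at this
    simpa [pf, wedge, Matrix.vecMulVec_apply] using this
  by_cases hc3 : ∀ D ∈ R, (Q * D * Qᵀ) 0 3 = 0
  · left
    refine ⟨LinearMap.ker ((LinearMap.proj 3 : (Fin 4 → ℝ) →ₗ[ℝ] ℝ) ∘ₗ Q.mulVecLin), ?_, ?_⟩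
    · intro htop
      have : t ∈ LinearMap.ker ((LinearMap.proj 3 : (Fin 4 → ℝ) →ₗ[ℝ] ℝ) ∘ₗ Q.mulVecLin) := by
        rw [htop]; trivial
      rw [LinearMap.mem_ker, LinearMap.comp_apply, Matrix.mulVecLin_apply, ← hP3,
        Matrix.mulVec_mulVec, hQP, Matrix.one_mulVec] at this
      simp at this
    · intro D hD v
      rw [LinearMap.mem_ker, LinearMap.comp_apply, Matrix.mulVecLin_apply]
      have h33 : (Q * D * Qᵀ) 3 3 = 0 := by
        have := alt_entries (halt' D hD) 3 3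
        linarith
      have h30 : (Q * D * Qᵀ) 3 0 = 0 := by
        rw [alt_entries (halt' D hD) 0 3, hc3 D hD, neg_zero]
      have h31 : (Q * D * Qᵀ) 3 1 = 0 := by
        rw [alt_entries (halt' D hD) 1 3, h13 D hD, neg_zero]
      have h32 : (Q * D * Qᵀ) 3 2 = 0 := by
        rw [alt_entries (halt' D hD) 2 3, h23 D hD, neg_zero]
      have e : Q *ᵥ (D *ᵥ v) = (Q * D * Qᵀ) *ᵥ (Pᵀ *ᵥ v) := by
        rw [Matrix.mulVec_mulVec, Matrix.mulVec_mulVec, Matrix.mul_assoc, Matrix.mul_assoc, hPQ',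
          Matrix.mul_one]
      rw [e]
      simp only [LinearMap.proj_apply, Matrix.mulVec, dotProduct, Fin.sum_univ_four]
      simp only [h30, h31, h32, h33]
      ring
  · right
    push Not at hc3
    obtain ⟨C, hC, hC3⟩ := hc3
    have hC12 : (Q * C * Qᵀ) 1 2 = 0 := by
      have := hiso' C hC C hC
      unfold pf at this
      rw [h23 C hC, h13 C hC] at this
      have h2 : (Q * C * Qᵀ) 0 3 * (Q * C * Qᵀ) 1 2 = 0 := by linarith
      exact (mul_eq_zero.mp h2).resolve_left hC3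
    have h12 : ∀ D ∈ R, (Q * D * Qᵀ) 1 2 = 0 := by
      intro D hD
      have := hiso' C hC D hD
      unfold pf at this
      rw [h23 C hC, h13 C hC, h23 D hD, h13 D hD, hC12] at this
      have h2 : (Q * C * Qᵀ) 0 3 * (Q * D * Qᵀ) 1 2 = 0 := by linarith
      exact (mul_eq_zero.mp h2).resolve_left hC3
    refine ⟨u, ?_, ?_⟩
    · rintro rfl
      exact hA0 (by rw [hAu]; simp [wedge])
    · intro D hD hD0
      set q : Fin 4 → ℝ := fun j => (Q * D * Qᵀ) 0 j with hq
      have hD' : Q * D * Qᵀ = wedge (Pi.single 0 1) q := by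
        have hal := alt_entries (halt' D hD)
        have h00 : ∀ i, (Q * D * Qᵀ) i i = 0 := fun i => by
          have := hal i i; linarith
        have e12 := h12 D hD
        have e13 := h13 D hD
        have e23 := h23 D hD
        have e21 : (Q * D * Qᵀ) 2 1 = 0 := by rw [hal 1 2, e12, neg_zero]
        have e31 : (Q * D * Qᵀ) 3 1 = 0 := by rw [hal 1 3, e13, neg_zero]
        have e32 : (Q * D * Qᵀ) 3 2 = 0 := by rw [hal 2 3, e23, neg_zero]
        ext i j
        simp only [wedge, Matrix.sub_apply, Matrix.vecMulVec_apply, hq]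
        fin_cases i <;> fin_cases j <;>
          simp [h00, e12, e13, e23, e21, e31, e32, hal 0 1, hal 0 2, hal 0 3]
      have hDu : D = wedge u (P *ᵥ q) := by
        rw [← hback D, hD', wedge_conj, hP0]
      rw [hDu] at hD0 ⊢
      exact wedge_range _ _ hD0

end Pool.AF
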