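import Pool.Agent.Helper94.AC.Defs

/-!
# AC-7 LU: products of Cartan decompositions

Proof. Step 1 (LU decomposition): if all the leading minors `lead hk B`, `k ≤ d`, of `B` are not zero
then `B = L * diagonal δ * U` with `L` lower triangular and `U` upper triangular, with ones on the
diagonal, `δ i ≠ 0`. By induction on `d`, or by formulas for the entries as quotients of minors;
the formulas show that `L, δ, U` depend continuously on `B` (in the inductive construction:
rational expressions with denominators the leading minors). So for large `n`,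
`B n = L n * diagonal (δ n) * U n` with `L n → L₀`, `δ n → δ₀`, `U n → U₀`.

Step 2: `diagonal s * L * diagonal s⁻¹` is lower triangular with ones on the diagonal and entries
`s i / s j * L i j` for `j < i`, where `0 < s i / s j ≤ 1` (antitone). Similarly
`diagonal t⁻¹ * U * diagonal t` has entries `t j / t i * U i j` for `i < j`, `t j / t i ≤ 1`. So
`diagonal s * B n * diagonal t = P n * diagonal (s * t) * Q n` with
`P n = diagonal s * L n * diagonal s⁻¹ * diagonal (δ n)` and `Q n = diagonal t⁻¹ * U n * diagonal t`,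
bounded, of determinant `∏ δ n i` and `1`. Pass to a convergent subsequence; the determinants of the
limits are `∏ δ₀ i ≠ 0` and `1`.
-/

open Set Filter Topology Matrix

set_option linter.unusedSectionVars false

namespace Pool.AF

/-- The Schur complement of the upper left entry. -/
private noncomputable def schur {d : ℕ} (B : Matrix (Fin (d + 1)) (Fin (d + 1)) ℝ) :
    Matrix (Fin d) (Fin d) ℝ :=
  Matrix.of (fun i j => B i.succ j.succ - B i.succ 0 * B 0 j.succ / B 0 0)

private theorem det_schur {d : ℕ} (B : Matrix (Fin (d + 1)) (Fin (d + 1)) ℝ) (hB : B 0 0 ≠ 0) :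
    B.det = B 0 0 * (schur B).det := by
  set c : Fin (d + 1) → ℝ := Fin.cons 0 (fun i => - B i.succ 0 / B 0 0) with hc
  set A : Matrix (Fin (d + 1)) (Fin (d + 1)) ℝ := Matrix.of (fun i j => B i j + c i * B 0 j) with hA
  have h1 : A.det = B.det :=
    Matrix.det_eq_of_forall_row_eq_smul_add_const c 0 (by simp [hc]) (fun i j => rfl)
  have h2 : ∀ i : Fin d, A i.succ 0 = 0 := by
    intro i
    simp only [hA, hc, Matrix.of_apply, Fin.cons_succ]
    field_simp
    ring
  have h3 : A 0 0 = B 0 0 := by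
    simp [hA, hc]
  have h4 : A.submatrix (Fin.succAbove 0) Fin.succ = schur B := by
    ext i j
    simp only [hA, hc, schur, Matrix.submatrix_apply, Matrix.of_apply, Fin.succAbove_zero,
      Fin.cons_succ]
    ring
  rw [← h1, Matrix.det_succ_column_zero, Fin.sum_univ_succ]
  simp only [h2, h3, h4]
  simp

private theorem lead_schur {d k : ℕ} (hk : k ≤ d) (B : Matrix (Fin (d + 1)) (Fin (d + 1)) ℝ)
    (hB : B 0 0 ≠ 0) : lead (Nat.succ_le_succ hk) B = B 0 0 * lead hk (schur B) := by
  unfold lead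
  have h0 : (B.submatrix (Fin.castLE (Nat.succ_le_succ hk)) (Fin.castLE (Nat.succ_le_succ hk))) 0 0
      = B 0 0 := by
    simp [Matrix.submatrix_apply]
  have h := det_schur
    (B.submatrix (Fin.castLE (Nat.succ_le_succ hk)) (Fin.castLE (Nat.succ_le_succ hk)))
    (by rw [h0]; exact hB)
  rw [h0] at h
  rw [h]
  congr 2

private theorem lead_one {d : ℕ} (B : Matrix (Fin (d + 1)) (Fin (d + 1)) ℝ) :
    lead (Nat.succ_le_succ (Nat.zero_le d)) B = B 0 0 := by
  unfold lead
  rw [Matrix.det_unique]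
  simp [Matrix.submatrix_apply]

private theorem continuousAt_mat {X : Type*} [TopologicalSpace X] {κ μ : Type*}
    {f : X → Matrix κ μ ℝ} {x : X} (h : ∀ i j, ContinuousAt (fun y => f y i j) x) :
    ContinuousAt f x := by
  refine continuousAt_pi.2 (fun i => ?_)
  exact continuousAt_pi.2 (fun j => h i j)

private theorem continuousAt_entry {X : Type*} [TopologicalSpace X] {κ μ : Type*}
    {f : X → Matrix κ μ ℝ} {x : X} (h : ContinuousAt f x) (i : κ) (j : μ) :
    ContinuousAt (fun y => f y i j) x :=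
  continuousAt_pi.1 (continuousAt_pi.1 h i) j

private theorem lu_cont : ∀ (d : ℕ) (B₀ : Matrix (Fin d) (Fin d) ℝ)
    (_ : ∀ (k : ℕ) (hk : k ≤ d), lead hk B₀ ≠ 0),
    ∃ L U : Matrix (Fin d) (Fin d) ℝ → Matrix (Fin d) (Fin d) ℝ,
      ContinuousAt L B₀ ∧ ContinuousAt U B₀ ∧
      ∀ᶠ B in 𝓝 B₀, B = L B * U B ∧ (∀ i j, i < j → L B i j = 0) ∧
        (∀ i j, j < i → U B i j = 0) := by
  intro d
  induction d with
  | zero =>
    intro B₀ _
    refine ⟨fun B => B, fun B => B, continuousAt_id, continuousAt_id, ?_⟩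
    refine Filter.Eventually.of_forall (fun B => ⟨?_, fun i => i.elim0, fun i => i.elim0⟩)
    ext i
    exact i.elim0
  | succ d ih =>
    intro B₀ hlead
    have hb : B₀ 0 0 ≠ 0 := by
      have := hlead 1 (Nat.succ_le_succ (Nat.zero_le d))
      rwa [lead_one] at this
    have hcid : ContinuousAt (fun B : Matrix (Fin (d + 1)) (Fin (d + 1)) ℝ => B) B₀ := continuousAt_id
    have hS : ContinuousAt (schur (d := d)) B₀ := by
      refine continuousAt_mat (fun i j => ?_)
      simp only [schur, Matrix.of_apply]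
      exact (continuousAt_entry hcid _ _).sub
        (((continuousAt_entry hcid _ _).mul (continuousAt_entry hcid _ _)).div
          (continuousAt_entry hcid _ _) hb)
    have hlead' : ∀ (k : ℕ) (hk : k ≤ d), lead hk (schur B₀) ≠ 0 := by
      intro k hk h0
      have := hlead (k + 1) (Nat.succ_le_succ hk)
      rw [lead_schur hk B₀ hb, h0, mul_zero] at this
      exact this rfl
    obtain ⟨L', U', hL', hU', hev⟩ := ih (schur B₀) hlead'
    have hL'c : ContinuousAt (fun B => L' (schur B)) B₀ := ContinuousAt.comp hL' hS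
    have hU'c : ContinuousAt (fun B => U' (schur B)) B₀ := ContinuousAt.comp hU' hS
    refine ⟨fun B => Matrix.of (fun i j => Fin.cases (Fin.cases (B 0 0) (fun _ => 0) j)
        (fun i' => Fin.cases (B i'.succ 0) (fun j' => L' (schur B) i' j') j) i),
      fun B => Matrix.of (fun i j => Fin.cases (Fin.cases 1 (fun j' => B 0 j'.succ / B 0 0) j)
        (fun i' => Fin.cases 0 (fun j' => U' (schur B) i' j') j) i), ?_, ?_, ?_⟩
    · refine continuousAt_mat (fun i j => ?_)
      refine Fin.cases ?_ (fun i' => ?_) i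
      · refine Fin.cases ?_ (fun j' => ?_) j
        · exact continuousAt_entry hcid _ _
        · exact continuousAt_const
      · refine Fin.cases ?_ (fun j' => ?_) j
        · exact continuousAt_entry hcid _ _
        · exact continuousAt_entry hL'c _ _
    · refine continuousAt_mat (fun i j => ?_)
      refine Fin.cases ?_ (fun i' => ?_) i
      · refine Fin.cases ?_ (fun j' => ?_) j
        · exact continuousAt_const
        · exact (continuousAt_entry hcid _ _).div (continuousAt_entry hcid _ _) hb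
      · refine Fin.cases ?_ (fun j' => ?_) j
        · exact continuousAt_const
        · exact continuousAt_entry hU'c _ _
    · have hne : ∀ᶠ B in 𝓝 B₀, B 0 0 ≠ 0 := (continuousAt_entry hcid 0 0).eventually_ne hb
      filter_upwards [hne, hS.eventually hev] with B hB0 hB1
      obtain ⟨h1, h2, h3⟩ := hB1
      refine ⟨?_, ?_, ?_⟩
      · ext i j
        rw [Matrix.mul_apply, Fin.sum_univ_succ]
        refine Fin.cases ?_ (fun i' => ?_) i
        · refine Fin.cases ?_ (fun j' => ?_) j
          · simp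
          · simp only [Matrix.of_apply, Fin.cases_zero, Fin.cases_succ, zero_mul,
              Finset.sum_const_zero, add_zero]
            field_simp
        · refine Fin.cases ?_ (fun j' => ?_) j
          · simp
          · have h4 : schur B i' j' = ∑ k, L' (schur B) i' k * U' (schur B) k j' := by
              conv_lhs => rw [h1]
              rw [Matrix.mul_apply]
            simp only [Matrix.of_apply, Fin.cases_zero, Fin.cases_succ]
            rw [← h4]
            simp only [schur, Matrix.of_apply]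
            ring
      · intro i j hij
        revert hij
        refine Fin.cases ?_ (fun i' => ?_) i
        · refine Fin.cases ?_ (fun j' => ?_) j
          · intro h
            exact absurd h (lt_irrefl _)
          · intro _
            simp
        · refine Fin.cases ?_ (fun j' => ?_) j
          · intro h
            exact absurd h (Fin.not_lt_zero _)
          · intro h
            simp only [Matrix.of_apply, Fin.cases_succ]
            exact h2 i' j' (Fin.succ_lt_succ_iff.1 h)
      · intro i j hij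
        revert hij
        refine Fin.cases ?_ (fun i' => ?_) i
        · intro h
          exact absurd h (Fin.not_lt_zero _)
        · refine Fin.cases ?_ (fun j' => ?_) j
          · intro _
            simp
          · intro h
            simp only [Matrix.of_apply, Fin.cases_succ]
            exact h3 i' j' (Fin.succ_lt_succ_iff.1 h)

private theorem bdd_of_tendsto {κ μ : Type*} [Finite κ] [Finite μ] {L : ℕ → Matrix κ μ ℝ}
    {L₀ : Matrix κ μ ℝ} (h : Tendsto L atTop (𝓝 L₀)) :
    ∃ C : ℝ, ∀ n i j, |L n i j| ≤ C := by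
  have h1 : ∀ i j, ∃ C : ℝ, ∀ n, |L n i j| ≤ C := by
    intro i j
    have h2 : Tendsto (fun n => L n i j) atTop (𝓝 (L₀ i j)) :=
      (tendsto_pi_nhds.1 (tendsto_pi_nhds.1 h i)) j
    obtain ⟨C, hC⟩ := h2.abs.bddAbove_range
    exact ⟨C, fun n => hC ⟨n, rfl⟩⟩
  choose C hC using h1
  obtain ⟨M, hM⟩ := (Set.finite_range (fun ij : κ × μ => C ij.1 ij.2)).bddAbove
  exact ⟨M, fun n i j => (hC i j n).trans (hM ⟨(i, j), rfl⟩)⟩

private theorem subseq_aux {d : ℕ} (P Q : ℕ → Fin d → Fin d → ℝ) (CL CU : ℝ)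
    (hP : ∀ n i j, |P n i j| ≤ CL) (hQ : ∀ n i j, |Q n i j| ≤ CU) :
    ∃ (ψ : ℕ → ℕ) (P₀ Q₀ : Fin d → Fin d → ℝ), StrictMono ψ ∧
      Tendsto (fun n => P (ψ n)) atTop (𝓝 P₀) ∧ Tendsto (fun n => Q (ψ n)) atTop (𝓝 Q₀) := by
  have hKL : IsCompact (Set.pi Set.univ (fun _ : Fin d => Set.pi Set.univ
      (fun _ : Fin d => Set.Icc (-CL) CL))) :=
    isCompact_univ_pi (fun _ => isCompact_univ_pi (fun _ => isCompact_Icc))
  have hKU : IsCompact (Set.pi Set.univ (fun _ : Fin d => Set.pi Set.univ
      (fun _ : Fin d => Set.Icc (-CU) CU))) :=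
    isCompact_univ_pi (fun _ => isCompact_univ_pi (fun _ => isCompact_Icc))
  have hPb : ∀ n, P n ∈ Set.pi Set.univ (fun _ : Fin d => Set.pi Set.univ
      (fun _ : Fin d => Set.Icc (-CL) CL)) := by
    intro n i _ j _
    rw [Set.mem_Icc, ← abs_le]
    exact hP n i j
  have hQb : ∀ n, Q n ∈ Set.pi Set.univ (fun _ : Fin d => Set.pi Set.univ
      (fun _ : Fin d => Set.Icc (-CU) CU)) := by
    intro n i _ j _
    rw [Set.mem_Icc, ← abs_le]
    exact hQ n i j
  obtain ⟨⟨P₀, Q₀⟩, -, ψ, hψ, hlim⟩ := (hKL.prod hKU).tendsto_subseq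
    (x := fun n => (P n, Q n)) (fun n => Set.mk_mem_prod (hPb n) (hQb n))
  exact ⟨ψ, P₀, Q₀, hψ, (continuous_fst.tendsto _).comp hlim, (continuous_snd.tendsto _).comp hlim⟩

theorem lu_prod {d : ℕ} (B : ℕ → Matrix (Fin d) (Fin d) ℝ) (B₀ : Matrix (Fin d) (Fin d) ℝ)
    (hB : Tendsto B atTop (𝓝 B₀)) (hlead : ∀ (k : ℕ) (hk : k ≤ d), lead hk B₀ ≠ 0)
    (s t : ℕ → Fin d → ℝ) (hs : ∀ n i, 0 < s n i) (hs' : ∀ n, Antitone (s n))
    (ht : ∀ n i, 0 < t n i) (ht' : ∀ n, Antitone (t n)) :
    ∃ (φ : ℕ → ℕ) (P Q : ℕ → Matrix (Fin d) (Fin d) ℝ) (P₀ Q₀ : Matrix (Fin d) (Fin d) ℝ),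
      StrictMono φ ∧ Tendsto P atTop (𝓝 P₀) ∧ Tendsto Q atTop (𝓝 Q₀) ∧ P₀.det ≠ 0 ∧
      Q₀.det ≠ 0 ∧ ∀ n, Matrix.diagonal (s (φ n)) * B (φ n) * Matrix.diagonal (t (φ n)) =
        P n * Matrix.diagonal (fun i => s (φ n) i * t (φ n) i) * Q n := by
  obtain ⟨L, U, hL, hU, hev⟩ := lu_cont d B₀ hlead
  have hLt : Tendsto (fun n => L (B n)) atTop (𝓝 (L B₀)) := hL.tendsto.comp hB
  have hUt : Tendsto (fun n => U (B n)) atTop (𝓝 (U B₀)) := hU.tendsto.comp hB
  obtain ⟨CL, hCL⟩ := bdd_of_tendsto hLt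
  obtain ⟨CU, hCU⟩ := bdd_of_tendsto hUt
  obtain ⟨N, hN⟩ := Filter.eventually_atTop.1 (hB.eventually hev)
  set P' : ℕ → Matrix (Fin d) (Fin d) ℝ := fun n => Matrix.of (fun i j =>
    s (n + N) i / s (n + N) j * L (B (n + N)) i j) with hP'
  set Q' : ℕ → Matrix (Fin d) (Fin d) ℝ := fun n => Matrix.of (fun i j =>
    t (n + N) j / t (n + N) i * U (B (n + N)) i j) with hQ'
  have hPb : ∀ n i j, |P' n i j| ≤ CL := by
    intro n i j
    have hC := hCL (n + N) i j
    have hC0 : 0 ≤ CL := (abs_nonneg _).trans hC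
    simp only [hP', Matrix.of_apply]
    rcases lt_or_ge i j with hij | hij
    · rw [(hN (n + N) (Nat.le_add_left N n)).2.1 i j hij, mul_zero, abs_zero]
      exact hC0
    · have h1 : s (n + N) i / s (n + N) j ≤ 1 :=
        (div_le_one (hs _ _)).2 (hs' (n + N) hij)
      have h2 : 0 < s (n + N) i / s (n + N) j := div_pos (hs _ _) (hs _ _)
      rw [abs_mul, abs_of_pos h2]
      calc _ ≤ 1 * |L (B (n + N)) i j| := mul_le_mul_of_nonneg_right h1 (abs_nonneg _)
        _ = |L (B (n + N)) i j| := one_mul _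
        _ ≤ CL := hC
  have hQb : ∀ n i j, |Q' n i j| ≤ CU := by
    intro n i j
    have hC := hCU (n + N) i j
    have hC0 : 0 ≤ CU := (abs_nonneg _).trans hC
    simp only [hQ', Matrix.of_apply]
    rcases lt_or_ge j i with hij | hij
    · rw [(hN (n + N) (Nat.le_add_left N n)).2.2 i j hij, mul_zero, abs_zero]
      exact hC0
    · have h1 : t (n + N) j / t (n + N) i ≤ 1 :=
        (div_le_one (ht _ _)).2 (ht' (n + N) hij)
      have h2 : 0 < t (n + N) j / t (n + N) i := div_pos (ht _ _) (ht _ _)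
      rw [abs_mul, abs_of_pos h2]
      calc _ ≤ 1 * |U (B (n + N)) i j| := mul_le_mul_of_nonneg_right h1 (abs_nonneg _)
        _ = |U (B (n + N)) i j| := one_mul _
        _ ≤ CU := hC
  obtain ⟨ψ, P₀, Q₀, hψ, hPl, hQl⟩ : ∃ (ψ : ℕ → ℕ) (P₀ Q₀ : Matrix (Fin d) (Fin d) ℝ),
      StrictMono ψ ∧ Tendsto (fun n => P' (ψ n)) atTop (𝓝 P₀) ∧
      Tendsto (fun n => Q' (ψ n)) atTop (𝓝 Q₀) := subseq_aux P' Q' CL CU hPb hQb
  have hφ : StrictMono (fun n => ψ n + N) := fun a b hab => Nat.add_lt_add_right (hψ hab) N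
  have hdec : ∀ n, Matrix.diagonal (s (n + N)) * B (n + N) * Matrix.diagonal (t (n + N)) =
      P' n * Matrix.diagonal (fun i => s (n + N) i * t (n + N) i) * Q' n := by
    intro n
    have h1 := (hN (n + N) (Nat.le_add_left N n)).1
    ext i j
    rw [Matrix.mul_diagonal, Matrix.diagonal_mul]
    conv_lhs => rw [h1]
    rw [Matrix.mul_apply, Matrix.mul_apply, Finset.mul_sum, Finset.sum_mul]
    refine Finset.sum_congr rfl (fun k _ => ?_)
    rw [Matrix.mul_diagonal]
    simp only [hP', hQ', Matrix.of_apply]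
    have h2 := (hs (n + N) k).ne'
    have h3 := (ht (n + N) k).ne'
    field_simp
  have hdet : ∀ n, (B (n + N)).det = (P' n).det * (Q' n).det := by
    intro n
    have h1 := congrArg Matrix.det (hdec n)
    rw [Matrix.det_mul, Matrix.det_mul, Matrix.det_mul, Matrix.det_mul, Matrix.det_diagonal,
      Matrix.det_diagonal, Matrix.det_diagonal, Finset.prod_mul_distrib] at h1
    have h2 : (∏ i, s (n + N) i) ≠ 0 := Finset.prod_ne_zero_iff.2 (fun i _ => (hs _ i).ne')
    have h3 : (∏ i, t (n + N) i) ≠ 0 := Finset.prod_ne_zero_iff.2 (fun i _ => (ht _ i).ne')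
    have h4 : (∏ i, s (n + N) i) * (∏ i, t (n + N) i) ≠ 0 := mul_ne_zero h2 h3
    apply mul_left_cancel₀ h4
    linear_combination h1
  have hdet0 : B₀.det ≠ 0 := by
    have := hlead d le_rfl
    unfold lead at this
    simpa using this
  have hBφ : Tendsto (fun n => B (ψ n + N)) atTop (𝓝 B₀) := hB.comp hφ.tendsto_atTop
  have hdc : Continuous (fun A : Matrix (Fin d) (Fin d) ℝ => A.det) := continuous_id.matrix_det
  have hdetB : Tendsto (fun n => (B (ψ n + N)).det) atTop (𝓝 B₀.det) := (hdc.tendsto B₀).comp hBφ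
  have hdetP : Tendsto (fun n => (P' (ψ n)).det) atTop (𝓝 P₀.det) := (hdc.tendsto P₀).comp hPl
  have hdetQ : Tendsto (fun n => (Q' (ψ n)).det) atTop (𝓝 Q₀.det) := (hdc.tendsto Q₀).comp hQl
  have hprod : P₀.det * Q₀.det = B₀.det :=
    tendsto_nhds_unique (hdetP.mul hdetQ) (hdetB.congr (fun n => hdet (ψ n)))
  refine ⟨fun n => ψ n + N, fun n => P' (ψ n), fun n => Q' (ψ n), P₀, Q₀, hφ, hPl, hQl, ?_, ?_, ?_⟩
  · intro h
    rw [h, zero_mul] at hprod
    exact hdet0 hprod.symm
  · intro h
    rw [h, mul_zero] at hprod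
    exact hdet0 hprod.symm
  · intro n
    exact hdec (ψ n)

end Pool.AF
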