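import Pool.Agent.Helper94.AC.Iso

/-!
# AC-9 TRANSS: a plane and its images (uses AC-8)

Proof. Suppose that `det [M g x₁, M g x₂, x₁, x₂] = 0` for all `g ∈ G₀`. Let `R` be the span of the
matrices `M g * wedge x₁ x₂ * (M g)ᵀ = wedge (M g *ᵥ x₁) (M g *ᵥ x₂)`, `g ∈ G₀`, alternating, not `⊥`,
stable under `A ↦ M g * A * (M g)ᵀ` for `g ∈ G₀`. By `pf_wedge` and `pf_conj`, for `g, h ∈ G₀`,
`pf (wedge (M g x₁) (M g x₂)) (wedge (M h x₁) (M h x₂)) =
pf (wedge (M (h⁻¹ g) x₁) (M (h⁻¹ g) x₂)) (wedge x₁ x₂) = 0`, so `pf = 0` on `R` (bilinearity). Apply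
`iso_core`. In its first case let `I` be the span of all the vectors `A *ᵥ v`, `A ∈ R`: it is not `⊤`,
it is invariant (`M g (A v) = (M g A (M g)ᵀ) ((M g)ᵀ)⁻¹ v`) and it contains `x₁, x₂` (the range of
`wedge x₁ x₂` is `span {x₁, x₂}` by independence). In the second case let `I` be the set of all
vectors in the ranges of all nonzero `A ∈ R`: a subspace, not `⊥`, invariant, and contained in
the range of `wedge x₁ x₂`.
-/

open Set Filter Topology Matrix

set_option linter.unusedSectionVars false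

namespace Pool.AF

private theorem wedge_transpose (x y : Fin 4 → ℝ) : (wedge x y)ᵀ = - wedge x y := by
  ext i j
  simp only [wedge, Matrix.transpose_apply, Matrix.sub_apply, Matrix.neg_apply,
    Matrix.vecMulVec_apply]
  ring

private theorem wedge_mulVec (x y v : Fin 4 → ℝ) :
    wedge x y *ᵥ v = (y ⬝ᵥ v) • x - (x ⬝ᵥ v) • y := by
  ext i
  simp only [wedge, Matrix.mulVec, dotProduct, Matrix.sub_apply, Matrix.vecMulVec_apply,
    Pi.sub_apply, Pi.smul_apply, smul_eq_mul, Finset.sum_mul, ← Finset.sum_sub_distrib]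
  exact Finset.sum_congr rfl fun j _ => by ring

private theorem wedge_ne_zero {x y : Fin 4 → ℝ} (h : LinearIndependent ℝ ![x, y]) :
    wedge x y ≠ 0 := by
  intro h0
  rw [LinearIndependent.pair_iff] at h
  have hx : x ≠ 0 := by
    rintro rfl
    have := h 1 0 (by simp)
    exact one_ne_zero this.1
  obtain ⟨i, hi⟩ : ∃ i, x i ≠ 0 := by
    by_contra hcon
    push Not at hcon
    exact hx (funext hcon)
  have h1 := h (-(y i)) (x i) (by
    ext j
    have := congrFun (congrFun h0 i) j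
    simp only [wedge, Matrix.sub_apply, Matrix.vecMulVec_apply, Matrix.zero_apply] at this
    simp only [Pi.add_apply, Pi.smul_apply, smul_eq_mul, Pi.zero_apply]
    linarith)
  exact hi h1.2

private theorem gram_ne {x y : Fin 4 → ℝ} (h : LinearIndependent ℝ ![x, y]) :
    (x ⬝ᵥ x) * (y ⬝ᵥ y) - (x ⬝ᵥ y) ^ 2 ≠ 0 := by
  intro h0
  rw [LinearIndependent.pair_iff] at h
  set v : Fin 4 → ℝ := (x ⬝ᵥ x) • y - (x ⬝ᵥ y) • x with hv
  have e1 : x ⬝ᵥ v = 0 := by
    rw [hv, dotProduct_sub, dotProduct_smul, dotProduct_smul, smul_eq_mul, smul_eq_mul]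
    ring
  have e2 : y ⬝ᵥ v = 0 := by
    rw [hv, dotProduct_sub, dotProduct_smul, dotProduct_smul, smul_eq_mul, smul_eq_mul,
      dotProduct_comm y x]
    linarith
  have e3 : v ⬝ᵥ v = 0 := by
    nth_rewrite 1 [hv]
    rw [sub_dotProduct, smul_dotProduct, smul_dotProduct, e1, e2]
    simp
  have e4 : v = 0 := dotProduct_self_eq_zero.1 e3
  have h1 := h (-(x ⬝ᵥ y)) (x ⬝ᵥ x) (by
    rw [← e4, hv, neg_smul]
    abel)
  have hx : x = 0 := dotProduct_self_eq_zero.1 h1.2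
  subst hx
  have := h 1 0 (by simp)
  exact one_ne_zero this.1

private theorem pf_add_left (A A' B : Matrix (Fin 4) (Fin 4) ℝ) :
    pf (A + A') B = pf A B + pf A' B := by
  simp only [pf, Matrix.add_apply]
  ring

private theorem pf_smul_left (a : ℝ) (A B : Matrix (Fin 4) (Fin 4) ℝ) :
    pf (a • A) B = a * pf A B := by
  simp only [pf, Matrix.smul_apply, smul_eq_mul]
  ring

private theorem pf_add_right (A B B' : Matrix (Fin 4) (Fin 4) ℝ) :
    pf A (B + B') = pf A B + pf A B' := by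
  simp only [pf, Matrix.add_apply]
  ring

private theorem pf_smul_right (a : ℝ) (A B : Matrix (Fin 4) (Fin 4) ℝ) :
    pf A (a • B) = a * pf A B := by
  simp only [pf, Matrix.smul_apply, smul_eq_mul]
  ring

private theorem pf_zero_left (B : Matrix (Fin 4) (Fin 4) ℝ) : pf 0 B = 0 := by
  simp [pf]

private theorem pf_zero_right (A : Matrix (Fin 4) (Fin 4) ℝ) : pf A 0 = 0 := by
  simp [pf]

theorem trans_self {G : Type*} [Group G] (M : G →* Matrix (Fin 4) (Fin 4) ℝ) (G₀ : Subgroup G)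
    (hdet : ∀ g ∈ G₀, (M g).det = 1) (x₁ x₂ : Fin 4 → ℝ) (hind : LinearIndependent ℝ ![x₁, x₂]) :
    (∃ g ∈ G₀, (Matrix.of ![M g *ᵥ x₁, M g *ᵥ x₂, x₁, x₂]).det ≠ 0) ∨
    ∃ I : Submodule ℝ (Fin 4 → ℝ), (∀ g ∈ G₀, ∀ v ∈ I, M g *ᵥ v ∈ I) ∧
      ((I ≠ ⊥ ∧ I ≤ Submodule.span ℝ {x₁, x₂}) ∨ (I ≠ ⊤ ∧ Submodule.span ℝ {x₁, x₂} ≤ I)) := by
  by_cases hex : ∃ g ∈ G₀, (Matrix.of ![M g *ᵥ x₁, M g *ᵥ x₂, x₁, x₂]).det ≠ 0
  · exact Or.inl hex
  right
  push Not at hex
  set w : Matrix (Fin 4) (Fin 4) ℝ := wedge x₁ x₂ with hw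
  have hw0 : w ≠ 0 := wedge_ne_zero hind
  have hwt : wᵀ = -w := wedge_transpose x₁ x₂
  -- conjugates
  have hW : ∀ g, M g * w * (M g)ᵀ = wedge (M g *ᵥ x₁) (M g *ᵥ x₂) := fun g =>
    wedge_conj (M g) x₁ x₂
  set R : Submodule ℝ (Matrix (Fin 4) (Fin 4) ℝ) :=
    Submodule.span ℝ {A | ∃ g ∈ G₀, A = M g * w * (M g)ᵀ} with hRdef
  have hwR : w ∈ R := by
    refine Submodule.subset_span ⟨1, G₀.one_mem, ?_⟩
    rw [map_one, Matrix.transpose_one, Matrix.one_mul, Matrix.mul_one]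
  have halt : ∀ A ∈ R, Aᵀ = -A := by
    intro A hA
    induction hA using Submodule.span_induction with
    | mem A hA =>
      obtain ⟨g, -, rfl⟩ := hA
      rw [hW, wedge_transpose]
    | zero => simp
    | add A B _ _ ha hb => rw [Matrix.transpose_add, ha, hb, neg_add]
    | smul a A _ ha => rw [Matrix.transpose_smul, ha, smul_neg]
  have hRne : R ≠ ⊥ := by
    intro h
    rw [h, Submodule.mem_bot] at hwR
    exact hw0 hwR
  have hstab : ∀ g ∈ G₀, ∀ A ∈ R, M g * A * (M g)ᵀ ∈ R := by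
    intro g hg A hA
    induction hA using Submodule.span_induction with
    | mem A hA =>
      obtain ⟨h, hh, rfl⟩ := hA
      refine Submodule.subset_span ⟨g * h, G₀.mul_mem hg hh, ?_⟩
      rw [map_mul, Matrix.transpose_mul]
      simp only [Matrix.mul_assoc]
    | zero => simp
    | add A B _ _ ha hb =>
      rw [Matrix.mul_add, Matrix.add_mul]
      exact R.add_mem ha hb
    | smul a A _ ha =>
      rw [Matrix.mul_smul, Matrix.smul_mul]
      exact R.smul_mem a ha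
  have hinv1 : ∀ g, M g * M g⁻¹ = 1 := fun g => by rw [← map_mul, mul_inv_cancel, map_one]
  have hinv2 : ∀ g, M g⁻¹ * M g = 1 := fun g => by rw [← map_mul, inv_mul_cancel, map_one]
  have hgen : ∀ g ∈ G₀, ∀ h ∈ G₀, pf (M g * w * (M g)ᵀ) (M h * w * (M h)ᵀ) = 0 := by
    intro g hg h hh
    have e1 : M g * w * (M g)ᵀ =
        M h * (M (h⁻¹ * g) * w * (M (h⁻¹ * g))ᵀ) * (M h)ᵀ := by
      have e2 : M h * M (h⁻¹ * g) = M g := by rw [← map_mul, mul_inv_cancel_left]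
      have e3 : (M (h⁻¹ * g))ᵀ * (M h)ᵀ = (M g)ᵀ := by rw [← Matrix.transpose_mul, e2]
      calc M g * w * (M g)ᵀ = (M h * M (h⁻¹ * g)) * w * ((M (h⁻¹ * g))ᵀ * (M h)ᵀ) := by
            rw [e2, e3]
        _ = _ := by simp only [Matrix.mul_assoc]
    have hmem : h⁻¹ * g ∈ G₀ := G₀.mul_mem (G₀.inv_mem hh) hg
    rw [e1, pf_conj (M h) _ w (by rw [hW, wedge_transpose]) hwt, hdet h hh, one_mul, hW, hw,
      pf_wedge]
    exact hex _ hmem
  have hiso : ∀ A ∈ R, ∀ B ∈ R, pf A B = 0 := by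
    intro A hA B hB
    induction hA using Submodule.span_induction with
    | mem A hA =>
      obtain ⟨g, hg, rfl⟩ := hA
      induction hB using Submodule.span_induction with
      | mem B hB =>
        obtain ⟨h, hh, rfl⟩ := hB
        exact hgen g hg h hh
      | zero => exact pf_zero_right _
      | add B B' _ _ hb hb' => rw [pf_add_right, hb, hb', add_zero]
      | smul a B _ hb => rw [pf_smul_right, hb, mul_zero]
    | zero => exact pf_zero_left _
    | add A A' _ _ ha ha' => rw [pf_add_left, ha, ha', add_zero]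
    | smul a A _ ha => rw [pf_smul_left, ha, mul_zero]
  rcases iso_core R halt hRne hiso with ⟨I', hI', hAI⟩ | ⟨x, hx, hAx⟩
  · -- the span of the ranges
    refine ⟨Submodule.span ℝ {u | ∃ A ∈ R, ∃ v : Fin 4 → ℝ, u = A *ᵥ v}, ?_, Or.inr ⟨?_, ?_⟩⟩
    · intro g hg u hu
      induction hu using Submodule.span_induction with
      | mem u hu =>
        obtain ⟨A, hA, v, rfl⟩ := hu
        refine Submodule.subset_span ⟨M g * A * (M g)ᵀ, hstab g hg A hA, (M g⁻¹)ᵀ *ᵥ v, ?_⟩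
        rw [Matrix.mulVec_mulVec, Matrix.mulVec_mulVec, Matrix.mul_assoc (M g * A),
          ← Matrix.transpose_mul, hinv2, Matrix.transpose_one, Matrix.mul_one]
      | zero => simp
      | add u u' _ _ h1 h2 =>
        rw [Matrix.mulVec_add]
        exact Submodule.add_mem _ h1 h2
      | smul a u _ h1 =>
        rw [Matrix.mulVec_smul]
        exact Submodule.smul_mem _ a h1
    · intro htop
      apply hI'
      rw [eq_top_iff, ← htop, Submodule.span_le]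
      rintro u ⟨A, hA, v, rfl⟩
      exact hAI A hA v
    · rw [Submodule.span_le]
      have hg := gram_ne hind
      have k1 : ((x₁ ⬝ᵥ x₁) * (x₂ ⬝ᵥ x₂) - (x₁ ⬝ᵥ x₂) ^ 2) • x₁ =
          w *ᵥ ((x₁ ⬝ᵥ x₁) • x₂ - (x₁ ⬝ᵥ x₂) • x₁) := by
        rw [hw, wedge_mulVec, dotProduct_sub, dotProduct_smul, dotProduct_smul, dotProduct_sub,
          dotProduct_smul, dotProduct_smul, dotProduct_comm x₂ x₁]
        simp only [smul_eq_mul]
        have : (x₁ ⬝ᵥ x₁) * (x₁ ⬝ᵥ x₂) - (x₁ ⬝ᵥ x₂) * (x₁ ⬝ᵥ x₁) = 0 := by ring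
        rw [this, zero_smul, sub_zero, sq]
      have k2 : ((x₁ ⬝ᵥ x₁) * (x₂ ⬝ᵥ x₂) - (x₁ ⬝ᵥ x₂) ^ 2) • x₂ =
          w *ᵥ ((x₁ ⬝ᵥ x₂) • x₂ - (x₂ ⬝ᵥ x₂) • x₁) := by
        rw [hw, wedge_mulVec, dotProduct_sub, dotProduct_smul, dotProduct_smul, dotProduct_sub,
          dotProduct_smul, dotProduct_smul, dotProduct_comm x₂ x₁]
        simp only [smul_eq_mul]
        have : (x₁ ⬝ᵥ x₂) * (x₂ ⬝ᵥ x₂) - (x₂ ⬝ᵥ x₂) * (x₁ ⬝ᵥ x₂) = 0 := by ring
        rw [this, zero_smul, zero_sub, ← neg_smul]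
        congr 1
        ring
      have hmem : ∀ u : Fin 4 → ℝ, ∀ v, ((x₁ ⬝ᵥ x₁) * (x₂ ⬝ᵥ x₂) - (x₁ ⬝ᵥ x₂) ^ 2) • u =
          w *ᵥ v → u ∈ Submodule.span ℝ {u | ∃ A ∈ R, ∃ v : Fin 4 → ℝ, u = A *ᵥ v} := by
        intro u v huv
        have h1 : u = ((x₁ ⬝ᵥ x₁) * (x₂ ⬝ᵥ x₂) - (x₁ ⬝ᵥ x₂) ^ 2)⁻¹ • (w *ᵥ v) := by
          rw [← huv, smul_smul, inv_mul_cancel₀ hg, one_smul]
        rw [h1]
        exact Submodule.smul_mem _ _ (Submodule.subset_span ⟨w, hwR, v, rfl⟩)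
      rintro u (rfl | rfl)
      · exact hmem _ _ k1
      · exact hmem _ _ k2
  · -- the intersection of the ranges
    refine ⟨{ carrier := {u | ∀ A ∈ R, A ≠ 0 → ∃ v, A *ᵥ v = u}
              add_mem' := ?_
              zero_mem' := ?_
              smul_mem' := ?_ }, ?_, Or.inl ⟨?_, ?_⟩⟩
    · intro u u' hu hu' A hA hA0
      obtain ⟨v, rfl⟩ := hu A hA hA0
      obtain ⟨v', rfl⟩ := hu' A hA hA0
      exact ⟨v + v', Matrix.mulVec_add _ _ _⟩
    · intro A hA hA0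
      exact ⟨0, Matrix.mulVec_zero _⟩
    · intro a u hu A hA hA0
      obtain ⟨v, rfl⟩ := hu A hA hA0
      exact ⟨a • v, Matrix.mulVec_smul _ _ _⟩
    · intro g hg u hu A hA hA0
      have hB : M g⁻¹ * A * (M g⁻¹)ᵀ ∈ R := hstab g⁻¹ (G₀.inv_mem hg) A hA
      have hB0 : M g⁻¹ * A * (M g⁻¹)ᵀ ≠ 0 := by
        intro h0
        apply hA0
        have : M g * (M g⁻¹ * A * (M g⁻¹)ᵀ) * (M g)ᵀ = A := by
          calc M g * (M g⁻¹ * A * (M g⁻¹)ᵀ) * (M g)ᵀ
              = (M g * M g⁻¹) * A * ((M g⁻¹)ᵀ * (M g)ᵀ) := by simp only [Matrix.mul_assoc]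
            _ = A := by
              rw [← Matrix.transpose_mul, hinv1, Matrix.transpose_one, Matrix.one_mul,
                Matrix.mul_one]
        rw [← this, h0, Matrix.mul_zero, Matrix.zero_mul]
      obtain ⟨v, hv⟩ := hu _ hB hB0
      refine ⟨(M g⁻¹)ᵀ *ᵥ v, ?_⟩
      rw [← hv, Matrix.mulVec_mulVec, Matrix.mulVec_mulVec]
      congr 1
      calc A * (M g⁻¹)ᵀ = (M g * M g⁻¹) * A * (M g⁻¹)ᵀ := by rw [hinv1, Matrix.one_mul]
        _ = _ := by simp only [Matrix.mul_assoc]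
    · intro hbot
      apply hx
      have : x ∈ (⊥ : Submodule ℝ (Fin 4 → ℝ)) := by
        rw [← hbot]
        exact hAx
      simpa using this
    · intro u hu
      obtain ⟨v, rfl⟩ := hu w hwR hw0
      rw [hw, wedge_mulVec]
      exact Submodule.sub_mem _
        (Submodule.smul_mem _ _ (Submodule.subset_span (by simp)))
        (Submodule.smul_mem _ _ (Submodule.subset_span (by simp)))

end Pool.AF
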