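import Pool.Agent.Helper94.AC.Excl
import Pool.Agent.Helper94.AC.LU
import Pool.Agent.Helper94.AC.TransS

/-!
# AC-12 KILL: a bounded third coordinate is impossible
# (uses AC-7 `lu_prod`, AC-9 `trans_self`, AC-11 `excl`)

Proof. Write `M = S.mat b`, `A n = M (γ n) = P n * diagonal (t n) * Q n`; `det (A n) = 1`, so `P n`, `Q n`
are invertible. Let `w` be the permutation matrix of `Fin.rev` (`w i j = 1` if `j = rev i`), `w * w = 1`,
and `s n i = (t n (rev i))⁻¹`, antitone and positive: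
`(diagonal (t n))⁻¹ = w * diagonal (s n) * w`.

Step 1: there is `g ∈ G₀` such that all leading minors of `B₀ = Q₀ * M g * Q₀⁻¹ * w` are not zero.
By `hF.loc.prod` (used repeatedly for the products of the polynomial functions
`g ↦ lead (Q₀ * M g * Q₀⁻¹ * w)`) it is enough to find such a `g ∈ G₀` for each `k`.
`k = 0`: the empty determinant is `1`. `k = 4`: the determinant is `det (M g) * det w ≠ 0`.
`k = 1`: the entry `(0, 3)` of `Q₀ * M g * Q₀⁻¹`, a nonzero linear functional of `M g`: `hF.span`.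
`k = 3`: up to a sign the minor of `A' = Q₀ * M g * Q₀⁻¹` with rows `0, 1, 2` and columns `1, 2, 3`,
which is up to a sign the entry `(0, 3)` of the adjugate of `A'`, that is of
`Q₀ * M g⁻¹ * Q₀⁻¹` (determinant one): `hF.span` for `g⁻¹`.
`k = 2`: up to a sign the minor of `A'` with rows `0, 1` and columns `2, 3`. Let
`x₁ = Q₀⁻¹ *ᵥ e₂`, `x₂ = Q₀⁻¹ *ᵥ e₃` (`e i = Pi.single i 1`). The minor is the determinant of
`[A' e₂, A' e₃, e₂, e₃]` up to a sign, that is `± det Q₀ * det [M g x₁, M g x₂, x₁, x₂]`. So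
`trans_self` gives `g`, as its second alternative is impossible by `hF.irr` (`I = ⊥` or `I = ⊤`; in
the first case `I ≤ span {x₁, x₂} ≠ ⊤`, so `I = ⊥`; in the second `I ≥ span {x₁, x₂} ≠ ⊥`, so `I = ⊤`).

Step 2: put `h n = γ n * g * (γ n)⁻¹ ∈ G₀`; `M (h n) = P n * (diagonal (t n) * B n * diagonal (s n)) *
(w * (P n)⁻¹)` with `B n = Q n * M g * (Q n)⁻¹ * w → B₀`. By `lu_prod`, along a subsequence `φ`,
`M (h (φ n)) = (P (φ n) * P' n) * diagonal (t' n) * (Q' n * w * (P (φ n))⁻¹)`,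
`t' n i = t (φ n) i / t (φ n) (rev i)`, antitone, a `Cartan` decomposition, with
`t' n 0, t' n 1 → ∞` and `t' n 2, t' n 3 → 0` (`t₁ / t₂ → ∞` as `t₂ → c`, `t₀ / t₃ → ∞`). And
`‖S.base (h n)‖ ≤ C * ‖S.base g‖ * C`. This contradicts `excl` for `k = 2`.
-/

open Set Filter Topology Matrix

set_option linter.unusedSectionVars false

namespace Pool.AF

open Pool.SV

/-- the permutation matrix of `Fin.rev` -/
private def wK : Matrix (Fin 4) (Fin 4) ℝ := Matrix.of (fun i j => if j = Fin.rev i then 1 else 0)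

private theorem wK_apply (i j : Fin 4) : wK i j = if j = Fin.rev i then 1 else 0 := rfl

private theorem wK_mul (A : Matrix (Fin 4) (Fin 4) ℝ) (i j : Fin 4) :
    (wK * A) i j = A (Fin.rev i) j := by
  rw [Matrix.mul_apply, Finset.sum_eq_single (Fin.rev i)]
  · rw [wK_apply, if_pos rfl, one_mul]
  · intro k _ hk
    rw [wK_apply, if_neg hk, zero_mul]
  · intro h
    exact absurd (Finset.mem_univ _) h

private theorem mul_wK (A : Matrix (Fin 4) (Fin 4) ℝ) (i j : Fin 4) :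
    (A * wK) i j = A i (Fin.rev j) := by
  rw [Matrix.mul_apply, Finset.sum_eq_single (Fin.rev j)]
  · rw [wK_apply, if_pos (Fin.rev_rev j).symm, mul_one]
  · intro k _ hk
    rw [wK_apply, if_neg, mul_zero]
    intro h
    exact hk (by rw [h, Fin.rev_rev])
  · intro h
    exact absurd (Finset.mem_univ _) h

private theorem wK_wK : wK * wK = 1 := by
  ext i j
  rw [mul_wK, wK_apply, Matrix.one_apply]
  by_cases h : i = j
  · rw [if_pos h, if_pos (by rw [h])]
  · rw [if_neg h, if_neg]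
    intro h2
    exact h (Fin.rev_injective h2).symm

private theorem det_wK : wK.det ≠ 0 := by
  intro h
  have h1 := congrArg Matrix.det wK_wK
  rw [Matrix.det_mul, h, Matrix.det_one] at h1
  norm_num at h1

private theorem lead_zero (A : Matrix (Fin 4) (Fin 4) ℝ) (hk : 0 ≤ 4) : lead hk A = 1 := by
  unfold lead
  exact Matrix.det_fin_zero

private theorem lead_one (A : Matrix (Fin 4) (Fin 4) ℝ) (hk : 1 ≤ 4) : lead hk A = A 0 0 := by
  unfold lead
  rw [Matrix.det_fin_one]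
  rfl

private theorem lead_two (A : Matrix (Fin 4) (Fin 4) ℝ) (hk : 2 ≤ 4) :
    lead hk A = A 0 0 * A 1 1 - A 0 1 * A 1 0 := by
  unfold lead
  rw [Matrix.det_fin_two]
  rfl

private theorem lead_three (A : Matrix (Fin 4) (Fin 4) ℝ) (hk : 3 ≤ 4) :
    lead hk A = A.adjugate 3 3 := by
  unfold lead
  rw [Matrix.adjugate_fin_succ_eq_det_submatrix]
  have h1 : ((-1 : ℝ) ^ (((3 : Fin 4) : ℕ) + ((3 : Fin 4) : ℕ))) = 1 := by norm_num
  rw [h1, one_mul]
  congr 1
  ext i j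
  simp only [Matrix.submatrix_apply]
  have h2 : ∀ i : Fin 3, Fin.castLE hk i = (3 : Fin 4).succAbove i := by
    intro i
    fin_cases i <;> rfl
  rw [h2, h2]

private theorem lead_four (A : Matrix (Fin 4) (Fin 4) ℝ) (hk : 4 ≤ 4) : lead hk A = A.det := by
  unfold lead
  congr 1

section

variable {E : Type*} [NormedAddCommGroup E] [NormedSpace ℝ E] [FiniteDimensional ℝ E]
  {D : Geo E}

/-- the `(0,3)` entry of `Q * A * Q⁻¹` as a linear functional -/
private noncomputable def lK (Q : Matrix (Fin 4) (Fin 4) ℝ) :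
    Matrix (Fin 4) (Fin 4) ℝ →ₗ[ℝ] ℝ where
  toFun A := (Q * A * Q⁻¹) 0 3
  map_add' A B := by rw [Matrix.mul_add, Matrix.add_mul, Matrix.add_apply]
  map_smul' c A := by
    rw [Matrix.mul_smul, Matrix.smul_mul, Matrix.smul_apply, RingHom.id_apply]

private theorem lK_apply (Q A : Matrix (Fin 4) (Fin 4) ℝ) : lK Q A = (Q * A * Q⁻¹) 0 3 := rfl

private theorem exists_lK (S : InvSub D) (G₀ : Subgroup D.Γ) (b : Module.Basis (Fin 4) ℝ S.U)
    (hF : S.Full b G₀) (Q : Matrix (Fin 4) (Fin 4) ℝ) (hQ : Q.det ≠ 0) :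
    ∃ g ∈ G₀, (Q * S.mat b g * Q⁻¹) 0 3 ≠ 0 := by
  by_contra hcon
  push Not at hcon
  have h1 := hF.span (lK Q) (fun g hg => hcon g hg)
  have hu : IsUnit Q.det := isUnit_iff_ne_zero.mpr hQ
  have h2 : lK Q (Q⁻¹ * Matrix.single 0 3 1 * Q) = 1 := by
    rw [lK_apply]
    have : Q * (Q⁻¹ * Matrix.single 0 3 1 * Q) * Q⁻¹ = Matrix.single 0 3 1 := by
      rw [Matrix.mul_assoc, Matrix.mul_assoc (Q⁻¹ * _), Matrix.mul_nonsing_inv Q hu,
        Matrix.mul_one, ← Matrix.mul_assoc, Matrix.mul_nonsing_inv Q hu, Matrix.one_mul]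
    rw [this, Matrix.single_apply_same]
  rw [h1, LinearMap.zero_apply] at h2
  exact zero_ne_one h2

private theorem exists_two (S : InvSub D) (G₀ : Subgroup D.Γ) (b : Module.Basis (Fin 4) ℝ S.U)
    (hF : S.Full b G₀) (Q : Matrix (Fin 4) (Fin 4) ℝ) (hQ : Q.det ≠ 0) :
    ∃ g ∈ G₀, lead (show 2 ≤ 4 by norm_num) (Q * S.mat b g * Q⁻¹ * wK) ≠ 0 := by
  have hu : IsUnit Q.det := isUnit_iff_ne_zero.mpr hQ
  set x₁ : Fin 4 → ℝ := Q⁻¹ *ᵥ Pi.single 2 1 with hx₁
  set x₂ : Fin 4 → ℝ := Q⁻¹ *ᵥ Pi.single 3 1 with hx₂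
  have e1 : Q *ᵥ x₁ = Pi.single 2 1 := by
    rw [hx₁, Matrix.mulVec_mulVec, Matrix.mul_nonsing_inv Q hu, Matrix.one_mulVec]
  have e2 : Q *ᵥ x₂ = Pi.single 3 1 := by
    rw [hx₂, Matrix.mulVec_mulVec, Matrix.mul_nonsing_inv Q hu, Matrix.one_mulVec]
  have hind : LinearIndependent ℝ ![x₁, x₂] := by
    rw [LinearIndependent.pair_iff]
    intro s t hst
    have h1 := congrArg (fun v => Q *ᵥ v) hst
    simp only [Matrix.mulVec_add, Matrix.mulVec_smul, e1, e2, Matrix.mulVec_zero] at h1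
    have h2 := congrFun h1 2
    have h3 := congrFun h1 3
    simp at h2 h3
    exact ⟨h2, h3⟩
  rcases trans_self (S.mat b) G₀ (fun g hg => hF.det g hg) x₁ x₂ hind with ⟨g, hg, hdet⟩ | hI
  · refine ⟨g, hg, ?_⟩
    set A' : Matrix (Fin 4) (Fin 4) ℝ := Q * S.mat b g * Q⁻¹ with hA'
    have h1 : (Matrix.of ![S.mat b g *ᵥ x₁, S.mat b g *ᵥ x₂, x₁, x₂]) * Qᵀ
        = Matrix.of ![A' *ᵥ Pi.single 2 1, A' *ᵥ Pi.single 3 1, Pi.single 2 1, Pi.single 3 1] := by
      have hrow : ∀ (X : Matrix (Fin 4) (Fin 4) ℝ) (i j : Fin 4),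
          (X * Qᵀ) i j = (Q *ᵥ X i) j := by
        intro X i j
        rw [Matrix.mul_apply, Matrix.mulVec, dotProduct]
        refine Finset.sum_congr rfl (fun k _ => ?_)
        rw [Matrix.transpose_apply, mul_comm]
      have e3 : Q *ᵥ (S.mat b g *ᵥ x₁) = A' *ᵥ Pi.single 2 1 := by
        rw [hx₁, hA', Matrix.mulVec_mulVec, Matrix.mulVec_mulVec]
      have e4 : Q *ᵥ (S.mat b g *ᵥ x₂) = A' *ᵥ Pi.single 3 1 := by
        rw [hx₂, hA', Matrix.mulVec_mulVec, Matrix.mulVec_mulVec]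
      ext i j
      rw [hrow]
      fin_cases i
      · exact congrFun e3 j
      · exact congrFun e4 j
      · exact congrFun e1 j
      · exact congrFun e2 j
    have h2 := congrArg Matrix.det h1
    rw [Matrix.det_mul, Matrix.det_transpose] at h2
    have h3 : (Matrix.of ![A' *ᵥ Pi.single 2 1, A' *ᵥ Pi.single 3 1, Pi.single 2 1,
        Pi.single 3 1] : Matrix (Fin 4) (Fin 4) ℝ).det
        = A' 0 2 * A' 1 3 - A' 0 3 * A' 1 2 := by
      rw [Matrix.det_succ_row_zero]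
      simp [Fin.sum_univ_succ, Matrix.det_fin_three, Matrix.submatrix_apply, Fin.succAbove,
        Pi.single_apply]
      ring
    rw [h3] at h2
    rw [lead_two, mul_wK, mul_wK, mul_wK, mul_wK]
    have r0 : Fin.rev (0 : Fin 4) = 3 := rfl
    have r1 : Fin.rev (1 : Fin 4) = 2 := rfl
    rw [r0, r1]
    intro h4
    have h5 : A' 0 2 * A' 1 3 - A' 0 3 * A' 1 2 = 0 := by linarith
    rw [h5] at h2
    rcases mul_eq_zero.mp h2 with h6 | h6
    · exact hdet h6
    · exact hQ h6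
  · exfalso
    obtain ⟨I, hI, h1⟩ := hI
    rcases h1 with ⟨h1, h2⟩ | ⟨h1, h2⟩
    · rcases hF.irr I hI with h3 | h3
      · exact h1 h3
      · rw [h3] at h2
        have h4 : Q⁻¹ *ᵥ Pi.single 0 1 ∈ Submodule.span ℝ {x₁, x₂} := h2 Submodule.mem_top
        rw [Submodule.mem_span_pair] at h4
        obtain ⟨s, t, hst⟩ := h4
        have h5 := congrArg (fun v => Q *ᵥ v) hst
        simp only [Matrix.mulVec_add, Matrix.mulVec_smul, e1, e2, Matrix.mulVec_mulVec,
          Matrix.mul_nonsing_inv Q hu, Matrix.one_mulVec] at h5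
        have h6 := congrFun h5 0
        simp at h6
    · rcases hF.irr I hI with h3 | h3
      · rw [h3] at h2
        have h4 : x₁ ∈ (⊥ : Submodule ℝ (Fin 4 → ℝ)) :=
          h2 (Submodule.subset_span (Set.mem_insert _ _))
        rw [Submodule.mem_bot] at h4
        rw [h4, Matrix.mulVec_zero] at e1
        have h6 := congrFun e1 2
        simp at h6
      · exact h1 h3

/-- Step 1. -/
private theorem exists_gen (S : InvSub D) (G₀ : Subgroup D.Γ) (b : Module.Basis (Fin 4) ℝ S.U)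
    (hF : S.Full b G₀) (Q : Matrix (Fin 4) (Fin 4) ℝ) (hQ : Q.det ≠ 0) :
    ∃ g ∈ G₀, ∀ (k : ℕ) (hk : k ≤ 4), lead hk (Q * S.mat b g * Q⁻¹ * wK) ≠ 0 := by
  have hu : IsUnit Q.det := isUnit_iff_ne_zero.mpr hQ
  have hpoly : ∀ (k : ℕ) (hk : k ≤ 4),
      IsPoly (fun g => S.mat b g) (fun g => lead hk (Q * S.mat b g * Q⁻¹ * wK)) := by
    intro k hk
    unfold lead
    exact ((((IsPolyM.const Q).mul IsPolyM.self).mul (IsPolyM.const Q⁻¹)).mul
      (IsPolyM.const wK)).submatrix _ _ |>.det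
  have hr3 : Fin.rev (0 : Fin 4) = 3 := rfl
  have hr0 : Fin.rev (3 : Fin 4) = 0 := rfl
  have c1 : ∃ g ∈ G₀, lead (show 1 ≤ 4 by norm_num) (Q * S.mat b g * Q⁻¹ * wK) ≠ 0 := by
    obtain ⟨g, hg, h⟩ := exists_lK S G₀ b hF Q hQ
    refine ⟨g, hg, ?_⟩
    rw [lead_one, mul_wK, hr3]
    exact h
  have c2 := exists_two S G₀ b hF Q hQ
  have c3 : ∃ g ∈ G₀, lead (show 3 ≤ 4 by norm_num) (Q * S.mat b g * Q⁻¹ * wK) ≠ 0 := by
    obtain ⟨h, hh, h1⟩ := exists_lK S G₀ b hF Q hQ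
    refine ⟨h⁻¹, G₀.inv_mem hh, ?_⟩
    rw [lead_three]
    have hM : S.mat b h⁻¹ * S.mat b h = 1 := by rw [← map_mul, inv_mul_cancel, map_one]
    -- the inverse
    have h2 : (Q * S.mat b h⁻¹ * Q⁻¹ * wK) * (wK * (Q * S.mat b h * Q⁻¹)) = 1 := by
      have e1 : (Q * S.mat b h⁻¹ * Q⁻¹ * wK) * (wK * (Q * S.mat b h * Q⁻¹))
          = Q * S.mat b h⁻¹ * Q⁻¹ * (wK * wK) * (Q * S.mat b h * Q⁻¹) := by
        simp only [Matrix.mul_assoc]
      rw [e1, wK_wK, Matrix.mul_one]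
      have e2 : Q * S.mat b h⁻¹ * Q⁻¹ * (Q * S.mat b h * Q⁻¹)
          = Q * S.mat b h⁻¹ * (Q⁻¹ * Q) * S.mat b h * Q⁻¹ := by
        simp only [Matrix.mul_assoc]
      rw [e2, Matrix.nonsing_inv_mul Q hu, Matrix.mul_one, Matrix.mul_assoc Q, hM,
        Matrix.mul_one, Matrix.mul_nonsing_inv Q hu]
    set B : Matrix (Fin 4) (Fin 4) ℝ := Q * S.mat b h⁻¹ * Q⁻¹ * wK with hB
    set B' : Matrix (Fin 4) (Fin 4) ℝ := wK * (Q * S.mat b h * Q⁻¹) with hB'
    have h3 : B.adjugate = B.det • B' := by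
      have h4 : B.adjugate * (B * B') = B.det • B' := by
        rw [← Matrix.mul_assoc, Matrix.adjugate_mul, Matrix.smul_mul, Matrix.one_mul]
      rw [h2, Matrix.mul_one] at h4
      exact h4
    rw [h3, Matrix.smul_apply, hB', wK_mul, hr0, smul_eq_mul]
    apply mul_ne_zero _ h1
    intro h0
    have h4 := congrArg Matrix.det h2
    rw [Matrix.det_mul, h0, Matrix.det_one] at h4
    norm_num at h4
  obtain ⟨g₁, hg₁, h12⟩ := hF.loc.prod _ _ (hpoly 1 (by norm_num)) (hpoly 2 (by norm_num)) c1 c2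
  obtain ⟨g, hg, h123⟩ := hF.loc.prod _ _
    ((hpoly 1 (by norm_num)).mul (hpoly 2 (by norm_num))) (hpoly 3 (by norm_num))
    ⟨g₁, hg₁, mul_ne_zero h12.1 h12.2⟩ c3
  refine ⟨g, hg, fun k hk => ?_⟩
  interval_cases k
  · rw [lead_zero]; exact one_ne_zero
  · exact left_ne_zero_of_mul h123.1
  · exact right_ne_zero_of_mul h123.1
  · exact h123.2
  · rw [lead_four]
    have hM : S.mat b g * S.mat b g⁻¹ = 1 := by rw [← map_mul, mul_inv_cancel, map_one]
    have hM' : (S.mat b g).det ≠ 0 := by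
      intro h0
      have h4 := congrArg Matrix.det hM
      rw [Matrix.det_mul, h0, Matrix.det_one] at h4
      norm_num at h4
    have hQ' : (Q⁻¹).det ≠ 0 := by
      intro h0
      have h4 := congrArg Matrix.det (Matrix.mul_nonsing_inv Q hu)
      rw [Matrix.det_mul, h0, Matrix.det_one] at h4
      norm_num at h4
    rw [Matrix.det_mul, Matrix.det_mul, Matrix.det_mul]
    exact mul_ne_zero (mul_ne_zero (mul_ne_zero hQ hM') hQ') det_wK

theorem kill_a (S : InvSub D) (G₀ : Subgroup D.Γ) (b : Module.Basis (Fin 4) ℝ S.U)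
    (hF : S.Full b G₀) (γ : ℕ → D.Γ) (hγ : ∀ n, γ n ∈ G₀) (C : ℝ)
    (hb : ∀ n, ‖S.base (γ n)‖ ≤ C) (hb' : ∀ n, ‖S.base (γ n)⁻¹‖ ≤ C)
    (P Q : ℕ → Matrix (Fin 4) (Fin 4) ℝ) (t : ℕ → Fin 4 → ℝ) (P₀ Q₀ : Matrix (Fin 4) (Fin 4) ℝ)
    (hC : Cartan (fun n => S.mat b (γ n)) P Q t P₀ Q₀)
    (h0 : Tendsto (fun n => t n 0) atTop atTop) (h1 : Tendsto (fun n => t n 1) atTop atTop)
    (c : ℝ) (hc : 0 < c) (h2 : Tendsto (fun n => t n 2) atTop (𝓝 c))
    (h3 : Tendsto (fun n => t n 3) atTop (𝓝 0)) : False := by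
  obtain ⟨g, hg, hlead⟩ := exists_gen S G₀ b hF Q₀ hC.detQ
  have hPQ : ∀ n, (P n).det ≠ 0 ∧ (Q n).det ≠ 0 := by
    intro n
    have h4 := hF.det _ (hγ n)
    have h5 := hC.dec n
    rw [show S.mat b (γ n) = P n * Matrix.diagonal (t n) * Q n from h5, Matrix.det_mul,
      Matrix.det_mul] at h4
    constructor
    · intro h; rw [h] at h4; norm_num at h4
    · intro h; rw [h] at h4; norm_num at h4
  have hPu : ∀ n, IsUnit (P n).det := fun n => isUnit_iff_ne_zero.mpr (hPQ n).1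
  have hQu : ∀ n, IsUnit (Q n).det := fun n => isUnit_iff_ne_zero.mpr (hPQ n).2
  -- the reversed diagonal
  set s : ℕ → Fin 4 → ℝ := fun n i => (t n (Fin.rev i))⁻¹ with hs
  have hspos : ∀ n i, 0 < s n i := fun n i => inv_pos.mpr (hC.pos n _)
  have hsanti : ∀ n, Antitone (s n) := by
    intro n i j hij
    exact inv_anti₀ (hC.pos n _) (hC.anti n (Fin.rev_le_rev.mpr hij))
  have hdiag : ∀ n, Matrix.diagonal (t n) * (wK * Matrix.diagonal (s n) * wK) = 1 := by
    intro n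
    ext i j
    rw [Matrix.diagonal_mul, mul_wK, wK_mul, Matrix.one_apply]
    by_cases hij : i = j
    · rw [if_pos hij, hij, Matrix.diagonal_apply_eq, hs]
      simp only [Fin.rev_rev]
      exact mul_inv_cancel₀ (hC.pos n j).ne'
    · rw [if_neg hij, Matrix.diagonal_apply_ne, mul_zero]
      intro h
      exact hij (Fin.rev_injective h)
  -- limits
  have hQinv : Tendsto (fun n => (Q n)⁻¹) atTop (𝓝 Q₀⁻¹) := by
    have : ContinuousAt (fun A : Matrix (Fin 4) (Fin 4) ℝ => A⁻¹) Q₀ :=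
      continuousAt_matrix_inv Q₀ (NormedRing.inverse_continuousAt
        (Units.mk0 Q₀.det hC.detQ))
    exact this.tendsto.comp hC.limQ
  have hPinv : Tendsto (fun n => (P n)⁻¹) atTop (𝓝 P₀⁻¹) := by
    have : ContinuousAt (fun A : Matrix (Fin 4) (Fin 4) ℝ => A⁻¹) P₀ :=
      continuousAt_matrix_inv P₀ (NormedRing.inverse_continuousAt
        (Units.mk0 P₀.det hC.detP))
    exact this.tendsto.comp hC.limP
  set B : ℕ → Matrix (Fin 4) (Fin 4) ℝ := fun n => Q n * S.mat b g * (Q n)⁻¹ * wK with hB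
  have hBlim : Tendsto B atTop (𝓝 (Q₀ * S.mat b g * Q₀⁻¹ * wK)) := by
    have e1 : Tendsto (fun n => Q n * S.mat b g) atTop (𝓝 (Q₀ * S.mat b g)) :=
      hC.limQ.mul tendsto_const_nhds
    have e2 := e1.mul hQinv
    exact e2.mul tendsto_const_nhds
  obtain ⟨φ, P', Q', P₀', Q₀', hφ, hP', hQ', hdP', hdQ', hdec'⟩ :=
    lu_prod B _ hBlim hlead t s hC.pos hC.anti hspos hsanti
  -- the new sequence
  have hφt : Tendsto φ atTop atTop := hφ.tendsto_atTop
  set h : ℕ → D.Γ := fun n => γ (φ n) * g * (γ (φ n))⁻¹ with hh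
  have hhG : ∀ n, h n ∈ G₀ := fun n => G₀.mul_mem (G₀.mul_mem (hγ _) hg) (G₀.inv_mem (hγ _))
  have hMinv : ∀ n, S.mat b (γ n)⁻¹
      = (Q n)⁻¹ * (wK * Matrix.diagonal (s n) * wK) * (P n)⁻¹ := by
    intro n
    have h5 : S.mat b (γ n) = P n * Matrix.diagonal (t n) * Q n := hC.dec n
    have e1 : S.mat b (γ n)⁻¹ * S.mat b (γ n) = 1 := by
      rw [← map_mul, inv_mul_cancel, map_one]
    have e2 : S.mat b (γ n) * ((Q n)⁻¹ * (wK * Matrix.diagonal (s n) * wK) * (P n)⁻¹) = 1 := by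
      rw [h5]
      have e3 : P n * Matrix.diagonal (t n) * Q n *
          ((Q n)⁻¹ * (wK * Matrix.diagonal (s n) * wK) * (P n)⁻¹)
          = P n * (Matrix.diagonal (t n) * ((Q n * (Q n)⁻¹) *
            (wK * Matrix.diagonal (s n) * wK))) * (P n)⁻¹ := by
        simp only [Matrix.mul_assoc]
      rw [e3, Matrix.mul_nonsing_inv _ (hQu n), Matrix.one_mul, hdiag, Matrix.mul_one,
        Matrix.mul_nonsing_inv _ (hPu n)]
    calc S.mat b (γ n)⁻¹ = S.mat b (γ n)⁻¹ *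
          (S.mat b (γ n) * ((Q n)⁻¹ * (wK * Matrix.diagonal (s n) * wK) * (P n)⁻¹)) := by
          rw [e2, Matrix.mul_one]
      _ = _ := by rw [← Matrix.mul_assoc, e1, Matrix.one_mul]
  have hdec : ∀ n, S.mat b (h n) = (P (φ n) * P' n) *
      Matrix.diagonal (fun i => t (φ n) i * s (φ n) i) * (Q' n * wK * (P (φ n))⁻¹) := by
    intro n
    have e1 : S.mat b (h n) = S.mat b (γ (φ n)) * S.mat b g * S.mat b (γ (φ n))⁻¹ := by
      rw [hh]
      simp only [map_mul]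
    rw [e1, hMinv, show S.mat b (γ (φ n)) = P (φ n) * Matrix.diagonal (t (φ n)) * Q (φ n) from
      hC.dec (φ n)]
    have e2 : P (φ n) * Matrix.diagonal (t (φ n)) * Q (φ n) * S.mat b g *
        ((Q (φ n))⁻¹ * (wK * Matrix.diagonal (s (φ n)) * wK) * (P (φ n))⁻¹)
        = P (φ n) * (Matrix.diagonal (t (φ n)) * B (φ n) * Matrix.diagonal (s (φ n))) *
          (wK * (P (φ n))⁻¹) := by
      rw [hB]
      simp only [Matrix.mul_assoc]
    rw [e2, hdec' n]
    simp only [Matrix.mul_assoc]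
  have hPinvdet : (P₀⁻¹).det ≠ 0 := by
    intro h0
    have h4 := congrArg Matrix.det
      (Matrix.mul_nonsing_inv P₀ (isUnit_iff_ne_zero.mpr hC.detP))
    rw [Matrix.det_mul, h0, Matrix.det_one] at h4
    norm_num at h4
  have hCar : Cartan (fun n => S.mat b (h n)) (fun n => P (φ n) * P' n)
      (fun n => Q' n * wK * (P (φ n))⁻¹) (fun n i => t (φ n) i * s (φ n) i) (P₀ * P₀')
      (Q₀' * wK * P₀⁻¹) := by
    refine ⟨hdec, fun n i => mul_pos (hC.pos _ _) (hspos _ _), ?_, ?_, ?_, ?_, ?_⟩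
    · intro n i j hij
      exact mul_le_mul (hC.anti _ hij) (hsanti _ hij) (hspos _ _).le (hC.pos _ _).le
    · exact (hC.limP.comp hφt).mul hP'
    · exact (hQ'.mul tendsto_const_nhds).mul (hPinv.comp hφt)
    · rw [Matrix.det_mul]; exact mul_ne_zero hC.detP hdP'
    · rw [Matrix.det_mul, Matrix.det_mul]
      exact mul_ne_zero (mul_ne_zero hdQ' det_wK) hPinvdet
  -- the limits of the diagonal entries
  have r0 : Fin.rev (0 : Fin 4) = 3 := rfl
  have r1 : Fin.rev (1 : Fin 4) = 2 := rfl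
  have r2 : Fin.rev (2 : Fin 4) = 1 := rfl
  have r3 : Fin.rev (3 : Fin 4) = 0 := rfl
  have h3inv : Tendsto (fun n => (t n 3)⁻¹) atTop atTop := by
    apply Tendsto.inv_tendsto_nhdsGT_zero
    rw [tendsto_nhdsWithin_iff]
    exact ⟨h3, Eventually.of_forall (fun n => hC.pos n 3)⟩
  have h2inv : Tendsto (fun n => (t n 2)⁻¹) atTop (𝓝 c⁻¹) := h2.inv₀ hc.ne'
  have h1inv : Tendsto (fun n => (t n 1)⁻¹) atTop (𝓝 0) := h1.inv_tendsto_atTop
  have h0inv : Tendsto (fun n => (t n 0)⁻¹) atTop (𝓝 0) := h0.inv_tendsto_atTop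
  have l0 : Tendsto (fun n => t n 0 * s n 0) atTop atTop := by
    rw [hs]; simp only [r0]
    exact h0.atTop_mul_atTop₀ h3inv
  have l1 : Tendsto (fun n => t n 1 * s n 1) atTop atTop := by
    rw [hs]; simp only [r1]
    exact h1.atTop_mul_pos (inv_pos.mpr hc) h2inv
  have l2 : Tendsto (fun n => t n 2 * s n 2) atTop (𝓝 0) := by
    rw [hs]; simp only [r2]
    have := h2.mul h1inv
    rwa [mul_zero] at this
  have l3 : Tendsto (fun n => t n 3 * s n 3) atTop (𝓝 0) := by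
    rw [hs]; simp only [r3]
    have := h3.mul h0inv
    rwa [mul_zero] at this
  have hC0 : 0 ≤ C := (norm_nonneg _).trans (hb 0)
  refine excl S G₀ b hF h hhG (C * ‖S.base g‖ * C + C * ‖S.base g⁻¹‖ * C) ?_ ?_ _ _ _ _ _ hCar 2
    (by norm_num) (by norm_num) ?_ ?_
  · intro n
    have e1 : S.base (h n) = S.base (γ (φ n)) * S.base g * S.base (γ (φ n))⁻¹ := by
      rw [hh]; simp only [map_mul]
    rw [e1]
    have e2 : ‖S.base (γ (φ n)) * S.base g * S.base (γ (φ n))⁻¹‖ ≤ C * ‖S.base g‖ * C := by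
      refine (norm_mul_le _ _).trans (mul_le_mul ((norm_mul_le _ _).trans
        (mul_le_mul_of_nonneg_right (hb _) (norm_nonneg _))) (hb' _) (norm_nonneg _)
        (by positivity))
    have e3 : 0 ≤ C * ‖S.base g⁻¹‖ * C := by positivity
    linarith
  · intro n
    have e0 : (h n)⁻¹ = γ (φ n) * g⁻¹ * (γ (φ n))⁻¹ := by
      rw [hh]; group
    have e1 : S.base (h n)⁻¹ = S.base (γ (φ n)) * S.base g⁻¹ * S.base (γ (φ n))⁻¹ := by
      rw [e0]; simp only [map_mul]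
    rw [e1]
    have e2 : ‖S.base (γ (φ n)) * S.base g⁻¹ * S.base (γ (φ n))⁻¹‖ ≤ C * ‖S.base g⁻¹‖ * C := by
      refine (norm_mul_le _ _).trans (mul_le_mul ((norm_mul_le _ _).trans
        (mul_le_mul_of_nonneg_right (hb _) (norm_nonneg _))) (hb' _) (norm_nonneg _)
        (by positivity))
    have e3 : 0 ≤ C * ‖S.base g‖ * C := by positivity
    linarith
  · intro i hi
    fin_cases i
    · exact l0.comp hφt
    · exact l1.comp hφt
    · simp at hi
    · simp at hi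
  · intro i hi
    fin_cases i
    · simp at hi
    · simp at hi
    · exact l2.comp hφt
    · exact l3.comp hφt

end

end Pool.AF
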