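import Pool.Agent.Helper94.AC.Four
import Pool.Agent.Helper94.AB.Seqs

/-!
# AC-15 LIMF: limit data and the limit character

Follow `Pool/Agent/Helper94/AB/Seqs.lean` (`exists_limData`, `LimData.h1`, `h2`, `hbd`, `char`), with
`nm` instead of the operator norm, `Four.min` (for `f` and `f⁻¹`) instead of `Rec3.rat`, and
`Four.near` instead of `Rec3.large`.

`exists_limM`: by `near` there are `c n` with `‖τ (c n) - 1‖ < 1 / (n + 1)` and `nm (M (c n)) > n + 1`.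
`τ (c n) → 1` and `τ (c n)⁻¹ → 1` (`tendsto_base_inv`), so both are bounded by some `C`; let `K` be
given by `Four.min`. Put `a n = nm (M (c n))`: the matrices `(a n)⁻¹ • M (c n)` have `nm = 1` and
`(a n)⁻¹ • M (c n)⁻¹` (`M (c n)⁻¹ = M ((c n)⁻¹)`) has `K⁻¹ ≤ nm ≤ K` (`min` for `c n` and `(c n)⁻¹`;
`K > 0`). Pass to a convergent subsequence: the limits `B, B'` are not zero. Their `2 × 2` minors
vanish: `|minor of (a n)⁻¹ • M (c n)| ≤ K * nm (M (c n)) / (a n) ^ 2 = K / a n → 0`, the same for the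
inverses. A nonzero matrix all of whose `2 × 2` minors vanish is `vecMulVec x y` with
`x, y ≠ 0` (if `B i j ≠ 0` take `x = column j`, `y = (B i j)⁻¹ • row i`).

`LimM.char`: apply `lim_char` with `t₁ f = L.y ⬝ᵥ M f *ᵥ L.x` and `t₂ f = L.y' ⬝ᵥ M f⁻¹ *ᵥ L.x'`.
`h1`, `h2`: `M (f * γ n * g) / a n → M f * vecMulVec x y * M g` (`(f * γ n * g)⁻¹ =
g⁻¹ * (γ n)⁻¹ * f⁻¹`). `hdense`: `t₁` is a polynomial function, not identically zero (`Four.span` for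
the functional `A ↦ y ⬝ᵥ A *ᵥ x`, not zero as `x, y ≠ 0`). `hbd`: as in `LimData.hbd`:
`(a n)⁻² • M (γ n * f * γ n) → t₁ f • vecMulVec x y` and
`(a n)⁻² • M (γ n * f * γ n)⁻¹ → t₂ f • vecMulVec x' y'`, and the `nm` of the matrices
are comparable by `Four.min` with a constant depending only on the bound of `‖τ f‖, ‖τ f⁻¹‖`.
-/

open Set Filter Topology Matrix

set_option linter.unusedSectionVars false

namespace Pool.AF

section

variable {G R : Type*} [Group G] [NormedRing R] [NormedAlgebra ℝ R] [CompleteSpace R]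
  {τ : G →* R} {M : G →* Matrix (Fin 4) (Fin 4) ℝ}

private theorem nm_nonneg4 (A : Matrix (Fin 4) (Fin 4) ℝ) : 0 ≤ nm A :=
  Finset.sum_nonneg (fun _ _ => Finset.sum_nonneg (fun _ _ => abs_nonneg _))

private theorem nm_smul4 (c : ℝ) (A : Matrix (Fin 4) (Fin 4) ℝ) : nm (c • A) = |c| * nm A := by
  rw [nm, nm, Finset.mul_sum]
  refine Finset.sum_congr rfl (fun i _ => ?_)
  rw [Finset.mul_sum]
  refine Finset.sum_congr rfl (fun j _ => ?_)
  rw [Matrix.smul_apply, smul_eq_mul, abs_mul]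

private theorem nm_cont4 : Continuous (fun A : Matrix (Fin 4) (Fin 4) ℝ => nm A) := by
  unfold nm
  refine continuous_finsetSum _ (fun i _ => continuous_finsetSum _ (fun j _ => ?_))
  exact (continuous_apply_apply i j).abs

private theorem le_nm4 (A : Matrix (Fin 4) (Fin 4) ℝ) (i j : Fin 4) : |A i j| ≤ nm A := by
  have h1 : |A i j| ≤ ∑ k, |A i k| :=
    Finset.single_le_sum (f := fun k => |A i k|) (fun _ _ => abs_nonneg _) (Finset.mem_univ j)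
  have h2 : ∑ k, |A i k| ≤ nm A :=
    Finset.single_le_sum (f := fun l => ∑ k, |A l k|)
      (fun _ _ => Finset.sum_nonneg (fun _ _ => abs_nonneg _)) (Finset.mem_univ i)
  exact h1.trans h2

private theorem nm_pos4 {A : Matrix (Fin 4) (Fin 4) ℝ} (h : A ≠ 0) : 0 < nm A := by
  rcases (nm_nonneg4 A).lt_or_eq with h1 | h1
  · exact h1
  · exfalso
    apply h
    ext i j
    have := le_nm4 A i j
    rw [← h1] at this
    exact abs_eq_zero.1 (le_antisymm this (abs_nonneg _))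

/-- a nonzero matrix whose minors of size two vanish -/
private theorem rank_one4 {B : Matrix (Fin 4) (Fin 4) ℝ} (hB : B ≠ 0)
    (hm : ∀ i j k l, B i j * B k l = B i l * B k j) :
    ∃ x y : Fin 4 → ℝ, x ≠ 0 ∧ y ≠ 0 ∧ B = Matrix.vecMulVec x y := by
  obtain ⟨i₀, j₀, h0⟩ : ∃ i j, B i j ≠ 0 := by
    by_contra hcon
    push Not at hcon
    exact hB (by ext i j; exact hcon i j)
  refine ⟨fun i => B i j₀, fun j => (B i₀ j₀)⁻¹ * B i₀ j, ?_, ?_, ?_⟩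
  · intro h
    exact h0 (congrFun h i₀)
  · intro h
    have h1 := congrFun h j₀
    simp only [Pi.zero_apply] at h1
    rw [inv_mul_cancel₀ h0] at h1
    exact one_ne_zero h1
  · ext i j
    rw [Matrix.vecMulVec_apply]
    have := hm i j i₀ j₀
    field_simp
    linarith

private theorem vmv_ne4 {x y : Fin 4 → ℝ} (hx : x ≠ 0) (hy : y ≠ 0) :
    Matrix.vecMulVec x y ≠ 0 := by
  intro h
  obtain ⟨i, hi⟩ := Function.ne_iff.1 hx
  obtain ⟨j, hj⟩ := Function.ne_iff.1 hy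
  have h1 : x i * y j = 0 := by
    rw [← Matrix.vecMulVec_apply, h]
    rfl
  exact mul_ne_zero hi hj h1

private theorem bf_mid (y x u v : Fin 4 → ℝ) (A B : Matrix (Fin 4) (Fin 4) ℝ) :
    y ⬝ᵥ (A * Matrix.vecMulVec u v * B) *ᵥ x = (y ⬝ᵥ A *ᵥ u) * (v ⬝ᵥ B *ᵥ x) := by
  rw [Matrix.mul_vecMulVec, Matrix.vecMulVec_mul, Matrix.vecMulVec_mulVec, op_smul_eq_smul,
    dotProduct_smul, smul_eq_mul, ← Matrix.dotProduct_mulVec, mul_comm]

private theorem vmv_mid (u v : Fin 4 → ℝ) (A : Matrix (Fin 4) (Fin 4) ℝ) :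
    Matrix.vecMulVec u v * A * Matrix.vecMulVec u v =
      (v ⬝ᵥ A *ᵥ u) • Matrix.vecMulVec u v := by
  rw [Matrix.vecMulVec_mul, Matrix.vecMulVec_mul_vecMulVec, ← Matrix.dotProduct_mulVec]
  ext i j
  simp only [Matrix.vecMulVec_apply, Pi.smul_apply, smul_eq_mul, Matrix.smul_apply]
  ring

theorem exists_limM (hF : Four τ M) : Nonempty (LimM τ M) := by
  have h0 : ∀ n : ℕ, ∃ c, ‖τ c - 1‖ < 1 / ((n : ℝ) + 1) ∧ (n : ℝ) + 1 < nm (M c) := fun n =>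
    hF.near _ _ (by positivity)
  choose c hc1 hc2 using h0
  have hbase : Tendsto (fun n => τ (c n)) atTop (𝓝 1) := by
    rw [tendsto_iff_norm_sub_tendsto_zero]
    exact squeeze_zero (fun n => norm_nonneg _) (fun n => (hc1 n).le)
      tendsto_one_div_add_atTop_nhds_zero_nat
  have hbase' := tendsto_base_inv τ c hbase
  obtain ⟨C₁, hC₁⟩ := hbase.norm.bddAbove_range
  obtain ⟨C₂, hC₂⟩ := hbase'.norm.bddAbove_range
  obtain ⟨K, hK⟩ := hF.min (max C₁ C₂)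
  have hb1 : ∀ n, ‖τ (c n)‖ ≤ max C₁ C₂ := fun n => (hC₁ ⟨n, rfl⟩).trans (le_max_left _ _)
  have hb2 : ∀ n, ‖τ (c n)⁻¹‖ ≤ max C₁ C₂ := fun n => (hC₂ ⟨n, rfl⟩).trans (le_max_right _ _)
  have hr1 : ∀ n, nm (M (c n)) ≤ K * nm (M (c n)⁻¹) := fun n => (hK _ (hb1 n) (hb2 n)).2
  have hr2 : ∀ n, nm (M (c n)⁻¹) ≤ K * nm (M (c n)) := by
    intro n
    have := (hK (c n)⁻¹ (hb2 n) (by rw [inv_inv]; exact hb1 n)).2
    rwa [inv_inv] at this
  have hm1 : ∀ n i j k l, |M (c n) i j * M (c n) k l - M (c n) i l * M (c n) k j| ≤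
      K * nm (M (c n)) := fun n => (hK _ (hb1 n) (hb2 n)).1
  have hm2 : ∀ n i j k l, |M (c n)⁻¹ i j * M (c n)⁻¹ k l - M (c n)⁻¹ i l * M (c n)⁻¹ k j| ≤
      K * nm (M (c n)⁻¹) := fun n =>
    (hK (c n)⁻¹ (hb2 n) (by rw [inv_inv]; exact hb1 n)).1
  obtain ⟨a, ha⟩ : ∃ a : ℕ → ℝ, a = fun n => nm (M (c n)) := ⟨_, rfl⟩
  have han : ∀ n, a n = nm (M (c n)) := fun n => by rw [ha]
  have hpos : ∀ n, 0 < a n := by
    intro n
    rw [han]
    have := hc2 n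
    have h3 : (0 : ℝ) ≤ n := Nat.cast_nonneg n
    linarith
  have hKpos : 0 < K := by
    by_contra hcon
    push Not at hcon
    have h1 := hr1 0
    have h2 := hpos 0
    rw [han] at h2
    have h3 := nm_nonneg4 (M (c 0)⁻¹)
    nlinarith
  have hinf : Tendsto a atTop atTop := by
    refine tendsto_atTop_mono (fun n => ?_) tendsto_natCast_atTop_atTop
    rw [han]
    have := hc2 n
    linarith
  -- a convergent subsequence
  obtain ⟨Rr, hRr⟩ : ∃ Rr : ℝ, Rr = max 1 K := ⟨_, rfl⟩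
  have hbox : IsCompact (Set.pi univ (fun _ : Fin 4 => Set.pi univ
      (fun _ : Fin 4 => Set.Icc (-Rr) Rr))) :=
    isCompact_univ_pi (fun _ => isCompact_univ_pi (fun _ => isCompact_Icc))
  have hcpt := hbox.prod hbox
  have hin : ∀ n, (((fun i j => (a n)⁻¹ * M (c n) i j), (fun i j => (a n)⁻¹ * M (c n)⁻¹ i j)) :
      (Fin 4 → Fin 4 → ℝ) × (Fin 4 → Fin 4 → ℝ)) ∈
      (Set.pi univ (fun _ : Fin 4 => Set.pi univ (fun _ : Fin 4 => Set.Icc (-Rr) Rr))) ×ˢ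
      (Set.pi univ (fun _ : Fin 4 => Set.pi univ (fun _ : Fin 4 => Set.Icc (-Rr) Rr))) := by
    intro n
    have hp := hpos n
    refine ⟨fun i _ j _ => ?_, fun i _ j _ => ?_⟩
    · change (a n)⁻¹ * M (c n) i j ∈ Set.Icc (-Rr) Rr
      rw [Set.mem_Icc, ← abs_le, abs_mul, abs_inv, abs_of_pos hp, inv_mul_le_iff₀ hp]
      refine (le_nm4 _ i j).trans ?_
      rw [← han]
      have : (1 : ℝ) ≤ Rr := by rw [hRr]; exact le_max_left _ _
      nlinarith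
    · change (a n)⁻¹ * M (c n)⁻¹ i j ∈ Set.Icc (-Rr) Rr
      rw [Set.mem_Icc, ← abs_le, abs_mul, abs_inv, abs_of_pos hp, inv_mul_le_iff₀ hp]
      refine ((le_nm4 _ i j).trans (hr2 n)).trans ?_
      rw [← han]
      have : K ≤ Rr := by rw [hRr]; exact le_max_right _ _
      nlinarith
  obtain ⟨⟨B, B'⟩, _, φ, hφ, hlim⟩ := hcpt.tendsto_subseq hin
  rw [Prod.tendsto_iff] at hlim
  obtain ⟨hl1, hl2⟩ := hlim
  simp only [Function.comp_def] at hl1 hl2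
  obtain ⟨B, B', hl1, hl2⟩ : ∃ B B' : Matrix (Fin 4) (Fin 4) ℝ,
      Tendsto (fun n => (a (φ n))⁻¹ • M (c (φ n))) atTop (𝓝 B) ∧
      Tendsto (fun n => (a (φ n))⁻¹ • M (c (φ n))⁻¹) atTop (𝓝 B') :=
    ⟨Matrix.of B, Matrix.of B', hl1, hl2⟩
  have hainf : Tendsto (fun n => a (φ n)) atTop atTop := hinf.comp hφ.tendsto_atTop
  have hB0 : B ≠ 0 := by
    intro h
    have h1 := (nm_cont4.tendsto _).comp hl1
    rw [h] at h1
    have h2 : (fun A : Matrix (Fin 4) (Fin 4) ℝ => nm A) ∘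
        (fun n => (a (φ n))⁻¹ • M (c (φ n))) = fun _ => (1 : ℝ) := by
      funext n
      rw [Function.comp_apply, nm_smul4, abs_inv, abs_of_pos (hpos _), ← han]
      exact inv_mul_cancel₀ (hpos _).ne'
    rw [h2] at h1
    have h3 : nm (0 : Matrix (Fin 4) (Fin 4) ℝ) = 0 := by simp [nm]
    rw [h3] at h1
    exact one_ne_zero (tendsto_nhds_unique tendsto_const_nhds h1)
  have hB0' : B' ≠ 0 := by
    intro h
    have h1 := (nm_cont4.tendsto _).comp hl2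
    rw [h] at h1
    have h3 : nm (0 : Matrix (Fin 4) (Fin 4) ℝ) = 0 := by simp [nm]
    rw [h3] at h1
    have h2 : ∀ n, K⁻¹ ≤ ((fun A : Matrix (Fin 4) (Fin 4) ℝ => nm A) ∘
        (fun n => (a (φ n))⁻¹ • M (c (φ n))⁻¹)) n := by
      intro n
      rw [Function.comp_apply, nm_smul4, abs_inv, abs_of_pos (hpos _), inv_mul_eq_div,
        le_div_iff₀ (hpos _), inv_mul_le_iff₀ hKpos, han]
      exact hr1 _
    exact absurd (ge_of_tendsto' h1 h2) (not_le.mpr (inv_pos.mpr hKpos))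
  -- the minors vanish
  have hent : ∀ i j, Tendsto (fun n => (a (φ n))⁻¹ * M (c (φ n)) i j) atTop (𝓝 (B i j)) := by
    intro i j
    have hc : Continuous (fun A : Matrix (Fin 4) (Fin 4) ℝ => A i j) :=
      continuous_apply_apply i j
    exact (hc.tendsto _).comp hl1
  have hent' : ∀ i j, Tendsto (fun n => (a (φ n))⁻¹ * M (c (φ n))⁻¹ i j) atTop
      (𝓝 (B' i j)) := by
    intro i j
    have hc : Continuous (fun A : Matrix (Fin 4) (Fin 4) ℝ => A i j) :=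
      continuous_apply_apply i j
    exact (hc.tendsto _).comp hl2
  have hzero : ∀ c₀ : ℝ, Tendsto (fun n => c₀ / a (φ n)) atTop (𝓝 0) := fun c₀ =>
    tendsto_const_nhds.div_atTop hainf
  have hmin : ∀ i j k l, B i j * B k l = B i l * B k j := by
    intro i j k l
    have h1 := ((hent i j).mul (hent k l)).sub ((hent i l).mul (hent k j))
    have h2 := squeeze_zero_norm (fun n => ?_) (hzero K) (f := fun n =>
      (a (φ n))⁻¹ * M (c (φ n)) i j * ((a (φ n))⁻¹ * M (c (φ n)) k l) -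
      (a (φ n))⁻¹ * M (c (φ n)) i l * ((a (φ n))⁻¹ * M (c (φ n)) k j))
    · exact sub_eq_zero.1 (tendsto_nhds_unique h1 h2)
    · have hp := hpos (φ n)
      have e : (a (φ n))⁻¹ * M (c (φ n)) i j * ((a (φ n))⁻¹ * M (c (φ n)) k l) -
          (a (φ n))⁻¹ * M (c (φ n)) i l * ((a (φ n))⁻¹ * M (c (φ n)) k j) =
          (a (φ n))⁻¹ * (a (φ n))⁻¹ *
            (M (c (φ n)) i j * M (c (φ n)) k l - M (c (φ n)) i l * M (c (φ n)) k j) := by ring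
      rw [e, Real.norm_eq_abs, abs_mul, abs_of_pos (by positivity)]
      have h3 := hm1 (φ n) i j k l
      rw [← han] at h3
      calc (a (φ n))⁻¹ * (a (φ n))⁻¹ *
            |M (c (φ n)) i j * M (c (φ n)) k l - M (c (φ n)) i l * M (c (φ n)) k j|
          ≤ (a (φ n))⁻¹ * (a (φ n))⁻¹ * (K * a (φ n)) :=
            mul_le_mul_of_nonneg_left h3 (by positivity)
        _ = K / a (φ n) := by field_simp
  have hmin' : ∀ i j k l, B' i j * B' k l = B' i l * B' k j := by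
    intro i j k l
    have h1 := ((hent' i j).mul (hent' k l)).sub ((hent' i l).mul (hent' k j))
    have h2 := squeeze_zero_norm (fun n => ?_) (hzero (K * K)) (f := fun n =>
      (a (φ n))⁻¹ * M (c (φ n))⁻¹ i j * ((a (φ n))⁻¹ * M (c (φ n))⁻¹ k l) -
      (a (φ n))⁻¹ * M (c (φ n))⁻¹ i l * ((a (φ n))⁻¹ * M (c (φ n))⁻¹ k j))
    · exact sub_eq_zero.1 (tendsto_nhds_unique h1 h2)
    · have hp := hpos (φ n)
      have e : (a (φ n))⁻¹ * M (c (φ n))⁻¹ i j * ((a (φ n))⁻¹ * M (c (φ n))⁻¹ k l) -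
          (a (φ n))⁻¹ * M (c (φ n))⁻¹ i l * ((a (φ n))⁻¹ * M (c (φ n))⁻¹ k j) =
          (a (φ n))⁻¹ * (a (φ n))⁻¹ *
            (M (c (φ n))⁻¹ i j * M (c (φ n))⁻¹ k l -
              M (c (φ n))⁻¹ i l * M (c (φ n))⁻¹ k j) := by ring
      rw [e, Real.norm_eq_abs, abs_mul, abs_of_pos (by positivity)]
      have h3 := hm2 (φ n) i j k l
      have h4 := hr2 (φ n)
      rw [← han] at h4
      have h5 : K * nm (M (c (φ n))⁻¹) ≤ K * (K * a (φ n)) :=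
        mul_le_mul_of_nonneg_left h4 hKpos.le
      calc (a (φ n))⁻¹ * (a (φ n))⁻¹ *
            |M (c (φ n))⁻¹ i j * M (c (φ n))⁻¹ k l - M (c (φ n))⁻¹ i l * M (c (φ n))⁻¹ k j|
          ≤ (a (φ n))⁻¹ * (a (φ n))⁻¹ * (K * (K * a (φ n))) :=
            mul_le_mul_of_nonneg_left (h3.trans h5) (by positivity)
        _ = K * K / a (φ n) := by field_simp
  obtain ⟨x, y, hx, hy, hxy⟩ := rank_one4 hB0 hmin
  obtain ⟨x', y', hx', hy', hxy'⟩ := rank_one4 hB0' hmin'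
  exact ⟨{ γ := fun n => c (φ n), a := fun n => a (φ n), x := x, y := y, x' := x', y' := y',
           pos := fun n => hpos _, inf := hainf,
           base := hbase.comp hφ.tendsto_atTop, base' := hbase'.comp hφ.tendsto_atTop,
           hx := hx, hy := hy, hx' := hx', hy' := hy',
           lim := by rw [← hxy]; exact hl1, lim' := by rw [← hxy']; exact hl2 }⟩

private theorem limM_h1 (L : LimM τ M) (f g : G) :
    Tendsto (fun n => (L.y ⬝ᵥ M (f * L.γ n * g) *ᵥ L.x) / L.a n) atTop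
      (𝓝 ((L.y ⬝ᵥ M f *ᵥ L.x) * (L.y ⬝ᵥ M g *ᵥ L.x))) := by
  have h2 : Continuous (fun T : Matrix (Fin 4) (Fin 4) ℝ => L.y ⬝ᵥ (M f * T * M g) *ᵥ L.x) := by
    fun_prop
  have h3 := (h2.tendsto _).comp L.lim
  rw [bf_mid] at h3
  refine h3.congr (fun n => ?_)
  rw [Function.comp_apply, mul_smul_comm, smul_mul_assoc, Matrix.smul_mulVec, dotProduct_smul,
    smul_eq_mul, map_mul, map_mul, div_eq_inv_mul]

private theorem limM_h2 (L : LimM τ M) (f g : G) :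
    Tendsto (fun n => (L.y' ⬝ᵥ M (f * L.γ n * g)⁻¹ *ᵥ L.x') / L.a n) atTop
      (𝓝 ((L.y' ⬝ᵥ M f⁻¹ *ᵥ L.x') * (L.y' ⬝ᵥ M g⁻¹ *ᵥ L.x'))) := by
  have h2 : Continuous (fun T : Matrix (Fin 4) (Fin 4) ℝ =>
      L.y' ⬝ᵥ (M g⁻¹ * T * M f⁻¹) *ᵥ L.x') := by
    fun_prop
  have h3 := (h2.tendsto _).comp L.lim'
  rw [bf_mid, mul_comm] at h3
  refine h3.congr (fun n => ?_)
  rw [Function.comp_apply, mul_smul_comm, smul_mul_assoc, Matrix.smul_mulVec, dotProduct_smul,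
    smul_eq_mul, _root_.mul_inv_rev, _root_.mul_inv_rev, map_mul, map_mul, div_eq_inv_mul, mul_assoc]

private theorem limM_two (L : LimM τ M) (f : G) :
    Tendsto (fun n => ((L.a n)⁻¹ * (L.a n)⁻¹) • M (L.γ n * f * L.γ n)) atTop
      (𝓝 ((L.y ⬝ᵥ M f *ᵥ L.x) • Matrix.vecMulVec L.x L.y)) := by
  have h2 : Continuous (fun T : Matrix (Fin 4) (Fin 4) ℝ => T * M f * T) := by fun_prop
  have h3 := (h2.tendsto _).comp L.lim
  rw [vmv_mid] at h3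
  refine h3.congr (fun n => ?_)
  rw [Function.comp_apply, map_mul, map_mul, smul_mul_assoc, smul_mul_assoc, mul_smul_comm,
    smul_smul]

private theorem limM_two' (L : LimM τ M) (f : G) :
    Tendsto (fun n => ((L.a n)⁻¹ * (L.a n)⁻¹) • M (L.γ n * f * L.γ n)⁻¹) atTop
      (𝓝 ((L.y' ⬝ᵥ M f⁻¹ *ᵥ L.x') • Matrix.vecMulVec L.x' L.y')) := by
  have h2 : Continuous (fun T : Matrix (Fin 4) (Fin 4) ℝ => T * M f⁻¹ * T) := by fun_prop
  have h3 := (h2.tendsto _).comp L.lim'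
  rw [vmv_mid] at h3
  refine h3.congr (fun n => ?_)
  rw [Function.comp_apply, _root_.mul_inv_rev, _root_.mul_inv_rev, map_mul, map_mul, smul_mul_assoc,
    smul_mul_assoc, mul_smul_comm, smul_smul, mul_assoc]

private theorem limM_hbd (hF : Four τ M) (L : LimM τ M) (C : ℝ) :
    ∃ D : ℝ, 0 < D ∧ ∀ f, ‖τ f‖ ≤ C → ‖τ f⁻¹‖ ≤ C →
      |L.y' ⬝ᵥ M f⁻¹ *ᵥ L.x'| ≤ D * |L.y ⬝ᵥ M f *ᵥ L.x| ∧
      |L.y ⬝ᵥ M f *ᵥ L.x| ≤ D * |L.y' ⬝ᵥ M f⁻¹ *ᵥ L.x'| := by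
  obtain ⟨C₁, hC₁⟩ := L.base.norm.bddAbove_range
  obtain ⟨C₂, hC₂⟩ := L.base'.norm.bddAbove_range
  obtain ⟨Q, hQ⟩ : ∃ Q : ℝ, Q = max C₁ C₂ := ⟨_, rfl⟩
  have hb1 : ∀ n, ‖τ (L.γ n)‖ ≤ Q := fun n => by
    rw [hQ]; exact (hC₁ ⟨n, rfl⟩).trans (le_max_left _ _)
  have hb2 : ∀ n, ‖τ (L.γ n)⁻¹‖ ≤ Q := fun n => by
    rw [hQ]; exact (hC₂ ⟨n, rfl⟩).trans (le_max_right _ _)
  have hQ0 : 0 ≤ Q := (norm_nonneg _).trans (hb1 0)
  obtain ⟨K₀, hK₀⟩ := hF.min (Q * |C| * Q)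
  obtain ⟨K, hKd⟩ : ∃ K : ℝ, K = max K₀ 1 := ⟨_, rfl⟩
  have hK1 : 1 ≤ K := by rw [hKd]; exact le_max_right _ _
  have hK2 : K₀ ≤ K := by rw [hKd]; exact le_max_left _ _
  have hKpos : 0 < K := lt_of_lt_of_le one_pos hK1
  have hbpos : 0 < nm (Matrix.vecMulVec L.x L.y) := nm_pos4 (vmv_ne4 L.hx L.hy)
  have hbpos' : 0 < nm (Matrix.vecMulVec L.x' L.y') := nm_pos4 (vmv_ne4 L.hx' L.hy')
  obtain ⟨b, hb⟩ : ∃ b : ℝ, b = nm (Matrix.vecMulVec L.x L.y) := ⟨_, rfl⟩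
  obtain ⟨b', hb'⟩ : ∃ b' : ℝ, b' = nm (Matrix.vecMulVec L.x' L.y') := ⟨_, rfl⟩
  rw [← hb] at hbpos
  rw [← hb'] at hbpos'
  refine ⟨max (K * b / b') (K * b' / b), lt_max_of_lt_left (by positivity), ?_⟩
  intro f hf1 hf2
  have hn1 : ∀ n, ‖τ (L.γ n * f * L.γ n)‖ ≤ Q * |C| * Q := by
    intro n
    rw [map_mul, map_mul]
    refine (norm_mul_le _ _).trans (mul_le_mul ((norm_mul_le _ _).trans
      (mul_le_mul (hb1 n) (hf1.trans (le_abs_self _)) (norm_nonneg _) hQ0)) (hb1 n)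
      (norm_nonneg _) (by positivity))
  have hn2 : ∀ n, ‖τ (L.γ n * f * L.γ n)⁻¹‖ ≤ Q * |C| * Q := by
    intro n
    rw [_root_.mul_inv_rev, _root_.mul_inv_rev, map_mul, map_mul, ← mul_assoc]
    refine (norm_mul_le _ _).trans (mul_le_mul ((norm_mul_le _ _).trans
      (mul_le_mul (hb2 n) (hf2.trans (le_abs_self _)) (norm_nonneg _) hQ0)) (hb2 n)
      (norm_nonneg _) (by positivity))
  have hr1 : ∀ n, nm (M (L.γ n * f * L.γ n)) ≤ K * nm (M (L.γ n * f * L.γ n)⁻¹) := fun n =>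
    ((hK₀ _ (hn1 n) (hn2 n)).2).trans (mul_le_mul_of_nonneg_right hK2 (nm_nonneg4 _))
  have hr2 : ∀ n, nm (M (L.γ n * f * L.γ n)⁻¹) ≤ K * nm (M (L.γ n * f * L.γ n)) := by
    intro n
    have h := (hK₀ (L.γ n * f * L.γ n)⁻¹ (hn2 n) (by rw [inv_inv]; exact hn1 n)).2
    rw [inv_inv] at h
    exact h.trans (mul_le_mul_of_nonneg_right hK2 (nm_nonneg4 _))
  have hsc : ∀ n, 0 ≤ (L.a n)⁻¹ * (L.a n)⁻¹ := fun n => mul_self_nonneg _
  have hl1 := (nm_cont4.tendsto _).comp (limM_two L f)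
  have hl2 := (nm_cont4.tendsto _).comp (limM_two' L f)
  rw [nm_smul4, ← hb] at hl1
  rw [nm_smul4, ← hb'] at hl2
  have e1 : |L.y ⬝ᵥ M f *ᵥ L.x| * b ≤ K * (|L.y' ⬝ᵥ M f⁻¹ *ᵥ L.x'| * b') := by
    refine le_of_tendsto_of_tendsto' hl1 (hl2.const_mul K) (fun n => ?_)
    rw [Function.comp_apply, Function.comp_apply, nm_smul4, nm_smul4, abs_of_nonneg (hsc n)]
    calc (L.a n)⁻¹ * (L.a n)⁻¹ * nm (M (L.γ n * f * L.γ n))
        ≤ (L.a n)⁻¹ * (L.a n)⁻¹ * (K * nm (M (L.γ n * f * L.γ n)⁻¹)) :=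
          mul_le_mul_of_nonneg_left (hr1 n) (hsc n)
      _ = _ := by ring
  have e2 : |L.y' ⬝ᵥ M f⁻¹ *ᵥ L.x'| * b' ≤ K * (|L.y ⬝ᵥ M f *ᵥ L.x| * b) := by
    refine le_of_tendsto_of_tendsto' hl2 (hl1.const_mul K) (fun n => ?_)
    rw [Function.comp_apply, Function.comp_apply, nm_smul4, nm_smul4, abs_of_nonneg (hsc n)]
    calc (L.a n)⁻¹ * (L.a n)⁻¹ * nm (M (L.γ n * f * L.γ n)⁻¹)
        ≤ (L.a n)⁻¹ * (L.a n)⁻¹ * (K * nm (M (L.γ n * f * L.γ n))) :=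
          mul_le_mul_of_nonneg_left (hr2 n) (hsc n)
      _ = _ := by ring
  constructor
  · calc |L.y' ⬝ᵥ M f⁻¹ *ᵥ L.x'| = |L.y' ⬝ᵥ M f⁻¹ *ᵥ L.x'| * b' / b' := by field_simp
      _ ≤ K * (|L.y ⬝ᵥ M f *ᵥ L.x| * b) / b' := div_le_div_of_nonneg_right e2 hbpos'.le
      _ = K * b / b' * |L.y ⬝ᵥ M f *ᵥ L.x| := by ring
      _ ≤ _ := mul_le_mul_of_nonneg_right (le_max_left _ _) (abs_nonneg _)
  · calc |L.y ⬝ᵥ M f *ᵥ L.x| = |L.y ⬝ᵥ M f *ᵥ L.x| * b / b := by field_simp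
      _ ≤ K * (|L.y' ⬝ᵥ M f⁻¹ *ᵥ L.x'| * b') / b := div_le_div_of_nonneg_right e1 hbpos.le
      _ = K * b' / b * |L.y' ⬝ᵥ M f⁻¹ *ᵥ L.x'| := by ring
      _ ≤ _ := mul_le_mul_of_nonneg_right (le_max_right _ _) (abs_nonneg _)

theorem LimM.char (hF : Four τ M) (L : LimM τ M) :
    ∃ χ : G → ℝ, (∀ g, 0 < χ g) ∧ (∀ g h, χ (g * h) = χ g * χ h) ∧
      ∀ f, |L.y' ⬝ᵥ M f⁻¹ *ᵥ L.x'| = χ f * |L.y ⬝ᵥ M f *ᵥ L.x| := by
  refine lim_char τ (fun f => L.y ⬝ᵥ M f *ᵥ L.x) (fun f => L.y' ⬝ᵥ M f⁻¹ *ᵥ L.x') L.γ L.a L.pos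
    L.base (limM_h1 L) (limM_h2 L) (limM_hbd hF L) ?_
  intro g ε hε
  obtain ⟨ℓ, hℓ⟩ : ∃ ℓ : Matrix (Fin 4) (Fin 4) ℝ →ₗ[ℝ] ℝ, ∀ A, ℓ A = L.y ⬝ᵥ A *ᵥ L.x :=
    ⟨{ toFun := fun A => L.y ⬝ᵥ A *ᵥ L.x
       map_add' := fun A B => by rw [Matrix.add_mulVec, dotProduct_add]
       map_smul' := fun c A => by
        rw [Matrix.smul_mulVec, dotProduct_smul, RingHom.id_apply] }, fun A => rfl⟩
  have hpoly : IsPoly (fun g => M g) (fun f => L.y ⬝ᵥ M f *ᵥ L.x) := by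
    have h1 := IsPoly.lin (M := fun g => M g) ℓ
    have h2 : (fun f => L.y ⬝ᵥ M f *ᵥ L.x) = fun g => ℓ (M g) := funext (fun f => (hℓ _).symm)
    rw [h2]
    exact h1
  have hex : ∃ f, L.y ⬝ᵥ M f *ᵥ L.x ≠ 0 := by
    by_contra hcon
    push Not at hcon
    have h1 : ℓ = 0 := hF.span ℓ (fun g => by rw [hℓ]; exact hcon g)
    obtain ⟨i, hi⟩ := Function.ne_iff.1 L.hy
    obtain ⟨j, hj⟩ := Function.ne_iff.1 L.hx
    have h2 : ℓ (Matrix.single i j 1) = L.y i * L.x j := by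
      rw [hℓ]
      simp [Matrix.mulVec, dotProduct, Matrix.single_apply, ite_and]
    rw [h1] at h2
    exact mul_ne_zero hi hj h2.symm
  exact hF.dens _ hpoly hex g ε hε

end

end Pool.AF
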