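import Pool.Agent.Helper94.AC.NearW
import Pool.Agent.Helper94.AC.LocEx
import Pool.Agent.Helper94.AL.Cliff
import Pool.Agent.Helper94.AL.Burn
import Pool.Agent.Helper94.AC.Full

/-!
# AC-38 LINEEX: the group `G₀` in the case of an invariant line (uses the stubs AC-2, AC-37)

Notation: `M g = S.mat b g`, `m g = blk (M g)` (multiplicative: `InvSub.wmat`). By
`exists_loc` with `τ = S.base` (injective: `base_inj`), `M`, `N = commutator D.Γ`, `hnear` from `near_comm`, there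
is a normal subgroup `G₀ ≤ commutator D.Γ` with `Loc` and with elements `≠ 1` arbitrarily near the
identity; with `near_w` these give `near` (replace `c` by `c⁻¹` if necessary: if
`‖S.base c - 1‖ ≤ 1/2` then `‖S.base c⁻¹‖ ≤ 2 ‖1‖` and `S.base c⁻¹ - 1 = S.base c⁻¹ * (1 - S.base c)`).

`span`: for the representation `g ↦ Matrix.toLin' (m g)` of `D.Γ` on `Fin 3 → ℝ` and the normal
subgroup `G₀` (determinant one: `det_commutator`), `trivial_or_irr` (`AL/Cliff.lean`): the elements of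
`G₀` do not all act trivially by `near`, so `G₀` acts irreducibly, and by `span_eq_top`
(`AL/Burn.lean`) the linear span of the `m g`, `g ∈ G₀`, is everything.

Let `I` be a subspace of `Fin 4 → ℝ` invariant under `G₀`, and let `e₀ = Pi.single 0 1` (fixed by
`G₀`: the first column of `M g` is `(χ g, 0, 0, 0)` with `χ` a homomorphism to `ℝˣ`, trivial on
commutators), `p : (Fin 4 → ℝ) → (Fin 3 → ℝ)` the projection on the last three coordinates,
`p (M g *ᵥ v) = m g *ᵥ p v`. `p I` is invariant under `G₀`, so it is `⊥` or `⊤`. If `e₀ ∈ I` then `I` is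
`span {e₀}` or `⊤`. If `e₀ ∉ I` then `p` is injective on `I` and `I = ⊥` or `I` has dimension 3 and
`p : I → (Fin 3 → ℝ)` is bijective. If the last case does not occur, `inv` holds and the first
alternative of the theorem is true. Suppose that there is such an `I`, of dimension 3. It is the
graph `{v | v 0 = θ (p v)}` of a linear `θ : (Fin 3 → ℝ) → ℝ`. For `g : D.Γ` the subspace `M g I` is
again invariant under `G₀` (normal), of dimension 3, and does not contain `e₀`; so it is the graph of some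
`θ'`. For `c ∈ G₀`, `M c *ᵥ (a, x) = (a + β c x, m c *ᵥ x)`, so `θ (m c x) = θ x + β c x`, and the same for
`θ'`: `δ = θ - θ'` satisfies `δ (m c x) = δ x`, so `ker δ` is invariant under `G₀`, of dimension `≥ 2`, so it
is `⊤` and `M g I = I`: the second alternative.
-/

open Set Filter Topology Matrix

set_option linter.unusedSectionVars false

namespace Pool.AF

open Pool.SV

section

variable {E : Type*} [NormedAddCommGroup E] [NormedSpace ℝ E] [FiniteDimensional ℝ E]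
  {D : Geo E}

private theorem base_inv_near' {Γ R : Type*} [Group Γ] [NormedRing R] (τ : Γ →* R) (ε : ℝ)
    (hε : 0 < ε) : ∃ δ : ℝ, 0 < δ ∧ ∀ g : Γ, ‖τ g - 1‖ < δ → ‖τ g - 1‖ < ε ∧ ‖τ g⁻¹ - 1‖ < ε := by
  have hM : 0 ≤ ‖(1 : R)‖ := norm_nonneg _
  refine ⟨min (1 / 2) (min ε (ε / (2 * ‖(1 : R)‖ + 1))), by positivity, fun g hg => ?_⟩
  have h1 := hg.trans_le (min_le_left _ _)
  have h2 := (hg.trans_le (min_le_right _ _)).trans_le (min_le_left _ _)
  have h3 := (hg.trans_le (min_le_right _ _)).trans_le (min_le_right _ _)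
  have e1 : τ g⁻¹ * τ g = 1 := by rw [← map_mul, inv_mul_cancel, map_one]
  have e2 : τ g⁻¹ = 1 - τ g⁻¹ * (τ g - 1) := by
    rw [mul_sub, e1, mul_one]
    abel
  have e3 : ‖τ g⁻¹‖ ≤ 2 * ‖(1 : R)‖ := by
    have h5 : ‖τ g⁻¹‖ ≤ ‖(1 : R)‖ + ‖τ g⁻¹‖ * (1 / 2) := by
      conv_lhs => rw [e2]
      refine (norm_sub_le _ _).trans (add_le_add le_rfl ((norm_mul_le _ _).trans ?_))
      exact mul_le_mul_of_nonneg_left h1.le (norm_nonneg _)
    linarith
  refine ⟨h2, ?_⟩
  have e4 : τ g⁻¹ - 1 = - (τ g⁻¹ * (τ g - 1)) := by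
    rw [mul_sub, e1, mul_one]
    abel
  rw [e4, norm_neg]
  calc ‖τ g⁻¹ * (τ g - 1)‖ ≤ ‖τ g⁻¹‖ * ‖τ g - 1‖ := norm_mul_le _ _
    _ ≤ 2 * ‖(1 : R)‖ * (ε / (2 * ‖(1 : R)‖ + 1)) :=
        mul_le_mul e3 h3.le (norm_nonneg _) (by positivity)
    _ < (2 * ‖(1 : R)‖ + 1) * (ε / (2 * ‖(1 : R)‖ + 1)) := by
        have : 0 < ε / (2 * ‖(1 : R)‖ + 1) := by positivity
        nlinarith
    _ = ε := by field_simp

/-- The projection on the last three coordinates. -/
private def pr : (Fin 4 → ℝ) →ₗ[ℝ] (Fin 3 → ℝ) := LinearMap.funLeft ℝ ℝ Fin.succ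

private theorem pr_apply (v : Fin 4 → ℝ) (i : Fin 3) : pr v i = v i.succ := rfl

private theorem pr_zero {v : Fin 4 → ℝ} (h : pr v = 0) : v = v 0 • (Pi.single 0 1 : Fin 4 → ℝ) := by
  funext i
  refine Fin.cases ?_ (fun j => ?_) i
  · simp
  · have h1 := congrFun h j
    rw [pr_apply] at h1
    simp [h1]

private theorem pr_mulVec (A : Matrix (Fin 4) (Fin 4) ℝ) (hA : ∀ i : Fin 3, A i.succ 0 = 0)
    (v : Fin 4 → ℝ) : pr (A *ᵥ v) = blk A *ᵥ pr v := by
  funext i
  rw [pr_apply, Matrix.mulVec, Matrix.mulVec, dotProduct, dotProduct, Fin.sum_univ_succ, hA,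
    zero_mul, zero_add]
  rfl

private theorem mulVec_e0 (A : Matrix (Fin 4) (Fin 4) ℝ) (hA : ∀ i : Fin 3, A i.succ 0 = 0) :
    A *ᵥ (Pi.single 0 1 : Fin 4 → ℝ) = A 0 0 • (Pi.single 0 1 : Fin 4 → ℝ) := by
  rw [Matrix.mulVec_single_one]
  funext i
  refine Fin.cases ?_ (fun j => ?_) i
  · simp [Matrix.col_apply]
  · simp [Matrix.col_apply, hA j]

private theorem e0_mem {I : Submodule ℝ (Fin 4 → ℝ)} {v : Fin 4 → ℝ} (hv : v ∈ I)
    (h : pr v = 0) (h0 : v ≠ 0) : (Pi.single 0 1 : Fin 4 → ℝ) ∈ I := by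
  have h5 := pr_zero h
  have hz : v 0 ≠ 0 := by
    intro hz
    apply h0
    rw [h5, hz, zero_smul]
  have h6 := I.smul_mem (v 0)⁻¹ hv
  have h7 : (v 0)⁻¹ • v = (Pi.single 0 1 : Fin 4 → ℝ) := by
    conv_lhs => rw [h5]
    rw [smul_smul]
    have h8 : (v 0 • (Pi.single 0 1 : Fin 4 → ℝ)) 0 = v 0 := by simp
    rw [h8, inv_mul_cancel₀ hz, one_smul]
  rwa [h7] at h6

private theorem fin3 (I : Submodule ℝ (Fin 4 → ℝ)) (h0 : (Pi.single 0 1 : Fin 4 → ℝ) ∉ I)
    (ht : I.map pr = ⊤) : Module.finrank ℝ I = 3 := by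
  have h1 := LinearMap.finrank_range_add_finrank_ker (pr.domRestrict I)
  have h2 : LinearMap.range (pr.domRestrict I) = ⊤ := by
    rw [LinearMap.range_domRestrict, ht]
  have h3 : LinearMap.ker (pr.domRestrict I) = ⊥ := by
    rw [eq_bot_iff]
    rintro ⟨v, hv⟩ hvk
    rw [LinearMap.mem_ker, LinearMap.domRestrict_apply] at hvk
    rw [Submodule.mem_bot]
    apply Subtype.ext
    by_contra hz
    exact h0 (e0_mem hv hvk hz)
  rw [h2, h3, finrank_top, finrank_bot] at h1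
  rw [← h1]
  simp

theorem exists_lineGood (S : InvSub D) (b : Module.Basis (Fin 4) ℝ S.U)
    (hline : ∀ g : D.Γ, ∀ i : Fin 3, S.mat b g i.succ 0 = 0)
    (hirr : ∀ H : Subgroup D.Γ, H.FiniteIndex → ∀ I : Submodule ℝ (Fin 3 → ℝ),
      (∀ h ∈ H, ∀ v ∈ I, blk (S.mat b h) *ᵥ v ∈ I) → I = ⊥ ∨ I = ⊤)
    (hnd : ¬ DiscMod (hatHom D.Γ) S.e) (hM : modSub D S.U = ⊥) (hab : ¬ HasAbNormal D.Γ) :
    (∃ G₀ : Subgroup D.Γ, S.LineGood b G₀) ∨
      ∃ I : Submodule ℝ (Fin 4 → ℝ), Module.finrank ℝ I = 3 ∧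
        ∀ g : D.Γ, ∀ v ∈ I, S.mat b g *ᵥ v ∈ I := by
  obtain ⟨G₀, hle, hnorm, hloc, hnear1⟩ := exists_loc S.base (base_inj S hM) (S.mat b)
    (commutator D.Γ) (near_comm S hnd hM hab)
  have hnear : ∀ C ε : ℝ, 0 < ε → ∃ c ∈ G₀, ‖S.base c - 1‖ < ε ∧ C < nm (blk (S.mat b c)) := by
    intro C ε hε
    obtain ⟨ε₁, hε₁, hbig⟩ := near_w S b hline hM hab C
    obtain ⟨δ, hδ, h1⟩ := base_inv_near' S.base (min ε ε₁) (lt_min hε hε₁)
    obtain ⟨c, hc, hc1, hcδ⟩ := hnear1 δ hδ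
    obtain ⟨h2, h3⟩ := h1 c hcδ
    rcases hbig c hc1 (h2.trans_le (min_le_right _ _)) with h4 | h4
    · exact ⟨c, hc, h2.trans_le (min_le_left _ _), h4⟩
    · exact ⟨c⁻¹, G₀.inv_mem hc, h3.trans_le (min_le_left _ _), h4⟩
  -- the representation in dimension three
  let ρ : D.Γ →* ((Fin 3 → ℝ) →ₗ[ℝ] (Fin 3 → ℝ)) :=
    { toFun := fun g => Matrix.toLin' (S.wmat b hline g)
      map_one' := by rw [map_one, Matrix.toLin'_one]; rfl
      map_mul' := fun g h => by rw [map_mul, Matrix.toLin'_mul]; rfl }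
  have hρ : ∀ g v, ρ g v = blk (S.mat b g) *ᵥ v := fun g v => Matrix.toLin'_apply _ _
  have h3 : Module.finrank ℝ (Fin 3 → ℝ) = 3 := by simp
  have hirr3 : ∀ U : Submodule ℝ (Fin 3 → ℝ), (∀ δ ∈ G₀, ∀ u ∈ U, ρ δ u ∈ U) →
      U = ⊥ ∨ U = ⊤ := by
    rcases trivial_or_irr h3 ρ (fun H hH U hU => hirr H hH U (fun h hh v hv => by
      rw [← hρ]; exact hU h hh v hv)) G₀ (fun δ hδ => det_commutator ρ δ (hle hδ)) with h | h
    · exfalso
      obtain ⟨c, hc, -, h5⟩ := hnear (nm (1 : Matrix (Fin 3) (Fin 3) ℝ)) 1 one_pos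
      have h6 : Matrix.toLin' (S.wmat b hline c) = 1 := h c hc
      have h7 : S.wmat b hline c = 1 := by
        apply (Matrix.toLin' (R := ℝ) (m := Fin 3) (n := Fin 3)).injective
        rw [h6, Matrix.toLin'_one]
        rfl
      rw [InvSub.wmat_apply] at h7
      rw [h7] at h5
      exact lt_irrefl _ h5
    · exact h
  have hspan : ∀ ℓ : Matrix (Fin 3) (Fin 3) ℝ →ₗ[ℝ] ℝ,
      (∀ g ∈ G₀, ℓ (blk (S.mat b g)) = 0) → ℓ = 0 := by
    intro ℓ hℓ
    have hodd : Odd (Module.finrank ℝ (Fin 3 → ℝ)) := by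
      rw [h3]; decide
    have hsp := span_eq_top hodd ρ G₀ hirr3
    have h1 : (⊤ : Submodule ℝ ((Fin 3 → ℝ) →ₗ[ℝ] (Fin 3 → ℝ))) ≤
        LinearMap.ker (ℓ ∘ₗ (LinearMap.toMatrix' (R := ℝ) (m := Fin 3) (n := Fin 3)).toLinearMap) := by
      rw [← hsp, Submodule.span_le]
      rintro _ ⟨g, hg, rfl⟩
      change ℓ (LinearMap.toMatrix' (Matrix.toLin' (blk (S.mat b g)))) = 0
      rw [LinearMap.toMatrix'_toLin']
      exact hℓ g hg
    refine LinearMap.ext (fun A => ?_)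
    have h2 : Matrix.toLin' A ∈
        LinearMap.ker (ℓ ∘ₗ (LinearMap.toMatrix' (R := ℝ) (m := Fin 3) (n := Fin 3)).toLinearMap) :=
      h1 Submodule.mem_top
    rw [LinearMap.mem_ker] at h2
    change ℓ (LinearMap.toMatrix' (Matrix.toLin' A)) = 0 at h2
    rw [LinearMap.toMatrix'_toLin'] at h2
    rw [h2]
    rfl
  -- invariant subspaces and their projections
  have hmap : ∀ I : Submodule ℝ (Fin 4 → ℝ), (∀ g ∈ G₀, ∀ v ∈ I, S.mat b g *ᵥ v ∈ I) →
      I.map pr = ⊥ ∨ I.map pr = ⊤ := by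
    intro I hI
    apply hirr3
    rintro δ hδ _ ⟨v, hv, rfl⟩
    rw [hρ, ← pr_mulVec _ (hline δ)]
    exact ⟨_, hI δ hδ v hv, rfl⟩
  by_cases hex : ∃ I : Submodule ℝ (Fin 4 → ℝ), (∀ g ∈ G₀, ∀ v ∈ I, S.mat b g *ᵥ v ∈ I) ∧
      (Pi.single 0 1 : Fin 4 → ℝ) ∉ I ∧ I.map pr = ⊤
  · right
    obtain ⟨I, hI, hI0, hIt⟩ := hex
    have hI3 := fin3 I hI0 hIt
    refine ⟨I, hI3, fun g v hv => ?_⟩
    have hinv : ∀ g : D.Γ, ∀ v : Fin 4 → ℝ, S.mat b g⁻¹ *ᵥ (S.mat b g *ᵥ v) = v := by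
      intro g v
      rw [Matrix.mulVec_mulVec, ← map_mul, inv_mul_cancel, map_one, Matrix.one_mulVec]
    have hinj : Function.Injective (Matrix.toLin' (S.mat b g)) := by
      intro x y hxy
      rw [Matrix.toLin'_apply, Matrix.toLin'_apply] at hxy
      have := congrArg (fun z => S.mat b g⁻¹ *ᵥ z) hxy
      simp only [hinv] at this
      exact this
    set I' : Submodule ℝ (Fin 4 → ℝ) := I.map (Matrix.toLin' (S.mat b g)) with hI'
    have hI'3 : Module.finrank ℝ I' = 3 := by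
      rw [← hI3]
      exact (Submodule.equivMapOfInjective _ hinj I).finrank_eq.symm
    have hI'inv : ∀ c ∈ G₀, ∀ w ∈ I', S.mat b c *ᵥ w ∈ I' := by
      rintro c hc _ ⟨w, hw, rfl⟩
      have hc' : g⁻¹ * c * g ∈ G₀ := by
        have := hnorm.conj_mem c hc g⁻¹
        rwa [inv_inv] at this
      refine ⟨S.mat b (g⁻¹ * c * g) *ᵥ w, hI _ hc' w hw, ?_⟩
      rw [Matrix.toLin'_apply, Matrix.toLin'_apply, Matrix.mulVec_mulVec, Matrix.mulVec_mulVec,
        ← map_mul, ← map_mul]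
      congr 2
      group
    have hsum := Submodule.finrank_sup_add_finrank_inf_eq I I'
    have hle4 : Module.finrank ℝ (I ⊔ I' : Submodule ℝ (Fin 4 → ℝ)) ≤ 4 := by
      have := Submodule.finrank_le (I ⊔ I')
      simpa using this
    have hinf : (I ⊓ I').map pr = ⊤ := by
      rcases hmap (I ⊓ I') (fun c hc w hw => ⟨hI c hc w hw.1, hI'inv c hc w hw.2⟩) with h | h
      · exfalso
        have hpos : 0 < Module.finrank ℝ (I ⊓ I' : Submodule ℝ (Fin 4 → ℝ)) := by omega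
        have hne : I ⊓ I' ≠ ⊥ := by
          intro h0
          rw [h0, finrank_bot] at hpos
          exact lt_irrefl _ hpos
        obtain ⟨w, hw, hw0⟩ := Submodule.exists_mem_ne_zero_of_ne_bot hne
        have h4 : pr w = 0 := by
          have : pr w ∈ (I ⊓ I').map pr := ⟨w, hw, rfl⟩
          rw [h] at this
          exact (Submodule.mem_bot ℝ).1 this
        exact hI0 (e0_mem hw.1 h4 hw0)
      · exact h
    have hinf3 := fin3 (I ⊓ I') (fun h => hI0 h.1) hinf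
    have e1 : I ⊓ I' = I := Submodule.eq_of_le_of_finrank_eq inf_le_left (by rw [hinf3, hI3])
    have e2 : I ⊓ I' = I' := Submodule.eq_of_le_of_finrank_eq inf_le_right (by rw [hinf3, hI'3])
    have e3 : I' = I := e2.symm.trans e1
    have h9 : S.mat b g *ᵥ v ∈ I' := ⟨v, hv, Matrix.toLin'_apply _ _⟩
    rwa [e3] at h9
  · left
    push Not at hex
    refine ⟨G₀, hline, hle, hnorm, hloc, hspan, fun I hI => ?_, hnear⟩
    rcases hmap I hI with h | h
    · -- `I` is contained in the line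
      have hle' : I ≤ Submodule.span ℝ {(Pi.single 0 1 : Fin 4 → ℝ)} := by
        intro v hv
        have h4 : pr v = 0 := by
          have : pr v ∈ I.map pr := ⟨v, hv, rfl⟩
          rw [h] at this
          exact (Submodule.mem_bot ℝ).1 this
        rw [pr_zero h4]
        exact Submodule.smul_mem _ _ (Submodule.mem_span_singleton_self _)
      by_cases hb : I = ⊥
      · exact Or.inl hb
      · right; left
        refine le_antisymm hle' ?_
        obtain ⟨w, hw, hw0⟩ := Submodule.exists_mem_ne_zero_of_ne_bot hb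
        obtain ⟨c, hc⟩ := Submodule.mem_span_singleton.1 (hle' hw)
        rw [Submodule.span_singleton_le_iff_mem]
        have hc0 : c ≠ 0 := by
          rintro rfl
          apply hw0
          rw [← hc, zero_smul]
        have h6 := I.smul_mem c⁻¹ hw
        rwa [← hc, smul_smul, inv_mul_cancel₀ hc0, one_smul] at h6
    · right; right
      have he0 : (Pi.single 0 1 : Fin 4 → ℝ) ∈ I := by
        by_contra hcon
        exact hex I hI hcon h
      rw [eq_top_iff]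
      intro v _
      have h4 : pr v ∈ I.map pr := by rw [h]; exact Submodule.mem_top
      obtain ⟨w, hw, hwv⟩ := h4
      have h5 : pr (v - w) = 0 := by rw [map_sub, hwv, sub_self]
      have h6 := pr_zero h5
      have h7 : v - w ∈ I := by
        rw [h6]
        exact I.smul_mem _ he0
      have h8 := I.add_mem h7 hw
      rwa [sub_add_cancel] at h8

end

end Pool.AF
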