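import Pool.Agent.Helper94.AC.Words

/-!
# The case of an invariant line: definitions
-/

open Set Filter Topology Matrix

set_option linter.unusedSectionVars false

namespace Pool.AF

open Pool.SV

section

variable {E : Type*} [NormedAddCommGroup E] [NormedSpace ℝ E] [FiniteDimensional ℝ E]
  {D : Geo E}

/-- The lower right block. -/
def blk (A : Matrix (Fin 4) (Fin 4) ℝ) : Matrix (Fin 3) (Fin 3) ℝ :=
  A.submatrix Fin.succ Fin.succ

theorem blk_mul (A B : Matrix (Fin 4) (Fin 4) ℝ) (hA : ∀ i : Fin 3, A i.succ 0 = 0) :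
    blk (A * B) = blk A * blk B := by
  ext i j
  simp only [blk, Matrix.submatrix_apply, Matrix.mul_apply]
  rw [Fin.sum_univ_succ, hA, zero_mul, zero_add]

theorem blk_one : blk (1 : Matrix (Fin 4) (Fin 4) ℝ) = 1 := by
  ext i j
  simp only [blk, Matrix.submatrix_apply, Matrix.one_apply, Fin.succ_inj]

/-- The matrices of the action on the quotient by the line of `b 0`. -/
noncomputable def InvSub.wmat (S : InvSub D) (b : Module.Basis (Fin 4) ℝ S.U)
    (hline : ∀ g : D.Γ, ∀ i : Fin 3, S.mat b g i.succ 0 = 0) :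
    D.Γ →* Matrix (Fin 3) (Fin 3) ℝ where
  toFun g := blk (S.mat b g)
  map_one' := by rw [map_one, blk_one]
  map_mul' g h := by rw [map_mul, blk_mul _ _ (hline g)]

theorem InvSub.wmat_apply (S : InvSub D) (b : Module.Basis (Fin 4) ℝ S.U)
    (hline : ∀ g : D.Γ, ∀ i : Fin 3, S.mat b g i.succ 0 = 0) (g : D.Γ) :
    S.wmat b hline g = blk (S.mat b g) := rfl

/-- The hypotheses in the case of an invariant line. -/
structure InvSub.LineGood (S : InvSub D) (b : Module.Basis (Fin 4) ℝ S.U) (G₀ : Subgroup D.Γ) :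
    Prop where
  line : ∀ g : D.Γ, ∀ i : Fin 3, S.mat b g i.succ 0 = 0
  le : G₀ ≤ commutator D.Γ
  normal : G₀.Normal
  loc : Loc S.base (S.mat b) G₀
  span : ∀ ℓ : Matrix (Fin 3) (Fin 3) ℝ →ₗ[ℝ] ℝ, (∀ g ∈ G₀, ℓ (blk (S.mat b g)) = 0) → ℓ = 0
  inv : ∀ I : Submodule ℝ (Fin 4 → ℝ), (∀ g ∈ G₀, ∀ v ∈ I, S.mat b g *ᵥ v ∈ I) →
    I = ⊥ ∨ I = Submodule.span ℝ {Pi.single 0 1} ∨ I = ⊤
  near : ∀ C ε : ℝ, 0 < ε → ∃ c ∈ G₀, ‖S.base c - 1‖ < ε ∧ C < nm (blk (S.mat b c))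

end

end Pool.AF
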