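import Pool.Agent.Helper94.AC.Defs

/-!
# AC-27 LOR4: Lorentz forms in dimension four

`form_up4`. Let `g ∈ G`, `B' x y = B (ρ g x) (ρ g y)`. It is invariant under `N` (normal:
`ρ g (ρ n x) = ρ (g n g⁻¹) (ρ g x)`). As `B` is nondegenerate (by the orthogonal basis), `B' x y = B (T x) y`
with `T` linear commuting with all `ρ n`, `n ∈ N`, so with their linear span, which is everything
(`hspan`): `T` is a scalar `k` and `B' = k B` (see `Pool/Agent/Helper94/AB/FormUp.lean`, where this is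
done in dimension three). `k ≠ 0` as `ρ g` is invertible. `k > 0`: on the space `P` spanned by `c 1, c 2, c 3`
the form `B` is positive definite; if `k < 0` it is negative definite on `ρ g P`. Both have
dimension 3, in dimension 4 they meet in a nonzero vector: contradiction.

`type_of_lor`. The same proof as `cone_type` in `Pool/Agent/Helper94/AL/Lorentz.lean` (private there,
dimension three: adapt it). With the coordinates `x i` of the basis `c`,
`B x y = x 1 * y 1 + x 2 * y 2 + x 3 * y 3 - x 0 * y 0`. Let `C = {v | x 1 ^ 2 + x 2 ^ 2 + x 3 ^ 2 < x 0 ^ 2, 0 < x 0}`,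
the open light cone: convex (reversed Cauchy-Schwarz inequality), it contains no line and it is
the intersection of `V` with an open subset of `E`; its elements are the `v` with `B v v < 0` and
`0 < x 0`. An element `g ∈ Γ` maps `{v | B v v < 0}` to itself and so `C` to `C` or `-C`; `Γ₁` is the
subgroup of the `g` that map `C` to `C`, of index at most two.
-/

open Set Filter Topology Matrix

set_option linter.unusedSectionVars false

namespace Pool.AF

open Pool.SV

namespace Lor4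

/-- a subgroup is of finite index if a two-valued function separates its cosets -/
private theorem fin_index {G : Type*} [Group G] (H : Subgroup G) (s : G → Bool)
    (hs : ∀ a b, s a = s b → a⁻¹ * b ∈ H) : H.index ≠ 0 := by
  have hf : Finite (G ⧸ H) := by
    refine Finite.of_injective (fun q : G ⧸ H => s q.out) ?_
    intro q q' h
    have h1 := hs _ _ h
    rw [← QuotientGroup.eq, QuotientGroup.out_eq', QuotientGroup.out_eq'] at h1
    exact h1
  exact Subgroup.index_ne_zero_of_finite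

section

variable {E : Type*} [NormedAddCommGroup E] [NormedSpace ℝ E] [FiniteDimensional ℝ E]

/-- reversed Cauchy-Schwarz inequality -/
private theorem rcs {x1 x2 x3 x0 y1 y2 y3 y0 : ℝ} (hx : x1 ^ 2 + x2 ^ 2 + x3 ^ 2 < x0 ^ 2)
    (hx0 : 0 < x0) (hy : y1 ^ 2 + y2 ^ 2 + y3 ^ 2 < y0 ^ 2) (hy0 : 0 < y0) :
    x1 * y1 + x2 * y2 + x3 * y3 < x0 * y0 := by
  have h1 : (x1 * y1 + x2 * y2 + x3 * y3) ^ 2 < (x0 * y0) ^ 2 := by
    have h2 : (x1 * y1 + x2 * y2 + x3 * y3) ^ 2 ≤
        (x1 ^ 2 + x2 ^ 2 + x3 ^ 2) * (y1 ^ 2 + y2 ^ 2 + y3 ^ 2) := by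
      nlinarith [sq_nonneg (x1 * y2 - x2 * y1), sq_nonneg (x1 * y3 - x3 * y1),
        sq_nonneg (x2 * y3 - x3 * y2)]
    have h3 : (x1 ^ 2 + x2 ^ 2 + x3 ^ 2) * (y1 ^ 2 + y2 ^ 2 + y3 ^ 2) < x0 ^ 2 * y0 ^ 2 := by
      have h4 : 0 ≤ x1 ^ 2 + x2 ^ 2 + x3 ^ 2 := by positivity
      have h5 : 0 < y0 ^ 2 := by positivity
      nlinarith
    have h6 : (x0 * y0) ^ 2 = x0 ^ 2 * y0 ^ 2 := by ring
    rw [h6]
    exact lt_of_le_of_lt h2 h3
  exact lt_of_pow_lt_pow_left₀ 2 (by positivity) h1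

variable (Γ : Subgroup (E ≃ᵃ[ℝ] E)) (V : Submodule ℝ E)

/-- the light cone, coordinates `x1, x2, x3, x0` -/
theorem cone_type (hinv : ∀ g ∈ Γ, ∀ v ∈ V, g.linear v ∈ V)
    (x1 x2 x3 x0 : V →ₗ[ℝ] ℝ)
    (h0 : ∀ v, x1 v = 0 → x2 v = 0 → x3 v = 0 → x0 v = 0 → v = 0)
    (e : V) (he1 : x1 e = 0) (he2 : x2 e = 0) (he4 : x3 e = 0) (he3 : 0 < x0 e)
    (hQ : ∀ g ∈ Γ, ∃ c : ℝ, 0 < c ∧ ∀ x y x' y' : V, (x' : E) = g.linear (x : E) →
      (y' : E) = g.linear (y : E) → x1 x' * x1 y' + x2 x' * x2 y' + x3 x' * x3 y' - x0 x' * x0 y' =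
        c * (x1 x * x1 y + x2 x * x2 y + x3 x * x3 y - x0 x * x0 y)) :
    ∃ Γ₁ : Subgroup (E ≃ᵃ[ℝ] E), Γ₁ ≤ Γ ∧ Γ₁.relIndex Γ ≠ 0 ∧ ConeType Γ₁ ⊥ V := by
  classical
  -- the cone in `V`
  set C : Set V := {v | x1 v ^ 2 + x2 v ^ 2 + x3 v ^ 2 < x0 v ^ 2 ∧ 0 < x0 v} with hC
  have heC : e ∈ C := by
    refine ⟨?_, he3⟩
    rw [he1, he2, he4]
    have := pow_pos he3 2
    linarith
  -- the action on `V`
  let act : (g : E ≃ᵃ[ℝ] E) → g ∈ Γ → V → V := fun g hg v => ⟨g.linear v, hinv g hg v v.2⟩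
  -- time orientation
  have key : ∀ g ∈ Γ, (∀ v ∈ C, ∀ v' : V, (v' : E) = g.linear (v : E) → v' ∈ C) ∨
      (∀ v ∈ C, ∀ v' : V, (v' : E) = g.linear (v : E) → -v' ∈ C) := by
    intro g hg
    obtain ⟨c, hc, hc'⟩ := hQ g hg
    have h1 : ∀ v ∈ C, ∀ v' : V, (v' : E) = g.linear (v : E) →
        x1 v' ^ 2 + x2 v' ^ 2 + x3 v' ^ 2 < x0 v' ^ 2 := by
      intro v hv v' hv'
      have h2 := hc' v v v' v' hv' hv'
      have h3 := hv.1
      nlinarith
    have h2 : ∀ v ∈ C, ∀ v' : V, (v' : E) = g.linear (v : E) → ∀ e' : V,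
        (e' : E) = g.linear (e : E) →
        x1 v' * x1 e' + x2 v' * x2 e' + x3 v' * x3 e' - x0 v' * x0 e' < 0 := by
      intro v hv v' hv' e' he'
      rw [hc' v e v' e' hv' he']
      have h3 := rcs hv.1 hv.2 heC.1 heC.2
      nlinarith
    set e' : V := act g hg e with he'
    have he'' : (e' : E) = g.linear (e : E) := rfl
    have h3 := h1 e heC e' he''
    have h4 : x0 e' ≠ 0 := by
      intro h5
      rw [h5] at h3
      nlinarith [sq_nonneg (x1 e'), sq_nonneg (x2 e'), sq_nonneg (x3 e')]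
    rcases lt_or_gt_of_ne h4 with h5 | h5
    · right
      intro v hv v' hv'
      have h6 := h1 v hv v' hv'
      refine ⟨?_, ?_⟩
      · simp only [map_neg, neg_sq]
        exact h6
      · rw [map_neg]
        by_contra h7
        have h8 : 0 ≤ x0 v' := by linarith
        rcases h8.eq_or_lt with h9 | h9
        · rw [← h9] at h6
          nlinarith [sq_nonneg (x1 v'), sq_nonneg (x2 v'), sq_nonneg (x3 v')]
        · have h10 : x1 (-e') ^ 2 + x2 (-e') ^ 2 + x3 (-e') ^ 2 < x0 (-e') ^ 2 := by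
            simp only [map_neg, neg_sq]
            exact h3
          have h11 := rcs h6 h9 h10 (by rw [map_neg]; linarith)
          have h12 := h2 v hv v' hv' e' he''
          simp only [map_neg] at h11
          nlinarith
    · left
      intro v hv v' hv'
      have h6 := h1 v hv v' hv'
      refine ⟨h6, ?_⟩
      by_contra h7
      have h8 : x0 v' ≤ 0 := by linarith
      rcases h8.eq_or_lt with h9 | h9
      · rw [h9] at h6
        nlinarith [sq_nonneg (x1 v'), sq_nonneg (x2 v'), sq_nonneg (x3 v')]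
      · have h10 : x1 (-v') ^ 2 + x2 (-v') ^ 2 + x3 (-v') ^ 2 < x0 (-v') ^ 2 := by
          simp only [map_neg, neg_sq]
          exact h6
        have h11 := rcs h10 (by rw [map_neg]; linarith) h3 h5
        have h12 := h2 v hv v' hv' e' he''
        simp only [map_neg] at h11
        nlinarith
  -- future preserving
  let Fut : (E ≃ᵃ[ℝ] E) → Prop := fun g => ∀ v ∈ C, ∀ v' : V, (v' : E) = g.linear (v : E) → v' ∈ C
  let Pst : (E ≃ᵃ[ℝ] E) → Prop := fun g => ∀ v ∈ C, ∀ v' : V, (v' : E) = g.linear (v : E) → -v' ∈ C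
  have hneg : ∀ v ∈ C, -v ∉ C := by
    intro v hv hv'
    have h1 := hv.2
    have h2 := hv'.2
    rw [map_neg] at h2
    linarith
  have hinvl : ∀ g : E ≃ᵃ[ℝ] E, ∀ v : E, g.linear ((g⁻¹).linear v) = v := fun g v =>
    g.linear.apply_symm_apply v
  have hinvl' : ∀ g : E ≃ᵃ[ℝ] E, ∀ v : E, (g⁻¹).linear (g.linear v) = v := fun g v =>
    g.linear.symm_apply_apply v
  -- inverses
  have hFinv : ∀ g ∈ Γ, Fut g → Fut g⁻¹ := by
    intro g hg hF
    rcases key g⁻¹ (Γ.inv_mem hg) with h | h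
    · exact h
    · exfalso
      have h1 := h e heC (act g⁻¹ (Γ.inv_mem hg) e) rfl
      have h2 := hF _ h1 (-e) (by
        change (-(e : E)) = g.linear (-((g⁻¹).linear (e : E)))
        rw [map_neg, hinvl])
      exact hneg e heC h2
  have hPinv : ∀ g ∈ Γ, Pst g → Pst g⁻¹ := by
    intro g hg hP
    rcases key g⁻¹ (Γ.inv_mem hg) with h | h
    · exfalso
      have h1 := h e heC (act g⁻¹ (Γ.inv_mem hg) e) rfl
      have h2 := hP _ h1 e (by
        change (e : E) = g.linear ((g⁻¹).linear (e : E))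
        rw [hinvl])
      exact hneg e heC h2
    · exact h
  have hmul1 : ∀ g ∈ Γ, ∀ h ∈ Γ, Fut g → Fut h → Fut (g * h) := by
    intro g hg h hh hF hF' v hv v' hv'
    exact hF _ (hF' v hv (act h hh v) rfl) v' hv'
  have hmul2 : ∀ g ∈ Γ, ∀ h ∈ Γ, Pst g → Pst h → Fut (g * h) := by
    intro g hg h hh hP hP' v hv v' hv'
    have h1 := hP' v hv (act h hh v) rfl
    have h2 := hP _ h1 (-v') (by
      change -(v' : E) = g.linear (-(h.linear (v : E)))
      rw [map_neg, hv']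
      rfl)
    rwa [neg_neg] at h2
  -- the subgroup
  let Γ₁ : Subgroup (E ≃ᵃ[ℝ] E) :=
    { carrier := {g | g ∈ Γ ∧ Fut g}
      mul_mem' := fun {a b} ha hb => ⟨Γ.mul_mem ha.1 hb.1, hmul1 a ha.1 b hb.1 ha.2 hb.2⟩
      one_mem' := ⟨Γ.one_mem, fun v hv v' hv' => by
        have : v' = v := Subtype.ext hv'
        rw [this]
        exact hv⟩
      inv_mem' := fun {a} ha => ⟨Γ.inv_mem ha.1, hFinv a ha.1 ha.2⟩ }
  refine ⟨Γ₁, fun g hg => hg.1, ?_, ?_⟩
  · refine fin_index (Γ₁.subgroupOf Γ) (fun g => decide (Fut g.1)) ?_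
    intro a b hab
    rw [Subgroup.mem_subgroupOf]
    refine ⟨Γ.mul_mem (Γ.inv_mem a.2) b.2, ?_⟩
    by_cases ha : Fut a.1
    · have hb : Fut b.1 := by
        have : decide (Fut a.1) = true := decide_eq_true ha
        rw [this] at hab
        exact of_decide_eq_true hab.symm
      exact hmul1 _ (Γ.inv_mem a.2) _ b.2 (hFinv _ a.2 ha) hb
    · have hb : ¬ Fut b.1 := by
        have : decide (Fut a.1) = false := decide_eq_false ha
        rw [this] at hab
        exact of_decide_eq_false hab.symm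
      have ha' : Pst a.1 := (key a.1 a.2).resolve_left ha
      have hb' : Pst b.1 := (key b.1 b.2).resolve_left hb
      exact hmul2 _ (Γ.inv_mem a.2) _ b.2 (hPinv _ a.2 ha') hb'
  · -- the cone in `E`
    obtain ⟨π, hπ⟩ := V.subtype.exists_leftInverse_of_injective (Submodule.ker_subtype V)
    have hπ' : ∀ v : V, π (v : E) = v := fun v => congrArg (fun f : V →ₗ[ℝ] V => f v) hπ
    set U : Set E := {y | x1 (π y) ^ 2 + x2 (π y) ^ 2 + x3 (π y) ^ 2 < x0 (π y) ^ 2 ∧ 0 < x0 (π y)} with hU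
    have hc1 : Continuous fun y => x1 (π y) := (x1 ∘ₗ π).continuous_of_finiteDimensional
    have hc2 : Continuous fun y => x2 (π y) := (x2 ∘ₗ π).continuous_of_finiteDimensional
    have hc4 : Continuous fun y => x3 (π y) := (x3 ∘ₗ π).continuous_of_finiteDimensional
    have hc3 : Continuous fun y => x0 (π y) := (x0 ∘ₗ π).continuous_of_finiteDimensional
    have hUo : IsOpen U := by
      refine IsOpen.inter ?_ ?_
      · exact isOpen_lt (((hc1.pow 2).add (hc2.pow 2)).add (hc4.pow 2)) (hc3.pow 2)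
      · exact isOpen_lt continuous_const hc3
    have hmem : ∀ y : E, y ∈ U ∩ (V : Set E) ↔ ∃ h : y ∈ V, (⟨y, h⟩ : V) ∈ C := by
      intro y
      constructor
      · rintro ⟨h1, h2⟩
        refine ⟨h2, ?_⟩
        have h3 := hπ' ⟨y, h2⟩
        rw [← h3]
        exact h1
      · rintro ⟨h1, h2⟩
        refine ⟨?_, h1⟩
        have h3 : π y = ⟨y, h1⟩ := hπ' ⟨y, h1⟩
        change x1 (π y) ^ 2 + x2 (π y) ^ 2 + x3 (π y) ^ 2 < x0 (π y) ^ 2 ∧ 0 < x0 (π y)
        rw [h3]
        exact h2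
    refine ⟨U ∩ (V : Set E), U, hUo, rfl, ⟨e, (hmem e).2 ⟨e.2, heC⟩⟩, ?_, ?_, ?_, ?_⟩
    · -- convex
      intro y hy z hz s r hs hr hsr
      obtain ⟨hy1, hy2⟩ := (hmem y).1 hy
      obtain ⟨hz1, hz2⟩ := (hmem z).1 hz
      rw [hmem]
      refine ⟨V.add_mem (V.smul_mem s hy1) (V.smul_mem r hz1), ?_⟩
      have h1 : (⟨s • y + r • z, V.add_mem (V.smul_mem s hy1) (V.smul_mem r hz1)⟩ : V) =
          s • (⟨y, hy1⟩ : V) + r • (⟨z, hz1⟩ : V) := rfl
      rw [h1]
      set a : V := ⟨y, hy1⟩ with ha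
      set b : V := ⟨z, hz1⟩ with hb
      have h2 := rcs hy2.1 hy2.2 hz2.1 hz2.2
      have h3 := hy2.1
      have h4 := hz2.1
      have h5 := hy2.2
      have h6 := hz2.2
      rcases hs.eq_or_lt with h7 | h7
      · have h8 : r = 1 := by linarith
        rw [← h7, h8, zero_smul, one_smul, zero_add]
        exact hz2
      · refine ⟨?_, ?_⟩
        · simp only [map_add, map_smul, smul_eq_mul]
          have h8 : s ^ 2 * (x1 a ^ 2 + x2 a ^ 2 + x3 a ^ 2) < s ^ 2 * x0 a ^ 2 :=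
            mul_lt_mul_of_pos_left h3 (by positivity)
          have h9 : r ^ 2 * (x1 b ^ 2 + x2 b ^ 2 + x3 b ^ 2) ≤ r ^ 2 * x0 b ^ 2 :=
            mul_le_mul_of_nonneg_left h4.le (by positivity)
          have h10 : (s * r) * (x1 a * x1 b + x2 a * x2 b + x3 a * x3 b) ≤ (s * r) * (x0 a * x0 b) :=
            mul_le_mul_of_nonneg_left h2.le (by positivity)
          nlinarith
        · simp only [map_add, map_smul, smul_eq_mul]
          have h8 : 0 < s * x0 a := mul_pos h7 h5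
          have h9 : 0 ≤ r * x0 b := mul_nonneg hr h6.le
          linarith
    · -- scaling
      intro y hy r hr
      obtain ⟨hy1, hy2⟩ := (hmem y).1 hy
      rw [hmem]
      refine ⟨V.smul_mem r hy1, ?_⟩
      have h1 : (⟨r • y, V.smul_mem r hy1⟩ : V) = r • (⟨y, hy1⟩ : V) := rfl
      rw [h1]
      refine ⟨?_, ?_⟩
      · simp only [map_smul, smul_eq_mul]
        have h3 := hy2.1
        have h4 : 0 < r ^ 2 := by positivity
        nlinarith
      · simp only [map_smul, smul_eq_mul]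
        exact mul_pos hr hy2.2
    · -- lineality
      intro v hv
      rw [Submodule.mem_bot]
      constructor
      · intro h1 x hx t
        rw [h1, smul_zero, add_zero]
        exact hx
      · intro h1
        have h2 : ∀ t : ℝ, e + t • (⟨v, hv⟩ : V) ∈ C := by
          intro t
          obtain ⟨h3, h4⟩ := (hmem _).1 (h1 e ((hmem e).2 ⟨e.2, heC⟩) t)
          exact h4
        set w : V := ⟨v, hv⟩ with hw
        have h3 : x0 w = 0 := by
          by_contra h4
          have h5 := (h2 (-(x0 e / x0 w))).2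
          simp only [map_add, map_smul, smul_eq_mul] at h5
          have h6 : -(x0 e / x0 w) * x0 w = -x0 e := by field_simp
          rw [h6] at h5
          linarith
        have h6 : ¬ 0 < x1 w ^ 2 + x2 w ^ 2 + x3 w ^ 2 := by
          intro h6
          have h7 := (h2 (x0 e / Real.sqrt (x1 w ^ 2 + x2 w ^ 2 + x3 w ^ 2))).1
          simp only [map_add, map_smul, smul_eq_mul, he1, he2, he4, h3, mul_zero, zero_add,
            add_zero] at h7
          have h8 : 0 < Real.sqrt (x1 w ^ 2 + x2 w ^ 2 + x3 w ^ 2) := Real.sqrt_pos.2 h6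
          have h9 : Real.sqrt (x1 w ^ 2 + x2 w ^ 2 + x3 w ^ 2) ^ 2 =
              x1 w ^ 2 + x2 w ^ 2 + x3 w ^ 2 := Real.sq_sqrt h6.le
          have h10 : (x0 e / Real.sqrt (x1 w ^ 2 + x2 w ^ 2 + x3 w ^ 2) * x1 w) ^ 2 +
              (x0 e / Real.sqrt (x1 w ^ 2 + x2 w ^ 2 + x3 w ^ 2) * x2 w) ^ 2 +
              (x0 e / Real.sqrt (x1 w ^ 2 + x2 w ^ 2 + x3 w ^ 2) * x3 w) ^ 2 = x0 e ^ 2 := by
            rw [mul_pow, mul_pow, mul_pow, ← mul_add, ← mul_add, div_pow, h9]
            field_simp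
          rw [h10] at h7
          exact lt_irrefl _ h7
        have q1 := sq_nonneg (x1 w)
        have q2 := sq_nonneg (x2 w)
        have q3 := sq_nonneg (x3 w)
        have s1 : x1 w = 0 := by
          have : x1 w ^ 2 = 0 := by linarith
          exact pow_eq_zero_iff (two_ne_zero) |>.1 this
        have s2 : x2 w = 0 := by
          have : x2 w ^ 2 = 0 := by linarith
          exact pow_eq_zero_iff (two_ne_zero) |>.1 this
        have s3 : x3 w = 0 := by
          have : x3 w ^ 2 = 0 := by linarith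
          exact pow_eq_zero_iff (two_ne_zero) |>.1 this
        have h5 := h0 w s1 s2 s3 h3
        exact congrArg Subtype.val h5
    · -- invariance
      intro g hg x hx
      obtain ⟨hx1, hx2⟩ := (hmem x).1 hx
      rw [hmem]
      exact ⟨hinv g hg.1 x hx1, hg.2 _ hx2 _ rfl⟩

end

end Lor4

/-- expansion of the form in the basis -/
private theorem form_exp {V : Type*} [AddCommGroup V] [Module ℝ V]
    (B : V →ₗ[ℝ] V →ₗ[ℝ] ℝ) (c : Module.Basis (Fin 4) ℝ V)
    (hc0 : ∀ i j, i ≠ j → B (c i) (c j) = 0) (hc1 : B (c 0) (c 0) = -1)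
    (hc2 : ∀ i, i ≠ 0 → B (c i) (c i) = 1) (v w : V) :
    B v w = c.repr v 1 * c.repr w 1 + c.repr v 2 * c.repr w 2 + c.repr v 3 * c.repr w 3
      - c.repr v 0 * c.repr w 0 := by
  have h1 : B v = ∑ i, (c.repr v) i • B (c i) := by
    conv_lhs => rw [← c.sum_repr v]
    rw [map_sum]
    refine Finset.sum_congr rfl fun i _ => ?_
    rw [map_smul]
  have h2 : ∀ i, B (c i) w = (c.repr w) i * B (c i) (c i) := by
    intro i
    conv_lhs => rw [← c.sum_repr w]
    rw [map_sum, Finset.sum_eq_single i]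
    · rw [map_smul, smul_eq_mul]
    · intro j _ hj
      rw [map_smul, hc0 i j hj.symm, smul_zero]
    · intro h
      exact absurd (Finset.mem_univ i) h
  rw [h1, LinearMap.sum_apply, Fin.sum_univ_four]
  simp only [LinearMap.smul_apply, smul_eq_mul, h2]
  rw [hc1, hc2 1 (by decide), hc2 2 (by decide), hc2 3 (by decide)]
  ring

theorem form_up4 {G V : Type*} [Group G] [AddCommGroup V] [Module ℝ V] [FiniteDimensional ℝ V]
    (ρ : G →* (V →ₗ[ℝ] V)) (N : Subgroup G) [N.Normal]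
    (hspan : Submodule.span ℝ ((fun δ => ρ δ) '' (N : Set G)) = ⊤)
    (B : V →ₗ[ℝ] V →ₗ[ℝ] ℝ) (c : Module.Basis (Fin 4) ℝ V)
    (hc0 : ∀ i j, i ≠ j → B (c i) (c j) = 0) (hc1 : B (c 0) (c 0) = -1)
    (hc2 : ∀ i, i ≠ 0 → B (c i) (c i) = 1)
    (hB3 : ∀ g ∈ N, ∀ x y, B (ρ g x) (ρ g y) = B x y) :
    ∀ g, ∃ k : ℝ, 0 < k ∧ ∀ x y, B (ρ g x) (ρ g y) = k * B x y := by
  intro g
  have hexp := form_exp B c hc0 hc1 hc2
  have hnd : ∀ x x' : V, (∀ y, B x y = B x' y) → x = x' := by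
    intro x x' h
    apply c.repr.injective
    ext i
    have h1 := h (c i)
    rw [hexp, hexp] at h1
    fin_cases i <;> simp [c.repr_self, Finsupp.single_apply] at h1 ⊢ <;> linarith
  have hBinj : Function.Injective B := by
    intro x x' h
    exact hnd x x' fun y => by rw [h]
  have hfd : Module.finrank ℝ V = Module.finrank ℝ (Module.Dual ℝ V) :=
    (Subspace.dual_finrank_eq).symm
  let e : V ≃ₗ[ℝ] Module.Dual ℝ V := LinearEquiv.ofInjectiveOfFinrankEq B hBinj hfd
  have hinv1 : ∀ (h : G) (x : V), ρ h (ρ h⁻¹ x) = x := by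
    intro h x
    have h1 : (ρ h * ρ h⁻¹) x = x := by
      rw [← map_mul, mul_inv_cancel, map_one]
      rfl
    exact h1
  have hmul : ∀ (h k : G) (x : V), ρ (h * k) x = ρ h (ρ k x) := by
    intro h k x
    rw [map_mul]
    rfl
  -- the adjoint of `ρ g`
  let Ad : V →ₗ[ℝ] V := (e.symm : Module.Dual ℝ V →ₗ[ℝ] V) ∘ₗ (ρ g).dualMap ∘ₗ
    (e : V →ₗ[ℝ] Module.Dual ℝ V)
  have hAd : ∀ x y, B (Ad x) y = B x (ρ g y) := by
    intro x y
    have h1 : e (Ad x) = (ρ g).dualMap (e x) := by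
      change e (e.symm _) = _
      rw [LinearEquiv.apply_symm_apply]
      rfl
    have h2 : B (Ad x) = (ρ g).dualMap (B x) := h1
    rw [h2, LinearMap.dualMap_apply]
  let T : V →ₗ[ℝ] V := Ad ∘ₗ ρ g
  have hT : ∀ x y, B (T x) y = B (ρ g x) (ρ g y) := fun x y => hAd _ _
  have hcomm : ∀ h ∈ N, ∀ v, T (ρ h v) = ρ h (T v) := by
    intro h hh v
    apply hnd
    intro y
    have h1 : y = ρ h (ρ h⁻¹ y) := (hinv1 h y).symm
    rw [h1, hT, hB3 h hh, hT]
    have h2 : ∀ x, ρ g (ρ h x) = ρ (g * h * g⁻¹) (ρ g x) := by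
      intro x
      rw [← hmul, ← hmul]
      congr 2
      group
    rw [h2, h2, hB3 _ (Subgroup.Normal.conj_mem ‹N.Normal› h hh g)]
  have hcommAll : ∀ S : V →ₗ[ℝ] V, ∀ v, T (S v) = S (T v) := by
    intro S
    have hS : S ∈ Submodule.span ℝ ((fun δ => ρ δ) '' (N : Set G)) := by
      rw [hspan]
      trivial
    refine Submodule.span_induction ?_ ?_ ?_ ?_ hS
    · rintro _ ⟨δ, hδ, rfl⟩ v
      exact hcomm δ hδ v
    · intro v
      simp
    · intro A A' _ _ hA hA' v
      rw [LinearMap.add_apply, LinearMap.add_apply, map_add, hA, hA']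
    · intro r A _ hA v
      rw [LinearMap.smul_apply, LinearMap.smul_apply, map_smul, hA]
  -- `T` is a scalar
  obtain ⟨k, hk⟩ : ∃ k : ℝ, ∀ v, T v = k • v := by
    refine ⟨c.repr (T (c 0)) 0, ?_⟩
    intro v
    -- the rank one operator `x ↦ x_0 v`
    let S : V →ₗ[ℝ] V := (LinearMap.toSpanSingleton ℝ V v) ∘ₗ (c.coord 0)
    have hS : ∀ x, S x = c.repr x 0 • v := fun x => rfl
    have h1 := hcommAll S (c 0)
    rw [hS, hS] at h1
    have h2 : c.repr (c 0) 0 = 1 := by
      rw [c.repr_self, Finsupp.single_eq_same]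
    rw [h2, one_smul] at h1
    exact h1
  have hkB : ∀ x y, B (ρ g x) (ρ g y) = k * B x y := by
    intro x y
    rw [← hT, hk, map_smul, LinearMap.smul_apply, smul_eq_mul]
  refine ⟨k, ?_, hkB⟩
  have hk0 : k ≠ 0 := by
    intro h0
    have h1 := hkB (ρ g⁻¹ (c 0)) (ρ g⁻¹ (c 0))
    rw [hinv1, h0, zero_mul, hc1] at h1
    norm_num at h1
  have hr : ∀ i j, c.repr (c i) j = if i = j then 1 else 0 := by
    intro i j
    rw [c.repr_self, Finsupp.single_apply]
  have key : ∀ v : V, 0 < B v v → c.repr (ρ g v) 0 = 0 → 0 ≤ k := by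
    intro v hv h0
    have h1 := hkB v v
    have h2 : 0 ≤ B (ρ g v) (ρ g v) := by
      rw [hexp, h0]
      nlinarith [mul_self_nonneg (c.repr (ρ g v) 1), mul_self_nonneg (c.repr (ρ g v) 2),
        mul_self_nonneg (c.repr (ρ g v) 3)]
    rw [h1] at h2
    by_contra h3
    have h4 : k < 0 := not_le.1 h3
    nlinarith
  have hk1 : 0 ≤ k := by
    by_cases ha : c.repr (ρ g (c 1)) 0 = 0
    · exact key (c 1) (by rw [hc2 1 (by decide)]; norm_num) ha
    · refine key (c.repr (ρ g (c 2)) 0 • c 1 - c.repr (ρ g (c 1)) 0 • c 2) ?_ ?_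
      · have e1 : B (c.repr (ρ g (c 2)) 0 • c 1 - c.repr (ρ g (c 1)) 0 • c 2)
            (c.repr (ρ g (c 2)) 0 • c 1 - c.repr (ρ g (c 1)) 0 • c 2) =
            c.repr (ρ g (c 2)) 0 ^ 2 + c.repr (ρ g (c 1)) 0 ^ 2 := by
          simp only [map_sub, map_smul, LinearMap.sub_apply, LinearMap.smul_apply, smul_eq_mul]
          rw [hc2 1 (by decide), hc2 2 (by decide), hc0 1 2 (by decide), hc0 2 1 (by decide)]
          ring
        rw [e1]
        have h5 : 0 < c.repr (ρ g (c 1)) 0 ^ 2 := by positivity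
        have h6 : 0 ≤ c.repr (ρ g (c 2)) 0 ^ 2 := sq_nonneg _
        linarith
      · simp only [map_sub, map_smul, Finsupp.sub_apply, Finsupp.smul_apply, smul_eq_mul]
        ring
  exact lt_of_le_of_ne hk1 (Ne.symm hk0)

theorem type_of_lor {E : Type*} [NormedAddCommGroup E] [NormedSpace ℝ E]
    [FiniteDimensional ℝ E] (Γ : Subgroup (E ≃ᵃ[ℝ] E)) (V : Submodule ℝ E)
    (hinv : ∀ g ∈ Γ, ∀ v ∈ V, g.linear v ∈ V)
    (B : V →ₗ[ℝ] V →ₗ[ℝ] ℝ) (c : Module.Basis (Fin 4) ℝ V)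
    (hc0 : ∀ i j, i ≠ j → B (c i) (c j) = 0) (hc1 : B (c 0) (c 0) = -1)
    (hc2 : ∀ i, i ≠ 0 → B (c i) (c i) = 1)
    (hB : ∀ g ∈ Γ, ∃ k : ℝ, 0 < k ∧ ∀ x y x' y' : V, (x' : E) = g.linear (x : E) →
      (y' : E) = g.linear (y : E) → B x' y' = k * B x y) :
    ∃ Γ₁ : Subgroup (E ≃ᵃ[ℝ] E), Γ₁ ≤ Γ ∧ Γ₁.relIndex Γ ≠ 0 ∧ ConeType Γ₁ ⊥ V := by
  have hexp := form_exp B c hc0 hc1 hc2
  refine Lor4.cone_type Γ V hinv (c.coord 1) (c.coord 2) (c.coord 3) (c.coord 0) ?_ (c 0) ?_ ?_ ?_ ?_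
    ?_
  · intro v h1 h2 h3 h0
    apply c.repr.injective
    ext i
    rw [map_zero, Finsupp.zero_apply]
    simp only [Module.Basis.coord_apply] at h0 h1 h2 h3
    fin_cases i
    · exact h0
    · exact h1
    · exact h2
    · exact h3
  · rw [Module.Basis.coord_apply, c.repr_self, Finsupp.single_eq_of_ne (by decide)]
  · rw [Module.Basis.coord_apply, c.repr_self, Finsupp.single_eq_of_ne (by decide)]
  · rw [Module.Basis.coord_apply, c.repr_self, Finsupp.single_eq_of_ne (by decide)]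
  · rw [Module.Basis.coord_apply, c.repr_self, Finsupp.single_eq_same]
    norm_num
  · intro g hg
    obtain ⟨k, hk, hk'⟩ := hB g hg
    refine ⟨k, hk, fun x y x' y' hx hy => ?_⟩
    have h1 := hk' x y x' y' hx hy
    rw [hexp, hexp] at h1
    simp only [Module.Basis.coord_apply]
    exact h1

end Pool.AF
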