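import Pool.Agent.Helper94.AC.SchurB
import Pool.Agent.Helper94.AC.Gen

/-!
# AC-24 LORF: the Lorentz form (uses the stubs of AC-21, AC-23)

Proof. Take `X, ε, H, σ` from `exists_hyp4` and apply `hyp4_lor`: `ε = 1` and `s • H` is positive definite,
`s = 1` or `-1`. The form `s • gram4 1 H` on `Fin 4 → ℝ` is `2 s x₀ x₃ + s H (x₁, x₂)`, which is
`- u₀² + u₁² + u₂² + u₃²` for an invertible linear change of variables: a `2 × 2` positive definite
symmetric matrix is `Aᵀ * A` with `A` invertible (for instance `s H = !![a, b; b, c]`, `a > 0`,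
`a c - b² > 0`, `A = !![√a, b / √a; 0, √((a c - b²) / a)]`), and
`2 s x₀ x₃ = ((x₀ + s x₃)² - (x₀ - s x₃)²) / 2`. So there is `Z`, `det Z ≠ 0`, with
`s • gram4 1 H = Zᵀ * diagonal ![-1, 1, 1, 1] * Z`. Put `Y = Z * X⁻¹`.
-/

open Set Filter Topology Matrix

set_option linter.unusedSectionVars false

namespace Pool.AF

/-- The change of variables. -/
private def zmat (k s u q w : ℝ) : Matrix (Fin 4) (Fin 4) ℝ :=
  !![k, 0, 0, -(k * s); k, 0, 0, k * s; 0, u, q, 0; 0, 0, w, 0]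

private theorem det_zmat (k s u q w : ℝ) : (zmat k s u q w).det = 2 * k ^ 2 * s * u * w := by
  rw [zmat, Matrix.det_succ_row_zero]
  simp [Fin.sum_univ_succ, Matrix.det_fin_three, Fin.succAbove, Matrix.submatrix]
  ring

private theorem zmat_gram (k s u q w : ℝ) (H : Matrix (Fin 2) (Fin 2) ℝ) (hk : 2 * k ^ 2 = 1)
    (hs : H 1 0 = H 0 1) (h00 : s * H 0 0 = u ^ 2) (h01 : s * H 0 1 = u * q)
    (h11 : s * H 1 1 = q ^ 2 + w ^ 2) :
    (zmat k s u q w)ᵀ * Matrix.diagonal ![-1, 1, 1, 1] * zmat k s u q w = s • gram4 1 H := by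
  ext i j
  fin_cases i <;> fin_cases j <;>
    simp [zmat, gram4, Matrix.mul_apply, Fin.sum_univ_four, Matrix.diagonal, hs, h00, h01, h11] <;>
    first
      | linear_combination s * hk
      | ring1

private theorem aux_div (p q r : ℝ) (hp : p ≠ 0) : r = q ^ 2 / p + (p * r - q ^ 2) / p := by
  field_simp
  ring

private theorem posdef_two (H : Matrix (Fin 2) (Fin 2) ℝ) (s : ℝ) (hs : H 1 0 = H 0 1)
    (hs2 : s * s = 1)
    (hp : ∀ v : Fin 2 → ℝ, v ≠ 0 → 0 < s * (v ⬝ᵥ H *ᵥ v)) :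
    0 < s * H 0 0 ∧ 0 < (s * H 0 0) * (s * H 1 1) - (s * H 0 1) ^ 2 := by
  have h1 := hp ![1, 0] (by
    intro h
    have := congrFun h 0
    simp at this)
  have h1' : 0 < s * H 0 0 := by
    simpa [Matrix.mulVec, dotProduct, Fin.sum_univ_two] using h1
  refine ⟨h1', ?_⟩
  have ha : H 0 0 ≠ 0 := by
    rintro h
    rw [h, mul_zero] at h1'
    exact lt_irrefl _ h1'
  have h2 := hp ![H 0 1, - H 0 0] (by
    intro h
    have := congrFun h 1
    simp at this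
    exact ha this)
  have h3 : s * (![H 0 1, - H 0 0] ⬝ᵥ H *ᵥ ![H 0 1, - H 0 0])
      = (s * H 0 0) * (H 0 0 * H 1 1 - H 0 1 ^ 2) := by
    simp [Matrix.mulVec, dotProduct, Fin.sum_univ_two, hs]
    ring
  rw [h3] at h2
  have h4 : 0 < H 0 0 * H 1 1 - H 0 1 ^ 2 := (mul_pos_iff_of_pos_left h1').mp h2
  have h5 : (s * H 0 0) * (s * H 1 1) - (s * H 0 1) ^ 2
      = (s * s) * (H 0 0 * H 1 1 - H 0 1 ^ 2) := by ring
  rw [h5, hs2, one_mul]
  exact h4

theorem lor_four {G R : Type*} [Group G] [NormedRing R] [NormedAlgebra ℝ R] [CompleteSpace R]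
    {τ : G →* R} {M : G →* Matrix (Fin 4) (Fin 4) ℝ} (hF : Four τ M) :
    ∃ Y : Matrix (Fin 4) (Fin 4) ℝ, Y.det ≠ 0 ∧
      ∀ g, (M g)ᵀ * (Yᵀ * Matrix.diagonal ![-1, 1, 1, 1] * Y) * M g =
        Yᵀ * Matrix.diagonal ![-1, 1, 1, 1] * Y := by
  obtain ⟨X, ε, H, σ, h⟩ := exists_hyp4 hF
  obtain ⟨rfl, s, hs, hp⟩ := hyp4_lor h
  have hss : s * s = 1 := by
    rcases hs with rfl | rfl <;> norm_num
  have hs0 : s ≠ 0 := by
    rintro rfl
    norm_num at hss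
  have hsym : H 1 0 = H 0 1 := by
    have h1 := congrFun (congrFun h.symm 0) 1
    simpa using h1
  obtain ⟨hp1, hp2⟩ := posdef_two H s hsym hss hp
  have hu : Real.sqrt (s * H 0 0) ≠ 0 := (Real.sqrt_pos.mpr hp1).ne'
  have hu2 : Real.sqrt (s * H 0 0) ^ 2 = s * H 0 0 := Real.sq_sqrt hp1.le
  have hw : 0 < ((s * H 0 0) * (s * H 1 1) - (s * H 0 1) ^ 2) / (s * H 0 0) := div_pos hp2 hp1
  have hw0 := (Real.sqrt_pos.mpr hw).ne'
  have hw2 := Real.sq_sqrt hw.le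
  have hk : 2 * (Real.sqrt (1 / 2)) ^ 2 = 1 := by
    rw [Real.sq_sqrt (by norm_num)]
    norm_num
  have hk0 : Real.sqrt (1 / 2) ≠ 0 := (Real.sqrt_pos.mpr (by norm_num)).ne'
  have hZ := zmat_gram (Real.sqrt (1 / 2)) s (Real.sqrt (s * H 0 0))
    (s * H 0 1 / Real.sqrt (s * H 0 0))
    (Real.sqrt (((s * H 0 0) * (s * H 1 1) - (s * H 0 1) ^ 2) / (s * H 0 0))) H hk hsym
    hu2.symm (by field_simp) (by
      rw [hw2, div_pow, hu2]
      exact aux_div _ _ _ hp1.ne')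
  set Z := zmat (Real.sqrt (1 / 2)) s (Real.sqrt (s * H 0 0))
    (s * H 0 1 / Real.sqrt (s * H 0 0))
    (Real.sqrt (((s * H 0 0) * (s * H 1 1) - (s * H 0 1) ^ 2) / (s * H 0 0))) with hZdef
  have hZd : Z.det ≠ 0 := by
    rw [hZdef, det_zmat]
    have h2 : (2:ℝ) ≠ 0 := two_ne_zero
    exact mul_ne_zero (mul_ne_zero (mul_ne_zero (mul_ne_zero h2 (pow_ne_zero 2 hk0)) hs0) hu) hw0
  set W : Matrix (Fin 4) (Fin 4) ℝ := ((X⁻¹ : (Matrix (Fin 4) (Fin 4) ℝ)ˣ) : Matrix (Fin 4) (Fin 4) ℝ)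
    with hW
  have hWd : W.det ≠ 0 := by
    have h1 : IsUnit W := Units.isUnit _
    exact ((Matrix.isUnit_iff_isUnit_det W).mp h1).ne_zero
  refine ⟨Z * W, by rw [Matrix.det_mul]; exact mul_ne_zero hZd hWd, fun g => ?_⟩
  have hc : (Z * W)ᵀ * Matrix.diagonal ![-1, 1, 1, 1] * (Z * W) = Wᵀ * (s • gram4 1 H) * W := by
    rw [← hZ, Matrix.transpose_mul]
    simp only [Matrix.mul_assoc]
  rw [hc]
  have hm : W * M g = conjM X M g * W := by
    rw [conjM_apply, Matrix.mul_assoc, Matrix.mul_assoc, hW, Units.mul_inv, Matrix.mul_one]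
  have hi := h.inv g
  calc (M g)ᵀ * (Wᵀ * (s • gram4 1 H) * W) * M g
      = (W * M g)ᵀ * (s • gram4 1 H) * (W * M g) := by
        rw [Matrix.transpose_mul]
        simp only [Matrix.mul_assoc]
    _ = Wᵀ * (s • ((conjM X M g)ᵀ * gram4 1 H * conjM X M g)) * W := by
        rw [hm, Matrix.transpose_mul]
        simp only [Matrix.mul_assoc, Matrix.mul_smul, Matrix.smul_mul]
    _ = Wᵀ * (s • gram4 1 H) * W := by rw [hi]

end Pool.AF
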