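import Pool.Agent.Helper94.AC.V31
import Pool.Agent.Helper94.AC.LineEx
import Pool.Agent.Helper94.AC.FormW

/-!
# AC-41 V13: an invariant line of the lineality space (uses the stubs AC-38, AC-39, AC-40)

Follow `vanish_inv1` in `Pool/Agent/Helper94/AM/Four.lean` (the case `modSub D (linSub D) ≠ ⊥`; here it
is `⊥`).

(1) If some subgroup of finite index does not act irreducibly on `linSub D ⧸ U`: exactly as there
(`vanish_flag2`, `vanish_flag3`).

(2) If `HasAbNormal D.Γ`: `vanish_of_hasAbNormal`.

(3) Otherwise let `S : InvSub D` with `S.U = linSub D` (`exists_linInv`; as in `vanish_three'` in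
`Pool/Agent/Helper94/AB/Main.lean`, destruct `S` and `subst` to have `S.U = linSub D` definitionally),
`¬ DiscMod (hatHom D.Γ) S.e` by `nd_of_line`. Let `b` be a basis of `S.U` with `b 0 ∈ U` (`U` has
dimension one); `U = span {b 0}` is invariant, so `hline` holds. The isomorphism
`linSub D ⧸ U ≃ (Fin 3 → ℝ)` given by the last three coordinates intertwines
`quoRep (linRep D) U hU g` and `blk (S.mat b g)`; so `hirr` of `exists_lineGood` follows from (1).
Apply `exists_lineGood`. Second alternative: `I` corresponds to an invariant subspace of dimension 3 of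
`linSub D`: `vanish_31`. First alternative: `form_w` gives `B`; let `β x y = p x ⬝ᵥ B *ᵥ p y` on
`linSub D`, `p x` the last three coordinates of `x` in the basis `b`. It is symmetric, its radical is `U`
(`B.det ≠ 0`) and it is preserved up to positive scalars. Conclude as at the end of `vanish_inv1`:
`type_of_form_quot` for `A = U.map (linSub D).subtype`, `B = linSub D`, `coneFlag_two'` and
`quadType_small`.
-/

open Set Finset
open scoped Matrix

set_option linter.unusedSectionVars false

namespace Pool.AF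

open Pool.SV

section

variable {E : Type*} [NormedAddCommGroup E] [NormedSpace ℝ E] [FiniteDimensional ℝ E]

/-- A basis of the space starting with a given vector of a line. -/
private theorem exists_basis_line {V : Type*} [AddCommGroup V] [Module ℝ V]
    [FiniteDimensional ℝ V] (h4 : Module.finrank ℝ V = 4) (U : Submodule ℝ V)
    (h1 : Module.finrank ℝ U = 1) :
    ∃ b : Module.Basis (Fin 4) ℝ V, U = Submodule.span ℝ {b 0} := by
  obtain ⟨u, hu, hu0, hspan⟩ : ∃ u ∈ U, u ≠ 0 ∧ U = Submodule.span ℝ {u} := by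
    obtain ⟨⟨u, hu⟩, hu0, hs⟩ := finrank_eq_one_iff'.mp h1
    refine ⟨u, hu, fun h => hu0 (Subtype.ext h), le_antisymm ?_ ?_⟩
    · intro w hw
      obtain ⟨c, hc⟩ := hs ⟨w, hw⟩
      rw [Submodule.mem_span_singleton]
      exact ⟨c, congrArg Subtype.val hc⟩
    · rw [Submodule.span_singleton_le_iff_mem]
      exact hu
  obtain ⟨N, hN⟩ := Submodule.exists_isCompl U
  have hN3 : Module.finrank ℝ N = 3 := by
    have := Submodule.finrank_add_eq_of_isCompl hN
    omega
  have hli : ∀ c : ℝ, ∀ x ∈ N, c • u + x = 0 → c = 0 := by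
    intro c x hx h
    have h2 : c • u ∈ U ⊓ N := by
      refine ⟨U.smul_mem c hu, ?_⟩
      rw [eq_neg_of_add_eq_zero_left h]
      exact N.neg_mem hx
    rw [hN.inf_eq_bot, Submodule.mem_bot] at h2
    exact (smul_eq_zero.mp h2).resolve_right hu0
  have hsp : ∀ z : V, ∃ c : ℝ, z + c • u ∈ N := by
    intro z
    have hz : z ∈ U ⊔ N := by rw [hN.sup_eq_top]; exact Submodule.mem_top
    obtain ⟨a, ha, w, hw, haw⟩ := Submodule.mem_sup.mp hz
    rw [hspan, Submodule.mem_span_singleton] at ha
    obtain ⟨c, hc⟩ := ha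
    refine ⟨-c, ?_⟩
    have h3 : z + (-c) • u = w := by
      rw [← haw, ← hc, neg_smul]
      abel
    rw [h3]
    exact hw
  refine ⟨Module.Basis.mkFinCons u (Module.finBasisOfFinrankEq ℝ N hN3) hli hsp, ?_⟩
  rw [Module.Basis.coe_mkFinCons, Fin.cons_zero]
  exact hspan

theorem vanish_13 (D : Geo E) (hpos : 0 < Module.finrank ℝ E)
    (hcc : ∃ K ⊆ D.X, IsCompact K ∧ ∀ x ∈ D.X, ∃ g ∈ D.Γ, g x ∈ K) (hX : D.X ≠ Set.univ)
    (h4 : Module.finrank ℝ (linSub D) = 4) (hne : modSub D (linSub D) = ⊥)
    (U : Submodule ℝ (linSub D)) (hU : ∀ g, ∀ u ∈ U, linRep D g u ∈ U)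
    (h1 : Module.finrank ℝ U = 1) : Vanish D := by
  classical
  by_cases hab : HasAbNormal D.Γ
  · exact vanish_of_hasAbNormal D hpos hab hcc
  have hV : linSub D ≠ ⊥ := by
    intro h
    rw [h, finrank_bot] at h4
    omega
  have hU0 : U ≠ ⊥ := by
    intro h
    rw [h, finrank_bot] at h1
    omega
  have hU1 : U ≠ ⊤ := by
    intro h
    rw [h, finrank_top] at h1
    omega
  by_cases hirr : ∀ H : Subgroup D.Γ, H.FiniteIndex → ∀ I : Submodule ℝ (linSub D), U ≤ I →
      (∀ h ∈ H, ∀ u ∈ I, linRep D h u ∈ I) → I = U ∨ I = ⊤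
  swap
  · push Not at hirr
    obtain ⟨H, hH, I, hle, hinv, hne1, hne2⟩ := hirr
    have hlt : U < I := lt_of_le_of_ne hle (Ne.symm hne1)
    have h5 := Submodule.finrank_lt_finrank_of_lt hlt
    have h6 := Submodule.finrank_lt hne2
    by_cases h7 : Module.finrank ℝ I = 2
    · refine vanish_flag2 D hpos hcc hX H hH _ ?_ hne2 hinv (by omega) (by omega)
      intro h
      rw [h, finrank_bot] at h7
      omega
    · exact vanish_flag3 D hpos hcc hX H hH U _ hU0 hlt hne2 (fun h _ u hu => hU h u hu) hinv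
        (by omega) (by omega) (by omega)
  obtain ⟨b, hb⟩ := exists_basis_line h4 U h1
  obtain ⟨⟨U', e, le, inv, idem, range⟩, hS⟩ := exists_linInv D
  simp only at hS
  subst hS
  set S : InvSub D := ⟨linSub D, e, le, inv, idem, range⟩ with hSdef
  have hrep : ∀ g : D.Γ, S.lrep g = linRep D g := fun g => rfl
  have hmat : ∀ (g : D.Γ) (x : linSub D), b.equivFun (linRep D g x) = S.mat b g *ᵥ b.equivFun x := by
    intro g x
    have := LinearMap.toMatrix_mulVec_repr b b (S.lrep g) x
    exact this.symm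
  have hline : ∀ g : D.Γ, ∀ i : Fin 3, S.mat b g i.succ 0 = 0 := by
    intro g i
    have h2 : linRep D g (b 0) ∈ U := hU g _ (by rw [hb]; exact Submodule.mem_span_singleton_self _)
    rw [hb, Submodule.mem_span_singleton] at h2
    obtain ⟨c, hc⟩ := h2
    rw [S.mat_apply, LinearMap.toMatrix_apply, hrep, ← hc, map_smul, Finsupp.smul_apply,
      Module.Basis.repr_self, Finsupp.single_eq_of_ne (Fin.succ_ne_zero i), smul_zero]
  -- the last three coordinates
  let p : linSub D →ₗ[ℝ] (Fin 3 → ℝ) :=
    (LinearMap.funLeft ℝ ℝ Fin.succ).comp b.equivFun.toLinearMap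
  have hp : ∀ x i, p x i = b.equivFun x i.succ := fun x i => rfl
  have hpU : ∀ x, p x = 0 ↔ x ∈ U := by
    intro x
    rw [hb, Submodule.mem_span_singleton]
    constructor
    · intro h
      refine ⟨b.equivFun x 0, ?_⟩
      apply b.equivFun.injective
      funext j
      refine Fin.cases ?_ (fun i => ?_) j
      · rw [map_smul, Pi.smul_apply, Module.Basis.equivFun_self]
        simp
      · rw [map_smul, Pi.smul_apply, Module.Basis.equivFun_self, ← hp, h]
        simp [(Fin.succ_ne_zero i).symm]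
    · rintro ⟨c, rfl⟩
      funext i
      rw [hp, map_smul, Pi.smul_apply, Module.Basis.equivFun_self]
      simp [(Fin.succ_ne_zero i).symm]
  have hps : Function.Surjective p := by
    intro y
    refine ⟨b.equivFun.symm (Fin.cons 0 y), ?_⟩
    funext i
    rw [hp, LinearEquiv.apply_symm_apply, Fin.cons_succ]
  have hpg : ∀ g x, p (linRep D g x) = blk (S.mat b g) *ᵥ p x := by
    intro g x
    funext i
    rw [hp, hmat, Matrix.mulVec, dotProduct, Fin.sum_univ_succ, hline, zero_mul, zero_add]
    rfl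
  have hirr3 : ∀ H : Subgroup D.Γ, H.FiniteIndex → ∀ I : Submodule ℝ (Fin 3 → ℝ),
      (∀ h ∈ H, ∀ v ∈ I, blk (S.mat b h) *ᵥ v ∈ I) → I = ⊥ ∨ I = ⊤ := by
    intro H hH I hI
    have hle : U ≤ I.comap p := by
      intro x hx
      rw [Submodule.mem_comap, (hpU x).mpr hx]
      exact I.zero_mem
    have hmap : (I.comap p).map p = I := Submodule.map_comap_eq_of_surjective hps I
    rcases hirr H hH (I.comap p) hle (fun h hh x hx => by
      rw [Submodule.mem_comap] at hx ⊢
      rw [hpg]
      exact hI h hh _ hx) with h | h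
    · left
      rw [eq_bot_iff, ← hmap, h]
      rintro _ ⟨x, hx, rfl⟩
      exact (hpU x).mpr hx
    · right
      rw [← hmap, h, Submodule.map_top]
      exact LinearMap.range_eq_top.mpr hps
  rcases exists_lineGood S b hline hirr3 (nd_of_line D hcc hV S rfl) hne hab with
    ⟨G₀, hG⟩ | ⟨I, hI3, hI⟩
  swap
  · -- an invariant hyperplane
    refine vanish_31 D hpos hcc hX h4 hne (I.comap b.equivFun.toLinearMap) ?_ ?_
    · intro g x hx
      rw [Submodule.mem_comap] at hx ⊢
      have h2 := hI g _ hx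
      change b.equivFun (linRep D g x) ∈ I
      rw [hmat]
      exact h2
    · have h2 : I.comap b.equivFun.toLinearMap = I.map b.equivFun.symm.toLinearMap := by
        ext x
        rw [Submodule.mem_comap, Submodule.mem_map]
        constructor
        · intro hx
          exact ⟨_, hx, b.equivFun.symm_apply_apply x⟩
        · rintro ⟨y, hy, rfl⟩
          change b.equivFun (b.equivFun.symm y) ∈ I
          rw [LinearEquiv.apply_symm_apply]
          exact hy
      rw [h2, ← hI3]
      exact (LinearEquiv.finrank_eq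
        (Submodule.equivMapOfInjective _ b.equivFun.symm.injective I)).symm
  · obtain ⟨B, hB1, hB2, hB3⟩ := form_w S b G₀ hG
    have hinvE : ∀ g ∈ D.Γ, ∀ v ∈ U.map (linSub D).subtype,
        g.linear v ∈ U.map (linSub D).subtype := by
      rintro g hg _ ⟨u, hu, rfl⟩
      exact ⟨linRep D ⟨g, hg⟩ u, hU ⟨g, hg⟩ u hu, rfl⟩
    have hβ : ∀ x y : linSub D, (Matrix.toLinearMap₂' ℝ B).compl₁₂ p p x y
        = p x ⬝ᵥ (B *ᵥ p y) := by
      intro x y
      rw [LinearMap.compl₁₂_apply, Matrix.toLinearMap₂'_apply']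
    obtain ⟨Γ₁, hle, hfin, hT⟩ := type_of_form_quot D.Γ (U.map (linSub D).subtype) (linSub D)
      (Submodule.map_subtype_le _ _) (by rw [finrank_map]; omega) hinvE (linSub_inv D)
      ((Matrix.toLinearMap₂' ℝ B).compl₁₂ p p) (fun x y => by
        rw [hβ, hβ, Matrix.dotProduct_mulVec, ← Matrix.mulVec_transpose, hB1, dotProduct_comm]) (by
        intro x
        constructor
        · intro h
          have h5 : B *ᵥ p x = 0 := by
            funext i
            obtain ⟨y, hy⟩ := hps (Pi.single i 1)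
            have h6 := h y
            rw [hβ, hy, Matrix.dotProduct_mulVec, ← Matrix.mulVec_transpose, hB1,
              dotProduct_single_one] at h6
            exact h6
          have h6 : p x = 0 := Matrix.eq_zero_of_mulVec_eq_zero hB2 h5
          exact ⟨x, (hpU x).mp h6, rfl⟩
        · rintro ⟨u, hu, hux⟩ y
          have h6 : u = x := Subtype.ext hux
          rw [hβ, ← h6, (hpU u).mpr hu, zero_dotProduct]) (by
        intro g hg
        obtain ⟨c, hc, hc2⟩ := hB3 ⟨g, hg⟩
        refine ⟨c, hc, fun x y x' y' hx hy => ?_⟩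
        have e1 : x' = linRep D ⟨g, hg⟩ x := Subtype.ext hx
        have e2 : y' = linRep D ⟨g, hg⟩ y := Subtype.ext hy
        rw [hβ, hβ, e1, e2, hpg, hpg]
        have h7 : ∀ (m : Matrix (Fin 3) (Fin 3) ℝ) (v w : Fin 3 → ℝ),
            (m *ᵥ v) ⬝ᵥ (B *ᵥ (m *ᵥ w)) = v ⬝ᵥ ((mᵀ * B * m) *ᵥ w) := by
          intro m v w
          rw [← Matrix.mulVec_mulVec, ← Matrix.mulVec_mulVec, Matrix.dotProduct_mulVec v,
            Matrix.vecMul_transpose]
        rw [h7, hc2, Matrix.smul_mulVec, dotProduct_smul, smul_eq_mul])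
    have hinv₁ : ∀ g ∈ Γ₁, ∀ v ∈ U.map (linSub D).subtype,
        g.linear v ∈ U.map (linSub D).subtype := fun g hg => hinvE g (hle hg)
    refine vanish_of_virtual_coneFlag D hpos hcc Γ₁ hle hfin
      (coneFlag_two' D Γ₁ hle hX _ (bot_lt_map D hU0) (map_lt D hU1) hinv₁ (Or.inl ?_) hT)
    refine quadType_small _ _ _ bot_le (inv_bot _) hinv₁ ?_
    rw [finrank_bot, finrank_map]
    omega

end

end Pool.AF
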