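import Pool.Agent.Helper94.AC.MainF
import Pool.Agent.Helper94.AC.V13

/-!
# Lineality space of dimension at most four
-/

open Set Finset

set_option linter.unusedSectionVars false

namespace Pool.AF

open Pool.SV

section

variable {E : Type*} [NormedAddCommGroup E] [NormedSpace ℝ E] [FiniteDimensional ℝ E]

theorem vanish_irr4 (D : Geo E) (hpos : 0 < Module.finrank ℝ E)
    (hcc : ∃ K ⊆ D.X, IsCompact K ∧ ∀ x ∈ D.X, ∃ g ∈ D.Γ, g x ∈ K) (hX : D.X ≠ Set.univ)
    (h4 : Module.finrank ℝ (linSub D) = 4) (hne : modSub D (linSub D) = ⊥)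
    (hirr : ∀ H : Subgroup D.Γ, H.FiniteIndex → ∀ U : Submodule ℝ (linSub D),
      (∀ h ∈ H, ∀ u ∈ U, linRep D h u ∈ U) → U = ⊥ ∨ U = ⊤) : Vanish D := by
  classical
  by_cases hab : HasAbNormal D.Γ
  · exact vanish_of_hasAbNormal D hpos hab hcc
  have hV : linSub D ≠ ⊥ := by
    intro h
    rw [h, finrank_bot] at h4
    omega
  obtain ⟨⟨U, e, le, inv, idem, range⟩, hS⟩ := exists_linInv D
  simp only at hS
  subst hS
  set S : InvSub D := ⟨linSub D, e, le, inv, idem, range⟩ with hSdef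
  obtain ⟨B, c, hc0, hc1, hc2, hB⟩ := lor_geo S h4 hirr (nd_of_line D hcc hV S rfl) hne hab
  obtain ⟨Γ₁, hle, hfin, hT⟩ := type_of_lor D.Γ (linSub D) (linSub_inv D) B c hc0 hc1 hc2 (by
    intro g hg
    obtain ⟨k, hk, hk2⟩ := hB ⟨g, hg⟩
    refine ⟨k, hk, fun x y x' y' hx hy => ?_⟩
    have e1 : x' = S.lrep ⟨g, hg⟩ x := Subtype.ext hx
    have e2 : y' = S.lrep ⟨g, hg⟩ y := Subtype.ext hy
    rw [e1, e2]
    exact hk2 x y)
  exact vanish_of_virtual_coneFlag D hpos hcc Γ₁ hle hfin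
    (coneFlag_one D Γ₁ hle hX hV (Or.inr hT))

theorem vanish_four_bot (D : Geo E) (hpos : 0 < Module.finrank ℝ E)
    (hcc : ∃ K ⊆ D.X, IsCompact K ∧ ∀ x ∈ D.X, ∃ g ∈ D.Γ, g x ∈ K) (hX : D.X ≠ Set.univ)
    (h4 : Module.finrank ℝ (linSub D) = 4) (hne : modSub D (linSub D) = ⊥) : Vanish D := by
  classical
  by_cases hirr : ∀ H : Subgroup D.Γ, H.FiniteIndex → ∀ U : Submodule ℝ (linSub D),
      (∀ h ∈ H, ∀ u ∈ U, linRep D h u ∈ U) → U = ⊥ ∨ U = ⊤
  · exact vanish_irr4 D hpos hcc hX h4 hne hirr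
  push Not at hirr
  obtain ⟨H, hH, U, hU, hU0, hU1⟩ := hirr
  have h1 : 0 < Module.finrank ℝ U := by
    rw [Nat.pos_iff_ne_zero]
    intro h
    exact hU0 (Submodule.finrank_eq_zero.mp h)
  have h2 := Submodule.finrank_lt hU1
  by_cases h5 : Module.finrank ℝ U = 2
  · exact vanish_flag2 D hpos hcc hX H hH U hU0 hU1 hU (by omega) (by omega)
  have hcc' := cocompact_geoSub D H hcc
  have hlin : linSub (geoSub D H) = linSub D := rfl
  have hbot : modSub (geoSub D H) (linSub (geoSub D H)) = ⊥ := by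
    rw [eq_bot_iff]
    intro δ hδ
    rw [Subgroup.mem_bot]
    obtain ⟨g, hg, hgδ⟩ := δ.2
    have h1 : g ∈ modSub D (linSub D) := by
      intro x hx
      have h2 := hδ x hx
      rw [← hgδ] at h2
      exact h2
    rw [hne, Subgroup.mem_bot] at h1
    apply Subtype.ext
    rw [← hgδ, h1]
    rfl
  have hinv : ∀ g, ∀ u ∈ U, linRep (geoSub D H) g u ∈ U := by
    rintro ⟨_, g, hg, rfl⟩ u hu
    exact hU g hg u hu
  have hX' : (geoSub D H).X ≠ Set.univ := hX
  have hV : Vanish (geoSub D H) := by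
    by_cases h6 : Module.finrank ℝ U = 1
    · exact vanish_13 (geoSub D H) hpos hcc' hX' h4 hbot U hinv h6
    · have h7 : Module.finrank ℝ U = 3 := by omega
      exact vanish_31 (geoSub D H) hpos hcc' hX' h4 hbot U hinv h7
  refine vanish_transfer D (geoSub D H) (Subgroup.map_subtype_le _) ?_ subset_rfl hV
  rw [relIndex_geoSub]
  exact hH.index_ne_zero

/-- The lineality space has dimension at most four. -/
theorem vanish_all_four (D : Geo E) (hpos : 0 < Module.finrank ℝ E)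
    (hcc : ∃ K ⊆ D.X, IsCompact K ∧ ∀ x ∈ D.X, ∃ g ∈ D.Γ, g x ∈ K) (hX : D.X ≠ Set.univ)
    (h4 : Module.finrank ℝ (linSub D) ≤ 4) : Vanish D := by
  by_cases h : Module.finrank ℝ (linSub D) = 4
  · by_cases hne : modSub D (linSub D) = ⊥
    · exact vanish_four_bot D hpos hcc hX h hne
    · exact vanish_four D hpos hcc hX h hne
  · exact vanish_le_three D hpos hcc hX (by omega)

end

end Pool.AF
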