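import Pool.Agent.Helper94.AC.Defs
import Mathlib.Analysis.Matrix.Spectrum

/-!
# AC-5 SVD: singular value decomposition and convergent subsequences

`svd`. `Aᵀ * A` is symmetric positive definite; by the spectral theorem
(`Matrix.IsHermitian.spectral_theorem`, with the eigenvalues in decreasing order,
`Matrix.IsHermitian.eigenvalues₀_antitone`) `Aᵀ * A = K₂ᵀ * diagonal (s ^ 2) * K₂` with `K₂`
orthogonal and `s > 0` antitone. Put `K₁ = A * K₂ᵀ * diagonal (s⁻¹)`.

`exists_cartan`. Apply `svd` to each `A n`; the orthogonal matrices form a compact set, so `K₁`, `K₂`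
converge along a subsequence; each `t n i ∈ (0, ∞)` converges in `[0, ∞]` (for instance in
`EReal` or through `x ↦ x / (1 + x) ∈ [0, 1]`) along a further subsequence.
-/

open Set Filter Topology Matrix

set_option linter.unusedSectionVars false

namespace Pool.AF

theorem svd {d : ℕ} (A : Matrix (Fin d) (Fin d) ℝ) (hA : A.det ≠ 0) :
    ∃ (K₁ K₂ : Matrix (Fin d) (Fin d) ℝ) (s : Fin d → ℝ), K₁ᵀ * K₁ = 1 ∧ K₂ᵀ * K₂ = 1 ∧
      Antitone s ∧ (∀ i, 0 < s i) ∧ A = K₁ * Matrix.diagonal s * K₂ := by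
  have hP : (Aᴴ * A).PosSemidef := Matrix.posSemidef_conjTranspose_mul_self A
  have hH : (Aᴴ * A).IsHermitian := hP.isHermitian
  set lam := hH.eigenvalues with hlam
  set U : Matrix (Fin d) (Fin d) ℝ := (hH.eigenvectorUnitary : Matrix (Fin d) (Fin d) ℝ) with hU
  have hstar : (Star.star U : Matrix (Fin d) (Fin d) ℝ) = Uᵀ := by
    rw [Matrix.star_eq_conjTranspose, Matrix.conjTranspose_eq_transpose_of_trivial]
  have hU1 : Uᵀ * U = 1 := by
    rw [← hstar]
    exact Unitary.coe_star_mul_self hH.eigenvectorUnitary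
  have hspec : Aᵀ * A = U * Matrix.diagonal lam * Uᵀ := by
    have h := hH.spectral_theorem
    rw [Unitary.conjStarAlgAut_apply] at h
    rw [← Matrix.conjTranspose_eq_transpose_of_trivial A, ← hstar]
    exact h
  have hnn : ∀ i, 0 ≤ lam i := fun i => hP.eigenvalues_nonneg i
  have hdet : (∏ i, lam i) ≠ 0 := by
    have h1 : (Aᵀ * A).det = ∏ i, lam i := by
      rw [← Matrix.conjTranspose_eq_transpose_of_trivial A]
      rw [hH.det_eq_prod_eigenvalues]
      refine Finset.prod_congr rfl (fun i _ => ?_)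
      rfl
    rw [← h1, Matrix.det_mul, Matrix.det_transpose]
    exact mul_ne_zero hA hA
  have hpos : ∀ i, 0 < lam i := fun i =>
    lt_of_le_of_ne (hnn i) (Ne.symm ((Finset.prod_ne_zero_iff.mp hdet) i (Finset.mem_univ i)))
  set σ : Equiv.Perm (Fin d) := Tuple.sort (fun i => - lam i) with hσ
  have hmono : Monotone ((fun i => - lam i) ∘ σ) := Tuple.monotone_sort _
  set s : Fin d → ℝ := fun i => Real.sqrt (lam (σ i)) with hs
  set K₂ : Matrix (Fin d) (Fin d) ℝ := Uᵀ.submatrix σ id with hK₂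
  have hK₂T : K₂ᵀ = U.submatrix id σ := by
    rw [hK₂, Matrix.transpose_submatrix, Matrix.transpose_transpose]
  have hspos : ∀ i, 0 < s i := fun i => Real.sqrt_pos.mpr (hpos _)
  have hUU : U * Uᵀ = 1 := mul_eq_one_comm.mp hU1
  have h21 : K₂ᵀ * K₂ = 1 := by
    rw [hK₂T, hK₂, Matrix.submatrix_mul_equiv U Uᵀ id σ id, hUU]
    exact Matrix.submatrix_id_id _
  have h22 : K₂ * K₂ᵀ = 1 := mul_eq_one_comm.mp h21
  have hdec : Aᵀ * A = K₂ᵀ * Matrix.diagonal (fun i => lam (σ i)) * K₂ := by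
    have h1 : Matrix.diagonal (fun i => lam (σ i)) = (Matrix.diagonal lam).submatrix σ σ := by
      rw [Matrix.submatrix_diagonal_equiv]
      rfl
    rw [h1, hK₂T, hK₂, Matrix.submatrix_mul_equiv, Matrix.submatrix_mul_equiv, ← hspec]
    exact (Matrix.submatrix_id_id _).symm
  have hss : Matrix.diagonal s * Matrix.diagonal s = Matrix.diagonal (fun i => lam (σ i)) := by
    rw [Matrix.diagonal_mul_diagonal]
    congr 1
    funext i
    exact Real.mul_self_sqrt (hnn _)
  set si : Fin d → ℝ := fun i => (s i)⁻¹ with hsi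
  have hs1 : Matrix.diagonal s * Matrix.diagonal si = 1 := by
    rw [Matrix.diagonal_mul_diagonal, ← Matrix.diagonal_one]
    congr 1
    funext i
    exact mul_inv_cancel₀ (hspos i).ne'
  have hs2 : Matrix.diagonal si * Matrix.diagonal s = 1 := mul_eq_one_comm.mp hs1
  refine ⟨A * K₂ᵀ * Matrix.diagonal si, K₂, s, ?_, h21, ?_, hspos, ?_⟩
  · rw [Matrix.transpose_mul, Matrix.transpose_mul, Matrix.transpose_transpose,
      Matrix.diagonal_transpose]
    have h1 : Matrix.diagonal si * (K₂ * Aᵀ) * (A * K₂ᵀ * Matrix.diagonal si) =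
        Matrix.diagonal si * (K₂ * (Aᵀ * A) * K₂ᵀ) * Matrix.diagonal si := by
      simp only [Matrix.mul_assoc]
    rw [h1, hdec, ← hss]
    have h2 : K₂ * (K₂ᵀ * (Matrix.diagonal s * Matrix.diagonal s) * K₂) * K₂ᵀ =
        (K₂ * K₂ᵀ) * (Matrix.diagonal s * Matrix.diagonal s) * (K₂ * K₂ᵀ) := by
      simp only [Matrix.mul_assoc]
    rw [h2, h22, Matrix.one_mul, Matrix.mul_one]
    have h3 : Matrix.diagonal si * (Matrix.diagonal s * Matrix.diagonal s) * Matrix.diagonal si =
        (Matrix.diagonal si * Matrix.diagonal s) * (Matrix.diagonal s * Matrix.diagonal si) := by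
      simp only [Matrix.mul_assoc]
    rw [h3, hs1, hs2, Matrix.one_mul]
  · intro i j hij
    have h := hmono hij
    simp only [Function.comp_apply, neg_le_neg_iff] at h
    exact Real.sqrt_le_sqrt h
  · have h1 : A * K₂ᵀ * Matrix.diagonal si * Matrix.diagonal s * K₂ =
        A * (K₂ᵀ * ((Matrix.diagonal si * Matrix.diagonal s) * K₂)) := by
      simp only [Matrix.mul_assoc]
    rw [h1, hs2, Matrix.one_mul, h21, Matrix.mul_one]

private theorem isCompact_orth (d : ℕ) :
    IsCompact {K : Matrix (Fin d) (Fin d) ℝ | Kᵀ * K = 1} := by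
  have hc : IsCompact (Set.pi Set.univ (fun _ : Fin d => Set.pi Set.univ
      (fun _ : Fin d => Set.Icc (-1 : ℝ) 1))) :=
    isCompact_univ_pi (fun _ => isCompact_univ_pi (fun _ => isCompact_Icc))
  have hcl : IsClosed {K : Matrix (Fin d) (Fin d) ℝ | Kᵀ * K = 1} := by
    refine isClosed_eq ?_ continuous_const
    exact (continuous_id.matrix_transpose).matrix_mul continuous_id
  refine IsCompact.of_isClosed_subset hc hcl ?_
  intro K hK
  have hK : Kᵀ * K = 1 := hK
  refine fun i _ j _ => ?_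
  have h1 : ∑ k, K k j * K k j = 1 := by
    have := congrFun (congrFun hK j) j
    rw [Matrix.mul_apply, Matrix.one_apply_eq] at this
    simpa [Matrix.transpose_apply] using this
  have h2 : K i j * K i j ≤ 1 := by
    rw [← h1]
    exact Finset.single_le_sum (f := fun k => K k j * K k j) (fun k _ => mul_self_nonneg _)
      (Finset.mem_univ i)
  exact ⟨by nlinarith, by nlinarith⟩

private theorem det_ne_of_orth {d : ℕ} {K : Matrix (Fin d) (Fin d) ℝ} (h : Kᵀ * K = 1) :
    K.det ≠ 0 := by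
  intro h0
  have h1 := congrArg Matrix.det h
  rw [Matrix.det_mul, h0, mul_zero, Matrix.det_one] at h1
  exact zero_ne_one h1

theorem exists_cartan {d : ℕ} (A : ℕ → Matrix (Fin d) (Fin d) ℝ) (hA : ∀ n, (A n).det ≠ 0) :
    ∃ (φ : ℕ → ℕ) (P Q : ℕ → Matrix (Fin d) (Fin d) ℝ) (t : ℕ → Fin d → ℝ)
      (P₀ Q₀ : Matrix (Fin d) (Fin d) ℝ), StrictMono φ ∧
      Cartan (fun n => A (φ n)) P Q t P₀ Q₀ ∧
      ∀ i, Tendsto (fun n => t n i) atTop atTop ∨
        ∃ c : ℝ, 0 ≤ c ∧ Tendsto (fun n => t n i) atTop (𝓝 c) := by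
  choose K₁ K₂ s hK₁ hK₂ hanti hpos hdec using fun n => svd (A n) (hA n)
  set y : ℕ → Fin d → ℝ := fun n i => s n i / (1 + s n i) with hy
  have hyI : ∀ n, y n ∈ Set.pi Set.univ (fun _ : Fin d => Set.Icc (0 : ℝ) 1) := by
    intro n
    rw [Set.mem_univ_pi]
    intro i
    have h := hpos n i
    refine ⟨by positivity, ?_⟩
    rw [div_le_one (by linarith)]
    linarith
  haveI : FirstCountableTopology (Matrix (Fin d) (Fin d) ℝ) :=
    inferInstanceAs (FirstCountableTopology (Fin d → Fin d → ℝ))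
  have hcomp : IsCompact ({K : Matrix (Fin d) (Fin d) ℝ | Kᵀ * K = 1} ×ˢ
      ({K : Matrix (Fin d) (Fin d) ℝ | Kᵀ * K = 1} ×ˢ
        Set.pi Set.univ (fun _ : Fin d => Set.Icc (0 : ℝ) 1))) :=
    (isCompact_orth d).prod ((isCompact_orth d).prod (isCompact_univ_pi (fun _ => isCompact_Icc)))
  obtain ⟨⟨P₀, Q₀, c⟩, hmem, φ, hφ, hlim⟩ := hcomp.tendsto_subseq
    (x := fun n => (K₁ n, K₂ n, y n)) (fun n => ⟨hK₁ n, hK₂ n, hyI n⟩)
  obtain ⟨hP₀, hQ₀, hcI⟩ := hmem
  have hl1 : Tendsto (fun n => K₁ (φ n)) atTop (𝓝 P₀) :=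
    (continuous_fst.tendsto _).comp hlim
  have hl2 : Tendsto (fun n => K₂ (φ n)) atTop (𝓝 Q₀) :=
    ((continuous_fst.comp continuous_snd).tendsto _).comp hlim
  have hl3 : Tendsto (fun n => y (φ n)) atTop (𝓝 c) :=
    ((continuous_snd.comp continuous_snd).tendsto _).comp hlim
  refine ⟨φ, fun n => K₁ (φ n), fun n => K₂ (φ n), fun n => s (φ n), P₀, Q₀, hφ,
    ⟨fun n => hdec (φ n), fun n i => hpos (φ n) i, fun n => hanti (φ n), hl1, hl2,
      det_ne_of_orth hP₀, det_ne_of_orth hQ₀⟩, fun i => ?_⟩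
  have hyi : Tendsto (fun n => y (φ n) i) atTop (𝓝 (c i)) := (tendsto_pi_nhds.mp hl3) i
  have hci : c i ∈ Set.Icc (0 : ℝ) 1 := Set.mem_univ_pi.mp hcI i
  have hsy : ∀ n, s (φ n) i = y (φ n) i / (1 - y (φ n) i) := by
    intro n
    have h := hpos (φ n) i
    have h1 : (1 + s (φ n) i) ≠ 0 := by linarith
    simp only [hy]
    have h2 : 1 - s (φ n) i / (1 + s (φ n) i) = 1 / (1 + s (φ n) i) := by
      field_simp
      ring
    rw [h2]
    field_simp
  rcases lt_or_eq_of_le hci.2 with hlt | heq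
  · right
    refine ⟨c i / (1 - c i), div_nonneg hci.1 (by linarith), ?_⟩
    have h1 : Tendsto (fun n => y (φ n) i / (1 - y (φ n) i)) atTop (𝓝 (c i / (1 - c i))) :=
      hyi.div (tendsto_const_nhds.sub hyi) (by linarith)
    refine h1.congr (fun n => (hsy n).symm)
  · left
    have h0 : Tendsto (fun n => 1 - y (φ n) i) atTop (𝓝[>] 0) := by
      rw [tendsto_nhdsWithin_iff]
      refine ⟨?_, Filter.Eventually.of_forall (fun n => ?_)⟩
      · have := (tendsto_const_nhds (x := (1 : ℝ))).sub hyi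
        rw [heq, sub_self] at this
        exact this
      · have h := hpos (φ n) i
        have h1 : y (φ n) i < 1 := by
          simp only [hy]
          rw [div_lt_one (by linarith)]
          linarith
        exact sub_pos.mpr h1
    have h1 : Tendsto (fun n => (1 - y (φ n) i)⁻¹) atTop atTop :=
      tendsto_inv_nhdsGT_zero.comp h0
    have h2 : Tendsto (fun n => y (φ n) i * (1 - y (φ n) i)⁻¹) atTop atTop := by
      refine Tendsto.pos_mul_atTop (C := c i) ?_ hyi h1
      rw [heq]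
      exact one_pos
    refine h2.congr (fun n => ?_)
    rw [← div_eq_mul_inv]
    exact (hsy n).symm

end Pool.AF
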