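import Pool.Agent.Helper94.AC.Kill
import Pool.Agent.Helper94.AC.Svd

/-!
# AC-13 TYPEC: all the sequences are of the Lorentz type
# (uses AC-5 `exists_cartan`, AC-11 `excl`, AC-12 `kill_a`)

`cartan_inv`: `A n = P n * diagonal (t n) * Q n` with `det (A n) ≠ 0`, so `P n`, `Q n` are invertible for
all `n`, and `(A n)⁻¹ = ((Q n)⁻¹ * w) * diagonal (i ↦ (t n (rev i))⁻¹) * (w * (P n)⁻¹)`, `w` the
permutation matrix of `Fin.rev`.

`type_c`. Suppose that there is no `K`. Then for every `n : ℕ` there is `f n ∈ G₀` with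
`‖S.base (f n)‖, ‖S.base (f n)⁻¹‖ ≤ C` such that the conclusion fails for `K = n` (the `i, j, k, l`
depend on `n`). Write `M = S.mat b`, `det (M g) = 1` for `g ∈ G₀` (`hF.det`). Apply `exists_cartan` to
`M (f n)`: a subsequence, still called `f n`, with a `Cartan` decomposition and each `t n i → ∞` or
`→ c i ≥ 0`. `det = 1` gives `∏ i, t n i → L = (det P₀ * det Q₀)⁻¹ ≠ 0`, `L > 0`. In all cases
`nm (M g) ≥ 1 / 24` if `det (M g) = 1` and `nm (M g) ≤ 1` (or any such bound): `nm (M g)` and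
`nm (M g⁻¹)` are bounded below by a positive constant for `g ∈ G₀`.

(a) `t n 0 → c 0 < ∞`: then `M (f n)` is bounded, and the conclusion holds with a large `K`:
contradiction for large `n`.

(b) `t n 0 → ∞`. Then `t n 3 → 0`, since `t n 0 * (t n 3) ^ 3 ≤ ∏ t n i` is bounded.
* `t n 1 → ∞`, `t n 2 → ∞`: `excl` with `k = 3`.
* `t n 1 → ∞`, `t n 2 → c 2 > 0`: `kill_a`.
* `t n 1 → ∞`, `t n 2 → 0`: `excl` with `k = 2`.
* `t n 1 → c 1 > 0`, `t n 2 → 0`: `kill_a` for the inverses `(f n)⁻¹` (`cartan_inv`): the values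
  `1 / t 3 → ∞`, `1 / t 2 → ∞`, `1 / t 1 → 1 / c 1`, `1 / t 0 → 0`.
* `t n 1 → 0` (so `t n 2 → 0`): `excl` with `k = 1`.
* (`t n 1` bounded and `t n 2 → ∞` is impossible as `t n 2 ≤ t n 1`.)
* `t n 1 → c 1 > 0`, `t n 2 → c 2 > 0`: all `2 × 2` minors of `M (f n)` are bounded by a constant times
  `t n 0 * t n 1 ≤ const * t n 0` (Cauchy-Binet, or: `M (f n) = t n 0 • (rank one) + (bounded)`, so
  the minors are `≤ const * (1 + t n 0)`); `nm (M (f n)) ≥ const * t n 0` with a positive constant as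
  `(t n 0)⁻¹ • M (f n) → P₀ * single 0 0 1 * Q₀ ≠ 0`, also `nm (M (f n)) ≤ const * t n 0`; and
  `nm (M (f n)⁻¹) ≥ const * (t n 3)⁻¹` by the same argument (`cartan_inv`), where
  `(t n 3)⁻¹ = t n 0 * t n 1 * t n 2 / ∏ t n i ≥ const * t n 0`. So the conclusion holds for all
  large `n` with a constant `K`: contradiction.
-/

open Set Filter Topology Matrix

set_option linter.unusedSectionVars false

namespace Pool.AF

open Pool.SV

/-! ### auxiliary facts -/

private theorem nm_nonneg' {m n : Type*} [Fintype m] [Fintype n] (M : Matrix m n ℝ) : 0 ≤ nm M :=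
  Finset.sum_nonneg fun _ _ => Finset.sum_nonneg fun _ _ => abs_nonneg _

private theorem abs_le_nm' {m n : Type*} [Fintype m] [Fintype n] (M : Matrix m n ℝ) (i : m)
    (j : n) : |M i j| ≤ nm M := by
  unfold nm
  refine le_trans ?_ (Finset.single_le_sum (f := fun i => ∑ j, |M i j|)
    (fun _ _ => Finset.sum_nonneg fun _ _ => abs_nonneg _) (Finset.mem_univ i))
  exact Finset.single_le_sum (f := fun j => |M i j|) (fun _ _ => abs_nonneg _) (Finset.mem_univ j)

private theorem nm_le_of' {m n : Type*} [Fintype m] [Fintype n] {M : Matrix m n ℝ} {B : ℝ}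
    (h : ∀ i j, |M i j| ≤ B) : nm M ≤ Fintype.card m * (Fintype.card n * B) := by
  unfold nm
  calc ∑ i, ∑ j, |M i j| ≤ ∑ _i : m, ∑ _j : n, B :=
        Finset.sum_le_sum fun i _ => Finset.sum_le_sum fun j _ => h i j
    _ = _ := by simp

/-- A convergent sequence of matrices has bounded entries. -/
private theorem bdd_of_tendsto {d : ℕ} {P : ℕ → Matrix (Fin d) (Fin d) ℝ}
    {P₀ : Matrix (Fin d) (Fin d) ℝ} (h : Tendsto P atTop (𝓝 P₀)) :
    ∃ B : ℝ, 0 ≤ B ∧ ∀ n i j, |P n i j| ≤ B := by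
  have h1 : ∀ i j, ∃ B : ℝ, ∀ n, |P n i j| ≤ B := by
    intro i j
    have h2 : Tendsto (fun n => |P n i j|) atTop (𝓝 |P₀ i j|) :=
      ((continuous_abs.comp (continuous_id.matrix_elem i j)).tendsto P₀).comp h
    obtain ⟨B, hB⟩ := h2.bddAbove_range
    exact ⟨B, fun n => hB ⟨n, rfl⟩⟩
  choose B hB using h1
  refine ⟨∑ i, ∑ j, |B i j|, Finset.sum_nonneg fun _ _ => Finset.sum_nonneg fun _ _ =>
    abs_nonneg _, fun n i j => ?_⟩
  refine (hB i j n).trans ((le_abs_self _).trans ?_)
  exact abs_le_nm' (Matrix.of B) i j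

private theorem bdd_seq {u : ℕ → ℝ} {c : ℝ} (h : Tendsto u atTop (𝓝 c)) :
    ∃ B : ℝ, 0 ≤ B ∧ ∀ n, |u n| ≤ B := by
  have h2 : Tendsto (fun n => |u n|) atTop (𝓝 |c|) := (continuous_abs.tendsto c).comp h
  obtain ⟨B, hB⟩ := h2.bddAbove_range
  exact ⟨|B|, abs_nonneg _, fun n => (hB ⟨n, rfl⟩).trans (le_abs_self _)⟩

/-- the permutation matrix of `Fin.rev` -/
private def ww (d : ℕ) : Matrix (Fin d) (Fin d) ℝ := Matrix.of fun i j => if j = Fin.rev i then 1 else 0

private theorem ww_mul {d : ℕ} (A : Matrix (Fin d) (Fin d) ℝ) (i j : Fin d) :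
    (ww d * A) i j = A (Fin.rev i) j := by
  rw [Matrix.mul_apply, Finset.sum_eq_single (Fin.rev i)]
  · simp [ww]
  · intro k _ hk
    simp [ww, hk]
  · intro h
    exact absurd (Finset.mem_univ _) h

private theorem ww_sq (d : ℕ) : ww d * ww d = 1 := by
  ext i j
  rw [ww_mul]
  by_cases h : i = j
  · subst h
    simp [ww]
  · rw [Matrix.one_apply_ne h]
    simp only [ww, Matrix.of_apply, Fin.rev_rev]
    rw [if_neg (fun h' => h h'.symm)]

private theorem ww_diag {d : ℕ} (s : Fin d → ℝ) :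
    ww d * Matrix.diagonal (fun i => s (Fin.rev i)) * ww d = Matrix.diagonal s := by
  ext i j
  rw [Matrix.mul_apply, Finset.sum_eq_single (Fin.rev i)]
  · rw [ww_mul, Matrix.diagonal_apply_eq]
    by_cases h : i = j
    · subst h
      simp [ww]
    · rw [Matrix.diagonal_apply_ne _ h]
      simp only [ww, Matrix.of_apply, Fin.rev_rev]
      rw [if_neg (fun h' => h h'.symm), mul_zero]
  · intro k _ hk
    rw [ww_mul, Matrix.diagonal_apply_ne _ (Ne.symm hk), zero_mul]
  · intro h
    exact absurd (Finset.mem_univ _) h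

private theorem ww_det (d : ℕ) : (ww d).det ≠ 0 := by
  intro h
  have h1 := congrArg Matrix.det (ww_sq d)
  rw [Matrix.det_mul, h, Matrix.det_one] at h1
  norm_num at h1

private theorem tendsto_inv_mat {d : ℕ} {P : ℕ → Matrix (Fin d) (Fin d) ℝ}
    {P₀ : Matrix (Fin d) (Fin d) ℝ} (h : Tendsto P atTop (𝓝 P₀)) (h0 : P₀.det ≠ 0) :
    Tendsto (fun n => (P n)⁻¹) atTop (𝓝 P₀⁻¹) := by
  simp only [Matrix.inv_def, Ring.inverse_eq_inv']
  have h1 : Tendsto (fun n => (P n).det) atTop (𝓝 P₀.det) :=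
    (continuous_id.matrix_det.tendsto P₀).comp h
  have h2 : Tendsto (fun n => (P n).adjugate) atTop (𝓝 P₀.adjugate) :=
    (continuous_id.matrix_adjugate.tendsto P₀).comp h
  exact (h1.inv₀ h0).smul h2

theorem cartan_inv {d : ℕ} (A P Q : ℕ → Matrix (Fin d) (Fin d) ℝ) (t : ℕ → Fin d → ℝ)
    (P₀ Q₀ : Matrix (Fin d) (Fin d) ℝ) (hC : Cartan A P Q t P₀ Q₀) (hA : ∀ n, (A n).det ≠ 0) :
    ∃ (P' Q' : ℕ → Matrix (Fin d) (Fin d) ℝ) (P₀' Q₀' : Matrix (Fin d) (Fin d) ℝ),
      Cartan (fun n => (A n)⁻¹) P' Q' (fun n i => (t n (Fin.rev i))⁻¹) P₀' Q₀' := by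
  refine ⟨fun n => (Q n)⁻¹ * ww d, fun n => ww d * (P n)⁻¹, Q₀⁻¹ * ww d, ww d * P₀⁻¹, ?_⟩
  have hdet : ∀ n, (P n).det ≠ 0 ∧ (Q n).det ≠ 0 := by
    intro n
    have h := hA n
    rw [hC.dec n, Matrix.det_mul, Matrix.det_mul] at h
    exact ⟨fun h0 => h (by rw [h0]; ring), fun h0 => h (by rw [h0]; ring)⟩
  constructor
  · intro n
    obtain ⟨hP, hQ⟩ := hdet n
    have hD : (Matrix.diagonal (t n))⁻¹ = Matrix.diagonal (fun i => (t n i)⁻¹) := by
      apply Matrix.inv_eq_right_inv
      rw [Matrix.diagonal_mul_diagonal]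
      have : (fun i => t n i * (t n i)⁻¹) = fun _ => (1 : ℝ) := by
        funext i
        exact mul_inv_cancel₀ (hC.pos n i).ne'
      rw [this, Matrix.diagonal_one]
    have e : (A n)⁻¹ = (Q n)⁻¹ * Matrix.diagonal (fun i => (t n i)⁻¹) * (P n)⁻¹ := by
      rw [hC.dec n, Matrix.mul_inv_rev, Matrix.mul_inv_rev, hD, Matrix.mul_assoc]
    have e2 := ww_diag (fun i => (t n i)⁻¹)
    change (A n)⁻¹ = _
    rw [e, ← e2]
    simp only [Matrix.mul_assoc]
  · intro n i
    exact inv_pos.2 (hC.pos n _)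
  · intro n i j hij
    have h1 : t n (Fin.rev i) ≤ t n (Fin.rev j) := hC.anti n (Fin.rev_le_rev.2 hij)
    exact inv_anti₀ (hC.pos n _) h1
  · exact (tendsto_inv_mat hC.limQ hC.detQ).mul tendsto_const_nhds
  · exact tendsto_const_nhds.mul (tendsto_inv_mat hC.limP hC.detP)
  · rw [Matrix.det_mul]
    exact mul_ne_zero (Matrix.isUnit_nonsing_inv_det _ (isUnit_iff_ne_zero.2 hC.detQ)).ne_zero
      (ww_det d)
  · rw [Matrix.det_mul]
    exact mul_ne_zero (ww_det d)
      (Matrix.isUnit_nonsing_inv_det _ (isUnit_iff_ne_zero.2 hC.detP)).ne_zero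

/-- lower bound for the size of a matrix of determinant one -/
private theorem nm_det_one {M : Matrix (Fin 4) (Fin 4) ℝ} (h : M.det = 1) : 1 / 24 ≤ nm M := by
  by_contra hcon
  push Not at hcon
  have h0 := nm_nonneg' M
  have h1 : |M.det| ≤ 24 * nm M ^ 4 := by
    rw [Matrix.det_apply]
    refine (Finset.abs_sum_le_sum_abs _ _).trans ?_
    have h2 : ∀ σ ∈ (Finset.univ : Finset (Equiv.Perm (Fin 4))),
        |Equiv.Perm.sign σ • ∏ i, M (σ i) i| ≤ nm M ^ 4 := by
      intro σ _
      have h3 : |Equiv.Perm.sign σ • ∏ i, M (σ i) i| = ∏ i, |M (σ i) i| := by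
        rcases Int.units_eq_one_or (Equiv.Perm.sign σ) with h | h
        · rw [h, one_smul, Finset.abs_prod]
        · rw [h, Units.neg_smul, one_smul, abs_neg, Finset.abs_prod]
      rw [h3]
      calc ∏ i, |M (σ i) i| ≤ ∏ _i : Fin 4, nm M :=
            Finset.prod_le_prod (fun _ _ => abs_nonneg _) (fun i _ => abs_le_nm' M _ _)
        _ = nm M ^ 4 := by simp
    refine (Finset.sum_le_card_nsmul _ _ _ h2).trans ?_
    rw [Finset.card_univ, Fintype.card_perm, Fintype.card_fin]
    simp [Nat.factorial]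
  rw [h, abs_one] at h1
  have h4 : nm M ^ 4 ≤ (1 / 24) ^ 4 := by gcongr
  norm_num at h4
  linarith

private theorem mul_entry {A P Q : Matrix (Fin 4) (Fin 4) ℝ} {t : Fin 4 → ℝ}
    (h : A = P * Matrix.diagonal t * Q) (i j : Fin 4) : A i j = ∑ k, P i k * t k * Q k j := by
  rw [h, Matrix.mul_apply]
  refine Finset.sum_congr rfl fun k _ => ?_
  rw [Matrix.mul_diagonal]

/-- the case of one large value -/
private theorem lor_bound {A P Q : ℕ → Matrix (Fin 4) (Fin 4) ℝ} {t : ℕ → Fin 4 → ℝ}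
    {P₀ Q₀ : Matrix (Fin 4) (Fin 4) ℝ} (hC : Cartan A P Q t P₀ Q₀)
    (h0 : Tendsto (fun n => t n 0) atTop atTop) {c : ℝ}
    (h1 : Tendsto (fun n => t n 1) atTop (𝓝 c)) :
    ∃ δ B : ℝ, 0 < δ ∧ 0 < B ∧ ∀ᶠ n in atTop, δ * t n 0 ≤ nm (A n) ∧ nm (A n) ≤ B * t n 0 ∧
      ∀ i j k l, |A n i j * A n k l - A n i l * A n k j| ≤ B * t n 0 := by
  obtain ⟨BP, hBP0, hBP⟩ := bdd_of_tendsto hC.limP
  obtain ⟨BQ, hBQ0, hBQ⟩ := bdd_of_tendsto hC.limQ
  obtain ⟨Bt, hBt0, hBt⟩ := bdd_seq h1
  -- the remainder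
  let R : ℕ → Fin 4 → Fin 4 → ℝ := fun n i j =>
    ∑ k : Fin 3, P n i k.succ * t n k.succ * Q n k.succ j
  have hR : ∀ n i j, A n i j = t n 0 * (P n i 0 * Q n 0 j) + R n i j := by
    intro n i j
    rw [mul_entry (hC.dec n), Fin.sum_univ_succ]
    simp only [R]
    ring
  let r : ℝ := 3 * (BP * Bt * BQ)
  have hr0 : 0 ≤ r := by positivity
  have hRb : ∀ n i j, |R n i j| ≤ r := by
    intro n i j
    refine (Finset.abs_sum_le_sum_abs _ _).trans ?_
    have : ∀ k ∈ (Finset.univ : Finset (Fin 3)), |P n i k.succ * t n k.succ * Q n k.succ j| ≤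
        BP * Bt * BQ := by
      intro k _
      rw [abs_mul, abs_mul]
      have h2 : |t n k.succ| ≤ Bt := by
        rw [abs_of_pos (hC.pos n _)]
        refine (hC.anti n (?_ : (1 : Fin 4) ≤ k.succ)).trans ((le_abs_self _).trans (hBt n))
        rw [Fin.le_def]
        simp
      exact mul_le_mul (mul_le_mul (hBP n _ _) h2 (abs_nonneg _) hBP0) (hBQ n _ _)
        (abs_nonneg _) (by positivity)
    refine (Finset.sum_le_card_nsmul _ _ _ this).trans ?_
    simp [r]
  -- the entry which is large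
  obtain ⟨i₀, hi₀⟩ : ∃ i, P₀ i 0 ≠ 0 := by
    by_contra hcon
    push Not at hcon
    exact hC.detP (Matrix.det_eq_zero_of_column_eq_zero 0 hcon)
  obtain ⟨j₀, hj₀⟩ : ∃ j, Q₀ 0 j ≠ 0 := by
    by_contra hcon
    push Not at hcon
    exact hC.detQ (Matrix.det_eq_zero_of_row_eq_zero 0 hcon)
  have hP1 : Tendsto (fun n => P n i₀ 0) atTop (𝓝 (P₀ i₀ 0)) :=
    ((continuous_id.matrix_elem i₀ 0).tendsto P₀).comp hC.limP
  have hQ1 : Tendsto (fun n => Q n 0 j₀) atTop (𝓝 (Q₀ 0 j₀)) :=
    ((continuous_id.matrix_elem 0 j₀).tendsto Q₀).comp hC.limQ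
  have hPQ : Tendsto (fun n => |P n i₀ 0 * Q n 0 j₀|) atTop (𝓝 |P₀ i₀ 0 * Q₀ 0 j₀|) :=
    (continuous_abs.tendsto _).comp (hP1.mul hQ1)
  set e : ℝ := |P₀ i₀ 0 * Q₀ 0 j₀| with he
  have he0 : 0 < e := abs_pos.2 (mul_ne_zero hi₀ hj₀)
  have hev1 : ∀ᶠ n in atTop, e / 2 < |P n i₀ 0 * Q n 0 j₀| :=
    hPQ.eventually (lt_mem_nhds (by linarith))
  have hev2 : ∀ᶠ n in atTop, max 1 (4 * r / e) ≤ t n 0 := h0.eventually_ge_atTop _
  let m : ℝ := BP * BQ
  have hm0 : 0 ≤ m := by positivity
  have hPQb : ∀ n i j, |P n i 0 * Q n 0 j| ≤ m := by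
    intro n i j
    rw [abs_mul]
    exact mul_le_mul (hBP n _ _) (hBQ n _ _) (abs_nonneg _) hBP0
  refine ⟨e / 4, 16 * (m + r) + (4 * (m * r) + 2 * (r * r)) + 1, by positivity, by positivity, ?_⟩
  filter_upwards [hev1, hev2] with n hn1 hn2
  have hT1 : 1 ≤ t n 0 := (le_max_left _ _).trans hn2
  have hT2 : 4 * r / e ≤ t n 0 := (le_max_right _ _).trans hn2
  have hT0 : 0 ≤ t n 0 := by linarith
  have hAb : ∀ i j, |A n i j| ≤ (m + r) * t n 0 := by
    intro i j
    rw [hR]
    refine (abs_add_le _ _).trans ?_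
    rw [abs_mul, abs_of_nonneg hT0]
    have h3 : t n 0 * |P n i 0 * Q n 0 j| ≤ t n 0 * m := mul_le_mul_of_nonneg_left (hPQb n i j) hT0
    have h4 : |R n i j| ≤ r * t n 0 := (hRb n i j).trans (by nlinarith)
    linarith
  have hmr : 0 ≤ m * r := mul_nonneg hm0 hr0
  have hrr : 0 ≤ r * r := mul_nonneg hr0 hr0
  refine ⟨?_, ?_, ?_⟩
  · refine le_trans ?_ (abs_le_nm' (A n) i₀ j₀)
    rw [hR]
    have h3 : t n 0 * (e / 2) ≤ |t n 0 * (P n i₀ 0 * Q n 0 j₀)| := by
      rw [abs_mul, abs_of_nonneg hT0]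
      exact mul_le_mul_of_nonneg_left hn1.le hT0
    have h4 := hRb n i₀ j₀
    have h5 : |t n 0 * (P n i₀ 0 * Q n 0 j₀)| - |R n i₀ j₀| ≤
        |t n 0 * (P n i₀ 0 * Q n 0 j₀) + R n i₀ j₀| := by
      have := abs_sub_abs_le_abs_sub (t n 0 * (P n i₀ 0 * Q n 0 j₀)) (-(R n i₀ j₀))
      rwa [abs_neg, sub_neg_eq_add] at this
    have h6 : r ≤ t n 0 * (e / 4) := by
      rw [div_le_iff₀ he0] at hT2
      linarith
    linarith
  · refine (nm_le_of' hAb).trans ?_
    simp only [Fintype.card_fin, Nat.cast_ofNat]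
    have h3 : 0 ≤ ((4 * (m * r) + 2 * (r * r)) + 1) * t n 0 := by positivity
    nlinarith
  · intro i j k l
    have h3 : A n i j * A n k l - A n i l * A n k j =
        t n 0 * ((P n i 0 * Q n 0 j) * R n k l + (P n k 0 * Q n 0 l) * R n i j
          - (P n i 0 * Q n 0 l) * R n k j - (P n k 0 * Q n 0 j) * R n i l)
          + (R n i j * R n k l - R n i l * R n k j) := by
      rw [hR n i j, hR n k l, hR n i l, hR n k j]
      ring
    have hp : ∀ a b a' b', |(P n a 0 * Q n 0 b) * R n a' b'| ≤ m * r := by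
      intro a b a' b'
      rw [abs_mul]
      exact mul_le_mul (hPQb n a b) (hRb n _ _) (abs_nonneg _) hm0
    have hq : ∀ a b a' b', |R n a b * R n a' b'| ≤ r * r := by
      intro a b a' b'
      rw [abs_mul]
      exact mul_le_mul (hRb n a b) (hRb n _ _) (abs_nonneg _) hr0
    have h4 : |(P n i 0 * Q n 0 j) * R n k l + (P n k 0 * Q n 0 l) * R n i j
          - (P n i 0 * Q n 0 l) * R n k j - (P n k 0 * Q n 0 j) * R n i l| ≤ 4 * (m * r) := by
      have a1 := abs_le.1 (hp i j k l)
      have a2 := abs_le.1 (hp k l i j)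
      have a3 := abs_le.1 (hp i l k j)
      have a4 := abs_le.1 (hp k j i l)
      rw [abs_le]
      constructor <;> linarith [a1.1, a1.2, a2.1, a2.2, a3.1, a3.2, a4.1, a4.2]
    have h5 : |R n i j * R n k l - R n i l * R n k j| ≤ 2 * (r * r) := by
      have a1 := abs_le.1 (hq i j k l)
      have a2 := abs_le.1 (hq i l k j)
      rw [abs_le]
      constructor <;> linarith [a1.1, a1.2, a2.1, a2.2]
    rw [h3]
    refine (abs_add_le _ _).trans ?_
    rw [abs_mul, abs_of_nonneg hT0]
    have h6 := mul_le_mul_of_nonneg_left h4 hT0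
    have h7 : 2 * (r * r) ≤ 2 * (r * r) * t n 0 := by nlinarith
    have h8 : 0 ≤ (16 * (m + r) + 1) * t n 0 := by positivity
    nlinarith

section

variable {E : Type*} [NormedAddCommGroup E] [NormedSpace ℝ E] [FiniteDimensional ℝ E]
  {D : Geo E}

/-- the conclusion of `type_c` -/
private def GoodC (K : ℝ) (M M' : Matrix (Fin 4) (Fin 4) ℝ) : Prop :=
  (∀ i j k l, |M i j * M k l - M i l * M k j| ≤ K * nm M) ∧ nm M ≤ K * nm M'

private theorem GoodC.mono {K K' : ℝ} {M M' : Matrix (Fin 4) (Fin 4) ℝ} (h : GoodC K M M')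
    (hK : K ≤ K') : GoodC K' M M' :=
  ⟨fun i j k l => (h.1 i j k l).trans (mul_le_mul_of_nonneg_right hK (nm_nonneg' M)),
    h.2.trans (mul_le_mul_of_nonneg_right hK (nm_nonneg' M'))⟩

theorem type_c (S : InvSub D) (G₀ : Subgroup D.Γ) (b : Module.Basis (Fin 4) ℝ S.U)
    (hF : S.Full b G₀) (C : ℝ) :
    ∃ K : ℝ, ∀ f ∈ G₀, ‖S.base f‖ ≤ C → ‖S.base f⁻¹‖ ≤ C →
      (∀ i j k l, |S.mat b f i j * S.mat b f k l - S.mat b f i l * S.mat b f k j| ≤
        K * nm (S.mat b f)) ∧ nm (S.mat b f) ≤ K * nm (S.mat b f⁻¹) := by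
  by_contra hcon
  push Not at hcon
  have hcon' : ∀ n : ℕ, ∃ f ∈ G₀, ‖S.base f‖ ≤ C ∧ ‖S.base f⁻¹‖ ≤ C ∧
      ¬ GoodC (n : ℝ) (S.mat b f) (S.mat b f⁻¹) := by
    intro n
    obtain ⟨f, hf, h1, h2, h3⟩ := hcon n
    refine ⟨f, hf, h1, h2, fun hG => ?_⟩
    exact absurd hG.2 (not_le.2 (h3 hG.1))
  choose f hf hb hb' hbad using hcon'
  have hdet : ∀ n, (S.mat b (f n)).det ≠ 0 := fun n => by
    rw [hF.det _ (hf n)]; exact one_ne_zero
  obtain ⟨φ, P, Q, t, P₀, Q₀, hφ, hC, hlim⟩ := exists_cartan (fun n => S.mat b (f n)) hdet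
  let γ : ℕ → D.Γ := fun n => f (φ n)
  have hγ : ∀ n, γ n ∈ G₀ := fun n => hf (φ n)
  have hC' : Cartan (fun n => S.mat b (γ n)) P Q t P₀ Q₀ := hC
  have hbγ : ∀ n, ‖S.base (γ n)‖ ≤ C := fun n => hb (φ n)
  have hbγ' : ∀ n, ‖S.base (γ n)⁻¹‖ ≤ C := fun n => hb' (φ n)
  have hd1 : ∀ n, (S.mat b (γ n)).det = 1 := fun n => hF.det _ (hγ n)
  have hd2 : ∀ n, (S.mat b (γ n)⁻¹).det = 1 := fun n => hF.det _ (G₀.inv_mem (hγ n))
  have hinv : ∀ n, S.mat b (γ n)⁻¹ = (S.mat b (γ n))⁻¹ := by
    intro n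
    symm
    apply Matrix.inv_eq_right_inv
    rw [← map_mul, mul_inv_cancel, map_one]
  -- it is enough to find one constant
  have key : ∀ K : ℝ, (∀ᶠ n in atTop, GoodC K (S.mat b (γ n)) (S.mat b (γ n)⁻¹)) → False := by
    intro K hK
    have h1 : ∀ᶠ n : ℕ in atTop, K ≤ (φ n : ℝ) := by
      have : Tendsto (fun n : ℕ => ((φ n : ℕ) : ℝ)) atTop atTop :=
        tendsto_natCast_atTop_atTop.comp hφ.tendsto_atTop
      exact this.eventually_ge_atTop K
    obtain ⟨n, hn, hn'⟩ := (hK.and h1).exists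
    exact hbad (φ n) (hn.mono hn')
  -- the product of the values
  have hprod : ∀ n, (t n 0 * t n 1 * t n 2 * t n 3) * ((P n).det * (Q n).det) = 1 := by
    intro n
    have h1 := hd1 n
    have h2 : S.mat b (γ n) = P n * Matrix.diagonal (t n) * Q n := hC'.dec n
    rw [h2, Matrix.det_mul, Matrix.det_mul, Matrix.det_diagonal, Fin.prod_univ_four] at h1
    linarith
  have hPQl : Tendsto (fun n => (P n).det * (Q n).det) atTop (𝓝 (P₀.det * Q₀.det)) :=
    ((continuous_id.matrix_det.tendsto P₀).comp hC'.limP).mul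
      ((continuous_id.matrix_det.tendsto Q₀).comp hC'.limQ)
  have hPQ0 : P₀.det * Q₀.det ≠ 0 := mul_ne_zero hC'.detP hC'.detQ
  have hprodl : Tendsto (fun n => t n 0 * t n 1 * t n 2 * t n 3) atTop
      (𝓝 (P₀.det * Q₀.det)⁻¹) := by
    have h1 := hPQl.inv₀ hPQ0
    refine h1.congr fun n => ?_
    have h2 := hprod n
    exact (eq_inv_of_mul_eq_one_left h2).symm
  set L : ℝ := (P₀.det * Q₀.det)⁻¹ with hL
  have hL0 : L ≠ 0 := inv_ne_zero hPQ0
  have hpos := hC'.pos
  have hLpos : 0 < L := by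
    refine lt_of_le_of_ne ?_ (Ne.symm hL0)
    refine ge_of_tendsto' hprodl fun n => ?_
    have := hpos n 0; have := hpos n 1; have := hpos n 2; have := hpos n 3
    positivity
  have a01 : ∀ n, t n 1 ≤ t n 0 := fun n => hC'.anti n (by decide)
  have a12 : ∀ n, t n 2 ≤ t n 1 := fun n => hC'.anti n (by decide)
  have a23 : ∀ n, t n 3 ≤ t n 2 := fun n => hC'.anti n (by decide)
  rcases hlim 0 with h0 | ⟨c0, -, h0⟩
  · -- `t 0` is unbounded
    -- `t 3` tends to zero
    have h3 : Tendsto (fun n => t n 3) atTop (𝓝 0) := by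
      have hcube : Tendsto (fun n => t n 3 ^ 3) atTop (𝓝 0) := by
        have hq : Tendsto (fun n => (t n 0 * t n 1 * t n 2 * t n 3) * (t n 0)⁻¹) atTop (𝓝 0) := by
          have := hprodl.mul h0.inv_tendsto_atTop
          simpa using this
        refine squeeze_zero (fun n => ?_) (fun n => ?_) hq
        · have := hpos n 3; positivity
        · have p0 := hpos n 0; have p1 := hpos n 1; have p2 := hpos n 2; have p3 := hpos n 3
          have e : (t n 0 * t n 1 * t n 2 * t n 3) * (t n 0)⁻¹ = t n 1 * t n 2 * t n 3 := by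
            field_simp
          rw [e]
          have h31 : t n 3 ≤ t n 1 := (a23 n).trans (a12 n)
          calc t n 3 ^ 3 = t n 3 * t n 3 * t n 3 := by ring
            _ ≤ t n 1 * t n 2 * t n 3 := by
              apply mul_le_mul_of_nonneg_right _ p3.le
              exact mul_le_mul h31 (a23 n) p3.le p1.le
      rcases hlim 3 with h3 | ⟨c3, hc3, h3⟩
      · exfalso
        have h4 : Tendsto (fun n => t n 3 ^ 3) atTop atTop :=
          (tendsto_pow_atTop (by norm_num)).comp h3
        exact not_tendsto_nhds_of_tendsto_atTop h4 0 hcube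
      · have h4 : Tendsto (fun n => t n 3 ^ 3) atTop (𝓝 (c3 ^ 3)) := h3.pow 3
        have h5 : c3 ^ 3 = 0 := tendsto_nhds_unique h4 hcube
        have h6 : c3 = 0 := by
          rcases eq_or_ne c3 0 with h | h
          · exact h
          · exact absurd h5 (pow_ne_zero 3 h)
        rwa [h6] at h3
    rcases hlim 1 with h1 | ⟨c1, hc1, h1⟩
    · rcases hlim 2 with h2 | ⟨c2, hc2, h2⟩
      · refine excl S G₀ b hF γ hγ C hbγ hbγ' P Q t P₀ Q₀ hC' 3 (by norm_num) (by norm_num) ?_ ?_
        · intro i hi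
          fin_cases i
          · exact h0
          · exact h1
          · exact h2
          · exact absurd hi (by norm_num)
        · intro i hi
          fin_cases i
          · exact absurd hi (by norm_num)
          · exact absurd hi (by norm_num)
          · exact absurd hi (by norm_num)
          · exact h3
      · rcases hc2.eq_or_lt with hc | hc
        · refine excl S G₀ b hF γ hγ C hbγ hbγ' P Q t P₀ Q₀ hC' 2 (by norm_num) (by norm_num) ?_ ?_
          · intro i hi
            fin_cases i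
            · exact h0
            · exact h1
            · exact absurd hi (by norm_num)
            · exact absurd hi (by norm_num)
          · intro i hi
            fin_cases i
            · exact absurd hi (by norm_num)
            · exact absurd hi (by norm_num)
            · rw [hc]; exact h2
            · exact h3
        · exact kill_a S G₀ b hF γ hγ C hbγ hbγ' P Q t P₀ Q₀ hC' h0 h1 c2 hc h2 h3
    · rcases hlim 2 with h2 | ⟨c2, hc2, h2⟩
      · -- impossible
        have h4 : Tendsto (fun n => t n 1) atTop atTop := tendsto_atTop_mono a12 h2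
        exact not_tendsto_nhds_of_tendsto_atTop h4 c1 h1
      · have hc21 : c2 ≤ c1 := le_of_tendsto_of_tendsto' h2 h1 a12
        rcases hc1.eq_or_lt with hc | hc
        · have hc2' : c2 = 0 := le_antisymm (by rw [hc]; exact hc21) hc2
          refine excl S G₀ b hF γ hγ C hbγ hbγ' P Q t P₀ Q₀ hC' 1 (by norm_num) (by norm_num) ?_ ?_
          · intro i hi
            fin_cases i
            · exact h0
            · exact absurd hi (by norm_num)
            · exact absurd hi (by norm_num)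
            · exact absurd hi (by norm_num)
          · intro i hi
            fin_cases i
            · exact absurd hi (by norm_num)
            · rw [hc]; exact h1
            · rw [← hc2']; exact h2
            · exact h3
        · -- the inverses
          obtain ⟨P', Q', P₀', Q₀', hCi⟩ := cartan_inv (fun n => S.mat b (γ n)) P Q t P₀ Q₀ hC'
            (fun n => by rw [hd1 n]; exact one_ne_zero)
          have hCi' : Cartan (fun n => S.mat b (γ n)⁻¹) P' Q' (fun n i => (t n (Fin.rev i))⁻¹)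
              P₀' Q₀' := by
            have e : (fun n => S.mat b (γ n)⁻¹) = fun n => (S.mat b (γ n))⁻¹ := funext hinv
            rw [e]
            exact hCi
          have r0 : Fin.rev (0 : Fin 4) = 3 := rfl
          have r1 : Fin.rev (1 : Fin 4) = 2 := rfl
          have r2 : Fin.rev (2 : Fin 4) = 1 := rfl
          have r3 : Fin.rev (3 : Fin 4) = 0 := rfl
          have i3 : Tendsto (fun n => (t n 3)⁻¹) atTop atTop := by
            refine Tendsto.comp tendsto_inv_nhdsGT_zero (tendsto_nhdsWithin_iff.2 ⟨h3, ?_⟩)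
            exact Eventually.of_forall fun n => hpos n 3
          rcases hc2.eq_or_lt with hc' | hc'
          · have i2 : Tendsto (fun n => (t n 2)⁻¹) atTop atTop := by
              rw [← hc'] at h2
              refine Tendsto.comp tendsto_inv_nhdsGT_zero (tendsto_nhdsWithin_iff.2 ⟨h2, ?_⟩)
              exact Eventually.of_forall fun n => hpos n 2
            refine kill_a S G₀ b hF (fun n => (γ n)⁻¹) (fun n => G₀.inv_mem (hγ n)) C hbγ'
              (fun n => ?_) P' Q' (fun n i => (t n (Fin.rev i))⁻¹) P₀' Q₀' hCi' ?_ ?_ c1⁻¹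
              (inv_pos.2 hc) ?_ ?_
            · rw [inv_inv]; exact hbγ n
            · simp only [r0]; exact i3
            · simp only [r1]; exact i2
            · simp only [r2]; exact h1.inv₀ hc.ne'
            · simp only [r3]; exact h0.inv_tendsto_atTop
          · -- the Lorentz type
            obtain ⟨δ, B, hδ, hB, hev⟩ := lor_bound hC' h0 h1
            obtain ⟨δ', B', hδ', hB', hev'⟩ := lor_bound (c := c2⁻¹) hCi'
              (by simp only [r0]; exact i3) (by simp only [r1]; exact h2.inv₀ hc'.ne')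
            simp only [r0] at hev'
            -- `(t 3)⁻¹ ≥ const * t 0`
            have hq : ∀ᶠ n in atTop, (c1 * c2 / (2 * L)) * t n 0 ≤ (t n 3)⁻¹ := by
              have hq1 : Tendsto (fun n => t n 1 * t n 2 * (t n 0 * t n 1 * t n 2 * t n 3)⁻¹) atTop
                  (𝓝 (c1 * c2 * L⁻¹)) := (h1.mul h2).mul (hprodl.inv₀ hL0)
              have hq2 : c1 * c2 / (2 * L) < c1 * c2 * L⁻¹ := by
                have : 0 < c1 * c2 * L⁻¹ := by positivity
                have e : c1 * c2 / (2 * L) = (c1 * c2 * L⁻¹) / 2 := by field_simp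
                rw [e]; linarith
              filter_upwards [hq1.eventually (lt_mem_nhds hq2)] with n hn
              have p0 := hpos n 0; have p1 := hpos n 1; have p2 := hpos n 2; have p3 := hpos n 3
              have e : t n 1 * t n 2 * (t n 0 * t n 1 * t n 2 * t n 3)⁻¹ * t n 0 = (t n 3)⁻¹ := by
                field_simp
              rw [← e]
              exact mul_le_mul_of_nonneg_right hn.le p0.le
            set κ : ℝ := c1 * c2 / (2 * L) with hκ
            have hκ0 : 0 < κ := by positivity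
            apply key (B / δ + B / (δ' * κ))
            filter_upwards [hev, hev', hq] with n hn hn' hnq
            obtain ⟨g1, g2, g3⟩ := hn
            have g4 := hn'.1
            have p0 := hpos n 0
            constructor
            · intro i j k l
              refine (g3 i j k l).trans ?_
              have h5 : B * t n 0 ≤ B / δ * nm (S.mat b (γ n)) := by
                rw [div_mul_eq_mul_div, le_div_iff₀ hδ]
                have := mul_le_mul_of_nonneg_left g1 hB.le
                linarith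
              have h6 : 0 ≤ B / (δ' * κ) * nm (S.mat b (γ n)) :=
                mul_nonneg (by positivity) (nm_nonneg' _)
              linarith
            · refine g2.trans ?_
              have h5 : B * t n 0 ≤ B / (δ' * κ) * nm (S.mat b (γ n)⁻¹) := by
                rw [div_mul_eq_mul_div, le_div_iff₀ (by positivity)]
                have h7 : δ' * (κ * t n 0) ≤ nm (S.mat b (γ n)⁻¹) :=
                  (mul_le_mul_of_nonneg_left hnq hδ'.le).trans g4
                have := mul_le_mul_of_nonneg_left h7 hB.le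
                linarith
              have h6 : 0 ≤ B / δ * nm (S.mat b (γ n)⁻¹) :=
                mul_nonneg (by positivity) (nm_nonneg' _)
              linarith
  · -- `t 0` is bounded
    obtain ⟨BP, hBP0, hBP⟩ := bdd_of_tendsto hC'.limP
    obtain ⟨BQ, hBQ0, hBQ⟩ := bdd_of_tendsto hC'.limQ
    obtain ⟨Bt, hBt0, hBt⟩ := bdd_seq h0
    set r : ℝ := 4 * (BP * Bt * BQ) with hr
    have hr0 : 0 ≤ r := by positivity
    have hAb : ∀ n i j, |S.mat b (γ n) i j| ≤ r := by
      intro n i j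
      have hdec : S.mat b (γ n) = P n * Matrix.diagonal (t n) * Q n := hC'.dec n
      rw [mul_entry hdec]
      refine (Finset.abs_sum_le_sum_abs _ _).trans ?_
      have : ∀ k ∈ (Finset.univ : Finset (Fin 4)), |P n i k * t n k * Q n k j| ≤
          BP * Bt * BQ := by
        intro k _
        rw [abs_mul, abs_mul]
        have h2 : |t n k| ≤ Bt := by
          rw [abs_of_pos (hpos n _)]
          exact (hC'.anti n (Fin.zero_le k)).trans ((le_abs_self _).trans (hBt n))
        exact mul_le_mul (mul_le_mul (hBP n _ _) h2 (abs_nonneg _) hBP0) (hBQ n _ _)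
          (abs_nonneg _) (by positivity)
      refine (Finset.sum_le_card_nsmul _ _ _ this).trans ?_
      simp [hr]
    apply key (24 * (2 * (r * r) + 16 * r))
    refine Eventually.of_forall fun n => ?_
    have n1 := nm_det_one (hd1 n)
    have n2 := nm_det_one (hd2 n)
    constructor
    · intro i j k l
      have h1 : |S.mat b (γ n) i j * S.mat b (γ n) k l| ≤ r * r := by
        rw [abs_mul]
        exact mul_le_mul (hAb n _ _) (hAb n _ _) (abs_nonneg _) hr0
      have h2 : |S.mat b (γ n) i l * S.mat b (γ n) k j| ≤ r * r := by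
        rw [abs_mul]
        exact mul_le_mul (hAb n _ _) (hAb n _ _) (abs_nonneg _) hr0
      have h3 : |S.mat b (γ n) i j * S.mat b (γ n) k l - S.mat b (γ n) i l * S.mat b (γ n) k j| ≤
          2 * (r * r) := by
        have a1 := abs_le.1 h1
        have a2 := abs_le.1 h2
        rw [abs_le]
        constructor <;> linarith [a1.1, a1.2, a2.1, a2.2]
      refine h3.trans ?_
      have h4 : 0 ≤ 24 * (2 * (r * r) + 16 * r) := by positivity
      have h5 := mul_le_mul_of_nonneg_left n1 h4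
      have h6 : 0 ≤ 16 * r := by positivity
      linarith
    · have h1 : nm (S.mat b (γ n)) ≤ 16 * r := by
        refine (nm_le_of' (hAb n)).trans ?_
        simp only [Fintype.card_fin, Nat.cast_ofNat]
        linarith
      refine h1.trans ?_
      have h4 : 0 ≤ 24 * (2 * (r * r) + 16 * r) := by positivity
      have h5 := mul_le_mul_of_nonneg_left n2 h4
      have h6 : 0 ≤ 2 * (r * r) := by positivity
      linarith

end

end Pool.AF
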