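import Pool.Agent.Helper94.AC.FullEx
import Pool.Agent.Helper94.AC.TypeC
import Pool.Agent.Helper94.AC.LorF
import Pool.Agent.Helper94.AC.Lor4

/-!
# AC-28 MAINF: the irreducible case (uses the stubs AC-13, 24, 26, 27)

`Full.four`: from `InvSub.Full` and `type_c` to the abstract structure, for the group `G₀` itself. All
fields are restrictions (`IsPoly` for the restricted map: a polynomial function on `G₀` is
`F f = eval p` for a polynomial `p`, which extends it to `D.Γ`); `fin`: a subgroup `H` of finite index of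
`G₀` gives `H.map G₀.subtype ≤ G₀` with `relIndex ≠ 0`; `det`: `InvSub.Full.det`.

`lor_geo`: apply `lor_four` to get `Y`. For `u, v ∈ S.U` with coordinate vectors `[u], [v]` in the basis `b`
put `B u v = [u] ⬝ᵥ (Yᵀ * diagonal ![-1, 1, 1, 1] * Y) *ᵥ [v]`; it is invariant under `G₀`, since
`[S.lrep g u] = S.mat b g *ᵥ [u]`. Let `c i` be the vector with the coordinates `Y⁻¹ *ᵥ e i`: a basis, and
`B (c i) (c j) = (diagonal ![-1, 1, 1, 1]) i j`. The span of the `S.lrep g`, `g ∈ G₀`, is `⊤` by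
`InvSub.Full.span` (a proper subspace is in the kernel of a nonzero functional). So `form_up4`
applies.
-/

open Set Filter Topology Matrix

set_option linter.unusedSectionVars false

namespace Pool.AF

open Pool.SV

section

variable {E : Type*} [NormedAddCommGroup E] [NormedSpace ℝ E] [FiniteDimensional ℝ E]
  {D : Geo E}

theorem InvSub.Full.four (S : InvSub D) (G₀ : Subgroup D.Γ) (b : Module.Basis (Fin 4) ℝ S.U)
    (hF : S.Full b G₀) : Four (S.base.comp G₀.subtype) ((S.mat b).comp G₀.subtype) := by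
  have ap : ∀ g : G₀, ((S.mat b).comp G₀.subtype) g = S.mat b (g : D.Γ) := fun g => by
    rw [MonoidHom.comp_apply, Subgroup.coe_subtype]
  have ab : ∀ g : G₀, (S.base.comp G₀.subtype) g = S.base (g : D.Γ) := fun g => by
    rw [MonoidHom.comp_apply, Subgroup.coe_subtype]
  have ext : ∀ F : G₀ → ℝ, IsPoly (fun g => ((S.mat b).comp G₀.subtype) g) F →
      ∃ F' : D.Γ → ℝ, IsPoly (fun g => S.mat b g) F' ∧ ∀ g : G₀, F' (g : D.Γ) = F g := by
    rintro F ⟨p, hp⟩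
    refine ⟨fun g => MvPolynomial.eval (fun ij : Fin 4 × Fin 4 => S.mat b g ij.1 ij.2) p,
      ⟨p, fun g => ?_⟩, fun g => ?_⟩
    · exact Eq.refl _
    · rw [hp g]
      beta_reduce
      simp only [ap]
  constructor
  case det =>
    intro g
    rw [ap g]
    exact hF.det g g.2
  case dens =>
    intro F hFp hne g ε hε
    obtain ⟨F', hF', hFe⟩ := ext F hFp
    obtain ⟨f, hf⟩ := hne
    obtain ⟨h, hh, h1, h2⟩ := hF.loc.dens F' hF' ⟨f, f.2, by rw [hFe]; exact hf⟩ g g.2 ε hε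
    refine ⟨⟨h, hh⟩, ?_, ?_⟩
    · rw [ab, ab]
      exact h1
    · rw [← hFe]
      exact h2
  case prod =>
    intro F H hFp hHp hne hne'
    obtain ⟨F', hF', hFe⟩ := ext F hFp
    obtain ⟨H', hH', hHe⟩ := ext H hHp
    obtain ⟨f, hf⟩ := hne
    obtain ⟨f', hf'⟩ := hne'
    obtain ⟨h, hh, h1, h2⟩ := hF.loc.prod F' H' hF' hH' ⟨f, f.2, by rw [hFe]; exact hf⟩
      ⟨f', f'.2, by rw [hHe]; exact hf'⟩
    exact ⟨⟨h, hh⟩, by rw [← hFe]; exact h1, by rw [← hHe]; exact h2⟩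
  case fin =>
    intro H hH F hFp h0 f
    obtain ⟨F', hF', hFe⟩ := ext F hFp
    rw [← hFe]
    refine hF.loc.fin (H.map G₀.subtype) ?_ ?_ F' hF' ?_ f f.2
    · rintro _ ⟨x, _, rfl⟩
      exact x.2
    · have h1 : (H.map G₀.subtype).subgroupOf G₀ = H :=
        Subgroup.comap_map_eq_self_of_injective (Subgroup.subtype_injective G₀) H
      rw [Subgroup.relIndex, h1]
      exact hH.index_ne_zero
    · rintro _ ⟨x, hx, rfl⟩
      rw [Subgroup.coe_subtype, hFe x]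
      exact h0 x hx
  case span =>
    intro ℓ hℓ
    refine hF.span ℓ (fun g hg => ?_)
    have h1 := hℓ ⟨g, hg⟩
    rw [ap] at h1
    exact h1
  case near =>
    intro C ε hε
    obtain ⟨c, hc, h1, h2⟩ := hF.near C ε hε
    refine ⟨⟨c, hc⟩, ?_, ?_⟩
    · rw [ab]
      exact h1
    · rw [ap]
      exact h2
  case min =>
    intro C
    obtain ⟨K, hK⟩ := type_c S G₀ b hF C
    refine ⟨K, fun f h1 h2 => ?_⟩
    rw [ab] at h1 h2
    rw [ap, ap]
    rw [Subgroup.coe_inv] at h2 ⊢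
    exact hK f f.2 h1 h2

/-- The diagonal matrix of the form. -/
private theorem diag_entry :
    ((Matrix.diagonal ![-1, 1, 1, 1] : Matrix (Fin 4) (Fin 4) ℝ) 0 0 = -1)
    ∧ (∀ i, i ≠ 0 → (Matrix.diagonal ![-1, 1, 1, 1] : Matrix (Fin 4) (Fin 4) ℝ) i i = 1)
    ∧ (∀ i j, i ≠ j → (Matrix.diagonal ![-1, 1, 1, 1] : Matrix (Fin 4) (Fin 4) ℝ) i j = 0) := by
  refine ⟨by simp, ?_, fun i j hij => Matrix.diagonal_apply_ne _ hij⟩
  intro i hi
  rw [Matrix.diagonal_apply_eq]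
  fin_cases i
  · exact absurd rfl hi
  · rfl
  · rfl
  · rfl

private theorem dot_conj (M A : Matrix (Fin 4) (Fin 4) ℝ) (x y : Fin 4 → ℝ) :
    (M *ᵥ x) ⬝ᵥ (A *ᵥ (M *ᵥ y)) = x ⬝ᵥ ((Mᵀ * A * M) *ᵥ y) := by
  rw [← Matrix.mulVec_mulVec, ← Matrix.mulVec_mulVec, Matrix.dotProduct_mulVec x Mᵀ,
    Matrix.vecMul_transpose]

/-- Multiplication by an invertible matrix. -/
private noncomputable def yEquiv (Y : Matrix (Fin 4) (Fin 4) ℝ) (hY : IsUnit Y.det) :
    (Fin 4 → ℝ) ≃ₗ[ℝ] (Fin 4 → ℝ) :=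
  LinearEquiv.ofLinearMap (Matrix.mulVecLin Y) (Matrix.mulVecLin Y⁻¹)
    (by
      rw [← Matrix.mulVecLin_mul, Matrix.mul_nonsing_inv _ hY, Matrix.mulVecLin_one])
    (by
      rw [← Matrix.mulVecLin_mul, Matrix.nonsing_inv_mul _ hY, Matrix.mulVecLin_one])

private theorem yEquiv_apply (Y : Matrix (Fin 4) (Fin 4) ℝ) (hY : IsUnit Y.det)
    (v : Fin 4 → ℝ) : yEquiv Y hY v = Y *ᵥ v := rfl

/-- The bilinear form of a matrix in a basis. -/
private noncomputable def bform {V : Type*} [AddCommGroup V] [Module ℝ V]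
    (b : Module.Basis (Fin 4) ℝ V) (A : Matrix (Fin 4) (Fin 4) ℝ) : V →ₗ[ℝ] V →ₗ[ℝ] ℝ :=
  LinearMap.mk₂ ℝ (fun u v => b.equivFun u ⬝ᵥ (A *ᵥ b.equivFun v))
    (fun u u' v => by rw [map_add, add_dotProduct])
    (fun c u v => by rw [map_smul, smul_dotProduct])
    (fun u v v' => by rw [map_add, Matrix.mulVec_add, dotProduct_add])
    (fun c u v => by rw [map_smul, Matrix.mulVec_smul, dotProduct_smul])

private theorem bform_apply {V : Type*} [AddCommGroup V] [Module ℝ V]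
    (b : Module.Basis (Fin 4) ℝ V) (A : Matrix (Fin 4) (Fin 4) ℝ) (u v : V) :
    bform b A u v = b.equivFun u ⬝ᵥ (A *ᵥ b.equivFun v) := rfl

/-- A basis in which the form `Yᵀ * D * Y` is `D`. -/
private theorem exists_basis {V : Type*} [AddCommGroup V] [Module ℝ V]
    (b : Module.Basis (Fin 4) ℝ V) (Y Q : Matrix (Fin 4) (Fin 4) ℝ) (hY : IsUnit Y.det) :
    ∃ c : Module.Basis (Fin 4) ℝ V, ∀ i j, bform b (Yᵀ * Q * Y) (c i) (c j) = Q i j := by
  refine ⟨Module.Basis.ofEquivFun (b.equivFun.trans (yEquiv Y hY)), fun i j => ?_⟩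
  have h1 : ∀ i, Y *ᵥ (b.equivFun
      (Module.Basis.ofEquivFun (b.equivFun.trans (yEquiv Y hY)) i)) = Pi.single i 1 := by
    intro i
    rw [Module.Basis.coe_ofEquivFun, ← yEquiv_apply Y hY, LinearEquiv.trans_symm]
    beta_reduce
    rw [LinearEquiv.trans_apply, LinearEquiv.apply_symm_apply, LinearEquiv.apply_symm_apply]
  rw [bform_apply, ← dot_conj, h1, h1, Matrix.mulVec_single_one, single_one_dotProduct]
  rfl

private theorem span_full (S : InvSub D) (G₀ : Subgroup D.Γ) (b : Module.Basis (Fin 4) ℝ S.U)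
    (hF : S.Full b G₀) :
    Submodule.span ℝ ((fun δ => S.lrep δ) '' (G₀ : Set D.Γ)) = ⊤ := by
  by_contra hne
  obtain ⟨φ, hφ, h0⟩ := exists_dual_zero _ hne
  apply hφ
  have h1 : φ ∘ₗ ((LinearMap.toMatrix b b).symm :
      Matrix (Fin 4) (Fin 4) ℝ →ₗ[ℝ] (S.U →ₗ[ℝ] S.U)) = 0 := by
    refine hF.span _ (fun g hg => ?_)
    rw [LinearMap.comp_apply, LinearEquiv.coe_coe, S.mat_apply, LinearEquiv.symm_apply_apply]
    exact h0 _ (Submodule.subset_span ⟨g, hg, rfl⟩)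
  refine LinearMap.ext (fun f => ?_)
  have h2 := LinearMap.congr_fun h1 (LinearMap.toMatrix b b f)
  rw [LinearMap.comp_apply, LinearEquiv.coe_coe, LinearEquiv.symm_apply_apply] at h2
  exact h2

theorem lor_geo (S : InvSub D) (h4 : Module.finrank ℝ S.U = 4) (hirr : S.Irr)
    (hnd : ¬ DiscMod (hatHom D.Γ) S.e) (hM : modSub D S.U = ⊥) (hab : ¬ HasAbNormal D.Γ) :
    ∃ (B : S.U →ₗ[ℝ] S.U →ₗ[ℝ] ℝ) (c : Module.Basis (Fin 4) ℝ S.U),
      (∀ i j, i ≠ j → B (c i) (c j) = 0) ∧ B (c 0) (c 0) = -1 ∧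
      (∀ i, i ≠ 0 → B (c i) (c i) = 1) ∧
      ∀ g, ∃ k : ℝ, 0 < k ∧ ∀ x y, B (S.lrep g x) (S.lrep g y) = k * B x y := by
  let b : Module.Basis (Fin 4) ℝ S.U := Module.finBasisOfFinrankEq ℝ S.U h4
  obtain ⟨G₀, hN, hF⟩ := exists_full S h4 hirr hnd hM hab b
  obtain ⟨Y, hY, hYinv⟩ := lor_four (InvSub.Full.four S G₀ b hF)
  obtain ⟨c, hc⟩ := exists_basis b Y (Matrix.diagonal ![-1, 1, 1, 1]) hY.isUnit
  obtain ⟨d0, d1, d2⟩ := diag_entry
  have e0 : ∀ i j, i ≠ j → bform b (Yᵀ * Matrix.diagonal ![-1, 1, 1, 1] * Y) (c i) (c j) = 0 := by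
    intro i j hij
    rw [hc]
    exact d2 i j hij
  have e1 : bform b (Yᵀ * Matrix.diagonal ![-1, 1, 1, 1] * Y) (c 0) (c 0) = -1 := by
    rw [hc]
    exact d0
  have e2 : ∀ i, i ≠ 0 →
      bform b (Yᵀ * Matrix.diagonal ![-1, 1, 1, 1] * Y) (c i) (c i) = 1 := by
    intro i hi
    rw [hc]
    exact d1 i hi
  refine ⟨bform b (Yᵀ * Matrix.diagonal ![-1, 1, 1, 1] * Y), c, e0, e1, e2, ?_⟩
  refine form_up4 S.lrep G₀ (span_full S G₀ b hF) _ c e0 e1 e2 ?_
  intro g hg x y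
  have h1 : ∀ u, b.equivFun (S.lrep g u) = S.mat b g *ᵥ b.equivFun u := by
    intro u
    rw [S.mat_apply]
    exact (LinearMap.toMatrix_mulVec_repr b b (S.lrep g) u).symm
  have h2 := hYinv ⟨g, hg⟩
  rw [MonoidHom.comp_apply, Subgroup.coe_subtype] at h2
  rw [bform_apply, bform_apply, h1, h1, dot_conj, h2]

end

end Pool.AF
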