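import Pool.Agent.Helper94.AC.Defs

/-!
# AC-35 NEARG: elements near the identity, general versions

`near_gen`: the proof of `near_big` in `Pool/Agent/Helper94/AB/Near.lean` with `φ` instead of
`hatHom D.Γ` (the lemmas there are private: copy them). The map `g ↦ e * φ g * e` is multiplicative by
`hinv`, and `g ↦ (1 - e) * φ g * (1 - e)` also. If the statement fails for `C` then the sets
`T δ = {c | c ≠ 1, ‖(1 - e) φ c (1 - e) - (1 - e)‖ < δ, ‖e φ c e‖ ≤ C, ‖e φ c⁻¹ e‖ ≤ C}` are nonempty for all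
`δ > 0`, hence infinite (`hb`), so they contain `a ≠ b` with `e φ a e` close to `e φ b e`, and `a⁻¹ b` is
as in the hypothesis `hsmall` of `aus1` (`Pool/Agent/SV/Aus1.lean`).

`base_block_a`, `base_block_b`: here `S.U ≤ T.U`. The image of `S.e` is `S.U × 0` and the image of `T.e` is
`T.U × 0` (`InvSub.range`, `InvSub.idem`), so `T.e * S.e = S.e`, `(1 - T.e) * S.e = 0`; `S.e` and `hatHom g` map
`T.U × 0` to itself, that is `(1 - T.e) * hat g * T.e = 0` (`InvSub.inv'`) and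
`(1 - T.e) * S.e * T.e = 0`. Expand `S.base g = S.e + (1 - S.e) * hat g * (1 - S.e)`.

`line_disc`: otherwise `near_comm` gives `c ∈ commutator D.Γ`, `c ≠ 1`, arbitrarily near the identity, and
`near_big` (with `C = 1`) gives `1 < ‖S.rep c‖` or `1 < ‖S.rep c⁻¹‖`. But an element of the commutator
subgroup acts trivially on a line (`one_dim` in `Pool/Agent/Helper94/AM/Tools.lean` for `S.lrep`), and
the identity has norm `1` (or `≤ 1`).

`exists_invSub`: as `exists_linInv` in `Pool/Agent/Helper94/AB/Main.lean`.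
-/

open Set Filter Topology

set_option linter.unusedSectionVars false

namespace Pool.AF

open Pool.SV

namespace NearGAux

private theorem pair_close {α R : Type*} [NormedAddCommGroup R] [NormedSpace ℝ R]
    [FiniteDimensional ℝ R] (S : Set α) (hS : S.Infinite) (f : α → R) (C : ℝ)
    (hf : ∀ a ∈ S, ‖f a‖ ≤ C) (δ : ℝ) (hδ : 0 < δ) :
    ∃ a ∈ S, ∃ b ∈ S, a ≠ b ∧ ‖f a - f b‖ < δ := by
  classical
  have hprop : ProperSpace R := FiniteDimensional.proper ℝ R
  have hc : TotallyBounded (Metric.closedBall (0 : R) C) :=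
    (isCompact_closedBall (0 : R) C).totallyBounded
  obtain ⟨t, ht, hcov⟩ := Metric.totallyBounded_iff.1 hc (δ / 2) (by linarith)
  have h1 : ∀ a ∈ S, ∃ y ∈ t, f a ∈ Metric.ball y (δ / 2) := by
    intro a ha
    have h2 : f a ∈ Metric.closedBall (0 : R) C := by
      rw [Metric.mem_closedBall, dist_zero_right]
      exact hf a ha
    have h3 := hcov h2
    simpa using h3
  choose! y hy1 hy2 using h1
  obtain ⟨a, ha, b, hb, hab, h⟩ := hS.exists_ne_map_eq_of_mapsTo
    (f := y) (t := t) (fun a ha => hy1 a ha) ht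
  refine ⟨a, ha, b, hb, hab, ?_⟩
  have h4 := hy2 a ha
  have h5 := hy2 b hb
  rw [Metric.mem_ball, dist_eq_norm] at h4 h5
  rw [← h] at h5
  have h6 : f a - f b = (f a - y a) - (f b - y a) := by abel
  rw [h6]
  exact (norm_sub_le _ _).trans_lt (by linarith)

section

variable {Γ R : Type*} [Group Γ] [NormedRing R]

private theorem inv_mul_map (τ : Γ →* R) (g : Γ) : τ g⁻¹ * τ g = 1 := by
  rw [← map_mul, inv_mul_cancel, map_one]

private theorem mul_inv_map (τ : Γ →* R) (g : Γ) : τ g * τ g⁻¹ = 1 := by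
  rw [← map_mul, mul_inv_cancel, map_one]

private theorem diff_eq (τ : Γ →* R) (g h : Γ) : τ (g⁻¹ * h) - 1 = τ g⁻¹ * (τ h - τ g) := by
  rw [mul_sub, inv_mul_map, map_mul]

private theorem inv_bound (τ : Γ →* R) (g : Γ) (h : ‖τ g - 1‖ ≤ 1 / 2) :
    ‖τ g⁻¹‖ ≤ 2 * ‖(1 : R)‖ := by
  have h1 : τ g⁻¹ = 1 - τ g⁻¹ * (τ g - 1) := by
    rw [mul_sub, inv_mul_map, mul_one]
    abel
  have h2 : ‖τ g⁻¹‖ ≤ ‖(1 : R)‖ + ‖τ g⁻¹‖ * (1 / 2) := by
    conv_lhs => rw [h1]
    refine (norm_sub_le _ _).trans ?_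
    have h3 : ‖τ g⁻¹ * (τ g - 1)‖ ≤ ‖τ g⁻¹‖ * (1 / 2) :=
      (norm_mul_le _ _).trans (mul_le_mul_of_nonneg_left h (norm_nonneg _))
    linarith
  linarith

end

section

variable {Γ R : Type*} [Group Γ] [NormedRing R] [NormedAlgebra ℝ R]

/-- The block on the quotient, as an endomorphism of the whole space. -/
private noncomputable def bs (φ : Γ →* R) (e : R) (he : e * e = e)
    (hinv : ∀ g, (1 - e) * φ g * e = 0) : Γ →* R where
  toFun g := e + (1 - e) * φ g * (1 - e)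
  map_one' := by
    have h : (1 - e) * (1 - e) = 1 - e := by
      simp only [mul_sub, sub_mul, mul_one, one_mul, he]
      simp
    rw [map_one, mul_one, h]
    simp
  map_mul' g h := by
    rw [Pool.SV.Step.comp_mul φ e he hinv]
    have q1 : e * (1 - e) = 0 := by rw [mul_sub, he, mul_one, sub_self]
    have q2 : (1 - e) * e = 0 := by rw [sub_mul, he, one_mul, sub_self]
    symm
    calc (e + (1 - e) * φ g * (1 - e)) * (e + (1 - e) * φ h * (1 - e))
        = e * e + (e * (1 - e)) * φ h * (1 - e)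
          + (1 - e) * φ g * ((1 - e) * e)
          + ((1 - e) * φ g * (1 - e)) * ((1 - e) * φ h * (1 - e)) := by
          noncomm_ring
      _ = _ := by rw [he, q1, q2]; simp

private theorem bs_apply (φ : Γ →* R) (e : R) (he : e * e = e)
    (hinv : ∀ g, (1 - e) * φ g * e = 0) (g : Γ) :
    bs φ e he hinv g = e + (1 - e) * φ g * (1 - e) := rfl

end

end NearGAux

open NearGAux

theorem near_gen {Γ R : Type*} [Group Γ] [NormedRing R] [NormedAlgebra ℝ R] [FiniteDimensional ℝ R]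
    (φ : Γ →* R) (hinj : Function.Injective φ)
    (hdisc : ∀ C : ℝ, {g : Γ | ‖φ g‖ ≤ C ∧ ‖φ g⁻¹‖ ≤ C}.Finite)
    (e : R) (he : e * e = e) (hinv : ∀ g, (1 - e) * φ g * e = 0)
    (hb : ∀ g, (1 - e) * φ g * (1 - e) = 1 - e → g = 1) (hab : ¬ HasAbNormal Γ) (C : ℝ) :
    ∃ ε : ℝ, 0 < ε ∧ ∀ c : Γ, c ≠ 1 → ‖(1 - e) * φ c * (1 - e) - (1 - e)‖ < ε →
      C < ‖e * φ c * e‖ ∨ C < ‖e * φ c⁻¹ * e‖ := by
  classical
  by_contra hcon
  apply hab
  have hcon' : ∀ ε : ℝ, 0 < ε → ∃ c : Γ, c ≠ 1 ∧ ‖(1 - e) * φ c * (1 - e) - (1 - e)‖ < ε ∧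
      ‖e * φ c * e‖ ≤ C ∧ ‖e * φ c⁻¹ * e‖ ≤ C := by
    intro ε hε
    by_contra h1
    apply hcon
    refine ⟨ε, hε, fun c hc1 hc2 => ?_⟩
    by_contra h2
    rw [not_or, not_lt, not_lt] at h2
    exact h1 ⟨c, hc1, hc2, h2.1, h2.2⟩
  set σ : Γ →* R := bs φ e he hinv with hσ
  have hσa : ∀ g, σ g = e + (1 - e) * φ g * (1 - e) := fun g => rfl
  have hσ1 : ∀ g, σ g - 1 = (1 - e) * φ g * (1 - e) - (1 - e) := by
    intro g
    rw [hσa]
    abel
  have hσinj : ∀ g, σ g = 1 → g = 1 := by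
    intro g hg
    apply hb
    have h1 := hσ1 g
    rw [hg, sub_self] at h1
    exact (sub_eq_zero.1 h1.symm)
  have hB1 : ∀ g : Γ, φ g * e = e * φ g * e := by
    intro g
    have h1 := hinv g
    rw [sub_mul, sub_mul, one_mul, sub_eq_zero] at h1
    exact h1
  have hBm : ∀ g h : Γ, e * φ (g * h) * e = (e * φ g * e) * (e * φ h * e) := by
    intro g h
    rw [map_mul]
    calc e * (φ g * φ h) * e
        = e * φ g * (φ h * e) := by noncomm_ring
      _ = e * φ g * (e * φ h * e) := by rw [hB1 h]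
      _ = e * φ g * ((e * e) * φ h * e) := by rw [he]
      _ = _ := by noncomm_ring
  -- the sets of near elements are infinite
  let T : ℝ → Set Γ := fun δ => {c | c ≠ 1 ∧ ‖σ c - 1‖ < δ ∧
    ‖e * φ c * e‖ ≤ C ∧ ‖e * φ c⁻¹ * e‖ ≤ C}
  have hTne : ∀ δ, 0 < δ → (T δ).Nonempty := by
    intro δ hδ
    obtain ⟨c, h1, h2, h3, h4⟩ := hcon' δ hδ
    refine ⟨c, h1, ?_, h3, h4⟩
    rw [hσ1]
    exact h2
  have hTinf : ∀ δ, 0 < δ → (T δ).Infinite := by
    intro δ hδ hfin
    obtain ⟨m, hm, hmin⟩ := hfin.toFinset.exists_min_image (fun c => ‖σ c - 1‖)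
      (by
        obtain ⟨c, hc⟩ := hTne δ hδ
        exact ⟨c, hfin.mem_toFinset.2 hc⟩)
    rw [hfin.mem_toFinset] at hm
    have h1 : 0 < ‖σ m - 1‖ := by
      rw [norm_pos_iff, sub_ne_zero]
      intro h2
      exact hm.1 (hσinj m h2)
    obtain ⟨c, hc⟩ := hTne _ h1
    have h3 : c ∈ T δ := ⟨hc.1, hc.2.1.trans hm.2.1, hc.2.2⟩
    have h4 := hmin c (hfin.mem_toFinset.2 h3)
    exact absurd hc.2.1 (not_lt.2 h4)
  have hK0 : 0 ≤ C := by
    obtain ⟨c, hc⟩ := hTne 1 one_pos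
    exact (norm_nonneg _).trans hc.2.2.1
  refine aus1 φ hinj hdisc e he hinv ?_
  intro ε hε
  set M : ℝ := ‖(1 : R)‖ with hMd
  have hM0 : 0 ≤ M := norm_nonneg _
  set δ : ℝ := min (1 / 2) (ε / (8 * M + 1)) with hδ
  have hδ0 : 0 < δ := by positivity
  have hδ1 : δ ≤ 1 / 2 := min_le_left _ _
  have hδ2 : (8 * M + 1) * δ ≤ ε := by
    have h1 : δ ≤ ε / (8 * M + 1) := min_le_right _ _
    rw [le_div_iff₀ (by positivity)] at h1
    linarith
  obtain ⟨a, ha, b, hb', hne, hab'⟩ := pair_close (T δ) (hTinf δ hδ0)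
    (fun c => e * φ c * e) C (fun c hc => hc.2.2.1) (ε / (2 * (C + 1)))
    (by positivity)
  refine ⟨a⁻¹ * b, ?_, ?_⟩
  · intro h1
    exact hne (inv_mul_eq_one.1 h1)
  · have e1 : e * φ (a⁻¹ * b) * e - e =
        (e * φ a⁻¹ * e) * (e * φ b * e - e * φ a * e) := by
      rw [mul_sub, ← hBm, ← hBm, inv_mul_cancel, map_one, mul_one, he]
    have e2 : σ (a⁻¹ * b) - 1 = σ a⁻¹ * (σ b - σ a) := diff_eq _ _ _
    have e3 : e * φ (a⁻¹ * b) * e + (1 - e) * φ (a⁻¹ * b) * (1 - e) - 1 =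
        (e * φ (a⁻¹ * b) * e - e) + (σ (a⁻¹ * b) - 1) := by
      rw [hσa]
      abel
    rw [e3]
    have n1 : ‖e * φ (a⁻¹ * b) * e - e‖ ≤ ε / 2 := by
      rw [e1]
      have h1 : ‖e * φ b * e - e * φ a * e‖ ≤ ε / (2 * (C + 1)) := by
        rw [norm_sub_rev]
        exact hab'.le
      refine (norm_mul_le _ _).trans ?_
      refine (mul_le_mul ha.2.2.2 h1 (norm_nonneg _) hK0).trans ?_
      have h2 : C * (ε / (2 * (C + 1))) = (C / (C + 1)) * (ε / 2) := by
        field_simp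
      rw [h2]
      have h3 : C / (C + 1) ≤ 1 := by
        rw [div_le_one (by linarith)]
        linarith
      have h4 : (C / (C + 1)) * (ε / 2) ≤ 1 * (ε / 2) :=
        mul_le_mul_of_nonneg_right h3 (by linarith)
      linarith
    have n2 : ‖σ (a⁻¹ * b) - 1‖ < ε / 2 := by
      rw [e2]
      have h1 : ‖σ a⁻¹‖ ≤ 2 * M := inv_bound σ a (ha.2.1.le.trans hδ1)
      have h2 : ‖σ b - σ a‖ ≤ 2 * δ := by
        have h3 : σ b - σ a = (σ b - 1) - (σ a - 1) := by abel
        rw [h3]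
        refine (norm_sub_le _ _).trans ?_
        have h4 := ha.2.1
        have h5 := hb'.2.1
        linarith
      refine (norm_mul_le _ _).trans_lt ?_
      refine (mul_le_mul h1 h2 (norm_nonneg _) (by positivity)).trans_lt ?_
      nlinarith
    exact (norm_add_le _ _).trans_lt (by linarith)

section

variable {E : Type*} [NormedAddCommGroup E] [NormedSpace ℝ E] [FiniteDimensional ℝ E]
  {D : Geo E}

private theorem expand_aux {R : Type*} [Ring R] (q s h t : R) :
    q * (s + (1 - s) * h * (1 - s)) * t = q * s * t + (q * h * t - q * s * (h * t))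
      - (q * h * s * t - q * s * (h * s * t)) := by
  simp only [mul_add, add_mul, mul_sub, sub_mul, mul_one, one_mul, mul_assoc]
  abel

private theorem te_se (S T : InvSub D) (hle : S.U ≤ T.U) : T.e * S.e = S.e := by
  apply ContinuousLinearMap.ext
  intro z
  have h1 : S.e (S.e z) = S.e z := by
    have h2 : (S.e * S.e) z = S.e z := by rw [S.idem]
    exact h2
  obtain ⟨h3, h4⟩ := (S.range _).1 h1
  have h5 : T.e (S.e z) = S.e z := (T.range _).2 ⟨h3, hle h4⟩
  exact h5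

private theorem ct_se (S T : InvSub D) (hle : S.U ≤ T.U) : (1 - T.e) * S.e = 0 := by
  rw [sub_mul, one_mul, te_se S T hle, sub_self]

private theorem ct_se' (S T : InvSub D) (hle : S.U ≤ T.U) (x : Alg E) :
    (1 - T.e) * S.e * x = 0 := by
  rw [ct_se S T hle, zero_mul]

theorem base_block_a (S T : InvSub D) (hle : S.U ≤ T.U) (g : D.Γ) :
    (1 - T.e) * S.base g * T.e = 0 := by
  have h2 : (1 - T.e) * hatHom D.Γ g * S.e = 0 := by
    have h3 : (1 - T.e) * hatHom D.Γ g * S.e = (1 - T.e) * hatHom D.Γ g * (T.e * S.e) := by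
      rw [te_se S T hle]
    rw [h3, ← mul_assoc, T.inv', zero_mul]
  rw [S.base_apply, expand_aux, ct_se' S T hle, ct_se' S T hle, ct_se' S T hle, T.inv', h2]
  simp

theorem base_block_b (S T : InvSub D) (hle : S.U ≤ T.U) (g : D.Γ) :
    (1 - T.e) * S.base g * (1 - T.e) = (1 - T.e) * hatHom D.Γ g * (1 - T.e) := by
  have h2 : (1 - T.e) * hatHom D.Γ g * S.e = 0 := by
    have h3 : (1 - T.e) * hatHom D.Γ g * S.e = (1 - T.e) * hatHom D.Γ g * (T.e * S.e) := by
      rw [te_se S T hle]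
    rw [h3, ← mul_assoc, T.inv', zero_mul]
  rw [S.base_apply, expand_aux, ct_se' S T hle, ct_se' S T hle, ct_se' S T hle, h2]
  simp

theorem line_disc (S : InvSub D) (h1 : Module.finrank ℝ S.U = 1) (hM : modSub D S.U = ⊥)
    (hab : ¬ HasAbNormal D.Γ) : DiscMod (hatHom D.Γ) S.e := by
  by_contra hnd
  obtain ⟨ε, hε, h2⟩ := near_big S hM hab 1
  obtain ⟨c, hc, hc1, hc2⟩ := near_comm S hnd hM hab ε hε
  have key : ∀ d ∈ commutator D.Γ, ‖S.rep d‖ ≤ 1 := by
    intro d hd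
    have h3 := one_dim h1 S.lrep d hd
    refine ContinuousLinearMap.opNorm_le_bound _ zero_le_one ?_
    intro u
    have h4 : S.rep d u = u := by
      rw [← S.lrep_apply, h3]
      rfl
    rw [h4, one_mul]
  rcases h2 c hc1 hc2 with h3 | h3
  · exact absurd (key c hc) (not_le.2 h3)
  · exact absurd (key c⁻¹ ((commutator D.Γ).inv_mem hc)) (not_le.2 h3)

theorem exists_invSub (D : Geo E) (U : Submodule ℝ E) (hU : U ≤ linSub D)
    (hinv : ∀ g ∈ D.Γ, ∀ u ∈ U, g.linear u ∈ U) : ∃ S : InvSub D, S.U = U := by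
  obtain ⟨e, he⟩ := exists_adapted (E := E) 1 (fun i => if i = 0 then ⊥ else U) (by
    intro i hi
    have h0 : i = 0 := by omega
    subst h0
    simp)
  refine ⟨{ U := U, e := e 1, le := hU, inv := hinv, idem := he.idem 1 le_rfl,
            range := fun v => ?_ }, rfl⟩
  have := he.range 1 le_rfl v
  simpa using this

end

end Pool.AF
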