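import Pool.Agent.Helper94.AC.NearG
import Pool.Agent.Helper94.AC.LineG

/-!
# AC-37 NEARW: elements near the identity are large on the quotient by the line
# (uses the stubs of AC-35)

Proof. Let `U₁ ≤ E` be the line of the vector `b 0` (an element of `S.U`); it is invariant by `hline` (the
first column of `S.mat b g` is a multiple of the first basis vector). Let `L : InvSub D` with `L.U = U₁`
(`exists_invSub`). `modSub D L.U ≤ modSub D S.U = ⊥` (`modSub D S.U = ⊥` by `hM`), so `DiscMod (hatHom D.Γ) L.e`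
by `line_disc`. Apply `near_gen` to `φ = L.base` (injective by `base_inj`; `hdisc` from
`DiscMod (hatHom D.Γ) L.e`, since `(1 - L.e) * hat g * (1 - L.e) = L.base g - L.e`) and `e = S.e`: `hinv` is
`base_block_a`; `hb`: by `base_block_b`, `(1 - S.e) * L.base g * (1 - S.e) = (1 - S.e) * hat g * (1 - S.e)
= S.base g - S.e`, so `S.base g = 1` and `g = 1` by `base_inj S hM`. In the same way
`(1 - e) * φ c * (1 - e) - (1 - e) = S.base c - 1`. So for every `C'` there is `ε > 0` such that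
`c ≠ 1`, `‖S.base c - 1‖ < ε` imply `C' < ‖S.e * L.base c * S.e‖` or the same for `c⁻¹`.

It remains to see that there is `K` with `‖S.e * L.base c * S.e‖ ≤ K * (1 + nm (blk (S.mat b c)))` for all
`c : D.Γ` (then take `C' = K * (1 + C)`). Let `z : E × ℝ`, `S.e z = (v, 0)` with `v ∈ S.U`. Then
`L.base c (v, 0) = L.e (v, 0) + (1 - L.e) (hat c ((1 - L.e) (v, 0)))`, `(1 - L.e) (v, 0) = (v', 0)`,
`v' = ∑ x i • b i ∈ S.U`, and `hat c (v', 0) = (S.rep c v', 0) = ∑ y i • (b i, 0)` with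
`y = S.mat b c *ᵥ x`; `(1 - L.e)` kills `(b 0, 0)`, and `(y 1, y 2, y 3) = blk (S.mat b c) *ᵥ (x 1, x 2, x 3)`
(`hline`). So the norm of `(1 - L.e) (hat c (v', 0))` is `≤ K' * nm (blk (S.mat b c)) * ‖z‖`.
-/

open Set Filter Topology Matrix

set_option linter.unusedSectionVars false

namespace Pool.AF

open Pool.SV

section

variable {E : Type*} [NormedAddCommGroup E] [NormedSpace ℝ E] [FiniteDimensional ℝ E]
  {D : Geo E}

private theorem hat_vec (D : Geo E) (g : D.Γ) (w : E) :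
    hatHom D.Γ g (w, 0) = (g.1.linear w, 0) := by
  have h : hatHom D.Γ g (w, 0) = (g.1.linear w + (0 : ℝ) • g.1 0, (0 : ℝ)) := rfl
  rw [h, zero_smul, add_zero]

private theorem repr_rep (S : InvSub D) (b : Module.Basis (Fin 4) ℝ S.U) (c : D.Γ) (u : S.U)
    (i : Fin 4) : b.repr (S.rep c u) i = ∑ j, S.mat b c i j * b.repr u j := by
  have h := LinearMap.toMatrix_mulVec_repr b b (S.lrep c) u
  have h2 := congrFun h i
  rw [S.lrep_apply] at h2
  rw [← h2, S.mat_apply]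
  rfl

private theorem upper_bound (S L : InvSub D) (b : Module.Basis (Fin 4) ℝ S.U)
    (hline : ∀ g : D.Γ, ∀ i : Fin 3, S.mat b g i.succ 0 = 0) (hle : L.U ≤ S.U)
    (hb0 : ((b 0 : S.U) : E) ∈ L.U) :
    ∃ K : ℝ, 0 ≤ K ∧ ∀ c : D.Γ, ‖S.e * L.base c * S.e‖ ≤ K * (1 + nm (blk (S.mat b c))) := by
  classical
  -- the vector `(1 - L.e) (S.e z)` lies in `S.U × 0`
  have hSe : ∀ z : E × ℝ, (S.e z).2 = 0 ∧ (S.e z).1 ∈ S.U := by
    intro z
    apply (S.range _).1
    have h2 : (S.e * S.e) z = S.e z := by rw [S.idem]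
    exact h2
  have hLe : ∀ z : E × ℝ, (L.e z).2 = 0 ∧ (L.e z).1 ∈ L.U := by
    intro z
    apply (L.range _).1
    have h2 : (L.e * L.e) z = L.e z := by rw [L.idem]
    exact h2
  set Q : Alg E := (1 - L.e) * S.e with hQ
  have hQz : ∀ z : E × ℝ, Q z = S.e z - L.e (S.e z) := fun z => rfl
  have hQU : ∀ z : E × ℝ, (Q z).2 = 0 ∧ (Q z).1 ∈ S.U := by
    intro z
    rw [hQz]
    refine ⟨?_, ?_⟩
    · rw [Prod.snd_sub, (hSe z).1, (hLe _).1, sub_zero]
    · rw [Prod.fst_sub]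
      exact S.U.sub_mem (hSe z).2 (hle (hLe _).2)
  let q : E × ℝ →ₗ[ℝ] S.U := LinearMap.codRestrict S.U
    ((LinearMap.fst ℝ E ℝ) ∘ₗ (Q : (E × ℝ) →ₗ[ℝ] (E × ℝ))) (fun z => (hQU z).2)
  have hq : ∀ z, Q z = ((q z : E), (0 : ℝ)) := fun z => Prod.ext rfl (hQU z).1
  let y : Fin 4 → (E × ℝ →L[ℝ] ℝ) := fun j =>
    LinearMap.toContinuousLinearMap ((b.coord j) ∘ₗ q)
  have hy : ∀ j z, y j z = b.repr (q z) j := fun j z => rfl
  let w : Fin 4 → E × ℝ := fun i => (1 - L.e) (((b i : S.U) : E), (0 : ℝ))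
  have hw0 : w 0 = 0 := by
    have h1 : L.e (((b 0 : S.U) : E), (0 : ℝ)) = (((b 0 : S.U) : E), (0 : ℝ)) :=
      (L.range _).2 ⟨rfl, hb0⟩
    change (((b 0 : S.U) : E), (0 : ℝ)) - L.e (((b 0 : S.U) : E), (0 : ℝ)) = 0
    rw [h1, sub_self]
  set M : ℝ := ∑ j, ‖y j‖ with hM
  set W : ℝ := ∑ i, ‖w i‖ with hW
  have hM0 : 0 ≤ M := Finset.sum_nonneg (fun _ _ => norm_nonneg _)
  have hW0 : 0 ≤ W := Finset.sum_nonneg (fun _ _ => norm_nonneg _)
  have hyM : ∀ j z, |y j z| ≤ M * ‖z‖ := by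
    intro j z
    have h1 : ‖y j z‖ ≤ ‖y j‖ * ‖z‖ := (y j).le_opNorm z
    have h2 : ‖y j‖ ≤ M := Finset.single_le_sum (f := fun j => ‖y j‖)
      (fun _ _ => norm_nonneg _) (Finset.mem_univ j)
    exact h1.trans (mul_le_mul_of_nonneg_right h2 (norm_nonneg _))
  have hwW : ∀ i, ‖w i‖ ≤ W := fun i => Finset.single_le_sum (f := fun i => ‖w i‖)
      (fun _ _ => norm_nonneg _) (Finset.mem_univ i)
  refine ⟨‖S.e‖ * (‖L.e‖ * ‖S.e‖ + M * W), by positivity, ?_⟩
  intro c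
  have hnm : 0 ≤ nm (blk (S.mat b c)) :=
    Finset.sum_nonneg (fun _ _ => Finset.sum_nonneg (fun _ _ => abs_nonneg _))
  -- the main estimate
  have hmain : ∀ z : E × ℝ, ‖(1 - L.e) (hatHom D.Γ c (Q z))‖ ≤
      M * W * nm (blk (S.mat b c)) * ‖z‖ := by
    intro z
    have h1 : hatHom D.Γ c (Q z) = (((S.rep c (q z) : S.U) : E), (0 : ℝ)) := by
      rw [hq, hat_vec, S.rep_apply]
    have h2 : (((S.rep c (q z) : S.U) : E), (0 : ℝ)) =
        ∑ i, b.repr (S.rep c (q z)) i • (((b i : S.U) : E), (0 : ℝ)) := by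
      conv_lhs => rw [← b.sum_repr (S.rep c (q z))]
      rw [Submodule.coe_sum]
      apply Prod.ext
      · rw [Prod.fst_sum]
        rfl
      · rw [Prod.snd_sum]
        simp
    have h3 : (1 - L.e) (hatHom D.Γ c (Q z)) =
        ∑ i : Fin 3, b.repr (S.rep c (q z)) i.succ • w i.succ := by
      rw [h1, h2, map_sum, Fin.sum_univ_succ]
      have h4 : ∀ i, (1 - L.e) (b.repr (S.rep c (q z)) i • (((b i : S.U) : E), (0 : ℝ))) =
          b.repr (S.rep c (q z)) i • w i := fun i => by rw [map_smul]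
      rw [h4, hw0, smul_zero, zero_add]
      exact Finset.sum_congr rfl (fun i _ => h4 i.succ)
    have h5 : ∀ i : Fin 3, b.repr (S.rep c (q z)) i.succ =
        ∑ j : Fin 3, blk (S.mat b c) i j * y j.succ z := by
      intro i
      rw [repr_rep, Fin.sum_univ_succ, hline, zero_mul, zero_add]
      rfl
    rw [h3]
    refine (norm_sum_le _ _).trans ?_
    have h6 : ∀ i : Fin 3, ‖b.repr (S.rep c (q z)) i.succ • w i.succ‖ ≤
        (∑ j : Fin 3, |blk (S.mat b c) i j|) * (M * ‖z‖) * W := by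
      intro i
      rw [norm_smul, h5]
      refine mul_le_mul ?_ (hwW _) (norm_nonneg _) (by positivity)
      rw [Finset.sum_mul]
      refine (norm_sum_le _ _).trans (Finset.sum_le_sum (fun j _ => ?_))
      rw [norm_mul]
      exact mul_le_mul_of_nonneg_left (hyM _ _) (abs_nonneg _)
    refine (Finset.sum_le_sum (fun i _ => h6 i)).trans ?_
    rw [← Finset.sum_mul, ← Finset.sum_mul]
    have h7 : (∑ i : Fin 3, ∑ j : Fin 3, |blk (S.mat b c) i j|) = nm (blk (S.mat b c)) := rfl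
    rw [h7]
    apply le_of_eq
    ring
  refine ContinuousLinearMap.opNorm_le_bound _ (by positivity) ?_
  intro z
  have e1 : (S.e * L.base c * S.e) z = S.e (L.e (S.e z) + (1 - L.e) (hatHom D.Γ c (Q z))) := by
    rw [L.base_apply]
    rfl
  rw [e1]
  refine (S.e.le_opNorm _).trans ?_
  have e2 : ‖L.e (S.e z) + (1 - L.e) (hatHom D.Γ c (Q z))‖ ≤
      ‖L.e‖ * (‖S.e‖ * ‖z‖) + M * W * nm (blk (S.mat b c)) * ‖z‖ := by
    refine (norm_add_le _ _).trans (add_le_add ?_ (hmain z))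
    exact (L.e.le_opNorm _).trans
      (mul_le_mul_of_nonneg_left (S.e.le_opNorm z) (norm_nonneg _))
  have hz : 0 ≤ ‖z‖ := norm_nonneg z
  have hs : 0 ≤ ‖S.e‖ := norm_nonneg S.e
  have hl : 0 ≤ ‖L.e‖ := norm_nonneg L.e
  refine (mul_le_mul_of_nonneg_left e2 hs).trans ?_
  have e3 : ‖S.e‖ * (‖L.e‖ * ‖S.e‖ + M * W) * (1 + nm (blk (S.mat b c))) * ‖z‖ =
      ‖S.e‖ * (‖L.e‖ * (‖S.e‖ * ‖z‖) + M * W * nm (blk (S.mat b c)) * ‖z‖) +
      ‖S.e‖ * (‖L.e‖ * ‖S.e‖ * nm (blk (S.mat b c)) * ‖z‖ + M * W * ‖z‖) := by ring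
  rw [e3]
  have e4 : 0 ≤ ‖S.e‖ * (‖L.e‖ * ‖S.e‖ * nm (blk (S.mat b c)) * ‖z‖ + M * W * ‖z‖) := by
    positivity
  linarith

theorem near_w (S : InvSub D) (b : Module.Basis (Fin 4) ℝ S.U)
    (hline : ∀ g : D.Γ, ∀ i : Fin 3, S.mat b g i.succ 0 = 0) (hM : modSub D S.U = ⊥)
    (hab : ¬ HasAbNormal D.Γ) (C : ℝ) :
    ∃ ε : ℝ, 0 < ε ∧ ∀ c : D.Γ, c ≠ 1 → ‖S.base c - 1‖ < ε →
      C < nm (blk (S.mat b c)) ∨ C < nm (blk (S.mat b c⁻¹)) := by
  classical
  have hle0 : Submodule.span ℝ {((b 0 : S.U) : E)} ≤ S.U := by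
    rw [Submodule.span_singleton_le_iff_mem]
    exact (b 0).2
  have hinvL : ∀ g ∈ D.Γ, ∀ u ∈ Submodule.span ℝ {((b 0 : S.U) : E)},
      g.linear u ∈ Submodule.span ℝ {((b 0 : S.U) : E)} := by
    intro g hg u hu
    obtain ⟨t, rfl⟩ := Submodule.mem_span_singleton.1 hu
    have h1 : S.rep ⟨g, hg⟩ (b 0) = S.mat b ⟨g, hg⟩ 0 0 • b 0 := by
      have h2 := b.sum_repr (S.rep ⟨g, hg⟩ (b 0))
      rw [← h2, Fin.sum_univ_succ]
      have h3 : ∀ i, b.repr (S.rep ⟨g, hg⟩ (b 0)) i = S.mat b ⟨g, hg⟩ i 0 := by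
        intro i
        rw [repr_rep, Finset.sum_eq_single 0]
        · simp
        · intro j _ hj
          rw [b.repr_self, Finsupp.single_apply, if_neg (Ne.symm hj), mul_zero]
        · intro h
          exact absurd (Finset.mem_univ _) h
      have h4 : ∑ i : Fin 3, b.repr (S.rep ⟨g, hg⟩ (b 0)) i.succ • b i.succ = 0 := by
        apply Finset.sum_eq_zero
        intro i _
        rw [h3, hline, zero_smul]
      rw [h4, add_zero, h3]
    have h5 : g.linear ((b 0 : S.U) : E) = S.mat b ⟨g, hg⟩ 0 0 • ((b 0 : S.U) : E) := by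
      have h6 := congrArg (fun v : S.U => (v : E)) h1
      simpa [S.rep_apply] using h6
    rw [map_smul, h5]
    exact Submodule.smul_mem _ _ (Submodule.smul_mem _ _ (Submodule.mem_span_singleton_self _))
  obtain ⟨L, hLU⟩ := exists_invSub D _ (hle0.trans S.le) hinvL
  have hle : L.U ≤ S.U := by rw [hLU]; exact hle0
  have hb0 : ((b 0 : S.U) : E) ∈ L.U := by
    rw [hLU]
    exact Submodule.mem_span_singleton_self _
  have hne : ((b 0 : S.U) : E) ≠ 0 := by
    intro h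
    exact b.ne_zero 0 (Subtype.ext h)
  have hfin : Module.finrank ℝ L.U = 1 := by
    rw [hLU]
    exact finrank_span_singleton hne
  have hML : modSub D L.U = ⊥ := by
    rw [eq_bot_iff, ← hM]
    intro g hg x hx
    exact hle (hg x hx)
  have hdisc := line_disc L hfin hML hab
  obtain ⟨K, hK0, hK⟩ := upper_bound S L b hline hle hb0
  have hq : ∀ g : D.Γ, (1 - L.e) * hatHom D.Γ g * (1 - L.e) = L.base g - L.e := by
    intro g
    rw [L.base_apply, add_sub_cancel_left]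
  obtain ⟨ε, hε, h⟩ := near_gen L.base (base_inj L hML) (by
      intro C'
      refine (hdisc (C' + ‖L.e‖)).subset ?_
      rintro g ⟨h1, h2⟩
      refine ⟨?_, ?_⟩
      · rw [hq]
        exact (norm_sub_le _ _).trans (by linarith)
      · rw [hq]
        exact (norm_sub_le _ _).trans (by linarith))
    S.e S.idem (fun g => base_block_a L S hle g) (by
      intro g hg
      rw [base_block_b L S hle g] at hg
      apply base_inj S hM
      rw [map_one, S.base_apply, hg]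
      abel) hab (K * (1 + C))
  refine ⟨ε, hε, fun c hc1 hc2 => ?_⟩
  have h1 : (1 - S.e) * L.base c * (1 - S.e) - (1 - S.e) = S.base c - 1 := by
    rw [base_block_b L S hle c, S.base_apply]
    abel
  have h2 := h c hc1 (by rw [h1]; exact hc2)
  have h3 : ∀ c : D.Γ, K * (1 + C) < ‖S.e * L.base c * S.e‖ → C < nm (blk (S.mat b c)) := by
    intro c hc
    have h4 := lt_of_mul_lt_mul_left (hc.trans_le (hK c)) hK0
    linarith
  exact h2.imp (h3 c) (h3 c⁻¹)

end

end Pool.AF
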