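import Pool.Agent.Helper94.AC.LimF

/-!
# AC-17 PAIR: sequences with isotropic attracting and repelling directions (uses AC-15)

Proof. Take `L` from `exists_limM`, write `x, y, x', y', γ, a` for its fields.

`M (γ n)⁻¹ = B⁻¹ * (M (γ n))ᵀ * B` (from `hinv`), so dividing by `a n`:
`vecMulVec x' y' = B⁻¹ * vecMulVec y x * B = vecMulVec (B⁻¹ *ᵥ y) (x ᵥ* B)`. As `x' ≠ 0` and all the vectors
are not zero, there is `κ ≠ 0` with `y' = κ • (x ᵥ* B)`. Also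
`(a n)⁻² • ((M (γ n))ᵀ * B * M (γ n)) = (a n)⁻² • B → 0`, and it converges to
`vecMulVec y x * B * vecMulVec x y = (x ⬝ᵥ B *ᵥ x) • vecMulVec y y`, so `x ⬝ᵥ B *ᵥ x = 0`.

For `f ∈ G`: `(a n)⁻² • M (γ n * f * (γ n)⁻¹) → vecMulVec x y * M f * vecMulVec x' y' =
(y ⬝ᵥ M f *ᵥ x') • vecMulVec x y' = s f • vecMulVec x (x ᵥ* B)` with
`s f = κ * (y ⬝ᵥ M f *ᵥ x')`, a polynomial function, not identically zero (`Four.span`). By
`Four.dens` near `1`, for every `k : ℕ` there is `f k` with `‖τ (f k) - 1‖ < 1 / (k + 1)` and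
`s (f k) ≠ 0`. As `n → ∞` with `k` fixed: `τ (γ n * f k * (γ n)⁻¹) → τ (f k)`,
`((a n) ^ 2 * s (f k))⁻¹ • M (γ n * f k * (γ n)⁻¹) → vecMulVec x (x ᵥ* B)`,
`|(a n) ^ 2 * s (f k)| → ∞`. Choose `n k` such that these are within `1 / (k + 1)` of the limits,
respectively larger than `k`, and put `e k = γ (n k) * f k * (γ (n k))⁻¹`,
`r k = (a (n k)) ^ 2 * s (f k)`.
-/

open Set Filter Topology Matrix

set_option linter.unusedSectionVars false

namespace Pool.AF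

theorem exists_pair {G R : Type*} [Group G] [NormedRing R] [NormedAlgebra ℝ R] [CompleteSpace R]
    {τ : G →* R} {M : G →* Matrix (Fin 4) (Fin 4) ℝ} (hF : Four τ M)
    (B : Matrix (Fin 4) (Fin 4) ℝ) (hB : B.det ≠ 0) (hinv : ∀ g, (M g)ᵀ * B * M g = B) :
    ∃ (x : Fin 4 → ℝ) (e : ℕ → G) (r : ℕ → ℝ), x ≠ 0 ∧ x ⬝ᵥ B *ᵥ x = 0 ∧
      Tendsto (fun k => τ (e k)) atTop (𝓝 1) ∧ (∀ k, r k ≠ 0) ∧
      Tendsto (fun k => |r k|) atTop atTop ∧
      Tendsto (fun k => (r k)⁻¹ • M (e k)) atTop (𝓝 (Matrix.vecMulVec x (x ᵥ* B))) := by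
  classical
  obtain ⟨⟨γ, a, x, y, x', y', hpos, hinf, hbase, hbase', hx, hy, hx', hy', hlim, hlim'⟩⟩ :=
    exists_limM hF
  -- the inverse
  have hA : ∀ g, B * M g⁻¹ = (M g)ᵀ * B := by
    intro g
    have h1 : M g * M g⁻¹ = 1 := by rw [← map_mul, mul_inv_cancel, map_one]
    calc B * M g⁻¹ = ((M g)ᵀ * B * M g) * M g⁻¹ := by rw [hinv g]
      _ = (M g)ᵀ * B * (M g * M g⁻¹) := by rw [Matrix.mul_assoc]
      _ = (M g)ᵀ * B := by rw [h1, Matrix.mul_one]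
  have htr : Tendsto (fun n => ((a n)⁻¹ • M (γ n))ᵀ) atTop (𝓝 ((Matrix.vecMulVec x y)ᵀ)) :=
    (continuous_id.matrix_transpose.tendsto _).comp hlim
  have hl1 : Tendsto (fun n => B * ((a n)⁻¹ • M (γ n)⁻¹)) atTop
      (𝓝 (B * Matrix.vecMulVec x' y')) := tendsto_const_nhds.mul hlim'
  have hl2 : Tendsto (fun n => ((a n)⁻¹ • M (γ n))ᵀ * B) atTop
      (𝓝 ((Matrix.vecMulVec x y)ᵀ * B)) := htr.mul tendsto_const_nhds
  have hEq : B * Matrix.vecMulVec x' y' = (Matrix.vecMulVec x y)ᵀ * B := by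
    refine tendsto_nhds_unique hl1 (hl2.congr (fun n => ?_))
    rw [Matrix.mul_smul, hA, Matrix.transpose_smul, Matrix.smul_mul]
  rw [Matrix.mul_vecMulVec, Matrix.transpose_vecMulVec, Matrix.vecMulVec_mul] at hEq
  have hBx' : B *ᵥ x' ≠ 0 := fun h => hB (Matrix.exists_mulVec_eq_zero_iff.1 ⟨x', hx', h⟩)
  obtain ⟨i₀, hi₀⟩ : ∃ i, (B *ᵥ x') i ≠ 0 := by
    by_contra h
    push Not at h
    exact hBx' (funext h)
  have hy'eq : ∀ j, y' j = (y i₀ / (B *ᵥ x') i₀) * (x ᵥ* B) j := by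
    intro j
    have := congrFun (congrFun hEq i₀) j
    rw [Matrix.vecMulVec_apply, Matrix.vecMulVec_apply] at this
    field_simp
    linarith
  set κ : ℝ := y i₀ / (B *ᵥ x') i₀ with hκ
  have hy'eq2 : y' = κ • (x ᵥ* B) := by
    funext j
    rw [Pi.smul_apply, smul_eq_mul]
    exact hy'eq j
  have hκ0 : κ ≠ 0 := by
    intro h
    apply hy'
    rw [hy'eq2, h, zero_smul]
  -- `x` is isotropic
  have hinf' : Tendsto (fun n => (a n)⁻¹) atTop (𝓝 0) := tendsto_inv_atTop_zero.comp hinf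
  have hiso : x ⬝ᵥ B *ᵥ x = 0 := by
    have h1 : Tendsto (fun n => ((a n)⁻¹ • M (γ n))ᵀ * B * ((a n)⁻¹ • M (γ n))) atTop
        (𝓝 ((Matrix.vecMulVec x y)ᵀ * B * Matrix.vecMulVec x y)) := hl2.mul hlim
    have h2 : Tendsto (fun n => ((a n)⁻¹ * (a n)⁻¹) • B) atTop (𝓝 ((0 * 0 : ℝ) • B)) :=
      (hinf'.mul hinf').smul_const B
    have h3 : (Matrix.vecMulVec x y)ᵀ * B * Matrix.vecMulVec x y = (0 * 0 : ℝ) • B := by
      refine tendsto_nhds_unique h1 (h2.congr (fun n => ?_))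
      rw [Matrix.transpose_smul, Matrix.smul_mul, Matrix.smul_mul, Matrix.mul_smul, hinv, smul_smul]
    rw [Matrix.transpose_vecMulVec, Matrix.vecMulVec_mul, Matrix.vecMulVec_mul_vecMulVec,
      mul_zero, zero_smul] at h3
    obtain ⟨j₀, hj₀⟩ : ∃ j, y j ≠ 0 := by
      by_contra h
      push Not at h
      exact hy (funext h)
    have h4 := congrFun (congrFun h3 j₀) j₀
    rw [← Matrix.dotProduct_mulVec] at h4
    simp only [Matrix.vecMulVec_apply, Pi.smul_apply, Matrix.zero_apply, smul_eq_mul] at h4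
    have h5 : y j₀ * y j₀ * (x ⬝ᵥ B *ᵥ x) = 0 := by linarith
    rcases mul_eq_zero.1 h5 with h6 | h6
    · exact absurd (mul_self_eq_zero.1 h6) hj₀
    · exact h6
  -- the polynomial function `s`
  let ℓ : Matrix (Fin 4) (Fin 4) ℝ →ₗ[ℝ] ℝ :=
    { toFun := fun A => κ * (y ⬝ᵥ A *ᵥ x')
      map_add' := fun A A' => by
        rw [Matrix.add_mulVec, dotProduct_add, mul_add]
      map_smul' := fun c A => by
        rw [Matrix.smul_mulVec, dotProduct_smul, smul_eq_mul, RingHom.id_apply, smul_eq_mul]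
        ring }
  have hℓ : ∀ A, ℓ A = κ * (y ⬝ᵥ A *ᵥ x') := fun A => rfl
  have hℓ0 : ℓ ≠ 0 := by
    intro h
    obtain ⟨i, hi⟩ : ∃ i, y i ≠ 0 := by
      by_contra h
      push Not at h
      exact hy (funext h)
    obtain ⟨j, hj⟩ : ∃ j, x' j ≠ 0 := by
      by_contra h
      push Not at h
      exact hx' (funext h)
    have h1 : ℓ (Matrix.single i j 1) = 0 := by rw [h]; rfl
    rw [hℓ] at h1
    have h2 : y ⬝ᵥ (Matrix.single i j (1:ℝ)) *ᵥ x' = y i * x' j := by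
      rw [Matrix.single_mulVec]
      simp [dotProduct, Function.update_apply]
    rw [h2] at h1
    exact mul_ne_zero hκ0 (mul_ne_zero hi hj) h1
  have hex : ∃ f, ℓ (M f) ≠ 0 := by
    by_contra h
    push Not at h
    exact hℓ0 (hF.span ℓ h)
  have hf : ∀ k : ℕ, ∃ f, ‖τ f - τ 1‖ < 1 / ((k : ℝ) + 1) ∧ ℓ (M f) ≠ 0 := fun k =>
    hF.dens (fun g => ℓ (M g)) (IsPoly.lin ℓ) hex 1 _ (by positivity)
  choose f hf1 hf2 using hf
  rw [map_one] at hf1
  -- the limit for fixed `k`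
  have hcon : ∀ k, Tendsto (fun n => ((a n) ^ 2 * ℓ (M (f k)))⁻¹ • M (γ n * f k * (γ n)⁻¹)) atTop
      (𝓝 (Matrix.vecMulVec x (x ᵥ* B))) := by
    intro k
    have h1 : Tendsto (fun n => (ℓ (M (f k)))⁻¹ •
        (((a n)⁻¹ • M (γ n)) * M (f k) * ((a n)⁻¹ • M (γ n)⁻¹))) atTop
        (𝓝 ((ℓ (M (f k)))⁻¹ • (Matrix.vecMulVec x y * M (f k) * Matrix.vecMulVec x' y'))) :=
      ((hlim.mul tendsto_const_nhds).mul hlim').const_smul _
    have h2 : (ℓ (M (f k)))⁻¹ • (Matrix.vecMulVec x y * M (f k) * Matrix.vecMulVec x' y') =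
        Matrix.vecMulVec x (x ᵥ* B) := by
      rw [Matrix.vecMulVec_mul, Matrix.vecMulVec_mul_vecMulVec, ← Matrix.dotProduct_mulVec]
      ext i j
      have h3 := hf2 k
      rw [hℓ] at h3
      rw [Matrix.smul_apply, hℓ]
      simp only [Matrix.vecMulVec_apply, Pi.smul_apply, smul_eq_mul]
      rw [hy'eq j]
      have h4 : y ⬝ᵥ M (f k) *ᵥ x' ≠ 0 := fun h => h3 (by rw [h, mul_zero])
      field_simp
    rw [← h2]
    refine h1.congr (fun n => ?_)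
    have h3 := (hpos n).ne'
    rw [map_mul, map_mul, Matrix.smul_mul, Matrix.smul_mul, Matrix.mul_smul, smul_smul, smul_smul]
    congr 1
    field_simp
  have hτ : ∀ k, Tendsto (fun n => τ (γ n * f k * (γ n)⁻¹)) atTop (𝓝 (τ (f k))) := by
    intro k
    have h1 : Tendsto (fun n => τ (γ n) * τ (f k) * τ (γ n)⁻¹) atTop (𝓝 (1 * τ (f k) * 1)) :=
      (hbase.mul tendsto_const_nhds).mul hbase'
    rw [one_mul, mul_one] at h1
    refine h1.congr (fun n => ?_)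
    rw [map_mul, map_mul]
  have hsel : ∀ k : ℕ, ∃ n, ‖τ (γ n * f k * (γ n)⁻¹) - τ (f k)‖ < 1 / ((k : ℝ) + 1) ∧
      (∀ i j, |((((a n) ^ 2 * ℓ (M (f k)))⁻¹ • M (γ n * f k * (γ n)⁻¹)) i j -
        (Matrix.vecMulVec x (x ᵥ* B)) i j)| < 1 / ((k : ℝ) + 1)) ∧
      (k : ℝ) < |(a n) ^ 2 * ℓ (M (f k))| := by
    intro k
    have hk : (0 : ℝ) < 1 / ((k : ℝ) + 1) := by positivity
    have e1 : ∀ᶠ n in atTop, ‖τ (γ n * f k * (γ n)⁻¹) - τ (f k)‖ < 1 / ((k : ℝ) + 1) := by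
      have := (tendsto_iff_norm_sub_tendsto_zero.1 (hτ k)).eventually_lt_const hk
      exact this
    have e2 : ∀ i j, ∀ᶠ n in atTop,
        |((((a n) ^ 2 * ℓ (M (f k)))⁻¹ • M (γ n * f k * (γ n)⁻¹)) i j -
        (Matrix.vecMulVec x (x ᵥ* B)) i j)| < 1 / ((k : ℝ) + 1) := by
      intro i j
      have h1 := tendsto_pi_nhds.1 (tendsto_pi_nhds.1 (hcon k) i) j
      exact (tendsto_iff_norm_sub_tendsto_zero.1 h1).eventually_lt_const hk
    have e3 : ∀ᶠ n in atTop, (k : ℝ) < |(a n) ^ 2 * ℓ (M (f k))| := by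
      have h1 : Tendsto (fun n => (a n) ^ 2 * |ℓ (M (f k))|) atTop atTop :=
        ((tendsto_pow_atTop two_ne_zero).comp hinf).atTop_mul_const (abs_pos.2 (hf2 k))
      have h2 := h1.eventually_gt_atTop (k : ℝ)
      filter_upwards [h2] with n hn
      rw [abs_mul, abs_of_nonneg (sq_nonneg _)]
      exact hn
    have e2' : ∀ᶠ n in atTop, ∀ i j,
        |((((a n) ^ 2 * ℓ (M (f k)))⁻¹ • M (γ n * f k * (γ n)⁻¹)) i j -
        (Matrix.vecMulVec x (x ᵥ* B)) i j)| < 1 / ((k : ℝ) + 1) := by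
      rw [eventually_all]
      intro i
      rw [eventually_all]
      exact e2 i
    exact (e1.and (e2'.and e3)).exists
  choose nn hn1 hn2 hn3 using hsel
  have h0 : Tendsto (fun k : ℕ => 1 / ((k : ℝ) + 1)) atTop (𝓝 0) :=
    tendsto_one_div_add_atTop_nhds_zero_nat
  refine ⟨x, fun k => γ (nn k) * f k * (γ (nn k))⁻¹, fun k => (a (nn k)) ^ 2 * ℓ (M (f k)), hx,
    hiso, ?_, ?_, ?_, ?_⟩
  · rw [tendsto_iff_norm_sub_tendsto_zero]
    have h1 : Tendsto (fun k : ℕ => 1 / ((k : ℝ) + 1) + 1 / ((k : ℝ) + 1)) atTop (𝓝 (0 + 0)) :=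
      h0.add h0
    rw [add_zero] at h1
    refine squeeze_zero (fun k => norm_nonneg _) (fun k => ?_) h1
    calc ‖τ (γ (nn k) * f k * (γ (nn k))⁻¹) - 1‖
        = ‖(τ (γ (nn k) * f k * (γ (nn k))⁻¹) - τ (f k)) + (τ (f k) - 1)‖ := by
          congr 1; abel
      _ ≤ ‖τ (γ (nn k) * f k * (γ (nn k))⁻¹) - τ (f k)‖ + ‖τ (f k) - 1‖ := norm_add_le _ _
      _ ≤ _ := add_le_add (hn1 k).le (hf1 k).le
  · intro k
    exact mul_ne_zero (pow_ne_zero _ (hpos _).ne') (hf2 k)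
  · exact tendsto_atTop_mono (fun k => (hn3 k).le) tendsto_natCast_atTop_atTop
  · refine tendsto_pi_nhds.2 (fun i => tendsto_pi_nhds.2 (fun j => ?_))
    rw [tendsto_iff_norm_sub_tendsto_zero]
    exact squeeze_zero (fun k => norm_nonneg _) (fun k => (hn2 k i j).le) h0

end Pool.AF
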