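import Pool.Agent.Helper94.AC.WFin

/-!
# AC-33 WFALSE: steered words in a nonsplit extension by a line are impossible
# (uses the stubs AC-31 `words_plane`, AC-32 `words_fin`)

Proof. By `words_plane` there are `K` and `L n : T →L[ℝ] S.U` with `‖L n‖ ≤ K`, `Y (π (L n θ)) = θ` and
the property `hL` of `words_fin`. The `L n` are in a compact set; take a convergent subsequence
`L (φ k) → L₀`; `Y (π (L₀ θ)) = θ`. Let `Q₀` be the set of the `q ∈ G₀` that are good for `L₀` (as in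
`hgood` of `words_fin`). By `hgen` no nonzero functional vanishes on all `ρ q`, `q ∈ Q₀`, so these span
`W →ₗ[ℝ] W`, and there are finitely many `q i ∈ Q₀` such that the `ρ (q i)` span. By `words_fin` each
`{(w (φ k))⁻¹ * q i * w (φ k) | k}` is finite, so the map `k ↦ (i ↦ (w (φ k))⁻¹ * q i * w (φ k))` has finite
range and is not injective: there are `k < l` with `(w (φ k))⁻¹ * q i * w (φ k) =
(w (φ l))⁻¹ * q i * w (φ l)` for all `i`. So `x = w (φ l) * (w (φ k))⁻¹ ∈ G₀` commutes with all the `q i`, and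
`ρ x` commutes with all linear maps of `W`: it is a scalar `c`, `c ^ 3 = det (ρ x) = 1`, so `c = 1` and
`ρ x = 1`. On the other hand let `t ≠ 0` in `T`, `v 0 = X (φ k) t` and
`v j = ρ (w (φ k + j) * (w (φ k))⁻¹) (v 0)`: `v (j+1) = X' j (A (Y (v j))) + R' j (v j)` with
`X' j = X (φ k + j)` etc. By `hyp_grow` (as at the end of `steer_core` in
`Pool/Agent/Helper94/AB/Steer.lean`), `2 ^ m * ‖Y (v 0)‖ ≤ ‖Y (v m)‖` for `m = φ l - φ k ≥ 1`, with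
`Y (v 0) ≠ 0`. But `v m = ρ x (v 0) = v 0`: contradiction.
-/

open Set Filter Topology Matrix

set_option linter.unusedSectionVars false

namespace Pool.AF

open Pool.SV

private theorem wf_scalar {W : Type*} [NormedAddCommGroup W] [NormedSpace ℝ W]
    [Nontrivial W] (f : W →ₗ[ℝ] W) (h : ∀ g : W →ₗ[ℝ] W, f ∘ₗ g = g ∘ₗ f) :
    ∃ c : ℝ, f = c • LinearMap.id := by
  obtain ⟨v, hv⟩ := exists_ne (0 : W)
  obtain ⟨ℓ, hℓ⟩ := SeparatingDual.exists_eq_one (R := ℝ) hv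
  refine ⟨ℓ (f v), ?_⟩
  ext y
  have h1 := LinearMap.congr_fun (h ((ℓ : W →ₗ[ℝ] ℝ).smulRight y)) v
  simp only [LinearMap.comp_apply, LinearMap.smulRight_apply, ContinuousLinearMap.coe_coe, hℓ,
    one_smul] at h1
  rw [h1]
  rfl

section

variable {E : Type*} [NormedAddCommGroup E] [NormedSpace ℝ E] [FiniteDimensional ℝ E]
  {D : Geo E} {S : InvSub D} {G₀ : Subgroup D.Γ} {W : Type*} [NormedAddCommGroup W]
  [NormedSpace ℝ W] [FiniteDimensional ℝ W] {T : Type*} [NormedAddCommGroup T]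
  [NormedSpace ℝ T] [FiniteDimensional ℝ T] [Nontrivial T] {ρ : D.Γ →* (W →L[ℝ] W)}

theorem words_false (Z : Words S G₀ T ρ) (Q : LineExt S G₀ ρ)
    (hT : 2 * Module.finrank ℝ T = Module.finrank ℝ S.U) (hW : Module.finrank ℝ W = 3)
    (hdet : ∀ g ∈ G₀, LinearMap.det ((ρ g : W →L[ℝ] W) : W →ₗ[ℝ] W) = 1)
    (hgen : ∀ L₀ : T →L[ℝ] S.U, (∀ θ, Z.Y (Q.π (L₀ θ)) = θ) →
      ∀ ℓ : (W →ₗ[ℝ] W) →ₗ[ℝ] ℝ, ℓ ≠ 0 → ∃ q ∈ G₀,
        (∀ θ θ', L₀ θ' = S.rep q (L₀ θ) → θ = 0 ∧ θ' = 0) ∧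
        ℓ ((ρ q : W →L[ℝ] W) : W →ₗ[ℝ] W) ≠ 0) : False := by
  classical
  have : Nontrivial W := Module.nontrivial_of_finrank_pos (R := ℝ) (by rw [hW]; norm_num)
  obtain ⟨K, hK⟩ := words_plane Z Q
  choose L hLn hLY hLζ using hK
  have : ProperSpace (T →L[ℝ] S.U) := FiniteDimensional.proper ℝ (T →L[ℝ] S.U)
  have hb : Bornology.IsBounded (Set.range L) := by
    refine isBounded_iff_forall_norm_le.2 ⟨K, ?_⟩
    rintro _ ⟨n, rfl⟩
    exact hLn n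
  have hmem : ∀ n, L n ∈ Set.range L := fun n => ⟨n, rfl⟩
  obtain ⟨L₀, -, φ, hφ, hlim⟩ := tendsto_subseq_of_bounded hb hmem
  have hlim' : Tendsto (fun k => L (φ k)) atTop (𝓝 L₀) := hlim
  have hL₀ : ∀ θ, Z.Y (Q.π (L₀ θ)) = θ := by
    intro θ
    have h1 : Tendsto (fun k => Z.Y (Q.π (L (φ k) θ))) atTop (𝓝 (Z.Y (Q.π (L₀ θ)))) := by
      have h2 : Tendsto (fun k => L (φ k) θ) atTop (𝓝 (L₀ θ)) :=
        ((ContinuousLinearMap.apply ℝ S.U θ).continuous.tendsto L₀).comp hlim'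
      exact ((Z.Y.continuous.comp Q.π.continuous).tendsto (L₀ θ)).comp h2
    have h3 : (fun k => Z.Y (Q.π (L (φ k) θ))) = fun _ => θ := funext (fun k => hLY _ _)
    rw [h3] at h1
    exact tendsto_nhds_unique h1 tendsto_const_nhds
  set P : Set D.Γ := {q | q ∈ G₀ ∧ ∀ θ θ', L₀ θ' = S.rep q (L₀ θ) → θ = 0 ∧ θ' = 0} with hP
  set M : Set (W →ₗ[ℝ] W) := (fun q : D.Γ => ((ρ q : W →L[ℝ] W) : W →ₗ[ℝ] W)) '' P with hM
  have hspan : Submodule.span ℝ M = ⊤ := by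
    by_contra hne
    obtain ⟨ℓ, hℓ0, hℓ⟩ := Submodule.exists_le_ker_of_lt_top _ (lt_top_iff_ne_top.2 hne)
    obtain ⟨q, hq, hq1, hq2⟩ := hgen L₀ hL₀ ℓ hℓ0
    exact hq2 (LinearMap.mem_ker.1 (hℓ (Submodule.subset_span ⟨q, ⟨hq, hq1⟩, rfl⟩)))
  have hfg : (Submodule.span ℝ M).FG := IsNoetherian.noetherian _
  obtain ⟨s, hs, hsspan⟩ := (Submodule.fg_span_iff_fg_span_finset_subset M).1 hfg
  rw [hspan] at hsspan
  have hex : ∀ m : s, ∃ q : D.Γ, q ∈ P ∧ ((ρ q : W →L[ℝ] W) : W →ₗ[ℝ] W) = m := by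
    intro m
    obtain ⟨q, hq, hqm⟩ := hs m.2
    exact ⟨q, hq, hqm⟩
  choose qq hqP hqm using hex
  have hfin : ∀ m : s, (Set.range (fun k => (Z.w (φ k))⁻¹ * qq m * Z.w (φ k))).Finite := by
    intro m
    exact words_fin Z Q hT L K hLζ φ hφ L₀ hlim' (qq m) (hqP m).2
  have hninj : ¬ Function.Injective
      (fun (k : ℕ) (m : s) => (Z.w (φ k))⁻¹ * qq m * Z.w (φ k)) := by
    intro hinj
    refine (Set.infinite_of_injective_forall_mem hinj (s := {f : s → D.Γ | ∀ m,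
      f m ∈ Set.range (fun k => (Z.w (φ k))⁻¹ * qq m * Z.w (φ k))}) ?_) (Set.Finite.pi' hfin)
    intro k m
    exact ⟨k, rfl⟩
  have hex2 : ∃ k l : ℕ, k < l ∧ ∀ m : s, (Z.w (φ k))⁻¹ * qq m * Z.w (φ k) =
      (Z.w (φ l))⁻¹ * qq m * Z.w (φ l) := by
    rw [Function.Injective] at hninj
    push Not at hninj
    obtain ⟨a, b, hab, hne⟩ := hninj
    rcases lt_or_gt_of_ne hne with hlt | hlt
    · exact ⟨a, b, hlt, fun m => congrFun hab m⟩
    · exact ⟨b, a, hlt, fun m => (congrFun hab m).symm⟩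
  obtain ⟨k, l, hkl, hconj⟩ := hex2
  set x : D.Γ := Z.w (φ l) * (Z.w (φ k))⁻¹ with hx
  have hcomm : ∀ m : s, x * qq m = qq m * x := by
    intro m
    have h1 : Z.w (φ l) * ((Z.w (φ k))⁻¹ * qq m * Z.w (φ k)) * (Z.w (φ k))⁻¹ =
        Z.w (φ l) * ((Z.w (φ l))⁻¹ * qq m * Z.w (φ l)) * (Z.w (φ k))⁻¹ := by rw [hconj m]
    have h2 : Z.w (φ l) * ((Z.w (φ k))⁻¹ * qq m * Z.w (φ k)) * (Z.w (φ k))⁻¹ = x * qq m := by
      rw [hx]; group
    have h3 : Z.w (φ l) * ((Z.w (φ l))⁻¹ * qq m * Z.w (φ l)) * (Z.w (φ k))⁻¹ = qq m * x := by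
      rw [hx]; group
    rw [h2, h3] at h1
    exact h1
  have hxG : x ∈ G₀ := G₀.mul_mem (Z.wmem _) (G₀.inv_mem (Z.wmem _))
  have hcomm2 : ∀ g : W →ₗ[ℝ] W, ((ρ x : W →L[ℝ] W) : W →ₗ[ℝ] W) ∘ₗ g =
      g ∘ₗ ((ρ x : W →L[ℝ] W) : W →ₗ[ℝ] W) := by
    intro g
    have hg : g ∈ Submodule.span ℝ ((s : Set (W →ₗ[ℝ] W))) := by
      rw [← hsspan]; exact Submodule.mem_top
    induction hg using Submodule.span_induction with
    | mem y hy =>
      have h1 := hqm ⟨y, hy⟩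
      have h2 : ρ x * ρ (qq ⟨y, hy⟩) = ρ (qq ⟨y, hy⟩) * ρ x := by
        rw [← map_mul, ← map_mul, hcomm]
      have h1' : ((ρ (qq ⟨y, hy⟩) : W →L[ℝ] W) : W →ₗ[ℝ] W) = y := h1
      rw [← h1']
      ext v
      have h3 := congrArg (fun F : W →L[ℝ] W => F v) h2
      exact h3
    | zero => rw [LinearMap.comp_zero, LinearMap.zero_comp]
    | add y z _ _ hy hz => rw [LinearMap.comp_add, LinearMap.add_comp, hy, hz]
    | smul a y _ hy => rw [LinearMap.comp_smul, LinearMap.smul_comp, hy]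
  obtain ⟨c, hc⟩ := wf_scalar _ hcomm2
  have hc1 : c = 1 := by
    have h1 := hdet x hxG
    rw [hc, LinearMap.det_smul, hW, LinearMap.det_id, mul_one] at h1
    have h2 : (c - 1) * (c ^ 2 + c + 1) = 0 := by ring_nf; linarith
    rcases mul_eq_zero.1 h2 with h3 | h3
    · linarith
    · nlinarith [sq_nonneg (c + 1 / 2)]
  have hρx : ∀ v : W, ρ x v = v := by
    intro v
    have h1 := LinearMap.congr_fun hc v
    rw [hc1] at h1
    simpa using h1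
  -- growth
  obtain ⟨t, ht⟩ := exists_ne (0 : T)
  have hlt : φ k < φ l := hφ hkl
  set v0 : W := Z.X (φ k) t with hv0
  set z : W := ρ (Z.w (φ k))⁻¹ v0 with hz
  set v : ℕ → W := fun j => ρ (Z.w (φ k + j)) z with hv
  have hv00 : v 0 = v0 := by
    have h1 : ρ (Z.w (φ k)) * ρ (Z.w (φ k))⁻¹ = 1 := by
      rw [← map_mul, mul_inv_cancel, map_one]
    change (ρ (Z.w (φ k)) * ρ (Z.w (φ k))⁻¹) v0 = v0
    rw [h1]
    rfl
  have hvs : ∀ j < φ l - φ k, v (j + 1) = Z.X (φ k + j) (Z.A (Z.Y (v j))) + Z.R (φ k + j) (v j) := by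
    intro j _
    rw [← Z.dec]
    have h1 : ρ (Z.w (φ k + (j + 1))) = ρ (Z.h (φ k + j)) * ρ (Z.w (φ k + j)) := by
      rw [← map_mul, ← Z.ws (φ k + j)]
      rfl
    change ρ (Z.w (φ k + (j + 1))) z = _
    rw [h1]
    rfl
  have hvm : v (φ l - φ k) = v 0 := by
    rw [hv00]
    have h1 : φ k + (φ l - φ k) = φ l := by omega
    change ρ (Z.w (φ k + (φ l - φ k))) z = v0
    rw [h1, hz]
    have h2 : ρ (Z.w (φ l)) (ρ (Z.w (φ k))⁻¹ v0) = ρ x v0 := by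
      rw [hx, map_mul]
      rfl
    rw [h2, hρx]
  have hNt : Z.N (φ k) (Z.Y v0) = t := Z.hNYX _ t
  have hC0 : (0 : ℝ) ≤ Z.C := le_trans zero_le_one Z.hC
  have hY0 : Z.Y v0 ≠ 0 := by
    intro h0
    rw [h0, map_zero] at hNt
    exact ht hNt.symm
  have h0 : ‖v 0‖ ≤ 4 * Z.C ^ 2 * ‖Z.Y (v 0)‖ := by
    rw [hv00]
    have h1 : ‖v0‖ ≤ Z.C * ‖t‖ := (ContinuousLinearMap.le_opNorm _ _).trans
      (mul_le_mul_of_nonneg_right (Z.hX _) (norm_nonneg _))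
    have h2 : ‖t‖ ≤ Z.C * ‖Z.Y v0‖ := by
      conv_lhs => rw [← hNt]
      exact (ContinuousLinearMap.le_opNorm _ _).trans
        (mul_le_mul_of_nonneg_right (Z.hN _) (norm_nonneg _))
    have h3 : Z.C * ‖t‖ ≤ Z.C * (Z.C * ‖Z.Y v0‖) := mul_le_mul_of_nonneg_left h2 hC0
    have h4 : 0 ≤ Z.C ^ 2 * ‖Z.Y v0‖ := by positivity
    nlinarith
  have hgrow := hyp_grow Z.C Z.η Z.hC Z.hη Z.hηC Z.A Z.A' Z.hA Z.hA' Z.Y Z.hY
    (fun j => Z.X (φ k + j)) (fun j => Z.N (φ k + j)) (fun j => Z.R (φ k + j))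
    (fun j => Z.hX _) (fun j => Z.hN _) (fun j => Z.hR _) (fun j t => Z.hNYX _ t)
    (φ l - φ k) v hvs h0
  rw [hvm, hv00] at hgrow
  have hpos : 0 < ‖Z.Y v0‖ := norm_pos_iff.2 hY0
  have h2 : (2 : ℝ) ≤ 2 ^ (φ l - φ k) := by
    calc (2 : ℝ) = 2 ^ 1 := (pow_one _).symm
      _ ≤ 2 ^ (φ l - φ k) := pow_le_pow_right₀ (by norm_num) (by omega)
  nlinarith

end

end Pool.AF
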