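import Pool.Agent.Helper94.AC.Words
import Pool.Agent.Helper94.AB.Steer

/-!
# AC-29 WORDSEX: existence of steered words

Proof. This is the first half of the proof of `steer` (`Pool/Agent/Helper94/AB/Steer.lean`), with an
arbitrary representation `ρ` of `D.Γ` on `W` instead of `S.rep` (the lemmas there are private: copy
them). `steer_sel` gives `φ`, a finite set `F` of elements `f ∈ G₀` with `Y ∘ ρ f ∘ X` injective, and `n₀`.
Choose `C₁`, `η = 1 / (6 * C₁ ^ 3)` and one large `n` as there; then choose inductively (`steer_seq`)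
`f j ∈ F` with `w (j+1) = f j * γ (φ n) * w j`, `‖S.base (w j) - 1‖ ≤ 1/2`. Put `h j = f j * γ (φ n)`,
`X j = ρ (f j) ∘ Xn (φ n)`, `R j = ρ (f j) ∘ Rn (φ n)`, `A = An (φ n)`, `Y = Yn (φ n)`.
-/

open Set Filter Topology Matrix

set_option linter.unusedSectionVars false

namespace Pool.AF

open Pool.SV

private theorem wx_tendsto_comp {A B C : Type*} [NormedAddCommGroup A] [NormedSpace ℝ A]
    [NormedAddCommGroup B] [NormedSpace ℝ B] [NormedAddCommGroup C] [NormedSpace ℝ C]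
    {f : ℕ → B →L[ℝ] C} {g : ℕ → A →L[ℝ] B} {f0 : B →L[ℝ] C} {g0 : A →L[ℝ] B}
    (hf : Tendsto f atTop (𝓝 f0)) (hg : Tendsto g atTop (𝓝 g0)) :
    Tendsto (fun n => (f n).comp (g n)) atTop (𝓝 (f0.comp g0)) :=
  ((continuous_fst.clm_comp continuous_snd).tendsto (f0, g0)).comp (hf.prodMk_nhds hg)

private theorem wx_ev {A B : Type*} [NormedAddCommGroup A] [NormedSpace ℝ A]
    [NormedAddCommGroup B] [NormedSpace ℝ B] {f : ℕ → A →L[ℝ] B} {f0 : A →L[ℝ] B}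
    (hf : Tendsto f atTop (𝓝 f0)) {c : ℝ} (hc : ‖f0‖ < c) :
    ∀ᶠ n in atTop, ‖f n‖ < c := by
  have h1 := hf.norm
  exact h1.eventually_lt_const hc

private theorem wx_seq {G : Type*} (P : G → Prop) (Q : G → G → Prop) (x0 : G)
    (h0 : P x0) (hs : ∀ x, P x → ∃ y, P y ∧ Q x y) :
    ∃ w : ℕ → G, w 0 = x0 ∧ (∀ j, P (w j)) ∧ ∀ j, Q (w j) (w (j + 1)) := by
  choose! s hs1 hs2 using hs
  have hP : ∀ j, P (s^[j] x0) := by
    intro j
    induction j with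
    | zero => exact h0
    | succ j ih =>
      rw [Function.iterate_succ_apply']
      exact hs1 _ ih
  refine ⟨fun n => s^[n] x0, rfl, hP, fun j => ?_⟩
  change Q (s^[j] x0) (s^[j + 1] x0)
  rw [Function.iterate_succ_apply']
  exact hs2 _ (hP j)

private theorem wx_unit {T : Type*} [NormedAddCommGroup T]
    [NormedSpace ℝ T] [FiniteDimensional ℝ T] {M : ℕ → T →L[ℝ] T} {L : T →L[ℝ] T}
    (hM : Tendsto M atTop (𝓝 L)) (hL : ∀ t, L t = 0 → t = 0) (B : ℝ)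
    (hB : ‖Ring.inverse L‖ ≤ B) :
    ∀ᶠ n in atTop, ∃ N : T →L[ℝ] T, ‖N‖ ≤ B + 1 ∧ ∀ t, N (M n t) = t := by
  haveI : CompleteSpace T := FiniteDimensional.complete ℝ T
  have hinj : Function.Injective L := by
    intro a b hab
    have h1 : L (a - b) = 0 := by rw [map_sub, hab, sub_self]
    exact sub_eq_zero.1 (hL _ h1)
  have hunit : IsUnit L := by
    rw [ContinuousLinearMap.isUnit_iff_bijective]
    refine ⟨hinj, ?_⟩
    have := (LinearMap.injective_iff_surjective (f := (L : T →ₗ[ℝ] T))).1 hinj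
    exact this
  obtain ⟨U, hU⟩ := hunit
  have h1 : ∀ᶠ n in atTop, IsUnit (M n) :=
    hM.eventually (Units.isOpen.mem_nhds ⟨U, hU⟩)
  have h2 : Tendsto (fun n => Ring.inverse (M n)) atTop (𝓝 (Ring.inverse L)) := by
    have h3 := NormedRing.inverse_continuousAt U
    rw [hU] at h3
    exact h3.tendsto.comp hM
  have h3 : ∀ᶠ n in atTop, ‖Ring.inverse (M n)‖ < B + 1 :=
    h2.norm.eventually_lt_const (by linarith)
  filter_upwards [h1, h3] with n hn1 hn2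
  refine ⟨Ring.inverse (M n), hn2.le, fun t => ?_⟩
  have h4 := Ring.inverse_mul_cancel (M n) hn1
  calc (Ring.inverse (M n)) (M n t) = (Ring.inverse (M n) * M n) t := rfl
    _ = t := by rw [h4]; rfl

theorem exists_words {E : Type*} [NormedAddCommGroup E] [NormedSpace ℝ E] [FiniteDimensional ℝ E]
    (D : Geo E) (S : InvSub D) (G₀ : Subgroup D.Γ) {W : Type*} [NormedAddCommGroup W]
    [NormedSpace ℝ W] [FiniteDimensional ℝ W] {T : Type*} [NormedAddCommGroup T]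
    [NormedSpace ℝ T] [FiniteDimensional ℝ T] (ρ : D.Γ →* (W →L[ℝ] W)) (γ : ℕ → D.Γ)
    (hγ : ∀ n, γ n ∈ G₀) (C : ℝ) (hb : ∀ n, ‖S.base (γ n)‖ ≤ C)
    (hb' : ∀ n, ‖S.base (γ n)⁻¹‖ ≤ C) (Xn : ℕ → T →L[ℝ] W) (An An' : ℕ → T →L[ℝ] T)
    (Yn : ℕ → W →L[ℝ] T) (Rn : ℕ → W →L[ℝ] W) (X : T →L[ℝ] W) (Y : W →L[ℝ] T)
    (hdec : ∀ n u, ρ (γ n) u = Xn n (An n (Yn n u)) + Rn n u)
    (hA : ∀ n t, An' n (An n t) = t) (hA0 : Tendsto (fun n => ‖An' n‖) atTop (𝓝 0))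
    (hR0 : Tendsto (fun n => ‖Rn n‖) atTop (𝓝 0)) (hX : Tendsto Xn atTop (𝓝 X))
    (hY : Tendsto Yn atTop (𝓝 Y))
    (hdense : ∀ g ∈ G₀, ∀ ε : ℝ, 0 < ε → ∃ f ∈ G₀, ‖S.base f - S.base g‖ < ε ∧
      ∀ t, Y (ρ f (X t)) = 0 → t = 0) : Nonempty (Words S G₀ T ρ) := by
  classical
  obtain ⟨φ, F, n₀, hφ, hFfin, hFP, hsel⟩ := steer_sel (S.base.comp G₀.subtype)
    {f : G₀ | ∀ t, Y (ρ (f : D.Γ) (X t)) = 0 → t = 0} (by
      intro g ε hε
      obtain ⟨f, hf, h1, h2⟩ := hdense g g.2 ε hε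
      exact ⟨⟨f, hf⟩, h2, h1⟩) (fun n => ⟨γ n, hγ n⟩) C hb hb'
  have hφt : Tendsto φ atTop atTop := hφ.tendsto_atTop
  have hXφ : Tendsto (fun n => Xn (φ n)) atTop (𝓝 X) := hX.comp hφt
  have hYφ : Tendsto (fun n => Yn (φ n)) atTop (𝓝 Y) := hY.comp hφt
  have hR1 : Tendsto Rn atTop (𝓝 0) := by
    have h1 := (tendsto_zero_iff_norm_tendsto_zero (f := Rn) (a := atTop)).2
    exact h1 hR0
  have hRφ : Tendsto (fun n => Rn (φ n)) atTop (𝓝 0) := hR1.comp hφt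
  have hAφ : Tendsto (fun n => ‖An' (φ n)‖) atTop (𝓝 0) := hA0.comp hφt
  obtain ⟨B1, hB1⟩ := (hFfin.image (fun f : G₀ =>
    ‖Ring.inverse (Y.comp ((ρ (f : D.Γ)).comp X))‖)).bddAbove
  obtain ⟨B2, hB2⟩ := (hFfin.image (fun f : G₀ => ‖(ρ (f : D.Γ)).comp X‖)).bddAbove
  set C₁ : ℝ := max 1 (max (‖Y‖ + 1) (max (B1 + 1) (B2 + 1))) with hC₁
  have hC1 : 1 ≤ C₁ := le_max_left _ _
  have hC2 : ‖Y‖ + 1 ≤ C₁ := (le_max_left _ _).trans (le_max_right _ _)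
  have hC3 : B1 + 1 ≤ C₁ :=
    (le_max_left _ _).trans ((le_max_right _ _).trans (le_max_right _ _))
  have hC4 : B2 + 1 ≤ C₁ :=
    (le_max_right _ _).trans ((le_max_right _ _).trans (le_max_right _ _))
  have hCpos : 0 < C₁ := lt_of_lt_of_le one_pos hC1
  set η : ℝ := 1 / (6 * C₁ ^ 3) with hη
  have hηpos : 0 < η := by positivity
  have hηC : η * (6 * C₁ ^ 3) ≤ 1 := by
    rw [hη, one_div, inv_mul_cancel₀ (by positivity)]
  have ev1 : ∀ᶠ n in atTop, ‖An' (φ n)‖ < η := hAφ.eventually_lt_const hηpos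
  have hYC : ‖Y‖ < C₁ := by linarith
  have ev2 : ∀ᶠ n in atTop, ‖Yn (φ n)‖ < C₁ := wx_ev hYφ hYC
  have ev3 : ∀ᶠ n in atTop, ∀ f ∈ F, ‖(ρ ((f : G₀) : D.Γ)).comp (Xn (φ n))‖ < C₁ := by
    rw [eventually_all_finite hFfin]
    intro f hf
    have h1 : ‖(ρ (f : D.Γ)).comp X‖ ≤ B2 := hB2 (Set.mem_image_of_mem _ hf)
    have h2 : ‖(ρ (f : D.Γ)).comp X‖ < C₁ := by linarith
    exact wx_ev (wx_tendsto_comp tendsto_const_nhds hXφ) h2
  have ev4 : ∀ᶠ n in atTop, ∀ f ∈ F, ‖(ρ ((f : G₀) : D.Γ)).comp (Rn (φ n))‖ < η := by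
    rw [eventually_all_finite hFfin]
    intro f hf
    refine wx_ev (wx_tendsto_comp (tendsto_const_nhds (x := ρ ((f : G₀) : D.Γ))) hRφ) ?_
    rw [ContinuousLinearMap.comp_zero, norm_zero]
    exact hηpos
  have ev5 : ∀ᶠ n in atTop, ∀ f ∈ F, ∃ N : T →L[ℝ] T, ‖N‖ ≤ B1 + 1 ∧
      ∀ t, N (((Yn (φ n)).comp ((ρ ((f : G₀) : D.Γ)).comp (Xn (φ n)))) t) = t := by
    rw [eventually_all_finite hFfin]
    intro f hf
    have h1 : Tendsto (fun n => (Yn (φ n)).comp ((ρ ((f : G₀) : D.Γ)).comp (Xn (φ n))))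
        atTop (𝓝 (Y.comp ((ρ ((f : G₀) : D.Γ)).comp X))) :=
      wx_tendsto_comp hYφ (wx_tendsto_comp tendsto_const_nhds hXφ)
    have h2 : ∀ t, (Y.comp ((ρ ((f : G₀) : D.Γ)).comp X)) t = 0 → t = 0 :=
      fun t ht => hFP hf t ht
    exact wx_unit h1 h2 B1 (hB1 (Set.mem_image_of_mem _ hf))
  obtain ⟨n, hn1, hn2, hn3, hn4, hn5, hn6⟩ :=
    (ev1.and (ev2.and (ev3.and (ev4.and (ev5.and (eventually_ge_atTop n₀)))))).exists
  -- the walk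
  obtain ⟨g, hg⟩ : ∃ g : G₀, (g : D.Γ) = γ (φ n) := ⟨⟨γ (φ n), hγ _⟩, rfl⟩
  have hsel' : ∀ x : G₀, ‖S.base (x : D.Γ) - 1‖ ≤ 1 / 2 →
      ∃ f ∈ F, ‖S.base ((f * g * x : G₀) : D.Γ) - 1‖ ≤ 1 / 2 := by
    intro x hx
    obtain ⟨f, hf, h1⟩ := hsel n hn6 x hx
    refine ⟨f, hf, ?_⟩
    have h2 : g = ⟨γ (φ n), hγ _⟩ := Subtype.ext hg
    rw [h2]
    exact h1
  obtain ⟨w, hw0, hw1, hw2⟩ := wx_seq (fun x : G₀ => ‖S.base (x : D.Γ) - 1‖ ≤ 1 / 2)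
    (fun x y => ∃ f ∈ F, y = f * g * x) 1 (by simp) (by
      intro x hx
      obtain ⟨f, hf, h1⟩ := hsel' x hx
      exact ⟨f * g * x, h1, f, hf, rfl⟩)
  choose f hfF hw using hw2
  choose! N hNC hN using hn5
  have e1 : ∀ j, ((f j : G₀) : D.Γ) * (g : D.Γ) ∈ G₀ := fun j => G₀.mul_mem (f j).2 g.2
  have e2 : ((w 0 : G₀) : D.Γ) = 1 := by rw [hw0]; exact G₀.coe_one
  have e3 : ∀ j, ((w (j + 1) : G₀) : D.Γ) = ((f j : G₀) : D.Γ) * (g : D.Γ) *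
      ((w j : G₀) : D.Γ) := by
    intro j
    rw [hw j, G₀.coe_mul, G₀.coe_mul]
  have e4 : (Set.range (fun j => ((f j : G₀) : D.Γ) * (g : D.Γ))).Finite := by
    refine (hFfin.image (fun f : G₀ => ((f : G₀) : D.Γ) * (g : D.Γ))).subset ?_
    rintro _ ⟨j, rfl⟩
    exact Set.mem_image_of_mem _ (hfF j)
  have e5 : ∀ j v, ρ (((f j : G₀) : D.Γ) * (g : D.Γ)) v =
      ((ρ ((f j : G₀) : D.Γ)).comp (Xn (φ n))) (An (φ n) (Yn (φ n) v)) +
        ((ρ ((f j : G₀) : D.Γ)).comp (Rn (φ n))) v := by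
    intro j v
    rw [map_mul, ContinuousLinearMap.mul_apply, hg, hdec, map_add,
      ContinuousLinearMap.comp_apply, ContinuousLinearMap.comp_apply]
  have e6 : ∀ j t, N (f j) (Yn (φ n) (((ρ ((f j : G₀) : D.Γ)).comp (Xn (φ n))) t)) = t := by
    intro j t
    have h1 := hN _ (hfF j) t
    rw [ContinuousLinearMap.comp_apply] at h1
    exact h1
  have e7 : ∀ j, ‖N (f j)‖ ≤ C₁ := fun j => (hNC _ (hfF j)).trans hC3
  have e8 : ∀ j, ‖(ρ ((f j : G₀) : D.Γ)).comp (Xn (φ n))‖ ≤ C₁ := fun j => (hn3 _ (hfF j)).le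
  have e9 : ∀ j, ‖(ρ ((f j : G₀) : D.Γ)).comp (Rn (φ n))‖ ≤ η := fun j => (hn4 _ (hfF j)).le
  exact ⟨⟨fun j => ((f j : G₀) : D.Γ) * (g : D.Γ), fun j => ((w j : G₀) : D.Γ), C₁, η,
    An (φ n), An' (φ n), Yn (φ n), fun j => (ρ ((f j : G₀) : D.Γ)).comp (Xn (φ n)),
    fun j => N (f j), fun j => (ρ ((f j : G₀) : D.Γ)).comp (Rn (φ n)),
    e1, e2, e3, hw1, e4, hC1, hηpos.le, hηC, hA (φ n), hn1.le, hn2.le, e8, e7, e9, e6, e5⟩⟩

end Pool.AF
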