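import Pool.Agent.Helper94.AC.LineG
import Pool.Agent.Helper94.AC.WFalse
import Pool.Agent.Helper94.AC.WordsEx
import Pool.Agent.Helper94.AC.Svd
import Pool.Agent.Helper94.AC.TransS
import Pool.Agent.Helper94.AC.Full

/-!
# AC-34 RATIOW: the norms of an element and of its inverse are comparable on the quotient
# (uses the stubs AC-5, AC-9, AC-29, AC-33)

Notation: `M g = S.mat b g`, `m g = blk (M g)`, multiplicative in `g` (`blk_mul`), of determinant one for
`g ∈ G₀` (the first column of `M g` is `(χ, 0, 0, 0)`, `det (M g) = χ g * det (m g) = 1`, and `χ g = 1` for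
`g ∈ commutator D.Γ`, as `χ` is a homomorphism to a commutative group).

Proof. Suppose the contrary: for every `n : ℕ` there is `f n ∈ G₀`, bounded by `C` on the base together
with its inverse, with `nm (m (f n)⁻¹) < (1 / (n + 1)) * nm (m (f n))`. Let `γ n = (f n)⁻¹`. By
`exists_cartan` (`d = 3`), along a subsequence, `m (γ n) = P n * diagonal (t n) * Q n` is a Cartan
decomposition. `nm (m (γ n)) ≥ c * t n 0` with `c > 0` (for large `n`:
`(t n 0)⁻¹ • m (γ n)` stays away from `0`, as `P₀`, `Q₀` are invertible and the first diagonal entry of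
`(t n 0)⁻¹ • diagonal (t n)` is `1`) and `nm (m (γ n)⁻¹) ≤ C' / t n 2`. So `t n 0 * t n 2 → 0`; as the product
`t n 0 * t n 1 * t n 2` has a positive limit (determinant one), `t n 1 → ∞`, `t n 0 ≥ t n 1 → ∞`,
`t n 2 → 0`.

Step 1: words. Let `W = Fin 3 → ℝ`, `ρ g = ` the continuous linear map with the matrix `m g`
(`Matrix.toLin'`, `LinearMap.toContinuousLinearMap`, a homomorphism by `blk_mul`, `blk_one`),
`T = Fin 2 → ℝ`. Apply `exists_words` with `Xn n = P n ∘ (extension by zero)`,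
`Yn n = (first two coordinates) ∘ Q n`, `An n = diagonal (t n 0, t n 1)`,
`Rn n = P n * diagonal (0, 0, t n 2) * Q n` (see AC-6 `steer_mat`, `AC/SteerM.lean`, for the same
construction). `hdense`: `F f = lead 2 (Q₀ * m f * P₀)` is a polynomial function of `M f`; by
`Loc.dens` it is enough that `F f ≠ 0` for some `f ∈ G₀`. For a `3 × 3` matrix `A`,
`lead 2 A = A.adjugate 2 2 = det A * (A⁻¹) 2 2`, and `(Q₀ * m f * P₀)⁻¹ = P₀⁻¹ * m f⁻¹ * Q₀⁻¹`, whose
`(2, 2)` entry is a nonzero linear functional of `m f⁻¹`: use `LineGood.span`.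

Step 2: `LineExt`. `u₀ = b 0`, `s v` the coordinate `0` of `v` in the basis `b`, `π v` the other three,
`ι x = ∑ i, x i • b i.succ`. `fix`: `M g` has first column `(1, 0, 0, 0)` for `g ∈ G₀`.

Step 3: `words_false`. `hgen`: let `L₀` with `Y (π (L₀ θ)) = θ`, and let `x₁, x₂ ∈ Fin 4 → ℝ` be the coordinate
vectors of `L₀ e₀, L₀ e₁`: they are independent. By `trans_self` either there is `g ∈ G₀` with
`det [M g x₁, M g x₂, x₁, x₂] ≠ 0`, or there is an invariant `I`, which by `LineGood.inv` is `⊥`,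
`span {e₀}` or `⊤`: if `I ≠ ⊥`, `I ≤ span {x₁, x₂}` then `I = span {e₀}` and
`e₀ ∈ span {x₁, x₂}`, impossible since `Y ∘ π` is injective on the plane `L₀ T` and `π (b 0) = 0`; if
`I ≠ ⊤`, `span {x₁, x₂} ≤ I` then `I` has dimension `≤ 1`: impossible. So the polynomial function
`F q = det [M q x₁, M q x₂, x₁, x₂]` is not zero at some element of `G₀`. If `F q ≠ 0` then `q` is good for
`L₀`. `q ↦ ℓ (ρ q)` is a polynomial function, not zero on `G₀` by `LineGood.span`. By `Loc.prod` there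
is `q ∈ G₀` where both are not zero.
-/

open Set Filter Topology Matrix

set_option linter.unusedSectionVars false

namespace Pool.AF

open Pool.SV

private theorem rw_nm_nonneg {m n : Type*} [Fintype m] [Fintype n] (A : Matrix m n ℝ) :
    0 ≤ nm A := Finset.sum_nonneg (fun _ _ => Finset.sum_nonneg (fun _ _ => abs_nonneg _))

private theorem rw_entry_le {m n : Type*} [Fintype m] [Fintype n] (A : Matrix m n ℝ) (i : m)
    (j : n) : |A i j| ≤ nm A := by
  have h1 : |A i j| ≤ ∑ j, |A i j| :=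
    Finset.single_le_sum (f := fun j => |A i j|) (fun _ _ => abs_nonneg _) (Finset.mem_univ j)
  have h2 : ∑ j, |A i j| ≤ nm A :=
    Finset.single_le_sum (f := fun i => ∑ j, |A i j|)
      (fun _ _ => Finset.sum_nonneg (fun _ _ => abs_nonneg _)) (Finset.mem_univ i)
  exact h1.trans h2

private theorem rw_nm_mul {m n k : Type*} [Fintype m] [Fintype n] [Fintype k]
    (A : Matrix m n ℝ) (B : Matrix n k ℝ) : nm (A * B) ≤ nm A * nm B := by
  have h1 : nm (A * B) ≤ ∑ i, ∑ j, ∑ l, |A i l| * |B l j| := by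
    refine Finset.sum_le_sum (fun i _ => Finset.sum_le_sum (fun j _ => ?_))
    rw [Matrix.mul_apply]
    refine (Finset.abs_sum_le_sum_abs _ _).trans (Finset.sum_le_sum (fun l _ => ?_))
    rw [abs_mul]
  refine h1.trans ?_
  have h2 : ∀ i, ∑ j, ∑ l, |A i l| * |B l j| ≤ (∑ l, |A i l|) * nm B := by
    intro i
    rw [Finset.sum_comm, Finset.sum_mul]
    refine Finset.sum_le_sum (fun l _ => ?_)
    rw [← Finset.mul_sum]
    refine mul_le_mul_of_nonneg_left ?_ (abs_nonneg _)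
    exact Finset.single_le_sum (f := fun l => ∑ j, |B l j|)
      (fun _ _ => Finset.sum_nonneg (fun _ _ => abs_nonneg _)) (Finset.mem_univ l)
  refine (Finset.sum_le_sum (fun i _ => h2 i)).trans ?_
  rw [← Finset.sum_mul]
  rfl

private theorem rw_inv_tendsto {P : ℕ → Matrix (Fin 3) (Fin 3) ℝ} {P₀ : Matrix (Fin 3) (Fin 3) ℝ}
    (h : Tendsto P atTop (𝓝 P₀)) (h0 : P₀.det ≠ 0) :
    Tendsto (fun n => (P n)⁻¹) atTop (𝓝 P₀⁻¹) := by
  have h1 : Tendsto (fun n => (P n).det) atTop (𝓝 P₀.det) :=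
    ((continuous_id.matrix_det).tendsto P₀).comp h
  have h2 : Tendsto (fun n => (P n).adjugate) atTop (𝓝 P₀.adjugate) :=
    ((continuous_id.matrix_adjugate).tendsto P₀).comp h
  have h3 := (h1.inv₀ h0).smul h2
  refine (h3.congr (fun n => ?_)).trans_eq ?_
  · rw [Matrix.inv_def, Ring.inverse_eq_inv']
  · rw [Matrix.inv_def, Ring.inverse_eq_inv']

private theorem rw_nm_tendsto {P : ℕ → Matrix (Fin 3) (Fin 3) ℝ} {P₀ : Matrix (Fin 3) (Fin 3) ℝ}
    (h : Tendsto P atTop (𝓝 P₀)) : Tendsto (fun n => nm (P n)) atTop (𝓝 (nm P₀)) := by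
  unfold nm
  refine tendsto_finsetSum _ (fun i _ => tendsto_finsetSum _ (fun j _ => ?_))
  have h1 : Continuous (fun A : Matrix (Fin 3) (Fin 3) ℝ => |A i j|) :=
    (continuous_id.matrix_elem i j).abs
  exact (h1.tendsto P₀).comp h

private theorem rw_cartan (A : ℕ → Matrix (Fin 3) (Fin 3) ℝ) (hdet : ∀ n, (A n).det = 1)
    (hr : ∀ n, nm (A n) < (1 / (n + 1)) * nm (A n)⁻¹) :
    ∃ (φ : ℕ → ℕ) (P Q : ℕ → Matrix (Fin 3) (Fin 3) ℝ) (t : ℕ → Fin 3 → ℝ)
      (P₀ Q₀ : Matrix (Fin 3) (Fin 3) ℝ), Cartan (fun n => A (φ n)) P Q t P₀ Q₀ ∧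
      Tendsto (fun n => t n 0) atTop atTop ∧ Tendsto (fun n => t n 1) atTop atTop ∧
      Tendsto (fun n => t n 2) atTop (𝓝 0) := by
  obtain ⟨φ, P, Q, t, P₀, Q₀, hφ, hC, -⟩ := exists_cartan A (fun n => by
    rw [hdet]; exact one_ne_zero)
  have hPi := rw_inv_tendsto hC.limP hC.detP
  have hQi := rw_inv_tendsto hC.limQ hC.detQ
  set a := nm P₀⁻¹ + 1 with ha
  set b := nm Q₀⁻¹ + 1 with hb
  have ha0 : 0 < a := by have := rw_nm_nonneg P₀⁻¹; linarith
  have hb0 : 0 < b := by have := rw_nm_nonneg Q₀⁻¹; linarith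
  have ev1 : ∀ᶠ n in atTop, nm (P n)⁻¹ < a :=
    (rw_nm_tendsto hPi).eventually_lt_const (by rw [ha]; linarith)
  have ev2 : ∀ᶠ n in atTop, nm (Q n)⁻¹ < b :=
    (rw_nm_tendsto hQi).eventually_lt_const (by rw [hb]; linarith)
  have hdP : Tendsto (fun n => (P n).det) atTop (𝓝 P₀.det) :=
    ((continuous_id.matrix_det).tendsto P₀).comp hC.limP
  have hdQ : Tendsto (fun n => (Q n).det) atTop (𝓝 Q₀.det) :=
    ((continuous_id.matrix_det).tendsto Q₀).comp hC.limQ
  have ev3 : ∀ᶠ n in atTop, (P n).det ≠ 0 := hdP.eventually_ne hC.detP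
  have ev4 : ∀ᶠ n in atTop, (Q n).det ≠ 0 := hdQ.eventually_ne hC.detQ
  -- the product of the extreme ones
  have key : ∀ᶠ n in atTop, t n 0 * t n 2 ≤ 3 * (a * b) ^ 2 * (1 / ((φ n : ℝ) + 1)) := by
    filter_upwards [ev1, ev2, ev3, ev4] with n h1 h2 h3 h4
    have hP : IsUnit (P n).det := isUnit_iff_ne_zero.2 h3
    have hQ : IsUnit (Q n).det := isUnit_iff_ne_zero.2 h4
    have hdec : A (φ n) = P n * Matrix.diagonal (t n) * Q n := hC.dec n
    have k1 : Matrix.diagonal (t n) = (P n)⁻¹ * A (φ n) * (Q n)⁻¹ := by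
      rw [hdec]
      calc Matrix.diagonal (t n) = ((P n)⁻¹ * P n) * Matrix.diagonal (t n) * (Q n * (Q n)⁻¹) := by
            rw [Matrix.nonsing_inv_mul _ hP, Matrix.mul_nonsing_inv _ hQ, one_mul, mul_one]
        _ = _ := by simp only [Matrix.mul_assoc]
    have k2 : t n 0 ≤ a * nm (A (φ n)) * b := by
      have e1 : t n 0 = (Matrix.diagonal (t n)) 0 0 := by simp
      have e2 := rw_entry_le (Matrix.diagonal (t n)) 0 0
      have e3 : nm (Matrix.diagonal (t n)) ≤ nm (P n)⁻¹ * nm (A (φ n)) * nm (Q n)⁻¹ := by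
        conv_lhs => rw [k1]
        refine (rw_nm_mul _ _).trans ?_
        exact mul_le_mul_of_nonneg_right (rw_nm_mul _ _) (rw_nm_nonneg _)
      have e4 : nm (P n)⁻¹ * nm (A (φ n)) * nm (Q n)⁻¹ ≤ a * nm (A (φ n)) * b := by
        have p1 := rw_nm_nonneg (P n)⁻¹
        have p2 := rw_nm_nonneg (Q n)⁻¹
        have p3 := rw_nm_nonneg (A (φ n))
        gcongr
      calc t n 0 ≤ |t n 0| := le_abs_self _
        _ = |(Matrix.diagonal (t n)) 0 0| := by rw [← e1]
        _ ≤ _ := e2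
        _ ≤ _ := e3
        _ ≤ _ := e4
    have k3 : nm (A (φ n))⁻¹ * t n 2 ≤ 3 * (a * b) := by
      have d0 : Matrix.diagonal (t n) * Matrix.diagonal (fun i => (t n i)⁻¹) = 1 := by
        rw [Matrix.diagonal_mul_diagonal]
        have h1 : (fun i => t n i * (t n i)⁻¹) = fun _ : Fin 3 => (1 : ℝ) := by
          funext i
          exact mul_inv_cancel₀ (hC.pos n i).ne'
        rw [h1, Matrix.diagonal_one]
      have e1 : (A (φ n))⁻¹ = (Q n)⁻¹ * Matrix.diagonal (fun i => (t n i)⁻¹) * (P n)⁻¹ := by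
        apply Matrix.inv_eq_right_inv
        rw [hdec]
        calc P n * Matrix.diagonal (t n) * Q n *
              ((Q n)⁻¹ * Matrix.diagonal (fun i => (t n i)⁻¹) * (P n)⁻¹)
            = P n * (Matrix.diagonal (t n) * (Q n * (Q n)⁻¹) *
              Matrix.diagonal (fun i => (t n i)⁻¹)) * (P n)⁻¹ := by
              simp only [Matrix.mul_assoc]
          _ = 1 := by
            rw [Matrix.mul_nonsing_inv _ hQ, mul_one, d0, mul_one, Matrix.mul_nonsing_inv _ hP]
      have e2 : nm (Matrix.diagonal (fun i => (t n i)⁻¹)) ≤ 3 * (t n 2)⁻¹ := by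
        have f1 : ∀ i : Fin 3, (t n i)⁻¹ ≤ (t n 2)⁻¹ := fun i =>
          inv_anti₀ (hC.pos n 2) (hC.anti n (Fin.le_last i))
        have f2 : nm (Matrix.diagonal (fun i => (t n i)⁻¹)) = (t n 0)⁻¹ + (t n 1)⁻¹ + (t n 2)⁻¹ := by
          have g0 := (inv_pos.2 (hC.pos n 0)).le
          have g1 := (inv_pos.2 (hC.pos n 1)).le
          have g2 := (inv_pos.2 (hC.pos n 2)).le
          simp [nm, Fin.sum_univ_three, Matrix.diagonal_apply, abs_of_nonneg g0,
            abs_of_nonneg g1, abs_of_nonneg g2]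
        rw [f2]
        have := f1 0
        have := f1 1
        linarith
      have e3 : nm (A (φ n))⁻¹ ≤ b * (3 * (t n 2)⁻¹) * a := by
        rw [e1]
        refine (rw_nm_mul _ _).trans ?_
        have q1 : nm ((Q n)⁻¹ * Matrix.diagonal (fun i => (t n i)⁻¹)) ≤ b * (3 * (t n 2)⁻¹) := by
          refine (rw_nm_mul _ _).trans ?_
          exact mul_le_mul h2.le e2 (rw_nm_nonneg _) hb0.le
        have q2 := (inv_pos.2 (hC.pos n 2)).le
        exact mul_le_mul q1 h1.le (rw_nm_nonneg _) (by positivity)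
      calc nm (A (φ n))⁻¹ * t n 2 ≤ b * (3 * (t n 2)⁻¹) * a * t n 2 :=
            mul_le_mul_of_nonneg_right e3 (hC.pos n 2).le
        _ = 3 * (a * b) * ((t n 2)⁻¹ * t n 2) := by ring
        _ = 3 * (a * b) := by rw [inv_mul_cancel₀ (hC.pos n 2).ne', mul_one]
    have k4 := (hr (φ n)).le
    have hδ : (0:ℝ) ≤ 1 / ((φ n : ℝ) + 1) := by positivity
    calc t n 0 * t n 2 ≤ (a * nm (A (φ n)) * b) * t n 2 :=
          mul_le_mul_of_nonneg_right k2 (hC.pos n 2).le
      _ ≤ (a * ((1 / ((φ n : ℝ) + 1)) * nm (A (φ n))⁻¹) * b) * t n 2 := by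
          have := (hC.pos n 2).le
          gcongr
      _ = (a * b) * (1 / ((φ n : ℝ) + 1)) * (nm (A (φ n))⁻¹ * t n 2) := by ring
      _ ≤ (a * b) * (1 / ((φ n : ℝ) + 1)) * (3 * (a * b)) := by
          apply mul_le_mul_of_nonneg_left k3; positivity
      _ = 3 * (a * b) ^ 2 * (1 / ((φ n : ℝ) + 1)) := by ring
  have hlim0 : Tendsto (fun n => t n 0 * t n 2) atTop (𝓝 0) := by
    have h1 : Tendsto (fun n => 3 * (a * b) ^ 2 * (1 / ((φ n : ℝ) + 1))) atTop (𝓝 0) := by
      have h2 := (tendsto_one_div_add_atTop_nhds_zero_nat (𝕜 := ℝ)).comp hφ.tendsto_atTop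
      have h3 := h2.const_mul (3 * (a * b) ^ 2)
      rw [mul_zero] at h3
      exact h3
    refine squeeze_zero' (Eventually.of_forall (fun n => ?_)) key h1
    exact (mul_pos (hC.pos n 0) (hC.pos n 2)).le
  -- the product of all
  have hprod : ∀ n, t n 0 * t n 1 * t n 2 * ((P n).det * (Q n).det) = 1 := by
    intro n
    have h1 := hdet (φ n)
    have h2 : A (φ n) = P n * Matrix.diagonal (t n) * Q n := hC.dec n
    rw [h2, Matrix.det_mul, Matrix.det_mul, Matrix.det_diagonal, Fin.prod_univ_three] at h1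
    linarith
  have hpq : Tendsto (fun n => ((P n).det * (Q n).det)⁻¹) atTop (𝓝 (P₀.det * Q₀.det)⁻¹) :=
    (hdP.mul hdQ).inv₀ (mul_ne_zero hC.detP hC.detQ)
  have hall : ∀ n, t n 0 * t n 1 * t n 2 = ((P n).det * (Q n).det)⁻¹ := fun n =>
    eq_inv_of_mul_eq_one_left (hprod n)
  have hδ : 0 < (P₀.det * Q₀.det)⁻¹ := by
    have h1 : 0 ≤ (P₀.det * Q₀.det)⁻¹ := by
      refine ge_of_tendsto hpq (Eventually.of_forall (fun n => ?_))
      rw [← hall]
      exact (mul_pos (mul_pos (hC.pos n 0) (hC.pos n 1)) (hC.pos n 2)).le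
    exact lt_of_le_of_ne h1 (inv_ne_zero (mul_ne_zero hC.detP hC.detQ)).symm
  have h0pos : Tendsto (fun n => t n 0 * t n 2) atTop (𝓝[>] 0) := by
    rw [tendsto_nhdsWithin_iff]
    exact ⟨hlim0, Eventually.of_forall (fun n => mul_pos (hC.pos n 0) (hC.pos n 2))⟩
  have ht1 : Tendsto (fun n => t n 1) atTop atTop := by
    have h1 : Tendsto (fun n => (t n 0 * t n 2)⁻¹) atTop atTop := h0pos.inv_tendsto_nhdsGT_zero
    have h2 := Tendsto.pos_mul_atTop hδ hpq h1
    refine h2.congr (fun n => ?_)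
    rw [← hall]
    have := (hC.pos n 0).ne'
    have := (hC.pos n 2).ne'
    field_simp
  have ht0 : Tendsto (fun n => t n 0) atTop atTop :=
    tendsto_atTop_mono (fun n => hC.anti n (Fin.zero_le 1)) ht1
  have ht2 : Tendsto (fun n => t n 2) atTop (𝓝 0) := by
    have h1 : Tendsto (fun n => (t n 0)⁻¹) atTop (𝓝 0) := tendsto_inv_atTop_zero.comp ht0
    have h2 := hlim0.mul h1
    rw [mul_zero] at h2
    refine h2.congr (fun n => ?_)
    have := (hC.pos n 0).ne'
    field_simp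
  exact ⟨φ, P, Q, t, P₀, Q₀, hC, ht0, ht1, ht2⟩

section mv

variable {m n : Type*} [Fintype m] [Fintype n] [DecidableEq n]

/-- The continuous linear map of a matrix. -/
private noncomputable def rwmv : Matrix m n ℝ →ₗ[ℝ] ((n → ℝ) →L[ℝ] (m → ℝ)) :=
  (LinearMap.toContinuousLinearMap : ((n → ℝ) →ₗ[ℝ] (m → ℝ)) ≃ₗ[ℝ] _).toLinearMap ∘ₗ
    (Matrix.toLin' : Matrix m n ℝ ≃ₗ[ℝ] _).toLinearMap

private theorem rwmv_apply (A : Matrix m n ℝ) (v : n → ℝ) : rwmv A v = A *ᵥ v := rfl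

private theorem rwmv_tendsto {A : ℕ → Matrix m n ℝ} {A0 : Matrix m n ℝ}
    (h : Tendsto A atTop (𝓝 A0)) : Tendsto (fun k => rwmv (A k)) atTop (𝓝 (rwmv A0)) := by
  have h1 : Continuous (rwmv : Matrix m n ℝ →ₗ[ℝ] ((n → ℝ) →L[ℝ] (m → ℝ))) :=
    LinearMap.continuous_of_finiteDimensional _
  exact (h1.tendsto A0).comp h

end mv

private theorem rw_split (P Q : Matrix (Fin 3) (Fin 3) ℝ) (t : Fin 3 → ℝ) :
    P * Matrix.diagonal t * Q =
      P.submatrix id (Fin.castSucc : Fin 2 → Fin 3) *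
        Matrix.diagonal (fun i : Fin 2 => t i.castSucc) *
        Q.submatrix (Fin.castSucc : Fin 2 → Fin 3) id +
      P * Matrix.diagonal (fun i : Fin 3 => if i = 2 then t 2 else 0) * Q := by
  ext a c
  rw [Matrix.add_apply, Matrix.mul_apply, Matrix.mul_apply, Matrix.mul_apply]
  simp only [Matrix.mul_diagonal, Matrix.submatrix_apply, id]
  simp [Fin.sum_univ_three, Fin.sum_univ_two]

/-- The leading minor of size two and the inverse. -/
private theorem rw_minor (A : Matrix (Fin 3) (Fin 3) ℝ)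
    (h : (A.submatrix (Fin.castSucc : Fin 2 → Fin 3) (Fin.castSucc : Fin 2 → Fin 3)).det = 0) :
    A⁻¹ 2 2 = 0 := by
  rw [Matrix.inv_def, Matrix.smul_apply]
  have h1 : A.adjugate 2 2 = 0 := by
    rw [Matrix.adjugate_fin_three]
    rw [Matrix.det_fin_two] at h
    simp at h ⊢
    linarith
  rw [h1, smul_zero]

section

variable {E : Type*} [NormedAddCommGroup E] [NormedSpace ℝ E] [FiniteDimensional ℝ E]
  {D : Geo E}

private theorem rw_chi (S : InvSub D) (b : Module.Basis (Fin 4) ℝ S.U) (G₀ : Subgroup D.Γ)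
    (hG : S.LineGood b G₀) (g : D.Γ) (hg : g ∈ G₀) : S.mat b g 0 0 = 1 := by
  let χ : D.Γ →* ℝ :=
    { toFun := fun g => S.mat b g 0 0
      map_one' := by rw [map_one]; simp
      map_mul' := fun g h => by
        rw [map_mul, Matrix.mul_apply, Fin.sum_univ_succ]
        have : ∀ i : Fin 3, S.mat b g 0 i.succ * S.mat b h i.succ 0 = 0 := fun i => by
          rw [hG.line h i, mul_zero]
        rw [Finset.sum_congr rfl (fun i _ => this i), Finset.sum_const_zero, add_zero] }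
  let f : D.Γ →* ℝˣ := χ.toHomUnits
  have h1 : commutator D.Γ ≤ f.ker := by
    rw [commutator_def, Subgroup.commutator_le]
    intro a _ b _
    rw [MonoidHom.mem_ker, map_commutatorElement]
    exact commutatorElement_eq_one_iff_mul_comm.2 (mul_comm _ _)
  have h2 := h1 (hG.le hg)
  rw [MonoidHom.mem_ker] at h2
  have h3 := congrArg Units.val h2
  exact h3

private theorem rw_det (S : InvSub D) (b : Module.Basis (Fin 4) ℝ S.U) (G₀ : Subgroup D.Γ)
    (hG : S.LineGood b G₀) (g : D.Γ) (hg : g ∈ G₀) : (blk (S.mat b g)).det = 1 := by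
  have h1 := mat_det S b g (hG.le hg)
  rw [Matrix.det_succ_column_zero, Fin.sum_univ_succ] at h1
  have h2 : ∀ i : Fin 3, (-1 : ℝ) ^ ((i.succ : Fin 4) : ℕ) * S.mat b g i.succ 0 *
      ((S.mat b g).submatrix i.succ.succAbove Fin.succ).det = 0 := fun i => by
    rw [hG.line g i, mul_zero, zero_mul]
  rw [Finset.sum_congr rfl (fun i _ => h2 i), Finset.sum_const_zero, add_zero, rw_chi S b G₀ hG g hg]
    at h1
  simpa [blk] using h1

private noncomputable def rwρ (S : InvSub D) (b : Module.Basis (Fin 4) ℝ S.U)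
    (hline : ∀ g : D.Γ, ∀ i : Fin 3, S.mat b g i.succ 0 = 0) :
    D.Γ →* ((Fin 3 → ℝ) →L[ℝ] (Fin 3 → ℝ)) where
  toFun g := rwmv (blk (S.mat b g))
  map_one' := by
    rw [map_one, blk_one]
    ext v i
    rw [one_apply_eq_self]
    simp [rwmv_apply]
  map_mul' g h := by
    rw [map_mul, blk_mul _ _ (hline g)]
    ext v i
    rw [mul_apply_eq_comp]
    simp only [rwmv_apply]
    rw [Matrix.mulVec_mulVec]

private theorem rwρ_apply (S : InvSub D) (b : Module.Basis (Fin 4) ℝ S.U)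
    (hline : ∀ g : D.Γ, ∀ i : Fin 3, S.mat b g i.succ 0 = 0) (g : D.Γ) (v : Fin 3 → ℝ) :
    rwρ S b hline g v = blk (S.mat b g) *ᵥ v := rfl

private theorem rw_mat (S : InvSub D) (b : Module.Basis (Fin 4) ℝ S.U) (g : D.Γ) (u : S.U) :
    b.equivFunL (S.rep g u) = S.mat b g *ᵥ b.equivFunL u := by
  have h1 := LinearMap.toMatrix_mulVec_repr b b (S.lrep g) u
  exact h1.symm

/-- The extension by zero. -/
private noncomputable def rwinc : (Fin 3 → ℝ) →L[ℝ] (Fin 4 → ℝ) :=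
  LinearMap.toContinuousLinearMap
    { toFun := fun x => Fin.cons 0 x
      map_add' := fun x y => by
        funext i
        refine Fin.cases ?_ (fun j => ?_) i
        · simp
        · simp
      map_smul' := fun c x => by
        funext i
        refine Fin.cases ?_ (fun j => ?_) i
        · simp
        · simp }

private theorem rwinc_zero (x : Fin 3 → ℝ) : rwinc x 0 = 0 := rfl
private theorem rwinc_succ (x : Fin 3 → ℝ) (i : Fin 3) : rwinc x i.succ = x i := rfl

/-- The last three coordinates. -/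
private noncomputable def rwres : (Fin 4 → ℝ) →L[ℝ] (Fin 3 → ℝ) :=
  ContinuousLinearMap.pi (fun i : Fin 3 => ContinuousLinearMap.proj i.succ)

private theorem rwres_apply (x : Fin 4 → ℝ) (i : Fin 3) : rwres x i = x i.succ := rfl

private noncomputable def rw_ext (S : InvSub D) (b : Module.Basis (Fin 4) ℝ S.U)
    (G₀ : Subgroup D.Γ) (hG : S.LineGood b G₀) : LineExt S G₀ (rwρ S b hG.line) where
  u₀ := b.equivFunL.symm (Pi.single 0 1)
  s := (ContinuousLinearMap.proj (R := ℝ) (φ := fun _ : Fin 4 => ℝ) 0).comp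
    (b.equivFunL : S.U →L[ℝ] (Fin 4 → ℝ))
  π := rwres.comp (b.equivFunL : S.U →L[ℝ] (Fin 4 → ℝ))
  ι := (b.equivFunL.symm : (Fin 4 → ℝ) →L[ℝ] S.U).comp rwinc
  su := by
    change (b.equivFunL (b.equivFunL.symm (Pi.single 0 1))) 0 = 1
    rw [b.equivFunL.apply_symm_apply]
    simp
  πu := by
    change rwres (b.equivFunL (b.equivFunL.symm (Pi.single 0 1))) = 0
    rw [b.equivFunL.apply_symm_apply]
    funext i
    rw [rwres_apply]
    simp
  sι := fun x => by
    change (b.equivFunL (b.equivFunL.symm (rwinc x))) 0 = 0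
    rw [b.equivFunL.apply_symm_apply, rwinc_zero]
  πι := fun x => by
    change rwres (b.equivFunL (b.equivFunL.symm (rwinc x))) = x
    rw [b.equivFunL.apply_symm_apply]
    funext i
    rw [rwres_apply, rwinc_succ]
  split := fun v => by
    apply b.equivFunL.injective
    change b.equivFunL v = b.equivFunL ((b.equivFunL v 0) • b.equivFunL.symm (Pi.single 0 1) +
      b.equivFunL.symm (rwinc (rwres (b.equivFunL v))))
    rw [map_add, map_smul, b.equivFunL.apply_symm_apply, b.equivFunL.apply_symm_apply]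
    funext i
    refine Fin.cases ?_ (fun j => ?_) i
    · rw [Pi.add_apply, Pi.smul_apply, rwinc_zero]
      simp
    · rw [Pi.add_apply, Pi.smul_apply, rwinc_succ, rwres_apply]
      simp
  fix := fun g hg => by
    apply b.equivFunL.injective
    rw [rw_mat, b.equivFunL.apply_symm_apply]
    funext i
    rw [Matrix.mulVec_single_one]
    refine Fin.cases ?_ (fun j => ?_) i
    · rw [Matrix.col_apply, rw_chi S b G₀ hG g hg]
      simp
    · rw [Matrix.col_apply, hG.line g j]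
      simp
  equiv := fun g v => by
    change rwres (b.equivFunL (S.rep g v)) = blk (S.mat b g) *ᵥ rwres (b.equivFunL v)
    rw [rw_mat]
    funext i
    rw [rwres_apply, Matrix.mulVec, dotProduct, Fin.sum_univ_succ, hG.line g i, zero_mul, zero_add]
    rfl

end

section

variable {E : Type*} [NormedAddCommGroup E] [NormedSpace ℝ E] [FiniteDimensional ℝ E]
  {D : Geo E}

private theorem rw_tendsto_comp {A B C : Type*} [NormedAddCommGroup A] [NormedSpace ℝ A]
    [NormedAddCommGroup B] [NormedSpace ℝ B] [NormedAddCommGroup C] [NormedSpace ℝ C]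
    {f : ℕ → B →L[ℝ] C} {g : ℕ → A →L[ℝ] B} {f0 : B →L[ℝ] C} {g0 : A →L[ℝ] B}
    (hf : Tendsto f atTop (𝓝 f0)) (hg : Tendsto g atTop (𝓝 g0)) :
    Tendsto (fun n => (f n).comp (g n)) atTop (𝓝 (f0.comp g0)) :=
  ((continuous_fst.clm_comp continuous_snd).tendsto (f0, g0)).comp (hf.prodMk_nhds hg)

/-- The linear map `B ↦ (A * blk B * C) i j`. -/
private theorem rw_dense (S : InvSub D) (b : Module.Basis (Fin 4) ℝ S.U) (G₀ : Subgroup D.Γ)
    (hG : S.LineGood b G₀) (P₀ Q₀ : Matrix (Fin 3) (Fin 3) ℝ) (hP : P₀.det ≠ 0)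
    (hQ : Q₀.det ≠ 0) : ∀ g ∈ G₀, ∀ ε : ℝ, 0 < ε → ∃ f ∈ G₀, ‖S.base f - S.base g‖ < ε ∧
      ((Q₀ * blk (S.mat b f) * P₀).submatrix (Fin.castSucc : Fin 2 → Fin 3)
        (Fin.castSucc : Fin 2 → Fin 3)).det ≠ 0 := by
  have hpoly : IsPoly (fun g => S.mat b g) (fun f =>
      ((Q₀ * blk (S.mat b f) * P₀).submatrix (Fin.castSucc : Fin 2 → Fin 3)
        (Fin.castSucc : Fin 2 → Fin 3)).det) := by
    refine IsPolyM.det (IsPolyM.submatrix ?_ _ _)
    refine IsPolyM.mul (IsPolyM.mul (IsPolyM.const _) ?_) (IsPolyM.const _)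
    exact IsPolyM.submatrix IsPolyM.self _ _
  refine hG.loc.dens _ hpoly ?_
  by_contra hcon
  push Not at hcon
  have hPu : IsUnit P₀.det := isUnit_iff_ne_zero.2 hP
  have hQu : IsUnit Q₀.det := isUnit_iff_ne_zero.2 hQ
  -- the linear functional
  let ℓ : Matrix (Fin 3) (Fin 3) ℝ →ₗ[ℝ] ℝ :=
    { toFun := fun B => (P₀⁻¹ * B * Q₀⁻¹) 2 2
      map_add' := fun A B => by rw [Matrix.mul_add, Matrix.add_mul, Matrix.add_apply]
      map_smul' := fun c A => by
        rw [Matrix.mul_smul, Matrix.smul_mul, Matrix.smul_apply, RingHom.id_apply] }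
  have h1 : ℓ = 0 := by
    apply hG.span
    intro g hg
    have hg' : g⁻¹ ∈ G₀ := G₀.inv_mem hg
    have h2 := hcon g⁻¹ hg'
    have hdet : (Q₀ * blk (S.mat b g⁻¹) * P₀).det ≠ 0 := by
      rw [Matrix.det_mul, Matrix.det_mul, rw_det S b G₀ hG _ hg', mul_one]
      exact mul_ne_zero hQ hP
    have h3 := rw_minor _ h2
    have h4 : (Q₀ * blk (S.mat b g⁻¹) * P₀)⁻¹ = P₀⁻¹ * blk (S.mat b g) * Q₀⁻¹ := by
      apply Matrix.inv_eq_right_inv
      have h5 : blk (S.mat b g⁻¹) * blk (S.mat b g) = 1 := by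
        rw [← blk_mul _ _ (hG.line g⁻¹), ← map_mul, inv_mul_cancel, map_one, blk_one]
      calc Q₀ * blk (S.mat b g⁻¹) * P₀ * (P₀⁻¹ * blk (S.mat b g) * Q₀⁻¹)
          = Q₀ * (blk (S.mat b g⁻¹) * (P₀ * P₀⁻¹) * blk (S.mat b g)) * Q₀⁻¹ := by
            simp only [Matrix.mul_assoc]
        _ = 1 := by
          rw [Matrix.mul_nonsing_inv _ hPu, mul_one, h5, mul_one, Matrix.mul_nonsing_inv _ hQu]
    rw [h4] at h3
    exact h3
  have h2 := LinearMap.congr_fun h1 (P₀ * Q₀)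
  have h3 : ℓ (P₀ * Q₀) = 1 := by
    change (P₀⁻¹ * (P₀ * Q₀) * Q₀⁻¹) 2 2 = 1
    have : P₀⁻¹ * (P₀ * Q₀) * Q₀⁻¹ = 1 := by
      calc P₀⁻¹ * (P₀ * Q₀) * Q₀⁻¹ = (P₀⁻¹ * P₀) * (Q₀ * Q₀⁻¹) := by
            simp only [Matrix.mul_assoc]
        _ = 1 := by
          rw [Matrix.nonsing_inv_mul _ hPu, Matrix.mul_nonsing_inv _ hQu, mul_one]
    rw [this]
    simp
  rw [h3, LinearMap.zero_apply] at h2
  exact one_ne_zero h2

private theorem rw_words (S : InvSub D) (b : Module.Basis (Fin 4) ℝ S.U) (G₀ : Subgroup D.Γ)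
    (hG : S.LineGood b G₀) (γ : ℕ → D.Γ) (hγ : ∀ n, γ n ∈ G₀) (C : ℝ)
    (hb : ∀ n, ‖S.base (γ n)‖ ≤ C) (hb' : ∀ n, ‖S.base (γ n)⁻¹‖ ≤ C)
    (P Q : ℕ → Matrix (Fin 3) (Fin 3) ℝ) (t : ℕ → Fin 3 → ℝ) (P₀ Q₀ : Matrix (Fin 3) (Fin 3) ℝ)
    (hC : Cartan (fun n => blk (S.mat b (γ n))) P Q t P₀ Q₀)
    (h0 : Tendsto (fun n => t n 0) atTop atTop) (h1 : Tendsto (fun n => t n 1) atTop atTop)
    (h2 : Tendsto (fun n => t n 2) atTop (𝓝 0)) :
    Nonempty (Words S G₀ (Fin 2 → ℝ) (rwρ S b hG.line)) := by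
  set c : Fin 2 → Fin 3 := Fin.castSucc with hc
  set R2 : ℕ → Matrix (Fin 3) (Fin 3) ℝ := fun n =>
    P n * Matrix.diagonal (fun i : Fin 3 => if i = 2 then t n 2 else 0) * Q n with hR2
  have hsubP : Tendsto (fun n => (P n).submatrix id c) atTop (𝓝 (P₀.submatrix id c)) := by
    have h1 : Continuous (fun A : Matrix (Fin 3) (Fin 3) ℝ =>
        A.submatrix (id : Fin 3 → Fin 3) c) := continuous_id.matrix_submatrix _ _
    exact (h1.tendsto P₀).comp hC.limP
  have hsubQ : Tendsto (fun n => (Q n).submatrix c id) atTop (𝓝 (Q₀.submatrix c id)) := by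
    have h1 : Continuous (fun A : Matrix (Fin 3) (Fin 3) ℝ =>
        A.submatrix c (id : Fin 3 → Fin 3)) := continuous_id.matrix_submatrix _ _
    exact (h1.tendsto Q₀).comp hC.limQ
  have htc : ∀ i : Fin 2, Tendsto (fun n => t n (c i)) atTop atTop := by
    intro i
    fin_cases i
    · exact h0
    · exact h1
  refine exists_words D S G₀ (rwρ S b hG.line) γ hγ C hb hb'
    (fun n => rwmv ((P n).submatrix id c))
    (fun n => rwmv (Matrix.diagonal (fun i => t n (c i))))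
    (fun n => rwmv (Matrix.diagonal (fun i => (t n (c i))⁻¹)))
    (fun n => rwmv ((Q n).submatrix c id)) (fun n => rwmv (R2 n))
    (rwmv (P₀.submatrix id c)) (rwmv (Q₀.submatrix c id)) ?_ ?_ ?_ ?_ ?_ ?_ ?_
  · intro n u
    rw [rwρ_apply]
    have e3 : blk (S.mat b (γ n)) = P n * Matrix.diagonal (t n) * Q n := hC.dec n
    rw [e3, rw_split (P n) (Q n) (t n), Matrix.add_mulVec, rwmv_apply, rwmv_apply, rwmv_apply,
      rwmv_apply, Matrix.mulVec_mulVec, Matrix.mulVec_mulVec, Matrix.mul_assoc]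
  · intro n x
    rw [rwmv_apply, rwmv_apply, Matrix.mulVec_mulVec, Matrix.diagonal_mul_diagonal]
    have h1 : (fun i => (t n (c i))⁻¹ * t n (c i)) = fun _ : Fin 2 => (1 : ℝ) := by
      funext i
      exact inv_mul_cancel₀ (hC.pos n (c i)).ne'
    rw [h1, Matrix.diagonal_one, Matrix.one_mulVec]
  · have h1 : Tendsto (fun n => Matrix.diagonal (fun i : Fin 2 => (t n (c i))⁻¹)) atTop
        (𝓝 (Matrix.diagonal (fun _ : Fin 2 => (0 : ℝ)))) := by
      have h2 : Tendsto (fun n => fun i : Fin 2 => (t n (c i))⁻¹) atTop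
          (𝓝 (fun _ : Fin 2 => (0 : ℝ))) := by
        rw [tendsto_pi_nhds]
        intro i
        exact tendsto_inv_atTop_zero.comp (htc i)
      have h3 : Continuous (fun v : Fin 2 → ℝ => Matrix.diagonal v) :=
        continuous_id.matrix_diagonal
      exact (h3.tendsto _).comp h2
    have h4 := (rwmv_tendsto h1).norm
    have h5 : (rwmv (Matrix.diagonal (fun _ : Fin 2 => (0 : ℝ))) :
        (Fin 2 → ℝ) →L[ℝ] (Fin 2 → ℝ)) = 0 := by
      rw [show (Matrix.diagonal (fun _ : Fin 2 => (0 : ℝ))) = 0 from Matrix.diagonal_zero, map_zero]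
    rw [h5, norm_zero] at h4
    exact h4
  · have h1 : Tendsto R2 atTop (𝓝 (P₀ * Matrix.diagonal (fun _ : Fin 3 => (0 : ℝ)) * Q₀)) := by
      have h3 : Tendsto (fun n => fun i : Fin 3 => if i = 2 then t n 2 else (0 : ℝ))
          atTop (𝓝 (fun _ : Fin 3 => (0 : ℝ))) := by
        rw [tendsto_pi_nhds]
        intro i
        by_cases hi : i = 2
        · simp only [hi, if_true]
          exact h2
        · simp only [hi, if_false]
          exact tendsto_const_nhds
      have h4 : Continuous (fun v : Fin 3 → ℝ => Matrix.diagonal v) :=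
        continuous_id.matrix_diagonal
      exact (hC.limP.mul ((h4.tendsto _).comp h3)).mul hC.limQ
    have h5 : P₀ * Matrix.diagonal (fun _ : Fin 3 => (0 : ℝ)) * Q₀ = 0 := by
      rw [show (Matrix.diagonal (fun _ : Fin 3 => (0 : ℝ))) = 0 from Matrix.diagonal_zero,
        mul_zero, zero_mul]
    rw [h5] at h1
    have h6 := (rwmv_tendsto h1).norm
    rw [map_zero, norm_zero] at h6
    exact h6
  · exact rwmv_tendsto hsubP
  · exact rwmv_tendsto hsubQ
  · intro g hg ε hε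
    obtain ⟨f, hf, h1, h2⟩ := rw_dense S b G₀ hG P₀ Q₀ hC.detP hC.detQ g hg ε hε
    refine ⟨f, hf, h1, fun x hx => ?_⟩
    have h3 : rwmv (Q₀.submatrix c id) (rwρ S b hG.line f (rwmv (P₀.submatrix id c) x)) =
        ((Q₀ * blk (S.mat b f) * P₀).submatrix c c) *ᵥ x := by
      rw [rwmv_apply, rwρ_apply, rwmv_apply, Matrix.mulVec_mulVec, Matrix.mulVec_mulVec]
      congr 1
    rw [h3] at hx
    exact Matrix.eq_zero_of_mulVec_eq_zero h2 hx

private theorem rw_hgen (S : InvSub D) (b : Module.Basis (Fin 4) ℝ S.U) (G₀ : Subgroup D.Γ)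
    (hG : S.LineGood b G₀) (Y : (Fin 3 → ℝ) →L[ℝ] (Fin 2 → ℝ)) (L₀ : (Fin 2 → ℝ) →L[ℝ] S.U)
    (hL : ∀ θ, Y (rwres (b.equivFunL (L₀ θ))) = θ)
    (ℓ : ((Fin 3 → ℝ) →ₗ[ℝ] (Fin 3 → ℝ)) →ₗ[ℝ] ℝ) (hℓ : ℓ ≠ 0) :
    ∃ q ∈ G₀, (∀ θ θ', L₀ θ' = S.rep q (L₀ θ) → θ = 0 ∧ θ' = 0) ∧
      ℓ ((rwρ S b hG.line q : (Fin 3 → ℝ) →L[ℝ] (Fin 3 → ℝ)) :
        (Fin 3 → ℝ) →ₗ[ℝ] (Fin 3 → ℝ)) ≠ 0 := by
  set ψ := b.equivFunL with hψ
  set x₁ : Fin 4 → ℝ := ψ (L₀ (Pi.single 0 1)) with hx₁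
  set x₂ : Fin 4 → ℝ := ψ (L₀ (Pi.single 1 1)) with hx₂
  have hθ : ∀ θ : Fin 2 → ℝ, θ = θ 0 • Pi.single 0 1 + θ 1 • Pi.single 1 1 := by
    intro θ
    funext i
    fin_cases i <;> simp
  have hlin : ∀ θ : Fin 2 → ℝ, ψ (L₀ θ) = θ 0 • x₁ + θ 1 • x₂ := by
    intro θ
    conv_lhs => rw [hθ θ]
    rw [map_add, map_smul, map_smul, map_add, map_smul, map_smul]
  have hinj : ∀ θ : Fin 2 → ℝ, rwres (ψ (L₀ θ)) = 0 → θ = 0 := by
    intro θ h
    have h1 := hL θ
    rw [h, map_zero] at h1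
    exact h1.symm
  have hind : LinearIndependent ℝ ![x₁, x₂] := by
    rw [LinearIndependent.pair_iff]
    intro a c hac
    have h1 : ψ (L₀ ![a, c]) = 0 := by
      rw [hlin]
      simpa using hac
    have h2 := hinj ![a, c] (by rw [h1, map_zero])
    exact ⟨by simpa using congrFun h2 0, by simpa using congrFun h2 1⟩
  -- `e₀` is not in the plane
  have he0 : (Pi.single 0 1 : Fin 4 → ℝ) ∉ Submodule.span ℝ {x₁, x₂} := by
    intro h
    rw [Submodule.mem_span_pair] at h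
    obtain ⟨a, c, hac⟩ := h
    have h1 : ψ (L₀ ![a, c]) = Pi.single 0 1 := by
      rw [hlin]
      simpa using hac
    have h2 := hinj ![a, c] (by
      rw [h1]
      funext i
      rw [rwres_apply]
      simp)
    rw [h2, map_zero, map_zero] at h1
    have h3 := congrFun h1 0
    simp at h3
  have hF : ∃ g ∈ G₀, (Matrix.of ![S.mat b g *ᵥ x₁, S.mat b g *ᵥ x₂, x₁, x₂]).det ≠ 0 := by
    rcases trans_self (S.mat b) G₀ (fun g hg => mat_det S b g (hG.le hg)) x₁ x₂ hind with h | h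
    · exact h
    · exfalso
      obtain ⟨I, hI, h⟩ := h
      rcases h with ⟨h1, h2⟩ | ⟨h1, h2⟩
      · rcases hG.inv I hI with h3 | h3 | h3
        · exact h1 h3
        · apply he0
          apply h2
          rw [h3]
          exact Submodule.mem_span_singleton_self _
        · apply he0
          apply h2
          rw [h3]
          exact Submodule.mem_top
      · rw [LinearIndependent.pair_iff] at hind
        have m1 : x₁ ∈ I := h2 (Submodule.subset_span (by simp))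
        have m2 : x₂ ∈ I := h2 (Submodule.subset_span (by simp))
        have hx1 : x₁ ≠ 0 := by
          intro h0
          have := hind 1 0 (by rw [h0]; simp)
          exact one_ne_zero this.1
        rcases hG.inv I hI with h3 | h3 | h3
        · rw [h3, Submodule.mem_bot] at m1
          exact hx1 m1
        · rw [h3, Submodule.mem_span_singleton] at m1 m2
          obtain ⟨a, ha⟩ := m1
          obtain ⟨c, hc⟩ := m2
          have := hind c (-a) (by
            rw [← ha, ← hc, smul_smul, smul_smul, ← add_smul]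
            have : c * a + -a * c = 0 := by ring
            rw [this, zero_smul])
          apply hx1
          rw [← ha, neg_eq_zero.1 this.2, zero_smul]
        · exact h1 h3
  have hFp : IsPoly (fun g => S.mat b g) (fun g =>
      (Matrix.of ![S.mat b g *ᵥ x₁, S.mat b g *ᵥ x₂, x₁, x₂]).det) := by
    refine IsPolyM.det (fun i j => ?_)
    have hv : ∀ x : Fin 4 → ℝ, ∀ j, IsPoly (fun g => S.mat b g) (fun g => (S.mat b g *ᵥ x) j) := by
      intro x j
      simp only [Matrix.mulVec, dotProduct]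
      exact IsPoly.sum _ (fun k _ => (IsPoly.entry j k).mul (IsPoly.const _))
    fin_cases i
    · exact hv x₁ j
    · exact hv x₂ j
    · exact IsPoly.const (x₁ j)
    · exact IsPoly.const (x₂ j)
  -- the functional
  let ℓ' : Matrix (Fin 3) (Fin 3) ℝ →ₗ[ℝ] ℝ := ℓ ∘ₗ (Matrix.toLin' : Matrix (Fin 3) (Fin 3) ℝ ≃ₗ[ℝ] _).toLinearMap
  have hℓ' : ℓ' ≠ 0 := by
    intro h
    apply hℓ
    refine LinearMap.ext (fun f => ?_)
    have h1 := LinearMap.congr_fun h (LinearMap.toMatrix' f)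
    change ℓ (Matrix.toLin' (LinearMap.toMatrix' f)) = 0 at h1
    rw [Matrix.toLin'_toMatrix'] at h1
    rw [h1]
    rfl
  let ℓ'' : Matrix (Fin 4) (Fin 4) ℝ →ₗ[ℝ] ℝ :=
    { toFun := fun A => ℓ' (blk A)
      map_add' := fun A B => by
        rw [show blk (A + B) = blk A + blk B from rfl, map_add]
      map_smul' := fun c A => by
        rw [show blk (c • A) = c • blk A from rfl, map_smul, RingHom.id_apply] }
  have hH : ∃ g ∈ G₀, ℓ'' (S.mat b g) ≠ 0 := by
    by_contra hcon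
    push Not at hcon
    exact hℓ' (hG.span ℓ' hcon)
  obtain ⟨q, hq, h1, h2⟩ := hG.loc.prod _ _ hFp (IsPoly.lin ℓ'') hF hH
  refine ⟨q, hq, ?_, h2⟩
  intro θ θ' h
  have h3 : ψ (L₀ θ') = S.mat b q *ᵥ ψ (L₀ θ) := by
    rw [h, hψ, rw_mat]
  rw [hlin, hlin, Matrix.mulVec_add, Matrix.mulVec_smul, Matrix.mulVec_smul] at h3
  have h4 : ![θ 0, θ 1, -θ' 0, -θ' 1] ᵥ*
      (Matrix.of ![S.mat b q *ᵥ x₁, S.mat b q *ᵥ x₂, x₁, x₂]) = 0 := by
    funext j
    have h5 := congrFun h3 j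
    simp only [Pi.add_apply, Pi.smul_apply, smul_eq_mul] at h5
    simp only [Matrix.vecMul, dotProduct, Fin.sum_univ_four, Matrix.of_apply, Matrix.cons_val,
      Pi.zero_apply]
    linarith
  have h5 := Matrix.eq_zero_of_vecMul_eq_zero h1 h4
  have g0 : θ 0 = 0 := by simpa using congrFun h5 0
  have g1 : θ 1 = 0 := by simpa using congrFun h5 1
  have g2 : θ' 0 = 0 := by simpa using congrFun h5 2
  have g3 : θ' 1 = 0 := by simpa using congrFun h5 3
  constructor
  · funext i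
    fin_cases i
    · exact g0
    · exact g1
  · funext i
    fin_cases i
    · exact g2
    · exact g3

theorem ratio_w (S : InvSub D) (b : Module.Basis (Fin 4) ℝ S.U) (G₀ : Subgroup D.Γ)
    (hG : S.LineGood b G₀) (C : ℝ) :
    ∃ κ : ℝ, 0 < κ ∧ ∀ f ∈ G₀, ‖S.base f‖ ≤ C → ‖S.base f⁻¹‖ ≤ C →
      κ * nm (blk (S.mat b f)) ≤ nm (blk (S.mat b f⁻¹)) := by
  by_contra hcon
  push Not at hcon
  choose f hf hb hb' hlt using fun n : ℕ => hcon (1 / ((n : ℝ) + 1)) (by positivity)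
  set γ : ℕ → D.Γ := fun n => (f n)⁻¹ with hγ
  have hγm : ∀ n, γ n ∈ G₀ := fun n => G₀.inv_mem (hf n)
  have hinv : ∀ g : D.Γ, (blk (S.mat b g⁻¹))⁻¹ = blk (S.mat b g) := by
    intro g
    apply Matrix.inv_eq_right_inv
    rw [← blk_mul _ _ (hG.line g⁻¹), ← map_mul, inv_mul_cancel, map_one, blk_one]
  obtain ⟨φ, P, Q, t, P₀, Q₀, hC, h0, h1, h2⟩ := rw_cartan (fun n => blk (S.mat b (γ n)))
    (fun n => rw_det S b G₀ hG _ (hγm n)) (fun n => by
      rw [hinv (f n)]
      exact hlt n)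
  obtain ⟨Z⟩ := rw_words S b G₀ hG (fun n => γ (φ n)) (fun n => hγm _) C (fun n => hb' _)
    (fun n => by
      rw [hγ]
      simpa using hb (φ n)) P Q t P₀ Q₀ hC h0 h1 h2
  refine words_false Z (rw_ext S b G₀ hG) ?_ ?_ ?_ ?_
  · rw [Module.finrank_eq_card_basis b]
    simp
  · simp
  · intro g hg
    have h3 : (((rwρ S b hG.line g : (Fin 3 → ℝ) →L[ℝ] (Fin 3 → ℝ))) :
        (Fin 3 → ℝ) →ₗ[ℝ] (Fin 3 → ℝ)) = Matrix.toLin' (blk (S.mat b g)) := rfl
    rw [h3, LinearMap.det_toLin']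
    exact rw_det S b G₀ hG g hg
  · intro L₀ hL ℓ hℓ
    exact rw_hgen S b G₀ hG Z.Y L₀ hL ℓ hℓ

end

end Pool.AF
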