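import Pool.Agent.Helper94.AC.Stmt
import Pool.Agent.Helper94.AC.MainAC
import Pool.Agent.Helper94.AF.Res

set_option autoImplicit false

open Set

namespace Pool.AF

open Pool.SV

theorem resAC (n : ℕ) (Γ : Subgroup (Aff (n + 1))) (X : Set (EuclideanSpace ℝ (Fin (n + 1))))
    (hX : Divides Γ X) (h : LinealityAtMostFour X) (M : Type*)
    [TopologicalSpace M] (π : X → M) (hπ : IsOrbitSpace Γ X M π) : ZeroSeminorm M n := by
  obtain ⟨hne, V, hV, h⟩ := h
  have hrank : Module.finrank ℝ (EuclideanSpace ℝ (Fin (n + 1))) = n + 1 := by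
    simp
  have hVeq : linSub (geoOf hX) = V := by
    ext v
    exact (hV v).symm
  refine zeroSeminorm_of_vanish n hX (vanish_all_four (geoOf hX) (by rw [hrank]; omega) hX.cocompact
    hne ?_) M π hπ
  rw [hVeq]
  exact h

end Pool.AF
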