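import Pool.Agent.Helper94.AC.Four

/-!
# AC-19 SCHUR: Schur complements of isometries in a hyperbolic basis

Write `J = gram4 ε H`; `J⁻¹` is `!![0, 0, 0, ε; 0, H⁻¹, 0; 1, 0, 0, 0]` (blocks), `ε ^ 2 = 1`,
`(H⁻¹)ᵀ = ε • H⁻¹`. The identities have been checked by computer for random isometries.

Decomposition. If `f 3 0 = c ≠ 0` write `f = c • p qᵀ + R` with `p = (column 0 of f) / c` (`p 3 = 1`),
`q = (row 3 of f) / c` (`q 0 = 1`), so that row 3 and column 0 of `R` vanish and the middle block of `R`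
is `schur f` (indices `md`).
* `fᵀ * J * f = J` gives `c² (pᵀ J p) q qᵀ + c q (pᵀ J R) + c (Rᵀ J p) qᵀ + Rᵀ J R = J`. The entry `(0, 0)`:
  `pᵀ J p = 0`. The entries `(0, j)`: `c (pᵀ J R) j = J 0 j`, that is `0` for `j = 1, 2`; as
  `pᵀ J = (ε p 3, p'ᵀ H, p 0)`, with `p' = (p 1, p 2)`, and `R 3 j = 0`: for `j = 1, 2`
  `R 0 j = - ε (p'ᵀ H (schur f)) j`. The entries `(i, j)`, `i, j ∈ {1, 2}`: as `pᵀ J R` vanishes there,
  `(Rᵀ J R) i j = H i j`, and `(Rᵀ J R) i j = ((schur f)ᵀ H (schur f)) i j` as `R 3 j = 0`: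
  this is `schur_iso`.
* `f * J⁻¹ * fᵀ = J⁻¹` (it follows from `fᵀ * J * f = J`). The entry `(3, 3)`: `qᵀ J⁻¹ q = 0`. The entries
  `(i, 3)`, `i = 1, 2`: `c (R J⁻¹ q) i = J⁻¹ i 3 = 0`, and `J⁻¹ q = (ε q 3, H⁻¹ q', q 0)`,
  `q' = (q 1, q 2)`, `R i 0 = 0`, so `R i 3 = - (schur f (H⁻¹ q')) i`.

`schur'_iso`: the same with the indices `0` and `3` exchanged (or by symmetry).

`schur_mul`: write `f = c_f p_f q_fᵀ + R_f`, `g = c_g p_g q_gᵀ + R_g`, `s = q_fᵀ p_g`. Then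
`f g = c_f c_g s p_f q_gᵀ + c_f p_f (q_fᵀ R_g) + c_g (R_f p_g) q_gᵀ + R_f R_g`. The entry `(3, 0)`:
`(f g) 3 0 = c_f c_g s` (row 3 of `R_f` and column 0 of `R_g` vanish), so
`λ = c_f c_g / (f g) 3 0 = 1 / s`; column 0 of `f g` is `c_f c_g s p_f + c_g R_f p_g`, row 3 is
`c_f c_g s q_g + c_f (q_fᵀ R_g)`, so for `i, j` in the middle
`schur (f g) i j = (R_f R_g) i j - (R_f p_g) i (q_fᵀ R_g) j / s`.
Here `(R_f R_g) i j = (schur f * schur g) i j`; `(R_f p_g) i = (schur f p_g') i + R_f i 3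
= (schur f (p_g' - H⁻¹ q_f')) i = (schur f v) i`, `v = p_g' - H⁻¹ q_f'`; and
`(q_fᵀ R_g) j = R_g 0 j + (q_f'ᵀ schur g) j = ((q_f'ᵀ - ε p_g'ᵀ H) schur g) j
= - ε (vᵀ H schur g) j` because `vᵀ H = p_g'ᵀ H - q_f'ᵀ (H⁻¹)ᵀ H = p_g'ᵀ H - ε q_f'ᵀ`.

`schur_refl`: `T = 1 + (ε λ) v vᵀ H` satisfies `Tᵀ * H * T = H`, by `schur_iso` for `f`, `g`, `f * g` and
`schur_mul` (`det (schur f) ≠ 0`, `det (schur g) ≠ 0`). For `ε = 1` this is
`(2 λ + λ² (vᵀ H v)) (H v) (H v)ᵀ = 0` and `H v ≠ 0`, `λ ≠ 0`.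
-/

open Set Filter Topology Matrix

set_option linter.unusedSectionVars false

namespace Pool.AF

/-- The vector of the transition from `schur f * schur g` to `schur (f * g)`. -/
noncomputable def tv (H : Matrix (Fin 2) (Fin 2) ℝ) (f g : Matrix (Fin 4) (Fin 4) ℝ) :
    Fin 2 → ℝ := (c30 g)⁻¹ • col0 g - (c30 f)⁻¹ • (H⁻¹ *ᵥ row3 f)

section

variable (ε : ℝ) (H : Matrix (Fin 2) (Fin 2) ℝ)

private theorem eqs (f : Matrix (Fin 4) (Fin 4) ℝ)
    (hf : fᵀ * gram4 ε H * f = gram4 ε H) (a b : Fin 4) :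
    f 0 a * f 3 b + ε * f 3 a * f 0 b + (f 1 a * H 0 0 * f 1 b + f 1 a * H 0 1 * f 2 b +
      f 2 a * H 1 0 * f 1 b + f 2 a * H 1 1 * f 2 b) = gram4 ε H a b := by
  have h := congrFun (congrFun hf a) b
  rw [← h]
  simp only [Matrix.mul_apply, Fin.sum_univ_four, Matrix.transpose_apply]
  simp only [gram4, Matrix.of_apply, Matrix.cons_val', Matrix.cons_val_zero, Matrix.cons_val_one,
    Matrix.cons_val, Matrix.cons_val_fin_one]
  ring

theorem schur_iso (hε : ε = 1 ∨ ε = -1) (hH : Hᵀ = ε • H) (f : Matrix (Fin 4) (Fin 4) ℝ)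
    (hf : fᵀ * gram4 ε H * f = gram4 ε H) (hc : c30 f ≠ 0) : (schur f)ᵀ * H * schur f = H := by
  have E := eqs ε H f hf
  have hc' : f 3 0 ≠ 0 := hc
  have h00 := E 0 0
  have h01 := E 0 1
  have h02 := E 0 2
  have h10 := E 1 0
  have h20 := E 2 0
  have h11 := E 1 1
  have h12 := E 1 2
  have h21 := E 2 1
  have h22 := E 2 2
  simp only [gram4, Matrix.of_apply, Matrix.cons_val', Matrix.cons_val_zero, Matrix.cons_val_one,
    Matrix.cons_val, Matrix.cons_val_fin_one] at h00 h01 h02 h10 h20 h11 h12 h21 h22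
  ext i j
  simp only [Matrix.mul_apply, Fin.sum_univ_two, Matrix.transpose_apply, schur, Matrix.of_apply]
  fin_cases i <;> fin_cases j
  · simp only [md, Fin.zero_eta, Fin.mk_one, Matrix.cons_val_zero, Matrix.cons_val_one,
      Matrix.cons_val_fin_one]
    field_simp
    linear_combination (f 3 0) ^ 2 * h11 - f 3 0 * f 3 1 * h01 - f 3 0 * f 3 1 * h10 +
      f 3 1 * f 3 1 * h00
  · simp only [md, Fin.zero_eta, Fin.mk_one, Matrix.cons_val_zero, Matrix.cons_val_one,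
      Matrix.cons_val_fin_one]
    field_simp
    linear_combination (f 3 0) ^ 2 * h12 - f 3 0 * f 3 1 * h02 - f 3 0 * f 3 2 * h10 +
      f 3 1 * f 3 2 * h00
  · simp only [md, Fin.zero_eta, Fin.mk_one, Matrix.cons_val_zero, Matrix.cons_val_one,
      Matrix.cons_val_fin_one]
    field_simp
    linear_combination (f 3 0) ^ 2 * h21 - f 3 0 * f 3 2 * h01 - f 3 0 * f 3 1 * h20 +
      f 3 2 * f 3 1 * h00
  · simp only [md, Fin.zero_eta, Fin.mk_one, Matrix.cons_val_zero, Matrix.cons_val_one,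
      Matrix.cons_val_fin_one]
    field_simp
    linear_combination (f 3 0) ^ 2 * h22 - f 3 0 * f 3 2 * h02 - f 3 0 * f 3 2 * h20 +
      f 3 2 * f 3 2 * h00

theorem schur'_iso (hε : ε = 1 ∨ ε = -1) (hH : Hᵀ = ε • H) (f : Matrix (Fin 4) (Fin 4) ℝ)
    (hf : fᵀ * gram4 ε H * f = gram4 ε H) (hc : f 0 3 ≠ 0) : (schur' f)ᵀ * H * schur' f = H := by
  have E := eqs ε H f hf
  have h33 := E 3 3
  have h31 := E 3 1
  have h32 := E 3 2
  have h13 := E 1 3
  have h23 := E 2 3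
  have h11 := E 1 1
  have h12 := E 1 2
  have h21 := E 2 1
  have h22 := E 2 2
  simp only [gram4, Matrix.of_apply, Matrix.cons_val', Matrix.cons_val_zero, Matrix.cons_val_one,
    Matrix.cons_val, Matrix.cons_val_fin_one] at h33 h31 h32 h13 h23 h11 h12 h21 h22
  ext i j
  simp only [Matrix.mul_apply, Fin.sum_univ_two, Matrix.transpose_apply, schur', Matrix.of_apply]
  fin_cases i <;> fin_cases j
  · simp only [md, Fin.zero_eta, Fin.mk_one, Matrix.cons_val_zero, Matrix.cons_val_one,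
      Matrix.cons_val_fin_one]
    field_simp
    linear_combination (f 0 3) ^ 2 * h11 - f 0 3 * f 0 1 * h31 - f 0 3 * f 0 1 * h13 +
      f 0 1 * f 0 1 * h33
  · simp only [md, Fin.zero_eta, Fin.mk_one, Matrix.cons_val_zero, Matrix.cons_val_one,
      Matrix.cons_val_fin_one]
    field_simp
    linear_combination (f 0 3) ^ 2 * h12 - f 0 3 * f 0 1 * h32 - f 0 3 * f 0 2 * h13 +
      f 0 1 * f 0 2 * h33
  · simp only [md, Fin.zero_eta, Fin.mk_one, Matrix.cons_val_zero, Matrix.cons_val_one,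
      Matrix.cons_val_fin_one]
    field_simp
    linear_combination (f 0 3) ^ 2 * h21 - f 0 3 * f 0 2 * h31 - f 0 3 * f 0 1 * h23 +
      f 0 2 * f 0 1 * h33
  · simp only [md, Fin.zero_eta, Fin.mk_one, Matrix.cons_val_zero, Matrix.cons_val_one,
      Matrix.cons_val_fin_one]
    field_simp
    linear_combination (f 0 3) ^ 2 * h22 - f 0 3 * f 0 2 * h32 - f 0 3 * f 0 2 * h23 +
      f 0 2 * f 0 2 * h33

private theorem scal (a0 a1 a2 a3 c q1 q2 q3 b0 b1 b2 b3 d0 d1 d2 d w : ℝ) (hc : c ≠ 0)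
    (hd : d ≠ 0) (hw : w = c * d0 + q1 * d1 + q2 * d2 + q3 * d) (hw0 : w ≠ 0) :
    (a0 * b0 + a1 * b1 + a2 * b2 + a3 * b3) -
      (a0 * d0 + a1 * d1 + a2 * d2 + a3 * d) * (c * b0 + q1 * b1 + q2 * b2 + q3 * b3) / w =
    (a1 - a0 * q1 / c) * (b1 - d1 * b3 / d) + (a2 - a0 * q2 / c) * (b2 - d2 * b3 / d) -
      (c * d / w) * ((a1 - a0 * q1 / c) * (d⁻¹ * d1) + (a2 - a0 * q2 / c) * (d⁻¹ * d2) +
        (a3 - a0 * q3 / c)) *
      ((c⁻¹ * q1) * (b1 - d1 * b3 / d) + (c⁻¹ * q2) * (b2 - d2 * b3 / d) +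
        (b0 - d0 * b3 / d)) := by
  field_simp
  rw [hw]
  ring

/-- The inverse of the Gram matrix. -/
private noncomputable def igram (ε : ℝ) (H : Matrix (Fin 2) (Fin 2) ℝ) :
    Matrix (Fin 4) (Fin 4) ℝ :=
  !![0, 0, 0, ε; 0, H⁻¹ 0 0, H⁻¹ 0 1, 0; 0, H⁻¹ 1 0, H⁻¹ 1 1, 0; 1, 0, 0, 0]

private theorem gram_igram (hε : ε = 1 ∨ ε = -1) (hHd : H.det ≠ 0) :
    gram4 ε H * igram ε H = 1 := by
  have h1 : H * H⁻¹ = 1 := Matrix.mul_nonsing_inv H (isUnit_iff_ne_zero.2 hHd)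
  have h2 : ε * ε = 1 := by rcases hε with h | h <;> rw [h] <;> norm_num
  have e00 := congrFun (congrFun h1 0) 0
  have e01 := congrFun (congrFun h1 0) 1
  have e10 := congrFun (congrFun h1 1) 0
  have e11 := congrFun (congrFun h1 1) 1
  simp only [Matrix.mul_apply, Fin.sum_univ_two, Matrix.one_apply] at e00 e01 e10 e11
  ext i j
  fin_cases i <;> fin_cases j <;>
    simp [Matrix.mul_apply, Fin.sum_univ_four, gram4, igram, Matrix.one_apply] <;>
    first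
      | exact h2
      | (simp at e00; exact e00)
      | (simp at e01; exact e01)
      | (simp at e10; exact e10)
      | (simp at e11; exact e11)

private theorem inv_eq (hε : ε = 1 ∨ ε = -1) (hHd : H.det ≠ 0) (f : Matrix (Fin 4) (Fin 4) ℝ)
    (hf : fᵀ * gram4 ε H * f = gram4 ε H) : f * igram ε H * fᵀ = igram ε H := by
  have h1 := gram_igram ε H hε hHd
  have h1' : igram ε H * gram4 ε H = 1 := mul_eq_one_comm.1 h1
  have h2 : (igram ε H * fᵀ * gram4 ε H) * f = 1 := by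
    rw [mul_assoc, mul_assoc, ← mul_assoc fᵀ, hf, h1']
  have h3 : f * (igram ε H * fᵀ * gram4 ε H) = 1 := mul_eq_one_comm.1 h2
  have h4 : (f * igram ε H * fᵀ) * gram4 ε H = 1 := by
    rw [← h3]
    simp only [mul_assoc]
  calc f * igram ε H * fᵀ = (f * igram ε H * fᵀ) * (gram4 ε H * igram ε H) := by rw [h1, mul_one]
    _ = igram ε H := by rw [← mul_assoc, h4, one_mul]

private theorem lemA (hε : ε = 1 ∨ ε = -1) (hHd : H.det ≠ 0) (f : Matrix (Fin 4) (Fin 4) ℝ)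
    (hf : fᵀ * gram4 ε H * f = gram4 ε H) (hc : c30 f ≠ 0) (i : Fin 2) :
    f (md i) 3 - f (md i) 0 * f 3 3 / f 3 0 =
      - (schur f *ᵥ ((c30 f)⁻¹ • (H⁻¹ *ᵥ row3 f))) i := by
  have hc' : f 3 0 ≠ 0 := hc
  have h := inv_eq ε H hε hHd f hf
  have h33 := congrFun (congrFun h 3) 3
  have hi3 : (f * igram ε H * fᵀ) (md i) 3 = 0 := by
    rw [h]
    fin_cases i <;> simp [md, igram]
  simp only [Matrix.mul_apply, Fin.sum_univ_four, Matrix.transpose_apply] at h33 hi3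
  simp only [igram, Matrix.of_apply, Matrix.cons_val', Matrix.cons_val_zero, Matrix.cons_val_one,
    Matrix.cons_val, Matrix.cons_val_fin_one] at h33 hi3
  simp only [Matrix.mulVec, dotProduct, Fin.sum_univ_two, Pi.smul_apply, smul_eq_mul, schur,
    Matrix.of_apply, row3, c30]
  have m0 : md 0 = 1 := rfl
  have m1 : md 1 = 2 := rfl
  rw [m0, m1]
  field_simp
  linear_combination f 3 0 * hi3 - f (md i) 0 * h33

private theorem lemB (hε : ε = 1 ∨ ε = -1) (f : Matrix (Fin 4) (Fin 4) ℝ)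
    (hf : fᵀ * gram4 ε H * f = gram4 ε H) (hc : c30 f ≠ 0) (j : Fin 2) :
    f 0 (md j) - f 0 0 * f 3 (md j) / f 3 0 =
      - ε * (((c30 f)⁻¹ • col0 f) ᵥ* H ᵥ* schur f) j := by
  have hc' : f 3 0 ≠ 0 := hc
  have h2 : ε * ε = 1 := by rcases hε with h | h <;> rw [h] <;> norm_num
  have h00 := eqs ε H f hf 0 0
  have h0j := eqs ε H f hf 0 (md j)
  have e1 : gram4 ε H 0 0 = 0 := rfl
  have e2 : gram4 ε H 0 (md j) = 0 := by fin_cases j <;> rfl
  rw [e1] at h00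
  rw [e2] at h0j
  simp only [Matrix.vecMul, dotProduct, Fin.sum_univ_two, Pi.smul_apply, smul_eq_mul, schur,
    Matrix.of_apply, col0, c30]
  have m0 : md 0 = 1 := rfl
  have m1 : md 1 = 2 := rfl
  rw [m0, m1]
  field_simp
  linear_combination ε * f 3 0 * h0j - ε * f 3 (md j) * h00 -
    (f 3 0 * (f 3 0 * f 0 (md j)) - f 3 0 * f 0 0 * f 3 (md j)) * h2

theorem schur_mul (hε : ε = 1 ∨ ε = -1) (hH : Hᵀ = ε • H) (hHd : H.det ≠ 0)
    (f g : Matrix (Fin 4) (Fin 4) ℝ) (hf : fᵀ * gram4 ε H * f = gram4 ε H)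
    (hg : gᵀ * gram4 ε H * g = gram4 ε H) (hcf : c30 f ≠ 0) (hcg : c30 g ≠ 0)
    (hcfg : c30 (f * g) ≠ 0) :
    schur (f * g) = schur f * (1 + (ε * (c30 f * c30 g / c30 (f * g))) •
      Matrix.vecMulVec (tv H f g) (tv H f g ᵥ* H)) * schur g := by
  have h2 : ε * ε = 1 := by rcases hε with h | h <;> rw [h] <;> norm_num
  have h1 : H * H⁻¹ = 1 := Matrix.mul_nonsing_inv H (isUnit_iff_ne_zero.2 hHd)
  have h1' : H⁻¹ * H = 1 := Matrix.nonsing_inv_mul H (isUnit_iff_ne_zero.2 hHd)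
  have hT : (H⁻¹)ᵀ * H = ε • (1 : Matrix (Fin 2) (Fin 2) ℝ) := by
    have e : H = ε • Hᵀ := by rw [hH, smul_smul, h2, one_smul]
    calc (H⁻¹)ᵀ * H = (H⁻¹)ᵀ * (ε • Hᵀ) := by rw [← e]
      _ = ε • (H * H⁻¹)ᵀ := by rw [Matrix.mul_smul, Matrix.transpose_mul]
      _ = ε • (1 : Matrix (Fin 2) (Fin 2) ℝ) := by rw [h1, Matrix.transpose_one]
  set u : Fin 2 → ℝ := schur f *ᵥ tv H f g with hu
  set r : Fin 2 → ℝ := (tv H f g ᵥ* H) ᵥ* schur g with hr
  have hR : schur f * (1 + (ε * (c30 f * c30 g / c30 (f * g))) •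
      Matrix.vecMulVec (tv H f g) (tv H f g ᵥ* H)) * schur g = schur f * schur g +
      (ε * (c30 f * c30 g / c30 (f * g))) • Matrix.vecMulVec u r := by
    rw [mul_add, mul_one, add_mul, Matrix.mul_smul, Matrix.smul_mul, Matrix.mul_vecMulVec,
      Matrix.vecMulVec_mul]
  rw [hR]
  have hA : ∀ i, (schur f *ᵥ ((c30 g)⁻¹ • col0 g)) i +
      (f (md i) 3 - f (md i) 0 * f 3 3 / f 3 0) = u i := by
    intro i
    rw [lemA ε H hε hHd f hf hcf i, hu, tv, Matrix.mulVec_sub]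
    simp only [Pi.sub_apply]
    ring
  have hv : tv H f g ᵥ* H = ((c30 g)⁻¹ • col0 g) ᵥ* H - ε • ((c30 f)⁻¹ • row3 f) := by
    rw [tv, Matrix.sub_vecMul]
    congr 1
    rw [← Matrix.vecMul_transpose, Matrix.smul_vecMul, Matrix.vecMul_vecMul, hT,
      Matrix.vecMul_smul, Matrix.vecMul_one, smul_comm]
  have hB : ∀ j, (((c30 f)⁻¹ • row3 f) ᵥ* schur g) j +
      (g 0 (md j) - g 0 0 * g 3 (md j) / g 3 0) = - ε * r j := by
    intro j
    have e1 : (ε • ((c30 f)⁻¹ • row3 f)) ᵥ* schur g = ε • (((c30 f)⁻¹ • row3 f) ᵥ* schur g) :=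
      Matrix.smul_vecMul _ _ _
    rw [lemB ε H hε g hg hcg j, hr, hv, Matrix.sub_vecMul, e1, Pi.sub_apply, Pi.smul_apply,
      smul_eq_mul]
    linear_combination (- (((c30 f)⁻¹ • row3 f) ᵥ* schur g) j) * h2
  ext i j
  have hs := scal (f (md i) 0) (f (md i) 1) (f (md i) 2) (f (md i) 3) (f 3 0) (f 3 1) (f 3 2)
    (f 3 3) (g 0 (md j)) (g 1 (md j)) (g 2 (md j)) (g 3 (md j)) (g 0 0) (g 1 0) (g 2 0) (g 3 0)
    (c30 (f * g)) hcf hcg (by simp only [c30, Matrix.mul_apply, Fin.sum_univ_four]) hcfg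
  have hAi := hA i
  have hBj := hB j
  simp only [Matrix.mulVec, Matrix.vecMul, dotProduct, Fin.sum_univ_two, Pi.smul_apply,
    smul_eq_mul] at hAi hBj
  have m0 : md 0 = 1 := rfl
  have m1 : md 1 = 2 := rfl
  simp only [schur, Matrix.of_apply, col0, row3, m0, m1] at hAi hBj
  rw [Matrix.add_apply, Matrix.smul_apply, Matrix.vecMulVec_apply, smul_eq_mul, ← hAi]
  have hr' : ε * (c30 f * c30 g / c30 (f * g)) * (((f (md i) 1 - f (md i) 0 * f 3 1 / f 3 0) *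
      ((c30 g)⁻¹ * g 1 0) + (f (md i) 2 - f (md i) 0 * f 3 2 / f 3 0) * ((c30 g)⁻¹ * g 2 0) +
      (f (md i) 3 - f (md i) 0 * f 3 3 / f 3 0)) * r j) =
      - ((c30 f * c30 g / c30 (f * g)) * (((f (md i) 1 - f (md i) 0 * f 3 1 / f 3 0) *
      ((c30 g)⁻¹ * g 1 0) + (f (md i) 2 - f (md i) 0 * f 3 2 / f 3 0) * ((c30 g)⁻¹ * g 2 0) +
      (f (md i) 3 - f (md i) 0 * f 3 3 / f 3 0)) * (- ε * r j))) := by ring
  rw [hr', ← hBj]
  simp only [schur, Matrix.of_apply, Matrix.mul_apply, Fin.sum_univ_two, Fin.sum_univ_four, m0, m1]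
  simp only [c30, Matrix.mul_apply, Fin.sum_univ_four] at hs ⊢
  rw [hs]
  ring

theorem schur_refl (H : Matrix (Fin 2) (Fin 2) ℝ) (hH : Hᵀ = H) (hHd : H.det ≠ 0)
    (f g : Matrix (Fin 4) (Fin 4) ℝ) (hf : fᵀ * gram4 1 H * f = gram4 1 H)
    (hg : gᵀ * gram4 1 H * g = gram4 1 H) (hcf : c30 f ≠ 0) (hcg : c30 g ≠ 0)
    (hcfg : c30 (f * g) ≠ 0) (hv : tv H f g ≠ 0) :
    c30 f * c30 g / c30 (f * g) * (tv H f g ⬝ᵥ H *ᵥ tv H f g) = -2 := by
  have hH' : Hᵀ = (1 : ℝ) • H := by rw [hH, one_smul]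
  have hfg : (f * g)ᵀ * gram4 1 H * (f * g) = gram4 1 H := by
    rw [Matrix.transpose_mul]
    calc gᵀ * fᵀ * gram4 1 H * (f * g) = gᵀ * (fᵀ * gram4 1 H * f) * g := by
          simp only [mul_assoc]
      _ = gram4 1 H := by rw [hf, hg]
  have i1 := schur_iso 1 H (Or.inl rfl) hH' f hf hcf
  have i2 := schur_iso 1 H (Or.inl rfl) hH' g hg hcg
  have i3 := schur_iso 1 H (Or.inl rfl) hH' (f * g) hfg hcfg
  have hm := schur_mul 1 H (Or.inl rfl) hH' hHd f g hf hg hcf hcg hcfg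
  set v := tv H f g with hvdef
  set l : ℝ := c30 f * c30 g / c30 (f * g) with hl
  have hl0 : l ≠ 0 := div_ne_zero (mul_ne_zero hcf hcg) hcfg
  set T : Matrix (Fin 2) (Fin 2) ℝ := 1 + (1 * l) • Matrix.vecMulVec v (v ᵥ* H) with hT
  have hdg : (schur g).det ≠ 0 := by
    intro h0
    have := congrArg Matrix.det i2
    rw [Matrix.det_mul, h0, mul_zero] at this
    exact hHd this.symm
  have k1 : (schur g)ᵀ * (Tᵀ * H * T) * schur g = (schur g)ᵀ * H * schur g := by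
    rw [i2]
    conv_rhs => rw [← i3]
    rw [hm, Matrix.transpose_mul, Matrix.transpose_mul]
    calc (schur g)ᵀ * (Tᵀ * H * T) * schur g =
        (schur g)ᵀ * (Tᵀ * ((schur f)ᵀ * H * schur f) * T) * schur g := by rw [i1]
      _ = _ := by simp only [mul_assoc]
  have k2 : Tᵀ * H * T = H := by
    have hu : IsUnit (schur g).det := isUnit_iff_ne_zero.2 hdg
    have hu' : IsUnit ((schur g)ᵀ).det := by rwa [Matrix.det_transpose]
    have k3 : (schur g)ᵀ * (Tᵀ * H * T) = (schur g)ᵀ * H := by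
      have := congrArg (fun X => X * (schur g)⁻¹) k1
      simpa only [mul_assoc, Matrix.mul_nonsing_inv _ hu, mul_one] using this
    have := congrArg (fun X => ((schur g)ᵀ)⁻¹ * X) k3
    simpa only [← mul_assoc, Matrix.nonsing_inv_mul _ hu', one_mul] using this
  set w : Fin 2 → ℝ := v ᵥ* H with hw
  have hw0 : w ≠ 0 := by
    intro h0
    apply hv
    have h1 : H * H⁻¹ = 1 := Matrix.mul_nonsing_inv H (isUnit_iff_ne_zero.2 hHd)
    have : (v ᵥ* H) ᵥ* H⁻¹ = v := by rw [Matrix.vecMul_vecMul, h1, Matrix.vecMul_one]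
    rw [← this, ← hw, h0, Matrix.zero_vecMul]
  have hHv : H *ᵥ v = w := by
    rw [hw, ← Matrix.vecMul_transpose, hH]
  rw [hHv]
  have hs : H 1 0 = H 0 1 := congrFun (congrFun hH 0) 1
  have hw0' : w 0 = v 0 * H 0 0 + v 1 * H 0 1 := by
    rw [hw]
    simp only [Matrix.vecMul, dotProduct, Fin.sum_univ_two, hs]
  have hw1' : w 1 = v 0 * H 0 1 + v 1 * H 1 1 := by
    rw [hw]
    simp only [Matrix.vecMul, dotProduct, Fin.sum_univ_two]
  have o00 : (1 : Matrix (Fin 2) (Fin 2) ℝ) 0 0 = 1 := rfl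
  have o01 : (1 : Matrix (Fin 2) (Fin 2) ℝ) 0 1 = 0 := rfl
  have o10 : (1 : Matrix (Fin 2) (Fin 2) ℝ) 1 0 = 0 := rfl
  have o11 : (1 : Matrix (Fin 2) (Fin 2) ℝ) 1 1 = 1 := rfl
  have key : ∀ i : Fin 2, l * (2 + l * (v ⬝ᵥ w)) * (w i * w i) = 0 := by
    have h0 := congrFun (congrFun k2 0) 0
    have h1 := congrFun (congrFun k2 1) 1
    simp only [hT, Matrix.mul_apply, Fin.sum_univ_two, Matrix.transpose_apply, Matrix.add_apply,
      Matrix.smul_apply, Matrix.vecMulVec_apply, smul_eq_mul, one_mul, o00, o01, o10, o11, hs]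
      at h0 h1
    intro i
    simp only [dotProduct, Fin.sum_univ_two]
    fin_cases i
    · simp only [Fin.zero_eta]
      rw [hw0', hw1'] at *
      linear_combination h0
    · simp only [Fin.mk_one]
      rw [hw0', hw1'] at *
      linear_combination h1
  obtain ⟨i, hi⟩ : ∃ i, w i ≠ 0 := by
    by_contra hcon
    push Not at hcon
    exact hw0 (funext hcon)
  have h := key i
  have h3 : l * (2 + l * (v ⬝ᵥ w)) = 0 := by
    rcases mul_eq_zero.1 h with h | h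
    · exact h
    · exact absurd h (mul_ne_zero hi hi)
  rcases mul_eq_zero.1 h3 with h | h
  · exact absurd h hl0
  · linarith

end

end Pool.AF
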