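import Pool.Agent.Helper94.AC.SchurL
import Pool.Agent.Helper94.AC.FourC
import Pool.Agent.Helper94.AC.FormF
import Pool.Agent.Helper94.AC.Pair
import Pool.Agent.Helper94.AC.HypB

/-!
# AC-21 SCHURB: the hypotheses in a hyperbolic basis
# (uses the stubs of AC-14, 16, 17, 18, 19, 20)

Proof. Take `B, ε` from `form_four`, `x, e, r` from `exists_pair`, `X, H` from `hyp_basis`, and put
`M' = conjM X M`, so `Four τ M'` (`Four.conj`) and `(M' g)ᵀ * gram4 ε H * M' g = gram4 ε H`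
(as `(X⁻¹ M g X)ᵀ Xᵀ B X (X⁻¹ M g X) = Xᵀ (M g)ᵀ B (M g) X`). Moreover
`(r k)⁻¹ • M' (e k) → X⁻¹ * vecMulVec x (x ᵥ* B) * X = vecMulVec (X⁻¹ x) (x ᵥ* B ᵥ* X)` and
`X⁻¹ *ᵥ x = Pi.single 0 1 = e₀`, `x ᵥ* B ᵥ* X = e₀ ᵥ* (Xᵀ B X) = row 0 of gram4 ε H = e₃`: the limit is
`single 0 3 1`.

`schur' (M' (e k))` is bounded for large `k`: `τ (e k) → 1`, so `‖τ (e k)‖` and `‖τ (e k)⁻¹‖`
(`tendsto_base_inv`) are bounded, and by `Four.min` the minors with rows `0, md i` and columns `md j, 3`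
are bounded by `K * nm (M' (e k))`, so `|schur' (M' (e k)) i j| ≤ K * nm (M' (e k)) / |M' (e k) 0 3|`,
which converges to `K`. Pass to a subsequence such that `schur' (M' (e k)) → σ`. By `schur'_iso`,
`σᵀ * H * σ = H`, so `σ` is invertible.

`bdd`: let `C` be given. For `f` with `‖τ f‖, ‖τ f⁻¹‖ ≤ C`, the elements `e k * f * e k` and their
inverses are bounded on the base by a `C'` independent of `f` and `k`. Let `K` be given by `Four.min`
for `C'`. If `c30 (M' f) ≠ 0` then, as before, `|schur' (M' (e k * f * e k)) i j| ≤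
K * nm (M' (e k * f * e k)) / |M' (e k * f * e k) 0 3|`, and as `k → ∞` (`lim_two`) the right-hand side
converges to `K * nm (single 0 3 1) = K`, the left-hand side to `|(σ * schur (M' f) * σ) i j|`
(`lim_schur'`). So `σ * schur (M' f) * σ` has entries bounded by `K`, and `schur (M' f)` is bounded.

`mul`: take `h = f * e k * g` with `k` large: `lim_c` gives `c30 (M' h) ≠ 0`, `lim_schur` and
`τ (f * e k * g) → τ (f * g)` the rest.
-/

open Set Filter Topology Matrix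

set_option linter.unusedSectionVars false

namespace Pool.AF

private theorem nmS_nonneg {m n : Type*} [Fintype m] [Fintype n] (A : Matrix m n ℝ) : 0 ≤ nm A :=
  Finset.sum_nonneg fun _ _ => Finset.sum_nonneg fun _ _ => abs_nonneg _

private theorem nmS_mul {m n k : Type*} [Fintype m] [Fintype n] [Fintype k]
    (A : Matrix m n ℝ) (B : Matrix n k ℝ) : nm (A * B) ≤ nm A * nm B := by
  have row_le : ∀ i : n, ∑ j, |B i j| ≤ nm B := fun i =>
    Finset.single_le_sum (f := fun i => ∑ j, |B i j|)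
      (fun _ _ => Finset.sum_nonneg fun _ _ => abs_nonneg _) (Finset.mem_univ i)
  calc nm (A * B) ≤ ∑ i, ∑ j, ∑ k, |A i k| * |B k j| := by
        refine Finset.sum_le_sum fun i _ => Finset.sum_le_sum fun j _ => ?_
        rw [Matrix.mul_apply]
        refine (Finset.abs_sum_le_sum_abs _ _).trans (le_of_eq ?_)
        exact Finset.sum_congr rfl fun k _ => abs_mul _ _
    _ = ∑ i, ∑ k, |A i k| * ∑ j, |B k j| := by
        refine Finset.sum_congr rfl fun i _ => ?_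
        rw [Finset.sum_comm]
        exact Finset.sum_congr rfl fun k _ => (Finset.mul_sum _ _ _).symm
    _ ≤ ∑ i, ∑ k, |A i k| * nm B := by
        refine Finset.sum_le_sum fun i _ => Finset.sum_le_sum fun k _ => ?_
        exact mul_le_mul_of_nonneg_left (row_le k) (abs_nonneg _)
    _ = (∑ i, ∑ k, |A i k|) * nm B := by
        rw [Finset.sum_mul]
        exact Finset.sum_congr rfl fun i _ => (Finset.sum_mul _ _ _).symm

private theorem nmS_smul {m n : Type*} [Fintype m] [Fintype n] (c : ℝ) (A : Matrix m n ℝ) :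
    nm (c • A) = |c| * nm A := by
  unfold nm
  rw [Finset.mul_sum]
  refine Finset.sum_congr rfl fun i _ => ?_
  rw [Finset.mul_sum]
  refine Finset.sum_congr rfl fun j _ => ?_
  rw [Matrix.smul_apply, smul_eq_mul, abs_mul]

private theorem nmS_entry {m n : Type*} {A : ℕ → Matrix m n ℝ} {A₀ : Matrix m n ℝ}
    (h : Tendsto A atTop (𝓝 A₀)) (i : m) (j : n) :
    Tendsto (fun k => A k i j) atTop (𝓝 (A₀ i j)) :=
  ((continuous_id.matrix_elem i j).tendsto A₀).comp h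

private theorem nmS_tendsto {m n : Type*} [Fintype m] [Fintype n] {A : ℕ → Matrix m n ℝ}
    {A₀ : Matrix m n ℝ} (h : Tendsto A atTop (𝓝 A₀)) :
    Tendsto (fun k => nm (A k)) atTop (𝓝 (nm A₀)) := by
  unfold nm
  exact tendsto_finsetSum _ fun i _ => tendsto_finsetSum _ fun j _ => (nmS_entry h i j).abs

private theorem nmS_single : nm (Matrix.single (0 : Fin 4) (3 : Fin 4) (1 : ℝ)) = 1 := by
  unfold nm
  simp [Fin.sum_univ_four, Matrix.single]

private theorem schur'_le (A : Matrix (Fin 4) (Fin 4) ℝ) (K : ℝ)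
    (h : ∀ i j k l, |A i j * A k l - A i l * A k j| ≤ K * nm A) (h03 : A 0 3 ≠ 0)
    (i j : Fin 2) : |schur' A i j| ≤ K * (nm A / |A 0 3|) := by
  have h1 : schur' A i j = (A (md i) (md j) * A 0 3 - A (md i) 3 * A 0 (md j)) / A 0 3 := by
    unfold schur'
    rw [Matrix.of_apply]
    field_simp
  rw [h1, abs_div, ← mul_div_assoc]
  exact div_le_div_of_nonneg_right (h _ _ _ _) (abs_nonneg _)

/-- the ratio of `nm` and of the entry `0, 3` -/
private theorem ratio_tendsto (A : ℕ → Matrix (Fin 4) (Fin 4) ℝ) (r : ℕ → ℝ) (c : ℝ)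
    (hr : ∀ k, r k ≠ 0) (hc : c ≠ 0)
    (h : Tendsto (fun k => (r k)⁻¹ • A k) atTop (𝓝 (c • Matrix.single 0 3 1))) :
    (∀ᶠ k in atTop, A k 0 3 ≠ 0) ∧
      Tendsto (fun k => nm (A k) / |A k 0 3|) atTop (𝓝 1) := by
  have h1 := nmS_tendsto h
  have h2 := nmS_entry h 0 3
  rw [nmS_smul, nmS_single, mul_one] at h1
  have e1 : (c • Matrix.single (0 : Fin 4) (3 : Fin 4) (1 : ℝ)) 0 3 = c := by
    rw [Matrix.smul_apply, Matrix.single_apply_same, smul_eq_mul, mul_one]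
  rw [e1] at h2
  have h3 : ∀ᶠ k in atTop, ((r k)⁻¹ • A k) 0 3 ≠ 0 := h2.eventually_ne hc
  refine ⟨h3.mono fun k hk h0 => hk ?_, ?_⟩
  · rw [Matrix.smul_apply, h0, smul_zero]
  · have h4 : Tendsto (fun k => nm ((r k)⁻¹ • A k) / |((r k)⁻¹ • A k) 0 3|) atTop
        (𝓝 (|c| / |c|)) := h1.div h2.abs (abs_ne_zero.2 hc)
    rw [div_self (abs_ne_zero.2 hc)] at h4
    refine h4.congr fun k => ?_
    rw [nmS_smul, Matrix.smul_apply, smul_eq_mul, abs_mul]
    exact mul_div_mul_left _ _ (abs_ne_zero.2 (inv_ne_zero (hr k)))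

theorem exists_hyp4 {G R : Type*} [Group G] [NormedRing R] [NormedAlgebra ℝ R] [CompleteSpace R]
    {τ : G →* R} {M : G →* Matrix (Fin 4) (Fin 4) ℝ} (hF : Four τ M) :
    ∃ (X : (Matrix (Fin 4) (Fin 4) ℝ)ˣ) (ε : ℝ) (H σ : Matrix (Fin 2) (Fin 2) ℝ),
      Hyp4 τ (conjM X M) ε H σ := by
  classical
  obtain ⟨B, ε, hε, hB, hBt, hinv⟩ := form_four hF
  obtain ⟨x, e₁, r₁, hx, hx0, hbase₁, hr₁, hr₁', hlim₁⟩ := exists_pair hF B hB hinv
  obtain ⟨X, H, hX, hXB, hH, hHd⟩ := hyp_basis B ε hε hB hBt x hx hx0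
  set M' := conjM X M with hM'
  have hF' : Four τ M' := hF.conj X
  have hXX : ((X⁻¹ : (Matrix (Fin 4) (Fin 4) ℝ)ˣ) : Matrix (Fin 4) (Fin 4) ℝ) *
      (X : Matrix (Fin 4) (Fin 4) ℝ) = 1 := Units.inv_mul X
  have hXX' : (X : Matrix (Fin 4) (Fin 4) ℝ) *
      ((X⁻¹ : (Matrix (Fin 4) (Fin 4) ℝ)ˣ) : Matrix (Fin 4) (Fin 4) ℝ) = 1 := Units.mul_inv X
  have hinv' : ∀ g, (M' g)ᵀ * gram4 ε H * M' g = gram4 ε H := by
    intro g
    rw [hM', conjM_apply, ← hXB]
    have key : ∀ P Q A : Matrix (Fin 4) (Fin 4) ℝ, Q * P = 1 → Aᵀ * B * A = B →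
        (P * A * Q)ᵀ * (Qᵀ * B * Q) * (P * A * Q) = Qᵀ * B * Q := by
      intro P Q A hQP hA
      have h1 : Q * (P * A * Q) = A * Q := by
        rw [← Matrix.mul_assoc, ← Matrix.mul_assoc, hQP, Matrix.one_mul]
      have h2 : (P * A * Q)ᵀ * Qᵀ = (A * Q)ᵀ := by
        rw [← Matrix.transpose_mul, h1]
      have h3 : (P * A * Q)ᵀ * (Qᵀ * B * Q) * (P * A * Q) =
          ((P * A * Q)ᵀ * Qᵀ) * B * (Q * (P * A * Q)) := by
        simp only [Matrix.mul_assoc]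
      have h4 : (A * Q)ᵀ * B * (A * Q) = Qᵀ * (Aᵀ * B * A) * Q := by
        rw [Matrix.transpose_mul]
        simp only [Matrix.mul_assoc]
      rw [h3, h2, h1, h4, hA]
    exact key _ _ _ hXX' (hinv g)
  -- the limit
  have hx' : ((X⁻¹ : (Matrix (Fin 4) (Fin 4) ℝ)ˣ) : Matrix (Fin 4) (Fin 4) ℝ) *ᵥ x =
      Pi.single 0 1 := by
    rw [← hX, Matrix.mulVec_mulVec, hXX, Matrix.one_mulVec]
  have hrow : (x ᵥ* B) ᵥ* (X : Matrix (Fin 4) (Fin 4) ℝ) = Pi.single 3 1 := by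
    rw [← hX, ← Matrix.vecMul_transpose, Matrix.vecMul_vecMul, Matrix.vecMul_vecMul,
      ← Matrix.mul_assoc, hXB]
    funext j
    rw [Matrix.single_one_vecMul]
    fin_cases j <;> simp [gram4, Matrix.row]
  have hsingle : ((X⁻¹ : (Matrix (Fin 4) (Fin 4) ℝ)ˣ) : Matrix (Fin 4) (Fin 4) ℝ) *
      Matrix.vecMulVec x (x ᵥ* B) * (X : Matrix (Fin 4) (Fin 4) ℝ) = Matrix.single 0 3 1 := by
    rw [Matrix.mul_vecMulVec, Matrix.vecMulVec_mul, hx', hrow]
    ext i j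
    rw [Matrix.vecMulVec_apply]
    fin_cases i <;> fin_cases j <;> simp [Matrix.single]
  have hlim : Tendsto (fun k => (r₁ k)⁻¹ • M' (e₁ k)) atTop (𝓝 (Matrix.single 0 3 1)) := by
    have h1 : Tendsto (fun k => ((X⁻¹ : (Matrix (Fin 4) (Fin 4) ℝ)ˣ) : Matrix (Fin 4) (Fin 4) ℝ) *
        ((r₁ k)⁻¹ • M (e₁ k)) * (X : Matrix (Fin 4) (Fin 4) ℝ)) atTop
        (𝓝 (((X⁻¹ : (Matrix (Fin 4) (Fin 4) ℝ)ˣ) : Matrix (Fin 4) (Fin 4) ℝ) *
      Matrix.vecMulVec x (x ᵥ* B) * (X : Matrix (Fin 4) (Fin 4) ℝ))) :=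
      (tendsto_const_nhds.mul hlim₁).mul tendsto_const_nhds
    rw [hsingle] at h1
    refine h1.congr fun k => ?_
    rw [hM', conjM_apply, Matrix.mul_smul, Matrix.smul_mul]
  -- bounds on the base
  have hbase₁' := tendsto_base_inv τ e₁ hbase₁
  obtain ⟨C₁, hC₁⟩ := hbase₁.norm.bddAbove_range
  obtain ⟨C₂, hC₂⟩ := hbase₁'.norm.bddAbove_range
  have hb1 : ∀ n, ‖τ (e₁ n)‖ ≤ max C₁ C₂ := fun n => (hC₁ ⟨n, rfl⟩).trans (le_max_left _ _)
  have hb2 : ∀ n, ‖τ (e₁ n)⁻¹‖ ≤ max C₁ C₂ := fun n => (hC₂ ⟨n, rfl⟩).trans (le_max_right _ _)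
  set C₀ : ℝ := max C₁ C₂ with hC₀
  have hC₀0 : 0 ≤ C₀ := (norm_nonneg _).trans (hb1 0)
  obtain ⟨K₀, hK₀⟩ := hF'.min C₀
  have hlim' : Tendsto (fun k => (r₁ k)⁻¹ • M' (e₁ k)) atTop
      (𝓝 ((1 : ℝ) • Matrix.single 0 3 1)) := by rwa [one_smul]
  obtain ⟨hne, hrat⟩ := ratio_tendsto (fun k => M' (e₁ k)) r₁ 1 hr₁ one_ne_zero hlim'
  have hcomp : ∃ σ : Matrix (Fin 2) (Fin 2) ℝ, ∃ φ : ℕ → ℕ, StrictMono φ ∧
      Tendsto (fun k => schur' (M' (e₁ (φ k)))) atTop (𝓝 σ) := by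
    have hc : IsCompact (Set.univ.pi fun _ : Fin 2 => Set.univ.pi fun _ : Fin 2 =>
        Set.Icc (-(|K₀| * 2)) (|K₀| * 2) : Set (Fin 2 → Fin 2 → ℝ)) :=
      isCompact_univ_pi fun _ => isCompact_univ_pi fun _ => isCompact_Icc
    have hev : ∀ᶠ k in atTop, (fun i j => schur' (M' (e₁ k)) i j : Fin 2 → Fin 2 → ℝ) ∈
        (Set.univ.pi fun _ : Fin 2 => Set.univ.pi fun _ : Fin 2 =>
        Set.Icc (-(|K₀| * 2)) (|K₀| * 2) : Set (Fin 2 → Fin 2 → ℝ)) := by
      have h2 : ∀ᶠ k in atTop, nm (M' (e₁ k)) / |M' (e₁ k) 0 3| < 2 :=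
        hrat.eventually_lt_const one_lt_two
      filter_upwards [hne, h2] with k hk1 hk2
      intro i _ j _
      have h3 := schur'_le (M' (e₁ k)) K₀ (hK₀ (e₁ k) (hb1 k) (hb2 k)).1 hk1 i j
      have h4 : 0 ≤ nm (M' (e₁ k)) / |M' (e₁ k) 0 3| := div_nonneg (nmS_nonneg _) (abs_nonneg _)
      have h5 : |schur' (M' (e₁ k)) i j| ≤ |K₀| * 2 :=
        h3.trans ((mul_le_mul_of_nonneg_right (le_abs_self K₀) h4).trans
          (mul_le_mul_of_nonneg_left hk2.le (abs_nonneg _)))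
      exact abs_le.1 h5
    obtain ⟨σ, -, φ, hφ, hσ⟩ := hc.tendsto_subseq' hev.frequently
    exact ⟨σ, φ, hφ, hσ⟩
  obtain ⟨σ, φ, hφ, hσ⟩ := hcomp
  -- the subsequence
  set e : ℕ → G := fun k => e₁ (φ k) with he
  set r : ℕ → ℝ := fun k => r₁ (φ k) with hr
  have hφ' := hφ.tendsto_atTop
  have hrk : ∀ k, r k ≠ 0 := fun k => hr₁ _
  have hr1 : Tendsto (fun k => |r k|) atTop atTop := hr₁'.comp hφ'
  have hlimE : Tendsto (fun k => (r k)⁻¹ • M' (e k)) atTop (𝓝 (Matrix.single 0 3 1)) :=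
    hlim.comp hφ'
  have hbase : Tendsto (fun k => τ (e k)) atTop (𝓝 1) := hbase₁.comp hφ'
  have hneE : ∀ᶠ k in atTop, M' (e k) 0 3 ≠ 0 := hφ'.eventually hne
  have hbE1 : ∀ n, ‖τ (e n)‖ ≤ C₀ := fun n => hb1 _
  have hbE2 : ∀ n, ‖τ (e n)⁻¹‖ ≤ C₀ := fun n => hb2 _
  have hisoE : ∀ k, (M' (e k))ᵀ * gram4 ε H * M' (e k) = gram4 ε H := fun k => hinv' _
  have hsig : σᵀ * H * σ = H := by
    have h1 : Tendsto (fun k => (schur' (M' (e k)))ᵀ * H * schur' (M' (e k))) atTop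
        (𝓝 (σᵀ * H * σ)) :=
      (((continuous_id.matrix_transpose.tendsto σ).comp hσ).mul tendsto_const_nhds).mul hσ
    have h2 : Tendsto (fun k => (schur' (M' (e k)))ᵀ * H * schur' (M' (e k))) atTop (𝓝 H) := by
      refine tendsto_const_nhds.congr' ?_
      filter_upwards [hneE] with k hk
      exact (schur'_iso ε H hε hH _ (hisoE k) hk).symm
    exact tendsto_nhds_unique h1 h2
  have hdetσ : σ.det ≠ 0 := by
    intro h0
    apply hHd
    rw [← hsig, Matrix.det_mul, h0, mul_zero]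
  have hσu : IsUnit σ.det := isUnit_iff_ne_zero.2 hdetσ
  refine ⟨X, ε, H, σ, hF', hε, hH, hHd, hinv', hsig, ?_, ?_⟩
  · -- boundedness
    intro C
    obtain ⟨K, hK⟩ := hF'.min (C₀ * C * C₀)
    refine ⟨nm σ⁻¹ * (4 * K) * nm σ⁻¹, fun f hf1 hf2 hf => ?_⟩
    have hC0 : 0 ≤ C := (norm_nonneg _).trans hf1
    have hn1 : ∀ k, ‖τ (e k * f * e k)‖ ≤ C₀ * C * C₀ := by
      intro k
      rw [map_mul, map_mul]
      calc ‖τ (e k) * τ f * τ (e k)‖ ≤ ‖τ (e k)‖ * ‖τ f‖ * ‖τ (e k)‖ :=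
            (norm_mul_le _ _).trans (mul_le_mul_of_nonneg_right (norm_mul_le _ _) (norm_nonneg _))
        _ ≤ C₀ * C * C₀ := by
            have a1 := hbE1 k
            have a2 := norm_nonneg (τ (e k))
            have a3 := norm_nonneg (τ f)
            gcongr
    have hn2 : ∀ k, ‖τ (e k * f * e k)⁻¹‖ ≤ C₀ * C * C₀ := by
      intro k
      have : (e k * f * e k)⁻¹ = (e k)⁻¹ * f⁻¹ * (e k)⁻¹ := by group
      rw [this, map_mul, map_mul]
      calc ‖τ (e k)⁻¹ * τ f⁻¹ * τ (e k)⁻¹‖ ≤ ‖τ (e k)⁻¹‖ * ‖τ f⁻¹‖ * ‖τ (e k)⁻¹‖ :=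
            (norm_mul_le _ _).trans (mul_le_mul_of_nonneg_right (norm_mul_le _ _) (norm_nonneg _))
        _ ≤ C₀ * C * C₀ := by
            have a1 := hbE2 k
            have a2 := norm_nonneg (τ (e k)⁻¹)
            have a3 := norm_nonneg (τ f⁻¹)
            gcongr
    have hl2 := lim_two (fun k => M' (e k)) r hrk hlimE (M' f)
    have hl2' : Tendsto (fun k => (r k * r k)⁻¹ • M' (e k * f * e k)) atTop
        (𝓝 (c30 (M' f) • Matrix.single 0 3 1)) := by
      refine hl2.congr fun k => ?_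
      rw [map_mul, map_mul]
    obtain ⟨hne2, hrat2⟩ := ratio_tendsto (fun k => M' (e k * f * e k)) (fun k => r k * r k)
      (c30 (M' f)) (fun k => mul_ne_zero (hrk k) (hrk k)) hf hl2'
    have hls := lim_schur' ε H σ (fun k => M' (e k)) r hε hH hHd hisoE hrk hr1 hlimE hσ (M' f) hf
    have hls' : Tendsto (fun k => schur' (M' (e k * f * e k))) atTop
        (𝓝 (σ * schur (M' f) * σ)) := by
      refine hls.congr fun k => ?_
      rw [map_mul, map_mul]
    have hent : ∀ i j, |(σ * schur (M' f) * σ) i j| ≤ K := by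
      intro i j
      have h1 := (nmS_entry hls' i j).abs
      have h2 : Tendsto (fun k => K * (nm (M' (e k * f * e k)) / |M' (e k * f * e k) 0 3|)) atTop
          (𝓝 (K * 1)) := tendsto_const_nhds.mul hrat2
      rw [mul_one] at h2
      refine le_of_tendsto_of_tendsto h1 h2 ?_
      filter_upwards [hne2] with k hk
      exact schur'_le _ K (hK _ (hn1 k) (hn2 k)).1 hk i j
    have hmid : nm (σ * schur (M' f) * σ) ≤ 4 * K := by
      unfold nm
      calc ∑ i, ∑ j, |(σ * schur (M' f) * σ) i j| ≤ ∑ _i : Fin 2, ∑ _j : Fin 2, K :=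
            Finset.sum_le_sum fun i _ => Finset.sum_le_sum fun j _ => hent i j
        _ = 4 * K := by
            simp
            ring
    have hS : schur (M' f) = σ⁻¹ * (σ * schur (M' f) * σ) * σ⁻¹ := by
      calc schur (M' f) = (σ⁻¹ * σ) * schur (M' f) * (σ * σ⁻¹) := by
            rw [Matrix.nonsing_inv_mul _ hσu, Matrix.mul_nonsing_inv _ hσu, Matrix.one_mul,
              Matrix.mul_one]
        _ = _ := by simp only [Matrix.mul_assoc]
    rw [hS]
    refine (nmS_mul _ _).trans (mul_le_mul_of_nonneg_right ((nmS_mul _ _).trans ?_) (nmS_nonneg _))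
    exact mul_le_mul_of_nonneg_left hmid (nmS_nonneg _)
  · -- products
    intro f g hf hg δ hδ
    have h1 := lim_c (fun k => M' (e k)) r hrk hlimE (M' f) (M' g)
    have h1' : ∀ᶠ k in atTop, c30 (M' f * M' (e k) * M' g) / r k ≠ 0 :=
      h1.eventually_ne (mul_ne_zero hf hg)
    have h2 : Tendsto (fun k => τ (f * e k * g)) atTop (𝓝 (τ (f * g))) := by
      have h3 : Tendsto (fun k => τ f * τ (e k) * τ g) atTop (𝓝 (τ f * 1 * τ g)) :=
        (tendsto_const_nhds.mul hbase).mul tendsto_const_nhds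
      rw [mul_one, ← map_mul] at h3
      refine h3.congr fun k => ?_
      rw [map_mul, map_mul]
    have h2' : ∀ᶠ k in atTop, ‖τ (f * e k * g) - τ (f * g)‖ < δ := by
      have h3 := (tendsto_iff_norm_sub_tendsto_zero.1 h2)
      exact h3.eventually_lt_const hδ
    have h4 := lim_schur ε H σ (fun k => M' (e k)) r hε hH hHd hisoE hrk hr1 hlimE hσ (M' f)
      (M' g) hf hg
    have h4' : ∀ᶠ k in atTop,
        nm (schur (M' f * M' (e k) * M' g) - schur (M' f) * σ * schur (M' g)) < δ := by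
      have h5 : Tendsto (fun k => schur (M' f * M' (e k) * M' g) -
          schur (M' f) * σ * schur (M' g)) atTop (𝓝 0) := by
        have := h4.sub_const (schur (M' f) * σ * schur (M' g))
        rwa [sub_self] at this
      have h6 := nmS_tendsto h5
      have h7 : nm (0 : Matrix (Fin 2) (Fin 2) ℝ) = 0 := by simp [nm]
      rw [h7] at h6
      exact h6.eventually_lt_const hδ
    obtain ⟨k, hk1, hk2, hk3⟩ := (h1'.and (h2'.and h4')).exists
    have hMk : M' (f * e k * g) = M' f * M' (e k) * M' g := by rw [map_mul, map_mul]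
    refine ⟨f * e k * g, ?_, hk2, ?_⟩
    · intro h0
      apply hk1
      rw [← hMk, h0, zero_div]
    · rw [hMk]
      exact hk3

end Pool.AF
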