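import Pool.Agent.Helper94.AC.Schur

/-!
# AC-20 SCHURL: limits of Schur complements

`e k` are isometries of `J = gram4 ε H`, `(r k)⁻¹ • e k → E₀₃ = single 0 3 1`, `|r k| → ∞` and
`schur' (e k) → σ`.

Decomposition (`ek_dec`): for large `k`, `(e k) 0 3 ≠ 0` (`(e k) 0 3 / r k → 1`); write
`e k = e₀₃ • p qᵀ + R` with `p = (column 3) / e₀₃` (`p 0 = 1`), `q = (row 0) / e₀₃` (`q 3 = 1`); row 0 and
column 3 of `R` vanish, the middle block of `R` is `schur' (e k)`; `p → e₀`, `q → e₃`. From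
`eᵀ J e = J`, entries `(j, 3)`: `e₀₃ (Rᵀ J p) j = J j 3 = δ j 0`, and `J p = (p 3, H p', ε)`, so
`ε R 3 j = δ j 0 / e₀₃ - ∑_{i = 1, 2} (H p') i * R i j`; similarly from `e J⁻¹ eᵀ = J⁻¹`, entries
`(0, i)`: `e₀₃ (R J⁻¹ q) i = (J⁻¹) i 0`, `J⁻¹ q = (ε q 3, H⁻¹ q', q 0)`, `q' = (q 1, q 2)`, so
`ε R i 0 = (J⁻¹ i 0) / e₀₃ - ∑_{j = 1, 2} R i j * (H⁻¹ q') j` (`R i 3 = 0`). As `R i j` is bounded for
`i, j ∈ {1, 2}` and `p', q' → 0`: first `R 3 j → 0`, `R i 0 → 0` for `i, j ∈ {1, 2}`, then `R 3 0 → 0`. So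
`R → Σ`, the matrix with middle block `σ` and zeros elsewhere.

`lim_c`: `c30 (f * e k * g) / r k → (f E₀₃ g) 3 0 = f 3 0 * g 3 0`.

`lim_schur`: `A = f e g = e₀₃ u vᵀ + T`, `u = f p → column 0 of f`, `v = gᵀ q → row 3 of g`,
`T = f R g → f Σ g`. The numerator of
`schur A i j = (A i j * A 3 0 - A i 0 * A 3 j) / A 3 0` is
`e₀₃ (u i v j T 3 0 + T i j u 3 v 0 - u i v 0 T 3 j - T i 0 u 3 v j) + (T i j T 3 0 - T i 0 T 3 j)`
and the denominator `e₀₃ u 3 v 0 + T 3 0`; dividing by `e₀₃ → ∞` (in absolute value)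
the limit is `T i j - (u i / u 3) T 3 j - (v j / v 0) T i 0 + (u i v j / (u 3 v 0)) T 3 0` with
`T = f Σ g`, which is `∑_{k, l} (f i k - f i 0 f 3 k / f 3 0) σ k l (g l j - g l 0 g 3 j / g 3 0)`.

`lim_schur'`: with `s = qᵀ f p → f 3 0 ≠ 0`, `A = e f e = e₀₃² s p qᵀ + e₀₃ p (qᵀ f R) + e₀₃ (R f p) qᵀ +
R f R`, and since row 0 and column 3 of `R` vanish, `A 0 3 = e₀₃² s`,
`schur' A i j = (R f R) i j - (R f p) i (qᵀ f R) j / s` exactly, whose limit is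
`(Σ f Σ) i j - (Σ f e₀) i (e₃ᵀ f Σ) j / f 3 0 = (σ * schur f * σ) i j`.
`lim_two`: `(r k * r k)⁻¹ • (e k * f * e k) → E₀₃ * f * E₀₃ = f 3 0 • E₀₃`.
-/

open Set Filter Topology Matrix

set_option linter.unusedSectionVars false

namespace Pool.AF

section

variable (ε : ℝ) (H σ : Matrix (Fin 2) (Fin 2) ℝ) (e : ℕ → Matrix (Fin 4) (Fin 4) ℝ) (r : ℕ → ℝ)

private theorem tendsto_mat {m n : Type*} {f : ℕ → Matrix m n ℝ} {A : Matrix m n ℝ}
    (h : ∀ i j, Tendsto (fun k => f k i j) atTop (𝓝 (A i j))) : Tendsto f atTop (𝓝 A) := by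
  refine tendsto_pi_nhds.2 (fun i => tendsto_pi_nhds.2 (fun j => h i j))

private theorem tendsto_entry {m n : Type*} {f : ℕ → Matrix m n ℝ} {A : Matrix m n ℝ}
    (h : Tendsto f atTop (𝓝 A)) (i : m) (j : n) : Tendsto (fun k => f k i j) atTop (𝓝 (A i j)) :=
  tendsto_pi_nhds.1 (tendsto_pi_nhds.1 h i) j

private theorem mul_single_mul (f g : Matrix (Fin 4) (Fin 4) ℝ) (i j : Fin 4) :
    (f * (Matrix.single 0 3 1 : Matrix (Fin 4) (Fin 4) ℝ) * g) i j = f i 0 * g 3 j := by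
  simp [Matrix.mul_apply, Fin.sum_univ_four, Matrix.single_apply]

theorem lim_c (hr : ∀ k, r k ≠ 0)
    (he : Tendsto (fun k => (r k)⁻¹ • e k) atTop (𝓝 (Matrix.single 0 3 1)))
    (f g : Matrix (Fin 4) (Fin 4) ℝ) :
    Tendsto (fun k => c30 (f * e k * g) / r k) atTop (𝓝 (c30 f * c30 g)) := by
  have h1 : Tendsto (fun k => f * ((r k)⁻¹ • e k) * g) atTop
      (𝓝 (f * (Matrix.single 0 3 1 : Matrix (Fin 4) (Fin 4) ℝ) * g)) :=
    (tendsto_const_nhds.mul he).mul tendsto_const_nhds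
  have h2 := tendsto_entry h1 3 0
  rw [mul_single_mul] at h2
  refine h2.congr (fun k => ?_)
  rw [Matrix.mul_smul, Matrix.smul_mul, Matrix.smul_apply, smul_eq_mul, c30, div_eq_inv_mul]

theorem lim_two (hr : ∀ k, r k ≠ 0)
    (he : Tendsto (fun k => (r k)⁻¹ • e k) atTop (𝓝 (Matrix.single 0 3 1)))
    (f : Matrix (Fin 4) (Fin 4) ℝ) :
    Tendsto (fun k => (r k * r k)⁻¹ • (e k * f * e k)) atTop
      (𝓝 (c30 f • Matrix.single 0 3 1)) := by
  have h1 : Tendsto (fun k => ((r k)⁻¹ • e k) * f * ((r k)⁻¹ • e k)) atTop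
      (𝓝 (Matrix.single 0 3 1 * f * Matrix.single 0 3 1)) := (he.mul tendsto_const_nhds).mul he
  have h2 : (Matrix.single 0 3 1 * f * Matrix.single 0 3 1 : Matrix (Fin 4) (Fin 4) ℝ)
      = c30 f • Matrix.single 0 3 1 := by
    ext i j
    simp [Matrix.mul_apply, Fin.sum_univ_four, Matrix.single_apply, c30]
    split_ifs <;> simp_all
  rw [h2] at h1
  refine h1.congr (fun k => ?_)
  rw [Matrix.smul_mul, Matrix.smul_mul, Matrix.mul_smul, smul_smul, mul_inv]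

/-- The matrix with the middle block `σ`. -/
private def emb (σ : Matrix (Fin 2) (Fin 2) ℝ) : Matrix (Fin 4) (Fin 4) ℝ :=
  !![0, 0, 0, 0; 0, σ 0 0, σ 0 1, 0; 0, σ 1 0, σ 1 1, 0; 0, 0, 0, 0]

/-- The inverse of the Gram matrix. -/
private def gramI (ε : ℝ) (G : Matrix (Fin 2) (Fin 2) ℝ) : Matrix (Fin 4) (Fin 4) ℝ :=
  !![0, 0, 0, ε; 0, G 0 0, G 0 1, 0; 0, G 1 0, G 1 1, 0; 1, 0, 0, 0]

private theorem gram_inv (hε : ε = 1 ∨ ε = -1) (hHd : H.det ≠ 0) :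
    gramI ε H⁻¹ * gram4 ε H = 1 := by
  have h1 : H⁻¹ * H = 1 := Matrix.nonsing_inv_mul H (isUnit_iff_ne_zero.2 hHd)
  have h00 := congrFun (congrFun h1 0) 0
  have h01 := congrFun (congrFun h1 0) 1
  have h10 := congrFun (congrFun h1 1) 0
  have h11 := congrFun (congrFun h1 1) 1
  generalize H⁻¹ = G at *
  simp [Matrix.mul_apply, Fin.sum_univ_two] at h00 h01 h10 h11
  have hee : ε * ε = 1 := by rcases hε with h | h <;> rw [h] <;> norm_num
  ext i j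
  fin_cases i <;> fin_cases j <;>
    simp [gram4, gramI, Matrix.mul_apply, Fin.sum_univ_four, hee, h00, h01, h10, h11]

/-- Isometries, the inverse Gram matrix. -/
private theorem iso_inv (hε : ε = 1 ∨ ε = -1) (hHd : H.det ≠ 0)
    (f : Matrix (Fin 4) (Fin 4) ℝ) (hf : fᵀ * gram4 ε H * f = gram4 ε H) :
    f * gramI ε H⁻¹ * fᵀ = gramI ε H⁻¹ := by
  have h1 := gram_inv ε H hε hHd
  have h1' : gram4 ε H * gramI ε H⁻¹ = 1 := mul_eq_one_comm.1 h1
  have h2 : (gramI ε H⁻¹ * fᵀ * gram4 ε H) * f = 1 := by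
    rw [mul_assoc, mul_assoc, ← mul_assoc fᵀ, hf, h1]
  have h3 : f * (gramI ε H⁻¹ * fᵀ * gram4 ε H) = 1 := mul_eq_one_comm.1 h2
  calc f * gramI ε H⁻¹ * fᵀ = f * gramI ε H⁻¹ * fᵀ * (gram4 ε H * gramI ε H⁻¹) := by
        rw [h1', mul_one]
    _ = f * (gramI ε H⁻¹ * fᵀ * gram4 ε H) * gramI ε H⁻¹ := by simp only [mul_assoc]
    _ = gramI ε H⁻¹ := by rw [h3, one_mul]

private theorem vec_id (ε x0 x1 x2 x3 y0 y1 y2 y3 h1 h2 δ : ℝ) (hee : ε * ε = 1) (hx : x0 ≠ 0)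
    (hj : y0 * x3 + y1 * h1 + y2 * h2 + ε * (y3 * x0) = δ)
    (hs : x0 * x3 + x1 * h1 + x2 * h2 + ε * (x3 * x0) = 0) :
    y3 - x3 * y0 / x0 = ε * (δ * x0⁻¹ - h1 / x0 * (y1 - x1 * y0 / x0)
      - h2 / x0 * (y2 - x2 * y0 / x0)) := by
  obtain ⟨t, ht⟩ : ∃ t, t = y0 / x0 := ⟨_, rfl⟩
  have ht' : t * x0 = y0 := by rw [ht]; field_simp
  have e1 : y3 - x3 * y0 / x0 = y3 - x3 * t := by rw [ht]; ring
  have e2 : y1 - x1 * y0 / x0 = y1 - x1 * t := by rw [ht]; ring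
  have e3 : y2 - x2 * y0 / x0 = y2 - x2 * t := by rw [ht]; ring
  rw [e1, e2, e3]
  have key : x0 * (y3 - x3 * t) = ε * (δ - h1 * (y1 - x1 * t) - h2 * (y2 - x2 * t)) := by
    linear_combination ε * hj - ε * t * hs + (t * x3 * x0 - y3 * x0) * hee + ε * x3 * ht'
  have : y3 - x3 * t = (x0 * (y3 - x3 * t)) * x0⁻¹ := by field_simp
  rw [this, key]
  ring

/-- The decomposition of `e k`. -/
private theorem ek_dec (hε : ε = 1 ∨ ε = -1) (hHd : H.det ≠ 0)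
    (hiso : ∀ k, (e k)ᵀ * gram4 ε H * e k = gram4 ε H) (hr : ∀ k, r k ≠ 0)
    (hr1 : Tendsto (fun k => |r k|) atTop atTop)
    (he : Tendsto (fun k => (r k)⁻¹ • e k) atTop (𝓝 (Matrix.single 0 3 1)))
    (hσ : Tendsto (fun k => schur' (e k)) atTop (𝓝 σ)) :
    ∃ (a : ℕ → ℝ) (p q : ℕ → Fin 4 → ℝ) (R : ℕ → Matrix (Fin 4) (Fin 4) ℝ),
      (∀ᶠ k in atTop, a k ≠ 0 ∧ (∀ i j, e k i j = a k * (p k i * q k j) + R k i j) ∧
        (∀ j, R k 0 j = 0) ∧ (∀ i, R k i 3 = 0) ∧ p k 0 = 1 ∧ q k 3 = 1) ∧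
      Tendsto (fun k => (a k)⁻¹) atTop (𝓝 0) ∧
      (∀ i, Tendsto (fun k => p k i) atTop (𝓝 ((Pi.single 0 1 : Fin 4 → ℝ) i))) ∧
      (∀ i, Tendsto (fun k => q k i) atTop (𝓝 ((Pi.single 3 1 : Fin 4 → ℝ) i))) ∧
      Tendsto R atTop (𝓝 (emb σ)) := by
  have hent : ∀ i j, Tendsto (fun k => e k i j / r k) atTop
      (𝓝 ((Matrix.single 0 3 1 : Matrix (Fin 4) (Fin 4) ℝ) i j)) := by
    intro i j
    refine (tendsto_entry he i j).congr (fun k => ?_)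
    rw [Matrix.smul_apply, smul_eq_mul, div_eq_inv_mul]
  have ha : Tendsto (fun k => e k 0 3 / r k) atTop (𝓝 1) := by
    have := hent 0 3
    simpa using this
  have ha0 : ∀ᶠ k in atTop, e k 0 3 ≠ 0 := by
    have h1 : ∀ᶠ k in atTop, e k 0 3 / r k ≠ 0 := ha.eventually_ne one_ne_zero
    filter_upwards [h1] with k hk h0
    exact hk (by rw [h0, zero_div])
  have hainv : Tendsto (fun k => (e k 0 3)⁻¹) atTop (𝓝 0) := by
    have h1 : Tendsto (fun k => (e k 0 3 / r k)⁻¹) atTop (𝓝 1) := by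
      simpa using ha.inv₀ one_ne_zero
    have h2 : Tendsto (fun k => (r k)⁻¹) atTop (𝓝 0) := by
      rw [tendsto_zero_iff_abs_tendsto_zero]
      have := tendsto_inv_atTop_zero.comp hr1
      refine this.congr (fun k => ?_)
      simp [abs_inv]
    have h3 := h1.mul h2
    rw [one_mul] at h3
    refine h3.congr (fun k => ?_)
    rw [inv_div]
    have := hr k
    by_cases h0 : e k 0 3 = 0
    · simp [h0]
    · field_simp
  have hp : ∀ i, Tendsto (fun k => e k i 3 / e k 0 3) atTop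
      (𝓝 ((Pi.single 0 1 : Fin 4 → ℝ) i)) := by
    intro i
    have h1 := (hent i 3).div ha one_ne_zero
    have h2 : (Matrix.single 0 3 1 : Matrix (Fin 4) (Fin 4) ℝ) i 3 / 1
        = (Pi.single 0 1 : Fin 4 → ℝ) i := by
      fin_cases i <;> simp
    rw [h2] at h1
    refine h1.congr (fun k => ?_)
    simp only [Pi.div_apply]
    rw [div_div_div_cancel_right₀ (hr k)]
  have hq : ∀ i, Tendsto (fun k => e k 0 i / e k 0 3) atTop
      (𝓝 ((Pi.single 3 1 : Fin 4 → ℝ) i)) := by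
    intro i
    have h1 := (hent 0 i).div ha one_ne_zero
    have h2 : (Matrix.single 0 3 1 : Matrix (Fin 4) (Fin 4) ℝ) 0 i / 1
        = (Pi.single 3 1 : Fin 4 → ℝ) i := by
      fin_cases i <;> simp
    rw [h2] at h1
    refine h1.congr (fun k => ?_)
    simp only [Pi.div_apply]
    rw [div_div_div_cancel_right₀ (hr k)]
  -- the remainder
  obtain ⟨R, hR⟩ : ∃ R : ℕ → Matrix (Fin 4) (Fin 4) ℝ, R =
    fun k => Matrix.of fun i j => e k i j - e k i 3 * e k 0 j / e k 0 3 := ⟨_, rfl⟩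
  have hRe : ∀ k i j, R k i j = e k i j - e k i 3 * e k 0 j / e k 0 3 := fun k i j => by
    rw [hR]; rfl
  have hR0 : ∀ᶠ k in atTop, ∀ j, R k 0 j = 0 := by
    filter_upwards [ha0] with k hk j
    rw [hRe]
    field_simp
    ring
  have hR3 : ∀ᶠ k in atTop, ∀ i, R k i 3 = 0 := by
    filter_upwards [ha0] with k hk i
    rw [hRe]
    field_simp
    ring
  have hRm : ∀ i j, Tendsto (fun k => R k (md i) (md j)) atTop (𝓝 (σ i j)) := by
    intro i j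
    refine (tendsto_entry hσ i j).congr (fun k => ?_)
    rw [hRe]
    rfl
  have hR11 : Tendsto (fun k => R k 1 1) atTop (𝓝 (σ 0 0)) := hRm 0 0
  have hR12 : Tendsto (fun k => R k 1 2) atTop (𝓝 (σ 0 1)) := hRm 0 1
  have hR21 : Tendsto (fun k => R k 2 1) atTop (𝓝 (σ 1 0)) := hRm 1 0
  have hR22 : Tendsto (fun k => R k 2 2) atTop (𝓝 (σ 1 1)) := hRm 1 1
  have hp1 : Tendsto (fun k => e k 1 3 / e k 0 3) atTop (𝓝 0) := by simpa using hp 1
  have hp2 : Tendsto (fun k => e k 2 3 / e k 0 3) atTop (𝓝 0) := by simpa using hp 2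
  have hq1 : Tendsto (fun k => e k 0 1 / e k 0 3) atTop (𝓝 0) := by simpa using hq 1
  have hq2 : Tendsto (fun k => e k 0 2 / e k 0 3) atTop (𝓝 0) := by simpa using hq 2
  have hee : ε * ε = 1 := by rcases hε with h | h <;> rw [h] <;> norm_num
  -- the last row
  have hrow : ∀ᶠ k in atTop, ∀ j, R k 3 j = ε * ((if j = 0 then 1 else 0) * (e k 0 3)⁻¹
      - (H 0 0 * (e k 1 3 / e k 0 3) + H 0 1 * (e k 2 3 / e k 0 3)) * R k 1 j
      - (H 1 0 * (e k 1 3 / e k 0 3) + H 1 1 * (e k 2 3 / e k 0 3)) * R k 2 j) := by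
    filter_upwards [ha0] with k hk j
    have h33 := congrFun (congrFun (hiso k) 3) 3
    have hj3 := congrFun (congrFun (hiso k) j) 3
    have hg : gram4 ε H j 3 = if j = 0 then 1 else 0 := by
      fin_cases j <;> simp [gram4]
    rw [hg] at hj3
    simp [Matrix.mul_apply, Fin.sum_univ_four, gram4] at h33 hj3
    simp only [hRe]
    rw [vec_id ε (e k 0 3) (e k 1 3) (e k 2 3) (e k 3 3) (e k 0 j) (e k 1 j) (e k 2 j) (e k 3 j)
      (H 0 0 * e k 1 3 + H 0 1 * e k 2 3) (H 1 0 * e k 1 3 + H 1 1 * e k 2 3)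
      (if j = 0 then 1 else 0) hee hk (by rw [← hj3]; ring) (by rw [← h33]; ring)]
    ring
  -- the first column
  have hcol : ∀ᶠ k in atTop, ∀ i, R k i 0 = ε * ((if i = 3 then 1 else 0) * (e k 0 3)⁻¹
      - (H⁻¹ 1 0 * (e k 0 1 / e k 0 3) + H⁻¹ 1 1 * (e k 0 2 / e k 0 3)) * R k i 2
      - (H⁻¹ 0 0 * (e k 0 1 / e k 0 3) + H⁻¹ 0 1 * (e k 0 2 / e k 0 3)) * R k i 1) := by
    filter_upwards [ha0] with k hk i
    have hinv := iso_inv ε H hε hHd (e k) (hiso k)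
    have h00 := congrFun (congrFun hinv 0) 0
    have hi0 := congrFun (congrFun hinv i) 0
    have hg : gramI ε H⁻¹ i 0 = if i = 3 then 1 else 0 := by
      fin_cases i <;> simp [gramI]
    rw [hg] at hi0
    generalize H⁻¹ = G at *
    simp [Matrix.mul_apply, Fin.sum_univ_four, gramI] at h00 hi0
    simp only [hRe]
    have := vec_id ε (e k 0 3) (e k 0 2) (e k 0 1) (e k 0 0) (e k i 3) (e k i 2) (e k i 1) (e k i 0)
      (G 1 0 * e k 0 1 + G 1 1 * e k 0 2) (G 0 0 * e k 0 1 + G 0 1 * e k 0 2)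
      (if i = 3 then 1 else 0) hee hk (by rw [← hi0]; ring) (by rw [← h00]; ring)
    rw [mul_comm (e k i 3), this]
    ring
  have hR3j : ∀ j : Fin 4, j ≠ 0 → (∃ c, Tendsto (fun k => R k 1 j) atTop (𝓝 c)) →
      (∃ c, Tendsto (fun k => R k 2 j) atTop (𝓝 c)) →
      Tendsto (fun k => R k 3 j) atTop (𝓝 0) := by
    rintro j hj ⟨c1, hc1⟩ ⟨c2, hc2⟩
    have h1 : Tendsto (fun k => ε * ((if j = 0 then 1 else 0) * (e k 0 3)⁻¹
      - (H 0 0 * (e k 1 3 / e k 0 3) + H 0 1 * (e k 2 3 / e k 0 3)) * R k 1 j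
      - (H 1 0 * (e k 1 3 / e k 0 3) + H 1 1 * (e k 2 3 / e k 0 3)) * R k 2 j)) atTop
      (𝓝 (ε * ((if j = 0 then 1 else 0) * 0
      - (H 0 0 * 0 + H 0 1 * 0) * c1
      - (H 1 0 * 0 + H 1 1 * 0) * c2))) :=
      tendsto_const_nhds.mul (((tendsto_const_nhds.mul hainv).sub
        (((tendsto_const_nhds.mul hp1).add (tendsto_const_nhds.mul hp2)).mul hc1)).sub
        (((tendsto_const_nhds.mul hp1).add (tendsto_const_nhds.mul hp2)).mul hc2))
    have h2 : (ε * ((if j = 0 then 1 else 0) * 0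
      - (H 0 0 * 0 + H 0 1 * 0) * c1
      - (H 1 0 * 0 + H 1 1 * 0) * c2)) = 0 := by ring
    rw [h2] at h1
    refine h1.congr' ?_
    filter_upwards [hrow] with k hk
    rw [hk j]
  have hRi0 : ∀ i : Fin 4, (∃ c, Tendsto (fun k => R k i 1) atTop (𝓝 c)) →
      (∃ c, Tendsto (fun k => R k i 2) atTop (𝓝 c)) →
      Tendsto (fun k => R k i 0) atTop (𝓝 0) := by
    rintro i ⟨c1, hc1⟩ ⟨c2, hc2⟩
    have h1 : Tendsto (fun k => ε * ((if i = 3 then 1 else 0) * (e k 0 3)⁻¹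
      - (H⁻¹ 1 0 * (e k 0 1 / e k 0 3) + H⁻¹ 1 1 * (e k 0 2 / e k 0 3)) * R k i 2
      - (H⁻¹ 0 0 * (e k 0 1 / e k 0 3) + H⁻¹ 0 1 * (e k 0 2 / e k 0 3)) * R k i 1)) atTop
      (𝓝 (ε * ((if i = 3 then 1 else 0) * 0
      - (H⁻¹ 1 0 * 0 + H⁻¹ 1 1 * 0) * c2
      - (H⁻¹ 0 0 * 0 + H⁻¹ 0 1 * 0) * c1))) :=
      tendsto_const_nhds.mul (((tendsto_const_nhds.mul hainv).sub
        (((tendsto_const_nhds.mul hq1).add (tendsto_const_nhds.mul hq2)).mul hc2)).sub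
        (((tendsto_const_nhds.mul hq1).add (tendsto_const_nhds.mul hq2)).mul hc1))
    have h2 : (ε * ((if i = 3 then 1 else 0) * 0
      - (H⁻¹ 1 0 * 0 + H⁻¹ 1 1 * 0) * c2
      - (H⁻¹ 0 0 * 0 + H⁻¹ 0 1 * 0) * c1)) = 0 := by ring
    rw [h2] at h1
    refine h1.congr' ?_
    filter_upwards [hcol] with k hk
    rw [hk i]
  have hR31 := hR3j 1 (by decide) ⟨_, hR11⟩ ⟨_, hR21⟩
  have hR32 := hR3j 2 (by decide) ⟨_, hR12⟩ ⟨_, hR22⟩
  have hR10 := hRi0 1 ⟨_, hR11⟩ ⟨_, hR12⟩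
  have hR20 := hRi0 2 ⟨_, hR21⟩ ⟨_, hR22⟩
  have hR30 := hRi0 3 ⟨_, hR31⟩ ⟨_, hR32⟩
  have hR0' : ∀ j, Tendsto (fun k => R k 0 j) atTop (𝓝 0) := fun j =>
    tendsto_const_nhds.congr' (hR0.mono (fun k hk => (hk j).symm))
  have hR3' : ∀ i, Tendsto (fun k => R k i 3) atTop (𝓝 0) := fun i =>
    tendsto_const_nhds.congr' (hR3.mono (fun k hk => (hk i).symm))
  refine ⟨fun k => e k 0 3, fun k i => e k i 3 / e k 0 3, fun k j => e k 0 j / e k 0 3, R, ?_,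
    hainv, hp, hq, ?_⟩
  · filter_upwards [ha0, hR0, hR3] with k h1 h2 h3
    refine ⟨h1, fun i j => ?_, h2, h3, div_self h1, div_self h1⟩
    rw [hRe]
    field_simp
    ring
  · refine tendsto_mat (fun i j => ?_)
    fin_cases i <;> fin_cases j <;> simp only [emb] <;>
      first
        | exact hR0' _
        | exact hR3' _
        | exact hR10
        | exact hR20
        | exact hR30
        | exact hR31
        | exact hR32
        | exact hR11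
        | exact hR12
        | exact hR21
        | exact hR22

/-- The identity of the limits. -/
private theorem lim_id (f g : Matrix (Fin 4) (Fin 4) ℝ) (hf : c30 f ≠ 0) (hg : c30 g ≠ 0)
    (i j : Fin 2) :
    (f (md i) 0 * g 3 (md j) * (f * emb σ * g) 3 0 + (f * emb σ * g) (md i) (md j) * (f 3 0 * g 3 0)
      - f (md i) 0 * g 3 0 * (f * emb σ * g) 3 (md j)
      - (f * emb σ * g) (md i) 0 * (f 3 0 * g 3 (md j))) / (f 3 0 * g 3 0)
      = (schur f * σ * schur g) i j := by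
  have hf' : f 3 0 ≠ 0 := hf
  have hg' : g 3 0 ≠ 0 := hg
  simp only [Matrix.mul_apply, Fin.sum_univ_four, Fin.sum_univ_two, emb, schur, Matrix.of_apply]
  simp [md]
  field_simp
  ring

private theorem frac_id (a ui u3 v0 vj T30 T3j Ti0 Tij : ℝ) (ha : a ≠ 0)
    (hD : a * (u3 * v0) + T30 ≠ 0) :
    (ui * vj * T30 + Tij * (u3 * v0) - ui * v0 * T3j - Ti0 * (u3 * vj)
      + (Tij * T30 - Ti0 * T3j) * a⁻¹) / (u3 * v0 + T30 * a⁻¹)
      = a * (ui * vj) + Tij - (a * (ui * v0) + Ti0) * (a * (u3 * vj) + T3j)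
        / (a * (u3 * v0) + T30) := by
  obtain ⟨D, hDe⟩ : ∃ D, D = a * (u3 * v0) + T30 := ⟨_, rfl⟩
  have h1 : T30 = D - a * (u3 * v0) := by rw [hDe]; ring
  rw [← hDe] at hD
  rw [← hDe]
  have h2 : u3 * v0 + T30 * a⁻¹ = D * a⁻¹ := by rw [hDe]; field_simp
  rw [h2, h1]
  field_simp
  ring

theorem lim_schur (hε : ε = 1 ∨ ε = -1) (hH : Hᵀ = ε • H) (hHd : H.det ≠ 0)
    (hiso : ∀ k, (e k)ᵀ * gram4 ε H * e k = gram4 ε H) (hr : ∀ k, r k ≠ 0)
    (hr1 : Tendsto (fun k => |r k|) atTop atTop)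
    (he : Tendsto (fun k => (r k)⁻¹ • e k) atTop (𝓝 (Matrix.single 0 3 1)))
    (hσ : Tendsto (fun k => schur' (e k)) atTop (𝓝 σ)) (f g : Matrix (Fin 4) (Fin 4) ℝ)
    (hf : c30 f ≠ 0) (hg : c30 g ≠ 0) :
    Tendsto (fun k => schur (f * e k * g)) atTop (𝓝 (schur f * σ * schur g)) := by
  obtain ⟨a, p, q, R, hd, ha, hp, hq, hR⟩ := ek_dec ε H σ e r hε hHd hiso hr hr1 he hσ
  have hu : ∀ i, Tendsto (fun k => f i 0 * p k 0 + f i 1 * p k 1 + f i 2 * p k 2 + f i 3 * p k 3)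
      atTop (𝓝 (f i 0)) := by
    intro i
    have h1 := (((tendsto_const_nhds (x := f i 0)).mul (hp 0)).add
      ((tendsto_const_nhds (x := f i 1)).mul (hp 1))).add
      ((tendsto_const_nhds (x := f i 2)).mul (hp 2)) |>.add
      ((tendsto_const_nhds (x := f i 3)).mul (hp 3))
    simpa using h1
  have hv : ∀ j, Tendsto (fun k => q k 0 * g 0 j + q k 1 * g 1 j + q k 2 * g 2 j + q k 3 * g 3 j)
      atTop (𝓝 (g 3 j)) := by
    intro j
    have h1 := (((hq 0).mul (tendsto_const_nhds (x := g 0 j))).add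
      ((hq 1).mul (tendsto_const_nhds (x := g 1 j)))).add
      ((hq 2).mul (tendsto_const_nhds (x := g 2 j))) |>.add
      ((hq 3).mul (tendsto_const_nhds (x := g 3 j)))
    simpa using h1
  have hT : ∀ i j, Tendsto (fun k => (f * R k * g) i j) atTop (𝓝 ((f * emb σ * g) i j)) := by
    intro i j
    exact tendsto_entry ((tendsto_const_nhds.mul hR).mul tendsto_const_nhds) i j
  obtain ⟨u, hue⟩ : ∃ u : ℕ → Fin 4 → ℝ, u =
    fun k i => f i 0 * p k 0 + f i 1 * p k 1 + f i 2 * p k 2 + f i 3 * p k 3 := ⟨_, rfl⟩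
  obtain ⟨v, hve⟩ : ∃ v : ℕ → Fin 4 → ℝ, v =
    fun k j => q k 0 * g 0 j + q k 1 * g 1 j + q k 2 * g 2 j + q k 3 * g 3 j := ⟨_, rfl⟩
  obtain ⟨T, hTe⟩ : ∃ T : ℕ → Matrix (Fin 4) (Fin 4) ℝ, T = fun k => f * R k * g := ⟨_, rfl⟩
  have hu' : ∀ i, Tendsto (fun k => u k i) atTop (𝓝 (f i 0)) := by rw [hue]; exact hu
  have hv' : ∀ j, Tendsto (fun k => v k j) atTop (𝓝 (g 3 j)) := by rw [hve]; exact hv
  have hT' : ∀ i j, Tendsto (fun k => T k i j) atTop (𝓝 ((f * emb σ * g) i j)) := by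
    rw [hTe]; exact hT
  have hA : ∀ᶠ k in atTop, ∀ i j, (f * e k * g) i j = a k * (u k i * v k j) + T k i j := by
    filter_upwards [hd] with k hk i j
    obtain ⟨-, h2, -⟩ := hk
    rw [hue, hve, hTe]
    simp only [Matrix.mul_apply, Fin.sum_univ_four, h2]
    ring
  have hD : Tendsto (fun k => u k 3 * v k 0 + T k 3 0 * (a k)⁻¹) atTop (𝓝 (f 3 0 * g 3 0)) := by
    have := ((hu' 3).mul (hv' 0)).add ((hT' 3 0).mul ha)
    simpa using this
  have hne : f 3 0 * g 3 0 ≠ 0 := mul_ne_zero hf hg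
  have hD0 : ∀ᶠ k in atTop, u k 3 * v k 0 + T k 3 0 * (a k)⁻¹ ≠ 0 := hD.eventually_ne hne
  refine tendsto_mat (fun i j => ?_)
  rw [← lim_id σ f g hf hg i j]
  have hN : Tendsto (fun k => (u k (md i) * v k (md j) * T k 3 0 + T k (md i) (md j) *
      (u k 3 * v k 0) - u k (md i) * v k 0 * T k 3 (md j) - T k (md i) 0 * (u k 3 * v k (md j)))
      + (T k (md i) (md j) * T k 3 0 - T k (md i) 0 * T k 3 (md j)) * (a k)⁻¹) atTop
      (𝓝 (f (md i) 0 * g 3 (md j) * (f * emb σ * g) 3 0 + (f * emb σ * g) (md i) (md j) *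
      (f 3 0 * g 3 0)
      - f (md i) 0 * g 3 0 * (f * emb σ * g) 3 (md j)
      - (f * emb σ * g) (md i) 0 * (f 3 0 * g 3 (md j)))) := by
    have h1 := (((((hu' (md i)).mul (hv' (md j))).mul (hT' 3 0)).add ((hT' (md i) (md j)).mul
      ((hu' 3).mul (hv' 0)))).sub (((hu' (md i)).mul (hv' 0)).mul (hT' 3 (md j)))).sub
      ((hT' (md i) 0).mul ((hu' 3).mul (hv' (md j))))
    have h2 := (((hT' (md i) (md j)).mul (hT' 3 0)).sub ((hT' (md i) 0).mul (hT' 3 (md j)))).mul ha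
    have h3 := h1.add h2
    rw [mul_zero, add_zero] at h3
    exact h3
  refine (hN.div hD hne).congr' ?_
  filter_upwards [hA, hD0, hd] with k h1 h2 h3
  obtain ⟨h4, -⟩ := h3
  have h5 : a k * (u k 3 * v k 0) + T k 3 0 ≠ 0 := by
    have : a k * (u k 3 * v k 0) + T k 3 0 = a k * (u k 3 * v k 0 + T k 3 0 * (a k)⁻¹) := by
      field_simp
    rw [this]
    exact mul_ne_zero h4 h2
  simp only [schur, Matrix.of_apply, h1, Pi.div_apply]
  exact frac_id _ _ _ _ _ _ _ _ _ h4 h5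

/-- The identity of the limits. -/
private theorem lim_id' (f : Matrix (Fin 4) (Fin 4) ℝ) (hf : c30 f ≠ 0) (i j : Fin 2) :
    (emb σ * f * emb σ) (md i) (md j) - (emb σ * f) (md i) 0 * (f * emb σ) 3 (md j) / f 3 0
      = (σ * schur f * σ) i j := by
  have hf' : f 3 0 ≠ 0 := hf
  simp only [Matrix.mul_apply, Fin.sum_univ_four, Fin.sum_univ_two, emb, schur, Matrix.of_apply]
  fin_cases i <;> fin_cases j <;> simp [md] <;> field_simp <;> ring

theorem lim_schur' (hε : ε = 1 ∨ ε = -1) (hH : Hᵀ = ε • H) (hHd : H.det ≠ 0)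
    (hiso : ∀ k, (e k)ᵀ * gram4 ε H * e k = gram4 ε H) (hr : ∀ k, r k ≠ 0)
    (hr1 : Tendsto (fun k => |r k|) atTop atTop)
    (he : Tendsto (fun k => (r k)⁻¹ • e k) atTop (𝓝 (Matrix.single 0 3 1)))
    (hσ : Tendsto (fun k => schur' (e k)) atTop (𝓝 σ)) (f : Matrix (Fin 4) (Fin 4) ℝ)
    (hf : c30 f ≠ 0) :
    Tendsto (fun k => schur' (e k * f * e k)) atTop (𝓝 (σ * schur f * σ)) := by
  obtain ⟨a, p, q, R, hd, ha, hp, hq, hR⟩ := ek_dec ε H σ e r hε hHd hiso hr hr1 he hσ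
  have hz : ∀ i, Tendsto (fun k => (R k * f) i 0 * p k 0 + (R k * f) i 1 * p k 1
      + (R k * f) i 2 * p k 2 + (R k * f) i 3 * p k 3) atTop (𝓝 ((emb σ * f) i 0)) := by
    intro i
    have hRf : Tendsto (fun k => R k * f) atTop (𝓝 (emb σ * f)) := hR.mul tendsto_const_nhds
    have h1 := (((tendsto_entry hRf i 0).mul (hp 0)).add
      ((tendsto_entry hRf i 1).mul (hp 1))).add
      ((tendsto_entry hRf i 2).mul (hp 2)) |>.add
      ((tendsto_entry hRf i 3).mul (hp 3))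
    simpa using h1
  have hw : ∀ j, Tendsto (fun k => q k 0 * (f * R k) 0 j + q k 1 * (f * R k) 1 j
      + q k 2 * (f * R k) 2 j + q k 3 * (f * R k) 3 j) atTop (𝓝 ((f * emb σ) 3 j)) := by
    intro j
    have hRf : Tendsto (fun k => f * R k) atTop (𝓝 (f * emb σ)) := tendsto_const_nhds.mul hR
    have h1 := (((hq 0).mul (tendsto_entry hRf 0 j)).add
      ((hq 1).mul (tendsto_entry hRf 1 j))).add
      ((hq 2).mul (tendsto_entry hRf 2 j)) |>.add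
      ((hq 3).mul (tendsto_entry hRf 3 j))
    simpa using h1
  have hu : ∀ i, Tendsto (fun k => f i 0 * p k 0 + f i 1 * p k 1 + f i 2 * p k 2 + f i 3 * p k 3)
      atTop (𝓝 (f i 0)) := by
    intro i
    have h1 := (((tendsto_const_nhds (x := f i 0)).mul (hp 0)).add
      ((tendsto_const_nhds (x := f i 1)).mul (hp 1))).add
      ((tendsto_const_nhds (x := f i 2)).mul (hp 2)) |>.add
      ((tendsto_const_nhds (x := f i 3)).mul (hp 3))
    simpa using h1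
  have hs : Tendsto (fun k => q k 0 * (f 0 0 * p k 0 + f 0 1 * p k 1 + f 0 2 * p k 2 + f 0 3 * p k 3)
      + q k 1 * (f 1 0 * p k 0 + f 1 1 * p k 1 + f 1 2 * p k 2 + f 1 3 * p k 3)
      + q k 2 * (f 2 0 * p k 0 + f 2 1 * p k 1 + f 2 2 * p k 2 + f 2 3 * p k 3)
      + q k 3 * (f 3 0 * p k 0 + f 3 1 * p k 1 + f 3 2 * p k 2 + f 3 3 * p k 3)) atTop
      (𝓝 (f 3 0)) := by
    have h1 := (((hq 0).mul (hu 0)).add ((hq 1).mul (hu 1))).add ((hq 2).mul (hu 2)) |>.add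
      ((hq 3).mul (hu 3))
    simpa using h1
  have hT : ∀ i j, Tendsto (fun k => (R k * f * R k) i j) atTop
      (𝓝 ((emb σ * f * emb σ) i j)) := by
    intro i j
    exact tendsto_entry ((hR.mul tendsto_const_nhds).mul hR) i j
  obtain ⟨z, hze⟩ : ∃ z : ℕ → Fin 4 → ℝ, z = fun k i => (R k * f) i 0 * p k 0
      + (R k * f) i 1 * p k 1 + (R k * f) i 2 * p k 2 + (R k * f) i 3 * p k 3 := ⟨_, rfl⟩
  obtain ⟨w, hwe⟩ : ∃ w : ℕ → Fin 4 → ℝ, w = fun k j => q k 0 * (f * R k) 0 j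
      + q k 1 * (f * R k) 1 j + q k 2 * (f * R k) 2 j + q k 3 * (f * R k) 3 j := ⟨_, rfl⟩
  obtain ⟨s, hse⟩ : ∃ s : ℕ → ℝ, s = fun k =>
      q k 0 * (f 0 0 * p k 0 + f 0 1 * p k 1 + f 0 2 * p k 2 + f 0 3 * p k 3)
      + q k 1 * (f 1 0 * p k 0 + f 1 1 * p k 1 + f 1 2 * p k 2 + f 1 3 * p k 3)
      + q k 2 * (f 2 0 * p k 0 + f 2 1 * p k 1 + f 2 2 * p k 2 + f 2 3 * p k 3)
      + q k 3 * (f 3 0 * p k 0 + f 3 1 * p k 1 + f 3 2 * p k 2 + f 3 3 * p k 3) := ⟨_, rfl⟩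
  obtain ⟨T, hTe⟩ : ∃ T : ℕ → Matrix (Fin 4) (Fin 4) ℝ, T = fun k => R k * f * R k := ⟨_, rfl⟩
  have hz' : ∀ i, Tendsto (fun k => z k i) atTop (𝓝 ((emb σ * f) i 0)) := by rw [hze]; exact hz
  have hw' : ∀ j, Tendsto (fun k => w k j) atTop (𝓝 ((f * emb σ) 3 j)) := by rw [hwe]; exact hw
  have hs' : Tendsto s atTop (𝓝 (f 3 0)) := by rw [hse]; exact hs
  have hT' : ∀ i j, Tendsto (fun k => T k i j) atTop (𝓝 ((emb σ * f * emb σ) i j)) := by
    rw [hTe]; exact hT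
  have hne : f 3 0 ≠ 0 := hf
  have hs0 : ∀ᶠ k in atTop, s k ≠ 0 := hs'.eventually_ne hne
  have hA : ∀ᶠ k in atTop, (∀ i j, (e k * f * e k) i j = a k * a k * s k * (p k i * q k j)
      + a k * (p k i * w k j) + a k * (z k i * q k j) + T k i j) ∧ z k 0 = 0 ∧ w k 3 = 0 ∧
      (∀ j, T k 0 j = 0) ∧ (∀ i, T k i 3 = 0) := by
    filter_upwards [hd] with k hk
    obtain ⟨-, h2, h3, h4, -, -⟩ := hk
    refine ⟨fun i j => ?_, ?_, ?_, fun j => ?_, fun i => ?_⟩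
    · rw [hze, hwe, hTe, hse]
      simp only [Matrix.mul_apply, Fin.sum_univ_four, h2]
      ring
    · rw [hze]
      simp only [Matrix.mul_apply, Fin.sum_univ_four, h3]
      ring
    · rw [hwe]
      simp only [Matrix.mul_apply, Fin.sum_univ_four, h4]
      ring
    · rw [hTe]
      simp only [Matrix.mul_apply, Fin.sum_univ_four, h3]
      ring
    · rw [hTe]
      simp only [Matrix.mul_apply, Fin.sum_univ_four, h4]
      ring
  refine tendsto_mat (fun i j => ?_)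
  rw [← lim_id' σ f hf i j]
  have hN : Tendsto (fun k => T k (md i) (md j) - z k (md i) * w k (md j) / s k) atTop
      (𝓝 ((emb σ * f * emb σ) (md i) (md j)
        - (emb σ * f) (md i) 0 * (f * emb σ) 3 (md j) / f 3 0)) :=
    (hT' _ _).sub (((hz' _).mul (hw' _)).div hs' hne)
  refine hN.congr' ?_
  filter_upwards [hA, hs0, hd] with k h1 h2 h3
  obtain ⟨h4, h5, h6, h7, h8⟩ := h1
  obtain ⟨ha0, -, -, -, hp0, hq3⟩ := h3
  simp only [schur', Matrix.of_apply, h4, h5, h6, h7, h8, hp0, hq3]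
  field_simp
  ring

end

end Pool.AF
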