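import Pool.Agent.Helper94.AC.NearG

/-!
# AC-36 SUBND: an invariant hyperplane of the lineality space (uses the stubs of AC-35)

Proof of `nd_sub`. Suppose that `DiscMod (hatHom D.Γ) S.e`. Apply `aus1` (`Pool/Agent/SV/Aus1.lean`) to
`φ = S.base` and `e = T.e`: it gives `HasAbNormal D.Γ`, a contradiction. Its hypotheses: `S.base` is
injective by `base_inj`, since `modSub D S.U ≤ modSub D T.U = ⊥`. `hdisc`: `(1 - S.e) * hat g * (1 - S.e) =
S.base g - S.e`, so `‖S.base g‖ ≤ C` implies that its norm is `≤ C + ‖S.e‖`. `hinv`: `base_block_a`.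
`hsmall`: let `ε > 0`; by `near_comm` for `T` (`hnd`) there is `c ∈ commutator D.Γ`, `c ≠ 1`, with
`‖T.base c - 1‖ < ε`. We claim that `T.e * S.base c * T.e = T.e`; then, by `base_block_b`,
`T.e * S.base c * T.e + (1 - T.e) * S.base c * (1 - T.e) = T.base c`. Proof of the claim: let
`v = T.e z ∈ T.U × 0`; `S.base c v - v = (1 - S.e) (hat c ((1 - S.e) v) - (1 - S.e) v)` (expand; `S.e` is
idempotent), and with `(1 - S.e) v = (v', 0)`, `v' ∈ T.U` (`S.U ≤ T.U`), `hat c (v', 0) - (v', 0) =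
(c.linear v' - v', 0)` and `c.linear v' - v' ∈ S.U`, as `c` is in the commutator subgroup and acts
trivially on the one-dimensional space `T.U / S.U` (`one_dim` in `AM/Tools.lean` for `quoRep`); so
`(1 - S.e)` kills it.
-/

open Set Filter Topology

set_option linter.unusedSectionVars false

namespace Pool.AF

open Pool.SV

section

variable {E : Type*} [NormedAddCommGroup E] [NormedSpace ℝ E] [FiniteDimensional ℝ E]
  {D : Geo E}

private theorem sn_idem (S : InvSub D) (v : E × ℝ) : S.e (S.e v) = S.e v :=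
  congrArg (fun T : Alg E => T v) S.idem

private theorem sn_snd (S : InvSub D) (v : E × ℝ) : (S.e v).2 = 0 :=
  ((S.range (S.e v)).1 (sn_idem S v)).1

private theorem sn_fst (S : InvSub D) (v : E × ℝ) : (S.e v).1 ∈ S.U :=
  ((S.range (S.e v)).1 (sn_idem S v)).2

private theorem sn_eq (S : InvSub D) (u : E) (hu : u ∈ S.U) : S.e (u, 0) = (u, 0) :=
  (S.range (u, 0)).2 ⟨rfl, hu⟩

private theorem sn_hat (g : D.Γ) (w : E) : hatHom D.Γ g (w, 0) = (g.1.linear w, 0) := by
  have h : hatHom D.Γ g (w, 0) = (g.1.linear w + (0 : ℝ) • g.1 0, (0 : ℝ)) := rfl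
  rw [h, zero_smul, add_zero]

private theorem sn_triv (S T : InvSub D) (hle : S.U ≤ T.U)
    (h1 : Module.finrank ℝ T.U = Module.finrank ℝ S.U + 1) (c : D.Γ) (hc : c ∈ commutator D.Γ)
    (w : E) (hw : w ∈ T.U) : c.1.linear w - w ∈ S.U := by
  set U' : Submodule ℝ T.U := S.U.comap T.U.subtype with hU'
  have hinv : ∀ g : D.Γ, ∀ u ∈ U', T.lrep g u ∈ U' := by
    intro g u hu
    exact S.inv g.1 g.2 _ hu
  have hf : Module.finrank ℝ U' = Module.finrank ℝ S.U :=
    LinearEquiv.finrank_eq (Submodule.comapSubtypeEquivOfLe hle)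
  have hq : Module.finrank ℝ (T.U ⧸ U') = 1 := by
    have h2 := Submodule.finrank_quotient_add_finrank U'
    omega
  have h3 := one_dim hq (quoRep T.lrep U' hinv) c hc
  have h4 : quoRep T.lrep U' hinv c (U'.mkQ ⟨w, hw⟩) = U'.mkQ ⟨w, hw⟩ := by
    rw [h3]; rfl
  rw [quoRep_mk] at h4
  have h5 : T.lrep c ⟨w, hw⟩ - ⟨w, hw⟩ ∈ U' := by
    rw [Submodule.mkQ_apply, Submodule.mkQ_apply] at h4
    exact (Submodule.Quotient.eq U').1 h4
  exact h5

private theorem sn_claim (S T : InvSub D) (hle : S.U ≤ T.U)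
    (h1 : Module.finrank ℝ T.U = Module.finrank ℝ S.U + 1) (c : D.Γ)
    (hc : c ∈ commutator D.Γ) : T.e * S.base c * T.e = T.e := by
  refine ContinuousLinearMap.ext (fun z => ?_)
  change T.e (S.base c (T.e z)) = T.e z
  have key : S.base c (T.e z) = T.e z := by
    set v := T.e z with hv
    have hv2 : v.2 = 0 := sn_snd T z
    have hv1 : v.1 ∈ T.U := sn_fst T z
    have e1 : S.base c v = S.e v + (hatHom D.Γ c (v - S.e v) - S.e (hatHom D.Γ c (v - S.e v))) :=
      rfl
    set w : E := v.1 - (S.e v).1 with hw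
    have hwT : w ∈ T.U := T.U.sub_mem hv1 (hle (sn_fst S v))
    have e2 : v - S.e v = (w, 0) := by
      apply Prod.ext
      · rfl
      · change v.2 - (S.e v).2 = 0
        rw [hv2, sn_snd S v, sub_zero]
    have e3 : S.e (w, 0) = 0 := by
      rw [← e2, map_sub, sn_idem S v, sub_self]
    have hd := sn_triv S T hle h1 c hc w hwT
    have e4 : hatHom D.Γ c (w, 0) = (w, 0) + (c.1.linear w - w, 0) := by
      rw [sn_hat, Prod.mk_add_mk, add_zero, add_sub_cancel]
    rw [e1, e2, e4, map_add, e3, sn_eq S _ hd, zero_add, add_sub_cancel_right, ← e2,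
      add_sub_cancel]
  rw [key, sn_idem T z]

theorem nd_sub (S T : InvSub D) (hle : S.U ≤ T.U)
    (h1 : Module.finrank ℝ T.U = Module.finrank ℝ S.U + 1)
    (hnd : ¬ DiscMod (hatHom D.Γ) T.e) (hM : modSub D T.U = ⊥) (hab : ¬ HasAbNormal D.Γ) :
    ¬ DiscMod (hatHom D.Γ) S.e := by
  intro hdisc
  apply hab
  have hMS : modSub D S.U = ⊥ := by
    rw [eq_bot_iff, ← hM]
    intro g hg x hx
    exact hle (hg x hx)
  refine aus1 S.base (base_inj S hMS) ?_ T.e T.idem (base_block_a S T hle) ?_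
  · intro C
    refine (hdisc (C + ‖S.e‖)).subset ?_
    have hb : ∀ g : D.Γ, ‖S.base g‖ ≤ C →
        ‖(1 - S.e) * hatHom D.Γ g * (1 - S.e)‖ ≤ C + ‖S.e‖ := by
      intro g hg
      have h2 : (1 - S.e) * hatHom D.Γ g * (1 - S.e) = S.base g - S.e := by
        rw [S.base_apply, add_sub_cancel_left]
      rw [h2]
      exact (norm_sub_le _ _).trans (by linarith)
    intro g hg
    exact ⟨hb g hg.1, hb g⁻¹ hg.2⟩
  · intro ε hε
    obtain ⟨c, hc, hc1, hcε⟩ := near_comm T hnd hM hab ε hε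
    refine ⟨c, hc1, ?_⟩
    rw [sn_claim S T hle h1 c hc, base_block_b S T hle c, ← T.base_apply]
    exact hcε

end

end Pool.AF
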