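import Pool.Agent.Helper94.AC.SubND

/-!
# AC-40 V31: an invariant hyperplane of the lineality space (uses the stubs AC-35, AC-36)

Follow `vanish_inv3` in `Pool/Agent/Helper94/AM/Four.lean` (the case `modSub D (linSub D) ≠ ⊥`; here it
is `⊥`).

(1) If some subgroup of finite index does not act irreducibly on `U`: exactly as there
(`vanish_flag2`, `vanish_flag3`).

(2) If `HasAbNormal D.Γ`: `vanish_of_hasAbNormal`.

(3) Otherwise let `U' = U.map (linSub D).subtype`, `S : InvSub D` with `S.U = U'` (`exists_invSub`), and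
`T : InvSub D` with `T.U = linSub D` (`exists_linInv`), `¬ DiscMod (hatHom D.Γ) T.e` by `nd_of_line`
(`Pool/Agent/Helper94/AB/Main.lean`). `modSub D S.U ≤ modSub D (linSub D) = ⊥`. By `nd_sub`,
`¬ DiscMod (hatHom D.Γ) S.e`. Every subgroup of finite index acts irreducibly on `S.U` (the equivalence
`U ≃ U'` intertwines `subRep (linRep D) U hU` and `S.lrep`). So `S.Good`, and `form_of_good`
(`Pool/Agent/Helper94/AB/Three.lean`) gives a symmetric nondegenerate form on `S.U` preserved up to
positive scalars. `type_of_form` (see `vanish_three'` in `AB/Main.lean`) gives `Γ₁` with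
`QuadType Γ₁ ⊥ U' 1 ∨ ConeType Γ₁ ⊥ U'`; conclude as at the end of `vanish_inv3` with `coneFlag_two'`
and `quadType_small`.
-/

open Set Finset

set_option linter.unusedSectionVars false

namespace Pool.AF

open Pool.SV

section

variable {E : Type*} [NormedAddCommGroup E] [NormedSpace ℝ E] [FiniteDimensional ℝ E]

theorem vanish_31 (D : Geo E) (hpos : 0 < Module.finrank ℝ E)
    (hcc : ∃ K ⊆ D.X, IsCompact K ∧ ∀ x ∈ D.X, ∃ g ∈ D.Γ, g x ∈ K) (hX : D.X ≠ Set.univ)
    (h4 : Module.finrank ℝ (linSub D) = 4) (hne : modSub D (linSub D) = ⊥)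
    (U : Submodule ℝ (linSub D)) (hU : ∀ g, ∀ u ∈ U, linRep D g u ∈ U)
    (h3 : Module.finrank ℝ U = 3) : Vanish D := by
  classical
  by_cases hab : HasAbNormal D.Γ
  · exact vanish_of_hasAbNormal D hpos hab hcc
  have hV : linSub D ≠ ⊥ := by
    intro h
    rw [h, finrank_bot] at h4
    omega
  have hU0 : U ≠ ⊥ := by
    intro h
    rw [h, finrank_bot] at h3
    omega
  have hU1 : U ≠ ⊤ := by
    intro h
    rw [h, finrank_top] at h3
    omega
  by_cases hirr : ∀ H : Subgroup D.Γ, H.FiniteIndex → ∀ B : Submodule ℝ U,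
      (∀ h ∈ H, ∀ u ∈ B, subRep (linRep D) U hU h u ∈ B) → B = ⊥ ∨ B = ⊤
  swap
  · push Not at hirr
    obtain ⟨H, hH, B, hB, hB0, hB1⟩ := hirr
    have hinv : ∀ h ∈ H, ∀ u ∈ B.map U.subtype, linRep D h u ∈ B.map U.subtype := by
      rintro h hh _ ⟨u, hu, rfl⟩
      exact ⟨subRep (linRep D) U hU h u, hB h hh u hu, rfl⟩
    have hfr : Module.finrank ℝ (B.map U.subtype) = Module.finrank ℝ B :=
      (LinearEquiv.finrank_eq (Submodule.equivMapOfInjective _ U.injective_subtype B)).symm
    have hlt : B.map U.subtype < U := by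
      refine lt_of_le_of_ne (Submodule.map_subtype_le _ _) ?_
      intro h
      apply hB1
      apply Submodule.map_injective_of_injective U.injective_subtype
      rw [h, Submodule.map_subtype_top]
    have h5 : 0 < Module.finrank ℝ B := by
      rw [Nat.pos_iff_ne_zero]
      intro h
      exact hB0 (Submodule.finrank_eq_zero.mp h)
    have h6 := Submodule.finrank_lt_finrank_of_lt hlt
    have hne1 : B.map U.subtype ≠ ⊥ := by
      intro h
      rw [h, finrank_bot] at hfr
      omega
    have hne2 : B.map U.subtype ≠ ⊤ := fun h => hU1 (top_le_iff.mp (h ▸ hlt.le))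
    by_cases h7 : Module.finrank ℝ (B.map U.subtype) = 2
    · exact vanish_flag2 D hpos hcc hX H hH _ hne1 hne2 hinv (by omega) (by omega)
    · exact vanish_flag3 D hpos hcc hX H hH _ U hne1 hlt hU1 hinv (fun h _ u hu => hU h u hu)
        (by omega) (by omega) (by omega)
  have hinvE : ∀ g ∈ D.Γ, ∀ v ∈ U.map (linSub D).subtype,
      g.linear v ∈ U.map (linSub D).subtype := by
    rintro g hg _ ⟨u, hu, rfl⟩
    exact ⟨linRep D ⟨g, hg⟩ u, hU ⟨g, hg⟩ u hu, rfl⟩
  obtain ⟨S, hS⟩ := exists_invSub D (U.map (linSub D).subtype) (Submodule.map_subtype_le _ _)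
    hinvE
  obtain ⟨T, hT⟩ := exists_linInv D
  have hndT := nd_of_line D hcc hV T hT
  have hMT : modSub D T.U = ⊥ := by rw [hT]; exact hne
  have hleS : S.U ≤ T.U := by rw [hT]; exact S.le
  have hMS : modSub D S.U = ⊥ := by
    rw [← le_bot_iff, ← hne]
    intro g hg x hx
    exact S.le (hg x hx)
  have hfS : Module.finrank ℝ S.U = 3 := by rw [hS, finrank_map]; exact h3
  have hfT : Module.finrank ℝ T.U = 4 := by rw [hT]; exact h4
  have hndS := nd_sub S T hleS (by rw [hfS, hfT]) hndT hMT hab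
  let e : U ≃ₗ[ℝ] S.U :=
    (Submodule.equivMapOfInjective _ (linSub D).injective_subtype U).trans
      (LinearEquiv.ofEq _ _ hS.symm)
  have he : ∀ u : U, ((e u : S.U) : E) = ((u : linSub D) : E) := fun u => rfl
  have key : ∀ (g : D.Γ) (u : U), S.lrep g (e u) = e (subRep (linRep D) U hU g u) :=
    fun g u => Subtype.ext rfl
  have hirrS : S.Irr := by
    intro H hH W hW
    have h5 := hirr H hH (W.comap e.toLinearMap) (by
      intro h hh u hu
      rw [Submodule.mem_comap] at hu ⊢
      have h6 := hW h hh _ hu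
      simp only [LinearEquiv.coe_coe] at h6 ⊢
      rw [key] at h6
      exact h6)
    have hmap : (W.comap e.toLinearMap).map e.toLinearMap = W :=
      Submodule.map_comap_eq_of_surjective e.surjective W
    rcases h5 with h5 | h5
    · left
      rw [← hmap, h5, Submodule.map_bot]
    · right
      rw [← hmap, h5, Submodule.map_top, LinearMap.range_eq_top]
      exact e.surjective
  have hgood : S.Good :=
    { h3 := hfS
      irr := hirrS
      nd := hndS
      mod := hMS
      ab := hab }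
  obtain ⟨B, hB1, hB2, hB3⟩ := form_of_good S hgood
  obtain ⟨Γ₁, hle, hfin, hQ⟩ := type_of_form D.Γ S.U hfS S.inv B hB1 hB2 (by
    intro g hg
    obtain ⟨c, hc, hc2⟩ := hB3 ⟨g, hg⟩
    refine ⟨c, hc, fun x y x' y' hx hy => ?_⟩
    have e1 : x' = S.lrep ⟨g, hg⟩ x := Subtype.ext hx
    have e2 : y' = S.lrep ⟨g, hg⟩ y := Subtype.ext hy
    rw [e1, e2]
    exact hc2 x y)
  have hinv₁ : ∀ g ∈ Γ₁, ∀ v ∈ S.U, g.linear v ∈ S.U := fun g hg => S.inv g (hle hg)
  have hlt1 : ⊥ < S.U := by rw [hS]; exact bot_lt_map D hU0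
  have hlt2 : S.U < linSub D := by rw [hS]; exact map_lt D hU1
  refine vanish_of_virtual_coneFlag D hpos hcc Γ₁ hle hfin
    (coneFlag_two' D Γ₁ hle hX _ hlt1 hlt2 hinv₁ hQ (Or.inl ?_))
  refine quadType_small _ _ _ hlt2.le hinv₁ (inv_lin D _ hle) ?_
  omega

end

end Pool.AF
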