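import Pool.Agent.Helper94.AC.WPlane
import Pool.Agent.Helper94.AC.BaseCC

/-!
# AC-32 WFIN: the conjugates of a transversal element by the words are finitely many
# (uses the stubs `words_seq` (AC-31), `base_compactC` (AC-30))

Proof. Write `w n = Z.w n`, `h j = Z.h j`, `g n = (w n)⁻¹ * q * w n`, `U = S.U`. Let `x₁` be as in
`exists_base_pt`.

(1) `‖S.base (w j) - 1‖ ≤ 1/2`, so `‖S.base (w j)‖ ≤ ‖1‖ + 1/2` and `‖S.base (w j)⁻¹‖ ≤ 2 ‖1‖`. So there is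
`C'` with `‖S.base (w j * g)‖, ‖S.base (w j * g)⁻¹‖ ≤ C'` for `g = 1` and for `g = g n`, all `j, n`. Let `K'`
be the compact subset of `X` given by `base_compactC` for `C'`.

(2) Let `g ∈ {1, g n}` and `p j = act (S.base (w j * g)) x₁ ∈ K'`. As in `steer_core`
(`Pool/Agent/Helper94/AB/Steer.lean`), by `base_split`, `u j = h j (p j) - p (j + 1) ∈ U`, and
`‖u j‖ ≤ Um`, `Um` independent of `j`, `n` (the `h j` are in a finite set, `K'` is compact). By `words_seq`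
there are `z 0, …, z n ∈ U` with `h j (p j + z j) = p (j+1) + z (j+1)` for `j < n`, so
`w n (p 0 + z 0) = p n + z n`, `‖z 0‖ ≤ K₂`, `‖z n‖ ≤ K₂ (n + 1)`. We write `p, z` for `g = 1`
(`p 0 = x₁`, `p n = act (S.base (w n)) x₁`) and `p', z'` for `g = g n` (`p' 0 = act (S.base (g n)) x₁`,
`p' n = act (S.base (q * w n)) x₁`).

(3) `q (p n) - p' n ∈ U`: by `base_split`, `(q * w n) x₁ - p' n ∈ U` and `q (w n x₁) - q (p n) =
q.linear (w n x₁ - p n) ∈ U`. It is bounded (`p n, p' n ∈ K'`). So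
`ξ n = q (p n + z n) - (p' n + z' n) = (q (p n) - p' n) + S.rep q (z n) - z' n ∈ U`, `‖ξ n‖ ≤ K₃ (n + 1)`.

(4) The linear maps `Ψ k : T × T → S.U`, `(θ, θ') ↦ L (φ k) θ' - S.rep q (L (φ k) θ)` converge to
`(θ, θ') ↦ L₀ θ' - S.rep q (L₀ θ)`, which is injective (`hgood`), hence bijective by `hT`. So for
`k ≥ k₀`, `Ψ k` is bijective with inverse of norm `≤ K₄`. For `n = φ k` take `(θ, θ')` with
`L n θ' - S.rep q (L n θ) = ξ n` and norms `≤ K₄ K₃ (n + 1)`.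

(5) By `hL` there are `ζ, ζ'` with `S.rep (w n) ζ = L n θ`, `S.rep (w n) ζ' = L n θ'` and norms
`≤ K (1/2) ^ n K₄ K₃ (n + 1) ≤ K₅`. Then `q (w n (x₁ + z 0 + ζ)) = q (p n + z n) + S.rep q (L n θ) =
p' n + z' n + ξ n + S.rep q (L n θ) = p' n + z' n + L n θ' = w n (p' 0 + z' 0 + ζ')`, so `g n` maps
`x₁ + z 0 + ζ` to `p' 0 + z' 0 + ζ'`. Both are in the compact subset
`K'' = {p + v | p ∈ K', v ∈ U, ‖v‖ ≤ K₂ + K₅}` of `X` (`U ≤ linSub D`). By `D.pd K''` the `g (φ k)`, `k ≥ k₀`,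
are finitely many.
-/

open Set Filter Topology Matrix

set_option linter.unusedSectionVars false

namespace Pool.AF

open Pool.SV

section

variable {E : Type*} [NormedAddCommGroup E] [NormedSpace ℝ E] [FiniteDimensional ℝ E]
  {D : Geo E} {S : InvSub D} {G₀ : Subgroup D.Γ} {W : Type*} [NormedAddCommGroup W]
  [NormedSpace ℝ W] [FiniteDimensional ℝ W] {T : Type*} [NormedAddCommGroup T]
  [NormedSpace ℝ T] [FiniteDimensional ℝ T] {ρ : D.Γ →* (W →L[ℝ] W)}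

private theorem wf_norm (Z : Words S G₀ T ρ) (j : ℕ) :
    ‖S.base (Z.w j)‖ ≤ ‖(1 : Alg E)‖ + 1 / 2 ∧ ‖S.base (Z.w j)⁻¹‖ ≤ 2 * ‖(1 : Alg E)‖ := by
  have h1 := Z.near j
  constructor
  · have h2 : S.base (Z.w j) = 1 + (S.base (Z.w j) - 1) := by abel
    rw [h2]
    exact (norm_add_le _ _).trans (by linarith)
  · have h2 : S.base (Z.w j)⁻¹ = 1 - (S.base (Z.w j) - 1) * S.base (Z.w j)⁻¹ := by
      rw [sub_mul, one_mul, ← map_mul, mul_inv_cancel, map_one]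
      abel
    have h3 : ‖S.base (Z.w j)⁻¹‖ ≤ ‖(1 : Alg E)‖ + 1 / 2 * ‖S.base (Z.w j)⁻¹‖ := by
      conv_lhs => rw [h2]
      refine (norm_sub_le _ _).trans ?_
      refine add_le_add le_rfl ((norm_mul_le _ _).trans ?_)
      exact mul_le_mul_of_nonneg_right h1 (norm_nonneg _)
    linarith

private theorem wf_add (g : E ≃ᵃ[ℝ] E) (x v : E) : g (x + v) = g x + g.linear v := by
  have := g.map_vadd x v
  rw [vadd_eq_add, vadd_eq_add] at this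
  rw [add_comm x, this, add_comm]

private theorem wf_bdd {K : Set E} (hK : IsCompact K) (g : E ≃ᵃ[ℝ] E) :
    ∃ b : ℝ, ∀ x ∈ K, ‖g x‖ ≤ b := by
  have hcont : Continuous g := AffineMap.continuous_of_finiteDimensional (g : E →ᵃ[ℝ] E)
  obtain ⟨b, hb⟩ := (hK.image hcont).isBounded.exists_norm_le
  exact ⟨b, fun x hx => hb _ (Set.mem_image_of_mem _ hx)⟩

/-- The steered words move a point over `act (S.base g) x₁` to a point over
`act (S.base (w n * g)) x₁`. -/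
private theorem wf_track (Z : Words S G₀ T ρ) (Q : LineExt S G₀ ρ) (x₁ : E)
    (he : S.e (x₁, 1) = 0) (K' : Set E) (hK' : IsCompact K') :
    ∃ K₂ : ℝ, ∀ g : D.Γ, (∀ j, act (S.base (Z.w j * g)) x₁ ∈ K') → ∀ n : ℕ, ∃ z₀ zn : S.U,
      ‖z₀‖ ≤ K₂ ∧ ‖zn‖ ≤ K₂ * (n + 1) ∧
        (Z.w n).1 (act (S.base g) x₁ + (z₀ : E)) = act (S.base (Z.w n * g)) x₁ + (zn : E) := by
  classical
  obtain ⟨B1, hB1⟩ := hK'.isBounded.exists_norm_le
  obtain ⟨B2, hB2⟩ : ∃ B2 : ℝ, ∀ j, ∀ x ∈ K', ‖(Z.h j).1 x‖ ≤ B2 := by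
    choose b hb using fun g : D.Γ => wf_bdd hK' g.1
    obtain ⟨B2, hB2⟩ := (Z.fin.image b).bddAbove
    exact ⟨B2, fun j x hx => (hb (Z.h j) x hx).trans
      (hB2 (Set.mem_image_of_mem _ (Set.mem_range_self j)))⟩
  obtain ⟨K₂, hK₂⟩ := words_seq Z Q (B2 + B1)
  refine ⟨K₂, fun g hg n => ?_⟩
  set p : ℕ → E := fun j => act (S.base (Z.w j * g)) x₁ with hp
  have hmem : ∀ j, (Z.h j).1 (p j) - p (j + 1) ∈ S.U := by
    intro j
    have h1 := base_split S x₁ he (Z.w (j + 1) * g)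
    have h2 := base_split S x₁ he (Z.w j * g)
    have h3 := S.inv (Z.h j).1 (Z.h j).2 _ h2
    have h4 : (Z.h j).1.linear ((Z.w j * g).1 x₁ - p j) =
        (Z.h j).1 ((Z.w j * g).1 x₁) - (Z.h j).1 (p j) := by
      have := (Z.h j).1.toAffineMap.linearMap_vsub ((Z.w j * g).1 x₁) (p j)
      simpa using this
    have h5 : (Z.w (j + 1) * g).1 x₁ = (Z.h j).1 ((Z.w j * g).1 x₁) := by
      rw [Z.ws]
      rfl
    have h6 := S.U.sub_mem h1 h3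
    rw [h4, h5] at h6
    have h7 : (Z.h j).1 ((Z.w j * g).1 x₁) - act (S.base (Z.w (j + 1) * g)) x₁ -
        ((Z.h j).1 ((Z.w j * g).1 x₁) - (Z.h j).1 (p j)) =
        (Z.h j).1 (p j) - p (j + 1) := by
      simp only [hp]
      abel
    rwa [h7] at h6
  obtain ⟨z, hz, hz0, hzn⟩ := hK₂ (fun j => ⟨(Z.h j).1 (p j) - p (j + 1), hmem j⟩) (fun j => by
    have h1 : ‖(⟨(Z.h j).1 (p j) - p (j + 1), hmem j⟩ : S.U)‖ =
        ‖(Z.h j).1 (p j) - p (j + 1)‖ := rfl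
    rw [h1]
    exact (norm_sub_le _ _).trans (add_le_add (hB2 _ _ (hg j)) (hB1 _ (hg (j + 1))))) n
  refine ⟨z 0, z n, hz0, hzn, ?_⟩
  have hind : ∀ j ≤ n, (Z.w j).1 (act (S.base g) x₁ + (z 0 : E)) = p j + (z j : E) := by
    intro j hj
    induction j with
    | zero =>
      have h1 : p 0 = act (S.base g) x₁ := by
        simp only [hp]
        rw [Z.w0, one_mul]
      rw [h1, Z.w0]
      rfl
    | succ j ih =>
      have h1 : (Z.w (j + 1)).1 (act (S.base g) x₁ + (z 0 : E)) =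
          (Z.h j).1 ((Z.w j).1 (act (S.base g) x₁ + (z 0 : E))) := by
        rw [Z.ws]
        rfl
      rw [h1, ih (by omega), wf_add, hz j (by omega), Submodule.coe_add, S.rep_apply]
      change _ = p (j + 1) + ((Z.h j).1.linear (z j : E) + ((Z.h j).1 (p j) - p (j + 1)))
      abel
  exact hind n le_rfl

/-- Solving `L θ' - rep q (L θ) = ξ` with bounds. -/
private theorem wf_solve {U : Type*} [NormedAddCommGroup U] [NormedSpace ℝ U]
    [FiniteDimensional ℝ U] (hT : 2 * Module.finrank ℝ T = Module.finrank ℝ U)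
    (r : U →L[ℝ] U) (L : ℕ → T →L[ℝ] U) (L₀ : T →L[ℝ] U)
    (hlim : Tendsto L atTop (𝓝 L₀))
    (hgood : ∀ θ θ', L₀ θ' = r (L₀ θ) → θ = 0 ∧ θ' = 0) :
    ∃ K₄ : ℝ, 0 ≤ K₄ ∧ ∀ᶠ k in atTop, ∀ ξ : U, ∃ θ θ' : T, L k θ' - r (L k θ) = ξ ∧
      ‖θ‖ ≤ K₄ * ‖ξ‖ ∧ ‖θ'‖ ≤ K₄ * ‖ξ‖ := by
  classical
  have : CompleteSpace T := FiniteDimensional.complete ℝ T
  set Ψ : (T →L[ℝ] U) → (T × T →L[ℝ] U) := fun A =>
    A.comp (ContinuousLinearMap.snd ℝ T T) - r.comp (A.comp (ContinuousLinearMap.fst ℝ T T))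
    with hΨ
  have hΨc : Continuous Ψ := by
    have h1 : Continuous fun A : T →L[ℝ] U => A.comp (ContinuousLinearMap.snd ℝ T T) :=
      continuous_id.clm_comp continuous_const
    have h2 : Continuous fun A : T →L[ℝ] U => A.comp (ContinuousLinearMap.fst ℝ T T) :=
      continuous_id.clm_comp continuous_const
    exact h1.sub (continuous_const.clm_comp h2)
  have hinj : Function.Injective (Ψ L₀ : T × T →ₗ[ℝ] U) := by
    rw [← LinearMap.ker_eq_bot, LinearMap.ker_eq_bot']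
    rintro ⟨θ, θ'⟩ h0
    have h1 : L₀ θ' - r (L₀ θ) = 0 := h0
    obtain ⟨h2, h3⟩ := hgood θ θ' (sub_eq_zero.1 h1)
    rw [h2, h3]
    rfl
  have hdim : Module.finrank ℝ (T × T) = Module.finrank ℝ U := by
    rw [Module.finrank_prod, ← hT]
    ring
  set e : (T × T) ≃L[ℝ] U :=
    (LinearMap.linearEquivOfInjective _ hinj hdim).toContinuousLinearEquiv with hedef
  have he : ∀ t, e t = Ψ L₀ t := fun t => rfl
  set M : ℕ → (T × T →L[ℝ] T × T) := fun k => (e.symm : U →L[ℝ] T × T).comp (Ψ (L k)) with hM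
  have hMlim : Tendsto M atTop (𝓝 1) := by
    have h1 : Tendsto (fun k => Ψ (L k)) atTop (𝓝 (Ψ L₀)) := (hΨc.tendsto L₀).comp hlim
    have h2 : Continuous fun B : T × T →L[ℝ] U => (e.symm : U →L[ℝ] T × T).comp B :=
      continuous_const.clm_comp continuous_id
    have h3 := (h2.tendsto (Ψ L₀)).comp h1
    have h4 : (e.symm : U →L[ℝ] T × T).comp (Ψ L₀) = 1 := by
      refine ContinuousLinearMap.ext fun t => ?_
      change e.symm (Ψ L₀ t) = t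
      rw [← he, e.symm_apply_apply]
    rw [h4] at h3
    exact h3
  have h1 : ∀ᶠ k in atTop, IsUnit (M k) :=
    hMlim.eventually (Units.isOpen.mem_nhds ⟨1, rfl⟩)
  have h2 : Tendsto (fun k => Ring.inverse (M k)) atTop (𝓝 (Ring.inverse (1 : T × T →L[ℝ] T × T))) := by
    have h3 := NormedRing.inverse_continuousAt (1 : (T × T →L[ℝ] T × T)ˣ)
    exact h3.tendsto.comp hMlim
  set B : ℝ := ‖Ring.inverse (1 : T × T →L[ℝ] T × T)‖ + 1 with hB
  have h3 : ∀ᶠ k in atTop, ‖Ring.inverse (M k)‖ < B :=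
    h2.norm.eventually_lt_const (by linarith)
  refine ⟨B * ‖(e.symm : U →L[ℝ] T × T)‖, by positivity, ?_⟩
  filter_upwards [h1, h3] with k hk1 hk2 ξ
  set t : T × T := Ring.inverse (M k) (e.symm ξ) with ht
  have h4 : M k t = e.symm ξ := by
    have h5 := Ring.mul_inverse_cancel (M k) hk1
    calc M k t = (M k * Ring.inverse (M k)) (e.symm ξ) := rfl
      _ = e.symm ξ := by rw [h5]; rfl
  have h6 : ‖t‖ ≤ B * ‖(e.symm : U →L[ℝ] T × T)‖ * ‖ξ‖ := by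
    have h7 : ‖t‖ ≤ ‖Ring.inverse (M k)‖ * ‖(e.symm : U →L[ℝ] T × T) ξ‖ :=
      ContinuousLinearMap.le_opNorm _ _
    have h8 : ‖(e.symm : U →L[ℝ] T × T) ξ‖ ≤ ‖(e.symm : U →L[ℝ] T × T)‖ * ‖ξ‖ :=
      ContinuousLinearMap.le_opNorm _ _
    calc ‖t‖ ≤ ‖Ring.inverse (M k)‖ * ‖(e.symm : U →L[ℝ] T × T) ξ‖ := h7
      _ ≤ B * (‖(e.symm : U →L[ℝ] T × T)‖ * ‖ξ‖) :=
        mul_le_mul hk2.le h8 (norm_nonneg _) (by positivity)
      _ = _ := by ring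
  refine ⟨t.1, t.2, ?_, (norm_fst_le t).trans h6, (norm_snd_le t).trans h6⟩
  have h9 : e.symm (Ψ (L k) t) = e.symm ξ := h4
  have h10 := e.symm.injective h9
  exact h10

theorem words_fin (Z : Words S G₀ T ρ) (Q : LineExt S G₀ ρ)
    (hT : 2 * Module.finrank ℝ T = Module.finrank ℝ S.U) (L : ℕ → T →L[ℝ] S.U) (K : ℝ)
    (hL : ∀ n θ, ∃ ζ : S.U, ‖ζ‖ ≤ K * (1 / 2) ^ n * ‖θ‖ ∧ S.rep (Z.w n) ζ = L n θ)
    (φ : ℕ → ℕ) (hφ : StrictMono φ) (L₀ : T →L[ℝ] S.U)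
    (hlim : Tendsto (fun k => L (φ k)) atTop (𝓝 L₀)) (q : D.Γ)
    (hgood : ∀ θ θ', L₀ θ' = S.rep q (L₀ θ) → θ = 0 ∧ θ' = 0) :
    (Set.range (fun k => (Z.w (φ k))⁻¹ * q * Z.w (φ k))).Finite := by
  classical
  obtain ⟨x₁, hx₁, he⟩ := exists_base_pt S
  set c1 : ℝ := ‖(1 : Alg E)‖ + 1 / 2 with hc1
  set c2 : ℝ := 2 * ‖(1 : Alg E)‖ with hc2
  have hc1' : 0 ≤ c1 := by positivity
  have hc2' : 0 ≤ c2 := by positivity
  have hw1 : ∀ j, ‖S.base (Z.w j)‖ ≤ c1 := fun j => (wf_norm Z j).1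
  have hw2 : ∀ j, ‖S.base (Z.w j)⁻¹‖ ≤ c2 := fun j => (wf_norm Z j).2
  set C' : ℝ := c1 + c2 + c1 * (c2 * ‖S.base q‖ * c1) + c2 * ‖S.base q⁻¹‖ * c1 * c2 with hC'
  have hpos1 : 0 ≤ c1 * (c2 * ‖S.base q‖ * c1) := by positivity
  have hpos2 : 0 ≤ c2 * ‖S.base q⁻¹‖ * c1 * c2 := by positivity
  obtain ⟨K', hK'X, hK', hK'm⟩ := base_compactC S x₁ hx₁ he C'
  obtain ⟨K₂, hK₂⟩ := wf_track Z Q x₁ he K' hK'
  have mem1 : ∀ j, act (S.base (Z.w j * 1)) x₁ ∈ K' := by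
    intro j
    rw [mul_one]
    exact hK'm _ ((hw1 j).trans (by linarith)) ((hw2 j).trans (by linarith))
  have mem2 : ∀ n j, act (S.base (Z.w j * ((Z.w n)⁻¹ * q * Z.w n))) x₁ ∈ K' := by
    intro n j
    apply hK'm
    · have h1 : ‖S.base (Z.w j * ((Z.w n)⁻¹ * q * Z.w n))‖ ≤
          c1 * (c2 * ‖S.base q‖ * c1) := by
        rw [map_mul, map_mul, map_mul]
        refine (norm_mul_le _ _).trans (mul_le_mul (hw1 j) ?_ (norm_nonneg _) hc1')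
        refine (norm_mul_le _ _).trans (mul_le_mul ?_ (hw1 n) (norm_nonneg _) (by positivity))
        exact (norm_mul_le _ _).trans (mul_le_mul_of_nonneg_right (hw2 n) (norm_nonneg _))
      linarith
    · have h1 : (Z.w j * ((Z.w n)⁻¹ * q * Z.w n))⁻¹ =
          (Z.w n)⁻¹ * q⁻¹ * Z.w n * (Z.w j)⁻¹ := by group
      have h2 : ‖S.base (Z.w j * ((Z.w n)⁻¹ * q * Z.w n))⁻¹‖ ≤
          c2 * ‖S.base q⁻¹‖ * c1 * c2 := by
        rw [h1, map_mul, map_mul, map_mul]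
        refine (norm_mul_le _ _).trans (mul_le_mul ?_ (hw2 j) (norm_nonneg _) (by positivity))
        refine (norm_mul_le _ _).trans (mul_le_mul ?_ (hw1 n) (norm_nonneg _) (by positivity))
        exact (norm_mul_le _ _).trans (mul_le_mul_of_nonneg_right (hw2 n) (norm_nonneg _))
      linarith
  have mem0 : ∀ n, act (S.base ((Z.w n)⁻¹ * q * Z.w n)) x₁ ∈ K' := by
    intro n
    have := mem2 n 0
    rwa [Z.w0, one_mul] at this
  have mem01 : act (S.base (1 : D.Γ)) x₁ ∈ K' := by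
    have := mem1 0
    rwa [Z.w0, one_mul] at this
  obtain ⟨B1, hB1⟩ := hK'.isBounded.exists_norm_le
  obtain ⟨B2, hB2⟩ := wf_bdd hK' q.1
  have hB1' : 0 ≤ B1 := (norm_nonneg _).trans (hB1 _ mem01)
  have hB2' : 0 ≤ B2 := (norm_nonneg _).trans (hB2 _ mem01)
  have hK₂' : 0 ≤ K₂ := by
    obtain ⟨z, z', hz, -, -⟩ := hK₂ 1 mem1 0
    exact (norm_nonneg _).trans hz
  set K₃ : ℝ := B2 + B1 + ‖S.rep q‖ * K₂ + K₂ with hK₃
  have hK₃' : 0 ≤ K₃ := by positivity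
  obtain ⟨K₄, hK₄, hsol⟩ := wf_solve hT (S.rep q) (fun k => L (φ k)) L₀ hlim hgood
  set K₅ : ℝ := |K| * (K₄ * K₃) with hK₅
  have hK₅' : 0 ≤ K₅ := by positivity
  -- the compact set
  set K'' : Set E := (fun a : E × S.U => a.1 + (a.2 : E)) ''
    (K' ×ˢ Metric.closedBall 0 (K₂ + K₅)) with hK''
  have hK''c : IsCompact K'' := by
    have : ProperSpace S.U := FiniteDimensional.proper ℝ S.U
    exact (hK'.prod (isCompact_closedBall 0 (K₂ + K₅))).image (by fun_prop)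
  have hK''X : K'' ⊆ D.X := by
    rintro _ ⟨⟨a, v⟩, ⟨ha, -⟩, rfl⟩
    have h1 : (v : E) ∈ linSub D := S.le v.2
    have h2 := h1 a (hK'X ha) 1
    rw [one_smul] at h2
    exact h2
  have hfin := D.pd K'' hK''X hK''c
  -- the main claim
  have hmain : ∀ᶠ k in atTop, (((Z.w (φ k))⁻¹ * q * Z.w (φ k) : D.Γ) : E ≃ᵃ[ℝ] E) ∈
      {g : E ≃ᵃ[ℝ] E | g ∈ D.Γ ∧ ∃ x ∈ K'', g x ∈ K''} := by
    filter_upwards [hsol] with k hk
    set n := φ k with hn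
    obtain ⟨z₀, zn, hz1, hz2, hz3⟩ := hK₂ 1 mem1 n
    obtain ⟨z₀', zn', hz1', hz2', hz3'⟩ := hK₂ ((Z.w n)⁻¹ * q * Z.w n) (mem2 n) n
    have hwq : Z.w n * ((Z.w n)⁻¹ * q * Z.w n) = q * Z.w n := by group
    set pn : E := act (S.base (Z.w n * 1)) x₁ with hpn
    set pn' : E := act (S.base (Z.w n * ((Z.w n)⁻¹ * q * Z.w n))) x₁ with hpn'
    have hqp : q.1 pn - pn' ∈ S.U := by
      have h1 := base_split S x₁ he (q * Z.w n)
      have h2 := base_split S x₁ he (Z.w n * 1)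
      have h3 := S.inv q.1 q.2 _ h2
      have h4 : q.1.linear ((Z.w n * 1).1 x₁ - pn) = q.1 ((Z.w n * 1).1 x₁) - q.1 pn := by
        have := q.1.toAffineMap.linearMap_vsub ((Z.w n * 1).1 x₁) pn
        simpa using this
      have h5 : (q * Z.w n).1 x₁ = q.1 ((Z.w n * 1).1 x₁) := by
        rw [mul_one]
        rfl
      have h6 := S.U.sub_mem h1 h3
      rw [h4, h5, ← hwq] at h6
      have h7 : q.1 ((Z.w n * 1).1 x₁) - pn' - (q.1 ((Z.w n * 1).1 x₁) - q.1 pn) =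
          q.1 pn - pn' := by abel
      rwa [h7] at h6
    set ξ : S.U := ⟨q.1 pn - pn', hqp⟩ + S.rep q zn - zn' with hξ
    have hξn : ‖ξ‖ ≤ K₃ * (n + 1) := by
      have h1 : ‖(⟨q.1 pn - pn', hqp⟩ : S.U)‖ ≤ B2 + B1 := by
        have h2 : ‖(⟨q.1 pn - pn', hqp⟩ : S.U)‖ = ‖q.1 pn - pn'‖ := rfl
        rw [h2]
        exact (norm_sub_le _ _).trans (add_le_add (hB2 _ (mem1 n)) (hB1 _ (mem2 n n)))
      have h2 : ‖S.rep q zn‖ ≤ ‖S.rep q‖ * (K₂ * (n + 1)) :=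
        (ContinuousLinearMap.le_opNorm _ _).trans
          (mul_le_mul_of_nonneg_left hz2 (norm_nonneg _))
      have h3 : (0 : ℝ) ≤ (n : ℝ) := Nat.cast_nonneg n
      have h4 : ‖ξ‖ ≤ (B2 + B1) + ‖S.rep q‖ * (K₂ * (n + 1)) + K₂ * (n + 1) := by
        rw [hξ]
        exact (norm_sub_le _ _).trans (add_le_add ((norm_add_le _ _).trans (add_le_add h1 h2)) hz2')
      rw [hK₃]
      nlinarith [mul_nonneg (add_nonneg hB2' hB1') h3]
    obtain ⟨θ, θ', hθ, hθ1, hθ2⟩ := hk ξ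
    obtain ⟨ζ, hζ1, hζ2⟩ := hL n θ
    obtain ⟨ζ', hζ1', hζ2'⟩ := hL n θ'
    have hpow : (1 / 2 : ℝ) ^ n * (n + 1) ≤ 1 := by
      have h1 : (n : ℝ) + 1 ≤ 2 ^ n := by
        have := Nat.lt_two_pow_self (n := n)
        exact_mod_cast this
      rw [one_div, inv_pow, inv_mul_le_iff₀ (by positivity), mul_one]
      exact h1
    have hbound : ∀ (y : S.U) (t : T), ‖y‖ ≤ K * (1 / 2) ^ n * ‖t‖ → ‖t‖ ≤ K₄ * ‖ξ‖ →
        ‖y‖ ≤ K₅ := by
      intro y t hy ht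
      have h1 : K * (1 / 2) ^ n * ‖t‖ ≤ |K| * (1 / 2) ^ n * ‖t‖ := by
        have : K ≤ |K| := le_abs_self K
        gcongr
      have h2 : |K| * (1 / 2) ^ n * ‖t‖ ≤ |K| * (1 / 2) ^ n * (K₄ * (K₃ * (n + 1))) := by
        have : ‖t‖ ≤ K₄ * (K₃ * (n + 1)) :=
          ht.trans (mul_le_mul_of_nonneg_left hξn hK₄)
        gcongr
      have h3 : |K| * (1 / 2) ^ n * (K₄ * (K₃ * (n + 1))) =
          |K| * (K₄ * K₃) * ((1 / 2) ^ n * (n + 1)) := by ring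
      have h4 : |K| * (K₄ * K₃) * ((1 / 2) ^ n * (n + 1)) ≤ |K| * (K₄ * K₃) * 1 :=
        mul_le_mul_of_nonneg_left hpow hK₅'
      rw [hK₅]
      linarith
    have hb1 := hbound ζ θ hζ1 hθ1
    have hb2 := hbound ζ' θ' hζ1' hθ2
    set y : E := act (S.base (1 : D.Γ)) x₁ + ((z₀ + ζ : S.U) : E) with hy
    set y' : E := act (S.base ((Z.w n)⁻¹ * q * Z.w n)) x₁ + ((z₀' + ζ' : S.U) : E) with hy'
    have hyK : y ∈ K'' := by
      refine ⟨(act (S.base (1 : D.Γ)) x₁, z₀ + ζ), ⟨mem01, ?_⟩, rfl⟩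
      rw [mem_closedBall_zero_iff]
      exact (norm_add_le _ _).trans (add_le_add hz1 hb1)
    have hyK' : y' ∈ K'' := by
      refine ⟨(act (S.base ((Z.w n)⁻¹ * q * Z.w n)) x₁, z₀' + ζ'), ⟨mem0 n, ?_⟩, rfl⟩
      rw [mem_closedBall_zero_iff]
      exact (norm_add_le _ _).trans (add_le_add hz1' hb2)
    have hwy : (Z.w n).1 y = pn + (zn : E) + ((L n θ : S.U) : E) := by
      rw [hy, Submodule.coe_add, ← add_assoc, wf_add, hz3, ← hζ2, S.rep_apply]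
    have hwy' : (Z.w n).1 y' = pn' + (zn' : E) + ((L n θ' : S.U) : E) := by
      rw [hy', Submodule.coe_add, ← add_assoc, wf_add, hz3', ← hζ2', S.rep_apply]
    have hq : q.1 ((Z.w n).1 y) = (Z.w n).1 y' := by
      rw [hwy, hwy', wf_add, wf_add]
      have h1 : ((L n θ' : S.U) : E) = ((ξ : S.U) : E) + ((S.rep q (L n θ) : S.U) : E) := by
        rw [← Submodule.coe_add]
        congr 1
        rw [← hθ]
        abel
      have h2 : ((ξ : S.U) : E) = q.1 pn - pn' + q.1.linear (zn : E) - (zn' : E) := by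
        rw [hξ, Submodule.coe_sub, Submodule.coe_add, S.rep_apply]
      rw [h1, h2, S.rep_apply]
      abel
    refine ⟨((Z.w n)⁻¹ * q * Z.w n).2, y, hyK, ?_⟩
    have h3 : (((Z.w n)⁻¹ * q * Z.w n : D.Γ) : E ≃ᵃ[ℝ] E) y = y' := by
      have h4 : (((Z.w n)⁻¹ * q * Z.w n : D.Γ) : E ≃ᵃ[ℝ] E) y =
          (((Z.w n)⁻¹ : D.Γ) : E ≃ᵃ[ℝ] E) (q.1 ((Z.w n).1 y)) := rfl
      rw [h4, hq]
      have h5 : (((Z.w n)⁻¹ : D.Γ) : E ≃ᵃ[ℝ] E) ((Z.w n).1 y') =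
          (((Z.w n)⁻¹ * Z.w n : D.Γ) : E ≃ᵃ[ℝ] E) y' := rfl
      rw [h5, inv_mul_cancel]
      rfl
    rw [h3]
    exact hyK'
  -- finiteness
  obtain ⟨k₀, hk₀⟩ := eventually_atTop.1 hmain
  have hfin2 : {g : D.Γ | (g : E ≃ᵃ[ℝ] E) ∈
      {g : E ≃ᵃ[ℝ] E | g ∈ D.Γ ∧ ∃ x ∈ K'', g x ∈ K''}}.Finite :=
    hfin.preimage Subtype.val_injective.injOn
  refine ((Finset.finite_toSet ((Finset.range k₀).image
    (fun k => (Z.w (φ k))⁻¹ * q * Z.w (φ k)))).union hfin2).subset ?_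
  rintro _ ⟨k, rfl⟩
  rcases lt_or_ge k k₀ with hk | hk
  · left
    simp only [Finset.coe_image, Finset.coe_range]
    exact ⟨k, hk, rfl⟩
  · right
    exact hk₀ k hk

end

end Pool.AF
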