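import Pool.Agent.Helper94.AC.Words
import Pool.Agent.Helper94.AB.HypSeq

/-!
# AC-31 WPLANE: the unstable planes of steered words in an extension by a line

`S.U = ℝ u₀ ⊕ ι W`; for `g ∈ G₀`, `S.rep g (a • u₀ + ι x) = (a + β g x) • u₀ + ι (ρ g x)` with
`β g = s ∘ S.rep g ∘ ι` a continuous linear functional on `W`; the `Z.h j` are finitely many, so
`‖β (h j)‖ ≤ B` for some `B`.

`words_plane`. Let `t : T`, `z 0 = ι (Z.X 0 t)`, `z (j+1) = S.rep (Z.h j) (z j)`, so `z j = S.rep (Z.w j) (z 0)`.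
With `v j = π (z j)`, `a j = s (z j)`: `v (j+1) = X j (A (Y (v j))) + R j (v j)`,
`a (j+1) = a j + β (h j) (v j)`, `a 0 = 0`. `‖v 0‖ ≤ C ‖t‖ = C ‖N 0 (Y (v 0))‖ ≤ C ^ 2 ‖Y (v 0)‖`, so `hyp_cone`
gives `‖v j‖ ≤ 4 C ^ 2 ‖Y (v j)‖` for all `j` and (for the sequences shifted by `j`)
`2 ^ (n - j) ‖Y (v j)‖ ≤ ‖Y (v n)‖`. So `|a n| ≤ ∑_{j < n} B ‖v j‖ ≤ 4 C ^ 2 B ∑_{j < n} 2 ^ (j - n) ‖Y (v n)‖
≤ 4 C ^ 2 B ‖Y (v n)‖`. Hence `‖z n‖ ≤ K₁ ‖Y (v n)‖`. The linear map `t ↦ Y (v n) = Y (π (S.rep (w n) (ι (X 0 t))))`,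
`T → T`, is injective (`‖t‖ ≤ C ‖Y (v 0)‖ ≤ C 2 ^ (-n) ‖Y (v n)‖`), so it is bijective, with inverse
`J n` of norm `≤ C 2 ^ (-n)`. Put `L θ = S.rep (w n) (ι (X 0 (J n θ)))`: `Y (π (L θ)) = θ`,
`‖L θ‖ ≤ K₁ ‖θ‖`, and `L θ = S.rep (w n) ζ` with `ζ = ι (X 0 (J n θ))`, `‖ζ‖ ≤ ‖ι‖ C ^ 2 2 ^ (-n) ‖θ‖`.

`words_seq`. Let `u j : S.U` with `‖u j‖ ≤ Um`. By `hyp_seq_all` for the inputs `π (u j)` there is
`v : ℕ → W`, `v (j+1) = ρ (h j) (v j) + π (u j)` for `j < n`, `‖v j‖ ≤ 6 C ^ 3 ‖π‖ Um` for `j ≤ n`. Let `a 0 = 0`,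
`a (j+1) = a j + β (h j) (v j) + s (u j)` and `z j = a j • u₀ + ι (v j)`: `z (j+1) = S.rep (h j) (z j) + u j`,
and `|a j| ≤ K j`.
-/

open Set Filter Topology Matrix

set_option linter.unusedSectionVars false

namespace Pool.AF

open Pool.SV

section

variable {E : Type*} [NormedAddCommGroup E] [NormedSpace ℝ E] [FiniteDimensional ℝ E]
  {D : Geo E} {S : InvSub D} {G₀ : Subgroup D.Γ} {W : Type*} [NormedAddCommGroup W]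
  [NormedSpace ℝ W] [FiniteDimensional ℝ W] {T : Type*} [NormedAddCommGroup T]
  [NormedSpace ℝ T] [FiniteDimensional ℝ T] {ρ : D.Γ →* (W →L[ℝ] W)}

private theorem wp_bdd (Z : Words S G₀ T ρ) (Q : LineExt S G₀ ρ) :
    ∃ B : ℝ, 0 ≤ B ∧ ∀ j x, |Q.s (S.rep (Z.h j) (Q.ι x))| ≤ B * ‖x‖ := by
  obtain ⟨B, hB⟩ := (Z.fin.image (fun g => ‖(Q.s.comp (S.rep g)).comp Q.ι‖)).bddAbove
  refine ⟨B, ?_, fun j x => ?_⟩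
  · exact (norm_nonneg _).trans (hB ⟨Z.h 0, ⟨0, rfl⟩, rfl⟩)
  · have h1 : ‖(Q.s.comp (S.rep (Z.h j))).comp Q.ι‖ ≤ B := hB ⟨Z.h j, ⟨j, rfl⟩, rfl⟩
    exact ((Q.s.comp (S.rep (Z.h j))).comp Q.ι).le_of_opNorm_le h1 x

private theorem wp_step (Q : LineExt S G₀ ρ) (g : D.Γ) (hg : g ∈ G₀) (a : ℝ) (x : W) :
    S.rep g (a • Q.u₀ + Q.ι x) =
      (a + Q.s (S.rep g (Q.ι x))) • Q.u₀ + Q.ι (ρ g x) := by
  have h1 := Q.split (S.rep g (Q.ι x))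
  rw [Q.equiv, Q.πι] at h1
  rw [map_add, map_smul, Q.fix g hg, add_smul, add_assoc, ← h1]

theorem words_plane (Z : Words S G₀ T ρ) (Q : LineExt S G₀ ρ) :
    ∃ K : ℝ, ∀ n : ℕ, ∃ L : T →L[ℝ] S.U, ‖L‖ ≤ K ∧ (∀ θ, Z.Y (Q.π (L θ)) = θ) ∧
      ∀ θ, ∃ ζ : S.U, ‖ζ‖ ≤ K * (1 / 2) ^ n * ‖θ‖ ∧ S.rep (Z.w n) ζ = L θ := by
  obtain ⟨B, hB0, hB⟩ := wp_bdd Z Q
  have hC := Z.hC
  have hC0 : 0 ≤ Z.C := by linarith
  obtain ⟨K₁, hK₁⟩ : ∃ K₁, K₁ = 4 * Z.C ^ 2 * B * ‖Q.u₀‖ + ‖Q.ι‖ * (4 * Z.C ^ 2) := ⟨_, rfl⟩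
  have hK₁0 : 0 ≤ K₁ := by rw [hK₁]; positivity
  refine ⟨K₁ + ‖Q.ι‖ * Z.C ^ 2, fun n => ?_⟩
  -- the vectors
  let M : ℕ → T →L[ℝ] S.U := fun j => (S.rep (Z.w j)).comp (Q.ι.comp (Z.X 0))
  have hM : ∀ j t, M j t = S.rep (Z.w j) (Q.ι (Z.X 0 t)) := fun j t => rfl
  have hM1 : ∀ j t, M (j + 1) t = S.rep (Z.h j) (M j t) := by
    intro j t
    rw [hM, hM, Z.ws, map_mul]
    rfl
  have hv0 : ∀ t, Q.π (M 0 t) = Z.X 0 t := by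
    intro t
    rw [hM, Z.w0, map_one]
    exact Q.πι _
  have hs0 : ∀ t, Q.s (M 0 t) = 0 := by
    intro t
    rw [hM, Z.w0, map_one]
    exact Q.sι _
  have hv1 : ∀ j t, Q.π (M (j + 1) t) = Z.X j (Z.A (Z.Y (Q.π (M j t)))) + Z.R j (Q.π (M j t)) := by
    intro j t
    rw [hM1, Q.equiv, Z.dec]
  have hs1 : ∀ j t, Q.s (M (j + 1) t) =
      Q.s (M j t) + Q.s (S.rep (Z.h j) (Q.ι (Q.π (M j t)))) := by
    intro j t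
    conv_lhs => rw [hM1, Q.split (M j t), wp_step Q (Z.h j) (Z.hmem j)]
    rw [map_add, map_smul, Q.su, Q.sι]
    simp
  have ht : ∀ t, ‖t‖ ≤ Z.C * ‖Z.Y (Q.π (M 0 t))‖ := by
    intro t
    rw [hv0]
    conv_lhs => rw [← Z.hNYX 0 t]
    exact (Z.N 0).le_of_opNorm_le (Z.hN 0) _
  have hcone : ∀ t j, ‖Q.π (M j t)‖ ≤ 4 * Z.C ^ 2 * ‖Z.Y (Q.π (M j t))‖ ∧
      2 ^ j * ‖Z.Y (Q.π (M 0 t))‖ ≤ ‖Z.Y (Q.π (M j t))‖ := by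
    intro t j
    refine hyp_cone Z.C Z.η Z.hC Z.hη Z.hηC Z.A Z.A' Z.hA Z.hA' Z.Y Z.hY Z.X Z.N Z.R Z.hX Z.hN
      Z.hR Z.hNYX j (fun i => Q.π (M i t)) (fun i _ => hv1 i t) ?_ j le_rfl
    show ‖Q.π (M 0 t)‖ ≤ 4 * Z.C ^ 2 * ‖Z.Y (Q.π (M 0 t))‖
    have e1 : ‖Q.π (M 0 t)‖ ≤ Z.C * ‖t‖ := by
      rw [hv0]
      exact (Z.X 0).le_of_opNorm_le (Z.hX 0) _
    have e2 := mul_le_mul_of_nonneg_left (ht t) hC0
    have e3 : 0 ≤ Z.C ^ 2 * ‖Z.Y (Q.π (M 0 t))‖ := by positivity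
    nlinarith
  have hone : ∀ t j, 2 * ‖Z.Y (Q.π (M j t))‖ ≤ ‖Z.Y (Q.π (M (j + 1) t))‖ := by
    intro t j
    have h := (hyp_cone Z.C Z.η Z.hC Z.hη Z.hηC Z.A Z.A' Z.hA Z.hA' Z.Y Z.hY
      (fun i => Z.X (j + i)) (fun i => Z.N (j + i)) (fun i => Z.R (j + i)) (fun i => Z.hX _)
      (fun i => Z.hN _) (fun i => Z.hR _) (fun i => Z.hNYX _) 1 (fun i => Q.π (M (j + i) t))
      (fun i _ => hv1 (j + i) t) (hcone t j).1 1 le_rfl).2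
    simpa using h
  have ha : ∀ t j, |Q.s (M j t)| ≤ 4 * Z.C ^ 2 * B * ‖Z.Y (Q.π (M j t))‖ := by
    intro t j
    induction j with
    | zero =>
      rw [hs0, abs_zero]
      positivity
    | succ j ih =>
      rw [hs1]
      have e1 := hB j (Q.π (M j t))
      have e2 := mul_le_mul_of_nonneg_left (hcone t j).1 hB0
      have e3 := mul_le_mul_of_nonneg_left (hone t j) (by positivity : 0 ≤ 4 * Z.C ^ 2 * B)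
      have e4 := abs_add_le (Q.s (M j t)) (Q.s (S.rep (Z.h j) (Q.ι (Q.π (M j t)))))
      nlinarith
  have hz : ∀ t j, ‖M j t‖ ≤ K₁ * ‖Z.Y (Q.π (M j t))‖ := by
    intro t j
    have e1 : ‖M j t‖ ≤ |Q.s (M j t)| * ‖Q.u₀‖ + ‖Q.ι‖ * ‖Q.π (M j t)‖ := by
      conv_lhs => rw [Q.split (M j t)]
      refine (norm_add_le _ _).trans (add_le_add ?_ (Q.ι.le_opNorm _))
      rw [norm_smul, Real.norm_eq_abs]
    have e2 := mul_le_mul_of_nonneg_right (ha t j) (norm_nonneg Q.u₀)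
    have e3 := mul_le_mul_of_nonneg_left (hcone t j).1 (norm_nonneg Q.ι)
    rw [hK₁]
    nlinarith
  -- the linear map
  let P : T →ₗ[ℝ] T := ((Z.Y.comp (Q.π.comp (M n)) : T →L[ℝ] T) : T →ₗ[ℝ] T)
  have hP : ∀ t, P t = Z.Y (Q.π (M n t)) := fun t => rfl
  have hbd : ∀ t, ‖t‖ ≤ Z.C * ((1 / 2) ^ n * ‖P t‖) := by
    intro t
    have e1 := (hcone t n).2
    have e2 : ‖Z.Y (Q.π (M 0 t))‖ ≤ (1 / 2) ^ n * ‖P t‖ := by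
      rw [hP]
      have e3 : ((1 : ℝ) / 2) ^ n * 2 ^ n = 1 := by
        rw [← mul_pow]
        norm_num
      have e4 : (0 : ℝ) ≤ (1 / 2) ^ n := by positivity
      calc ‖Z.Y (Q.π (M 0 t))‖ = (1 / 2) ^ n * (2 ^ n * ‖Z.Y (Q.π (M 0 t))‖) := by
            rw [← mul_assoc, e3, one_mul]
        _ ≤ _ := mul_le_mul_of_nonneg_left e1 e4
    exact (ht t).trans (mul_le_mul_of_nonneg_left e2 hC0)
  have hinj : Function.Injective P := by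
    rw [← LinearMap.ker_eq_bot, LinearMap.ker_eq_bot']
    intro t h0
    have := hbd t
    rw [h0, norm_zero, mul_zero, mul_zero] at this
    exact norm_le_zero_iff.1 this
  let e := LinearEquiv.ofInjectiveEndo P hinj
  have he : ∀ θ, P (e.symm θ) = θ := fun θ => e.apply_symm_apply θ
  let L : T →L[ℝ] S.U :=
    LinearMap.toContinuousLinearMap ((M n : T →ₗ[ℝ] S.U).comp (e.symm : T →ₗ[ℝ] T))
  have hL : ∀ θ, L θ = M n (e.symm θ) := fun θ => rfl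
  have hkey : 0 ≤ ‖Q.ι‖ * Z.C ^ 2 := by positivity
  refine ⟨L, ?_, fun θ => ?_, fun θ => ⟨Q.ι (Z.X 0 (e.symm θ)), ?_, ?_⟩⟩
  · refine ContinuousLinearMap.opNorm_le_bound _ (by linarith) (fun θ => ?_)
    have e1 := hz (e.symm θ) n
    rw [← hP, he] at e1
    rw [hL]
    have e2 : 0 ≤ ‖Q.ι‖ * Z.C ^ 2 * ‖θ‖ := by positivity
    linarith
  · rw [hL, ← hP, he]
  · have e1 : ‖Q.ι (Z.X 0 (e.symm θ))‖ ≤ ‖Q.ι‖ * (Z.C * ‖e.symm θ‖) :=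
      Q.ι.le_of_opNorm_le_of_le le_rfl ((Z.X 0).le_of_opNorm_le (Z.hX 0) _)
    have e2 := hbd (e.symm θ)
    rw [he] at e2
    have e3 := mul_le_mul_of_nonneg_left (mul_le_mul_of_nonneg_left e2 hC0) (norm_nonneg Q.ι)
    have e4 : 0 ≤ K₁ * ((1 / 2) ^ n * ‖θ‖) := by positivity
    nlinarith
  · rw [hL, hM]

theorem words_seq (Z : Words S G₀ T ρ) (Q : LineExt S G₀ ρ) (Um : ℝ) :
    ∃ K : ℝ, ∀ u : ℕ → S.U, (∀ j, ‖u j‖ ≤ Um) → ∀ n : ℕ, ∃ z : ℕ → S.U,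
      (∀ j < n, z (j + 1) = S.rep (Z.h j) (z j) + u j) ∧ ‖z 0‖ ≤ K ∧ ‖z n‖ ≤ K * (n + 1) := by
  obtain ⟨B, hB0, hB⟩ := wp_bdd Z Q
  have hC0 : 0 ≤ Z.C := by linarith [Z.hC]
  obtain ⟨K₂, hK₂⟩ : ∃ K₂, K₂ = 6 * Z.C ^ 3 * (‖Q.π‖ * Um) := ⟨_, rfl⟩
  refine ⟨(B * K₂ + ‖Q.s‖ * Um) * ‖Q.u₀‖ + ‖Q.ι‖ * K₂, fun u hu n => ?_⟩
  have hUm : 0 ≤ Um := (norm_nonneg _).trans (hu 0)
  have hK₂0 : 0 ≤ K₂ := by rw [hK₂]; positivity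
  obtain ⟨v, hv, hvn⟩ := hyp_seq_all Z.C Z.η (‖Q.π‖ * Um) Z.hC Z.hη Z.hηC (by positivity) Z.A Z.A'
    Z.hA Z.hA' Z.Y Z.hY Z.X Z.N Z.R Z.hX Z.hN Z.hR Z.hNYX (fun j => Q.π (u j))
    (fun j => Q.π.le_of_opNorm_le_of_le le_rfl (hu j)) n
  rw [← hK₂] at hvn
  let a : ℕ → ℝ := fun k => Nat.rec (0 : ℝ)
    (fun j aj => aj + Q.s (S.rep (Z.h j) (Q.ι (v j))) + Q.s (u j)) k
  have ha0 : a 0 = 0 := rfl
  have ha1 : ∀ j, a (j + 1) = a j + Q.s (S.rep (Z.h j) (Q.ι (v j))) + Q.s (u j) := fun j => rfl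
  have hab : ∀ j ≤ n, |a j| ≤ j * (B * K₂ + ‖Q.s‖ * Um) := by
    intro j
    induction j with
    | zero => intro _; simp [ha0]
    | succ j ih =>
      intro hj
      have i1 := ih (by omega)
      have e1 := (hB j (v j)).trans (mul_le_mul_of_nonneg_left (hvn j (by omega)) hB0)
      have e2 : |Q.s (u j)| ≤ ‖Q.s‖ * Um := by
        rw [← Real.norm_eq_abs]
        exact Q.s.le_of_opNorm_le_of_le le_rfl (hu j)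
      rw [ha1]
      have e3 := abs_add_le (a j + Q.s (S.rep (Z.h j) (Q.ι (v j)))) (Q.s (u j))
      have e4 := abs_add_le (a j) (Q.s (S.rep (Z.h j) (Q.ι (v j))))
      push_cast
      linarith
  refine ⟨fun j => a j • Q.u₀ + Q.ι (v j), fun j hj => ?_, ?_, ?_⟩
  · show a (j + 1) • Q.u₀ + Q.ι (v (j + 1)) = S.rep (Z.h j) (a j • Q.u₀ + Q.ι (v j)) + u j
    rw [wp_step Q (Z.h j) (Z.hmem j), hv j hj, ← Z.dec]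
    conv_rhs => rw [Q.split (u j)]
    rw [ha1, map_add, add_smul (a j + _)]
    abel
  · show ‖a 0 • Q.u₀ + Q.ι (v 0)‖ ≤ _
    rw [ha0, zero_smul, zero_add]
    have e1 : ‖Q.ι (v 0)‖ ≤ ‖Q.ι‖ * K₂ := Q.ι.le_of_opNorm_le_of_le le_rfl (hvn 0 (Nat.zero_le _))
    have e2 : 0 ≤ (B * K₂ + ‖Q.s‖ * Um) * ‖Q.u₀‖ := by positivity
    linarith
  · show ‖a n • Q.u₀ + Q.ι (v n)‖ ≤ _
    have e1 : ‖Q.ι (v n)‖ ≤ ‖Q.ι‖ * K₂ := Q.ι.le_of_opNorm_le_of_le le_rfl (hvn n le_rfl)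
    have e2 : ‖a n • Q.u₀‖ ≤ n * (B * K₂ + ‖Q.s‖ * Um) * ‖Q.u₀‖ := by
      rw [norm_smul, Real.norm_eq_abs]
      exact mul_le_mul_of_nonneg_right (hab n le_rfl) (norm_nonneg _)
    have e3 := norm_add_le (a n • Q.u₀) (Q.ι (v n))
    have e4 : 0 ≤ (B * K₂ + ‖Q.s‖ * Um) * ‖Q.u₀‖ := by positivity
    have e5 : 0 ≤ (n : ℝ) * (‖Q.ι‖ * K₂) := by positivity
    nlinarith

end

end Pool.AF
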