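import Pool.Agent.Helper94.AC.Defs

/-!
# Steered words, and extensions by a line (definitions)
-/

open Set Filter Topology Matrix

set_option linter.unusedSectionVars false

namespace Pool.AF

open Pool.SV

section

variable {E : Type*} [NormedAddCommGroup E] [NormedSpace ℝ E] [FiniteDimensional ℝ E]
  {D : Geo E}

/-- A sequence of words `w j = h (j - 1) * ⋯ * h 0` of `G₀`, near the identity on the base, where the
`h j` are in a finite set and act in the representation `ρ` by the hyperbolic maps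
`v ↦ X j (A (Y v)) + R j v` (see `AB/HypSeq.lean`). -/
structure Words (S : InvSub D) (G₀ : Subgroup D.Γ) {W : Type*} [NormedAddCommGroup W]
    [NormedSpace ℝ W] (T : Type*) [NormedAddCommGroup T] [NormedSpace ℝ T]
    (ρ : D.Γ →* (W →L[ℝ] W)) where
  h : ℕ → D.Γ
  w : ℕ → D.Γ
  C : ℝ
  η : ℝ
  A : T →L[ℝ] T
  A' : T →L[ℝ] T
  Y : W →L[ℝ] T
  X : ℕ → T →L[ℝ] W
  N : ℕ → T →L[ℝ] T
  R : ℕ → W →L[ℝ] W
  hmem : ∀ j, h j ∈ G₀
  w0 : w 0 = 1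
  ws : ∀ j, w (j + 1) = h j * w j
  near : ∀ j, ‖S.base (w j) - 1‖ ≤ 1 / 2
  fin : (Set.range h).Finite
  hC : 1 ≤ C
  hη : 0 ≤ η
  hηC : η * (6 * C ^ 3) ≤ 1
  hA : ∀ t, A' (A t) = t
  hA' : ‖A'‖ ≤ η
  hY : ‖Y‖ ≤ C
  hX : ∀ j, ‖X j‖ ≤ C
  hN : ∀ j, ‖N j‖ ≤ C
  hR : ∀ j, ‖R j‖ ≤ η
  hNYX : ∀ j t, N j (Y (X j t)) = t
  dec : ∀ j v, ρ (h j) v = X j (A (Y v)) + R j v

/-- `S.U` is an extension of the representation `ρ` of `G₀` by the fixed vector `u₀`. -/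
structure LineExt (S : InvSub D) (G₀ : Subgroup D.Γ) {W : Type*} [NormedAddCommGroup W]
    [NormedSpace ℝ W] (ρ : D.Γ →* (W →L[ℝ] W)) where
  u₀ : S.U
  s : S.U →L[ℝ] ℝ
  π : S.U →L[ℝ] W
  ι : W →L[ℝ] S.U
  su : s u₀ = 1
  πu : π u₀ = 0
  sι : ∀ x, s (ι x) = 0
  πι : ∀ x, π (ι x) = x
  split : ∀ v, v = s v • u₀ + ι (π v)
  fix : ∀ g ∈ G₀, S.rep g u₀ = u₀
  equiv : ∀ g : D.Γ, ∀ v, π (S.rep g v) = ρ g (π v)

theorem Words.wmem {S : InvSub D} {G₀ : Subgroup D.Γ} {W : Type*} [NormedAddCommGroup W]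
    [NormedSpace ℝ W] {T : Type*} [NormedAddCommGroup T] [NormedSpace ℝ T]
    {ρ : D.Γ →* (W →L[ℝ] W)} (Z : Words S G₀ T ρ) (j : ℕ) : Z.w j ∈ G₀ := by
  induction j with
  | zero => rw [Z.w0]; exact G₀.one_mem
  | succ j ih => rw [Z.ws]; exact G₀.mul_mem (Z.hmem j) ih

end

end Pool.AF
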