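import Pool.Agent.Helper94.AC.Defs

/-!
# AC-1 ZAR: the local Zariski closure

`G` is a group with a Noetherian topology in which all translations are continuous (the Zariski
topology of a linear group); `N` is a normal subgroup and `U 0 ⊇ U 1 ⊇ ...` a sequence of subsets of
`N` containing `1` (the elements close to the identity in another topology).

Proof. The closed sets `closure (U n)` decrease, so there is `n₀` with `closure (U n) =
closure (U n₀) =: C` for all `n ≥ n₀` (Noetherian). 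

`C * C ⊆ C`: let `m ≥ n₀` be as in `hmul` for `n₀`. For `a ∈ U m`, `a (U m) ⊆ U n₀ ⊆ C`, so
`a C = a (closure (U m)) ⊆ C` (left translation is continuous). So `(U m) c ⊆ C` for `c ∈ C` and
`C c = closure (U m) c ⊆ C` (right translation is continuous). Inverses: for `c ∈ C` the sets
`c ^ n C` are closed (left translations are homeomorphisms) and decrease, so `c ^ n C =
c ^ (n+1) C` for some `n`, so `C = c C`; as `1 ∈ C` there is `c' ∈ C` with `c c' = 1`. So `C` is a
subgroup. It is invariant under conjugations (`hconj` for `n₀`, and `m ≥ n₀`: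
`g (closure (U m)) g⁻¹ ⊆ closure (g (U m) g⁻¹) ⊆ C`). Put `Z = C ∩ N`, a normal subgroup of `G`.

`Z`, with the induced topology, is a Noetherian space with continuous translations. Let `G₀` be
the irreducible component of `1` in `Z`. As in the proof of `conn_top` in
`Pool/Agent/Helper94/AB/Conn.lean` (private there: copy it), it is an irreducible closed subgroup of
`Z` of finite index, and it contains every irreducible subset of `Z` containing `1`. It is normal in
`G`: conjugation by `g` maps `Z` to `Z` homeomorphically and fixes `1`.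

`G₀ ⊆ closure (U n ∩ G₀)` for `n ≥ n₀`: `Z ⊆ closure (U n)` and `U n ⊆ Z` is the union of the
finitely many sets `U n ∩ z G₀`, `z` in a set of representatives of `Z / G₀`; in the space `Z` the
coset `z G₀` is closed, so the closure of `U n ∩ z G₀` in `Z` is contained in `z G₀`, disjoint from
`G₀` if `z ∉ G₀`. As `G₀` is contained in the union of these closures, it is contained in the
closure of `U n ∩ G₀`.
-/

open Set

set_option linter.unusedSectionVars false

namespace Pool.AF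

private theorem zar_mul_irr {G : Type*} [Group G] [TopologicalSpace G]
    (hL : ∀ h : G, Continuous fun g => h * g)
    (hR : ∀ h : G, Continuous fun g => g * h) {A B : Set G} (hA : IsIrreducible A)
    (hB : IsIrreducible B) : IsIrreducible (Set.image2 (fun a b => a * b) A B) := by
  refine ⟨hA.1.image2 hB.1, ?_⟩
  rw [isPreirreducible_iff_isClosed_union_isClosed]
  intro C₁ C₂ h₁ h₂ hC
  have key : ∀ a ∈ A, (∀ b ∈ B, a * b ∈ C₁) ∨ (∀ b ∈ B, a * b ∈ C₂) := by
    intro a ha
    have := (isPreirreducible_iff_isClosed_union_isClosed.1 hB.2)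
      ((fun g => a * g) ⁻¹' C₁) ((fun g => a * g) ⁻¹' C₂) (h₁.preimage (hL a))
      (h₂.preimage (hL a)) (fun b hb => hC ⟨a, ha, b, hb, rfl⟩)
    exact this
  have hcl : ∀ C : Set G, IsClosed C → IsClosed {a : G | ∀ b ∈ B, a * b ∈ C} := by
    intro C hC'
    have : {a : G | ∀ b ∈ B, a * b ∈ C} = ⋂ b ∈ B, (fun g => g * b) ⁻¹' C := by
      ext a
      simp
    rw [this]
    exact isClosed_biInter fun b _ => hC'.preimage (hR b)
  rcases (isPreirreducible_iff_isClosed_union_isClosed.1 hA.2) _ _ (hcl C₁ h₁) (hcl C₂ h₂)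
    (fun a ha => key a ha) with h | h
  · left
    rintro _ ⟨a, ha, b, hb, rfl⟩
    exact h ha b hb
  · right
    rintro _ ⟨a, ha, b, hb, rfl⟩
    exact h ha b hb

private theorem zar_top {G : Type*} [Group G] [TopologicalSpace G]
    [TopologicalSpace.NoetherianSpace G]
    (hL : ∀ h : G, Continuous fun g => h * g) (hR : ∀ h : G, Continuous fun g => g * h) :
    ∃ G₁ : Subgroup G, G₁.FiniteIndex ∧ IsIrreducible (G₁ : Set G) ∧ IsClosed (G₁ : Set G) ∧
      ∀ A : Set G, IsIrreducible A → (1 : G) ∈ A → A ⊆ (G₁ : Set G) := by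
  set Z : Set G := irreducibleComponent (1 : G) with hZ
  have hZi : IsIrreducible Z := isIrreducible_irreducibleComponent
  have h1Z : (1 : G) ∈ Z := mem_irreducibleComponent
  have hsub : ∀ A : Set G, IsIrreducible A → (1 : G) ∈ A → A ⊆ Z := by
    intro A hA h1
    have h2 := zar_mul_irr hL hR hA hZi
    have h3 : Z ⊆ Set.image2 (fun a b => a * b) A Z := fun z hz => ⟨1, h1, z, hz, one_mul z⟩
    have h4 := eq_irreducibleComponent h2.2 h3
    rw [← hZ] at h4
    intro a ha
    rw [← h4]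
    exact ⟨a, ha, 1, h1Z, mul_one a⟩
  have himg : ∀ (g : G) (A : Set G), IsIrreducible A → IsIrreducible ((fun x => g * x) '' A) :=
    fun g A hA => hA.image _ (hL g).continuousOn
  have hmul : ∀ a ∈ Z, ∀ b ∈ Z, a * b ∈ Z := by
    intro a ha b hb
    exact hsub _ (zar_mul_irr hL hR hZi hZi) ⟨1, h1Z, 1, h1Z, one_mul 1⟩ ⟨a, ha, b, hb, rfl⟩
  have hinv : ∀ a ∈ Z, a⁻¹ ∈ Z := by
    intro a ha
    exact hsub _ (himg a⁻¹ Z hZi) ⟨a, ha, inv_mul_cancel a⟩ ⟨1, h1Z, mul_one _⟩
  let G₁ : Subgroup G :=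
    { carrier := Z
      mul_mem' := fun {a b} ha hb => hmul a ha b hb
      one_mem' := h1Z
      inv_mem' := fun {a} ha => hinv a ha }
  have hcomp : ∀ a b : G, b ∈ irreducibleComponent a → a⁻¹ * b ∈ G₁ := by
    intro a b hb
    have := hsub _ (himg a⁻¹ _ (isIrreducible_irreducibleComponent (x := a)))
      ⟨a, mem_irreducibleComponent, inv_mul_cancel a⟩
    exact this ⟨b, hb, rfl⟩
  refine ⟨G₁, ?_, hZi, isClosed_irreducibleComponent, hsub⟩
  have hfin : (irreducibleComponents G).Finite :=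
    TopologicalSpace.NoetherianSpace.finite_irreducibleComponents
  have : Finite (irreducibleComponents G) := hfin
  have : Finite (G ⧸ G₁) := by
    refine Finite.of_injective (fun q : G ⧸ G₁ =>
      (⟨irreducibleComponent (Quotient.out q), irreducibleComponent_mem_irreducibleComponents _⟩ :
        irreducibleComponents G)) ?_
    intro q r hqr
    have h1 : irreducibleComponent (Quotient.out q) = irreducibleComponent (Quotient.out r) :=
      congrArg Subtype.val hqr
    have h2 : (Quotient.out r) ∈ irreducibleComponent (Quotient.out q) := by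
      rw [h1]
      exact mem_irreducibleComponent
    have h3 := hcomp _ _ h2
    have h4 : ((Quotient.out q : G) : G ⧸ G₁) = ((Quotient.out r : G) : G ⧸ G₁) :=
      QuotientGroup.eq.2 h3
    have h5 : ((Quotient.out q : G) : G ⧸ G₁) = q := Quotient.out_eq' q
    have h6 : ((Quotient.out r : G) : G ⧸ G₁) = r := Quotient.out_eq' r
    rw [← h5, h4, h6]
  exact Subgroup.finiteIndex_of_finite_quotient

private theorem zar_stab {G : Type*} [TopologicalSpace G] [TopologicalSpace.NoetherianSpace G]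
    (C : ℕ → Set G) (hC : ∀ n, IsClosed (C n)) (hanti : ∀ n, C (n + 1) ⊆ C n) :
    ∃ n₀, ∀ n, n₀ ≤ n → C n = C n₀ := by
  have hA : Antitone C := antitone_nat_of_succ_le hanti
  obtain ⟨D, ⟨n₀, rfl⟩, hmin⟩ := (wellFounded_lt (α := TopologicalSpace.Closeds G)).has_min
    (Set.range fun n => (⟨C n, hC n⟩ : TopologicalSpace.Closeds G)) ⟨_, 0, rfl⟩
  refine ⟨n₀, fun n hn => ?_⟩
  have h1 : C n ⊆ C n₀ := hA hn
  by_contra hne
  refine hmin ⟨C n, hC n⟩ ⟨n, rfl⟩ ?_
  exact lt_of_le_of_ne h1 (fun h => hne (congrArg (fun D : TopologicalSpace.Closeds G =>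
    (D : Set G)) h))

/-- A closed subgroup of finite index is open. -/
private theorem zar_open {G : Type*} [Group G] [TopologicalSpace G]
    (hL : ∀ h : G, Continuous fun g => h * g) (H : Subgroup G) (hH : H.FiniteIndex)
    (hc : IsClosed (H : Set G)) : IsOpen (H : Set G) := by
  have hf : Finite (G ⧸ H) := H.finite_quotient_of_finiteIndex
  rw [← isClosed_compl_iff]
  have h1 : (H : Set G)ᶜ = ⋃ q ∈ {q : G ⧸ H | q ≠ ((1 : G) : G ⧸ H)},
      (fun g => (Quotient.out q)⁻¹ * g) ⁻¹' (H : Set G) := by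
    ext g
    simp only [Set.mem_compl_iff, Set.mem_iUnion, Set.mem_preimage, SetLike.mem_coe,
      Set.mem_ofPred_eq, exists_prop]
    constructor
    · intro hg
      refine ⟨(g : G ⧸ H), fun h => hg ?_, ?_⟩
      · have := QuotientGroup.eq.1 h.symm
        simpa using this
      · exact QuotientGroup.eq.1 (Quotient.out_eq' (g : G ⧸ H))
    · rintro ⟨q, hq, h2⟩ hg
      apply hq
      have h3 : ((Quotient.out q : G) : G ⧸ H) = (g : G ⧸ H) := QuotientGroup.eq.2 h2
      have h4 : ((Quotient.out q : G) : G ⧸ H) = q := Quotient.out_eq' q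
      rw [← h4, h3]
      exact QuotientGroup.eq.2 (by simpa using H.inv_mem hg)
  rw [h1]
  exact (Set.toFinite _).isClosed_biUnion fun q _ => hc.preimage (hL _)

theorem zar_core {G : Type*} [Group G] [TopologicalSpace G] [TopologicalSpace.NoetherianSpace G]
    (hL : ∀ h : G, Continuous fun g => h * g) (hR : ∀ h : G, Continuous fun g => g * h)
    (N : Subgroup G) [N.Normal] (U : ℕ → Set G) (hUN : ∀ n, U n ⊆ (N : Set G))
    (h1 : ∀ n, (1 : G) ∈ U n) (hanti : ∀ n, U (n + 1) ⊆ U n)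
    (hmul : ∀ n, ∃ m, ∀ a ∈ U m, ∀ b ∈ U m, a * b ∈ U n)
    (hconj : ∀ (g : G) (n : ℕ), ∃ m, ∀ a ∈ U m, g * a * g⁻¹ ∈ U n) :
    ∃ (G₀ Z : Subgroup G) (n₀ : ℕ), G₀ ≤ Z ∧ Z ≤ N ∧ G₀.Normal ∧ G₀.relIndex Z ≠ 0 ∧
      U n₀ ⊆ (Z : Set G) ∧ IsIrreducible (G₀ : Set G) ∧
      ∀ n, n₀ ≤ n → (G₀ : Set G) ⊆ closure (U n ∩ (G₀ : Set G)) := by
  have hA : Antitone U := antitone_nat_of_succ_le hanti
  obtain ⟨n₀, hn₀⟩ := zar_stab (fun n => closure (U n)) (fun n => isClosed_closure)
    (fun n => closure_mono (hanti n))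
  set C : Set G := closure (U n₀) with hCdef
  have hCc : IsClosed C := isClosed_closure
  have hUC : U n₀ ⊆ C := subset_closure
  have hC1 : (1 : G) ∈ C := hUC (h1 n₀)
  have hCmul : ∀ a ∈ C, ∀ b ∈ C, a * b ∈ C := by
    obtain ⟨m, hm⟩ := hmul n₀
    have hm' : closure (U (max m n₀)) = C := hn₀ _ (le_max_right _ _)
    have hmm : U (max m n₀) ⊆ U m := hA (le_max_left _ _)
    have s1 : ∀ a ∈ U (max m n₀), ∀ b ∈ C, a * b ∈ C := by
      intro a ha b hb
      have h2 : closure (U (max m n₀)) ⊆ (fun g => a * g) ⁻¹' C :=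
        closure_minimal (fun x hx => hUC (hm a (hmm ha) x (hmm hx))) (hCc.preimage (hL a))
      rw [hm'] at h2
      exact h2 hb
    intro a ha b hb
    have h2 : closure (U (max m n₀)) ⊆ (fun g => g * b) ⁻¹' C :=
      closure_minimal (fun x hx => s1 x hx b hb) (hCc.preimage (hR b))
    rw [hm'] at h2
    exact h2 ha
  have hCinv : ∀ c ∈ C, c⁻¹ ∈ C := by
    intro c hc
    obtain ⟨n, hn⟩ := zar_stab (fun n => (fun g => (c ^ n)⁻¹ * g) ⁻¹' C)
      (fun n => hCc.preimage (hL _)) (by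
        intro n g hg
        change (c ^ n)⁻¹ * g ∈ C
        have h2 : (c ^ n)⁻¹ * g = c * ((c ^ (n + 1))⁻¹ * g) := by
          rw [pow_succ]
          group
        rw [h2]
        exact hCmul c hc _ hg)
    have h2 := hn (n + 1) (Nat.le_succ n)
    have h3 : c ^ n ∈ (fun g => (c ^ n)⁻¹ * g) ⁻¹' C := by
      change (c ^ n)⁻¹ * c ^ n ∈ C
      rw [inv_mul_cancel]
      exact hC1
    have h4 : c ^ n ∈ (fun g => (c ^ (n + 1))⁻¹ * g) ⁻¹' C := by
      have h5 : (fun g => (c ^ (n + 1))⁻¹ * g) ⁻¹' C = (fun g => (c ^ n)⁻¹ * g) ⁻¹' C := h2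
      rw [h5]
      exact h3
    have h5 : (c ^ (n + 1))⁻¹ * c ^ n = c⁻¹ := by
      rw [pow_succ']
      group
    have h6 : (c ^ (n + 1))⁻¹ * c ^ n ∈ C := h4
    rwa [h5] at h6
  have hCconj : ∀ g : G, ∀ c ∈ C, g * c * g⁻¹ ∈ C := by
    intro g c hc
    obtain ⟨m, hm⟩ := hconj g n₀
    have hm' : closure (U (max m n₀)) = C := hn₀ _ (le_max_right _ _)
    have hmm : U (max m n₀) ⊆ U m := hA (le_max_left _ _)
    have hcont : Continuous fun x : G => g * x * g⁻¹ := (hR g⁻¹).comp (hL g)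
    have h2 : closure (U (max m n₀)) ⊆ (fun x => g * x * g⁻¹) ⁻¹' C :=
      closure_minimal (fun x hx => hUC (hm x (hmm hx))) (hCc.preimage hcont)
    rw [hm'] at h2
    exact h2 hc
  let Z : Subgroup G :=
    { carrier := C ∩ (N : Set G)
      mul_mem' := fun {a b} ha hb => ⟨hCmul a ha.1 b hb.1, N.mul_mem ha.2 hb.2⟩
      one_mem' := ⟨hC1, N.one_mem⟩
      inv_mem' := fun {a} ha => ⟨hCinv a ha.1, N.inv_mem ha.2⟩ }
  have hZmem : ∀ x : G, x ∈ Z ↔ x ∈ C ∧ x ∈ N := fun x => Iff.rfl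
  have hUZ : ∀ n, n₀ ≤ n → U n ⊆ (Z : Set G) :=
    fun n hn x hx => ⟨hUC (hA hn hx), hUN n hx⟩
  have hLZ : ∀ h : Z, Continuous fun g : Z => h * g := fun h =>
    Continuous.subtype_mk ((hL (h : G)).comp continuous_subtype_val) _
  have hRZ : ∀ h : Z, Continuous fun g : Z => g * h := fun h =>
    Continuous.subtype_mk ((hR (h : G)).comp continuous_subtype_val) _
  have hNZ : TopologicalSpace.NoetherianSpace Z :=
    Topology.IsInducing.subtypeVal.noetherianSpace
  obtain ⟨G₁, hfin, hirr, hcl, hmax⟩ := zar_top hLZ hRZ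
  have hop : IsOpen (G₁ : Set Z) := zar_open hLZ G₁ hfin hcl
  have hmem : ∀ x : G, x ∈ G₁.map Z.subtype ↔ ∃ h : x ∈ Z, (⟨x, h⟩ : Z) ∈ G₁ := by
    intro x
    rw [Subgroup.mem_map]
    constructor
    · rintro ⟨y, hy, rfl⟩
      exact ⟨y.2, hy⟩
    · rintro ⟨h, h'⟩
      exact ⟨⟨x, h⟩, h', rfl⟩
  refine ⟨G₁.map Z.subtype, Z, n₀, Subgroup.map_subtype_le G₁, fun x hx => hx.2, ⟨?_⟩, ?_,
    hUZ n₀ le_rfl, ?_, ?_⟩
  · intro x hx g
    obtain ⟨hxZ, hx1⟩ := (hmem x).1 hx
    have hgZ : ∀ z : Z, g * (z : G) * g⁻¹ ∈ Z := fun z =>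
      ⟨hCconj g z z.2.1, Subgroup.Normal.conj_mem inferInstance _ z.2.2 g⟩
    let φ : Z → Z := fun z => ⟨g * (z : G) * g⁻¹, hgZ z⟩
    have hφ : Continuous φ := Continuous.subtype_mk
      (((hR g⁻¹).comp (hL g)).comp continuous_subtype_val) _
    have h2 : IsIrreducible (φ '' (G₁ : Set Z)) := hirr.image _ hφ.continuousOn
    have h3 : (1 : Z) ∈ φ '' (G₁ : Set Z) := by
      refine ⟨1, G₁.one_mem, ?_⟩
      apply Subtype.ext
      change g * ((1 : Z) : G) * g⁻¹ = ((1 : Z) : G)
      rw [Subgroup.coe_one, mul_one, mul_inv_cancel]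
    rw [hmem]
    exact ⟨hgZ ⟨x, hxZ⟩, hmax _ h2 h3 ⟨⟨x, hxZ⟩, hx1, rfl⟩⟩
  · have h2 : (G₁.map Z.subtype).subgroupOf Z = G₁ := by
      ext z
      rw [Subgroup.mem_subgroupOf, hmem]
      exact ⟨fun ⟨_, h⟩ => h, fun h => ⟨z.2, h⟩⟩
    rw [Subgroup.relIndex, h2]
    exact hfin.index_ne_zero
  · have h2 : ((G₁.map Z.subtype : Subgroup G) : Set G) = Subtype.val '' (G₁ : Set Z) := by
      rw [Subgroup.coe_map]
      rfl
    rw [h2]
    exact hirr.image _ continuous_subtype_val.continuousOn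
  · intro n hn x hx
    obtain ⟨hxZ, hx1⟩ := (hmem x).1 hx
    set V : Set Z := {z : Z | (z : G) ∈ U n} with hV
    have h2 : (⟨x, hxZ⟩ : Z) ∈ closure V := by
      rw [closure_subtype]
      have h3 : (Subtype.val '' V : Set G) = U n := by
        ext y
        constructor
        · rintro ⟨z, hz, rfl⟩
          exact hz
        · intro hy
          exact ⟨⟨y, hUZ n hn hy⟩, hy, rfl⟩
      rw [h3]
      have h4 : closure (U n) = C := hn₀ n hn
      rw [h4]
      exact hxZ.1
    have h3 : (⟨x, hxZ⟩ : Z) ∈ closure ((G₁ : Set Z) ∩ V) := hop.inter_closure ⟨hx1, h2⟩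
    rw [closure_subtype] at h3
    refine closure_mono ?_ h3
    rintro y ⟨z, ⟨hz1, hz2⟩, rfl⟩
    exact ⟨hz2, (hmem _).2 ⟨z.2, hz1⟩⟩

end Pool.AF
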